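import Mathlib

set_option autoImplicit false

namespace Run7.h807

variable {V : Type*}

/-- the sign (in `ZMod 2`) of a list of vertices, read as a walk -/
def ls (σ : Sym2 V → ZMod 2) : List V → ZMod 2
  | [] => 0
  | [_] => 0
  | a :: b :: l => σ s(a, b) + ls σ (b :: l)

@[simp] theorem ls_nil (σ : Sym2 V → ZMod 2) : ls σ [] = 0 := rfl
@[simp] theorem ls_single (σ : Sym2 V → ZMod 2) (a : V) : ls σ [a] = 0 := rfl
@[simp] theorem ls_cons_cons (σ : Sym2 V → ZMod 2) (a b : V) (l : List V) :
    ls σ (a :: b :: l) = σ s(a, b) + ls σ (b :: l) := rfl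

theorem ls_split (σ : Sym2 V → ZMod 2) (l₁ : List V) (c : V) (l₂ : List V) :
    ls σ (l₁ ++ c :: l₂) = ls σ (l₁ ++ [c]) + ls σ (c :: l₂) := by
  induction l₁ with
  | nil => simp
  | cons a l ih =>
    cases l with
    | nil => simp
    | cons b l =>
      simp only [List.cons_append, ls_cons_cons] at ih ⊢
      rw [ih, add_assoc]

theorem ls_reverse (σ : Sym2 V → ZMod 2) (l : List V) : ls σ l.reverse = ls σ l := by
  induction l with
  | nil => simp
  | cons a l ih =>
    cases l with
    | nil => simp
    | cons b l =>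
      simp only [List.reverse_cons, List.append_assoc, List.cons_append, List.nil_append,
        ls_cons_cons] at ih ⊢
      rw [ls_split, ih]
      simp only [ls_cons_cons, ls_single, add_zero]
      rw [Sym2.eq_swap, add_comm]

/-- an edge `ab` of `G` consistent with the potential `π` -/
def Cons (G : SimpleGraph V) (σ : Sym2 V → ZMod 2) (π : V → ZMod 2) (a b : V) : Prop :=
  G.Adj a b ∧ σ s(a, b) = π a + π b

theorem Cons.symm {G : SimpleGraph V} {σ : Sym2 V → ZMod 2} {π : V → ZMod 2} {a b : V}
    (h : Cons G σ π a b) : Cons G σ π b a :=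
  ⟨h.1.symm, by rw [Sym2.eq_swap, h.2, add_comm]⟩

theorem two_self (a : ZMod 2) : a + a = 0 := CharTwo.add_self_eq_zero a

theorem ls_of_cons {G : SimpleGraph V} {σ : Sym2 V → ZMod 2} {π : V → ZMod 2} :
    ∀ (l : List V) (x y : V), l.IsChain (Cons G σ π) → l.head? = some x → l.getLast? = some y →
      ls σ l = π x + π y
  | [], x, y, _, h, _ => by simp at h
  | [a], x, y, _, h, h' => by
      simp at h h'
      subst h; subst h'
      simp [two_self]
  | a :: b :: l, x, y, hc, h, h' => by
      simp only [List.head?_cons, Option.some.injEq] at h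
      subst h
      rw [List.isChain_cons_cons] at hc
      rw [List.getLast?_cons_cons] at h'
      have := ls_of_cons (b :: l) b y hc.2 rfl h'
      rw [ls_cons_cons, this, hc.1.2]
      have := two_self (π b)
      linear_combination this

variable {G : SimpleGraph V}

/-- the sign of a walk -/
theorem walk_sign {u v : V} (σ : Sym2 V → ZMod 2) (p : G.Walk u v) :
    ls σ p.support = (p.edges.map σ).sum := by
  induction p with
  | nil => simp
  | cons h p ih =>
    rw [SimpleGraph.Walk.support_cons, SimpleGraph.Walk.edges_cons, List.map_cons, List.sum_cons,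
      ← ih]
    cases p with
    | nil => simp
    | cons h' p => simp

/-- all cycles with at least `m` edges have sign `t` (walk form) -/
def UniW (G : SimpleGraph V) (m : ℕ) (σ : Sym2 V → ZMod 2) (t : ZMod 2) : Prop :=
  ∀ (u : V) (p : G.Walk u u), p.IsCycle → m ≤ p.length → (p.edges.map σ).sum = t

/-- all cycles with at least `m` vertices have sign `t` (list form) -/
def Uni (G : SimpleGraph V) (m : ℕ) (σ : Sym2 V → ZMod 2) (t : ZMod 2) : Prop :=
  ∀ (l : List V) (x y : V), l.Nodup → l.IsChain G.Adj → l.head? = some x → l.getLast? = some y →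
    G.Adj y x → 3 ≤ l.length → m ≤ l.length → ls σ l + σ s(y, x) = t

theorem walk_of_list {l : List V} {x y : V} (hc : l.IsChain G.Adj) (hx : l.head? = some x)
    (hy : l.getLast? = some y) : ∃ p : G.Walk x y, p.support = l := by
  have hne : l ≠ [] := by rintro rfl; simp at hx
  refine ⟨(SimpleGraph.Walk.ofSupport l hne hc).copy ?_ ?_, ?_⟩
  · rw [List.head?_eq_some_head hne] at hx; simpa using hx
  · rw [List.getLast?_eq_some_getLast hne] at hy; simpa using hy
  · simp

theorem uni_of_uniW {m : ℕ} {σ : Sym2 V → ZMod 2} {t : ZMod 2} (h : UniW G m σ t) :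
    Uni G m σ t := by
  intro l x y hn hc hx hy ha h3 hm
  obtain ⟨p, hp⟩ := walk_of_list hc hx hy
  have hpl : p.length + 1 = l.length := by rw [← hp]; simp
  have hpath : p.IsPath := by rw [SimpleGraph.Walk.isPath_def, hp]; exact hn
  have hcyc : (SimpleGraph.Walk.cons ha p).IsCycle := by
    rw [SimpleGraph.Walk.cons_isCycle_iff]
    refine ⟨hpath, fun he => ?_⟩
    have : p.length = 1 := by
      have h1 : p.edges.Nodup := hpath.isTrail.edges_nodup
      exact (by
        have := hpath.length_eq_one_of_mem_edges (by rwa [Sym2.eq_swap] at he)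
        exact this)
    omega
  have := h y _ hcyc (by simp; omega)
  rw [SimpleGraph.Walk.edges_cons, List.map_cons, List.sum_cons, ← walk_sign, hp] at this
  rw [← this, add_comm]

end Run7.h807
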