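import Mathlib
import Pool.Agent.Run7.h807.Sgn

set_option autoImplicit false

namespace Run7.h807

open Finset

section lin

variable {E : Type*} [Fintype E] [DecidableEq E]

/-- augmented indicator vector -/
def aug (D : Finset E) : (E → ZMod 2) × ZMod 2 := (fun e => if e ∈ D then 1 else 0, 1)

theorem zmod2_cases (a : ZMod 2) : a = 0 ∨ a = 1 := by
  revert a; decide

theorem natCast_odd (n : ℕ) : ((n : ZMod 2) = 1) ↔ Odd n := ZMod.natCast_eq_one_iff_odd

theorem dual_span (L : Set (Finset E)) (X : Finset E) (a : ZMod 2)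
    (h : ∀ (σ : E → ZMod 2) (t : ZMod 2), (∀ D ∈ L, ∑ e ∈ D, σ e = t) → ∑ e ∈ X, σ e = a * t) :
    ∃ F : Finset (Finset E), (∀ D ∈ F, D ∈ L) ∧ ((F.card : ZMod 2) = a) ∧
      ∀ e, e ∈ X ↔ Odd (F.filter (fun D => e ∈ D)).card := by
  classical
  have key : ((fun e => if e ∈ X then (1 : ZMod 2) else 0, a) : (E → ZMod 2) × ZMod 2) ∈
      Submodule.span (ZMod 2) (aug '' L) := by
    by_contra hn
    obtain ⟨f, hf, hker⟩ := Submodule.exists_le_ker_of_notMem hn
    apply hf
    set σ : E → ZMod 2 := fun e => f (Pi.single e 1, 0) with hσ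
    set t : ZMod 2 := f (0, 1) with ht
    have expand : ∀ (D : Finset E) (b : ZMod 2),
        f ((fun e => if e ∈ D then (1 : ZMod 2) else 0), b) = ∑ e ∈ D, σ e + b * t := by
      intro D b
      have h1 : (((fun e => if e ∈ D then (1 : ZMod 2) else 0), b) : (E → ZMod 2) × ZMod 2) =
          ∑ e ∈ D, ((Pi.single e 1, 0) : (E → ZMod 2) × ZMod 2) +
            b • ((0, 1) : (E → ZMod 2) × ZMod 2) := by
        ext e
        · simp only [Prod.fst_add, Prod.fst_sum, Pi.add_apply, Finset.sum_apply, Prod.smul_fst,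
            smul_zero, Pi.zero_apply, add_zero]
          rw [Finset.sum_pi_single]
        · simp [Prod.snd_sum]
      rw [h1, map_add, map_sum, map_smul]
      simp [hσ, ht]
    rw [expand]
    have : ∀ D ∈ L, ∑ e ∈ D, σ e = t := by
      intro D hD
      have h0 : f (aug D) = 0 := hker (Submodule.subset_span ⟨D, hD, rfl⟩)
      unfold aug at h0
      rw [expand, one_mul] at h0
      have := two_self t
      linear_combination h0 - this
    rw [h σ t this]
    exact two_self _
  rw [Submodule.mem_span_image_iff_exists_fun] at key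
  obtain ⟨T, hT, c, hc⟩ := key
  refine ⟨(T.attach.filter (fun D => c D = 1)).map (Function.Embedding.subtype _), ?_, ?_, ?_⟩
  · intro D hD
    simp only [Finset.mem_map, Finset.mem_filter, Finset.mem_attach, true_and,
      Function.Embedding.coe_subtype] at hD
    obtain ⟨D', _, rfl⟩ := hD
    exact hT D'.2
  · have := congrArg Prod.snd hc
    simp only [aug, Prod.snd_sum, Prod.smul_snd, smul_eq_mul, mul_one] at this
    rw [← this, Finset.card_map, Finset.card_filter, Nat.cast_sum]
    refine Finset.sum_congr rfl fun D _ => ?_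
    rcases zmod2_cases (c D) with h | h <;> simp [h]
  · intro e
    have h1 := congrFun (congrArg Prod.fst hc) e
    simp only [aug, Prod.fst_sum, Prod.smul_fst, Finset.sum_apply, Pi.smul_apply, smul_eq_mul] at h1
    rw [← natCast_odd]
    have h2 : (((((T.attach.filter (fun D => c D = 1)).map (Function.Embedding.subtype _)).filter
        (fun D => e ∈ D)).card : ℕ) : ZMod 2) = ∑ x : T, c x * (if e ∈ (x : Finset E) then 1 else 0) := by
      rw [Finset.filter_map, Finset.card_map, Finset.filter_filter, Finset.card_filter,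
        Nat.cast_sum]
      refine Finset.sum_congr rfl fun D _ => ?_
      rcases zmod2_cases (c D) with h | h <;> by_cases he : e ∈ (D : Finset E) <;> simp [h, he]
    rw [h2, h1]
    by_cases he : e ∈ X <;> simp [he]

end lin

variable {V : Type*} {G : SimpleGraph V}

/-- The dual form of Bondy's property with threshold `m`. -/
def Good (G : SimpleGraph V) (m : ℕ) : Prop :=
  ∀ (σ : Sym2 V → ZMod 2) (t : ZMod 2), Uni G m σ t →
    t = 0 ∧ ∃ π : V → ZMod 2, ∀ x y, G.Adj x y → σ s(x, y) = π x + π y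

theorem closed_sign {σ : Sym2 V → ZMod 2} {π : V → ZMod 2}
    (hπ : ∀ x y, G.Adj x y → σ s(x, y) = π x + π y) {u v : V} (p : G.Walk u v) :
    (p.edges.map σ).sum = π u + π v := by
  induction p with
  | nil => simp [two_self]
  | @cons u v w h p ih =>
    rw [SimpleGraph.Walk.edges_cons, List.map_cons, List.sum_cons, ih, hπ _ _ h]
    have := two_self (π v)
    linear_combination this

section final

variable [Fintype V] [DecidableEq V]

/-- the family of edge sets of cycles with at least `m` edges -/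
def longFam (G : SimpleGraph V) (m : ℕ) : Set (Finset (Sym2 V)) :=
  {D | ∃ (u : V) (p : G.Walk u u), p.IsCycle ∧ p.edges.toFinset = D ∧ m ≤ p.length}

omit [Fintype V] in
theorem sum_cycle {u : V} {p : G.Walk u u} (hp : p.IsCycle) (σ : Sym2 V → ZMod 2) :
    ∑ e ∈ p.edges.toFinset, σ e = (p.edges.map σ).sum := by
  rw [List.sum_toFinset _ hp.edges_nodup]

theorem sum_even {C : Finset (Sym2 V)} (hC : (↑C : Set (Sym2 V)) ⊆ G.edgeSet)
    (hev : ∀ v : V, Even (C.filter (fun e => v ∈ e)).card)
    {σ : Sym2 V → ZMod 2} {π : V → ZMod 2}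
    (hπ : ∀ x y, G.Adj x y → σ s(x, y) = π x + π y) : ∑ e ∈ C, σ e = 0 := by
  classical
  have h1 : ∀ e ∈ C, σ e = ∑ v : V, if v ∈ e then π v else 0 := by
    intro e he
    have hG : e ∈ G.edgeSet := hC he
    induction e using Sym2.ind with
    | _ x y =>
      rw [SimpleGraph.mem_edgeSet] at hG
      rw [hπ _ _ hG]
      have : (∑ v : V, if v ∈ s(x, y) then π v else 0) = ∑ v ∈ ({x, y} : Finset V), π v := by
        rw [← Finset.sum_filter]
        congr 1
        ext v
        simp
      rw [this, Finset.sum_pair hG.ne]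
  rw [Finset.sum_congr rfl h1, Finset.sum_comm]
  refine Finset.sum_eq_zero fun v _ => ?_
  rw [← Finset.sum_filter, Finset.sum_const]
  obtain ⟨k, hk⟩ := hev v
  rw [hk, add_smul]
  simp [two_self]

theorem good_imp {m : ℕ} (h : Good G m) :
    (∀ C : Finset (Sym2 V), (↑C : Set (Sym2 V)) ⊆ G.edgeSet →
          (∀ v : V, Even (C.filter (fun e => v ∈ e)).card) →
          ∃ F : Finset (Finset (Sym2 V)), (∀ D ∈ F, D ∈ longFam G m) ∧
            ∀ e : Sym2 V, e ∈ C ↔ Odd (F.filter (fun D => e ∈ D)).card) ∧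
      (∀ (w : V) (q : G.Walk w w), q.IsCycle →
          ∃ F : Finset (Finset (Sym2 V)), (∀ D ∈ F, D ∈ longFam G m) ∧
            Odd F.card ∧
            ∀ e : Sym2 V, e ∈ q.edges.toFinset ↔ Odd (F.filter (fun D => e ∈ D)).card) := by
  have hU : ∀ (σ : Sym2 V → ZMod 2) (t : ZMod 2), (∀ D ∈ longFam G m, ∑ e ∈ D, σ e = t) →
      Uni G m σ t := by
    intro σ t hh
    apply uni_of_uniW
    intro u p hp hm
    rw [← sum_cycle hp]
    exact hh _ ⟨u, p, hp, rfl, hm⟩
  constructor
  · intro C hC hev
    obtain ⟨F, hF, -, hF2⟩ := dual_span (longFam G m) C 0 (by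
      intro σ t hh
      obtain ⟨-, π, hπ⟩ := h σ t (hU σ t hh)
      rw [sum_even hC hev hπ, zero_mul])
    exact ⟨F, hF, hF2⟩
  · intro w q hq
    obtain ⟨F, hF, hF1, hF2⟩ := dual_span (longFam G m) q.edges.toFinset 1 (by
      intro σ t hh
      obtain ⟨ht, π, hπ⟩ := h σ t (hU σ t hh)
      rw [sum_cycle hq, closed_sign hπ, two_self, ht, mul_zero])
    exact ⟨F, hF, (natCast_odd _).1 hF1, hF2⟩

end final

end Run7.h807
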