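import Mathlib
import Pool.Agent.Run7.h807.Sgn

set_option autoImplicit false

namespace Run7.h807

variable {V : Type*} {G : SimpleGraph V}

/-- a weak form of 2-connectivity -/
def Two (G : SimpleGraph V) : Prop :=
  ∀ v a b : V, a ≠ v → b ≠ v → ∃ p : G.Walk a b, v ∉ p.support

/-- `x` and `y` are joined inside `U` by a consistent path with at least `m` vertices -/
def Link (G : SimpleGraph V) (σ : Sym2 V → ZMod 2) (π : V → ZMod 2) (m : ℕ) (U : Set V)
    (x y : V) : Prop :=
  ∃ l : List V, l.Nodup ∧ l.IsChain (Cons G σ π) ∧ l.head? = some x ∧ l.getLast? = some y ∧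
    (∀ z ∈ l, z ∈ U) ∧ m ≤ l.length

theorem chain_reverse {σ : Sym2 V → ZMod 2} {π : V → ZMod 2} {l : List V}
    (h : l.IsChain (Cons G σ π)) : l.reverse.IsChain (Cons G σ π) := by
  rw [List.isChain_reverse]
  exact h.imp fun a b hab => hab.symm

theorem Link.symm {σ : Sym2 V → ZMod 2} {π : V → ZMod 2} {m : ℕ} {U : Set V} {x y : V}
    (h : Link G σ π m U x y) : Link G σ π m U y x := by
  obtain ⟨l, h1, h2, h3, h4, h5, h6⟩ := h
  exact ⟨l.reverse, List.nodup_reverse.2 h1, chain_reverse h2, by simpa using h4,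
    by simpa using h3, by simpa using h5, by simpa using h6⟩

theorem Link.congr {σ : Sym2 V → ZMod 2} {π π' : V → ZMod 2} {m : ℕ} {U U' : Set V} {x y : V}
    (h : Link G σ π m U x y) (hπ : ∀ z ∈ U, π' z = π z) (hU : U ⊆ U') :
    Link G σ π' m U' x y := by
  obtain ⟨l, h1, h2, h3, h4, h5, h6⟩ := h
  refine ⟨l, h1, ?_, h3, h4, fun z hz => hU (h5 z hz), h6⟩
  refine List.IsChain.imp_of_mem_imp (fun a b ha hb hab => ?_) h2
  refine ⟨hab.1, ?_⟩
  rw [hπ a (h5 a ha), hπ b (h5 b hb)]
  exact hab.2

/-- cut a path at its first vertex in `U` -/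
theorem first_hit {U : Set V} : ∀ {u y : V} (p : G.Walk u y), p.IsPath → u ∉ U → y ∈ U →
    ∃ (us : List V) (y' : V), us.Nodup ∧ us.head? = some u ∧ (∀ z ∈ us, z ∉ U) ∧ y' ∈ U ∧
      (us ++ [y']).IsChain G.Adj ∧ (∀ z ∈ us, z ∈ p.support) ∧ y' ∈ p.support
  | u, _, .nil, _, hu, hy => absurd hy hu
  | u, y, .cons (v := v) h q, hp, hu, hy => by
    rw [SimpleGraph.Walk.cons_isPath_iff] at hp
    by_cases hv : v ∈ U
    · refine ⟨[u], v, by simp, rfl, by simpa using hu, hv, by simpa using h, by simp, ?_⟩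
      simp
    · obtain ⟨us, y', h1, h2, h3, h4, h5, h6, h7⟩ := first_hit q hp.1 hv hy
      refine ⟨u :: us, y', ?_, rfl, ?_, h4, ?_, ?_, ?_⟩
      · rw [List.nodup_cons]
        exact ⟨fun hu' => hp.2 (h6 u hu'), h1⟩
      · intro z hz
        rcases List.mem_cons.1 hz with rfl | hz
        · exact hu
        · exact h3 z hz
      · cases us with
        | nil => simp at h2
        | cons a us =>
          simp only [List.head?_cons, Option.some.injEq] at h2
          subst h2
          simp only [List.cons_append, List.isChain_cons_cons] at h5 ⊢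
          exact ⟨h, h5⟩
      · intro z hz
        rcases List.mem_cons.1 hz with rfl | hz
        · simp
        · rw [SimpleGraph.Walk.support_cons]
          exact List.mem_cons_of_mem _ (h6 z hz)
      · rw [SimpleGraph.Walk.support_cons]
        exact List.mem_cons_of_mem _ h7

theorem boundary {U : Set V} : ∀ {u y : V} (_ : G.Walk u y), u ∉ U → y ∈ U →
    ∃ a b, a ∉ U ∧ b ∈ U ∧ G.Adj a b
  | _, _, .nil, hu, hy => absurd hy hu
  | u, _, .cons (v := v) h q, hu, hy => by
    by_cases hv : v ∈ U
    · exact ⟨u, v, hu, hv, h⟩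
    · exact boundary q hv hy

theorem exists_ear [DecidableEq V] (h2 : Two G) {U : Set V} {a b w : V} (ha : a ∈ U) (hb : b ∈ U)
    (hab : a ≠ b) (hw : w ∉ U) :
    ∃ (x y : V) (us : List V), x ∈ U ∧ y ∈ U ∧ x ≠ y ∧ us ≠ [] ∧ us.Nodup ∧ (∀ z ∈ us, z ∉ U) ∧
      (x :: (us ++ [y])).IsChain G.Adj := by
  obtain ⟨p, -⟩ := h2 b w a (by rintro rfl; exact hw hb) hab
  obtain ⟨u, x, hu, hx, hux⟩ := boundary p hw ha
  obtain ⟨y, hy, hyx⟩ : ∃ y ∈ U, y ≠ x := by
    by_cases h : a = x
    · exact ⟨b, hb, by rw [← h]; exact hab.symm⟩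
    · exact ⟨a, ha, h⟩
  obtain ⟨q, hq⟩ := h2 x u y hux.ne hyx
  obtain ⟨us, y', h1, h3, h4, h5, h6, h7, h8⟩ := first_hit q.bypass q.bypass_isPath hu hy
  refine ⟨x, y', us, hx, h5, ?_, ?_, h1, h4, ?_⟩
  · rintro rfl
    exact hq (q.support_bypass_subset h8)
  · rintro rfl; simp at h3
  · cases us with
    | nil => simp at h3
    | cons c us =>
      simp only [List.head?_cons, Option.some.injEq] at h3
      subst h3
      simp only [List.cons_append, List.isChain_cons_cons] at h6 ⊢
      exact ⟨hux.symm, h6⟩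

theorem ext_pot [DecidableEq V] (σ : Sym2 V → ZMod 2) : ∀ (l : List V) (a : V) (π : V → ZMod 2),
    (a :: l).Nodup → (a :: l).IsChain G.Adj →
    ∃ π' : V → ZMod 2, (∀ z, z ∉ l → π' z = π z) ∧ (a :: l).IsChain (Cons G σ π')
  | [], a, π, _, _ => ⟨π, fun _ _ => rfl, by simp⟩
  | b :: l, a, π, hn, hc => by
    rw [List.isChain_cons_cons] at hc
    rw [List.nodup_cons] at hn
    obtain ⟨π', h1, h2⟩ := ext_pot σ l b (Function.update π b (π a + σ s(a, b))) hn.2 hc.2
    have hab : a ≠ b := fun h => hn.1 (by simp [h])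
    refine ⟨π', fun z hz => ?_, ?_⟩
    · simp only [List.mem_cons, not_or] at hz
      rw [h1 z hz.2, Function.update_of_ne hz.1]
    · rw [List.isChain_cons_cons]
      refine ⟨⟨hc.1, ?_⟩, h2⟩
      rw [h1 a (fun h => hn.1 (List.mem_cons_of_mem _ h)), h1 b (List.nodup_cons.1 hn.2).1,
        Function.update_of_ne hab, Function.update_self]
      have := two_self (π a)
      linear_combination -this

theorem link_edge {m : ℕ} (hm : 3 ≤ m) {σ : Sym2 V → ZMod 2} {t : ZMod 2} (hU : Uni G m σ t)
    {π : V → ZMod 2} {U : Set V} {x y : V} (h : Link G σ π m U x y) (hxy : G.Adj y x) :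
    σ s(y, x) = π x + π y + t := by
  obtain ⟨l, h1, h2, h3, h4, -, h6⟩ := h
  have := hU l x y h1 (h2.imp fun a b hab => hab.1) h3 h4 hxy (by omega) h6
  rw [ls_of_cons l x y h2 h3 h4] at this
  have h7 := two_self (π x)
  have h8 := two_self (π y)
  linear_combination this - h7 - h8

theorem ext_step [DecidableEq V] {m : ℕ} (hm : 3 ≤ m) {σ : Sym2 V → ZMod 2} (hU : Uni G m σ 0)
    {π : V → ZMod 2} {U : Set V} (hL : ∀ x ∈ U, ∀ y ∈ U, x ≠ y → Link G σ π m U x y)
    {x y : V} {us : List V} (hx : x ∈ U) (hy : y ∈ U) (hxy : x ≠ y) (hne : us ≠ [])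
    (hn : us.Nodup) (hd : ∀ z ∈ us, z ∉ U) (hc : (x :: (us ++ [y])).IsChain G.Adj) :
    ∃ π' : V → ZMod 2, ∀ a ∈ U ∪ {z | z ∈ us}, ∀ b ∈ U ∪ {z | z ∈ us}, a ≠ b →
      Link G σ π' m (U ∪ {z | z ∈ us}) a b := by
  have hxus : x ∉ us := fun h => hd x h hx
  have hcx : (x :: us).IsChain G.Adj := by
    rw [← List.cons_append, List.isChain_append] at hc
    exact hc.1
  obtain ⟨π', hπ', hch⟩ := ext_pot σ us x π (List.nodup_cons.2 ⟨hxus, hn⟩) hcx
  have hπU : ∀ z ∈ U, π' z = π z := fun z hz => hπ' z fun h => hd z h hz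
  have hL' : ∀ a ∈ U, ∀ b ∈ U, a ≠ b → Link G σ π' m U a b := fun a ha b hb hab =>
    (hL a ha b hb hab).congr hπU subset_rfl
  -- the last edge is consistent
  have hlast : (x :: (us ++ [y])).IsChain (Cons G σ π') := by
    rw [← List.cons_append, List.isChain_append]
    refine ⟨hch, by simp, ?_⟩
    intro w hw z hz
    simp only [List.head?_cons, Option.mem_def, Option.some.injEq] at hz
    subst hz
    rw [Option.mem_def] at hw
    have hadj : G.Adj w y := by
      rw [← List.cons_append, List.isChain_append] at hc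
      exact hc.2.2 w (by rw [Option.mem_def]; exact hw) y (by simp)
    have hwus : us.getLast? = some w := by
      cases us with
      | nil => exact absurd rfl hne
      | cons c us => simpa [List.getLast?_cons_cons] using hw
    refine ⟨hadj, ?_⟩
    obtain ⟨l, h1, h2, h3, h4, h5, h6⟩ := hL' y hy x hx hxy.symm
    have hlink : Link G σ π' m (U ∪ {z | z ∈ us}) y w := by
      refine ⟨l ++ us, ?_, ?_, ?_, ?_, ?_, ?_⟩
      · rw [List.nodup_append]
        exact ⟨h1, hn, fun a ha b hb hab => hd b hb (hab ▸ h5 a ha)⟩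
      · rw [List.isChain_append]
        refine ⟨h2, ?_, ?_⟩
        · cases us with
          | nil => simp
          | cons c us => exact (List.isChain_cons_cons.1 hch).2
        · intro a ha b hb
          rw [Option.mem_def] at ha hb
          rw [h4, Option.some.injEq] at ha
          subst ha
          cases us with
          | nil => simp at hb
          | cons c us =>
            simp only [List.head?_cons, Option.some.injEq] at hb
            subst hb
            exact (List.isChain_cons_cons.1 hch).1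
      · cases l with
        | nil => simp at h3
        | cons c l => simpa using h3
      · rw [List.getLast?_append, hwus]; simp
      · intro z hz
        rcases List.mem_append.1 hz with hz | hz
        · exact Or.inl (h5 z hz)
        · exact Or.inr hz
      · rw [List.length_append]; omega
    have := link_edge hm hU hlink hadj
    rw [this, add_zero, add_comm]
  -- pieces of the ear
  have hsplit : ∀ us₁ z us₂, us = us₁ ++ z :: us₂ →
      (x :: (us₁ ++ [z])).IsChain (Cons G σ π') ∧ (z :: (us₂ ++ [y])).IsChain (Cons G σ π') := by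
    intro us₁ z us₂ h
    rw [h, List.append_assoc, List.cons_append, List.isChain_cons_split] at hlast
    exact hlast
  -- from an ear vertex to `U`
  have hmix : ∀ z ∈ us, ∀ w ∈ U, Link G σ π' m (U ∪ {z | z ∈ us}) z w := by
    intro z hz w hw
    obtain ⟨us₁, us₂, h⟩ := List.append_of_mem hz
    obtain ⟨hA, hB⟩ := hsplit us₁ z us₂ h
    by_cases hwx : w = x
    · subst hwx
      obtain ⟨l, h1, h2, h3, h4, h5, h6⟩ := hL' y hy w hx hxy.symm
      refine ⟨z :: us₂ ++ l, ?_, ?_, by simp, ?_, ?_, ?_⟩
      · rw [List.nodup_append]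
        refine ⟨?_, h1, fun a ha b hb hab => hd a (by rw [h]; simp at ha ⊢; tauto)
          (hab ▸ h5 b hb)⟩
        rw [h, List.nodup_append] at hn
        exact hn.2.1
      · rw [List.isChain_append]
        rw [← List.cons_append, List.isChain_append] at hB
        refine ⟨hB.1, h2, fun a ha b hb => ?_⟩
        rw [Option.mem_def, h3, Option.some.injEq] at hb
        subst hb
        exact hB.2.2 a ha _ (by simp)
      · rw [List.getLast?_append, h4]; simp
      · intro a ha
        rcases List.mem_append.1 ha with ha | ha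
        · refine Or.inr ?_
          rw [Set.mem_setOf_eq, h]
          simp at ha ⊢; tauto
        · exact Or.inl (h5 a ha)
      · rw [List.length_append]; omega
    · obtain ⟨l, h1, h2, h3, h4, h5, h6⟩ := hL' x hx w hw (fun h => hwx h.symm)
      refine ⟨(us₁ ++ [z]).reverse ++ l, ?_, ?_, by simp, ?_, ?_, ?_⟩
      · rw [List.nodup_append]
        refine ⟨?_, h1, fun a ha b hb hab => hd a (by rw [h]; simp at ha ⊢; tauto)
          (hab ▸ h5 b hb)⟩
        rw [List.nodup_reverse]
        rw [h, ← List.singleton_append, ← List.append_assoc, List.nodup_append] at hn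
        exact hn.1
      · rw [List.isChain_append]
        rw [List.isChain_cons] at hA
        refine ⟨chain_reverse hA.2, h2, fun a ha b hb => ?_⟩
        rw [Option.mem_def, h3, Option.some.injEq] at hb
        subst hb
        rw [List.getLast?_reverse] at ha
        exact (hA.1 a ha).symm
      · rw [List.getLast?_append, h4]; simp
      · intro a ha
        rcases List.mem_append.1 ha with ha | ha
        · refine Or.inr ?_
          rw [Set.mem_setOf_eq, h]
          simp at ha ⊢; tauto
        · exact Or.inl (h5 a ha)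
      · rw [List.length_append]; omega
  have hear : ∀ us₁ z₁ us₂ z₂ us₃, us = us₁ ++ z₁ :: (us₂ ++ z₂ :: us₃) →
      Link G σ π' m (U ∪ {z | z ∈ us}) z₁ z₂ := by
    intro us₁ z₁ us₂ z₂ us₃ h
    obtain ⟨hA, -⟩ := hsplit us₁ z₁ _ h
    obtain ⟨-, hB⟩ := hsplit (us₁ ++ z₁ :: us₂) z₂ us₃ (by rw [h]; simp)
    obtain ⟨l, h1, h2, h3, h4, h5, h6⟩ := hL' x hx y hy hxy
    have hn' : ((us₁ ++ [z₁]) ++ (us₂ ++ (z₂ :: us₃))).Nodup := by
      rw [h] at hn; simpa using hn
    refine ⟨(us₁ ++ [z₁]).reverse ++ (l ++ (z₂ :: us₃).reverse), ?_, ?_, by simp, ?_, ?_, ?_⟩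
    · have e1 := List.nodup_append.1 hn'
      have e2 := List.nodup_append.1 e1.2.1
      rw [List.nodup_append, List.nodup_append]
      refine ⟨List.nodup_reverse.2 e1.1, ⟨h1, List.nodup_reverse.2 e2.2.1, ?_⟩, ?_⟩
      · intro a ha b hb hab
        refine hd b ?_ (hab ▸ h5 a ha)
        rw [h]; simp at hb ⊢; tauto
      · intro a ha b hb hab
        rw [List.mem_reverse] at ha
        rcases List.mem_append.1 hb with hb | hb
        · refine hd a ?_ (hab ▸ h5 b hb)
          rw [h]; simp at ha ⊢; tauto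
        · rw [List.mem_reverse] at hb
          exact e1.2.2 a ha b (List.mem_append.2 (Or.inr hb)) hab
    · rw [List.isChain_append, List.isChain_append]
      rw [List.isChain_cons] at hA
      rw [← List.cons_append, List.isChain_append] at hB
      refine ⟨chain_reverse hA.2, ⟨h2, chain_reverse hB.1, fun a ha b hb => ?_⟩,
        fun a ha b hb => ?_⟩
      · rw [Option.mem_def, h4, Option.some.injEq] at ha
        subst ha
        rw [List.head?_reverse] at hb
        exact (hB.2.2 b hb _ (by simp)).symm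
      · rw [List.head?_append, h3] at hb
        simp only [Option.or_some, Option.mem_def] at hb
        have hb' : b = x := by simpa using hb.symm
        subst hb'
        rw [List.getLast?_reverse] at ha
        exact (hA.1 a ha).symm
    · rw [List.getLast?_append, List.getLast?_append]; simp
    · intro a ha
      simp only [List.mem_append, List.mem_reverse] at ha
      rcases ha with ha | ha | ha
      · refine Or.inr ?_
        rw [Set.mem_setOf_eq, h]
        simp at ha ⊢; tauto
      · exact Or.inl (h5 a ha)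
      · refine Or.inr ?_
        rw [Set.mem_setOf_eq, h]
        simp at ha ⊢; tauto
    · simp only [List.length_append]; omega
  refine ⟨π', ?_⟩
  intro a ha b hb hab
  rcases ha with ha | ha <;> rcases hb with hb | hb
  · exact (hL' a ha b hb hab).congr (fun _ _ => rfl) Set.subset_union_left
  · exact (hmix b hb a ha).symm
  · exact hmix a ha b hb
  · rw [Set.mem_setOf_eq] at ha hb
    obtain ⟨us₁, us₂, h⟩ := List.append_of_mem ha
    rw [h] at hb
    simp only [List.mem_append, List.mem_cons] at hb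
    rcases hb with hb | hb | hb
    · obtain ⟨vs₁, vs₂, h'⟩ := List.append_of_mem hb
      exact (hear vs₁ b vs₂ a us₂ (by rw [h, h']; simp)).symm
    · exact absurd hb.symm hab
    · obtain ⟨vs₁, vs₂, h'⟩ := List.append_of_mem hb
      exact hear us₁ a vs₁ b vs₂ (by rw [h, h'])

theorem ext_all [DecidableEq V] [Finite V] (h2 : Two G) {m : ℕ} (hm : 3 ≤ m)
    {σ : Sym2 V → ZMod 2} (hU : Uni G m σ 0) :
    ∀ (n : ℕ) (π : V → ZMod 2) (U : Set V), Uᶜ.ncard = n → (∃ a ∈ U, ∃ b ∈ U, a ≠ b) →
      (∀ x ∈ U, ∀ y ∈ U, x ≠ y → Link G σ π m U x y) →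
      ∃ π' : V → ZMod 2, ∀ x y, G.Adj x y → σ s(x, y) = π' x + π' y := by
  intro n
  induction n using Nat.strong_induction_on with
  | _ n ih =>
    intro π U hn hab hL
    by_cases hu : U = Set.univ
    · refine ⟨π, fun x y hxy => ?_⟩
      subst hu
      have := link_edge hm hU (hL y trivial x trivial hxy.ne') hxy
      rw [this, add_zero, add_comm]
    · obtain ⟨a, ha, b, hb, hne⟩ := hab
      obtain ⟨w, hw⟩ := (Set.ne_univ_iff_exists_notMem U).1 hu
      obtain ⟨x, y, us, hx, hy, hxy, husne, husn, husd, husc⟩ := exists_ear h2 ha hb hne hw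
      obtain ⟨π', hπ'⟩ := ext_step hm hU hL hx hy hxy husne husn husd husc
      refine ih ((U ∪ {z | z ∈ us})ᶜ.ncard) ?_ π' _ rfl ⟨a, Or.inl ha, b, Or.inl hb, hne⟩ hπ'
      rw [← hn]
      apply Set.ncard_lt_ncard _ (Set.toFinite _)
      obtain ⟨c, hc⟩ := List.exists_mem_of_ne_nil us husne
      refine ⟨fun z hz => fun hz' => hz (Or.inl hz'), fun hsub => ?_⟩
      have : c ∈ Uᶜ := husd c hc
      exact hsub this (Or.inr hc)

end Run7.h807
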