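import Mathlib
import Pool.Agent.Run7.h807.Sgn
import Pool.Agent.Run7.h807.Ext
import Pool.Agent.Run7.h807.Dual

set_option autoImplicit false

namespace Run7.h807

variable {V : Type*} {G : SimpleGraph V}

/-- a cycle of `G` with `c` vertices, indexed periodically by the natural numbers -/
structure Rim (G : SimpleGraph V) (c : ℕ) (X : ℕ → V) : Prop where
  per : ∀ k, X (k + c) = X k
  inj : ∀ i j, i < c → j < c → X i = X j → i = j
  adj : ∀ k, G.Adj (X k) (X (k + 1))
  three : 3 ≤ c

/-- consecutive vertices `X i, …, X (i+n-1)` -/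
def seg (X : ℕ → V) (i n : ℕ) : List V := (List.range n).map (fun k => X (i + k))

theorem seg_length (X : ℕ → V) (i n : ℕ) : (seg X i n).length = n := by simp [seg]

theorem mem_seg {X : ℕ → V} {i n : ℕ} {z : V} : z ∈ seg X i n ↔ ∃ k, k < n ∧ X (i + k) = z := by
  simp [seg]

theorem seg_succ (X : ℕ → V) (i n : ℕ) : seg X i (n + 1) = X i :: seg X (i + 1) n := by
  unfold seg
  rw [List.range_succ_eq_map, List.map_cons, List.map_map]
  congr 1
  refine List.map_congr_left fun k _ => ?_
  simp only [Function.comp]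
  congr 1
  omega

theorem seg_head (X : ℕ → V) (i n : ℕ) : (seg X i (n + 1)).head? = some (X i) := by
  rw [seg_succ]; rfl

theorem seg_last (X : ℕ → V) (i n : ℕ) : (seg X i (n + 1)).getLast? = some (X (i + n)) := by
  unfold seg
  rw [List.range_succ, List.map_append]
  simp

theorem seg_chain {R : V → V → Prop} {X : ℕ → V} (h : ∀ k, R (X k) (X (k + 1))) (i n : ℕ) :
    (seg X i n).IsChain R := by
  induction n generalizing i with
  | zero => simp [seg]
  | succ n ih =>
    cases n with
    | zero => simp [seg]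
    | succ n =>
      have := ih (i + 1)
      rw [seg_succ X i (n + 1), seg_succ X (i + 1) n, List.isChain_cons_cons]
      rw [seg_succ] at this
      exact ⟨h i, this⟩

theorem Rim.shift {c : ℕ} {X : ℕ → V} (h : Rim G c X) (a : ℕ) : Rim G c (fun k => X (k + a)) := by
  have hmod : ∀ k, X k = X (k % c) := by
    intro k
    conv_lhs => rw [← Nat.div_add_mod k c]
    generalize k / c = q
    induction q with
    | zero => simp
    | succ q ih =>
      rw [← ih]
      have : c * (q + 1) + k % c = (c * q + k % c) + c := by ring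
      rw [this, h.per]
  refine ⟨fun k => ?_, fun i j hi hj hij => ?_, fun k => ?_, h.three⟩
  · have : k + c + a = (k + a) + c := by ring
    rw [this, h.per]
  · have hij' : X (i + a) = X (j + a) := hij
    rw [hmod (i + a), hmod (j + a)] at hij'
    have hc : 0 < c := by have := h.three; omega
    have := h.inj _ _ (Nat.mod_lt _ hc) (Nat.mod_lt _ hc) hij'
    have h3 : (i + a) ≡ (j + a) [MOD c] := this
    have h4 : i ≡ j [MOD c] := Nat.ModEq.add_right_cancel' a h3
    exact Nat.ModEq.eq_of_lt_of_lt h4 hi hj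
  · have : k + 1 + a = (k + a) + 1 := by ring
    rw [this]
    exact h.adj (k + a)

theorem Rim.ne {c : ℕ} {X : ℕ → V} (h : Rim G c X) {a b : ℕ} (hab : a < b) (hb : b < a + c) :
    X a ≠ X b := by
  intro he
  have h' := h.shift a
  have := h'.inj 0 (b - a) (by omega) (by omega) (by simpa [Nat.sub_add_cancel hab.le] using he)
  omega

theorem Rim.seg_nodup {c : ℕ} {X : ℕ → V} (h : Rim G c X) (i n : ℕ) (hn : n ≤ c) :
    (seg X i n).Nodup := by
  unfold seg
  refine List.Nodup.map_on ?_ List.nodup_range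
  intro a ha b hb hab
  rw [List.mem_range] at ha hb
  by_contra hne
  rcases lt_or_gt_of_ne hne with hlt | hlt
  · exact h.ne (a := i + a) (b := i + b) (by omega) (by omega) hab
  · exact h.ne (a := i + b) (b := i + a) (by omega) (by omega) hab.symm

/-- the partial sums of signs along the rim -/
def phi (σ : Sym2 V → ZMod 2) (X : ℕ → V) (a : ZMod 2) : ℕ → ZMod 2
  | 0 => a
  | k + 1 => phi σ X a k + σ s(X k, X (k + 1))

theorem ls_seg (σ : Sym2 V → ZMod 2) (X : ℕ → V) (a : ZMod 2) (i n : ℕ) :
    ls σ (seg X i (n + 1)) = phi σ X a (i + n) + phi σ X a i := by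
  induction n generalizing i with
  | zero => simp [seg, two_self]
  | succ n ih =>
    rw [seg_succ X i (n + 1), seg_succ X (i + 1) n, ls_cons_cons, ← seg_succ, ih (i + 1)]
    have h1 : i + 1 + n = i + (n + 1) := by ring
    rw [h1]
    change σ s(X i, X (i + 1)) + (phi σ X a (i + (n + 1)) + (phi σ X a i + σ s(X i, X (i + 1)))) = _
    have := two_self (σ s(X i, X (i + 1)))
    linear_combination this

theorem phi_per {σ : Sym2 V → ZMod 2} {c : ℕ} {X : ℕ → V} (h : Rim G c X) (a : ZMod 2) (k : ℕ) :
    phi σ X a (k + c) = phi σ X a k + (phi σ X a c + a) := by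
  induction k with
  | zero =>
    simp only [Nat.zero_add]
    change _ = a + _
    have := two_self a
    linear_combination -this
  | succ k ih =>
    have h1 : k + 1 + c = (k + c) + 1 := by ring
    rw [h1]
    change phi σ X a (k + c) + σ s(X (k + c), X (k + c + 1)) = phi σ X a k + σ s(X k, X (k + 1)) + _
    rw [ih, h.per, ← h1, h.per]
    ring

/-- The hypothesis on the hub: `v` is off the rim, and any `c - m + 1` consecutive vertices of the
rim contain a neighbour of `v`. -/
structure Hub (G : SimpleGraph V) (m c : ℕ) (X : ℕ → V) (v : V) : Prop where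
  rim : Rim G c X
  off : ∀ k, X k ≠ v
  hm : 3 ≤ m
  hmc : m ≤ c
  gap : ∀ i, ∃ k, k ≤ c - m ∧ G.Adj v (X (i + k))

theorem Hub.shift {m c : ℕ} {X : ℕ → V} {v : V} (h : Hub G m c X v) (a : ℕ) :
    Hub G m c (fun k => X (k + a)) v := by
  refine ⟨h.rim.shift a, fun k => h.off _, h.hm, h.hmc, fun i => ?_⟩
  obtain ⟨k, hk, hk'⟩ := h.gap (i + a)
  refine ⟨k, hk, ?_⟩
  have : i + k + a = i + a + k := by ring
  rw [this]
  exact hk'

/-- total sign of the rim -/
theorem rim_total {m c : ℕ} {X : ℕ → V} {σ : Sym2 V → ZMod 2} {t : ZMod 2} (h : Rim G c X)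
    (hmc : m ≤ c) (hU : Uni G m σ t) (a : ZMod 2) : phi σ X a c + a = t := by
  obtain ⟨c', rfl⟩ : ∃ c', c = c' + 1 := ⟨c - 1, by have := h.three; omega⟩
  have hadj : G.Adj (X (0 + c')) (X 0) := by
    have := h.adj c'
    have h2 := h.per 0
    rw [Nat.zero_add] at h2
    rw [h2] at this
    simpa using this
  have := hU (seg X 0 (c' + 1)) (X 0) (X (0 + c')) (h.seg_nodup 0 _ le_rfl)
    (seg_chain h.adj 0 _) (seg_head X 0 c') (seg_last X 0 c') hadj
    (by rw [seg_length]; exact h.three) (by rw [seg_length]; exact hmc)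
  rw [ls_seg σ X a 0 c', Nat.zero_add] at this
  change phi σ X a c' + a + σ s(X c', X 0) = t at this
  have h2 := h.per 0
  rw [Nat.zero_add] at h2
  change phi σ X a c' + σ s(X c', X (c' + 1)) + a = t
  rw [h2, ← this]
  ring

/-- two consecutive spokes -/
theorem Hub.consec {m c : ℕ} {X : ℕ → V} {v : V} (h : Hub G m c X v) {σ : Sym2 V → ZMod 2}
    {t : ZMod 2} (hU : Uni G m σ t) (a : ZMod 2) {p q : ℕ} (hpq : p < q)
    (hpqc : q ≤ p + (c - m + 1)) (hp : G.Adj v (X p)) (hq : G.Adj v (X q)) :
    σ s(v, X p) + σ s(v, X q) = phi σ X a p + phi σ X a q := by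
  have hm := h.hm
  have hmc := h.hmc
  obtain ⟨r, hr⟩ : ∃ r, p + c = q + r := ⟨p + c - q, by omega⟩
  have h1 := hU (v :: seg X q (r + 1)) v (X (q + r)) ?_ ?_ rfl ?_ ?_ ?_ ?_
  · rw [seg_succ, ls_cons_cons, ← seg_succ, ls_seg σ X a q r, ← hr, phi_per h.rim,
      rim_total h.rim hmc hU, h.rim.per, Sym2.eq_swap (a := X p)] at h1
    have h2 := two_self (σ s(v, X p))
    have h3 := two_self (σ s(v, X q))
    have h4 := two_self (phi σ X a p)
    have h5 := two_self (phi σ X a q)
    linear_combination h1 - h5 - h4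
  · rw [List.nodup_cons]
    refine ⟨fun hv => ?_, h.rim.seg_nodup _ _ (by omega)⟩
    obtain ⟨k, _, hk⟩ := mem_seg.1 hv
    exact h.off _ hk
  · rw [seg_succ, List.isChain_cons_cons, ← seg_succ]
    exact ⟨hq, seg_chain h.rim.adj _ _⟩
  · rw [List.getLast?_cons, seg_last]; rfl
  · rw [← hr, h.rim.per]; exact hp.symm
  · rw [List.length_cons, seg_length]; omega
  · rw [List.length_cons, seg_length]; omega

theorem Hub.pot {m c : ℕ} {X : ℕ → V} {v : V} (h : Hub G m c X v) {σ : Sym2 V → ZMod 2}
    {t : ZMod 2} (hU : Uni G m σ t) :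
    t = 0 ∧ ∃ π : V → ZMod 2, (∀ k, Cons G σ π (X k) (X (k + 1))) ∧
      (∀ k, G.Adj v (X k) → Cons G σ π v (X k)) := by
  classical
  -- shift so that `X 0` is a spoke
  obtain ⟨k0, -, hk0⟩ := h.gap 0
  rw [Nat.zero_add] at hk0
  set Y : ℕ → V := fun k => X (k + k0) with hY
  have hh : Hub G m c Y v := h.shift k0
  have hY0 : G.Adj v (Y 0) := by simpa [hY] using hk0
  set φ := phi σ Y (σ s(v, Y 0)) with hφ
  have hφ0 : φ 0 = σ s(v, Y 0) := rfl
  have hmc := h.hmc
  have hm := h.hm
  have hspoke : ∀ q, G.Adj v (Y q) → σ s(v, Y q) = φ q := by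
    intro q
    induction q using Nat.strong_induction_on with
    | _ q ih =>
      intro hq
      rcases Nat.eq_zero_or_pos q with rfl | hq0
      · rfl
      · -- the previous spoke
        have hex : ∃ p, p < q ∧ G.Adj v (Y p) ∧ q ≤ p + (c - m + 1) := by
          by_cases hsm : q ≤ c - m + 1
          · exact ⟨0, hq0, hY0, by omega⟩
          · obtain ⟨k, hk, hk'⟩ := hh.gap (q - (c - m + 1))
            exact ⟨q - (c - m + 1) + k, by omega, hk', by omega⟩
        obtain ⟨p, hpq, hp, hpq'⟩ := hex
        have h1 := hh.consec hU (σ s(v, Y 0)) hpq hpq' hp hq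
        rw [ih p hpq hp] at h1
        rw [← hφ] at h1
        have h2 := two_self (φ p)
        linear_combination h1
  have ht : t = 0 := by
    have h1 := rim_total hh.rim hmc hU (σ s(v, Y 0))
    rw [← hφ] at h1
    have hc : Y c = Y 0 := by have := hh.rim.per 0; rwa [Nat.zero_add] at this
    have h2 := hspoke c (by rw [hc]; exact hY0)
    rw [hc] at h2
    rw [← h1, ← h2]
    exact two_self _
  refine ⟨ht, ?_⟩
  have hper : ∀ k, φ (k + c) = φ k := by
    intro k
    rw [hφ, phi_per hh.rim, rim_total hh.rim hmc hU, ht, add_zero]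
  -- the potential
  have hinv : ∀ i j, Y i = Y j → φ i = φ j := by
    have hmodφ : ∀ k, φ k = φ (k % c) := by
      intro k
      conv_lhs => rw [← Nat.div_add_mod k c]
      generalize k / c = q
      induction q with
      | zero => simp
      | succ q ih =>
        rw [← ih]
        have : c * (q + 1) + k % c = (c * q + k % c) + c := by ring
        rw [this, hper]
    have hmodY : ∀ k, Y k = Y (k % c) := by
      intro k
      conv_lhs => rw [← Nat.div_add_mod k c]
      generalize k / c = q
      induction q with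
      | zero => simp
      | succ q ih =>
        rw [← ih]
        have : c * (q + 1) + k % c = (c * q + k % c) + c := by ring
        rw [this, hh.rim.per]
    intro i j hij
    have hc : 0 < c := by omega
    rw [hmodφ i, hmodφ j]
    rw [hmodY i, hmodY j] at hij
    rw [hh.rim.inj _ _ (Nat.mod_lt _ hc) (Nat.mod_lt _ hc) hij]
  refine ⟨fun z => if hz : ∃ k, Y k = z then φ hz.choose else 0, ?_⟩
  have hval : ∀ k, (if hz : ∃ j, Y j = Y k then φ hz.choose else 0) = φ k := by
    intro k
    have hz : ∃ j, Y j = Y k := ⟨k, rfl⟩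
    rw [dif_pos hz]
    exact hinv _ _ hz.choose_spec
  have hv : (if hz : ∃ j, Y j = v then φ hz.choose else 0) = 0 := by
    rw [dif_neg]
    rintro ⟨j, hj⟩
    exact hh.off j hj
  have hXY : ∀ k, X k = Y (k + (k0 * c - k0)) := by
    intro k
    have hk0c : k0 ≤ k0 * c := Nat.le_mul_of_pos_right _ (by omega)
    simp only [hY]
    have h3 : k + (k0 * c - k0) + k0 = k + k0 * c := by omega
    rw [h3]
    have : ∀ r, X (k + r * c) = X k := by
      intro r
      induction r with
      | zero => simp
      | succ r ih =>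
        rw [← ih]
        have : k + (r + 1) * c = (k + r * c) + c := by ring
        rw [this, h.rim.per]
    rw [this]
  constructor
  · intro k
    refine ⟨h.rim.adj k, ?_⟩
    have e1 := hXY k
    have e2 := hXY (k + 1)
    have e3 : k + 1 + (k0 * c - k0) = (k + (k0 * c - k0)) + 1 := by ring
    rw [e3] at e2
    simp only [e1, e2]
    rw [hval, hval]
    change _ = φ (k + (k0 * c - k0)) +
      (φ (k + (k0 * c - k0)) + σ s(Y (k + (k0 * c - k0)), Y (k + (k0 * c - k0) + 1)))
    have := two_self (φ (k + (k0 * c - k0)))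
    linear_combination -this
  · intro k hk
    refine ⟨hk, ?_⟩
    simp only [hXY k] at hk ⊢
    rw [hval, hv, hspoke _ hk, zero_add]

end Run7.h807
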