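import Mathlib
import Pool.Agent.Run7.h807.Rim

set_option autoImplicit false

namespace Run7.h807

variable {V : Type*} {G : SimpleGraph V}

/-- the vertex set of the wheel -/
def wheelSet (X : ℕ → V) (v : V) : Set V := {z | z = v ∨ ∃ k, X k = z}

section count

open Classical in
/-- number of rim edges (in a window) which meet a neighbour of the hub -/
noncomputable def cov (G : SimpleGraph V) (c : ℕ) (X : ℕ → V) (v : V) : ℕ :=
  ((Finset.Ico 0 c).filter (fun k => G.Adj v (X k) ∨ G.Adj v (X (k + 1)))).card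

theorem cov_shift {c : ℕ} {X : ℕ → V} (h : Rim G c X) (v : V) (a : ℕ) :
    cov G c (fun k => X (k + a)) v = cov G c X v := by
  classical
  have hper : Function.Periodic (fun k => G.Adj v (X k) ∨ G.Adj v (X (k + 1))) c := by
    intro k
    have : k + c + 1 = (k + 1) + c := by ring
    simp only [this, h.per]
  have h1 := Nat.filter_Ico_card_eq_of_periodic a c _ hper
  have h0 := Nat.filter_Ico_card_eq_of_periodic 0 c _ hper
  rw [Nat.zero_add] at h0
  unfold cov
  have h2 : ((Finset.Ico 0 c).filter (fun k => G.Adj v (X (k + a)) ∨ G.Adj v (X (k + 1 + a)))).card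
      = ((Finset.Ico a (a + c)).filter (fun k => G.Adj v (X k) ∨ G.Adj v (X (k + 1)))).card := by
    refine Finset.card_bij (fun k _ => k + a) ?_ ?_ ?_
    · intro k hk
      simp only [Finset.mem_filter, Finset.mem_Ico] at hk ⊢
      refine ⟨by omega, ?_⟩
      have : k + a + 1 = k + 1 + a := by ring
      rw [this]
      exact hk.2
    · intro i _ j _ hij
      omega
    · intro b hb
      simp only [Finset.mem_filter, Finset.mem_Ico] at hb
      refine ⟨b - a, ?_, by omega⟩
      simp only [Finset.mem_filter, Finset.mem_Ico]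
      have e1 : b - a + a = b := by omega
      have e2 : b - a + 1 + a = b + 1 := by omega
      rw [e1, e2]
      exact ⟨by omega, hb.2⟩
  have h1' : ((Finset.Ico a (a + c)).filter (fun k => G.Adj v (X k) ∨ G.Adj v (X (k + 1)))).card
      = Nat.count (fun k => G.Adj v (X k) ∨ G.Adj v (X (k + 1))) c := by
    convert h1 using 2
  have h0' : ((Finset.Ico 0 c).filter (fun k => G.Adj v (X k) ∨ G.Adj v (X (k + 1)))).card
      = Nat.count (fun k => G.Adj v (X k) ∨ G.Adj v (X (k + 1))) c := by
    convert h0 using 2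
  rw [h0', ← h1', ← h2]

/-- counting rim edges missed by the hub -/
theorem cov_bound {c : ℕ} {X : ℕ → V} {v : V} {j s₁ s₂ s₃ s₄ : ℕ}
    (h31 : s₃ ≤ s₁) (h1j : s₁ < j) (h3 : 0 < s₃) (hj4 : j < s₄) (h42 : s₄ ≤ s₂) (h2c : s₂ < c)
    (g3 : ∀ k, 0 < k → k < s₃ → ¬ G.Adj v (X k))
    (g1 : ∀ k, s₁ < k → k < j → ¬ G.Adj v (X k))
    (g4 : ∀ k, j < k → k < s₄ → ¬ G.Adj v (X k))
    (g2 : ∀ k, s₂ < k → k < c → ¬ G.Adj v (X k)) :
    cov G c X v + c + s₃ + s₄ ≤ c + s₁ + s₂ + 8 := by
  classical
  have hsub : ((Finset.Ico 0 c).filter (fun k => G.Adj v (X k) ∨ G.Adj v (X (k + 1)))) ⊆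
      Finset.Ico 0 1 ∪ Finset.Ico (s₃ - 1) (s₁ + 1) ∪ Finset.Ico (j - 1) (j + 1) ∪
        Finset.Ico (s₄ - 1) (s₂ + 1) ∪ Finset.Ico (c - 1) c := by
    intro k hk
    simp only [Finset.mem_filter, Finset.mem_Ico, Finset.mem_union] at hk ⊢
    obtain ⟨hk0, hk1⟩ := hk
    by_contra hcon
    rcases hk1 with hk1 | hk1
    · by_cases a1 : k < s₃
      · exact g3 k (by omega) a1 hk1
      · by_cases a2 : k < j
        · exact g1 k (by omega) a2 hk1
        · by_cases a3 : k < s₄
          · exact g4 k (by omega) a3 hk1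
          · exact g2 k (by omega) (by omega) hk1
    · by_cases a1 : k + 1 < s₃
      · exact g3 (k + 1) (by omega) a1 hk1
      · by_cases a2 : k + 1 < j
        · exact g1 (k + 1) (by omega) a2 hk1
        · by_cases a3 : k + 1 < s₄
          · exact g4 (k + 1) (by omega) a3 hk1
          · exact g2 (k + 1) (by omega) (by omega) hk1
  have hcard := Finset.card_le_card hsub
  have hle := Finset.card_union_le (Finset.Ico 0 1 ∪ Finset.Ico (s₃ - 1) (s₁ + 1) ∪
    Finset.Ico (j - 1) (j + 1) ∪ Finset.Ico (s₄ - 1) (s₂ + 1)) (Finset.Ico (c - 1) c)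
  have hle2 := Finset.card_union_le (Finset.Ico 0 1 ∪ Finset.Ico (s₃ - 1) (s₁ + 1) ∪
    Finset.Ico (j - 1) (j + 1)) (Finset.Ico (s₄ - 1) (s₂ + 1))
  have hle3 := Finset.card_union_le (Finset.Ico 0 1 ∪ Finset.Ico (s₃ - 1) (s₁ + 1))
    (Finset.Ico (j - 1) (j + 1))
  have hle4 := Finset.card_union_le (Finset.Ico 0 1) (Finset.Ico (s₃ - 1) (s₁ + 1))
  simp only [Nat.card_Ico] at hle hle2 hle3 hle4
  unfold cov
  omega

end count

/-- two rim vertices are linked -/
theorem Hub.link0 {m c : ℕ} {X : ℕ → V} {v : V} (h : Hub G m c X v) {σ : Sym2 V → ZMod 2}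
    {π : V → ZMod 2} (hr : ∀ k, Cons G σ π (X k) (X (k + 1)))
    (hs : ∀ k, G.Adj v (X k) → Cons G σ π v (X k))
    (hcov : 2 * m + 1 ≤ c + cov G c X v) {j : ℕ} (hj0 : 0 < j) (hjc : j < c) :
    Link G σ π m (wheelSet X v) (X 0) (X j) := by
  classical
  have hmc := h.hmc
  have hm := h.hm
  have hX0c : X c = X 0 := by have := h.rim.per 0; rwa [Nat.zero_add] at this
  by_cases hA : ∃ s, 0 < s ∧ s < j ∧ G.Adj v (X s)
  · by_cases hB : ∃ s, j < s ∧ s < c ∧ G.Adj v (X s)
    · -- four spokes
      have hex3 := hA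
      obtain ⟨s₃, ⟨h30, h3j, h3v⟩, h3min⟩ : ∃ s, (0 < s ∧ s < j ∧ G.Adj v (X s)) ∧
          ∀ k, k < s → ¬ (0 < k ∧ k < j ∧ G.Adj v (X k)) :=
        ⟨Nat.find hex3, Nat.find_spec hex3, fun k hk => Nat.find_min hex3 hk⟩
      obtain ⟨s₄, ⟨h4j, h4c, h4v⟩, h4min⟩ : ∃ s, (j < s ∧ s < c ∧ G.Adj v (X s)) ∧
          ∀ k, k < s → ¬ (j < k ∧ k < c ∧ G.Adj v (X k)) :=
        ⟨Nat.find hB, Nat.find_spec hB, fun k hk => Nat.find_min hB hk⟩
      obtain ⟨s₁, ⟨h10, h1j, h1v⟩, h1max⟩ : ∃ s, (0 < s ∧ s < j ∧ G.Adj v (X s)) ∧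
          ∀ k, s < k → ¬ (0 < k ∧ k < j ∧ G.Adj v (X k)) := by
        have hex : ∃ d, d ≤ j ∧ 0 < j - d ∧ j - d < j ∧ G.Adj v (X (j - d)) :=
          ⟨j - s₃, by omega, by omega, by omega, by
            have : j - (j - s₃) = s₃ := by omega
            rw [this]; exact h3v⟩
        refine ⟨j - Nat.find hex, ⟨(Nat.find_spec hex).2.1, (Nat.find_spec hex).2.2.1,
          (Nat.find_spec hex).2.2.2⟩, fun k hk hk' => ?_⟩
        have h5 := (Nat.find_spec hex).1
        refine Nat.find_min hex (m := j - k) (by omega) ⟨by omega, ?_⟩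
        have : j - (j - k) = k := by omega
        rw [this]; exact hk'
      obtain ⟨s₂, ⟨h2j, h2c, h2v⟩, h2max⟩ : ∃ s, (j < s ∧ s < c ∧ G.Adj v (X s)) ∧
          ∀ k, s < k → ¬ (j < k ∧ k < c ∧ G.Adj v (X k)) := by
        have hex : ∃ d, d ≤ c ∧ j < c - d ∧ c - d < c ∧ G.Adj v (X (c - d)) :=
          ⟨c - s₄, by omega, by omega, by omega, by
            have : c - (c - s₄) = s₄ := by omega
            rw [this]; exact h4v⟩
        refine ⟨c - Nat.find hex, ⟨(Nat.find_spec hex).2.1, (Nat.find_spec hex).2.2.1,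
          (Nat.find_spec hex).2.2.2⟩, fun k hk hk' => ?_⟩
        have h5 := (Nat.find_spec hex).1
        refine Nat.find_min hex (m := c - k) (by omega) ⟨by omega, ?_⟩
        have : c - (c - k) = k := by omega
        rw [this]; exact hk'
      have h31 : s₃ ≤ s₁ := by
        by_contra hlt
        exact h1max s₃ (by omega) ⟨h30, h3j, h3v⟩
      have h42 : s₄ ≤ s₂ := by
        by_contra hlt
        exact h2max s₄ (by omega) ⟨h4j, h4c, h4v⟩
      have hbound := cov_bound (G := G) (X := X) (v := v) h31 h1j h30 h4j h42 h2c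
        (fun k a b hk => h3min k b ⟨a, by omega, hk⟩)
        (fun k a b hk => h1max k a ⟨by omega, b, hk⟩)
        (fun k a b hk => h4min k b ⟨a, by omega, hk⟩)
        (fun k a b hk => h2max k a ⟨by omega, b, hk⟩)
      by_cases hP : m ≤ s₁ + s₂ + 3 - j
      · -- first path
        obtain ⟨r, rfl⟩ : ∃ r, s₂ = j + r := ⟨s₂ - j, by omega⟩
        refine ⟨seg X 0 (s₁ + 1) ++ (v :: (seg X j (r + 1)).reverse), ?_, ?_, ?_, ?_, ?_, ?_⟩
        · rw [List.nodup_append, List.nodup_cons]
          refine ⟨h.rim.seg_nodup _ _ (by omega), ⟨fun hv => ?_,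
            List.nodup_reverse.2 (h.rim.seg_nodup _ _ (by omega))⟩, fun a ha b hb hab => ?_⟩
          · rw [List.mem_reverse] at hv
            obtain ⟨k, _, hk⟩ := mem_seg.1 hv
            exact h.off _ hk
          · subst hab
            obtain ⟨k, hk, rfl⟩ := mem_seg.1 ha
            rcases List.mem_cons.1 hb with hb | hb
            · exact h.off _ hb
            · rw [List.mem_reverse] at hb
              obtain ⟨k', hk', hkk⟩ := mem_seg.1 hb
              exact h.rim.ne (a := 0 + k) (b := j + k') (by omega) (by omega) hkk.symm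
        · rw [List.isChain_append, List.isChain_cons]
          refine ⟨seg_chain hr _ _, ⟨fun y hy => ?_, chain_reverse (seg_chain hr _ _)⟩,
            fun y hy z hz => ?_⟩
          · rw [List.head?_reverse, seg_last, Option.mem_def, Option.some.injEq] at hy
            subst hy
            exact hs _ h2v
          · rw [seg_last, Option.mem_def, Option.some.injEq] at hy
            rw [List.head?_cons, Option.mem_def, Option.some.injEq] at hz
            subst hy; subst hz
            rw [Nat.zero_add]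
            exact (hs _ h1v).symm
        · rw [List.head?_append, seg_head]; rfl
        · rw [List.getLast?_append, List.getLast?_cons, List.getLast?_reverse, seg_head]; rfl
        · intro z hz
          simp only [List.mem_append, List.mem_cons, List.mem_reverse] at hz
          rcases hz with hz | hz | hz
          · obtain ⟨k, _, hk⟩ := mem_seg.1 hz; exact Or.inr ⟨_, hk⟩
          · exact Or.inl hz
          · obtain ⟨k, _, hk⟩ := mem_seg.1 hz; exact Or.inr ⟨_, hk⟩
        · simp only [List.length_append, List.length_cons, List.length_reverse, seg_length]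
          omega
      · -- second path
        obtain ⟨r, rfl⟩ : ∃ r, c = s₄ + r := ⟨c - s₄, by omega⟩
        obtain ⟨q, rfl⟩ : ∃ q, j = s₃ + q := ⟨j - s₃, by omega⟩
        refine ⟨(seg X s₄ (r + 1)).reverse ++ (v :: seg X s₃ (q + 1)), ?_, ?_, ?_, ?_, ?_, ?_⟩
        · rw [List.nodup_append, List.nodup_cons]
          refine ⟨List.nodup_reverse.2 (h.rim.seg_nodup _ _ (by omega)), ⟨fun hv => ?_,
            h.rim.seg_nodup _ _ (by omega)⟩, fun a ha b hb hab => ?_⟩
          · obtain ⟨k, _, hk⟩ := mem_seg.1 hv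
            exact h.off _ hk
          · subst hab
            rw [List.mem_reverse] at ha
            obtain ⟨k, hk, rfl⟩ := mem_seg.1 ha
            rcases List.mem_cons.1 hb with hb | hb
            · exact h.off _ hb
            · obtain ⟨k', hk', hkk⟩ := mem_seg.1 hb
              exact h.rim.ne (a := s₃ + k') (b := s₄ + k) (by omega) (by omega) hkk
        · rw [List.isChain_append, List.isChain_cons]
          refine ⟨chain_reverse (seg_chain hr _ _), ⟨fun y hy => ?_, seg_chain hr _ _⟩,
            fun y hy z hz => ?_⟩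
          · rw [seg_head, Option.mem_def, Option.some.injEq] at hy
            subst hy
            exact hs _ h3v
          · rw [List.getLast?_reverse, seg_head, Option.mem_def, Option.some.injEq] at hy
            rw [List.head?_cons, Option.mem_def, Option.some.injEq] at hz
            subst hy; subst hz
            exact (hs _ h4v).symm
        · rw [List.head?_append, List.head?_reverse, seg_last, hX0c]; rfl
        · rw [List.getLast?_append, List.getLast?_cons, seg_last]; rfl
        · intro z hz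
          simp only [List.mem_append, List.mem_cons, List.mem_reverse] at hz
          rcases hz with hz | hz | hz
          · obtain ⟨k, _, hk⟩ := mem_seg.1 hz; exact Or.inr ⟨_, hk⟩
          · exact Or.inl hz
          · obtain ⟨k, _, hk⟩ := mem_seg.1 hz; exact Or.inr ⟨_, hk⟩
        · simp only [List.length_append, List.length_cons, List.length_reverse, seg_length]
          omega
    · -- no spoke beyond `j`: go forward
      obtain ⟨k, hk, hk'⟩ := h.gap (j + 1)
      have hjm : m ≤ j + 1 := by
        by_contra hlt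
        exact hB ⟨j + 1 + k, by omega, by omega, hk'⟩
      refine ⟨seg X 0 (j + 1), h.rim.seg_nodup _ _ (by omega), seg_chain hr _ _, seg_head _ _ _,
        by rw [seg_last, Nat.zero_add], fun z hz => ?_, by rw [seg_length]; exact hjm⟩
      obtain ⟨k, _, hk⟩ := mem_seg.1 hz; exact Or.inr ⟨_, hk⟩
  · -- no spoke before `j`: go backward
    obtain ⟨k, hk, hk'⟩ := h.gap 1
    have hjm : m ≤ c - j + 1 := by
      by_contra hlt
      exact hA ⟨1 + k, by omega, by omega, hk'⟩
    obtain ⟨r, rfl⟩ : ∃ r, c = j + r := ⟨c - j, by omega⟩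
    refine ⟨(seg X j (r + 1)).reverse, List.nodup_reverse.2 (h.rim.seg_nodup _ _ (by omega)),
      chain_reverse (seg_chain hr _ _), ?_, ?_, fun z hz => ?_, ?_⟩
    · rw [List.head?_reverse, seg_last, hX0c]
    · rw [List.getLast?_reverse, seg_head]
    · rw [List.mem_reverse] at hz
      obtain ⟨k, _, hk⟩ := mem_seg.1 hz; exact Or.inr ⟨_, hk⟩
    · rw [List.length_reverse, seg_length]; omega

theorem wheelSet_shift {c : ℕ} {X : ℕ → V} (h : Rim G c X) (v : V) (a : ℕ) :
    wheelSet (fun k => X (k + a)) v = wheelSet X v := by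
  have hmul : ∀ r k, X (k + r * c) = X k := by
    intro r k
    induction r with
    | zero => simp
    | succ r ih =>
      rw [← ih]
      have : k + (r + 1) * c = (k + r * c) + c := by ring
      rw [this, h.per]
  ext z
  constructor
  · rintro (hz | ⟨k, hk⟩)
    · exact Or.inl hz
    · exact Or.inr ⟨_, hk⟩
  · rintro (hz | ⟨k, hk⟩)
    · exact Or.inl hz
    · refine Or.inr ⟨k + (a * c - a), ?_⟩
      have hac : a ≤ a * c := Nat.le_mul_of_pos_right _ (by have := h.three; omega)
      have : k + (a * c - a) + a = k + a * c := by omega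
      simp only [this, hmul]
      exact hk

theorem Hub.linked {m c : ℕ} {X : ℕ → V} {v : V} (h : Hub G m c X v) {σ : Sym2 V → ZMod 2}
    {π : V → ZMod 2} (hr : ∀ k, Cons G σ π (X k) (X (k + 1)))
    (hs : ∀ k, G.Adj v (X k) → Cons G σ π v (X k))
    (hcov : 2 * m + 1 ≤ c + cov G c X v) :
    ∀ x ∈ wheelSet X v, ∀ y ∈ wheelSet X v, x ≠ y → Link G σ π m (wheelSet X v) x y := by
  classical
  have hmc := h.hmc
  have hm := h.hm
  have hX0c : ∀ k, X (k + c) = X k := h.rim.per
  -- rim to rim
  have hrr : ∀ a b, X a ≠ X b → Link G σ π m (wheelSet X v) (X a) (X b) := by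
    intro a b hab
    -- reduce `b` to `a + j`
    have hmul : ∀ r k, X (k + r * c) = X k := by
      intro r k
      induction r with
      | zero => simp
      | succ r ih =>
        rw [← ih]
        have : k + (r + 1) * c = (k + r * c) + c := by ring
        rw [this, h.rim.per]
    have hac : a ≤ a * c := Nat.le_mul_of_pos_right _ (by omega)
    set j := (b + (a * c - a)) % c with hj
    have hjX : X (j + a) = X b := by
      have h1 : X (b + a * c) = X b := hmul a b
      have h2 : b + a * c = (j + a) + ((b + (a * c - a)) / c) * c := by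
        have h3 := Nat.div_add_mod (b + (a * c - a)) c
        have h4 : c * ((b + (a * c - a)) / c) = ((b + (a * c - a)) / c) * c := Nat.mul_comm _ _
        omega
      rw [← h1, h2, hmul]
    have hjc : j < c := Nat.mod_lt _ (by omega)
    have hj0 : 0 < j := by
      rcases Nat.eq_zero_or_pos j with h0 | h0
      · rw [h0, Nat.zero_add] at hjX
        exact absurd hjX hab
      · exact h0
    have hl := (h.shift a).link0 (σ := σ) (π := π) (fun k => by
        have e : k + 1 + a = k + a + 1 := by ring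
        simp only [e]; exact hr (k + a)) (fun k hk => hs _ hk)
      (by rw [cov_shift h.rim]; exact hcov) hj0 hjc
    rw [wheelSet_shift h.rim] at hl
    simp only [Nat.zero_add] at hl
    rw [hjX] at hl
    exact hl
  -- hub to rim
  have hvr : ∀ a, Link G σ π m (wheelSet X v) v (X a) := by
    intro a
    obtain ⟨k, hk, hk'⟩ := h.gap (a + 1)
    obtain ⟨r, hr'⟩ : ∃ r, a + c = a + 1 + k + r := ⟨c - 1 - k, by omega⟩
    refine ⟨v :: seg X (a + 1 + k) (r + 1), ?_, ?_, rfl, ?_, ?_, ?_⟩
    · rw [List.nodup_cons]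
      refine ⟨fun hv => ?_, h.rim.seg_nodup _ _ (by omega)⟩
      obtain ⟨k, _, hk⟩ := mem_seg.1 hv
      exact h.off _ hk
    · rw [seg_succ, List.isChain_cons_cons, ← seg_succ]
      exact ⟨hs _ hk', seg_chain hr _ _⟩
    · rw [List.getLast?_cons, seg_last, ← hr', hX0c]; rfl
    · intro z hz
      rcases List.mem_cons.1 hz with hz | hz
      · exact Or.inl hz
      · obtain ⟨k, _, hk⟩ := mem_seg.1 hz; exact Or.inr ⟨_, hk⟩
    · rw [List.length_cons, seg_length]; omega
  rintro x (rfl | ⟨a, rfl⟩) y (rfl | ⟨b, rfl⟩) hxy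
  · exact absurd rfl hxy
  · exact hvr b
  · exact (hvr a).symm
  · exact hrr a b hxy

theorem Hub.good [DecidableEq V] [Finite V] {m c : ℕ} {X : ℕ → V} {v : V} (h2 : Two G)
    (h : Hub G m c X v) (hcov : 2 * m + 1 ≤ c + cov G c X v) : Good G m := by
  intro σ t hU
  obtain ⟨ht, π, hr, hs⟩ := h.pot hU
  refine ⟨ht, ?_⟩
  subst ht
  have hm := h.hm
  refine ext_all h2 hm hU _ π (wheelSet X v) rfl ⟨X 0, Or.inr ⟨0, rfl⟩, v, Or.inl rfl, h.off 0⟩ ?_
  exact h.linked hr hs hcov

end Run7.h807
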