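import Mathlib
import Pool.Agent.Run7.h807.Wheel

set_option autoImplicit false

namespace Run7.h807

variable {V : Type*} {G : SimpleGraph V}

theorem Rim.mul {c : ℕ} {X : ℕ → V} (h : Rim G c X) (r k : ℕ) : X (k + r * c) = X k := by
  induction r with
  | zero => simp
  | succ r ih =>
    rw [← ih]
    have : k + (r + 1) * c = (k + r * c) + c := by ring
    rw [this, h.per]

theorem Rim.modeq {c : ℕ} {X : ℕ → V} (h : Rim G c X) (k : ℕ) : X k = X (k % c) := by
  conv_lhs => rw [← Nat.mod_add_div k c, Nat.mul_comm]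
  exact h.mul _ _

/-- a rim together with a hub set `K`, spokes `Sp` and hub paths `hp` -/
structure GHub (G : SimpleGraph V) (σ : Sym2 V → ZMod 2) (π0 : V → ZMod 2) (m g c : ℕ)
    (X : ℕ → V) (K : Set V) (Sp : ℕ → Prop) (hv : ℕ → V) (hp : V → V → List V) : Prop where
  rim : Rim G c X
  off : ∀ k, X k ∉ K
  spper : ∀ k, Sp (k + c) ↔ Sp k
  hvper : ∀ k, hv (k + c) = hv k
  hvK : ∀ k, Sp k → hv k ∈ K
  hvadj : ∀ k, Sp k → G.Adj (hv k) (X k)
  hpn : ∀ a ∈ K, ∀ b ∈ K, (hp a b).Nodup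
  hpc : ∀ a ∈ K, ∀ b ∈ K, (hp a b).IsChain (Cons G σ π0)
  hph : ∀ a ∈ K, ∀ b ∈ K, (hp a b).head? = some a
  hpl : ∀ a ∈ K, ∀ b ∈ K, (hp a b).getLast? = some b
  hpK : ∀ a ∈ K, ∀ b ∈ K, ∀ z ∈ hp a b, z ∈ K
  gap : ∀ i, ∃ k, k ≤ g ∧ Sp (i + k)
  hm : 3 ≤ m
  hmc : m ≤ c
  hg : m + g ≤ c + 1

variable {σ : Sym2 V → ZMod 2} {π0 : V → ZMod 2} {m g c : ℕ} {X : ℕ → V} {K : Set V}
  {Sp : ℕ → Prop} {hv : ℕ → V} {hp : V → V → List V}

theorem GHub.hplen (h : GHub G σ π0 m g c X K Sp hv hp) {a b : V} (ha : a ∈ K) (hb : b ∈ K) :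
    1 ≤ (hp a b).length := by
  have := h.hph a ha b hb
  cases hl : hp a b with
  | nil => rw [hl] at this; simp at this
  | cons x l => simp

theorem GHub.shift (h : GHub G σ π0 m g c X K Sp hv hp) (a : ℕ) :
    GHub G σ π0 m g c (fun k => X (k + a)) K (fun k => Sp (k + a)) (fun k => hv (k + a)) hp := by
  refine ⟨h.rim.shift a, fun k => h.off _, fun k => ?_, fun k => ?_, fun k hk => h.hvK _ hk,
    fun k hk => h.hvadj _ hk, h.hpn, h.hpc, h.hph, h.hpl, h.hpK, fun i => ?_, h.hm, h.hmc, h.hg⟩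
  · have : k + c + a = k + a + c := by ring
    rw [this]; exact h.spper _
  · have : k + c + a = k + a + c := by ring
    rw [this]; exact h.hvper _
  · obtain ⟨k, hk, hk'⟩ := h.gap (i + a)
    refine ⟨k, hk, ?_⟩
    have : i + k + a = i + a + k := by ring
    rw [this]
    exact hk'

/-- two consecutive spokes -/
theorem GHub.consec (h : GHub G σ π0 m g c X K Sp hv hp) {t : ZMod 2} (hU : Uni G m σ t)
    (a : ZMod 2) {p q : ℕ} (hpq : p < q) (hpqc : q ≤ p + (g + 1)) (hp' : Sp p) (hq : Sp q)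
    (hqc : q ≤ p + c) :
    (π0 (hv p) + σ s(hv p, X p)) + (π0 (hv q) + σ s(hv q, X q)) =
      phi σ X a p + phi σ X a q := by
  have hm := h.hm
  have hmc := h.hmc
  have hg := h.hg
  have hK1 := h.hvK p hp'
  have hK2 := h.hvK q hq
  have hlen := h.hplen hK1 hK2
  obtain ⟨r, hr⟩ : ∃ r, p + c = q + r := ⟨p + c - q, by omega⟩
  have hls : ls σ (hp (hv p) (hv q) ++ seg X q (r + 1)) =
      (π0 (hv p) + π0 (hv q)) + (σ s(hv q, X q) + (phi σ X a (q + r) + phi σ X a q)) := by
    obtain ⟨l, hl⟩ : ∃ l, hp (hv p) (hv q) = l ++ [hv q] := by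
      have := h.hpl _ hK1 _ hK2
      rw [List.getLast?_eq_some_iff] at this
      exact this
    have h1 := ls_of_cons _ _ _ (h.hpc _ hK1 _ hK2) (h.hph _ hK1 _ hK2) (h.hpl _ hK1 _ hK2)
    rw [hl] at h1 ⊢
    rw [List.append_assoc, List.singleton_append, ls_split, h1, seg_succ, ls_cons_cons,
      ← seg_succ, ls_seg σ X a q r]
  have h1 := hU (hp (hv p) (hv q) ++ seg X q (r + 1)) (hv p) (X (q + r)) ?_ ?_ ?_ ?_ ?_ ?_ ?_
  · rw [hls, ← hr, phi_per h.rim, rim_total h.rim hmc hU, h.rim.per,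
      Sym2.eq_swap (a := X p)] at h1
    have h4 := two_self (phi σ X a p)
    have h5 := two_self (phi σ X a q)
    linear_combination h1 - h5 - h4
  · rw [List.nodup_append]
    refine ⟨h.hpn _ hK1 _ hK2, h.rim.seg_nodup _ _ (by omega), fun x hx y hy hxy => ?_⟩
    obtain ⟨k, _, hk⟩ := mem_seg.1 hy
    exact h.off _ (hk ▸ hxy ▸ h.hpK _ hK1 _ hK2 x hx)
  · rw [List.isChain_append]
    refine ⟨(h.hpc _ hK1 _ hK2).imp fun _ _ h => h.1, seg_chain h.rim.adj _ _,
      fun x hx y hy => ?_⟩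
    rw [h.hpl _ hK1 _ hK2, Option.mem_def, Option.some.injEq] at hx
    rw [seg_head, Option.mem_def, Option.some.injEq] at hy
    subst hx; subst hy
    exact h.hvadj _ hq
  · rw [List.head?_append, h.hph _ hK1 _ hK2]; rfl
  · rw [List.getLast?_append, seg_last]; rfl
  · rw [← hr, h.rim.per]; exact (h.hvadj _ hp').symm
  · rw [List.length_append, seg_length]; omega
  · rw [List.length_append, seg_length]; omega

theorem GHub.pot (h : GHub G σ π0 m g c X K Sp hv hp) {t : ZMod 2} (hU : Uni G m σ t) :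
    t = 0 ∧ ∃ π : V → ZMod 2, (∀ z ∈ K, π z = π0 z) ∧ (∀ k, Cons G σ π (X k) (X (k + 1))) ∧
      (∀ k, Sp k → Cons G σ π (hv k) (X k)) := by
  classical
  -- shift so that `X 0` is a spoke
  obtain ⟨k0, -, hk0⟩ := h.gap 0
  rw [Nat.zero_add] at hk0
  set Y : ℕ → V := fun k => X (k + k0) with hY
  set Sq : ℕ → Prop := fun k => Sp (k + k0) with hSq
  set hw : ℕ → V := fun k => hv (k + k0) with hhw
  have hh : GHub G σ π0 m g c Y K Sq hw hp := h.shift k0
  have hY0 : Sq 0 := by simpa [hSq] using hk0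
  set τ : ℕ → ZMod 2 := fun k => π0 (hw k) + σ s(hw k, Y k) with hτ
  set φ := phi σ Y (τ 0) with hφ
  have hφ0 : φ 0 = τ 0 := rfl
  have hmc := h.hmc
  have hm := h.hm
  have hg := h.hg
  have hspoke : ∀ q, Sq q → τ q = φ q := by
    intro q
    induction q using Nat.strong_induction_on with
    | _ q ih =>
      intro hq
      rcases Nat.eq_zero_or_pos q with rfl | hq0
      · rfl
      · -- the previous spoke
        have hex : ∃ p, p < q ∧ Sq p ∧ q ≤ p + (g + 1) := by
          by_cases hsm : q ≤ g + 1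
          · exact ⟨0, hq0, hY0, by omega⟩
          · obtain ⟨k, hk, hk'⟩ := hh.gap (q - (g + 1))
            exact ⟨q - (g + 1) + k, by omega, hk', by omega⟩
        obtain ⟨p, hpq, hp, hpq'⟩ := hex
        have h1 := hh.consec hU (τ 0) hpq hpq' hp hq (by omega)
        have h0 := ih p hpq hp
        simp only [hτ] at h0
        rw [h0, ← hφ] at h1
        have h2 := two_self (φ p)
        simp only [hτ]
        linear_combination h1
  have ht : t = 0 := by
    have h1 := rim_total hh.rim hmc hU (τ 0)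
    rw [← hφ] at h1
    have hc : Y c = Y 0 := by have := hh.rim.per 0; rwa [Nat.zero_add] at this
    have hwc : hw c = hw 0 := by have := hh.hvper 0; rwa [Nat.zero_add] at this
    have hsc : Sq c := by have := (hh.spper 0).2 hY0; rwa [Nat.zero_add] at this
    have h2 := hspoke c hsc
    have h3 : τ c = τ 0 := by simp only [hτ, hc, hwc]
    rw [h3] at h2
    rw [← h1, ← h2]
    exact two_self _
  refine ⟨ht, ?_⟩
  have hper : ∀ k, φ (k + c) = φ k := by
    intro k
    rw [hφ, phi_per hh.rim, rim_total hh.rim hmc hU, ht, add_zero]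
  -- the potential
  have hinv : ∀ i j, Y i = Y j → φ i = φ j := by
    have hmodφ : ∀ k, φ k = φ (k % c) := by
      intro k
      conv_lhs => rw [← Nat.div_add_mod k c]
      generalize k / c = q
      induction q with
      | zero => simp
      | succ q ih =>
        rw [← ih]
        have : c * (q + 1) + k % c = (c * q + k % c) + c := by ring
        rw [this, hper]
    intro i j hij
    have hc : 0 < c := by omega
    rw [hmodφ i, hmodφ j]
    rw [hh.rim.modeq i, hh.rim.modeq j] at hij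
    rw [hh.rim.inj _ _ (Nat.mod_lt _ hc) (Nat.mod_lt _ hc) hij]
  set π : V → ZMod 2 := fun z => if hz : ∃ k, Y k = z then φ hz.choose else π0 z with hπ
  have hval : ∀ k, π (Y k) = φ k := by
    intro k
    have hz : ∃ j, Y j = Y k := ⟨k, rfl⟩
    simp only [hπ]
    rw [dif_pos hz]
    exact hinv _ _ hz.choose_spec
  have hvK : ∀ z ∈ K, π z = π0 z := by
    intro z hz
    simp only [hπ]
    rw [dif_neg]
    rintro ⟨j, hj⟩
    exact hh.off j (hj ▸ hz)
  have hk0c : k0 ≤ k0 * c := Nat.le_mul_of_pos_right _ (by omega)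
  have hXY : ∀ k, X k = Y (k + (k0 * c - k0)) := by
    intro k
    simp only [hY]
    have h3 : k + (k0 * c - k0) + k0 = k + k0 * c := by omega
    rw [h3, h.rim.mul]
  have hmulS : ∀ r k, (Sp (k + r * c) ↔ Sp k) := by
    intro r k
    induction r with
    | zero => simp
    | succ r ih =>
      rw [← ih]
      have : k + (r + 1) * c = (k + r * c) + c := by ring
      rw [this, h.spper]
  have hmulV : ∀ r k, hv (k + r * c) = hv k := by
    intro r k
    induction r with
    | zero => simp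
    | succ r ih =>
      rw [← ih]
      have : k + (r + 1) * c = (k + r * c) + c := by ring
      rw [this, h.hvper]
  refine ⟨π, hvK, ?_, ?_⟩
  · intro k
    refine ⟨h.rim.adj k, ?_⟩
    have e1 := hXY k
    have e2 := hXY (k + 1)
    have e3 : k + 1 + (k0 * c - k0) = (k + (k0 * c - k0)) + 1 := by ring
    rw [e3] at e2
    rw [e1, e2, hval, hval]
    change _ = φ (k + (k0 * c - k0)) +
      (φ (k + (k0 * c - k0)) + σ s(Y (k + (k0 * c - k0)), Y (k + (k0 * c - k0) + 1)))
    have := two_self (φ (k + (k0 * c - k0)))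
    linear_combination -this
  · intro k hk
    refine ⟨h.hvadj k hk, ?_⟩
    have e3 : k + (k0 * c - k0) + k0 = k + k0 * c := by omega
    have e4 : Sq (k + (k0 * c - k0)) := by
      simp only [hSq]; rw [e3]; exact (hmulS _ _).2 hk
    have e5 : hw (k + (k0 * c - k0)) = hv k := by
      simp only [hhw]; rw [e3]; exact hmulV _ _
    have e6 := hspoke _ e4
    simp only [hτ] at e6
    rw [e5, ← hXY k] at e6
    rw [hvK _ (h.hvK k hk), hXY k, hval, ← e6, ← hXY k]
    have := two_self (π0 (hv k))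
    linear_combination -this

section count

open Classical in
/-- number of rim edges which meet a spoke -/
noncomputable def scov (c : ℕ) (Sp : ℕ → Prop) : ℕ :=
  ((Finset.Ico 0 c).filter (fun k => Sp k ∨ Sp (k + 1))).card

theorem scov_shift {c : ℕ} {Sp : ℕ → Prop} (hper : ∀ k, Sp (k + c) ↔ Sp k) (a : ℕ) :
    scov c (fun k => Sp (k + a)) = scov c Sp := by
  classical
  have hper' : Function.Periodic (fun k => Sp k ∨ Sp (k + 1)) c := by
    intro k
    have : k + c + 1 = (k + 1) + c := by ring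
    simp only [this, hper]
  have h1 := Nat.filter_Ico_card_eq_of_periodic a c _ hper'
  have h0 := Nat.filter_Ico_card_eq_of_periodic 0 c _ hper'
  rw [Nat.zero_add] at h0
  unfold scov
  have h2 : ((Finset.Ico 0 c).filter (fun k => Sp (k + a) ∨ Sp (k + 1 + a))).card
      = ((Finset.Ico a (a + c)).filter (fun k => Sp k ∨ Sp (k + 1))).card := by
    refine Finset.card_bij (fun k _ => k + a) ?_ ?_ ?_
    · intro k hk
      simp only [Finset.mem_filter, Finset.mem_Ico] at hk ⊢
      refine ⟨by omega, ?_⟩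
      have : k + a + 1 = k + 1 + a := by ring
      rw [this]
      exact hk.2
    · intro i _ j _ hij
      omega
    · intro b hb
      simp only [Finset.mem_filter, Finset.mem_Ico] at hb
      refine ⟨b - a, ?_, by omega⟩
      simp only [Finset.mem_filter, Finset.mem_Ico]
      have e1 : b - a + a = b := by omega
      have e2 : b - a + 1 + a = b + 1 := by omega
      rw [e1, e2]
      exact ⟨by omega, hb.2⟩
  have h1' : ((Finset.Ico a (a + c)).filter (fun k => Sp k ∨ Sp (k + 1))).card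
      = Nat.count (fun k => Sp k ∨ Sp (k + 1)) c := by
    convert h1 using 2
  have h0' : ((Finset.Ico 0 c).filter (fun k => Sp k ∨ Sp (k + 1))).card
      = Nat.count (fun k => Sp k ∨ Sp (k + 1)) c := by
    convert h0 using 2
  rw [h0', ← h1', ← h2]

/-- counting rim edges missed by the spokes -/
theorem scov_bound {c : ℕ} {Sp : ℕ → Prop} {j s₁ s₂ s₃ s₄ : ℕ}
    (h31 : s₃ ≤ s₁) (h1j : s₁ < j) (h3 : 0 < s₃) (hj4 : j < s₄) (h42 : s₄ ≤ s₂) (h2c : s₂ < c)
    (g3 : ∀ k, 0 < k → k < s₃ → ¬ Sp k)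
    (g1 : ∀ k, s₁ < k → k < j → ¬ Sp k)
    (g4 : ∀ k, j < k → k < s₄ → ¬ Sp k)
    (g2 : ∀ k, s₂ < k → k < c → ¬ Sp k) :
    scov c Sp + c + s₃ + s₄ ≤ c + s₁ + s₂ + 8 := by
  classical
  have hsub : ((Finset.Ico 0 c).filter (fun k => Sp k ∨ Sp (k + 1))) ⊆
      Finset.Ico 0 1 ∪ Finset.Ico (s₃ - 1) (s₁ + 1) ∪ Finset.Ico (j - 1) (j + 1) ∪
        Finset.Ico (s₄ - 1) (s₂ + 1) ∪ Finset.Ico (c - 1) c := by
    intro k hk
    simp only [Finset.mem_filter, Finset.mem_Ico, Finset.mem_union] at hk ⊢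
    obtain ⟨hk0, hk1⟩ := hk
    by_contra hcon
    rcases hk1 with hk1 | hk1
    · by_cases a1 : k < s₃
      · exact g3 k (by omega) a1 hk1
      · by_cases a2 : k < j
        · exact g1 k (by omega) a2 hk1
        · by_cases a3 : k < s₄
          · exact g4 k (by omega) a3 hk1
          · exact g2 k (by omega) (by omega) hk1
    · by_cases a1 : k + 1 < s₃
      · exact g3 (k + 1) (by omega) a1 hk1
      · by_cases a2 : k + 1 < j
        · exact g1 (k + 1) (by omega) a2 hk1
        · by_cases a3 : k + 1 < s₄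
          · exact g4 (k + 1) (by omega) a3 hk1
          · exact g2 (k + 1) (by omega) (by omega) hk1
  have hcard := Finset.card_le_card hsub
  have hle := Finset.card_union_le (Finset.Ico 0 1 ∪ Finset.Ico (s₃ - 1) (s₁ + 1) ∪
    Finset.Ico (j - 1) (j + 1) ∪ Finset.Ico (s₄ - 1) (s₂ + 1)) (Finset.Ico (c - 1) c)
  have hle2 := Finset.card_union_le (Finset.Ico 0 1 ∪ Finset.Ico (s₃ - 1) (s₁ + 1) ∪
    Finset.Ico (j - 1) (j + 1)) (Finset.Ico (s₄ - 1) (s₂ + 1))
  have hle3 := Finset.card_union_le (Finset.Ico 0 1 ∪ Finset.Ico (s₃ - 1) (s₁ + 1))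
    (Finset.Ico (j - 1) (j + 1))
  have hle4 := Finset.card_union_le (Finset.Ico 0 1) (Finset.Ico (s₃ - 1) (s₁ + 1))
  simp only [Nat.card_Ico] at hle hle2 hle3 hle4
  unfold scov
  omega

end count

/-- the vertex set used for linking -/
def hubSet (X : ℕ → V) (K : Set V) : Set V := {z | z ∈ K ∨ ∃ k, X k = z}

theorem mem_hub_seg {X : ℕ → V} {K : Set V} {i n : ℕ} {z : V} (hz : z ∈ seg X i n) :
    z ∈ hubSet X K := by
  obtain ⟨k, _, hk⟩ := mem_seg.1 hz
  exact Or.inr ⟨_, hk⟩

theorem hubSet_shift {c : ℕ} {X : ℕ → V} (h : Rim G c X) (K : Set V) (a : ℕ) :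
    hubSet (fun k => X (k + a)) K = hubSet X K := by
  ext z
  constructor
  · rintro (hz | ⟨k, hk⟩)
    · exact Or.inl hz
    · exact Or.inr ⟨_, hk⟩
  · rintro (hz | ⟨k, hk⟩)
    · exact Or.inl hz
    · refine Or.inr ⟨k + (a * c - a), ?_⟩
      have hac : a ≤ a * c := Nat.le_mul_of_pos_right _ (by have := h.three; omega)
      have : k + (a * c - a) + a = k + a * c := by omega
      simp only [this, h.mul]
      exact hk

/-- two rim vertices separated by spokes on both sides are linked -/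
theorem GHub.link_far (h : GHub G σ π0 m g c X K Sp hv hp) {π : V → ZMod 2}
    (hπ : ∀ z ∈ K, π z = π0 z) (hr : ∀ k, Cons G σ π (X k) (X (k + 1)))
    (hs : ∀ k, Sp k → Cons G σ π (hv k) (X k))
    (hcov : 2 * m + 1 ≤ c + scov c Sp) {j : ℕ} (hA : ∃ s, 0 < s ∧ s < j ∧ Sp s)
    (hB : ∃ s, j < s ∧ s < c ∧ Sp s) :
    Link G σ π m (hubSet X K) (X 0) (X j) := by
  classical
  have hmc := h.hmc
  have hm := h.hm
  have hX0c : X c = X 0 := by have := h.rim.per 0; rwa [Nat.zero_add] at this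
  have hpc' : ∀ a ∈ K, ∀ b ∈ K, (hp a b).IsChain (Cons G σ π) := by
    intro a ha b hb
    refine List.IsChain.imp_of_mem_imp (fun x y hx hy hxy => ?_) (h.hpc a ha b hb)
    refine ⟨hxy.1, ?_⟩
    rw [hπ _ (h.hpK a ha b hb x hx), hπ _ (h.hpK a ha b hb y hy)]
    exact hxy.2
  obtain ⟨s₃, ⟨h30, h3j, h3v⟩, h3min⟩ : ∃ s, (0 < s ∧ s < j ∧ Sp s) ∧
      ∀ k, k < s → ¬ (0 < k ∧ k < j ∧ Sp k) :=
    ⟨Nat.find hA, Nat.find_spec hA, fun k hk => Nat.find_min hA hk⟩
  obtain ⟨s₄, ⟨h4j, h4c, h4v⟩, h4min⟩ : ∃ s, (j < s ∧ s < c ∧ Sp s) ∧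
      ∀ k, k < s → ¬ (j < k ∧ k < c ∧ Sp k) :=
    ⟨Nat.find hB, Nat.find_spec hB, fun k hk => Nat.find_min hB hk⟩
  obtain ⟨s₁, ⟨h10, h1j, h1v⟩, h1max⟩ : ∃ s, (0 < s ∧ s < j ∧ Sp s) ∧
      ∀ k, s < k → ¬ (0 < k ∧ k < j ∧ Sp k) := by
    have hex : ∃ d, d ≤ j ∧ 0 < j - d ∧ j - d < j ∧ Sp (j - d) :=
      ⟨j - s₃, by omega, by omega, by omega, by
        have : j - (j - s₃) = s₃ := by omega
        rw [this]; exact h3v⟩
    refine ⟨j - Nat.find hex, ⟨(Nat.find_spec hex).2.1, (Nat.find_spec hex).2.2.1,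
      (Nat.find_spec hex).2.2.2⟩, fun k hk hk' => ?_⟩
    have h5 := (Nat.find_spec hex).1
    refine Nat.find_min hex (m := j - k) (by omega) ⟨by omega, ?_⟩
    have : j - (j - k) = k := by omega
    rw [this]; exact hk'
  obtain ⟨s₂, ⟨h2j, h2c, h2v⟩, h2max⟩ : ∃ s, (j < s ∧ s < c ∧ Sp s) ∧
      ∀ k, s < k → ¬ (j < k ∧ k < c ∧ Sp k) := by
    have hex : ∃ d, d ≤ c ∧ j < c - d ∧ c - d < c ∧ Sp (c - d) :=
      ⟨c - s₄, by omega, by omega, by omega, by
        have : c - (c - s₄) = s₄ := by omega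
        rw [this]; exact h4v⟩
    refine ⟨c - Nat.find hex, ⟨(Nat.find_spec hex).2.1, (Nat.find_spec hex).2.2.1,
      (Nat.find_spec hex).2.2.2⟩, fun k hk hk' => ?_⟩
    have h5 := (Nat.find_spec hex).1
    refine Nat.find_min hex (m := c - k) (by omega) ⟨by omega, ?_⟩
    have : c - (c - k) = k := by omega
    rw [this]; exact hk'
  have h31 : s₃ ≤ s₁ := by
    by_contra hlt
    exact h1max s₃ (by omega) ⟨h30, h3j, h3v⟩
  have h42 : s₄ ≤ s₂ := by
    by_contra hlt
    exact h2max s₄ (by omega) ⟨h4j, h4c, h4v⟩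
  have hbound := scov_bound (Sp := Sp) h31 h1j h30 h4j h42 h2c
    (fun k a b hk => h3min k b ⟨a, by omega, hk⟩)
    (fun k a b hk => h1max k a ⟨by omega, b, hk⟩)
    (fun k a b hk => h4min k b ⟨a, by omega, hk⟩)
    (fun k a b hk => h2max k a ⟨by omega, b, hk⟩)
  by_cases hP : m ≤ s₁ + s₂ + 3 - j
  · -- first path
    obtain ⟨r, rfl⟩ : ∃ r, s₂ = j + r := ⟨s₂ - j, by omega⟩
    have hK1 := h.hvK _ h1v
    have hK2 := h.hvK _ h2v
    have hlen := h.hplen hK1 hK2
    refine ⟨seg X 0 (s₁ + 1) ++ (hp (hv s₁) (hv (j + r)) ++ (seg X j (r + 1)).reverse),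
      ?_, ?_, ?_, ?_, ?_, ?_⟩
    · rw [List.nodup_append, List.nodup_append]
      refine ⟨h.rim.seg_nodup _ _ (by omega), ⟨h.hpn _ hK1 _ hK2,
        List.nodup_reverse.2 (h.rim.seg_nodup _ _ (by omega)), fun a ha b hb hab => ?_⟩,
        fun a ha b hb hab => ?_⟩
      · rw [List.mem_reverse] at hb
        obtain ⟨k, _, hk⟩ := mem_seg.1 hb
        exact h.off _ (hk ▸ hab ▸ h.hpK _ hK1 _ hK2 a ha)
      · subst hab
        obtain ⟨k, hk, hka⟩ := mem_seg.1 ha
        rcases List.mem_append.1 hb with hb | hb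
        · exact h.off _ (hka ▸ h.hpK _ hK1 _ hK2 a hb)
        · rw [List.mem_reverse] at hb
          obtain ⟨k', hk', hkk⟩ := mem_seg.1 hb
          exact h.rim.ne (a := 0 + k) (b := j + k') (by omega) (by omega) (hka.trans hkk.symm)
    · rw [List.isChain_append, List.isChain_append]
      refine ⟨seg_chain hr _ _, ⟨hpc' _ hK1 _ hK2, chain_reverse (seg_chain hr _ _),
        fun y hy z hz => ?_⟩, fun y hy z hz => ?_⟩
      · rw [List.head?_reverse, seg_last, Option.mem_def, Option.some.injEq] at hz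
        rw [h.hpl _ hK1 _ hK2, Option.mem_def, Option.some.injEq] at hy
        subst hy; subst hz
        exact hs _ h2v
      · rw [seg_last, Option.mem_def, Option.some.injEq] at hy
        rw [List.head?_append, h.hph _ hK1 _ hK2] at hz
        have hz' : z = hv s₁ := by simpa using hz.symm
        subst hy; subst hz'
        rw [Nat.zero_add]
        exact (hs _ h1v).symm
    · rw [List.head?_append, seg_head]; rfl
    · rw [List.getLast?_append, List.getLast?_append, List.getLast?_reverse, seg_head]; rfl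
    · intro z hz
      simp only [List.mem_append, List.mem_reverse] at hz
      rcases hz with hz | hz | hz
      · exact mem_hub_seg hz
      · exact Or.inl (h.hpK _ hK1 _ hK2 z hz)
      · exact mem_hub_seg hz
    · simp only [List.length_append, List.length_reverse, seg_length]
      omega
  · -- second path
    obtain ⟨r, rfl⟩ : ∃ r, c = s₄ + r := ⟨c - s₄, by omega⟩
    obtain ⟨q, rfl⟩ : ∃ q, j = s₃ + q := ⟨j - s₃, by omega⟩
    have hK1 := h.hvK _ h4v
    have hK2 := h.hvK _ h3v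
    have hlen := h.hplen hK1 hK2
    refine ⟨(seg X s₄ (r + 1)).reverse ++ (hp (hv s₄) (hv s₃) ++ seg X s₃ (q + 1)),
      ?_, ?_, ?_, ?_, ?_, ?_⟩
    · rw [List.nodup_append, List.nodup_append]
      refine ⟨List.nodup_reverse.2 (h.rim.seg_nodup _ _ (by omega)), ⟨h.hpn _ hK1 _ hK2,
        h.rim.seg_nodup _ _ (by omega), fun a ha b hb hab => ?_⟩, fun a ha b hb hab => ?_⟩
      · obtain ⟨k, _, hk⟩ := mem_seg.1 hb
        exact h.off _ (hk ▸ hab ▸ h.hpK _ hK1 _ hK2 a ha)
      · subst hab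
        rw [List.mem_reverse] at ha
        obtain ⟨k, hk, hka⟩ := mem_seg.1 ha
        rcases List.mem_append.1 hb with hb | hb
        · exact h.off _ (hka ▸ h.hpK _ hK1 _ hK2 a hb)
        · obtain ⟨k', hk', hkk⟩ := mem_seg.1 hb
          exact h.rim.ne (a := s₃ + k') (b := s₄ + k) (by omega) (by omega) (hkk.trans hka.symm)
    · rw [List.isChain_append, List.isChain_append]
      refine ⟨chain_reverse (seg_chain hr _ _), ⟨hpc' _ hK1 _ hK2, seg_chain hr _ _,
        fun y hy z hz => ?_⟩, fun y hy z hz => ?_⟩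
      · rw [seg_head, Option.mem_def, Option.some.injEq] at hz
        rw [h.hpl _ hK1 _ hK2, Option.mem_def, Option.some.injEq] at hy
        subst hy; subst hz
        exact hs _ h3v
      · rw [List.getLast?_reverse, seg_head, Option.mem_def, Option.some.injEq] at hy
        rw [List.head?_append, h.hph _ hK1 _ hK2] at hz
        have hz' : z = hv s₄ := by simpa using hz.symm
        subst hy; subst hz'
        exact (hs _ h4v).symm
    · rw [List.head?_append, List.head?_reverse, seg_last, hX0c]; rfl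
    · rw [List.getLast?_append, List.getLast?_append, seg_last]; rfl
    · intro z hz
      simp only [List.mem_append, List.mem_reverse] at hz
      rcases hz with hz | hz | hz
      · exact mem_hub_seg hz
      · exact Or.inl (h.hpK _ hK1 _ hK2 z hz)
      · exact mem_hub_seg hz
    · simp only [List.length_append, List.length_reverse, seg_length]
      omega

/-- hub to rim -/
theorem GHub.link_hub (h : GHub G σ π0 m g c X K Sp hv hp) {π : V → ZMod 2}
    (hπ : ∀ z ∈ K, π z = π0 z) (hr : ∀ k, Cons G σ π (X k) (X (k + 1)))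
    (hs : ∀ k, Sp k → Cons G σ π (hv k) (X k)) {b : V} (hb : b ∈ K) (a : ℕ)
    (hgc : g + 1 ≤ c) :
    Link G σ π m (hubSet X K) b (X a) := by
  have hmc := h.hmc
  have hm := h.hm
  have hg := h.hg
  obtain ⟨k, hk, hk'⟩ := h.gap (a + 1)
  obtain ⟨r, hr'⟩ : ∃ r, a + c = a + 1 + k + r := ⟨c - 1 - k, by omega⟩
  have hK2 := h.hvK _ hk'
  have hlen := h.hplen hb hK2
  have hpc' : (hp b (hv (a + 1 + k))).IsChain (Cons G σ π) := by
    refine List.IsChain.imp_of_mem_imp (fun x y hx hy hxy => ?_) (h.hpc b hb _ hK2)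
    refine ⟨hxy.1, ?_⟩
    rw [hπ _ (h.hpK b hb _ hK2 x hx), hπ _ (h.hpK b hb _ hK2 y hy)]
    exact hxy.2
  refine ⟨hp b (hv (a + 1 + k)) ++ seg X (a + 1 + k) (r + 1), ?_, ?_, ?_, ?_, ?_, ?_⟩
  · rw [List.nodup_append]
    refine ⟨h.hpn _ hb _ hK2, h.rim.seg_nodup _ _ (by omega), fun x hx y hy hxy => ?_⟩
    obtain ⟨k, _, hk⟩ := mem_seg.1 hy
    exact h.off _ (hk ▸ hxy ▸ h.hpK _ hb _ hK2 x hx)
  · rw [List.isChain_append]
    refine ⟨hpc', seg_chain hr _ _, fun x hx y hy => ?_⟩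
    rw [h.hpl _ hb _ hK2, Option.mem_def, Option.some.injEq] at hx
    rw [seg_head, Option.mem_def, Option.some.injEq] at hy
    subst hx; subst hy
    exact hs _ hk'
  · rw [List.head?_append, h.hph _ hb _ hK2]; rfl
  · rw [List.getLast?_append, seg_last, ← hr', h.rim.per]; rfl
  · intro z hz
    rcases List.mem_append.1 hz with hz | hz
    · exact Or.inl (h.hpK _ hb _ hK2 z hz)
    · exact mem_hub_seg hz
  · rw [List.length_append, seg_length]; omega

end Run7.h807
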