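import Mathlib
import Pool.Agent.Run7.h807.GHub

set_option autoImplicit false

namespace Run7.h807

variable {V : Type*} {G : SimpleGraph V}
variable {σ : Sym2 V → ZMod 2} {π0 : V → ZMod 2} {m g c : ℕ} {X : ℕ → V} {K : Set V}
  {Sp : ℕ → Prop} {hv : ℕ → V} {hp : V → V → List V}

theorem Rim.exists_rep {c : ℕ} {X : ℕ → V} (h : Rim G c X) (a b : ℕ) :
    ∃ j, j < c ∧ X (a + j) = X b := by
  have hc : 0 < c := by have := h.three; omega
  have hac : a ≤ a * c := Nat.le_mul_of_pos_right _ hc
  refine ⟨(b + (a * c - a)) % c, Nat.mod_lt _ hc, ?_⟩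
  have h1 : X (b + a * c) = X b := h.mul a b
  have h3 := Nat.mod_add_div (b + (a * c - a)) c
  have h2 : b + a * c = (a + (b + (a * c - a)) % c) + ((b + (a * c - a)) / c) * c := by
    have h4 : c * ((b + (a * c - a)) / c) = ((b + (a * c - a)) / c) * c := Nat.mul_comm _ _
    omega
  rw [← h1, h2, h.mul]

theorem GHub.linked (h : GHub G σ π0 m g c X K Sp hv hp) {π : V → ZMod 2}
    (hπ : ∀ z ∈ K, π z = π0 z) (hr : ∀ k, Cons G σ π (X k) (X (k + 1)))
    (hs : ∀ k, Sp k → Cons G σ π (hv k) (X k))
    (hcov : 2 * m + 1 ≤ c + scov c Sp) (hgc : g + 1 ≤ c)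
    (hsame : ∀ i j, 0 < j → j < c → (∀ k, 0 < k → k < j → ¬ Sp (i + k)) →
      Link G σ π m (hubSet X K) (X i) (X (i + j)))
    (hhh : ∀ a ∈ K, ∀ b ∈ K, a ≠ b → Link G σ π m (hubSet X K) a b) :
    ∀ x ∈ hubSet X K, ∀ y ∈ hubSet X K, x ≠ y → Link G σ π m (hubSet X K) x y := by
  have hrr : ∀ a b, X a ≠ X b → Link G σ π m (hubSet X K) (X a) (X b) := by
    intro a b hab
    obtain ⟨j, hjc, hj⟩ := h.rim.exists_rep a b
    have hj0 : 0 < j := by
      rcases Nat.eq_zero_or_pos j with h0 | h0
      · rw [h0, Nat.add_zero] at hj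
        exact absurd hj hab
      · exact h0
    rw [← hj]
    by_cases hA : ∃ s, 0 < s ∧ s < j ∧ Sp (a + s)
    · by_cases hB : ∃ s, j < s ∧ s < c ∧ Sp (a + s)
      · have hl := (h.shift a).link_far (π := π) hπ (fun k => by
          have e : k + 1 + a = k + a + 1 := by ring
          simp only [e]; exact hr (k + a)) (fun k hk => hs _ hk)
          (by rw [scov_shift h.spper]; exact hcov) (j := j)
          (by
            obtain ⟨s, h1, h2, h3⟩ := hA
            exact ⟨s, h1, h2, by rwa [Nat.add_comm] at h3⟩)
          (by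
            obtain ⟨s, h1, h2, h3⟩ := hB
            exact ⟨s, h1, h2, by rwa [Nat.add_comm] at h3⟩)
        rw [hubSet_shift h.rim] at hl
        simp only [Nat.zero_add] at hl
        rw [Nat.add_comm j a] at hl
        exact hl
      · push Not at hB
        have := hsame (a + j) (c - j) (by omega) (by omega) (fun k hk0 hk => by
          have := hB (j + k) (by omega) (by omega)
          rwa [← Nat.add_assoc] at this)
        have e : a + j + (c - j) = a + c := by omega
        rw [e, h.rim.per] at this
        exact this.symm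
    · push Not at hA
      exact hsame a j hj0 hjc (fun k hk0 hk => hA k hk0 hk)
  rintro x (hx | ⟨a, rfl⟩) y (hy | ⟨b, rfl⟩) hxy
  · exact hhh x hx y hy hxy
  · exact h.link_hub hπ hr hs hx b hgc
  · exact (h.link_hub hπ hr hs hy a hgc).symm
  · exact hrr a b hxy

open Classical in
/-- number of spokes in a window -/
noncomputable def snum (c : ℕ) (Sp : ℕ → Prop) : ℕ := ((Finset.Ico 0 c).filter Sp).card

theorem snum_le (c : ℕ) (Sp : ℕ → Prop) : snum c Sp ≤ c := by
  classical
  unfold snum
  refine (Finset.card_filter_le _ _).trans ?_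
  simp

open Classical in
theorem snum_window {c : ℕ} {Sp : ℕ → Prop} (hper : ∀ k, Sp (k + c) ↔ Sp k) (i : ℕ) :
    ((Finset.Ico i (i + c)).filter Sp).card = snum c Sp := by
  have hper' : Function.Periodic Sp c := by
    intro k
    simp only [hper]
  have h1 := Nat.filter_Ico_card_eq_of_periodic i c _ hper'
  have h0 := Nat.filter_Ico_card_eq_of_periodic 0 c _ hper'
  rw [Nat.zero_add] at h0
  unfold snum
  have h1' : ((Finset.Ico i (i + c)).filter Sp).card = Nat.count Sp c := by
    convert h1 using 2
  have h0' : ((Finset.Ico 0 c).filter Sp).card = Nat.count Sp c := by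
    convert h0 using 2
  rw [h0', ← h1']

/-- a spoke-free interval is short -/
theorem free_short {c : ℕ} {Sp : ℕ → Prop} (hper : ∀ k, Sp (k + c) ↔ Sp k) {i n : ℕ}
    (hn : n ≤ c) (hfree : ∀ k, k < n → ¬ Sp (i + k)) : n + snum c Sp ≤ c := by
  classical
  rw [← snum_window hper i]
  have hsub : (Finset.Ico i (i + c)).filter Sp ⊆ Finset.Ico (i + n) (i + c) := by
    intro k hk
    simp only [Finset.mem_filter, Finset.mem_Ico] at hk ⊢
    refine ⟨?_, hk.1.2⟩
    by_contra hlt
    have := hfree (k - i) (by omega)
    have e : i + (k - i) = k := by omega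
    rw [e] at this
    exact this hk.2
  have := Finset.card_le_card hsub
  rw [Nat.card_Ico] at this
  omega

/-- two adjacent vertices off the rim -/
theorem pair_good [DecidableEq V] [Finite V] (h2 : Two G) {u w : V} (hrim : Rim G c X)
    (hu : ∀ k, X k ≠ u) (hw : ∀ k, X k ≠ w) (huw : G.Adj u w)
    (hdisj : ∀ k, ¬ (G.Adj u (X k) ∧ G.Adj w (X k)))
    (hm : 3 ≤ m) (hmc : m ≤ c)
    (hcount : m ≤ snum c (fun k => G.Adj u (X k) ∨ G.Adj w (X k)) + 1)
    (hcov : 2 * m + 1 ≤ c + scov c (fun k => G.Adj u (X k) ∨ G.Adj w (X k)))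
    (hunit : ∃ i, (G.Adj u (X i) ∧ G.Adj w (X (i + 1))) ∨ (G.Adj w (X i) ∧ G.Adj u (X (i + 1)))) :
    Good G m := by
  classical
  intro σ t hU
  set Sp : ℕ → Prop := fun k => G.Adj u (X k) ∨ G.Adj w (X k) with hSp
  set hv : ℕ → V := fun k => if G.Adj u (X k) then u else w with hhv
  set hp : V → V → List V := fun a b => if a = b then [a] else [a, b] with hhp
  set π0 : V → ZMod 2 := fun z => if z = w then σ s(u, w) else 0 with hπ0
  have huw' : u ≠ w := huw.ne
  have h0u : π0 u = 0 := by simp [hπ0, huw']
  have h0w : π0 w = σ s(u, w) := by simp [hπ0]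
  have hcuw : Cons G σ π0 u w := ⟨huw, by rw [h0u, h0w, zero_add]⟩
  have hspper : ∀ k, Sp (k + c) ↔ Sp k := by intro k; simp only [hSp, hrim.per]
  have hsc : snum c Sp ≤ c := snum_le c Sp
  have hK : ∀ a ∈ ({u, w} : Set V), ∀ b ∈ ({u, w} : Set V), a ≠ b → Cons G σ π0 a b := by
    rintro a (rfl | rfl) b (rfl | rfl) hab
    · exact absurd rfl hab
    · exact hcuw
    · exact hcuw.symm
    · exact absurd rfl hab
  have H : GHub G σ π0 m (c - snum c Sp) c X {u, w} Sp hv hp := by
    refine ⟨hrim, ?_, hspper, ?_, ?_, ?_, ?_, ?_, ?_, ?_, ?_, ?_, hm, hmc, by omega⟩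
    · rintro k (hk | hk)
      · exact hu k hk
      · exact hw k hk
    · intro k; simp only [hhv, hrim.per]
    · intro k _
      simp only [hhv]
      split_ifs
      · exact Or.inl rfl
      · exact Or.inr rfl
    · intro k hk
      simp only [hhv]
      split_ifs with h1
      · exact h1
      · exact hk.resolve_left h1
    · intro a _ b _
      simp only [hhp]
      split_ifs with h1
      · simp
      · simp [h1]
    · intro a ha b hb
      simp only [hhp]
      split_ifs with h1
      · simp
      · simpa using hK a ha b hb h1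
    · intro a _ b _
      simp only [hhp]
      split_ifs <;> rfl
    · intro a _ b _
      simp only [hhp]
      split_ifs with h1
      · simp [h1]
      · rfl
    · intro a ha b hb z hz
      simp only [hhp] at hz
      split_ifs at hz with h1
      · rw [List.mem_singleton] at hz; rw [hz]; exact ha
      · simp only [List.mem_cons, List.not_mem_nil, or_false] at hz
        rcases hz with rfl | rfl
        · exact ha
        · exact hb
    · intro i
      by_contra hcon
      push Not at hcon
      have := free_short hspper (i := i) (n := c - snum c Sp + 1) (by omega)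
        (fun k hk => hcon k (by omega))
      omega
  obtain ⟨ht, π, hπ, hr, hs⟩ := H.pot hU
  refine ⟨ht, ?_⟩
  subst ht
  have hcuw' : Cons G σ π u w := by
    refine ⟨huw, ?_⟩
    rw [hπ u (Or.inl rfl), hπ w (Or.inr rfl)]
    exact hcuw.2
  have hsu : ∀ k, G.Adj u (X k) → Cons G σ π u (X k) := by
    intro k hk
    have := hs k (Or.inl hk)
    simp only [hhv, hk, if_true] at this
    exact this
  have hsw : ∀ k, G.Adj w (X k) → Cons G σ π w (X k) := by
    intro k hk
    have h1 : ¬ G.Adj u (X k) := fun h => hdisj k ⟨h, hk⟩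
    have := hs k (Or.inr hk)
    simp only [hhv, h1, if_false] at this
    exact this
  -- the unit arc, symmetric form
  obtain ⟨i0, a, b, ha, hb, hab, hai, hbi⟩ : ∃ i0 : ℕ, ∃ a b : V, a ∈ ({u, w} : Set V) ∧
      b ∈ ({u, w} : Set V) ∧ Cons G σ π a b ∧ Cons G σ π a (X i0) ∧ Cons G σ π b (X (i0 + 1)) := by
    obtain ⟨i, hi | hi⟩ := hunit
    · exact ⟨i, u, w, Or.inl rfl, Or.inr rfl, hcuw', hsu _ hi.1, hsw _ hi.2⟩
    · exact ⟨i, w, u, Or.inr rfl, Or.inl rfl, hcuw'.symm, hsw _ hi.1, hsu _ hi.2⟩
  have hane : ∀ k, X k ≠ a := by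
    intro k hk
    rcases ha with rfl | rfl
    · exact hu k hk
    · exact hw k hk
  have hbne : ∀ k, X k ≠ b := by
    intro k hk
    rcases hb with rfl | rfl
    · exact hu k hk
    · exact hw k hk
  have hab' : a ≠ b := hab.1.ne
  have hab_link : Link G σ π m (hubSet X {u, w}) a b := by
    obtain ⟨c', rfl⟩ : ∃ c', c = c' + 1 := ⟨c - 1, by omega⟩
    refine ⟨a :: ((seg X (i0 + 1) (c' + 1)).reverse ++ [b]), ?_, ?_, rfl, ?_, ?_, ?_⟩
    · rw [List.nodup_cons, List.nodup_append]
      refine ⟨?_, List.nodup_reverse.2 (hrim.seg_nodup _ _ le_rfl), by simp, ?_⟩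
      · simp only [List.mem_append, List.mem_reverse, List.mem_singleton, not_or]
        refine ⟨fun hmem => ?_, hab'⟩
        obtain ⟨k, _, hk⟩ := mem_seg.1 hmem
        exact hane _ hk
      · intro x hx y hy hxy
        rw [List.mem_reverse] at hx
        rw [List.mem_singleton] at hy
        obtain ⟨k, _, hk⟩ := mem_seg.1 hx
        exact hbne _ (hk.trans (hxy.trans hy))
    · rw [List.isChain_cons, List.isChain_append]
      refine ⟨fun y hy => ?_, chain_reverse (seg_chain hr _ _), by simp, fun x hx y hy => ?_⟩
      · rw [List.head?_append, List.head?_reverse, seg_last] at hy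
        have hy' : y = X (i0 + 1 + c') := by simpa using hy.symm
        have e : i0 + 1 + c' = i0 + (c' + 1) := by ring
        rw [e, hrim.per] at hy'
        subst hy'
        exact hai
      · rw [List.getLast?_reverse, seg_head, Option.mem_def, Option.some.injEq] at hx
        rw [List.head?_cons, Option.mem_def, Option.some.injEq] at hy
        subst hx; subst hy
        exact hbi.symm
    · rw [List.getLast?_cons, List.getLast?_append]; simp
    · intro z hz
      simp only [List.mem_cons, List.mem_append, List.mem_reverse, List.not_mem_nil,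
        or_false] at hz
      rcases hz with rfl | hz | rfl
      · exact Or.inl ha
      · exact mem_hub_seg hz
      · exact Or.inl hb
    · simp only [List.length_cons, List.length_append, List.length_reverse, seg_length]
      omega
  have hsame : ∀ i j, 0 < j → j < c → (∀ k, 0 < k → k < j → ¬ Sp (i + k)) →
      Link G σ π m (hubSet X {u, w}) (X i) (X (i + j)) := by
    intro i j hj0 hjc hfree
    have hic : X (i + c) = X i := hrim.per i
    by_cases hbig : m ≤ c - j + 1
    · obtain ⟨r, hr'⟩ : ∃ r, i + c = i + j + r := ⟨c - j, by omega⟩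
      refine ⟨(seg X (i + j) (r + 1)).reverse, List.nodup_reverse.2
        (hrim.seg_nodup _ _ (by omega)), chain_reverse (seg_chain hr _ _), ?_, ?_,
        fun z hz => ?_, ?_⟩
      · rw [List.head?_reverse, seg_last, ← hr', hic]
      · rw [List.getLast?_reverse, seg_head]
      · rw [List.mem_reverse] at hz
        exact mem_hub_seg hz
      · rw [List.length_reverse, seg_length]; omega
    · have hfs := free_short hspper (i := i + 1) (n := j - 1) (by omega) (fun k hk => by
        have := hfree (k + 1) (by omega) (by omega)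
        have e : i + (k + 1) = i + 1 + k := by ring
        rwa [e] at this)
      -- locate the unit arc
      obtain ⟨e, hec, he⟩ := hrim.exists_rep i i0
      have he1 : X (i + e + 1) = X (i0 + 1) := by
        -- both are successors of the same vertex of the rim
        have h1 := hrim.modeq (i + e)
        have h2 := hrim.modeq i0
        have h3 : (i + e) % c = i0 % c := by
          refine hrim.inj _ _ (Nat.mod_lt _ (by omega)) (Nat.mod_lt _ (by omega)) ?_
          rw [← h1, ← h2, he]
        have h4 : (i + e + 1) % c = (i0 + 1) % c := by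
          rw [Nat.add_mod, h3, ← Nat.add_mod]
        rw [hrim.modeq (i + e + 1), h4, ← hrim.modeq]
      have hspe : Sp (i + e) := by
        simp only [hSp, he]
        rcases ha with rfl | rfl
        · exact Or.inl hai.1
        · exact Or.inr hai.1
      have hspe1 : Sp (i + e + 1) := by
        simp only [hSp, he1]
        rcases hb with rfl | rfl
        · exact Or.inl hbi.1
        · exact Or.inr hbi.1
      have hej : j ≤ e := by
        by_contra hlt
        rcases Nat.eq_zero_or_pos e with h0 | h0
        · by_cases hj1 : j = 1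
          · omega
          · exact hfree 1 (by omega) (by omega) (by rw [h0] at hspe1; exact hspe1)
        · exact hfree e h0 (by omega) hspe
      obtain ⟨r, hr1⟩ : ∃ r, i + c = i + e + 1 + r := ⟨c - e - 1, by omega⟩
      obtain ⟨q, hq1⟩ : ∃ q, i + e = i + j + q := ⟨e - j, by omega⟩
      refine ⟨(seg X (i + e + 1) (r + 1)).reverse ++ (b :: a :: (seg X (i + j) (q + 1)).reverse),
        ?_, ?_, ?_, ?_, ?_, ?_⟩
      · rw [List.nodup_append, List.nodup_cons, List.nodup_cons]
        refine ⟨List.nodup_reverse.2 (hrim.seg_nodup _ _ (by omega)), ⟨?_, ?_,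
          List.nodup_reverse.2 (hrim.seg_nodup _ _ (by omega))⟩, ?_⟩
        · simp only [List.mem_cons, List.mem_reverse, not_or]
          refine ⟨hab'.symm, fun hmem => ?_⟩
          obtain ⟨k, _, hk⟩ := mem_seg.1 hmem
          exact hbne _ hk
        · simp only [List.mem_reverse]
          intro hmem
          obtain ⟨k, _, hk⟩ := mem_seg.1 hmem
          exact hane _ hk
        · intro x hx y hy hxy
          subst hxy
          rw [List.mem_reverse] at hx
          obtain ⟨k, hk, hkx⟩ := mem_seg.1 hx
          simp only [List.mem_cons, List.mem_reverse] at hy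
          rcases hy with hy | hy | hy
          · exact hbne _ (hkx.trans hy)
          · exact hane _ (hkx.trans hy)
          · obtain ⟨k', hk', hkk⟩ := mem_seg.1 hy
            exact hrim.ne (a := i + j + k') (b := i + e + 1 + k) (by omega) (by omega)
              (hkk.trans hkx.symm)
      · rw [List.isChain_append, List.isChain_cons_cons, List.isChain_cons]
        refine ⟨chain_reverse (seg_chain hr _ _), ⟨hab.symm, fun y hy => ?_,
          chain_reverse (seg_chain hr _ _)⟩, fun x hx y hy => ?_⟩
        · rw [List.head?_reverse, seg_last, Option.mem_def, Option.some.injEq] at hy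
          subst hy
          rw [← hq1, he]
          exact hai
        · rw [List.getLast?_reverse, seg_head, Option.mem_def, Option.some.injEq] at hx
          rw [List.head?_cons, Option.mem_def, Option.some.injEq] at hy
          subst hx; subst hy
          rw [he1]
          exact hbi.symm
      · rw [List.head?_append, List.head?_reverse, seg_last, ← hr1, hic]; rfl
      · rw [List.getLast?_append, List.getLast?_cons, List.getLast?_cons,
          List.getLast?_reverse, seg_head]; rfl
      · intro z hz
        simp only [List.mem_append, List.mem_cons, List.mem_reverse] at hz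
        rcases hz with hz | rfl | rfl | hz
        · exact mem_hub_seg hz
        · exact Or.inl hb
        · exact Or.inl ha
        · exact mem_hub_seg hz
      · simp only [List.length_append, List.length_cons, List.length_reverse, seg_length]
        omega
  have hhh : ∀ x ∈ ({u, w} : Set V), ∀ y ∈ ({u, w} : Set V), x ≠ y →
      Link G σ π m (hubSet X {u, w}) x y := by
    intro x hx y hy hxy
    have key : ∀ x ∈ ({u, w} : Set V), ∀ y ∈ ({u, w} : Set V), x ≠ y →
        (x = a ∧ y = b) ∨ (x = b ∧ y = a) := by
      rintro x (rfl | rfl) y (rfl | rfl) hxy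
      · exact absurd rfl hxy
      · rcases ha with rfl | rfl <;> rcases hb with rfl | rfl
        · exact absurd rfl hab'
        · exact Or.inl ⟨rfl, rfl⟩
        · exact Or.inr ⟨rfl, rfl⟩
        · exact absurd rfl hab'
      · rcases ha with rfl | rfl <;> rcases hb with rfl | rfl
        · exact absurd rfl hab'
        · exact Or.inr ⟨rfl, rfl⟩
        · exact Or.inl ⟨rfl, rfl⟩
        · exact absurd rfl hab'
      · exact absurd rfl hxy
    rcases key x hx y hy hxy with ⟨rfl, rfl⟩ | ⟨rfl, rfl⟩
    · exact hab_link
    · exact hab_link.symm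
  have hgc : c - snum c Sp + 1 ≤ c := by omega
  refine ext_all h2 hm hU _ π (hubSet X {u, w}) rfl
    ⟨X 0, Or.inr ⟨0, rfl⟩, u, Or.inl (Or.inl rfl), hu 0⟩ ?_
  exact H.linked hπ hr hs hcov hgc hsame hhh

end Run7.h807
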