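import Mathlib
import Pool.Agent.Run7.h807.Pair

set_option autoImplicit false

namespace Run7.h807

section percount

variable {c : ℕ}

theorem per_mod {P : ℕ → Prop} (hper : ∀ k, P (k + c) ↔ P k) (k : ℕ) : P (k % c) ↔ P k := by
  have hmul : ∀ r, P (k % c + r * c) ↔ P (k % c) := by
    intro r
    induction r with
    | zero => simp
    | succ r ih =>
      rw [← ih]
      have : k % c + (r + 1) * c = (k % c + r * c) + c := by ring
      rw [this, hper]
  have h := hmul (k / c)
  rw [Nat.mul_comm, Nat.mod_add_div] at h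
  exact h.symm

open Classical in
/-- main counting lemma -/
theorem count_lemma {U B : ℕ → Prop} (hc : 0 < c) (hU : ∀ k, U (k + c) ↔ U k)
    (hBU : ∀ k, B k → U k) (hcons : ∀ k, U k → ¬ U (k + 1)) {lam : ℕ}
    (hfree : ∀ k, B k → ∀ j, 0 < j → j ≤ lam + 1 → ¬ U (k + j)) :
    2 * snum c U + lam * snum c B ≤ c := by
  set S : Finset (ℕ × ℕ) := ((Finset.Ico 0 c).filter U) ×ˢ (Finset.Ico 0 2) ∪
    ((Finset.Ico 0 c).filter B) ×ˢ (Finset.Ico 2 (lam + 2)) with hS
  have hcard : S.card = 2 * snum c U + lam * snum c B := by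
    rw [hS, Finset.card_union_of_disjoint]
    · rw [Finset.card_product, Finset.card_product, Nat.card_Ico, Nat.card_Ico]
      unfold snum
      have e : lam + 2 - 2 = lam := by omega
      rw [e]
      ring
    · rw [Finset.disjoint_left]
      intro x hx hx'
      simp only [Finset.mem_product, Finset.mem_Ico] at hx hx'
      omega
  rw [← hcard]
  have hmaps : ∀ x ∈ S, (x.1 + x.2) % c ∈ Finset.range c := by
    intro x _
    rw [Finset.mem_range]
    exact Nat.mod_lt _ hc
  have hmem : ∀ x ∈ S, x.1 < c ∧ U x.1 ∧ (2 ≤ x.2 → B x.1 ∧ x.2 ≤ lam + 1) := by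
    intro x hx
    simp only [hS, Finset.mem_union, Finset.mem_product, Finset.mem_filter, Finset.mem_Ico] at hx
    rcases hx with ⟨⟨h1, h2⟩, h3⟩ | ⟨⟨h1, h2⟩, h3⟩
    · exact ⟨h1.2, h2, fun h => by omega⟩
    · exact ⟨h1.2, hBU _ h2, fun _ => ⟨h2, by omega⟩⟩
  have key : ∀ x ∈ S, ∀ y ∈ S, (x.1 + x.2) % c = (y.1 + y.2) % c → x.2 ≤ y.2 → x = y := by
    intro x hx y hy hxy hle
    obtain ⟨hx1, hx2, hx3⟩ := hmem x hx
    obtain ⟨hy1, hy2, hy3⟩ := hmem y hy
    have hcong : x.1 ≡ y.1 + (y.2 - x.2) [MOD c] := by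
      have h1 : x.1 + x.2 ≡ y.1 + y.2 [MOD c] := hxy
      have h2 : y.1 + y.2 = (y.1 + (y.2 - x.2)) + x.2 := by omega
      rw [h2] at h1
      exact Nat.ModEq.add_right_cancel' _ h1
    have hU' : U (y.1 + (y.2 - x.2)) := by
      rw [← per_mod hU, ← hcong, per_mod hU]
      exact hx2
    rcases Nat.eq_or_lt_of_le hle with heq | hlt
    · have h3 : x.1 = y.1 := by
        rw [heq, Nat.sub_self, Nat.add_zero] at hcong
        exact Nat.ModEq.eq_of_lt_of_lt hcong hx1 hy1
      exact Prod.ext h3 heq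
    · exfalso
      by_cases h2 : 2 ≤ y.2
      · exact hfree _ (hy3 h2).1 (y.2 - x.2) (by omega) (by have := (hy3 h2).2; omega) hU'
      · have e : y.2 - x.2 = 1 := by omega
        rw [e] at hU'
        exact hcons _ hy2 hU'
  have hinj : Set.InjOn (fun x : ℕ × ℕ => (x.1 + x.2) % c) S := by
    intro x hx y hy hxy
    rcases le_total x.2 y.2 with hle | hle
    · exact key x hx y hy hxy hle
    · exact (key y hy x hx hxy.symm hle).symm
  have := Finset.card_le_card_of_injOn (fun x : ℕ × ℕ => (x.1 + x.2) % c) hmaps hinj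
  rw [Finset.card_range] at this
  exact this

theorem snum_or {A B : ℕ → Prop} (hd : ∀ k, ¬ (A k ∧ B k)) :
    snum c (fun k => A k ∨ B k) = snum c A + snum c B := by
  classical
  unfold snum
  rw [← Finset.card_union_of_disjoint]
  · congr 1
    ext x
    simp [and_or_left]
  · rw [Finset.disjoint_left]
    intro x hx hx'
    rw [Finset.mem_filter] at hx hx'
    exact hd x ⟨hx.2, hx'.2⟩

theorem snum_or_and {A B : ℕ → Prop} :
    snum c (fun k => A k ∨ B k) + snum c (fun k => A k ∧ B k) = snum c A + snum c B := by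
  classical
  unfold snum
  have h := Finset.card_union_add_card_inter ((Finset.Ico 0 c).filter A)
    ((Finset.Ico 0 c).filter B)
  rw [← h]
  congr 2
  · ext x
    simp only [Finset.mem_filter, Finset.mem_union]
    tauto
  · ext x
    simp only [Finset.mem_filter, Finset.mem_inter]
    tauto

theorem snum_pos {A : ℕ → Prop} (hc : 0 < c) (hA : ∀ k, A (k + c) ↔ A k) (h : ∃ k, A k) :
    0 < snum c A := by
  classical
  obtain ⟨k, hk⟩ := h
  unfold snum
  refine Finset.card_pos.2 ⟨k % c, ?_⟩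
  rw [Finset.mem_filter, Finset.mem_Ico]
  exact ⟨⟨Nat.zero_le _, Nat.mod_lt _ hc⟩, (per_mod hA k).2 hk⟩

theorem exists_of_snum_pos {A : ℕ → Prop} (h : 0 < snum c A) : ∃ k, A k := by
  classical
  unfold snum at h
  obtain ⟨k, hk⟩ := Finset.card_pos.1 h
  exact ⟨k, (Finset.mem_filter.1 hk).2⟩

theorem snum_congr {A B : ℕ → Prop} (h : ∀ k, A k ↔ B k) : snum c A = snum c B := by
  have : A = B := funext fun k => propext (h k)
  rw [this]

theorem per_congr {P : ℕ → Prop} (hper : ∀ k, P (k + c) ↔ P k) {a b : ℕ} (h : a ≡ b [MOD c]) :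
    P a ↔ P b := by
  rw [← per_mod hper a, ← per_mod hper b, h]

/-- two separated nonconsecutive sets -/
theorem count_two {A B : ℕ → Prop} (hA : ∀ k, A (k + c) ↔ A k)
    (hB : ∀ k, B (k + c) ↔ B k) (hcA : ∀ k, A k → ¬ A (k + 1)) (hcB : ∀ k, B k → ¬ B (k + 1))
    {lam : ℕ} (hlam : 1 ≤ lam) (hlc : lam + 2 ≤ c)
    (hAB : ∀ k j, 0 < j → j < c → A k → B (k + j) → lam + 2 ≤ j)
    (hBA : ∀ k j, 0 < j → j < c → B k → A (k + j) → lam + 2 ≤ j)
    (hA0 : 0 < snum c A) (hB0 : 0 < snum c B) :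
    ((∀ k, ¬ (A k ∧ B k)) ∧ 2 * (snum c A + snum c B) + lam ≤ c) ∨
      (∃ k, A k ∧ B k) ∧ 2 * (snum c A + snum c B) + lam * snum c (fun k => A k ∧ B k) ≤
        c + 2 * snum c (fun k => A k ∧ B k) := by
  classical
  have hc : 0 < c := by omega
  have hUper : ∀ k, (A (k + c) ∨ B (k + c)) ↔ (A k ∨ B k) := by intro k; rw [hA, hB]
  have hUcons : ∀ k, (A k ∨ B k) → ¬ (A (k + 1) ∨ B (k + 1)) := by
    rintro k (hk | hk) (hk' | hk')
    · exact hcA k hk hk'
    · have := hAB k 1 one_pos (by omega) hk hk'; omega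
    · have := hBA k 1 one_pos (by omega) hk hk'; omega
    · exact hcB k hk hk'
  -- elements of the intersection
  have hbigK : ∀ k, (A k ∧ B k) → ∀ j, 0 < j → j ≤ lam + 1 → ¬ (A (k + j) ∨ B (k + j)) := by
    rintro k ⟨hkA, hkB⟩ j hj0 hj (h | h)
    · have := hBA k j hj0 (by omega) hkB h; omega
    · have := hAB k j hj0 (by omega) hkA h; omega
  by_cases hK : ∃ k, A k ∧ B k
  · right
    refine ⟨hK, ?_⟩
    have h2 := count_lemma (c := c) (U := fun k => A k ∨ B k) (B := fun k => A k ∧ B k) hc hUper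
      (fun k hk => Or.inl hk.1) hUcons (lam := lam) hbigK
    have h3 := snum_or_and (c := c) (A := A) (B := B)
    have h4 : 2 * snum c (fun k => A k ∨ B k) + 2 * snum c (fun k => A k ∧ B k) =
        2 * (snum c A + snum c B) := by rw [← h3]; ring
    omega
  · left
    push Not at hK
    have hd : ∀ k, ¬ (A k ∧ B k) := fun k hk => hK k hk.1 hk.2
    refine ⟨hd, ?_⟩
    -- a switch from `A` to `B`
    obtain ⟨a0, ha0⟩ := exists_of_snum_pos hA0
    obtain ⟨b0, hb0⟩ := exists_of_snum_pos hB0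
    have hex : ∃ g, 0 < g ∧ B (a0 + g) := by
      refine ⟨b0 + (a0 + 1) * c - a0, ?_, ?_⟩
      · have : a0 + 1 ≤ (a0 + 1) * c := Nat.le_mul_of_pos_right _ hc
        omega
      · have h1 : a0 + 1 ≤ (a0 + 1) * c := Nat.le_mul_of_pos_right _ hc
        have e : a0 + (b0 + (a0 + 1) * c - a0) = b0 + (a0 + 1) * c := by omega
        rw [e, per_congr hB (b := b0)]
        · exact hb0
        · rw [Nat.ModEq, Nat.add_mul_mod_self_right]
    obtain ⟨g, ⟨hg0, hgB⟩, hgmin⟩ : ∃ g, (0 < g ∧ B (a0 + g)) ∧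
        ∀ k, k < g → ¬ (0 < k ∧ B (a0 + k)) :=
      ⟨Nat.find hex, Nat.find_spec hex, fun k hk => Nat.find_min hex hk⟩
    have hex2 : ∃ d, d ≤ g ∧ 0 < d ∧ A (a0 + (g - d)) := ⟨g, le_rfl, hg0, by simpa using ha0⟩
    obtain ⟨d, ⟨hdg, hd0, hdA⟩, hdmin⟩ : ∃ d, (d ≤ g ∧ 0 < d ∧ A (a0 + (g - d))) ∧
        ∀ k, k < d → ¬ (k ≤ g ∧ 0 < k ∧ A (a0 + (g - k))) :=
      ⟨Nat.find hex2, Nat.find_spec hex2, fun k hk => Nat.find_min hex2 hk⟩
    set x := a0 + (g - d) with hx
    have hxB : B (x + d) := by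
      have e : x + d = a0 + g := by omega
      rw [e]; exact hgB
    have hdc : d < c := by
      by_contra hcon
      have h5 : B (x + (d - c)) := by
        have e : x + d = x + (d - c) + c := by omega
        rw [e, hB] at hxB
        exact hxB
      rcases Nat.eq_or_lt_of_le (not_lt.1 hcon) with h6 | h6
      · rw [← h6, Nat.sub_self, Nat.add_zero] at h5
        exact hd x ⟨hdA, h5⟩
      · refine hgmin (g - d + (d - c)) (by omega) ⟨by omega, ?_⟩
        have e : a0 + (g - d + (d - c)) = x + (d - c) := by omega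
        rw [e]; exact h5
    have hgap := hAB x d hd0 hdc hdA hxB
    have hxfree : ∀ j, 0 < j → j ≤ lam + 1 → ¬ (A (x + j) ∨ B (x + j)) := by
      rintro j hj0 hj (h | h)
      · refine hdmin (d - j) (by omega) ⟨by omega, by omega, ?_⟩
        have e : a0 + (g - (d - j)) = x + j := by omega
        rw [e]; exact h
      · refine hgmin (g - d + j) (by omega) ⟨by omega, ?_⟩
        have e : a0 + (g - d + j) = x + j := by omega
        rw [e]; exact h
    have h2 := count_lemma (c := c) (U := fun k => A k ∨ B k) (B := fun k => k ≡ x [MOD c]) hc hUper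
      (fun k hk => Or.inl ((per_congr hA hk).2 hdA)) hUcons (lam := lam)
      (fun k hk j hj0 hj => by
        have h7 : k + j ≡ x + j [MOD c] := hk.add_right j
        rw [per_congr hA h7, per_congr hB h7]
        exact hxfree j hj0 hj)
    have h8 : 0 < snum c (fun k => k ≡ x [MOD c]) :=
      snum_pos hc (fun k => by
        simp only [Nat.ModEq, Nat.add_mod_right]) ⟨x, rfl⟩
    rw [snum_or hd] at h2
    have h9 : lam * 1 ≤ lam * snum c (fun k => k ≡ x [MOD c]) := Nat.mul_le_mul_left _ h8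
    omega

end percount

end Run7.h807
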