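import Mathlib
import Pool.Agent.Run7.h807.Count

set_option autoImplicit false

namespace Run7.h807

variable {V : Type*} {G : SimpleGraph V}

/-- a list of vertices which closes up to a cycle -/
def Closed (G : SimpleGraph V) (l : List V) : Prop :=
  l.Nodup ∧ l.IsChain G.Adj ∧ 3 ≤ l.length ∧
    ∃ x y, l.head? = some x ∧ l.getLast? = some y ∧ G.Adj y x

theorem rim_of_closed {l : List V} (h : Closed G l) :
    ∃ X : ℕ → V, Rim G l.length X ∧ ∀ z, z ∈ l ↔ ∃ k, X k = z := by
  obtain ⟨hn, hc, h3, x, y, hx, hy, hxy⟩ := h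
  have hpos : 0 < l.length := by omega
  refine ⟨fun k => l[k % l.length]'(Nat.mod_lt _ hpos), ⟨fun k => ?_, fun i j hi hj hij => ?_,
    fun k => ?_, h3⟩, fun z => ?_⟩
  · simp only [Nat.add_mod_right]
  · simp only [Nat.mod_eq_of_lt hi, Nat.mod_eq_of_lt hj] at hij
    exact (List.Nodup.getElem_inj_iff hn).1 hij
  · have hk := Nat.mod_lt k hpos
    by_cases hlast : k % l.length + 1 = l.length
    · have h1 : (k + 1) % l.length = 0 := by
        rw [Nat.add_mod, Nat.mod_eq_of_lt (a := 1) (by omega), hlast, Nat.mod_self]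
      simp only [h1]
      have h2 : l[k % l.length] = y := by
        rw [List.getLast?_eq_getElem?] at hy
        have h4 : l.length - 1 = k % l.length := by omega
        rw [h4, List.getElem?_eq_getElem hk] at hy
        exact Option.some.inj hy
      have h3' : l[0] = x := by
        rw [List.head?_eq_getElem?, List.getElem?_eq_getElem hpos] at hx
        exact Option.some.inj hx
      rw [h2, h3']
      exact hxy
    · have h1 : (k + 1) % l.length = k % l.length + 1 := by
        rw [Nat.add_mod, Nat.mod_eq_of_lt (a := 1) (by omega)]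
        exact Nat.mod_eq_of_lt (by omega)
      simp only [h1]
      exact List.isChain_iff_getElem.1 hc _ (by omega)
  · constructor
    · intro hz
      obtain ⟨i, hi, rfl⟩ := List.getElem_of_mem hz
      exact ⟨i, by simp only [Nat.mod_eq_of_lt hi]⟩
    · rintro ⟨k, rfl⟩
      exact List.getElem_mem _

theorem closed_of_rim {c : ℕ} {X : ℕ → V} (h : Rim G c X) : Closed G (seg X 0 c) := by
  have h3 := h.three
  obtain ⟨c', rfl⟩ : ∃ c', c = c' + 1 := ⟨c - 1, by omega⟩
  refine ⟨h.seg_nodup _ _ le_rfl, seg_chain h.adj _ _, by rw [seg_length]; exact h3,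
    X 0, X (0 + c'), seg_head _ _ _, seg_last _ _ _, ?_⟩
  have := h.adj c'
  have h2 := h.per 0
  rw [Nat.zero_add] at h2
  rw [h2] at this
  simpa using this

theorem exists_max_closed {n : ℕ} (h : ∃ l, Closed G l ∧ l.length < n) :
    ∃ l, Closed G l ∧ l.length < n ∧ ∀ l', Closed G l' → l'.length < n → l'.length ≤ l.length := by
  set S : Set ℕ := {k | ∃ l, Closed G l ∧ l.length < n ∧ l.length = k} with hS
  have hne : S.Nonempty := by
    obtain ⟨l, h1, h2⟩ := h
    exact ⟨l.length, l, h1, h2, rfl⟩
  have hbd : BddAbove S := ⟨n, by rintro k ⟨l, _, h2, rfl⟩; exact h2.le⟩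
  obtain ⟨l, h1, h2, h3⟩ := Nat.sSup_mem hne hbd
  refine ⟨l, h1, h2, fun l' h1' h2' => ?_⟩
  rw [h3]
  exact le_csSup hbd ⟨l', h1', h2', rfl⟩

/-- longest path inside a set -/
theorem exists_max_path [Finite V] {R : V → Prop} {v : V} (hv : R v) :
    ∃ P : List V, P.Nodup ∧ P.IsChain G.Adj ∧ (∀ z ∈ P, R z) ∧ P ≠ [] ∧
      ∀ Q : List V, Q.Nodup → Q.IsChain G.Adj → (∀ z ∈ Q, R z) → Q.length ≤ P.length := by
  have := Fintype.ofFinite V
  set S : Set ℕ := {k | ∃ l : List V, l.Nodup ∧ l.IsChain G.Adj ∧ (∀ z ∈ l, R z) ∧ l ≠ [] ∧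
    l.length = k} with hS
  have hne : S.Nonempty := ⟨1, [v], by simp, by simp, by simpa using hv, by simp, rfl⟩
  have hbd : BddAbove S := ⟨Fintype.card V, by
    rintro k ⟨l, h1, _, _, _, rfl⟩
    exact h1.length_le_card⟩
  obtain ⟨l, h1, h2, h3, h4, h5⟩ := Nat.sSup_mem hne hbd
  refine ⟨l, h1, h2, h3, h4, fun Q g1 g2 g3 => ?_⟩
  by_cases hQ : Q = []
  · rw [hQ]; simp
  · rw [h5]
    exact le_csSup hbd ⟨Q, g1, g2, g3, hQ, rfl⟩

/-- rerouting a rim through an outer path -/
theorem reroute {c : ℕ} {X : ℕ → V} (h : Rim G c X) {P : List V} {u w : V} (hn : P.Nodup)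
    (hc : P.IsChain G.Adj) (hu : P.head? = some u) (hw : P.getLast? = some w)
    (hoff : ∀ z ∈ P, ∀ k, X k ≠ z) {i j : ℕ} (hj0 : 0 < j) (hjc : j < c) (hui : G.Adj u (X i))
    (hwj : G.Adj w (X (i + j))) : Closed G (P ++ seg X (i + j) (c - j + 1)) := by
  have hP : 1 ≤ P.length := by
    cases P with
    | nil => simp at hu
    | cons a l => simp
  obtain ⟨r, hr⟩ : ∃ r, i + c = i + j + r := ⟨c - j, by omega⟩
  have hr' : c - j + 1 = r + 1 := by omega
  rw [hr']
  refine ⟨?_, ?_, ?_, u, X (i + j + r), ?_, ?_, ?_⟩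
  · rw [List.nodup_append]
    refine ⟨hn, h.seg_nodup _ _ (by omega), fun x hx y hy hxy => ?_⟩
    obtain ⟨k, _, hk⟩ := mem_seg.1 hy
    exact hoff x hx _ (hk.trans hxy.symm)
  · rw [List.isChain_append]
    refine ⟨hc, seg_chain h.adj _ _, fun x hx y hy => ?_⟩
    rw [hw, Option.mem_def, Option.some.injEq] at hx
    rw [seg_head, Option.mem_def, Option.some.injEq] at hy
    subst hx; subst hy
    exact hwj
  · rw [List.length_append, seg_length]; omega
  · rw [List.head?_append, hu]; rfl
  · rw [List.getLast?_append, seg_last]; rfl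
  · rw [← hr, h.per]; exact hui.symm

section deg

variable [Fintype V] [DecidableEq V] [DecidableRel G.Adj]

omit [DecidableEq V] in
/-- neighbours on the rim and off the rim -/
theorem degree_le {c : ℕ} {X : ℕ → V} (h : Rim G c X) (u : V) (P : Finset V)
    (hP : ∀ z, G.Adj u z → (∀ k, X k ≠ z) → z ∈ P) :
    G.degree u ≤ snum c (fun k => G.Adj u (X k)) + (P.filter (fun z => G.Adj u z)).card := by
  classical
  rw [← SimpleGraph.card_neighborFinset_eq_degree]
  have hsub : G.neighborFinset u ⊆
      ((Finset.Ico 0 c).filter (fun k => G.Adj u (X k))).image X ∪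
        P.filter (fun z => G.Adj u z) := by
    intro z hz
    rw [SimpleGraph.mem_neighborFinset] at hz
    rw [Finset.mem_union]
    by_cases hzX : ∃ k, X k = z
    · left
      obtain ⟨k, rfl⟩ := hzX
      rw [h.modeq k] at hz ⊢
      refine Finset.mem_image_of_mem _ ?_
      rw [Finset.mem_filter, Finset.mem_Ico]
      exact ⟨⟨Nat.zero_le _, Nat.mod_lt _ (by have := h.three; omega)⟩, hz⟩
    · right
      push Not at hzX
      rw [Finset.mem_filter]
      exact ⟨hP z hz hzX, hz⟩
  refine (Finset.card_le_card hsub).trans ((Finset.card_union_le _ _).trans ?_)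
  have h1 : (((Finset.Ico 0 c).filter (fun k => G.Adj u (X k))).image X).card ≤
      snum c (fun k => G.Adj u (X k)) := by
    unfold snum
    refine Finset.card_image_le.trans ?_
    apply le_of_eq
    congr
  omega

end deg

theorem card_off [Fintype V] {c : ℕ} {X : ℕ → V} (h : Rim G c X) (P : List V) (hn : P.Nodup)
    (hoff : ∀ z ∈ P, ∀ k, X k ≠ z) : c + P.length ≤ Fintype.card V ∧
      (c + P.length = Fintype.card V → ∀ z, (∀ k, X k ≠ z) → z ∈ P) := by
  classical
  have hnd : (seg X 0 c ++ P).Nodup := by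
    rw [List.nodup_append]
    refine ⟨h.seg_nodup _ _ le_rfl, hn, fun x hx y hy hxy => ?_⟩
    obtain ⟨k, _, hk⟩ := mem_seg.1 hx
    exact hoff y hy _ (hk.trans hxy)
  constructor
  · have := hnd.length_le_card
    rw [List.length_append, seg_length] at this
    exact this
  · intro heq z hz
    by_contra hzP
    have hnd' : (z :: (seg X 0 c ++ P)).Nodup := by
      rw [List.nodup_cons]
      refine ⟨?_, hnd⟩
      rw [List.mem_append, not_or]
      refine ⟨fun hmem => ?_, hzP⟩
      obtain ⟨k, _, hk⟩ := mem_seg.1 hmem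
      exact hz _ hk
    have := hnd'.length_le_card
    rw [List.length_cons, List.length_append, seg_length] at this
    omega

/-- in a triangle-free graph a vertex sees at most every second vertex of a path -/
theorem tf_filter [DecidableRel G.Adj] (htf : ∀ a b c, G.Adj a b → G.Adj b c → ¬ G.Adj a c)
    (a : V) : ∀ (q : List V), q.IsChain G.Adj →
      (q.filter (fun z => decide (G.Adj a z))).length ≤ (q.length + 1) / 2
  | [], _ => by simp
  | [b], _ => by
      by_cases h : G.Adj a b <;> simp [h]
  | b :: b' :: q, hc => by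
      rw [List.isChain_cons_cons] at hc
      have hq : q.IsChain G.Adj := by
        cases q with
        | nil => simp
        | cons x q => exact (List.isChain_cons_cons.1 hc.2).2
      have ih := tf_filter htf a q hq
      by_cases h1 : G.Adj a b
      · have h2 : ¬ G.Adj a b' := htf a b b' h1 hc.1
        simp only [List.filter_cons, h1, h2, decide_true, decide_false, if_true,
          List.length_cons, Bool.false_eq_true, if_false]
        omega
      · by_cases h2 : G.Adj a b'
        · simp only [List.filter_cons, h1, h2, decide_true, decide_false, if_true,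
            List.length_cons, Bool.false_eq_true, if_false]
          omega
        · simp only [List.filter_cons, h1, h2, decide_false,
            List.length_cons, Bool.false_eq_true, if_false]
          omega

end Run7.h807
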