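import Mathlib
import Pool.Agent.Run7.h807.Closed

set_option autoImplicit false

namespace Run7.h807

section gen

variable {c : ℕ}

theorem snum_shift {Sp : ℕ → Prop} (hper : ∀ k, Sp (k + c) ↔ Sp k) (a : ℕ) :
    snum c (fun k => Sp (k + a)) = snum c Sp := by
  classical
  rw [← snum_window hper a]
  unfold snum
  refine Finset.card_bij (fun k _ => k + a) ?_ ?_ ?_
  · intro k hk
    simp only [Finset.mem_filter, Finset.mem_Ico] at hk ⊢
    exact ⟨by omega, hk.2⟩
  · intro i _ j _ hij
    omega
  · intro b hb
    simp only [Finset.mem_filter, Finset.mem_Ico] at hb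
    refine ⟨b - a, ?_, by omega⟩
    simp only [Finset.mem_filter, Finset.mem_Ico]
    have e1 : b - a + a = b := by omega
    rw [e1]
    exact ⟨by omega, hb.2⟩

theorem scov_eq (Sp : ℕ → Prop) : scov c Sp = snum c (fun k => Sp k ∨ Sp (k + 1)) := by
  classical
  unfold scov snum
  congr

theorem scov_all {U : ℕ → Prop} (h : ∀ k, U k) : scov c U = c := by
  classical
  unfold scov
  have : (Finset.Ico 0 c).filter (fun k => U k ∨ U (k + 1)) = Finset.Ico 0 c := by
    ext k
    simp [h]
  have h2 := congrArg Finset.card this
  rw [Nat.card_Ico, Nat.sub_zero] at h2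
  rw [← h2]
  congr

theorem snum_lt_scov {U : ℕ → Prop} (hc0 : 0 < c) (hU : ∀ k, U (k + c) ↔ U k) {z : ℕ}
    (hz : ¬ U z) (hz1 : U (z + 1)) : snum c U < scov c U := by
  classical
  have h1 : snum c U = ((Finset.Ico 0 c).filter U).card := by
    unfold snum
    congr
  have h2 : scov c U = ((Finset.Ico 0 c).filter (fun k => U k ∨ U (k + 1))).card := by
    unfold scov
    congr
  rw [h1, h2]
  refine Finset.card_lt_card ⟨fun k hk => ?_, fun hsub => ?_⟩
  · rw [Finset.mem_filter] at hk ⊢
    exact ⟨hk.1, Or.inl hk.2⟩
  · have hmem : z % c ∈ (Finset.Ico 0 c).filter (fun k => U k ∨ U (k + 1)) := by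
      rw [Finset.mem_filter, Finset.mem_Ico]
      refine ⟨⟨Nat.zero_le _, Nat.mod_lt _ hc0⟩, Or.inr ?_⟩
      have e : z % c + 1 ≡ z + 1 [MOD c] := (Nat.mod_modEq z c).add_right 1
      rw [per_congr hU e]
      exact hz1
    have h7 := hsub hmem
    rw [Finset.mem_filter] at h7
    have h8 := h7.2
    rw [per_mod hU] at h8
    exact hz h8

theorem snum_missing {U : ℕ → Prop} (hc0 : 0 < c) (hU : ∀ k, U (k + c) ↔ U k) {z i : ℕ}
    (hz : ¬ U z) (hi0 : 0 < i) (hic : i < c) (hi : ¬ U (z + i)) : snum c U + 2 ≤ c := by
  classical
  have hsub : (Finset.Ico 0 c).filter U ⊆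
      ((Finset.Ico 0 c).erase (z % c)).erase ((z + i) % c) := by
    intro k hk
    rw [Finset.mem_filter] at hk
    rw [Finset.mem_erase, Finset.mem_erase]
    refine ⟨?_, ?_, hk.1⟩
    · rintro rfl
      exact hi ((per_mod hU _).1 hk.2)
    · rintro rfl
      exact hz ((per_mod hU _).1 hk.2)
  have h9 := Finset.card_le_card hsub
  have hneq : (z + i) % c ≠ z % c := by
    intro heq
    have h10 : z + i ≡ z + 0 [MOD c] := by rw [Nat.add_zero]; exact heq
    have h11 := Nat.ModEq.add_left_cancel' z h10
    have := Nat.ModEq.eq_of_lt_of_lt h11 hic hc0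
    omega
  have hm1 : z % c ∈ Finset.Ico 0 c := by
    rw [Finset.mem_Ico]; exact ⟨Nat.zero_le _, Nat.mod_lt _ hc0⟩
  have hm2 : (z + i) % c ∈ (Finset.Ico 0 c).erase (z % c) := by
    rw [Finset.mem_erase, Finset.mem_Ico]
    exact ⟨hneq, Nat.zero_le _, Nat.mod_lt _ hc0⟩
  rw [Finset.card_erase_of_mem hm2, Finset.card_erase_of_mem hm1, Nat.card_Ico] at h9
  have h12 : snum c U = ((Finset.Ico 0 c).filter U).card := by
    unfold snum
    congr
  omega

theorem free_short2 {Sp : ℕ → Prop} (hper : ∀ k, Sp (k + c) ↔ Sp k)
    (hcons : ∀ k, Sp k → ¬ Sp (k + 1)) {i n : ℕ} (hn : n ≤ c)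
    (hfree : ∀ k, k < n → ¬ Sp (i + k)) : n + 2 * snum c Sp ≤ c + 1 := by
  classical
  rw [← snum_window hper i]
  set S := (Finset.Ico i (i + c)).filter Sp with hS
  have h1 : S ⊆ Finset.Ico (i + n) (i + c + 1) := by
    intro k hk
    simp only [hS, Finset.mem_filter, Finset.mem_Ico] at hk ⊢
    refine ⟨?_, by omega⟩
    by_contra hlt
    have := hfree (k - i) (by omega)
    have e : i + (k - i) = k := by omega
    rw [e] at this
    exact this hk.2
  have h2 : S.image (fun k => k + 1) ⊆ Finset.Ico (i + n) (i + c + 1) := by
    intro k hk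
    rw [Finset.mem_image] at hk
    obtain ⟨k', hk', rfl⟩ := hk
    have h3 := h1 hk'
    simp only [hS, Finset.mem_filter, Finset.mem_Ico] at hk' h3 ⊢
    omega
  have hdisj : Disjoint S (S.image (fun k => k + 1)) := by
    rw [Finset.disjoint_left]
    intro k hk hk'
    rw [Finset.mem_image] at hk'
    obtain ⟨k', hk'', rfl⟩ := hk'
    rw [hS, Finset.mem_filter] at hk hk''
    exact hcons _ hk''.2 hk.2
  have h4 := Finset.card_le_card (Finset.union_subset h1 h2)
  rw [Finset.card_union_of_disjoint hdisj, Finset.card_image_of_injective _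
    (fun a b h => by simpa using h), Nat.card_Ico] at h4
  omega

end gen

variable {V : Type*} [Fintype V] [DecidableEq V] {G : SimpleGraph V}

/-- a hub whose neighbours on the rim are pairwise nonconsecutive -/
theorem indep_hub_good (h2 : Two G) {d c : ℕ} {X : ℕ → V} (hrim : Rim G c X) {v : V}
    (hoff : ∀ k, X k ≠ v) (hind : ∀ k, G.Adj v (X k) → ¬ G.Adj v (X (k + 1)))
    (hnum : d ≤ snum c (fun k => G.Adj v (X k))) (hd : 2 ≤ d) : Good G (2 * d - 1) := by
  classical
  have hc : 0 < c := by have := hrim.three; omega
  have hper : ∀ k, G.Adj v (X (k + c)) ↔ G.Adj v (X k) := by intro k; rw [hrim.per]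
  have hcount := count_lemma (c := c) (U := fun k => G.Adj v (X k)) (B := fun k => G.Adj v (X k))
    hc hper (fun k hk => hk) hind (lam := 0) (fun k hk j hj0 hj => by
      have : j = 1 := by omega
      subst this
      exact hind k hk)
  have hcov : cov G c X v = 2 * snum c (fun k => G.Adj v (X k)) := by
    have h1 : cov G c X v = scov c (fun k => G.Adj v (X k)) := rfl
    rw [h1, scov_eq, snum_or (fun k hk => hind k hk.1 hk.2),
      snum_shift (Sp := fun k => G.Adj v (X k)) hper 1]
    ring
  have H : Hub G (2 * d - 1) c X v := by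
    refine ⟨hrim, hoff, by omega, by omega, fun i => ?_⟩
    by_contra hcon
    push Not at hcon
    have := free_short2 (Sp := fun k => G.Adj v (X k)) hper hind (i := i)
      (n := c - (2 * d - 1) + 1) (by omega) (fun k hk => hcon k (by omega))
    omega
  exact H.good h2 (by omega)

section pairtf

variable {c : ℕ} {A B : ℕ → Prop}

/-- alternation along a run of spokes -/
theorem alternate (hcA : ∀ k, A k → ¬ A (k + 1)) (hcB : ∀ k, B k → ¬ B (k + 1)) {x L : ℕ}
    (hA : A x) (hrun : ∀ i, i < L → A (x + i) ∨ B (x + i)) :
    ∀ i, i < L → (Even i → A (x + i)) ∧ (¬ Even i → B (x + i)) := by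
  intro i
  induction i with
  | zero => intro _; exact ⟨fun _ => hA, fun h => absurd Even.zero h⟩
  | succ i ih =>
    intro hi
    have h := ih (by omega)
    have hU := hrun (i + 1) hi
    by_cases he : Even i
    · have h1 := hcA _ (h.1 he)
      refine ⟨fun h' => ?_, fun _ => ?_⟩
      · rw [Nat.even_add_one] at h'; exact absurd he h'
      · exact hU.resolve_left (by rwa [← Nat.add_assoc])
    · have h1 := hcB _ (h.2 he)
      refine ⟨fun _ => ?_, fun h' => ?_⟩
      · exact hU.resolve_right (by rwa [← Nat.add_assoc])
      · rw [Nat.even_add_one, not_not] at h'; exact absurd h' he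

/-- the covering count for a pair hub -/
theorem pair_cov {d : ℕ} (hd : 2 ≤ d) (hA : ∀ k, A (k + c) ↔ A k)
    (hB : ∀ k, B (k + c) ↔ B k) (hcA : ∀ k, A k → ¬ A (k + 1)) (hcB : ∀ k, B k → ¬ B (k + 1))
    (hdisj : ∀ k, ¬ (A k ∧ B k)) (hnum : 2 * d - 2 ≤ snum c (fun k => A k ∨ B k))
    (hAB : ∀ k, A k → ¬ B (k + 2)) (hBA : ∀ k, B k → ¬ A (k + 2)) (hc : 2 * d - 1 ≤ c) :
    2 * (2 * d - 1) + 1 ≤ c + scov c (fun k => A k ∨ B k) := by
  classical
  have hc0 : 0 < c := by omega
  have hU : ∀ k, (A (k + c) ∨ B (k + c)) ↔ (A k ∨ B k) := by intro k; rw [hA, hB]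
  by_cases hall : ∀ k, A k ∨ B k
  · have h1 : scov c (fun k => A k ∨ B k) = c := scov_all hall
    rw [h1]
    by_contra hcon
    have hceq : c = 2 * d - 1 := by omega
    have hne : ¬ Even c := by
      rw [hceq, Nat.not_even_iff_odd]
      exact ⟨d - 1, by omega⟩
    rcases hall 0 with h0 | h0
    · have h5 := (alternate (x := 0) (L := c + 1) hcA hcB h0
        (fun i _ => by simpa using hall i) c (by omega)).2 hne
      rw [hB] at h5
      exact hdisj 0 ⟨h0, h5⟩
    · have h5 := (alternate (x := 0) (L := c + 1) hcB hcA h0
        (fun i _ => by simpa using (hall i).symm) c (by omega)).2 hne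
      rw [hA] at h5
      exact hdisj 0 ⟨h5, h0⟩
  · push Not at hall
    obtain ⟨z0, hz0A, hz0B⟩ := hall
    have hUz0 : ¬ (A z0 ∨ B z0) := by tauto
    -- some non-spoke followed by a spoke
    have hstep : ∃ z, ¬ (A z ∨ B z) ∧ (A (z + 1) ∨ B (z + 1)) := by
      by_contra hcon
      push Not at hcon
      have : ∀ i, ¬ (A (z0 + i) ∨ B (z0 + i)) := by
        intro i
        induction i with
        | zero => simpa using hUz0
        | succ i ih =>
          have := hcon (z0 + i) (by tauto)
          rw [← Nat.add_assoc]
          tauto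
      have h6 := free_short (Sp := fun k => A k ∨ B k) hU (i := z0) (n := c) le_rfl
        (fun k _ => this k)
      omega
    obtain ⟨z, hz, hz1⟩ := hstep
    have hlt : snum c (fun k => A k ∨ B k) < scov c (fun k => A k ∨ B k) :=
      snum_lt_scov (U := fun k => A k ∨ B k) hc0 hU hz hz1
    by_contra hcon
    have hceq : c = 2 * d - 1 := by omega
    have hsn : snum c (fun k => A k ∨ B k) = c - 1 := by omega
    -- every other position is a spoke
    have hother : ∀ i, 0 < i → i < c → (A (z + i) ∨ B (z + i)) := by
      intro i hi0 hic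
      by_contra hni
      have := snum_missing (U := fun k => A k ∨ B k) hc0 hU hz hi0 hic hni
      omega
    have hodd : ¬ Even (c - 2) := by
      rw [hceq, Nat.not_even_iff_odd]
      exact ⟨d - 2, by omega⟩
    have e1 : z + 1 + (c - 2) = z + (c - 1) := by omega
    have e2 : z + (c - 1) + 2 = z + 1 + c := by omega
    rcases hz1 with h0 | h0
    · have h5 := (alternate (x := z + 1) (L := c - 1) hcA hcB h0
        (fun i hi => by
          have := hother (1 + i) (by omega) (by omega)
          rwa [← Nat.add_assoc] at this) (c - 2) (by omega)).2 hodd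
      rw [e1] at h5
      refine hBA _ h5 ?_
      rw [e2, hA]
      exact h0
    · have h5 := (alternate (x := z + 1) (L := c - 1) hcB hcA h0
        (fun i hi => by
          have := hother (1 + i) (by omega) (by omega)
          rw [← Nat.add_assoc] at this
          exact this.symm) (c - 2) (by omega)).2 hodd
      rw [e1] at h5
      refine hAB _ h5 ?_
      rw [e2, hB]
      exact h0

end pairtf

variable [DecidableRel G.Adj]

omit [Fintype V] in
theorem card_filter_list (P : List V) (u : V) :
    (P.toFinset.filter (fun z => G.Adj u z)).card ≤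
      (P.filter (fun z => decide (G.Adj u z))).length := by
  have : P.toFinset.filter (fun z => G.Adj u z) =
      (P.filter (fun z => decide (G.Adj u z))).toFinset := by
    ext z; simp
  rw [this]
  exact List.toFinset_card_le _

/-- A Hamilton cycle with a chord gives a nonhamiltonian cycle with at least `n / 2 + 1`
vertices. -/
theorem short_of_ham {d : ℕ} (hd : 3 ≤ d) (hdeg : ∀ v, d ≤ G.degree v) {n : ℕ}
    (hn : n = Fintype.card V) {Z : ℕ → V} (hZ : Rim G n Z) :
    ∃ l, Closed G l ∧ l.length < n ∧ n + 2 ≤ 2 * l.length := by
  classical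
  have hn3 : 3 ≤ n := hZ.three
  obtain ⟨j, hj2, hjn, hj⟩ : ∃ j, 2 ≤ j ∧ j + 2 ≤ n ∧ G.Adj (Z 0) (Z j) := by
    by_contra hcon
    push Not at hcon
    have hsub : G.neighborFinset (Z 0) ⊆ {Z 1, Z (n - 1)} := by
      intro z hz
      rw [SimpleGraph.mem_neighborFinset] at hz
      have hzr : ∃ k, k < n ∧ Z k = z := by
        by_contra hno
        push Not at hno
        have hall : ∀ k, Z k ≠ z := by
          intro k hk
          rw [hZ.modeq k] at hk
          exact hno _ (Nat.mod_lt _ (by omega)) hk
        have := (card_off hZ [z] (by simp) (by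
          intro y hy k; rw [List.mem_singleton] at hy; rw [hy]; exact hall k)).1
        rw [← hn] at this
        simp at this
      obtain ⟨k, hkn, rfl⟩ := hzr
      rw [Finset.mem_insert, Finset.mem_singleton]
      by_cases h0 : k = 0
      · rw [h0] at hz; exact absurd hz (G.loopless.irrefl _)
      · by_cases h1 : k = 1
        · left; rw [h1]
        · by_cases h3 : k = n - 1
          · right; rw [h3]
          · exact absurd hz (hcon k (by omega) (by omega))
    have h5 := Finset.card_le_card hsub
    have h6 := Finset.card_le_two (a := Z 1) (b := Z (n - 1))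
    rw [SimpleGraph.card_neighborFinset_eq_degree] at h5
    have := hdeg (Z 0)
    omega
  by_cases hhalf : n ≤ 2 * j
  · refine ⟨seg Z 0 (j + 1), ⟨hZ.seg_nodup _ _ (by omega), seg_chain hZ.adj _ _, ?_,
      Z 0, Z (0 + j), seg_head _ _ _, seg_last _ _ _, ?_⟩, ?_, ?_⟩
    · rw [seg_length]; omega
    · rw [Nat.zero_add]; exact hj.symm
    · rw [seg_length]; omega
    · rw [seg_length]; omega
  · obtain ⟨r, hr⟩ : ∃ r, n = j + r := ⟨n - j, by omega⟩
    refine ⟨seg Z j (r + 1), ⟨hZ.seg_nodup _ _ (by omega), seg_chain hZ.adj _ _, ?_,
      Z j, Z (j + r), seg_head _ _ _, seg_last _ _ _, ?_⟩, ?_, ?_⟩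
    · rw [seg_length]; omega
    · rw [← hr]
      have := hZ.per 0
      rw [Nat.zero_add] at this
      rw [this]; exact hj
    · rw [seg_length]; omega
    · rw [seg_length]; omega

/-- Main theorem for triangle-free graphs, `2d + 1 ≤ n`. -/
theorem tf_good (h2 : Two G) (htf : ∀ a b c, G.Adj a b → G.Adj b c → ¬ G.Adj a c) {d : ℕ}
    (hd : 3 ≤ d) (hdeg : ∀ v, d ≤ G.degree v)
    (hstart : ∃ l, Closed G l ∧ l.length < Fintype.card V ∧ Fintype.card V + 2 ≤ 2 * l.length)
    (hlow : 2 * d + 1 ≤ Fintype.card V) (hupp : Fintype.card V + 6 ≤ 4 * d) :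
    Good G (2 * d - 1) := by
  classical
  set n := Fintype.card V with hn
  obtain ⟨l0, hl0, hl0n, hl0h⟩ := hstart
  obtain ⟨lc, hlc, hlcn, hlmax⟩ := exists_max_closed ⟨l0, hl0, hl0n⟩
  obtain ⟨X, hX, hXmem⟩ := rim_of_closed hlc
  set c := lc.length with hcdef
  have hchalf : n + 2 ≤ 2 * c := by
    have := hlmax l0 hl0 hl0n
    omega
  have hc3 := hX.three
  have hc0 : 0 < c := by omega
  have hper : ∀ v k, G.Adj v (X (k + c)) ↔ G.Adj v (X k) := by intro v k; rw [hX.per]
  have hnc : ∀ v k, G.Adj v (X k) → ¬ G.Adj v (X (k + 1)) := fun v k h1 =>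
    htf _ _ _ h1 (hX.adj k)
  -- the outside
  have hout : ∃ v, ∀ k, X k ≠ v := by
    by_contra hcon
    push Not at hcon
    have : Fintype.card V ≤ c := by
      have hsurj : (Finset.univ : Finset V) ⊆ (Finset.range c).image X := by
        intro v _
        obtain ⟨k, rfl⟩ := hcon v
        rw [hX.modeq k]
        exact Finset.mem_image_of_mem _ (Finset.mem_range.2 (Nat.mod_lt _ hc0))
      have := Finset.card_le_card hsurj
      rw [Finset.card_univ] at this
      exact this.trans (Finset.card_image_le.trans (by simp))
    omega
  by_cases hS : ∃ v, (∀ k, X k ≠ v) ∧ ∀ z, G.Adj v z → ∃ k, X k = z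
  · obtain ⟨v, hv, hvN⟩ := hS
    refine indep_hub_good h2 hX hv (hnc v) ?_ (by omega)
    have := degree_le hX v ∅ (fun z hz hz' => by
      obtain ⟨k, hk⟩ := hvN z hz
      exact absurd hk (hz' k))
    simp only [Finset.filter_empty, Finset.card_empty, Nat.add_zero] at this
    exact (hdeg v).trans this
  · push Not at hS
    obtain ⟨v0, hv0⟩ := hout
    obtain ⟨P, hPn, hPc, hPR, hPne, hPmax⟩ :=
      exists_max_path (G := G) (R := fun z => ∀ k, X k ≠ z) hv0
    obtain ⟨u, q, rfl⟩ : ∃ u q, P = u :: q := by
      cases P with
      | nil => exact absurd rfl hPne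
      | cons u q => exact ⟨u, q, rfl⟩
    -- nonempty tail
    have hq1 : 1 ≤ q.length := by
      obtain ⟨z, hz, hz'⟩ := hS v0 hv0
      have := hPmax [v0, z] (by simp [hz.ne]) (by simpa using hz) (by
        intro y hy
        simp only [List.mem_cons, List.not_mem_nil, or_false] at hy
        rcases hy with rfl | rfl
        · exact hv0
        · exact hz')
      simp only [List.length_cons, List.length_nil] at this
      omega
    obtain ⟨w, hw⟩ : ∃ w, (u :: q).getLast? = some w := ⟨_, List.getLast?_eq_some_getLast hPne⟩
    have hPu : ∀ z, G.Adj u z → (∀ k, X k ≠ z) → z ∈ q := by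
      intro z hz hz'
      by_contra hzq
      have hzu : z ≠ u := hz.ne'
      have := hPmax (z :: u :: q) (by
        rw [List.nodup_cons]
        exact ⟨by simp [hzu, hzq], hPn⟩) (by
        rw [List.isChain_cons_cons]; exact ⟨hz.symm, hPc⟩) (by
        intro y hy
        rcases List.mem_cons.1 hy with rfl | hy
        · exact hz'
        · exact hPR y hy)
      simp only [List.length_cons] at this
      omega
    have hPw : ∀ z, G.Adj w z → (∀ k, X k ≠ z) → z ∈ u :: q := by
      intro z hz hz'
      by_contra hzq
      have := hPmax ((u :: q) ++ [z]) (by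
        rw [List.nodup_append]
        exact ⟨hPn, by simp, fun a ha b hb hab => by
          rw [List.mem_singleton] at hb; exact hzq (hb ▸ hab ▸ ha)⟩) (by
        rw [List.isChain_append]
        refine ⟨hPc, by simp, fun a ha b hb => ?_⟩
        rw [hw, Option.mem_def, Option.some.injEq] at ha
        rw [List.head?_cons, Option.mem_def, Option.some.injEq] at hb
        subst ha; subst hb; exact hz) (by
        intro y hy
        rcases List.mem_append.1 hy with hy | hy
        · exact hPR y hy
        · rw [List.mem_singleton] at hy; rw [hy]; exact hz')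
      simp only [List.length_append, List.length_cons, List.length_nil] at this
      omega
    have hcard := card_off hX (u :: q) hPn hPR
    rw [← hn, List.length_cons] at hcard
    have hl := hcard.1
    -- degrees
    have hqc : q.IsChain G.Adj := by
      cases q with
      | nil => simp
      | cons b q => exact (List.isChain_cons_cons.1 hPc).2
    have hdu : d ≤ snum c (fun k => G.Adj u (X k)) + (q.length + 1) / 2 := by
      have h1 := degree_le hX u q.toFinset (fun z hz hz' => by
        rw [List.mem_toFinset]; exact hPu z hz hz')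
      have h3 := card_filter_list (G := G) q u
      have h4 := tf_filter htf u q hqc
      have := hdeg u
      omega
    have hdw : d ≤ snum c (fun k => G.Adj w (X k)) + (q.length + 1) / 2 := by
      obtain ⟨q', hq'⟩ : ∃ q', u :: q = q' ++ [w] := List.getLast?_eq_some_iff.1 hw
      have hlen : q'.length = q.length := by
        have := congrArg List.length hq'
        simp only [List.length_cons, List.length_append, List.length_nil] at this
        omega
      have h1 := degree_le hX w q'.toFinset (fun z hz hz' => by
        have h5 := hPw z hz hz'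
        rw [hq', List.mem_append, List.mem_singleton] at h5
        rw [List.mem_toFinset]
        exact h5.resolve_right hz.ne')
      have h3 := card_filter_list (G := G) q' w
      have hq'c : q'.IsChain G.Adj := by
        rw [hq', List.isChain_append] at hPc
        exact hPc.1
      have h4 := tf_filter htf w q' hq'c
      have := hdeg w
      omega
    -- general cross bound for subpaths
    have hcross : ∀ (Q : List V) (a b : V), Q.Nodup → Q.IsChain G.Adj → Q.head? = some a →
        Q.getLast? = some b → (∀ z ∈ Q, ∀ k, X k ≠ z) → ∀ k j, 0 < j → j < c →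
        G.Adj a (X k) → G.Adj b (X (k + j)) → c + Q.length + 1 < n + j → Q.length + 1 ≤ j := by
      intro Q a b h1 h3 h4 h5 h6 k j hj0 hjc ha hb hlt
      have h7 := reroute hX h1 h3 h4 h5 h6 hj0 hjc ha hb
      have h8 := hlmax _ h7 (by rw [List.length_append, seg_length]; omega)
      rw [List.length_append, seg_length] at h8
      omega
    have hwP : w ∈ u :: q := List.mem_of_getLast? hw
    by_cases hcase : n = c + (q.length + 1)
    · -- the path spans the outside
      by_cases hq2 : q.length = 1
      · -- `q = [w]`
        obtain ⟨w', hw'⟩ := List.length_eq_one_iff.1 hq2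
        subst hw'
        have hww : w' = w := by simpa using hw
        subst hww
        have huw : G.Adj u w' := by simpa using hPc
        have hdisj : ∀ k, ¬ (G.Adj u (X k) ∧ G.Adj w' (X k)) := fun k hk =>
          htf _ _ _ huw hk.2 hk.1
        have hcr1 : ∀ k j, 1 < j → j < c → G.Adj u (X k) → G.Adj w' (X (k + j)) → 3 ≤ j :=
          fun k j hj0 hjc ha hb => hcross [u, w'] u w' hPn hPc rfl rfl hPR k j (by omega) hjc ha
            hb (by simp only [List.length_cons, List.length_nil] at hcase ⊢; omega)
        have hcr2 : ∀ k j, 1 < j → j < c → G.Adj w' (X k) → G.Adj u (X (k + j)) → 3 ≤ j :=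
          fun k j hj0 hjc ha hb => hcross [w', u] w' u (by simp [huw.ne']) (by simpa using huw.symm)
            rfl rfl (by intro y hy; exact hPR y (by simp at hy ⊢; tauto)) k j (by omega) hjc ha
            hb (by simp only [List.length_cons, List.length_nil] at hcase ⊢; omega)
        simp only [List.length_cons, List.length_nil] at hdu hdw hcase
        by_cases hunit : ∃ i, (G.Adj u (X i) ∧ G.Adj w' (X (i + 1))) ∨
            (G.Adj w' (X i) ∧ G.Adj u (X (i + 1)))
        · have hsn : 2 * d - 2 ≤ snum c (fun k => G.Adj u (X k) ∨ G.Adj w' (X k)) := by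
            rw [snum_or hdisj]; omega
          refine pair_good h2 hX (fun k => hPR u (by simp) k) (fun k => hPR w' (by simp) k) huw
            hdisj (by omega) (by omega) (by omega) ?_ hunit
          refine pair_cov (by omega) (hper u) (hper w') (hnc u) (hnc w') hdisj hsn ?_ ?_ (by omega)
          · intro k ha hb
            have := hcr1 k 2 (by omega) (by omega) ha hb
            omega
          · intro k ha hb
            have := hcr2 k 2 (by omega) (by omega) ha hb
            omega
        · exfalso
          push Not at hunit
          have h5 := count_two (c := c) (A := fun k => G.Adj u (X k))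
            (B := fun k => G.Adj w' (X k)) (hper u) (hper w') (hnc u) (hnc w') (lam := 1)
            le_rfl (by omega) (fun k j hj0 hjc ha hb => by
              rcases Nat.lt_or_ge 1 j with h | h
              · exact hcr1 k j h hjc ha hb
              · have : j = 1 := by omega
                subst this
                exact absurd hb ((hunit k).1 ha)) (fun k j hj0 hjc ha hb => by
              rcases Nat.lt_or_ge 1 j with h | h
              · exact hcr2 k j h hjc ha hb
              · have : j = 1 := by omega
                subst this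
                exact absurd hb ((hunit k).2 ha)) (by omega) (by omega)
          rcases h5 with ⟨_, h5⟩ | ⟨⟨k, hk⟩, _⟩
          · omega
          · exact hdisj k hk
      · -- `l ≥ 2`: use the second vertex
        exfalso
        obtain ⟨h1, rest, rfl⟩ : ∃ h1 rest, q = h1 :: rest := by
          cases q with
          | nil => simp at hq1
          | cons a b => exact ⟨a, b, rfl⟩
        simp only [List.length_cons] at hq1 hq2 hdu hdw hcase hl
        have hspan : ∀ z, (∀ k, X k ≠ z) → z ∈ u :: h1 :: rest :=
          hcard.2 (by simp only [List.length_cons]; omega)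
        have hrc : rest.IsChain G.Adj := by
          cases rest with
          | nil => simp
          | cons b r => exact (List.isChain_cons_cons.1 (List.isChain_cons_cons.1 hPc).2).2
        have hd1 : d ≤ snum c (fun k => G.Adj h1 (X k)) + (1 + (rest.length + 1) / 2) := by
          have g1 := degree_le hX h1 (insert u rest.toFinset) (fun z hz hz' => by
            have := hspan z hz'
            simp only [List.mem_cons] at this
            rw [Finset.mem_insert, List.mem_toFinset]
            rcases this with h | h | h
            · exact Or.inl h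
            · exact absurd h hz.ne'
            · exact Or.inr h)
          have g2 : ((insert u rest.toFinset).filter (fun z => G.Adj h1 z)).card ≤
              1 + (rest.toFinset.filter (fun z => G.Adj h1 z)).card := by
            rw [Finset.filter_insert]
            split_ifs
            · rw [Nat.add_comm]; exact Finset.card_insert_le _ _
            · omega
          have g3 := card_filter_list (G := G) rest h1
          have g4 := tf_filter htf h1 rest hrc
          have := hdeg h1
          omega
        have hPn' : (h1 :: rest).Nodup := (List.nodup_cons.1 hPn).2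
        have hPc' : (h1 :: rest).IsChain G.Adj := hqc
        have hw' : (h1 :: rest).getLast? = some w := by
          rwa [List.getLast?_cons_cons] at hw
        have hoff' : ∀ z ∈ h1 :: rest, ∀ k, X k ≠ z := fun z hz =>
          hPR z (List.mem_cons_of_mem _ hz)
        have hcr1 : ∀ k j, 0 < j → j < c → G.Adj h1 (X k) → G.Adj w (X (k + j)) →
            rest.length + 2 ≤ j := fun k j hj0 hjc ha hb =>
          hcross (h1 :: rest) h1 w hPn' hPc' rfl hw' hoff' k j hj0 hjc ha hb
            (by simp only [List.length_cons]; omega)
        have hcr2 : ∀ k j, 0 < j → j < c → G.Adj w (X k) → G.Adj h1 (X (k + j)) →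
            rest.length + 2 ≤ j := fun k j hj0 hjc ha hb => by
          have := hcross (h1 :: rest).reverse w h1 (List.nodup_reverse.2 hPn')
            (by
              rw [List.isChain_reverse]
              exact hPc'.imp fun a b hab => hab.symm)
            (by rw [List.head?_reverse, hw'])
            (by rw [List.getLast?_reverse]; rfl)
            (by intro z hz; exact hoff' z (List.mem_reverse.1 hz)) k j hj0 hjc ha hb
            (by rw [List.length_reverse]; simp only [List.length_cons]; omega)
          rw [List.length_reverse, List.length_cons] at this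
          exact this
        have h5 := count_two (c := c) (A := fun k => G.Adj h1 (X k))
          (B := fun k => G.Adj w (X k)) (hper h1) (hper w) (hnc h1) (hnc w)
          (lam := rest.length) (by omega) (by omega) hcr1 hcr2 (by omega) (by omega)
        rcases h5 with ⟨_, h5⟩ | ⟨⟨k, hk⟩, h5⟩
        · omega
        · -- `rest.length ≥ 2`, since otherwise `h1 ~ w`
          have hr2 : 2 ≤ rest.length := by
            by_contra hlt
            obtain ⟨w', hw''⟩ : ∃ w', rest = [w'] := List.length_eq_one_iff.1 (by omega)
            subst hw''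
            have hww : w' = w := by simpa using hw'
            subst hww
            have h7 : G.Adj h1 w' := by simpa using hPc'
            exact htf _ _ _ h7 hk.2 hk.1
          have hpos : 0 < snum c (fun k => G.Adj h1 (X k) ∧ G.Adj w (X k)) :=
            snum_pos hc0 (fun k => by rw [hper, hper]) ⟨k, hk⟩
          obtain ⟨e, he⟩ : ∃ e, rest.length = e + 2 := ⟨rest.length - 2, by omega⟩
          rw [he] at h5 hd1 hdw hcase hl
          have h8 : e * 1 ≤ e * snum c (fun k => G.Adj h1 (X k) ∧ G.Adj w (X k)) :=
            Nat.mul_le_mul_left _ hpos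
          have h9 : (e + 2) * snum c (fun k => G.Adj h1 (X k) ∧ G.Adj w (X k)) =
            e * snum c (fun k => G.Adj h1 (X k) ∧ G.Adj w (X k)) +
              2 * snum c (fun k => G.Adj h1 (X k) ∧ G.Adj w (X k)) := by ring
          omega
    · -- the path does not span the outside
      exfalso
      have hcr1 : ∀ k j, 0 < j → j < c → G.Adj u (X k) → G.Adj w (X (k + j)) →
          q.length + 2 ≤ j := fun k j hj0 hjc ha hb =>
        hcross (u :: q) u w hPn hPc rfl hw hPR k j hj0 hjc ha hb
          (by simp only [List.length_cons]; omega)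
      have hcr2 : ∀ k j, 0 < j → j < c → G.Adj w (X k) → G.Adj u (X (k + j)) →
          q.length + 2 ≤ j := fun k j hj0 hjc ha hb => by
        have := hcross (u :: q).reverse w u (List.nodup_reverse.2 hPn)
          (by
            rw [List.isChain_reverse]
            exact hPc.imp fun a b hab => hab.symm)
          (by rw [List.head?_reverse, hw])
          (by rw [List.getLast?_reverse]; rfl)
          (by intro z hz; exact hPR z (List.mem_reverse.1 hz)) k j hj0 hjc ha hb
          (by rw [List.length_reverse]; simp only [List.length_cons]; omega)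
        rw [List.length_reverse, List.length_cons] at this
        exact this
      have h5 := count_two (c := c) (A := fun k => G.Adj u (X k))
        (B := fun k => G.Adj w (X k)) (hper u) (hper w) (hnc u) (hnc w)
        (lam := q.length) (by omega) (by omega) hcr1 hcr2 (by omega) (by omega)
      rcases h5 with ⟨_, h5⟩ | ⟨⟨k, hk⟩, h5⟩
      · omega
      · have hr2 : 2 ≤ q.length := by
          by_contra hlt
          obtain ⟨w', hw''⟩ : ∃ w', q = [w'] := List.length_eq_one_iff.1 (by omega)
          subst hw''
          have hww : w' = w := by simpa using hw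
          subst hww
          have h7 : G.Adj u w' := by simpa using hPc
          exact htf _ _ _ h7 hk.2 hk.1
        have hpos : 0 < snum c (fun k => G.Adj u (X k) ∧ G.Adj w (X k)) :=
          snum_pos hc0 (fun k => by rw [hper, hper]) ⟨k, hk⟩
        obtain ⟨e, he⟩ : ∃ e, q.length = e + 2 := ⟨q.length - 2, by omega⟩
        rw [he] at h5 hdu hdw hcase hl
        have h8 : e * 1 ≤ e * snum c (fun k => G.Adj u (X k) ∧ G.Adj w (X k)) :=
          Nat.mul_le_mul_left _ hpos
        have h9 : (e + 2) * snum c (fun k => G.Adj u (X k) ∧ G.Adj w (X k)) =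
          e * snum c (fun k => G.Adj u (X k) ∧ G.Adj w (X k)) +
            2 * snum c (fun k => G.Adj u (X k) ∧ G.Adj w (X k)) := by ring
        omega

end Run7.h807
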