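import Mathlib
import Pool.Agent.Run7.h807.TF

set_option autoImplicit false

namespace Run7.h807

variable {V : Type*} {G : SimpleGraph V}

/-- the basic four-cycle relation coming from two Hamilton cycles -/
theorem four_rel {n m : ℕ} (hn : 6 ≤ n) (hmn : m ≤ n) {σ : Sym2 V → ZMod 2} {t : ZMod 2}
    (hU : Uni G m σ t) {X : ℕ → V} (hX : Rim G n X) (h03 : G.Adj (X 0) (X 3))
    (h14 : G.Adj (X 1) (X 4)) :
    σ s(X 0, X 1) + σ s(X 3, X 4) + σ s(X 0, X 3) + σ s(X 1, X 4) = 0 := by
  obtain ⟨r, rfl⟩ : ∃ r, n = r + 5 := ⟨n - 5, by omega⟩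
  have hlast : G.Adj (X (4 + r)) (X 0) := by
    have h1 := hX.adj (4 + r)
    have h2 := hX.per 0
    have e : 4 + r + 1 = 0 + (r + 5) := by ring
    rw [e, h2] at h1
    exact h1
  have e0 : ∀ k, X (0 + k) = X k := fun k => by rw [Nat.zero_add]
  have hseg : seg X 0 (r + 5) = X 0 :: X 1 :: X 2 :: X 3 :: seg X 4 (r + 1) := by
    have : r + 5 = (r + 1) + 1 + 1 + 1 + 1 := by ring
    rw [this, seg_succ, seg_succ, seg_succ, seg_succ]
  have hnd := hX.seg_nodup 0 (r + 5) le_rfl
  rw [hseg] at hnd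
  have h1 := hU (X 0 :: X 1 :: X 2 :: X 3 :: seg X 4 (r + 1)) (X 0) (X (4 + r)) hnd
    (by
      rw [← hseg]; exact seg_chain hX.adj _ _) rfl
    (by
      rw [List.getLast?_cons_cons, List.getLast?_cons_cons, List.getLast?_cons_cons,
        List.getLast?_cons, seg_last]; rfl) hlast
    (by simp only [List.length_cons, seg_length]; omega)
    (by simp only [List.length_cons, seg_length]; omega)
  have hnd2 : (X 0 :: X 3 :: X 2 :: X 1 :: seg X 4 (r + 1)).Nodup := by
    simp only [List.nodup_cons, List.mem_cons, not_or] at hnd ⊢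
    tauto
  have h2 := hU (X 0 :: X 3 :: X 2 :: X 1 :: seg X 4 (r + 1)) (X 0) (X (4 + r)) hnd2
    (by
      rw [seg_succ]
      simp only [List.isChain_cons_cons]
      refine ⟨h03, (hX.adj 2).symm, (hX.adj 1).symm, h14, ?_⟩
      have := seg_chain hX.adj 4 (r + 1)
      rwa [seg_succ] at this) rfl
    (by
      rw [List.getLast?_cons_cons, List.getLast?_cons_cons, List.getLast?_cons_cons,
        List.getLast?_cons, seg_last]; rfl) hlast
    (by simp only [List.length_cons, seg_length]; omega)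
    (by simp only [List.length_cons, seg_length]; omega)
  rw [seg_succ] at h1 h2
  simp only [ls_cons_cons] at h1 h2
  rw [Sym2.eq_swap (a := X 3) (b := X 2), Sym2.eq_swap (a := X 2) (b := X 1)] at h2
  have h3 := two_self (σ s(X 1, X 2))
  have h4 := two_self (σ s(X 2, X 3))
  have h5 := two_self (ls σ (X 4 :: seg X (4 + 1) r))
  have h6 := two_self (σ s(X (4 + r), X 0))
  have h7 := two_self t
  linear_combination h1 + h2 - h3 - h4 - h5 - h6 + h7

theorem bool_ne3 {a b c : Bool} (h1 : a ≠ b) (h2 : c ≠ b) : a = c := by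
  revert h1 h2; revert a b c; decide

theorem kdd_good [DecidableEq V] [Finite V] {κ : V → Bool}
    (hE : ∀ x y, G.Adj x y ↔ κ x ≠ κ y) {n m : ℕ} (hn : 6 ≤ n) (hmn : m ≤ n)
    {Z : ℕ → V} (hZ : Rim G n Z) : Good G m := by
  classical
  intro σ t hU
  have hadj := hZ.adj
  have hfour : ∀ a b c e, κ a ≠ κ b → κ b ≠ κ c → κ c ≠ κ e → a ≠ c → b ≠ e →
      σ s(a, b) + σ s(b, c) + σ s(c, e) + σ s(e, a) = 0 := by
    intro a b c e hab hbc hce hac hbe
    -- a rim starting in the class of `a`
    obtain ⟨Y, hY, hYE⟩ : ∃ Y : ℕ → V, Rim G n Y ∧ κ (Y 0) = κ a := by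
      by_cases h : κ (Z 0) = κ a
      · exact ⟨Z, hZ, h⟩
      · refine ⟨fun k => Z (k + 1), hZ.shift 1, ?_⟩
        exact bool_ne3 ((hE _ _).1 (hadj 0)).symm (fun h' => h h'.symm)
    have hY1 : κ (Y 1) = κ b := bool_ne3 (b := κ a)
      (by rw [← hYE]; exact ((hE _ _).1 (hY.adj 0)).symm) hab.symm
    have hY2 : κ (Y 2) = κ a := bool_ne3 (b := κ b)
      (by rw [← hY1]; exact ((hE _ _).1 (hY.adj 1)).symm) hab
    have hY3 : κ (Y 3) = κ b := bool_ne3 (b := κ a)
      (by rw [← hY2]; exact ((hE _ _).1 (hY.adj 2)).symm) hab.symm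
    have hY4 : κ (Y 4) = κ a := bool_ne3 (b := κ b)
      (by rw [← hY3]; exact ((hE _ _).1 (hY.adj 3)).symm) hab
    have hca : κ c = κ a := bool_ne3 hbc.symm hab
    have heb : κ e = κ b := by
      refine bool_ne3 (b := κ c) hce.symm hbc
    have hsw' : ∀ (φ : Equiv.Perm V), (∀ x, κ (φ x) = κ x) → Rim G n (fun k => φ (Y k)) := by
      intro φ hφ
      refine ⟨fun k => by rw [hY.per], fun i j hi hj hij => hY.inj i j hi hj (φ.injective hij),
        fun k => ?_, hY.three⟩
      rw [hE, hφ, hφ, ← hE]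
      exact hY.adj k
    have hswE : ∀ p q, κ p = κ q → ∀ x, κ (Equiv.swap p q x) = κ x := by
      intro p q hpq x
      rw [Equiv.swap_apply_def]
      split_ifs with h1 h2
      · rw [h1]; exact hpq.symm
      · rw [h2]; exact hpq
      · rfl
    have hfix : ∀ p q z, κ p ≠ κ z → κ q ≠ κ z → Equiv.swap p q z = z := by
      intro p q z h1 h2
      refine Equiv.swap_apply_of_ne_of_ne ?_ ?_
      · intro h; exact h1 (by rw [h])
      · intro h; exact h2 (by rw [h])
    -- step 1: `Y 0 ↦ a`
    obtain ⟨φ1, hφ1, h10⟩ : ∃ φ : Equiv.Perm V, (∀ x, κ (φ x) = κ x) ∧ φ (Y 0) = a :=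
      ⟨Equiv.swap (Y 0) a, hswE _ _ hYE, Equiv.swap_apply_left _ _⟩
    obtain ⟨φ2, hφ2, h20, h24⟩ : ∃ φ : Equiv.Perm V, (∀ x, κ (φ x) = κ x) ∧ φ (Y 0) = a ∧
        φ (Y 4) = c := by
      have hEc : κ (φ1 (Y 4)) = κ c := by rw [hφ1, hY4, hca]
      refine ⟨φ1.trans (Equiv.swap (φ1 (Y 4)) c), fun x => ?_, ?_, ?_⟩
      · rw [Equiv.trans_apply, hswE _ _ hEc, hφ1]
      · rw [Equiv.trans_apply, h10, Equiv.swap_apply_of_ne_of_ne]
        · rw [← h10]
          intro h
          exact hY.ne (a := 0) (b := 4) (by omega) (by omega) (φ1.injective h)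
        · exact hac
      · rw [Equiv.trans_apply, Equiv.swap_apply_left]
    obtain ⟨φ3, hφ3, h30, h34, h31⟩ : ∃ φ : Equiv.Perm V, (∀ x, κ (φ x) = κ x) ∧ φ (Y 0) = a ∧
        φ (Y 4) = c ∧ φ (Y 1) = b := by
      have hEb : κ (φ2 (Y 1)) = κ b := by rw [hφ2, hY1]
      refine ⟨φ2.trans (Equiv.swap (φ2 (Y 1)) b), fun x => ?_, ?_, ?_, ?_⟩
      · rw [Equiv.trans_apply, hswE _ _ hEb, hφ2]
      · rw [Equiv.trans_apply, h20]
        exact hfix _ _ _ (by rw [hEb]; exact hab.symm) hab.symm
      · rw [Equiv.trans_apply, h24]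
        exact hfix _ _ _ (by rw [hEb]; exact hbc) hbc
      · rw [Equiv.trans_apply, Equiv.swap_apply_left]
    obtain ⟨φ4, hφ4, h40, h44, h41, h43⟩ : ∃ φ : Equiv.Perm V, (∀ x, κ (φ x) = κ x) ∧
        φ (Y 0) = a ∧ φ (Y 4) = c ∧ φ (Y 1) = b ∧ φ (Y 3) = e := by
      have hEe : κ (φ3 (Y 3)) = κ e := by rw [hφ3, hY3, heb]
      have hea : κ e ≠ κ a := by rw [heb]; exact hab.symm
      refine ⟨φ3.trans (Equiv.swap (φ3 (Y 3)) e), fun x => ?_, ?_, ?_, ?_, ?_⟩
      · rw [Equiv.trans_apply, hswE _ _ hEe, hφ3]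
      · rw [Equiv.trans_apply, h30]
        exact hfix _ _ _ (by rw [hEe]; exact hea) hea
      · rw [Equiv.trans_apply, h34]
        exact hfix _ _ _ (by rw [hEe]; exact hce.symm) hce.symm
      · rw [Equiv.trans_apply, h31, Equiv.swap_apply_of_ne_of_ne]
        · rw [← h31]
          intro h
          exact hY.ne (a := 1) (b := 3) (by omega) (by omega) (φ3.injective h)
        · exact hbe
      · rw [Equiv.trans_apply, Equiv.swap_apply_left]
    have hR := hsw' φ4 hφ4
    have h5 := four_rel hn hmn hU hR (by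
      simp only [h40, h43]; rw [hE, heb]; exact hab) (by
      simp only [h41, h44]; rw [hE]; exact hbc)
    simp only [h40, h41, h43, h44] at h5
    rw [Sym2.eq_swap (a := c) (b := e), Sym2.eq_swap (a := e) (b := a)]
    linear_combination h5
  -- the potential
  obtain ⟨x0, y0, hx0, hy0⟩ : ∃ x0 y0, κ x0 = true ∧ κ y0 = false := by
    have h1 := (hE _ _).1 (hadj 0)
    cases h : κ (Z 0) with
    | true =>
      refine ⟨Z 0, Z (0 + 1), h, ?_⟩
      rw [h] at h1
      cases h2 : κ (Z (0 + 1)) with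
      | true => exact absurd h2.symm h1
      | false => rfl
    | false =>
      refine ⟨Z (0 + 1), Z 0, ?_, h⟩
      rw [h] at h1
      cases h2 : κ (Z (0 + 1)) with
      | true => rfl
      | false => exact absurd h2.symm h1
  have hbal : ∃ π : V → ZMod 2, ∀ x y, G.Adj x y → σ s(x, y) = π x + π y := by
    refine ⟨fun z => if κ z = true then σ s(z, y0) else σ s(x0, z) + σ s(x0, y0), ?_⟩
    have key : ∀ x y, κ x = true → κ y = false →
        σ s(x, y) = σ s(x, y0) + (σ s(x0, y) + σ s(x0, y0)) := by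
      intro x y hx hy
      by_cases h1 : x = x0
      · rw [h1]
        have := two_self (σ s(x0, y0))
        linear_combination -this
      · by_cases h3 : y = y0
        · rw [h3]
          have := two_self (σ s(x0, y0))
          linear_combination -this
        · have h4 := hfour x y x0 y0 (by rw [hx, hy]; decide) (by rw [hx0, hy]; decide)
            (by rw [hx0, hy0]; decide) h1 h3
          rw [Sym2.eq_swap (a := y) (b := x0), Sym2.eq_swap (a := y0) (b := x)] at h4
          have h5 := two_self (σ s(x, y0))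
          have h6 := two_self (σ s(x0, y))
          have h7 := two_self (σ s(x0, y0))
          linear_combination h4 - h5 - h6 - h7
    intro x y hxy
    rw [hE] at hxy
    cases hx : κ x with
    | true =>
      cases hy : κ y with
      | true => rw [hx, hy] at hxy; exact absurd rfl hxy
      | false =>
        simp only [hx, hy, if_true, Bool.false_eq_true, if_false]
        exact key x y hx hy
    | false =>
      cases hy : κ y with
      | false => rw [hx, hy] at hxy; exact absurd rfl hxy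
      | true =>
        simp only [hx, hy, if_true, Bool.false_eq_true, if_false]
        rw [Sym2.eq_swap, key y x hy hx]
        ring
  obtain ⟨π, hπ⟩ := hbal
  refine ⟨?_, π, hπ⟩
  -- `t = 0`
  have h1 := rim_total (m := m) hZ hmn hU 0
  rw [← h1]
  have hcons : ∀ k, phi σ Z 0 k = π (Z k) + π (Z 0) := by
    intro k
    induction k with
    | zero => rw [two_self]; rfl
    | succ k ih =>
      change phi σ Z 0 k + σ s(Z k, Z (k + 1)) = _
      rw [ih, hπ _ _ (hadj k)]
      have := two_self (π (Z k))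
      linear_combination this
  have h2 := hcons n
  have h3 := hZ.per 0
  rw [Nat.zero_add] at h3
  rw [h3] at h2
  rw [h2, two_self, add_zero]

/-- Triangle-free graphs with `n = 2d`. -/
theorem tf_good_eq [Fintype V] [DecidableEq V] [DecidableRel G.Adj]
    (htf : ∀ a b c, G.Adj a b → G.Adj b c → ¬ G.Adj a c) {d : ℕ}
    (hd : 3 ≤ d) (hdeg : ∀ v, d ≤ G.degree v) {Z : ℕ → V} (hZ : Rim G (Fintype.card V) Z)
    (heq : Fintype.card V = 2 * d) : Good G (2 * d - 1) := by
  classical
  set n := Fintype.card V with hn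
  have hone : ∀ x y, G.Adj x y → ∀ z, (G.Adj y z ↔ ¬ G.Adj x z) := by
    intro x y hxy z
    constructor
    · intro h1 h2
      exact htf y x z hxy.symm h2 h1
    · intro h1
      by_contra h2
      have hdisj : Disjoint (G.neighborFinset x) (G.neighborFinset y) := by
        rw [Finset.disjoint_left]
        intro w hw hw'
        rw [SimpleGraph.mem_neighborFinset] at hw hw'
        exact htf x y w hxy hw' hw
      have hsub : insert z (G.neighborFinset x ∪ G.neighborFinset y) ⊆ Finset.univ :=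
        Finset.subset_univ _
      have hcard := Finset.card_le_card hsub
      rw [Finset.card_insert_of_notMem, Finset.card_union_of_disjoint hdisj, Finset.card_univ,
        SimpleGraph.card_neighborFinset_eq_degree, SimpleGraph.card_neighborFinset_eq_degree]
        at hcard
      · have := hdeg x
        have := hdeg y
        omega
      · rw [Finset.mem_union, SimpleGraph.mem_neighborFinset, SimpleGraph.mem_neighborFinset]
        tauto
  have hall : ∀ v, ∃ k, Z k = v := by
    intro v
    by_contra hno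
    push Not at hno
    have := (card_off hZ [v] (by simp) (by
      intro y hy k; rw [List.mem_singleton] at hy; rw [hy]; exact hno k)).1
    rw [← hn] at this
    simp at this
  have hpar : ∀ k z, (G.Adj (Z k) z ↔ (Even k ↔ G.Adj (Z 0) z)) := by
    intro k z
    induction k with
    | zero => simp
    | succ k ih =>
      rw [hone _ _ (hZ.adj k) z, ih, Nat.even_add_one]
      tauto
  refine kdd_good (G := G) (κ := fun z => decide (G.Adj (Z 0) z)) ?_ (n := n) (by omega)
    (by omega) hZ
  intro x y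
  obtain ⟨k, rfl⟩ := hall x
  have h1 := hpar k y
  have h2 := hpar k (Z 0)
  have h3 : ¬ G.Adj (Z 0) (Z 0) := G.loopless.irrefl _
  have h4 : G.Adj (Z 0) (Z k) ↔ G.Adj (Z k) (Z 0) := G.adj_comm _ _
  have h7 : G.Adj (Z 0) (Z k) ↔ ¬ Even k := by
    rw [h4, h2]
    tauto
  by_cases h5 : Even k <;> by_cases h6 : G.Adj (Z 0) y <;> simp [h1, h7, h5, h6]

end Run7.h807
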