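import Mathlib
import Pool.Agent.Run7.h807.Kdd

set_option autoImplicit false

namespace Run7.h807

variable {V : Type*} {G : SimpleGraph V}

theorem walk_out {s : Set V} {x y : s} (p : (G.induce s).Walk x y) :
    ∃ q : G.Walk x.1 y.1, ∀ z ∈ q.support, z ∈ s := by
  induction p with
  | nil =>
    refine ⟨.nil, fun z hz => ?_⟩
    rw [SimpleGraph.Walk.support_nil, List.mem_singleton] at hz
    rw [hz]
    exact Subtype.property _
  | cons h p ih =>
    obtain ⟨q, hq⟩ := ih
    refine ⟨.cons h q, fun z hz => ?_⟩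
    rw [SimpleGraph.Walk.support_cons, List.mem_cons] at hz
    rcases hz with rfl | hz
    · exact Subtype.property _
    · exact hq z hz

theorem two_of_conn [DecidableEq V]
    (h : ∀ S : Finset V, S.card ≤ 1 → (G.induce ((↑S : Set V)ᶜ)).Connected) : Two G := by
  intro v a b ha hb
  have hc := h {v} (by simp)
  have ha' : a ∈ ((↑({v} : Finset V) : Set V)ᶜ) := by simpa using ha
  have hb' : b ∈ ((↑({v} : Finset V) : Set V)ᶜ) := by simpa using hb
  obtain ⟨p⟩ := hc.preconnected ⟨a, ha'⟩ ⟨b, hb'⟩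
  obtain ⟨q, hq⟩ := walk_out p
  refine ⟨q, fun hmem => ?_⟩
  have := hq v hmem
  simp at this

theorem exists_last {α : Type*} {p : α → Prop} : ∀ {l : List α}, (∃ x ∈ l, p x) →
    ∃ l1 z l2, l = l1 ++ z :: l2 ∧ p z ∧ ∀ y ∈ l2, ¬ p y
  | [], h => by simp at h
  | a :: l, h => by
    classical
    by_cases h1 : ∃ x ∈ l, p x
    · obtain ⟨l1, z, l2, rfl, hz, h2⟩ := exists_last h1
      exact ⟨a :: l1, z, l2, rfl, hz, h2⟩
    · obtain ⟨x, hx, hp⟩ := h
      rcases List.mem_cons.1 hx with rfl | hx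
      · exact ⟨[], x, l, rfl, hp, fun y hy hy' => h1 ⟨y, hy, hy'⟩⟩
      · exact absurd ⟨x, hx, hp⟩ h1

section

variable [Fintype V] [DecidableEq V] [DecidableRel G.Adj]

/-- a triangle-free graph with minimum degree `d` has a cycle with at least `2d` vertices -/
theorem tf_long (htf : ∀ a b c, G.Adj a b → G.Adj b c → ¬ G.Adj a c) {d : ℕ}
    (hd : 2 ≤ d) (hdeg : ∀ v, d ≤ G.degree v) (v : V) :
    ∃ l, Closed G l ∧ 2 * d ≤ l.length := by
  classical
  obtain ⟨P, hPn, hPc, -, hPne, hPmax⟩ :=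
    exists_max_path (G := G) (R := fun _ => True) (v := v) trivial
  obtain ⟨u, q, rfl⟩ : ∃ u q, P = u :: q := by
    cases P with
    | nil => exact absurd rfl hPne
    | cons u q => exact ⟨u, q, rfl⟩
  have hPu : ∀ z, G.Adj u z → z ∈ q := by
    intro z hz
    by_contra hzq
    have hzu : z ≠ u := hz.ne'
    have := hPmax (z :: u :: q) (by
      rw [List.nodup_cons]
      exact ⟨by simp [hzu, hzq], hPn⟩) (by
      rw [List.isChain_cons_cons]; exact ⟨hz.symm, hPc⟩) (by simp)
    simp only [List.length_cons] at this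
    omega
  have hne : ∃ z ∈ q, G.Adj u z := by
    have h1 := hdeg u
    rw [← SimpleGraph.card_neighborFinset_eq_degree] at h1
    obtain ⟨z, hz⟩ := Finset.card_pos.1 (by omega : 0 < (G.neighborFinset u).card)
    rw [SimpleGraph.mem_neighborFinset] at hz
    exact ⟨z, hPu z hz, hz⟩
  obtain ⟨l1, z, l2, hq, hz, hl2⟩ := exists_last hne
  have hsub : G.neighborFinset u ⊆ ((l1 ++ [z]).filter (fun z => decide (G.Adj u z))).toFinset := by
    intro y hy
    rw [SimpleGraph.mem_neighborFinset] at hy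
    rw [List.mem_toFinset, List.mem_filter]
    refine ⟨?_, by simpa using hy⟩
    have h1 := hPu y hy
    rw [hq, List.mem_append, List.mem_cons] at h1
    rw [List.mem_append, List.mem_singleton]
    rcases h1 with h1 | h1 | h1
    · exact Or.inl h1
    · exact Or.inr h1
    · exact absurd hy (hl2 y h1)
  have hpre : u :: q = (u :: (l1 ++ [z])) ++ l2 := by rw [hq]; simp
  have hch : (u :: (l1 ++ [z])).IsChain G.Adj := by
    rw [hpre, List.isChain_append] at hPc
    exact hPc.1
  have hch' : (l1 ++ [z]).IsChain G.Adj := by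
    exact hch.tail
  have hc1 := Finset.card_le_card hsub
  rw [SimpleGraph.card_neighborFinset_eq_degree] at hc1
  have hc2 := List.toFinset_card_le ((l1 ++ [z]).filter (fun z => decide (G.Adj u z)))
  have hc3 := tf_filter htf u (l1 ++ [z]) hch'
  have hc4 := hdeg u
  have hlen : 2 * d ≤ (l1 ++ [z]).length + 1 := by omega
  refine ⟨u :: (l1 ++ [z]), ⟨?_, hch, ?_, u, z, rfl, ?_, hz.symm⟩, ?_⟩
  · rw [hpre, List.nodup_append] at hPn
    exact hPn.1
  · rw [List.length_cons]; omega
  · rw [← List.cons_append, List.getLast?_append]; rfl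
  · rw [List.length_cons]; omega

theorem tf_final [Nonempty V] (h2 : Two G) (htf : ∀ a b c, G.Adj a b → G.Adj b c → ¬ G.Adj a c) {d : ℕ}
    (hdeg : ∀ v, d ≤ G.degree v) (hupp : Fintype.card V + 6 ≤ 4 * d) :
    Good G (2 * d - 1) := by
  classical
  obtain ⟨v⟩ := ‹Nonempty V›
  have hd1 : 2 ≤ d := by omega
  obtain ⟨l, hl, hll⟩ := tf_long htf hd1 hdeg v
  have hln : l.length ≤ Fintype.card V := hl.1.length_le_card
  have hd : 3 ≤ d := by omega
  by_cases heq : l.length = Fintype.card V
  · obtain ⟨X, hX, hXmem⟩ := rim_of_closed hl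
    rw [heq] at hX
    by_cases h2d : Fintype.card V = 2 * d
    · exact tf_good_eq htf hd hdeg hX h2d
    · exact tf_good h2 htf hd hdeg (short_of_ham hd hdeg rfl hX) (by omega) hupp
  · exact tf_good h2 htf hd hdeg ⟨l, hl, by omega, by omega⟩ (by omega) hupp

end

end Run7.h807
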