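import Mathlib
import Pool.Agent.Run7.h807.Closed

set_option autoImplicit false

namespace Run7.h807

variable {V : Type*} {G : SimpleGraph V}

/-- closing up a path by two crossing chords -/
theorem crossing {P : List V} {u w : V} (hn : P.Nodup) (hc : P.IsChain G.Adj)
    (hu : P.head? = some u) (hw : P.getLast? = some w) {i : ℕ} (hi : i + 1 < P.length)
    (h3 : 3 ≤ P.length) (h1 : G.Adj u P[i + 1]) (h2 : G.Adj w P[i]) :
    Closed G (P.take (i + 1) ++ (P.drop (i + 1)).reverse) := by
  have htd : P.take (i + 1) ++ P.drop (i + 1) = P := List.take_append_drop _ _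
  have hdne : P.drop (i + 1) ≠ [] := by
    intro h
    have := congrArg List.length h
    simp only [List.length_drop, List.length_nil] at this
    omega
  have htlast : (P.take (i + 1)).getLast? = some P[i] := by
    rw [List.getLast?_eq_getElem?, List.getElem?_take_of_lt]
    · rw [List.length_take, Nat.min_eq_left (by omega), Nat.add_sub_cancel]
      exact List.getElem?_eq_getElem _
    · rw [List.length_take, Nat.min_eq_left (by omega)]; omega
  have hdhead : (P.drop (i + 1)).head? = some P[i + 1] := by
    rw [List.head?_drop]; exact List.getElem?_eq_getElem _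
  have hdlast : (P.drop (i + 1)).getLast? = some w := by
    rw [← htd, List.getLast?_append] at hw
    cases h : (P.drop (i + 1)).getLast? with
    | none => rw [List.getLast?_eq_none_iff] at h; exact absurd h hdne
    | some a => rw [h] at hw; simpa using hw
  have hthead : (P.take (i + 1)).head? = some u := by
    rw [List.head?_take]; simp [hu]
  refine ⟨?_, ?_, ?_, u, P[i + 1], ?_, ?_, h1.symm⟩
  · have : (P.take (i + 1) ++ (P.drop (i + 1)).reverse).Perm P := by
      conv_rhs => rw [← htd]
      exact (List.Perm.refl _).append (List.reverse_perm _)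
    exact this.nodup_iff.2 hn
  · rw [List.isChain_append]
    refine ⟨?_, ?_, ?_⟩
    · rw [← htd, List.isChain_append] at hc; exact hc.1
    · rw [List.isChain_reverse]
      have h4 : (P.drop (i + 1)).IsChain G.Adj := by
        rw [← htd, List.isChain_append] at hc; exact hc.2.1
      exact h4.imp fun a b hab => hab.symm
    · intro x hx y hy
      rw [htlast, Option.mem_def, Option.some.injEq] at hx
      rw [List.head?_reverse, hdlast, Option.mem_def, Option.some.injEq] at hy
      subst hx; subst hy
      exact h2.symm
  · rw [List.length_append, List.length_reverse, List.length_take, List.length_drop]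
    omega
  · rw [List.head?_append, hthead]; rfl
  · rw [List.getLast?_append, List.getLast?_reverse, hdhead]; rfl

theorem crossing_length {P : List V} {i : ℕ} (hi : i + 1 < P.length) :
    (P.take (i + 1) ++ (P.drop (i + 1)).reverse).length = P.length := by
  rw [List.length_append, List.length_reverse, List.length_take, List.length_drop]
  omega

theorem crossing_mem {P : List V} {i : ℕ} (z : V) :
    z ∈ P.take (i + 1) ++ (P.drop (i + 1)).reverse ↔ z ∈ P := by
  conv_rhs => rw [← List.take_append_drop (i + 1) P]
  rw [List.mem_append, List.mem_append, List.mem_reverse]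

section

variable [Fintype V] [DecidableEq V] [DecidableRel G.Adj]

/-- Dirac's theorem inside a set of vertices -/
theorem dirac_rel (R : Finset V) (h3 : 3 ≤ R.card)
    (hdeg : ∀ v ∈ R, R.card ≤ 2 * (R.filter (fun z => G.Adj v z)).card) :
    ∃ l, Closed G l ∧ (∀ z ∈ l, z ∈ R) ∧ l.length = R.card := by
  classical
  obtain ⟨v, hv⟩ : ∃ v, v ∈ R := Finset.card_pos.1 (by omega)
  obtain ⟨P, hPn, hPc, hPR, hPne, hPmax⟩ := exists_max_path (G := G) (R := fun z => z ∈ R) hv
  have hpos : 0 < P.length := List.length_pos_iff.2 hPne
  obtain ⟨u, hu⟩ : ∃ u, P.head? = some u := ⟨_, List.head?_eq_some_head hPne⟩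
  obtain ⟨w, hw⟩ : ∃ w, P.getLast? = some w := ⟨_, List.getLast?_eq_some_getLast hPne⟩
  have huP : u ∈ P := List.mem_of_head? hu
  have hwP : w ∈ P := List.mem_of_getLast? hw
  have hPu : ∀ z ∈ R, G.Adj u z → z ∈ P := by
    intro z hzR hz
    by_contra hzq
    obtain ⟨q, rfl⟩ : ∃ q, P = u :: q := by
      cases P with
      | nil => simp at hu
      | cons a q => simp at hu; exact ⟨q, by rw [hu]⟩
    have := hPmax (z :: u :: q) (by
      rw [List.nodup_cons]; exact ⟨hzq, hPn⟩) (by
      rw [List.isChain_cons_cons]; exact ⟨hz.symm, hPc⟩) (by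
      intro y hy
      rcases List.mem_cons.1 hy with rfl | hy
      · exact hzR
      · exact hPR y hy)
    simp only [List.length_cons] at this
    omega
  have hPw : ∀ z ∈ R, G.Adj w z → z ∈ P := by
    intro z hzR hz
    by_contra hzq
    have := hPmax (P ++ [z]) (by
      rw [List.nodup_append]
      exact ⟨hPn, by simp, fun a ha b hb hab => by
        rw [List.mem_singleton] at hb; exact hzq (hb ▸ hab ▸ ha)⟩) (by
      rw [List.isChain_append]
      refine ⟨hPc, by simp, fun a ha b hb => ?_⟩
      rw [hw, Option.mem_def, Option.some.injEq] at ha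
      rw [List.head?_cons, Option.mem_def, Option.some.injEq] at hb
      subst ha; subst hb; exact hz) (by
      intro y hy
      rcases List.mem_append.1 hy with hy | hy
      · exact hPR y hy
      · rw [List.mem_singleton] at hy; rw [hy]; exact hzR)
    simp only [List.length_append, List.length_cons, List.length_nil] at this
    omega
  have hPcard : P.length ≤ R.card := by
    rw [← List.toFinset_card_of_nodup hPn]
    exact Finset.card_le_card fun z hz => hPR z (List.mem_toFinset.1 hz)
  have hdu := hdeg u (hPR u huP)
  have hdw := hdeg w (hPR w hwP)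
  -- index sets
  set S := (Finset.range (P.length - 1)).filter (fun i => G.Adj u (P.getD (i + 1) u)) with hS
  set T := (Finset.range (P.length - 1)).filter (fun i => G.Adj w (P.getD i u)) with hT
  have hSc : (R.filter (fun z => G.Adj u z)).card ≤ S.card := by
    have hsub : R.filter (fun z => G.Adj u z) ⊆ S.image (fun i => P.getD (i + 1) u) := by
      intro z hz
      rw [Finset.mem_filter] at hz
      obtain ⟨j, hj, hjz⟩ := List.getElem_of_mem (hPu z hz.1 hz.2)
      have hj0 : j ≠ 0 := by
        rintro rfl
        rw [List.head?_eq_getElem?, List.getElem?_eq_getElem hpos, Option.some.injEq] at hu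
        rw [hu] at hjz
        exact G.loopless.irrefl _ (hjz ▸ hz.2)
      obtain ⟨j, rfl⟩ : ∃ j', j = j' + 1 := ⟨j - 1, by omega⟩
      rw [Finset.mem_image]
      refine ⟨j, ?_, by rw [List.getD_eq_getElem _ _ hj, hjz]⟩
      rw [hS, Finset.mem_filter, Finset.mem_range, List.getD_eq_getElem _ _ hj, hjz]
      exact ⟨by omega, hz.2⟩
    exact (Finset.card_le_card hsub).trans Finset.card_image_le
  have hTc : (R.filter (fun z => G.Adj w z)).card ≤ T.card := by
    have hsub : R.filter (fun z => G.Adj w z) ⊆ T.image (fun i => P.getD i u) := by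
      intro z hz
      rw [Finset.mem_filter] at hz
      obtain ⟨j, hj, hjz⟩ := List.getElem_of_mem (hPw z hz.1 hz.2)
      have hj0 : j ≠ P.length - 1 := by
        rintro rfl
        rw [List.getLast?_eq_getElem?, List.getElem?_eq_getElem hj, Option.some.injEq] at hw
        rw [hw] at hjz
        exact G.loopless.irrefl _ (hjz ▸ hz.2)
      rw [Finset.mem_image]
      refine ⟨j, ?_, by rw [List.getD_eq_getElem _ _ hj, hjz]⟩
      rw [hT, Finset.mem_filter, Finset.mem_range, List.getD_eq_getElem _ _ hj, hjz]
      exact ⟨by omega, hz.2⟩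
    exact (Finset.card_le_card hsub).trans Finset.card_image_le
  have hSub : S ∪ T ⊆ Finset.range (P.length - 1) := by
    intro x hx
    rcases Finset.mem_union.1 hx with hx | hx
    · exact (Finset.mem_filter.1 hx).1
    · exact (Finset.mem_filter.1 hx).1
  have h5 := Finset.card_le_card hSub
  rw [Finset.card_range] at h5
  have h6 := Finset.card_union_add_card_inter S T
  obtain ⟨i, hi⟩ : ∃ i, i ∈ S ∩ T := Finset.card_pos.1 (by omega)
  rw [Finset.mem_inter, hS, hT, Finset.mem_filter, Finset.mem_filter, Finset.mem_range] at hi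
  obtain ⟨⟨hi1, hi2⟩, -, hi3⟩ := hi
  have hi4 : i + 1 < P.length := by omega
  rw [List.getD_eq_getElem _ _ hi4] at hi2
  rw [List.getD_eq_getElem _ _ (by omega : i < P.length)] at hi3
  have hP3 : 3 ≤ P.length := by
    by_contra hlt
    have h7 : S.card ≤ 1 := by
      refine (Finset.card_le_card (Finset.filter_subset _ _)).trans ?_
      rw [Finset.card_range]; omega
    omega
  have hcl := crossing hPn hPc hu hw hi4 hP3 hi2 hi3
  have hlen := crossing_length hi4
  have hmem := fun z => crossing_mem (P := P) (i := i) z
  set l := P.take (i + 1) ++ (P.drop (i + 1)).reverse with hl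
  refine ⟨l, hcl, fun z hz => hPR z ((hmem z).1 hz), ?_⟩
  rw [hlen]
  by_contra hne
  have hlt : P.length < R.card := by omega
  obtain ⟨z, hzR, hzP⟩ : ∃ z ∈ R, z ∉ P := by
    by_contra hcon
    push Not at hcon
    have : R.card ≤ P.toFinset.card := Finset.card_le_card fun z hz =>
      List.mem_toFinset.2 (hcon z hz)
    rw [List.toFinset_card_of_nodup hPn] at this
    omega
  obtain ⟨y, hyP, hzy⟩ : ∃ y ∈ P, G.Adj z y := by
    by_contra hcon
    push Not at hcon
    have hsub : R.filter (fun x => G.Adj z x) ⊆ (R \ P.toFinset).erase z := by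
      intro x hx
      rw [Finset.mem_filter] at hx
      rw [Finset.mem_erase, Finset.mem_sdiff, List.mem_toFinset]
      exact ⟨hx.2.ne', hx.1, fun h => hcon x h hx.2⟩
    have h7 := Finset.card_le_card hsub
    rw [Finset.card_erase_of_mem (by
      rw [Finset.mem_sdiff, List.mem_toFinset]; exact ⟨hzR, hzP⟩),
      Finset.card_sdiff_of_subset (fun x hx => hPR x (List.mem_toFinset.1 hx)),
      List.toFinset_card_of_nodup hPn] at h7
    have h8 := hdeg z hzR
    have h9 : S.card ≤ P.length - 1 := by
      refine (Finset.card_le_card (Finset.filter_subset _ _)).trans ?_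
      rw [Finset.card_range]
    omega
  obtain ⟨Y, hY, hYmem⟩ := rim_of_closed hcl
  obtain ⟨k, hk⟩ := (hYmem y).1 ((hmem y).2 hyP)
  obtain ⟨r, hr⟩ : ∃ r, l.length = r + 1 := ⟨l.length - 1, by omega⟩
  have h10 := hPmax (z :: seg Y k l.length) (by
    rw [List.nodup_cons]
    refine ⟨fun hz => ?_, hY.seg_nodup _ _ le_rfl⟩
    obtain ⟨k', _, hk'⟩ := mem_seg.1 hz
    exact hzP ((hmem z).1 ((hYmem z).2 ⟨_, hk'⟩))) (by
    rw [hr, seg_succ, List.isChain_cons_cons]
    have := seg_chain hY.adj k (r + 1)
    rw [seg_succ] at this
    exact ⟨by rw [hk]; exact hzy, this⟩) (by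
    intro x hx
    rcases List.mem_cons.1 hx with rfl | hx
    · exact hzR
    · obtain ⟨k', _, hk'⟩ := mem_seg.1 hx
      exact hPR x ((hmem x).1 ((hYmem x).2 ⟨_, hk'⟩)))
  rw [List.length_cons, seg_length, hlen] at h10
  omega

end

end Run7.h807
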