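import Mathlib
import Pool.Agent.Run7.h807.Kdd
import Pool.Agent.Run7.h807.DiracHam

set_option autoImplicit false

namespace Run7.h807

variable {V : Type*}

theorem Uni.mono {G H : SimpleGraph V} (h : ∀ x y, H.Adj x y → G.Adj x y) {m : ℕ}
    {σ : Sym2 V → ZMod 2} {t : ZMod 2} (hU : Uni G m σ t) : Uni H m σ t :=
  fun l x y hn hc hx hy ha h3 hm => hU l x y hn (hc.imp fun a b hab => h a b hab) hx hy (h _ _ ha)
    h3 hm

theorem rim_place {H : SimpleGraph V} [DecidableEq V] {κ : V → Bool}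
    (hE : ∀ x y, H.Adj x y ↔ κ x ≠ κ y) {n : ℕ} (hn : 4 ≤ n)
    {Z : ℕ → V} (hZ : Rim H n Z) {x y : V} (hxy : κ x = κ y) (hne : x ≠ y) :
    ∃ Y, Rim H n Y ∧ Y 0 = x ∧ Y 2 = y := by
  obtain ⟨Y, hY, hYE⟩ : ∃ Y : ℕ → V, Rim H n Y ∧ κ (Y 0) = κ x := by
    by_cases h : κ (Z 0) = κ x
    · exact ⟨Z, hZ, h⟩
    · refine ⟨fun k => Z (k + 1), hZ.shift 1, ?_⟩
      exact bool_ne3 ((hE _ _).1 (hZ.adj 0)).symm (fun h' => h h'.symm)
  have hY2 : κ (Y 2) = κ x := bool_ne3 (b := κ (Y 1)) ((hE _ _).1 (hY.adj 1)).symm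
    (by rw [← hYE]; exact (hE _ _).1 (hY.adj 0))
  have hsw' : ∀ (φ : Equiv.Perm V), (∀ x, κ (φ x) = κ x) → Rim H n (fun k => φ (Y k)) := by
    intro φ hφ
    refine ⟨fun k => by rw [hY.per], fun i j hi hj hij => hY.inj i j hi hj (φ.injective hij),
      fun k => ?_, hY.three⟩
    rw [hE, hφ, hφ, ← hE]
    exact hY.adj k
  have hswE : ∀ p q, κ p = κ q → ∀ x, κ (Equiv.swap p q x) = κ x := by
    intro p q hpq x
    rw [Equiv.swap_apply_def]
    split_ifs with h1 h2
    · rw [h1]; exact hpq.symm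
    · rw [h2]; exact hpq
    · rfl
  obtain ⟨φ1, hφ1, h10⟩ : ∃ φ : Equiv.Perm V, (∀ x, κ (φ x) = κ x) ∧ φ (Y 0) = x :=
    ⟨Equiv.swap (Y 0) x, hswE _ _ hYE, Equiv.swap_apply_left _ _⟩
  have hEc : κ (φ1 (Y 2)) = κ y := by rw [hφ1, hY2, hxy]
  refine ⟨_, hsw' (φ1.trans (Equiv.swap (φ1 (Y 2)) y)) (fun z => ?_), ?_, ?_⟩
  · rw [Equiv.trans_apply, hswE _ _ hEc, hφ1]
  · change (φ1.trans (Equiv.swap (φ1 (Y 2)) y)) (Y 0) = x
    rw [Equiv.trans_apply, h10, Equiv.swap_apply_of_ne_of_ne]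
    · rw [← h10]
      intro h
      exact hY.ne (a := 0) (b := 2) (by omega) (by omega) (φ1.injective h)
    · exact hne
  · change (φ1.trans (Equiv.swap (φ1 (Y 2)) y)) (Y 2) = y
    rw [Equiv.trans_apply, Equiv.swap_apply_left]

/-- a spanning `K_{d,d}` is enough -/
theorem kdd_span [Fintype V] [DecidableEq V] {G : SimpleGraph V} {d : ℕ} (hd : 3 ≤ d)
    (hn : Fintype.card V = 2 * d) (I : Finset V) (hI : I.card = d)
    (hadj : ∀ x ∈ I, ∀ y, y ∉ I → G.Adj x y) : Good G (2 * d - 1) := by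
  classical
  intro σ t hU
  set κ : V → Bool := fun z => decide (z ∈ I) with hκ
  obtain ⟨H, hHE⟩ : ∃ H : SimpleGraph V, ∀ x y, H.Adj x y ↔ κ x ≠ κ y := by
    refine ⟨SimpleGraph.fromRel (fun x y => κ x ≠ κ y), fun x y => ?_⟩
    rw [SimpleGraph.fromRel_adj]
    constructor
    · rintro ⟨_, h | h⟩
      · exact h
      · exact h.symm
    · intro h
      exact ⟨fun h' => h (by rw [h']), Or.inl h⟩
  have hHG : ∀ x y, H.Adj x y → G.Adj x y := by
    intro x y h
    rw [hHE] at h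
    by_cases hx : x ∈ I
    · by_cases hy : y ∈ I
      · simp [hκ, hx, hy] at h
      · exact hadj x hx y hy
    · by_cases hy : y ∈ I
      · exact (hadj y hy x hx).symm
      · simp [hκ, hx, hy] at h
  have hUH : Uni H (2 * d - 1) σ t := hU.mono hHG
  have hcompl : (Finset.univ \ I).card = d := by
    rw [Finset.card_sdiff_of_subset (Finset.subset_univ _), Finset.card_univ, hn, hI]; omega
  obtain ⟨l, hl, -, hll⟩ := dirac_rel (G := H) (Finset.univ : Finset V)
    (by rw [Finset.card_univ, hn]; omega) (by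
      intro v _
      rw [Finset.card_univ, hn]
      by_cases hv : v ∈ I
      · have : Finset.univ \ I ⊆ Finset.univ.filter (fun z => H.Adj v z) := by
          intro z hz
          rw [Finset.mem_sdiff] at hz
          rw [Finset.mem_filter]
          refine ⟨Finset.mem_univ _, ?_⟩
          rw [hHE]; simp [hκ, hv, hz.2]
        have := Finset.card_le_card this
        omega
      · have : I ⊆ Finset.univ.filter (fun z => H.Adj v z) := by
          intro z hz
          rw [Finset.mem_filter]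
          refine ⟨Finset.mem_univ _, ?_⟩
          rw [hHE]; simp [hκ, hv, hz]
        have := Finset.card_le_card this
        omega)
  obtain ⟨Z, hZ, -⟩ := rim_of_closed hl
  rw [hll, Finset.card_univ, hn] at hZ
  obtain ⟨ht, π, hπ⟩ := kdd_good (G := H) hHE (n := 2 * d) (m := 2 * d - 1) (by omega) (by omega)
    hZ σ t hUH
  refine ⟨ht, π, fun x y hxy => ?_⟩
  by_cases h : κ x = κ y
  · obtain ⟨Y, hY, hY0, hY2⟩ := rim_place hHE (by omega) hZ h hxy.ne
    obtain ⟨r, hr⟩ : ∃ r, 2 * d = r + 2 := ⟨2 * d - 2, by omega⟩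
    rw [hr] at hY
    have hlast : Y (2 + r) = x := by
      have := hY.per 0
      rw [show 0 + (r + 2) = 2 + r by ring] at this
      rw [this, hY0]
    have hch : (seg Y 2 (r + 1)).IsChain (Cons H σ π) :=
      seg_chain (fun k => ⟨hY.adj k, hπ _ _ (hY.adj k)⟩) _ _
    have h1 := hU (seg Y 2 (r + 1)) y x (hY.seg_nodup _ _ (by omega))
      (hch.imp fun a b hab => hHG a b hab.1) (by rw [seg_head, hY2])
      (by rw [seg_last]; exact congrArg some hlast) hxy
      (by rw [seg_length]; omega) (by rw [seg_length]; omega)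
    rw [ls_of_cons (seg Y 2 (r + 1)) y x hch (by rw [seg_head, hY2])
      (by rw [seg_last]; exact congrArg some hlast), ht] at h1
    have h2 := two_self (π x)
    have h3 := two_self (π y)
    linear_combination h1 - h2 - h3
  · exact hπ x y ((hHE x y).2 h)

end Run7.h807
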