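import Mathlib
import Pool.Agent.Run7.h807.Kdds

set_option autoImplicit false

namespace Run7.h807

variable {V : Type*} {G : SimpleGraph V}

/-- two parallel chords give a cycle missing one vertex -/
theorem skip_closed {n : ℕ} {Z : ℕ → V} (hZ : Rim G n Z) {i j : ℕ} (hj1 : 1 ≤ j)
    (hj2 : j + 2 ≤ n) (hn : 4 ≤ n) (h1 : G.Adj (Z i) (Z (i + j)))
    (h2 : G.Adj (Z (i + 1)) (Z (i + j + 2))) :
    ∃ l, Closed G l ∧ l.length = n - 1 := by
  obtain ⟨r, rfl⟩ : ∃ r, n = j + r + 2 := ⟨n - j - 2, by omega⟩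
  obtain ⟨q, rfl⟩ : ∃ q, j = q + 1 := ⟨j - 1, by omega⟩
  have hlast : Z (i + (q + 1) + 2 + r) = Z i := by
    rw [show i + (q + 1) + 2 + r = i + (q + 1 + r + 2) by ring, hZ.per]
  have e1 : (seg Z (i + 1) (q + 1)).reverse.head? = some (Z (i + (q + 1))) := by
    rw [List.head?_reverse, seg_last, show i + 1 + q = i + (q + 1) by ring]
  have e2 : (seg Z (i + 1) (q + 1)).reverse.getLast? = some (Z (i + 1)) := by
    rw [List.getLast?_reverse, seg_head]
  refine ⟨(seg Z (i + 1) (q + 1)).reverse ++ seg Z (i + (q + 1) + 2) (r + 1),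
    ⟨?_, ?_, ?_, Z (i + (q + 1)), Z i, ?_, ?_, h1⟩, ?_⟩
  · rw [List.nodup_append]
    refine ⟨List.nodup_reverse.2 (hZ.seg_nodup _ _ (by omega)), hZ.seg_nodup _ _ (by omega), ?_⟩
    intro x hx y hy hxy
    rw [List.mem_reverse] at hx
    obtain ⟨k, hk1, hk⟩ := mem_seg.1 hx
    obtain ⟨k', hk1', hk'⟩ := mem_seg.1 hy
    exact hZ.ne (a := i + 1 + k) (b := i + (q + 1) + 2 + k') (by omega) (by omega)
      (by rw [hk, hk']; exact hxy)
  · rw [List.isChain_append]
    refine ⟨?_, seg_chain hZ.adj _ _, ?_⟩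
    · rw [List.isChain_reverse]
      exact (seg_chain hZ.adj _ _).imp fun a b hab => hab.symm
    · intro x hx y hy
      rw [e2, Option.mem_def, Option.some.injEq] at hx
      rw [seg_head, Option.mem_def, Option.some.injEq] at hy
      subst hx; subst hy
      exact h2
  · rw [List.length_append, List.length_reverse, seg_length, seg_length]; omega
  · rw [List.head?_append, e1]; rfl
  · rw [List.getLast?_append, seg_last, hlast]; rfl
  · rw [List.length_append, List.length_reverse, seg_length, seg_length]; omega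

section

variable [Fintype V] [DecidableEq V] [DecidableRel G.Adj]

omit [DecidableEq V] [DecidableRel G.Adj] in
theorem ham_all {n : ℕ} (hn : n = Fintype.card V) {Z : ℕ → V} (hZ : Rim G n Z) (v : V) :
    ∃ k, k < n ∧ Z k = v := by
  by_contra hno
  push Not at hno
  have hall : ∀ k, Z k ≠ v := by
    intro k hk
    rw [hZ.modeq k] at hk
    exact hno _ (Nat.mod_lt _ (by have := hZ.three; omega)) hk
  have := (card_off hZ [v] (by simp) (by
    intro y hy k; rw [List.mem_singleton] at hy; rw [hy]; exact hall k)).1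
  rw [← hn] at this
  simp at this

/-- degree as a count of offsets on the Hamilton cycle -/
theorem ham_degree {n : ℕ} (hn : n = Fintype.card V) {Z : ℕ → V} (hZ : Rim G n Z) (v : V) :
    G.degree v ≤ snum n (fun k => G.Adj v (Z k)) := by
  have := degree_le hZ v ∅ (fun z hz hz' => by
    obtain ⟨k, _, hk⟩ := ham_all hn hZ z
    exact absurd hk (hz' k))
  simpa using this

/-- A Hamiltonian graph with `n = 2d` and minimum degree at least `d` has a cycle with `n - 1`
vertices or contains a spanning `K_{d,d}`. -/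
theorem n1_or_kdd {d : ℕ} (hd : 3 ≤ d) (hn : Fintype.card V = 2 * d)
    (hdeg : ∀ v, d ≤ G.degree v) {Z : ℕ → V} (hZ : Rim G (2 * d) Z) :
    (∃ l, Closed G l ∧ l.length = 2 * d - 1) ∨
      ∃ I : Finset V, I.card = d ∧ ∀ x ∈ I, ∀ y, y ∉ I → G.Adj x y := by
  classical
  by_cases hcase : ∃ l, Closed G l ∧ l.length = 2 * d - 1
  · exact Or.inl hcase
  right
  have hper : ∀ v k, G.Adj v (Z (k + 2 * d)) ↔ G.Adj v (Z k) := by intro v k; rw [hZ.per]
  have hstep : ∀ i j, G.Adj (Z i) (Z (i + j)) → ¬ G.Adj (Z (i + 1)) (Z (i + j + 2)) := by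
    intro i j h1 h2
    have hred : Z (i + j) = Z (i + j % (2 * d)) := by
      conv_lhs => rw [← Nat.mod_add_div j (2 * d), Nat.mul_comm (2 * d)]
      rw [← Nat.add_assoc]
      exact hZ.mul _ _
    have hred2 : Z (i + j + 2) = Z (i + j % (2 * d) + 2) := by
      conv_lhs => rw [← Nat.mod_add_div j (2 * d), Nat.mul_comm (2 * d)]
      have := hZ.mul (j / (2 * d)) (i + j % (2 * d) + 2)
      rw [← this]
      congr 1
      ring
    rw [hred] at h1
    rw [hred2] at h2
    have hlt := Nat.mod_lt j (show 0 < 2 * d by omega)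
    set j' := j % (2 * d) with hj'
    rcases Nat.eq_zero_or_pos j' with h0 | h0
    · rw [h0, Nat.add_zero] at h1; exact G.loopless.irrefl _ h1
    · rcases Nat.lt_or_ge (j' + 1) (2 * d) with h3 | h3
      · exact hcase (skip_closed hZ h0 (by omega) (by omega) h1 h2)
      · have h4 : i + j' + 2 = i + 1 + 2 * d := by omega
        rw [h4, hZ.per] at h2
        exact G.loopless.irrefl _ h2
  -- complementarity
  have hcomp : ∀ i j, (G.Adj (Z (i + 1)) (Z (i + j + 2)) ↔ ¬ G.Adj (Z i) (Z (i + j))) := by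
    intro i j
    refine ⟨fun h1 h2 => hstep i j h2 h1, fun h1 => ?_⟩
    by_contra h2
    have c1 : d ≤ snum (2 * d) (fun k => G.Adj (Z i) (Z (i + k))) := by
      have e1 := snum_shift (c := 2 * d) (Sp := fun k => G.Adj (Z i) (Z k)) (hper _) i
      have e2 : (fun k => G.Adj (Z i) (Z (i + k))) = fun k => G.Adj (Z i) (Z (k + i)) := by
        funext k; rw [Nat.add_comm]
      rw [e2, e1]
      exact (hdeg _).trans (ham_degree hn.symm hZ _)
    have c2 : d ≤ snum (2 * d) (fun k => G.Adj (Z (i + 1)) (Z (i + k + 2))) := by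
      have e1 := snum_shift (c := 2 * d) (Sp := fun k => G.Adj (Z (i + 1)) (Z k)) (hper _) (i + 2)
      have e2 : (fun k => G.Adj (Z (i + 1)) (Z (i + k + 2))) =
          fun k => G.Adj (Z (i + 1)) (Z (k + (i + 2))) := by
        funext k
        rw [show i + k + 2 = k + (i + 2) by ring]
      rw [e2, e1]
      exact (hdeg _).trans (ham_degree hn.symm hZ _)
    have c3 := snum_or (c := 2 * d) (A := fun k => G.Adj (Z i) (Z (i + k)))
      (B := fun k => G.Adj (Z (i + 1)) (Z (i + k + 2))) (fun k hk => hstep i k hk.1 hk.2)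
    have c4 := free_short (c := 2 * d) (Sp := fun k => G.Adj (Z i) (Z (i + k)) ∨
      G.Adj (Z (i + 1)) (Z (i + k + 2))) (fun k => by
        rw [show i + (k + 2 * d) = i + k + 2 * d by ring, hZ.per,
          show i + k + 2 * d + 2 = i + k + 2 + 2 * d by ring, hZ.per]) (i := j) (n := 1)
        (by omega) (fun k hk => by
          have : k = 0 := by omega
          rw [this, Nat.add_zero, not_or]
          exact ⟨h1, h2⟩)
    omega
  have hodd : ∀ s i, (G.Adj (Z i) (Z (i + s)) ↔ Odd s) := by
    intro s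
    induction s with
    | zero =>
      intro i
      simp
    | succ s ih =>
      intro i
      have h1 := hcomp (i + 2 * d - 1) s
      have e1 : i + 2 * d - 1 + 1 = i + 2 * d := by omega
      have e2 : i + 2 * d - 1 + s + 2 = i + (s + 1) + 2 * d := by omega
      rw [e1, e2, hZ.per, hZ.per, ih] at h1
      rw [h1, Nat.odd_add_one]
  refine ⟨(Finset.range d).image (fun i => Z (2 * i)), ?_, ?_⟩
  · rw [Finset.card_image_of_injOn, Finset.card_range]
    intro a ha b hb hab
    rw [Finset.mem_coe, Finset.mem_range] at ha hb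
    have := hZ.inj (2 * a) (2 * b) (by omega) (by omega) hab
    omega
  · intro x hx y hy
    rw [Finset.mem_image] at hx
    obtain ⟨a, ha, rfl⟩ := hx
    rw [Finset.mem_range] at ha
    obtain ⟨k, hk, rfl⟩ := ham_all hn.symm hZ y
    have hko : ¬ Even k := by
      rintro ⟨b, hb⟩
      apply hy
      rw [Finset.mem_image]
      exact ⟨b, Finset.mem_range.2 (by omega), by congr 1; omega⟩
    rw [Nat.not_even_iff_odd] at hko
    rcases Nat.lt_or_ge (2 * a) k with h | h
    · have := hodd (k - 2 * a) (2 * a)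
      rw [Nat.add_sub_of_le h.le] at this
      rw [this]
      obtain ⟨b, hb⟩ := hko
      exact ⟨b - a, by omega⟩
    · have := hodd (2 * a - k) k
      rw [Nat.add_sub_of_le h] at this
      rw [G.adj_comm, this]
      obtain ⟨b, hb⟩ := hko
      exact ⟨a - b - 1, by omega⟩

end

end Run7.h807
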