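import Mathlib
import Pool.Agent.Run7.h807.TF

set_option autoImplicit false

namespace Run7.h807

section percount

variable {c : ℕ}

theorem next_exists {U : ℕ → Prop} (hc : 0 < c) (hU : ∀ k, U (k + c) ↔ U k) (hne : ∃ k, U k)
    (k : ℕ) : ∃ g, 0 < g ∧ g ≤ c ∧ U (k + g) ∧ ∀ j, 0 < j → j < g → ¬ U (k + j) := by
  classical
  obtain ⟨q, hq⟩ := hne
  have hex : ∃ g, 0 < g ∧ U (k + g) := by
    refine ⟨q + (k + 1) * c - k, ?_, ?_⟩
    · have : k + 1 ≤ (k + 1) * c := Nat.le_mul_of_pos_right _ hc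
      omega
    · have h1 : k + 1 ≤ (k + 1) * c := Nat.le_mul_of_pos_right _ hc
      have e : k + (q + (k + 1) * c - k) = q + (k + 1) * c := by omega
      rw [e, per_congr hU (b := q)]
      · exact hq
      · rw [Nat.ModEq, Nat.add_mul_mod_self_right]
  obtain ⟨g, ⟨hg0, hgU⟩, hgmin⟩ : ∃ g, (0 < g ∧ U (k + g)) ∧
      ∀ j, j < g → ¬ (0 < j ∧ U (k + j)) :=
    ⟨Nat.find hex, Nat.find_spec hex, fun k hk => Nat.find_min hex hk⟩
  refine ⟨g, hg0, ?_, hgU, fun j hj hjg h => hgmin j hjg ⟨hj, h⟩⟩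
  by_contra hcon
  push Not at hcon
  refine hgmin (g - c) (by omega) ⟨by omega, ?_⟩
  have e : k + g = k + (g - c) + c := by omega
  rw [e, hU] at hgU
  exact hgU

theorem snum_mono {P Q : ℕ → Prop} (h : ∀ k, P k → Q k) : snum c P ≤ snum c Q := by
  classical
  unfold snum
  refine Finset.card_le_card fun k hk => ?_
  rw [Finset.mem_filter] at hk ⊢
  exact ⟨hk.1, h k hk.2⟩

/-- if not all elements of `U` satisfy `P`, some element with `P` is followed by one without -/
theorem switch_exists {U P : ℕ → Prop} (hc : 0 < c) (hU : ∀ k, U (k + c) ↔ U k)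
    (hP : ∀ k, P (k + c) ↔ P k) {k0 q : ℕ} (hk0 : U k0) (hPk0 : P k0) (hq : U q)
    (hPq : ¬ P q) :
    ∃ x g, U x ∧ P x ∧ 0 < g ∧ g < c ∧ U (x + g) ∧ ¬ P (x + g) ∧
      ∀ j, 0 < j → j < g → ¬ U (x + j) := by
  classical
  by_contra hcon
  push Not at hcon
  have hstep : ∀ x, U x → P x → ∀ g, 0 < g → g ≤ c → U (x + g) →
      (∀ j, 0 < j → j < g → ¬ U (x + j)) → P (x + g) := by
    intro x hx hPx g hg hgc hg' hfree
    rcases Nat.lt_or_ge g c with h | h
    · by_contra hPg
      obtain ⟨j, hj0, hj1, hj2⟩ := hcon x g hx hPx hg h hg' hPg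
      exact hfree j hj0 hj1 hj2
    · have : g = c := by omega
      rw [this, hP]; exact hPx
  have hall : ∀ j, U (k0 + j) → P (k0 + j) := by
    intro j
    induction j using Nat.strong_induction_on with
    | _ j ih =>
      intro hj
      rcases Nat.eq_zero_or_pos j with h0 | h0
      · rw [h0]; exact hPk0
      · -- previous element
        have hex : ∃ i, i < j ∧ U (k0 + (j - 1 - i)) := ⟨j - 1, by omega, by simpa using hk0⟩
        obtain ⟨i, ⟨hi1, hi2⟩, himin⟩ : ∃ i, (i < j ∧ U (k0 + (j - 1 - i))) ∧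
            ∀ i', i' < i → ¬ (i' < j ∧ U (k0 + (j - 1 - i'))) :=
          ⟨Nat.find hex, Nat.find_spec hex, fun k hk => Nat.find_min hex hk⟩
        have hprev := ih (j - 1 - i) (by omega) hi2
        obtain ⟨g, hg0, hgc, hgU, hgfree⟩ := next_exists hc hU ⟨k0, hk0⟩ (k0 + (j - 1 - i))
        have hg : g = i + 1 := by
          rcases Nat.lt_trichotomy g (i + 1) with h | h | h
          · exfalso
            refine himin (i - g) (by omega) ⟨by omega, ?_⟩
            have e : k0 + (j - 1 - (i - g)) = k0 + (j - 1 - i) + g := by omega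
            rw [e]; exact hgU
          · exact h
          · exfalso
            refine hgfree (i + 1) (by omega) h ?_
            have e : k0 + (j - 1 - i) + (i + 1) = k0 + j := by omega
            rw [e]; exact hj
        have := hstep _ hi2 hprev g hg0 hgc hgU hgfree
        have e : k0 + (j - 1 - i) + g = k0 + j := by omega
        rw [e] at this
        exact this
  have h1 : k0 ≤ k0 * c := Nat.le_mul_of_pos_right _ hc
  have h2 := hall (q + (k0 * c - k0)) (by
    have e : k0 + (q + (k0 * c - k0)) = q + k0 * c := by omega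
    rw [e, per_congr hU (b := q)]
    · exact hq
    · rw [Nat.ModEq, Nat.add_mul_mod_self_right])
  have e : k0 + (q + (k0 * c - k0)) = q + k0 * c := by omega
  rw [e, per_congr hP (b := q)] at h2
  · exact hPq h2
  · rw [Nat.ModEq, Nat.add_mul_mod_self_right]

/-- two separated nonconsecutive sets, sharp form -/
theorem count_two' {A B : ℕ → Prop} (hA : ∀ k, A (k + c) ↔ A k)
    (hB : ∀ k, B (k + c) ↔ B k) (hcA : ∀ k, A k → ¬ A (k + 1)) (hcB : ∀ k, B k → ¬ B (k + 1))
    {lam : ℕ} (hlam : 1 ≤ lam) (hlc : lam + 2 ≤ c)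
    (hAB : ∀ k j, 0 < j → j < c → A k → B (k + j) → lam + 2 ≤ j)
    (hBA : ∀ k j, 0 < j → j < c → B k → A (k + j) → lam + 2 ≤ j)
    (hA0 : 0 < snum c A) (hB0 : 0 < snum c B) :
    ((∀ k, ¬ (A k ∧ B k)) ∧ 2 * (snum c A + snum c B) + 2 * lam ≤ c) ∨
      ((∀ k, A k ↔ B k) ∧ (lam + 2) * snum c A ≤ c) ∨
      (2 * snum c (fun k => A k ∨ B k) + lam * (snum c (fun k => A k ∧ B k) + 1) ≤ c ∧
        snum c (fun k => A k ∧ B k) + 1 ≤ snum c (fun k => A k ∨ B k) ∧
        0 < snum c (fun k => A k ∧ B k)) := by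
  classical
  have hc : 0 < c := by omega
  have hUper : ∀ k, (A (k + c) ∨ B (k + c)) ↔ (A k ∨ B k) := by intro k; rw [hA, hB]
  have hKper : ∀ k, (A (k + c) ∧ B (k + c)) ↔ (A k ∧ B k) := by intro k; rw [hA, hB]
  have hUc : ∀ {a b : ℕ}, a ≡ b [MOD c] → ((A a ∨ B a) ↔ (A b ∨ B b)) := fun h =>
    per_congr (P := fun k => A k ∨ B k) hUper h
  have hKc : ∀ {a b : ℕ}, a ≡ b [MOD c] → ((A a ∧ B a) ↔ (A b ∧ B b)) := fun h =>
    per_congr (P := fun k => A k ∧ B k) hKper h
  have hUcons : ∀ k, (A k ∨ B k) → ¬ (A (k + 1) ∨ B (k + 1)) := by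
    rintro k (hk | hk) (hk' | hk')
    · exact hcA k hk hk'
    · have := hAB k 1 one_pos (by omega) hk hk'; omega
    · have := hBA k 1 one_pos (by omega) hk hk'; omega
    · exact hcB k hk hk'
  have hbigK : ∀ k, (A k ∧ B k) → ∀ j, 0 < j → j ≤ lam + 1 → ¬ (A (k + j) ∨ B (k + j)) := by
    rintro k ⟨hkA, hkB⟩ j hj0 hj (h | h)
    · have := hBA k j hj0 (by omega) hkB h; omega
    · have := hAB k j hj0 (by omega) hkA h; omega
  by_cases hK : ∃ k, A k ∧ B k
  · by_cases hAeq : ∀ k, A k ↔ B k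
    · right; left
      refine ⟨hAeq, ?_⟩
      have h2 := count_lemma (c := c) (U := A) (B := A) hc hA
        (fun k hk => hk) hcA (lam := lam) (fun k hk j hj0 hj h => by
          have := hAB k j hj0 (by omega) hk ((hAeq _).1 h); omega)
      have : (lam + 2) * snum c A = 2 * snum c A + lam * snum c A := by ring
      omega
    · right; right
      push Not at hAeq
      obtain ⟨z, hz⟩ := hAeq
      have hzU : A z ∨ B z := by tauto
      have hzP : ¬ (A z ∧ B z) := by tauto
      obtain ⟨q, hq⟩ := hK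
      obtain ⟨x, g, hxU, hxP, hg0, hgc, hgU, hgP, hfree⟩ := switch_exists (c := c)
        (U := fun k => A k ∨ B k) (P := fun k => ¬ (A k ∧ B k)) hc hUper
        (fun k => by rw [hA, hB]) (k0 := z) (q := q) hzU hzP (Or.inl hq.1) (fun h => h hq)
      have hgP' : A (x + g) ∧ B (x + g) := not_not.1 hgP
      have hgap : lam + 2 ≤ g := by
        rcases hxU with h | h
        · exact hAB x g hg0 hgc h hgP'.2
        · exact hBA x g hg0 hgc h hgP'.1
      have h2 := count_lemma (c := c) (U := fun k => A k ∨ B k)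
        (B := fun k => (A k ∧ B k) ∨ k ≡ x [MOD c]) hc hUper
        (fun k hk => by
          rcases hk with hk | hk
          · exact Or.inl hk.1
          · exact (hUc hk).2 hxU) hUcons (lam := lam)
        (fun k hk j hj0 hj => by
          rcases hk with hk | hk
          · exact hbigK k hk j hj0 hj
          · intro h
            exact hfree j hj0 (by omega) ((hUc (hk.add_right j)).1 h))
      have hdj : ∀ k, ¬ ((A k ∧ B k) ∧ k ≡ x [MOD c]) := by
        rintro k ⟨h3, h4⟩
        exact hxP ((hKc h4).1 h3)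
      rw [snum_or hdj] at h2
      have h8 : 0 < snum c (fun k => k ≡ x [MOD c]) :=
        snum_pos hc (fun k => by
          simp only [Nat.ModEq, Nat.add_mod_right]) ⟨x, rfl⟩
      have h9 : lam * (snum c (fun k => A k ∧ B k) + 1) ≤
          lam * (snum c (fun k => A k ∧ B k) + snum c (fun k => k ≡ x [MOD c])) :=
        Nat.mul_le_mul_left _ (by omega)
      refine ⟨by omega, ?_, snum_pos hc hKper ⟨q, hq⟩⟩
      have h10 : snum c (fun k => A k ∧ B k) + snum c (fun k => k ≡ x [MOD c]) ≤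
          snum c (fun k => A k ∨ B k) := by
        rw [← snum_or hdj]
        refine snum_mono fun k hk => ?_
        rcases hk with h | h
        · exact Or.inl h.1
        · exact (hUc h).2 hxU
      omega
  · left
    push Not at hK
    have hd : ∀ k, ¬ (A k ∧ B k) := fun k hk => hK k hk.1 hk.2
    refine ⟨hd, ?_⟩
    obtain ⟨a0, ha0⟩ := exists_of_snum_pos hA0
    obtain ⟨b0, hb0⟩ := exists_of_snum_pos hB0
    obtain ⟨x, g, hxU, hxP, hg0, hgc, hgU, hgP, hfree⟩ := switch_exists (c := c)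
      (U := fun k => A k ∨ B k) (P := A) hc hUper hA (k0 := a0) (q := b0) (Or.inl ha0) ha0
      (Or.inr hb0) (fun h => hd _ ⟨h, hb0⟩)
    obtain ⟨x', g', hxU', hxP', hg0', hgc', hgU', hgP', hfree'⟩ := switch_exists (c := c)
      (U := fun k => A k ∨ B k) (P := B) hc hUper hB (k0 := b0) (q := a0) (Or.inr hb0) hb0
      (Or.inl ha0) (fun h => hd _ ⟨ha0, h⟩)
    have hgap := hAB x g hg0 hgc hxP (hgU.resolve_left hgP)
    have hgap' := hBA x' g' hg0' hgc' hxP' (hgU'.resolve_right hgP')
    have h2 := count_lemma (c := c) (U := fun k => A k ∨ B k)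
      (B := fun k => k ≡ x [MOD c] ∨ k ≡ x' [MOD c]) hc hUper
      (fun k hk => by
        rcases hk with hk | hk
        · exact (hUc hk).2 hxU
        · exact (hUc hk).2 hxU') hUcons (lam := lam)
      (fun k hk j hj0 hj => by
        rcases hk with hk | hk
        · intro h
          exact hfree j hj0 (by omega) ((hUc (hk.add_right j)).1 h)
        · intro h
          exact hfree' j hj0 (by omega) ((hUc (hk.add_right j)).1 h))
    have hdj : ∀ k, ¬ (k ≡ x [MOD c] ∧ k ≡ x' [MOD c]) := by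
      rintro k ⟨h3, h4⟩
      have h5 : A k := (per_congr hA h3).2 hxP
      have h6 : B k := (per_congr hB h4).2 hxP'
      exact hd _ ⟨h5, h6⟩
    rw [snum_or hdj, snum_or hd] at h2
    have h8 : 0 < snum c (fun k => k ≡ x [MOD c]) :=
      snum_pos hc (fun k => by
        simp only [Nat.ModEq, Nat.add_mod_right]) ⟨x, rfl⟩
    have h8' : 0 < snum c (fun k => k ≡ x' [MOD c]) :=
      snum_pos hc (fun k => by
        simp only [Nat.ModEq, Nat.add_mod_right]) ⟨x', rfl⟩
    have h9 : lam * 2 ≤ lam * (snum c (fun k => k ≡ x [MOD c]) +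
      snum c (fun k => k ≡ x' [MOD c])) := Nat.mul_le_mul_left _ (by omega)
    omega

end percount

end Run7.h807
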