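import Mathlib
import Pool.Agent.Run7.h807.Count2

set_option autoImplicit false

namespace Run7.h807

open Classical in
/-- number of elements in a window -/
noncomputable def lcount (A : ℕ → Prop) (p m : ℕ) : ℕ := ((Finset.Ico p (p + m)).filter A).card

theorem lcount_zero (A : ℕ → Prop) (p : ℕ) : lcount A p 0 = 0 := by
  simp [lcount]

theorem lcount_succ_pos {A : ℕ → Prop} {p : ℕ} (h : A p) (m : ℕ) :
    lcount A p (m + 1) = 1 + lcount A (p + 1) m := by
  classical
  unfold lcount
  have : (Finset.Ico p (p + (m + 1))).filter A =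
      insert p ((Finset.Ico (p + 1) (p + 1 + m)).filter A) := by
    ext x
    simp only [Finset.mem_filter, Finset.mem_Ico, Finset.mem_insert]
    constructor
    · rintro ⟨⟨h1, h2⟩, h3⟩
      by_cases hx : x = p
      · exact Or.inl hx
      · exact Or.inr ⟨⟨by omega, by omega⟩, h3⟩
    · rintro (rfl | ⟨⟨h1, h2⟩, h3⟩)
      · exact ⟨⟨le_rfl, by omega⟩, h⟩
      · exact ⟨⟨by omega, by omega⟩, h3⟩
  rw [this, Finset.card_insert_of_notMem, Nat.add_comm]
  simp

theorem lcount_succ_neg {A : ℕ → Prop} {p : ℕ} (h : ¬ A p) (m : ℕ) :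
    lcount A p (m + 1) = lcount A (p + 1) m := by
  classical
  unfold lcount
  congr 1
  ext x
  simp only [Finset.mem_filter, Finset.mem_Ico]
  constructor
  · rintro ⟨⟨h1, h2⟩, h3⟩
    have hx : x ≠ p := fun he => h (he ▸ h3)
    exact ⟨⟨by omega, by omega⟩, h3⟩
  · rintro ⟨⟨h1, h2⟩, h3⟩
    exact ⟨⟨by omega, by omega⟩, h3⟩

theorem lcount_eq_snum (A : ℕ → Prop) (L : ℕ) : lcount A 0 L = snum L A := by
  unfold lcount snum
  rw [Nat.zero_add]

theorem lcount_period {A : ℕ → Prop} {L : ℕ} (hA : ∀ k, A (k + L) ↔ A k) (k : ℕ) :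
    lcount A k L = snum L A := by
  classical
  unfold lcount
  convert snum_window hA k using 2

theorem lcount_add (A : ℕ → Prop) (p m r : ℕ) :
    lcount A p (m + r) = lcount A p m + lcount A (p + m) r := by
  induction m generalizing p with
  | zero => simp [lcount_zero]
  | succ m ih =>
    have e : m + 1 + r = (m + r) + 1 := by ring
    have e2 : p + (m + 1) = p + 1 + m := by ring
    rw [e, e2]
    by_cases h : A p
    · rw [lcount_succ_pos h, lcount_succ_pos h, ih]; ring
    · rw [lcount_succ_neg h, lcount_succ_neg h, ih]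

theorem lcount_eq_zero {A : ℕ → Prop} : ∀ {m p : ℕ}, (∀ j, j < m → ¬ A (p + j)) →
    lcount A p m = 0
  | 0, p, _ => lcount_zero A p
  | m + 1, p, h => by
    rw [lcount_succ_neg (by simpa using h 0 (by omega))]
    exact lcount_eq_zero fun j hj => by
      rw [show p + 1 + j = p + (j + 1) by ring]; exact h (j + 1) (by omega)

theorem lcount_le (A : ℕ → Prop) (p m : ℕ) : lcount A p m ≤ m := by
  induction m generalizing p with
  | zero => rw [lcount_zero]
  | succ m ih =>
    by_cases h : A p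
    · rw [lcount_succ_pos h]; have := ih (p + 1); omega
    · rw [lcount_succ_neg h]; have := ih (p + 1); omega

theorem lcount_full {A : ℕ → Prop} : ∀ {m p : ℕ}, m ≤ lcount A p m → ∀ j, j < m → A (p + j)
  | 0, _, _, j, hj => by omega
  | m + 1, p, h, j, hj => by
    have hp : A p := by
      by_contra hp
      rw [lcount_succ_neg hp] at h
      have := lcount_le A (p + 1) m
      omega
    rw [lcount_succ_pos hp] at h
    rcases j with _ | j
    · simpa using hp
    · have := lcount_full (A := A) (m := m) (p := p + 1) (by omega) j (by omega)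
      rwa [show p + 1 + j = p + (j + 1) by ring] at this

theorem lcount_first {A : ℕ → Prop} : ∀ {m p : ℕ}, 0 < lcount A p m →
    ∃ k, p ≤ k ∧ k < p + m ∧ A k ∧ (∀ q, p ≤ q → q < k → ¬ A q) ∧
      lcount A p m = 1 + lcount A (k + 1) (p + m - (k + 1))
  | 0, p, h => by rw [lcount_zero] at h; omega
  | m + 1, p, h => by
    by_cases hp : A p
    · refine ⟨p, le_rfl, by omega, hp, fun q h1 h2 => by omega, ?_⟩
      rw [lcount_succ_pos hp, show p + (m + 1) - (p + 1) = m by omega]
    · rw [lcount_succ_neg hp] at h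
      obtain ⟨k, h1, h2, h3, h4, h5⟩ := lcount_first h
      refine ⟨k, by omega, by omega, h3, fun q hq1 hq2 => ?_, ?_⟩
      · by_cases hqp : q = p
        · rw [hqp]; exact hp
        · exact h4 q (by omega) hq2
      · rw [lcount_succ_neg hp, h5, show p + (m + 1) - (k + 1) = p + 1 + m - (k + 1) by omega]

theorem lcount_three {A : ℕ → Prop} {p m : ℕ} (h : 2 < lcount A p m) :
    ∃ k1 k2 k3, k1 < k2 ∧ k2 < k3 ∧ p ≤ k1 ∧ k3 < p + m ∧ A k1 ∧ A k2 ∧ A k3 ∧
      (∀ q, k1 < q → q < k2 → ¬ A q) ∧ (∀ q, k2 < q → q < k3 → ¬ A q) := by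
  obtain ⟨k1, a1, a2, a3, -, a5⟩ := lcount_first (A := A) (p := p) (m := m) (by omega)
  obtain ⟨k2, b1, b2, b3, b4, b5⟩ := lcount_first (A := A) (p := k1 + 1)
    (m := p + m - (k1 + 1)) (by omega)
  obtain ⟨k3, c1, c2, c3, c4, -⟩ := lcount_first (A := A) (p := k2 + 1)
    (m := k1 + 1 + (p + m - (k1 + 1)) - (k2 + 1)) (by omega)
  exact ⟨k1, k2, k3, by omega, by omega, a1, by omega, a3, b3, c3,
    fun q h1 h2 => b4 q (by omega) h2, fun q h1 h2 => c4 q (by omega) h2⟩

/-- linear count with gaps at least three -/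
theorem lin3 {A : ℕ → Prop} {E : ℕ} (h : ∀ k j, A k → A (k + j) → k + j < E → 0 < j → 3 ≤ j) :
    ∀ m p, p + m ≤ E → 3 * lcount A p m ≤ m + 2 := by
  intro m
  induction m using Nat.strong_induction_on with
  | _ m ih =>
    intro p hpE
    rcases m with _ | m
    · rw [lcount_zero]; omega
    · by_cases hp : A p
      · rw [lcount_succ_pos hp]
        rcases m with _ | m
        · rw [lcount_zero]
        · have h1 : ¬ A (p + 1) := fun h1 => by
            have := h p 1 hp h1 (by omega) one_pos; omega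
          rw [lcount_succ_neg h1]
          rcases m with _ | m
          · rw [lcount_zero]; omega
          · have h2 : ¬ A (p + 1 + 1) := fun h2 => by
              have := h p 2 hp h2 (by omega) two_pos; omega
            rw [lcount_succ_neg h2]
            have := ih m (by omega) (p + 1 + 1 + 1) (by omega)
            omega
      · rw [lcount_succ_neg hp]
        have := ih m (by omega) (p + 1) (by omega)
        omega

/-- linear count with gaps at least two -/
theorem lin2 {A : ℕ → Prop} {E : ℕ} (h : ∀ k, A k → k + 1 < E → ¬ A (k + 1)) :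
    ∀ m p, p + m ≤ E → 2 * lcount A p m ≤ m + 1 := by
  intro m
  induction m using Nat.strong_induction_on with
  | _ m ih =>
    intro p hpE
    rcases m with _ | m
    · rw [lcount_zero]; omega
    · by_cases hp : A p
      · rw [lcount_succ_pos hp]
        rcases m with _ | m
        · rw [lcount_zero]
        · have h1 : ¬ A (p + 1) := h p hp (by omega)
          rw [lcount_succ_neg h1]
          have := ih m (by omega) (p + 1 + 1) (by omega)
          omega
      · rw [lcount_succ_neg hp]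
        have := ih m (by omega) (p + 1) (by omega)
        omega

theorem lin_two {A B : ℕ → Prop} {L lam : ℕ} (hlam : 1 ≤ lam) (hL : 1 ≤ L)
    (hcA : ∀ k, k + 1 < L → A k → ¬ A (k + 1)) (hcB : ∀ k, k + 1 < L → B k → ¬ B (k + 1))
    (hAB : ∀ k j, 0 < j → k + j < L → A k → B (k + j) → lam + 2 ≤ j)
    (hBA : ∀ k j, 0 < j → k + j < L → B k → A (k + j) → lam + 2 ≤ j)
    (hA0 : 0 < snum L A) (hB0 : 0 < snum L B) :
    ((∀ k, k < L → ¬ (A k ∧ B k)) ∧ 2 * (snum L A + snum L B) + lam ≤ L + 1) ∨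
      ((∀ k, k < L → (A k ↔ B k)) ∧ (lam + 2) * snum L A ≤ L + lam + 1) ∨
      (2 * snum L (fun k => A k ∨ B k) + lam * snum L (fun k => A k ∧ B k) ≤ L + 1 ∧
        snum L (fun k => A k ∧ B k) + 1 ≤ snum L (fun k => A k ∨ B k) ∧
        0 < snum L (fun k => A k ∧ B k)) := by
  classical
  obtain ⟨c, hc⟩ : ∃ c, c = L + lam + 1 := ⟨_, rfl⟩
  have hc0 : 0 < c := by omega
  -- lifts
  have hlift : ∀ P : ℕ → Prop, ∀ k, ((k + c) % c < L ∧ P ((k + c) % c)) ↔ (k % c < L ∧ P (k % c)) := by
    intro P k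
    rw [Nat.add_mod_right]
  have hsn : ∀ P : ℕ → Prop, snum c (fun k => k % c < L ∧ P (k % c)) = snum L P := by
    intro P
    unfold snum
    congr 1
    ext k
    simp only [Finset.mem_filter, Finset.mem_Ico]
    constructor
    · rintro ⟨⟨h1, h2⟩, h3, h4⟩
      rw [Nat.mod_eq_of_lt h2] at h3 h4
      exact ⟨⟨h1, h3⟩, h4⟩
    · rintro ⟨⟨h1, h2⟩, h3⟩
      have h4 : k < c := by omega
      rw [Nat.mod_eq_of_lt h4]
      exact ⟨⟨h1, h4⟩, h2, h3⟩
  have hcross : ∀ P Q : ℕ → Prop, ∀ lb : ℕ, lb ≤ lam + 2 →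
      (∀ k j, 0 < j → k + j < L → P k → Q (k + j) → lb ≤ j) →
      ∀ k j, 0 < j → j < c → (k % c < L ∧ P (k % c)) → ((k + j) % c < L ∧ Q ((k + j) % c)) →
        lb ≤ j := by
    intro P Q lb hlb hPQ k j hj0 hjc h1 h2
    have hkc := Nat.mod_lt k hc0
    have hmod : (k + j) % c = (k % c + j) % c := by
      rw [Nat.add_mod, Nat.mod_eq_of_lt hjc]
    rw [hmod] at h2
    rcases Nat.lt_or_ge (k % c + j) c with h | h
    · rw [Nat.mod_eq_of_lt h] at h2
      exact hPQ _ j hj0 h2.1 h1.2 h2.2
    · omega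
  have hnc : ∀ P : ℕ → Prop, (∀ k, k + 1 < L → P k → ¬ P (k + 1)) →
      ∀ k, (k % c < L ∧ P (k % c)) → ¬ ((k + 1) % c < L ∧ P ((k + 1) % c)) := by
    intro P hP k h1 h2
    have := hcross P P 2 (by omega) (fun k j hj0 hkj h3 h4 => by
      by_contra hlt
      have : j = 1 := by omega
      subst this
      exact hP k hkj h3 h4) k 1 one_pos (by omega) h1 h2
    omega
  have := count_two' (c := c) (A := fun k => k % c < L ∧ A (k % c))
    (B := fun k => k % c < L ∧ B (k % c)) (hlift A) (hlift B) (hnc A hcA) (hnc B hcB)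
    (lam := lam) hlam (by omega) (hcross A B _ le_rfl hAB) (hcross B A _ le_rfl hBA)
    (by rw [hsn]; exact hA0) (by rw [hsn]; exact hB0)
  have hor : snum c (fun k => (k % c < L ∧ A (k % c)) ∨ (k % c < L ∧ B (k % c))) =
      snum L (fun k => A k ∨ B k) := by
    rw [← hsn (fun k => A k ∨ B k)]
    exact snum_congr fun k => by tauto
  have hand : snum c (fun k => (k % c < L ∧ A (k % c)) ∧ (k % c < L ∧ B (k % c))) =
      snum L (fun k => A k ∧ B k) := by
    rw [← hsn (fun k => A k ∧ B k)]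
    exact snum_congr fun k => by tauto
  rw [hor, hand, hsn, hsn] at this
  rcases this with ⟨h1, h2⟩ | ⟨h1, h2⟩ | ⟨h1, h2, h3⟩
  · left
    refine ⟨fun k hk hk' => h1 k ?_, by omega⟩
    rw [Nat.mod_eq_of_lt (by omega)]
    exact ⟨⟨hk, hk'.1⟩, hk, hk'.2⟩
  · right; left
    refine ⟨fun k hk => ?_, by omega⟩
    have := h1 k
    rw [Nat.mod_eq_of_lt (by omega)] at this
    tauto
  · right; right
    have e : lam * (snum L (fun k => A k ∧ B k) + 1) =
      lam * snum L (fun k => A k ∧ B k) + lam := by ring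
    exact ⟨by omega, h2, h3⟩

end Run7.h807
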