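import Mathlib
import Pool.Agent.Run7.h807.LinCount

set_option autoImplicit false

namespace Run7.h807

/-- two dense sets on a cycle whose close pairs have matching labels -/
theorem pair_MA {A B : ℕ → Prop} {a b : ℕ → ZMod 2} {r L : ℕ} {s : ZMod 2} (hL : 0 < L)
    (hpA : ∀ k, A (k + L) ↔ A k) (hpB : ∀ k, B (k + L) ↔ B k)
    (ha : ∀ k, a (k + L) = a k + s) (hb : ∀ k, b (k + L) = b k + s)
    (hwA : ∀ k, ∃ j, j < r ∧ A (k + j)) (hwB : ∀ k, ∃ j, j < r ∧ B (k + j))
    (hAB : ∀ k j, 0 < j → j ≤ r → A k → B (k + j) → a k = b (k + j))
    (hBA : ∀ k j, 0 < j → j ≤ r → B k → A (k + j) → b k = a (k + j)) :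
    ((∀ k k', A k → A k' → a k = a k') ∧ (∀ k k', B k → B k' → b k = b k') ∧
        (∀ k k', A k → B k' → a k = b k')) ∨
      ((∀ k, A k ↔ B k) ∧ (∀ k, A k → a k ≠ b k) ∧
        (∀ k j, 0 < j → A k → A (k + j) → (∀ i, 0 < i → i < j → ¬ A (k + i)) →
          a k ≠ a (k + j))) := by
  classical
  by_cases hcase : ∃ k0, A k0 ∧ B k0 ∧ a k0 ≠ b k0
  · right
    obtain ⟨k0, hk0A, hk0B, hk0⟩ := hcase
    have hfwd : ∀ j, (A (k0 + j) ↔ B (k0 + j)) ∧ (A (k0 + j) → a (k0 + j) ≠ b (k0 + j)) := by
      intro j
      induction j using Nat.strong_induction_on with
      | _ j ih =>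
        rcases Nat.eq_zero_or_pos j with h0 | h0
        · rw [h0, Nat.add_zero]
          exact ⟨⟨fun _ => hk0B, fun _ => hk0A⟩, fun _ => hk0⟩
        · have hex : ∃ i, i < j ∧ A (k0 + (j - 1 - i)) := ⟨j - 1, by omega, by simpa using hk0A⟩
          obtain ⟨i, ⟨hi1, hi2⟩, himin⟩ : ∃ i, (i < j ∧ A (k0 + (j - 1 - i))) ∧
              ∀ i', i' < i → ¬ (i' < j ∧ A (k0 + (j - 1 - i'))) :=
            ⟨Nat.find hex, Nat.find_spec hex, fun k hk => Nat.find_min hex hk⟩
          obtain ⟨q, hq⟩ : ∃ q, q = k0 + (j - 1 - i) := ⟨_, rfl⟩
          have hpq : k0 + j = q + (i + 1) := by omega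
          rw [← hq] at hi2
          have hqB : B q := by rw [hq]; exact (ih (j - 1 - i) (by omega)).1.1 (hq ▸ hi2)
          have hqne : a q ≠ b q := by
            have := (ih (j - 1 - i) (by omega)).2 (hq ▸ hi2)
            rw [hq]; exact this
          have hfreeA : ∀ e, 0 < e → e < i + 1 → ¬ A (q + e) := by
            intro e he0 he1 hA
            refine himin (i - e) (by omega) ⟨by omega, ?_⟩
            have : k0 + (j - 1 - (i - e)) = q + e := by omega
            rw [this]; exact hA
          have hfreeB : ∀ e, 0 < e → e < i + 1 → ¬ B (q + e) := by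
            intro e he0 he1 hB
            refine hfreeA e he0 he1 ?_
            have h5 := (ih (j - 1 - i + e) (by omega)).1.2
            have e5 : k0 + (j - 1 - i + e) = q + e := by omega
            rw [e5] at h5
            exact h5 hB
          rw [hpq]
          -- if `A p` then `B p`
          have hcA : A (q + (i + 1)) → B (q + (i + 1)) ∧ a (q + (i + 1)) = b q := by
            intro hAp
            obtain ⟨j', hj', hj''⟩ := hwA (q + 1)
            have hle : i + 1 ≤ r := by
              by_contra hlt
              exact hfreeA (1 + j') (by omega) (by omega)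
                (by rw [← Nat.add_assoc]; exact hj'')
            have h1 := hBA q (i + 1) (by omega) hle hqB hAp
            refine ⟨?_, h1.symm⟩
            by_contra hBp
            obtain ⟨e, he, he'⟩ := hwB (q + 1)
            have hgt : i + 1 < 1 + e := by
              by_contra hlt
              rcases Nat.lt_or_ge (1 + e) (i + 1) with h6 | h6
              · exact hfreeB (1 + e) (by omega) h6 (by rw [← Nat.add_assoc]; exact he')
              · have : 1 + e = i + 1 := by omega
                rw [← this, ← Nat.add_assoc] at hBp
                exact hBp he'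
            have h2 := hAB q (1 + e) (by omega) (by omega) hi2 (by rw [← Nat.add_assoc]; exact he')
            have h3 := hAB (q + (i + 1)) (1 + e - (i + 1)) (by omega) (by omega) hAp (by
              rw [show q + (i + 1) + (1 + e - (i + 1)) = q + 1 + e by omega]; exact he')
            rw [show q + (i + 1) + (1 + e - (i + 1)) = q + (1 + e) by omega] at h3
            exact hqne (by rw [h2, ← h3, ← h1])
          have hcB : B (q + (i + 1)) → A (q + (i + 1)) ∧ b (q + (i + 1)) = a q := by
            intro hBp
            obtain ⟨j', hj', hj''⟩ := hwB (q + 1)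
            have hle : i + 1 ≤ r := by
              by_contra hlt
              exact hfreeB (1 + j') (by omega) (by omega)
                (by rw [← Nat.add_assoc]; exact hj'')
            have h1 := hAB q (i + 1) (by omega) hle hi2 hBp
            refine ⟨?_, h1.symm⟩
            by_contra hAp
            obtain ⟨e, he, he'⟩ := hwA (q + 1)
            have hgt : i + 1 < 1 + e := by
              by_contra hlt
              rcases Nat.lt_or_ge (1 + e) (i + 1) with h6 | h6
              · exact hfreeA (1 + e) (by omega) h6 (by rw [← Nat.add_assoc]; exact he')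
              · have : 1 + e = i + 1 := by omega
                rw [← this, ← Nat.add_assoc] at hAp
                exact hAp he'
            have h2 := hBA q (1 + e) (by omega) (by omega) hqB (by rw [← Nat.add_assoc]; exact he')
            have h3 := hBA (q + (i + 1)) (1 + e - (i + 1)) (by omega) (by omega) hBp (by
              rw [show q + (i + 1) + (1 + e - (i + 1)) = q + 1 + e by omega]; exact he')
            rw [show q + (i + 1) + (1 + e - (i + 1)) = q + (1 + e) by omega] at h3
            exact hqne (by rw [h2, ← h3, ← h1])
          refine ⟨⟨fun h => (hcA h).1, fun h => (hcB h).1⟩, fun h => ?_⟩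
          rw [(hcA h).2, (hcB (hcA h).1).2]
          exact fun h' => hqne h'.symm
    have hmul : ∀ m k, (A (k + m * L) ↔ A k) ∧ (B (k + m * L) ↔ B k) ∧
        (a (k + m * L) ≠ b (k + m * L) ↔ a k ≠ b k) := by
      intro m k
      induction m with
      | zero => simp
      | succ m ih =>
        have e : k + (m + 1) * L = (k + m * L) + L := by ring
        rw [e, hpA, hpB, ha, hb]
        refine ⟨ih.1, ih.2.1, ?_⟩
        rw [← ih.2.2]
        simp
    have hall : ∀ k, (A k ↔ B k) ∧ (A k → a k ≠ b k) := by
      intro k
      have hge : k0 ≤ k + k0 * L := by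
        have : k0 ≤ k0 * L := Nat.le_mul_of_pos_right _ hL
        omega
      have h1 := hfwd (k + k0 * L - k0)
      rw [Nat.add_sub_of_le hge] at h1
      obtain ⟨m1, m2, m3⟩ := hmul k0 k
      rw [m1, m2, m3] at h1
      exact h1
    refine ⟨fun k => (hall k).1, fun k => (hall k).2, fun k j hj0 hk hkj hfree => ?_⟩
    have hle : j ≤ r := by
      obtain ⟨j', hj', hj''⟩ := hwA (k + 1)
      by_contra hlt
      exact hfree (1 + j') (by omega) (by omega) (by rw [← Nat.add_assoc]; exact hj'')
    have h1 := hAB k j hj0 hle hk ((hall _).1.1 hkj)
    rw [h1]
    exact fun h => (hall _).2 hkj h.symm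
  · left
    push Not at hcase
    have key : ∀ j k, (A k → A (k + j) → a k = a (k + j)) ∧ (A k → B (k + j) → a k = b (k + j)) ∧
        (B k → A (k + j) → b k = a (k + j)) ∧ (B k → B (k + j) → b k = b (k + j)) := by
      intro j
      induction j using Nat.strong_induction_on with
      | _ j ih =>
        intro k
        rcases Nat.eq_zero_or_pos j with h0 | h0
        · rw [h0, Nat.add_zero]
          exact ⟨fun _ _ => rfl, fun h1 h2 => hcase k h1 h2, fun h1 h2 => (hcase k h2 h1).symm,
            fun _ _ => rfl⟩
        · by_cases hkU : A k ∨ B k
          · have hex : ∃ i, i < j ∧ (A (k + (j - 1 - i)) ∨ B (k + (j - 1 - i))) :=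
              ⟨j - 1, by omega, by simpa using hkU⟩
            obtain ⟨i, ⟨hi1, hi2⟩, himin⟩ : ∃ i, (i < j ∧ (A (k + (j - 1 - i)) ∨
                B (k + (j - 1 - i)))) ∧
                ∀ i', i' < i → ¬ (i' < j ∧ (A (k + (j - 1 - i')) ∨ B (k + (j - 1 - i')))) :=
              ⟨Nat.find hex, Nat.find_spec hex, fun k hk => Nat.find_min hex hk⟩
            obtain ⟨q, hq⟩ : ∃ q, q = k + (j - 1 - i) := ⟨_, rfl⟩
            have hpq : k + j = q + (i + 1) := by omega
            have hfree : ∀ e, 0 < e → e < i + 1 → ¬ (A (q + e) ∨ B (q + e)) := by
              intro e he0 he1 hU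
              refine himin (i - e) (by omega) ⟨by omega, ?_⟩
              have : k + (j - 1 - (i - e)) = q + e := by omega
              rw [this]; exact hU
            have hih := ih (j - 1 - i) (by omega) k
            rw [← hq] at hi2 hih
            rw [hpq]
            have hle : i + 1 ≤ r := by
              obtain ⟨j', hj', hj''⟩ := hwA (q + 1)
              by_contra hlt
              exact hfree (1 + j') (by omega) (by omega)
                (Or.inl (by rw [← Nat.add_assoc]; exact hj''))
            have r1 : A q → B (q + (i + 1)) → a q = b (q + (i + 1)) := hAB q _ (by omega) hle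
            have r2 : B q → A (q + (i + 1)) → b q = a (q + (i + 1)) := hBA q _ (by omega) hle
            have r3 : A q → A (q + (i + 1)) → a q = a (q + (i + 1)) := by
              intro h1 h2
              by_cases h3 : B q
              · rw [hcase q h1 h3]; exact r2 h3 h2
              · by_cases h4 : B (q + (i + 1))
                · rw [hcase _ h2 h4]; exact r1 h1 h4
                · obtain ⟨e, he, he'⟩ := hwB q
                  have hgt : i + 1 < e := by
                    by_contra hlt
                    rcases Nat.eq_zero_or_pos e with h6 | h6
                    · rw [h6, Nat.add_zero] at he'; exact h3 he'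
                    · rcases Nat.lt_or_ge e (i + 1) with h7 | h7
                      · exact hfree e h6 h7 (Or.inr he')
                      · have : e = i + 1 := by omega
                        rw [this] at he'; exact h4 he'
                  have h8 := hAB q e (by omega) (by omega) h1 he'
                  have h9 := hAB (q + (i + 1)) (e - (i + 1)) (by omega) (by omega) h2 (by
                    rw [show q + (i + 1) + (e - (i + 1)) = q + e by omega]; exact he')
                  rw [show q + (i + 1) + (e - (i + 1)) = q + e by omega] at h9
                  rw [h8, h9]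
            have r4 : B q → B (q + (i + 1)) → b q = b (q + (i + 1)) := by
              intro h1 h2
              by_cases h3 : A q
              · rw [← hcase q h3 h1]; exact r1 h3 h2
              · by_cases h4 : A (q + (i + 1))
                · rw [← hcase _ h4 h2]; exact r2 h1 h4
                · obtain ⟨e, he, he'⟩ := hwA q
                  have hgt : i + 1 < e := by
                    by_contra hlt
                    rcases Nat.eq_zero_or_pos e with h6 | h6
                    · rw [h6, Nat.add_zero] at he'; exact h3 he'
                    · rcases Nat.lt_or_ge e (i + 1) with h7 | h7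
                      · exact hfree e h6 h7 (Or.inl he')
                      · have : e = i + 1 := by omega
                        rw [this] at he'; exact h4 he'
                  have h8 := hBA q e (by omega) (by omega) h1 he'
                  have h9 := hBA (q + (i + 1)) (e - (i + 1)) (by omega) (by omega) h2 (by
                    rw [show q + (i + 1) + (e - (i + 1)) = q + e by omega]; exact he')
                  rw [show q + (i + 1) + (e - (i + 1)) = q + e by omega] at h9
                  rw [h8, h9]
            obtain ⟨i1, i2, i3, i4⟩ := hih
            refine ⟨fun h1 h2 => ?_, fun h1 h2 => ?_, fun h1 h2 => ?_, fun h1 h2 => ?_⟩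
            · rcases hi2 with h | h
              · exact (i1 h1 h).trans (r3 h h2)
              · exact (i2 h1 h).trans (r2 h h2)
            · rcases hi2 with h | h
              · exact (i1 h1 h).trans (r1 h h2)
              · exact (i2 h1 h).trans (r4 h h2)
            · rcases hi2 with h | h
              · exact (i3 h1 h).trans (r3 h h2)
              · exact (i4 h1 h).trans (r2 h h2)
            · rcases hi2 with h | h
              · exact (i3 h1 h).trans (r1 h h2)
              · exact (i4 h1 h).trans (r4 h h2)
          · rw [not_or] at hkU
            exact ⟨fun h => absurd h hkU.1, fun h => absurd h hkU.1, fun h => absurd h hkU.2,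
              fun h => absurd h hkU.2⟩
    refine ⟨fun k k' h1 h2 => ?_, fun k k' h1 h2 => ?_, fun k k' h1 h2 => ?_⟩
    · rcases le_total k k' with h | h
      · have := (key (k' - k) k).1
        rw [Nat.add_sub_of_le h] at this
        exact this h1 h2
      · have := (key (k - k') k').1
        rw [Nat.add_sub_of_le h] at this
        exact (this h2 h1).symm
    · rcases le_total k k' with h | h
      · have := (key (k' - k) k).2.2.2
        rw [Nat.add_sub_of_le h] at this
        exact this h1 h2
      · have := (key (k - k') k').2.2.2
        rw [Nat.add_sub_of_le h] at this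
        exact (this h2 h1).symm
    · rcases le_total k k' with h | h
      · have := (key (k' - k) k).2.1
        rw [Nat.add_sub_of_le h] at this
        exact this h1 h2
      · have := (key (k - k') k').2.2.1
        rw [Nat.add_sub_of_le h] at this
        exact (this h2 h1).symm

/-- double counting over windows -/
theorem window_sum {A : ℕ → Prop} {L : ℕ} (hA : ∀ k, A (k + L) ↔ A k) (W : ℕ) :
    ∑ k ∈ Finset.range L, lcount A k W = W * snum L A := by
  classical
  induction W with
  | zero => simp [lcount_zero]
  | succ W ih =>
    have h1 : ∀ k, lcount A k (W + 1) = lcount A k W + (if A (k + W) then 1 else 0) := by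
      intro k
      rw [lcount_add]
      congr 1
      by_cases h : A (k + W)
      · rw [if_pos h, show (1 : ℕ) = 0 + 1 from rfl, lcount_succ_pos h, lcount_zero]
      · rw [if_neg h, show (1 : ℕ) = 0 + 1 from rfl, lcount_succ_neg h, lcount_zero]
    simp only [h1]
    rw [Finset.sum_add_distrib, ih, ← Finset.card_filter]
    have h2 := snum_shift (c := L) (Sp := A) hA W
    have h3 : ((Finset.range L).filter (fun k => A (k + W))).card = snum L (fun k => A (k + W)) := by
      unfold snum
      congr 1
      ext x
      simp
    rw [h3, h2]
    ring

theorem window_bound {A : ℕ → Prop} {L : ℕ} (hA : ∀ k, A (k + L) ↔ A k) {W m : ℕ}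
    (h : ∀ k, lcount A k W ≤ m) : W * snum L A ≤ m * L := by
  rw [← window_sum hA W]
  calc ∑ k ∈ Finset.range L, lcount A k W ≤ ∑ _k ∈ Finset.range L, m :=
        Finset.sum_le_sum fun k _ => h k
    _ = m * L := by rw [Finset.sum_const, Finset.card_range, smul_eq_mul, Nat.mul_comm]

end Run7.h807
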