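import Mathlib
import Pool.Agent.Run7.h807.Closed

set_option autoImplicit false

namespace Run7.h807

variable {V : Type*} {G : SimpleGraph V}

/-- a closed list of vertices of sign `s` -/
def Cyc (G : SimpleGraph V) (σ : Sym2 V → ZMod 2) (s : ZMod 2) (l : List V) : Prop :=
  l.Nodup ∧ l.IsChain G.Adj ∧ 3 ≤ l.length ∧ ∃ x y, l.head? = some x ∧ l.getLast? = some y ∧
    G.Adj y x ∧ ls σ l + σ s(y, x) = s

theorem ls_append (σ : Sym2 V → ZMod 2) : ∀ {l₁ l₂ : List V} {a b : V},
    l₁.getLast? = some a → l₂.head? = some b →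
      ls σ (l₁ ++ l₂) = ls σ l₁ + σ s(a, b) + ls σ l₂
  | [], _, _, _, h, _ => by simp at h
  | [x], [], _, _, _, h => by simp at h
  | [x], y :: l, a, b, h, h' => by
    simp only [List.getLast?_singleton, Option.some.injEq, List.head?_cons] at h h'
    subst h; subst h'
    simp
  | x :: y :: l, l₂, a, b, h, h' => by
    rw [List.getLast?_cons_cons] at h
    have := ls_append σ h h'
    simp only [List.cons_append, ls_cons_cons] at this ⊢
    rw [this]
    ring

/-- the sign of the spoke `u - X i` relative to the rim potential -/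
def cs (σ : Sym2 V → ZMod 2) (X : ℕ → V) (u : V) (i : ℕ) : ZMod 2 :=
  σ s(u, X i) + phi σ X 0 i

/-- a longest cycle of sign `s` -/
structure Top (G : SimpleGraph V) (σ : Sym2 V → ZMod 2) (s : ZMod 2) (L : ℕ) (X : ℕ → V) :
    Prop where
  rim : Rim G L X
  tot : phi σ X 0 L = s
  max : ∀ l, Cyc G σ s l → l.length ≤ L

theorem Top.phi_add {σ : Sym2 V → ZMod 2} {s : ZMod 2} {L : ℕ} {X : ℕ → V}
    (h : Top G σ s L X) (k : ℕ) : phi σ X 0 (k + L) = phi σ X 0 k + s := by
  rw [phi_per h.rim, h.tot, add_zero]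

theorem Top.cs_add {σ : Sym2 V → ZMod 2} {s : ZMod 2} {L : ℕ} {X : ℕ → V}
    (h : Top G σ s L X) (u : V) (k : ℕ) : cs σ X u (k + L) = cs σ X u k + s := by
  unfold cs
  rw [h.phi_add, h.rim.per, add_assoc]

/-- replacing one arc of the longest cycle -/
theorem Top.one {σ : Sym2 V → ZMod 2} {s : ZMod 2} {L : ℕ} {X : ℕ → V} (h : Top G σ s L X)
    {P : List V} {u w : V} (hn : P.Nodup)
    (hc : P.IsChain G.Adj) (hu : P.head? = some u) (hw : P.getLast? = some w)
    (hoff : ∀ z ∈ P, ∀ k, X k ≠ z) {i j : ℕ} (hj0 : 0 < j) (hjc : j < L) (hui : G.Adj u (X i))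
    (hwj : G.Adj w (X (i + j)))
    (hfl : ls σ P + cs σ X u i + cs σ X w (i + j) = 0) : P.length + 1 ≤ j := by
  have h0 := reroute h.rim hn hc hu hw hoff hj0 hjc hui hwj
  obtain ⟨r, hr⟩ : ∃ r, i + L = i + j + r := ⟨L - j, by omega⟩
  have hr' : L - j + 1 = r + 1 := by omega
  rw [hr'] at h0
  have hx : (P ++ seg X (i + j) (r + 1)).head? = some u := by
    rw [List.head?_append, hu]; rfl
  have hy : (P ++ seg X (i + j) (r + 1)).getLast? = some (X i) := by
    rw [List.getLast?_append, seg_last, ← hr, h.rim.per]; rfl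
  have h1 := h.max (P ++ seg X (i + j) (r + 1)) ⟨h0.1, h0.2.1, h0.2.2.1, u, X i, hx, hy,
    hui.symm, by
      rw [ls_append σ hw (seg_head X (i + j) r), ls_seg σ X 0, ← hr, h.phi_add]
      unfold cs at hfl
      rw [Sym2.eq_swap (a := X i) (b := u)]
      linear_combination hfl⟩
  rw [List.length_append, seg_length] at h1
  omega

/-- replacing two edge-disjoint arcs of the longest cycle -/
theorem Top.two {σ : Sym2 V → ZMod 2} {s : ZMod 2} {L : ℕ} {X : ℕ → V} (h : Top G σ s L X)
    {P Q : List V} {u w u' w' : V} (hn : P.Nodup)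
    (hc : P.IsChain G.Adj) (hu : P.head? = some u) (hw : P.getLast? = some w)
    (hoff : ∀ z ∈ P, ∀ k, X k ≠ z) (hn' : Q.Nodup)
    (hc' : Q.IsChain G.Adj) (hu' : Q.head? = some u') (hw' : Q.getLast? = some w')
    (hoff' : ∀ z ∈ Q, ∀ k, X k ≠ z) (hdisj : ∀ z ∈ P, z ∉ Q)
    {i j i' j' : ℕ} (hj0 : 0 < j) (hj0' : 0 < j') (hii : i + j ≤ i') (hii' : i' + j' ≤ i + L)
    (hui : G.Adj u (X i)) (hwj : G.Adj w (X (i + j)))
    (hui' : G.Adj u' (X i')) (hwj' : G.Adj w' (X (i' + j')))
    (hfl : ls σ P + cs σ X u i + cs σ X w (i + j) +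
      (ls σ Q + cs σ X u' i' + cs σ X w' (i' + j')) = 0) :
    P.length + Q.length + 2 ≤ j + j' := by
  obtain ⟨r, rfl⟩ : ∃ r, i' = i + j + r := ⟨i' - (i + j), by omega⟩
  obtain ⟨r', hr'⟩ : ∃ r', i + L = i + j + r + j' + r' := ⟨i + L - (i + j + r + j'), by omega⟩
  have hPne : P ≠ [] := by rintro rfl; simp at hu
  have hP1 : 1 ≤ P.length := List.length_pos_iff.2 hPne
  have hQne : Q ≠ [] := by rintro rfl; simp at hu'
  have hQ1 : 1 ≤ Q.length := List.length_pos_iff.2 hQne
  set S1 := seg X (i + j) (r + 1) with hS1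
  set S2 := seg X (i + j + r + j') (r' + 1) with hS2
  have hQS : (Q ++ S2).head? = some u' := by rw [List.head?_append, hu']; rfl
  have hSQS : (S1 ++ (Q ++ S2)).head? = some (X (i + j)) := by
    rw [List.head?_append, hS1, seg_head]; rfl
  have hS1l : S1.getLast? = some (X (i + j + r)) := seg_last _ _ _
  have hS2l : S2.getLast? = some (X i) := by rw [hS2, seg_last, ← hr', h.rim.per]
  have hlast : (P ++ (S1 ++ (Q ++ S2))).getLast? = some (X i) := by
    rw [List.getLast?_append, List.getLast?_append, List.getLast?_append, hS2l]; rfl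
  have h1 := h.max (P ++ (S1 ++ (Q ++ S2))) ⟨?_, ?_, ?_, u, X i, ?_, hlast, hui.symm, ?_⟩
  · simp only [List.length_append, hS1, hS2, seg_length] at h1
    omega
  · -- nodup
    rw [List.nodup_append, List.nodup_append, List.nodup_append]
    refine ⟨hn, ⟨h.rim.seg_nodup _ _ (by omega), ⟨hn', h.rim.seg_nodup _ _ (by omega), ?_⟩, ?_⟩,
      ?_⟩
    · intro x hx y hy hxy
      obtain ⟨k, _, hk⟩ := mem_seg.1 hy
      exact hoff' x hx _ (hk.trans hxy.symm)
    · intro x hx y hy hxy
      obtain ⟨k, hk1, hk⟩ := mem_seg.1 hx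
      rcases List.mem_append.1 hy with hy | hy
      · exact hoff' y hy _ (hk.trans hxy)
      · obtain ⟨k', hk1', hk'⟩ := mem_seg.1 hy
        exact h.rim.ne (a := i + j + k) (b := i + j + r + j' + k') (by omega) (by omega)
          (by rw [hk, hk']; exact hxy)
    · intro x hx y hy hxy
      rcases List.mem_append.1 hy with hy | hy
      · obtain ⟨k, _, hk⟩ := mem_seg.1 hy
        exact hoff x hx _ (hk.trans hxy.symm)
      · rcases List.mem_append.1 hy with hy | hy
        · exact hdisj x hx (hxy ▸ hy)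
        · obtain ⟨k, _, hk⟩ := mem_seg.1 hy
          exact hoff x hx _ (hk.trans hxy.symm)
  · -- chain
    rw [List.isChain_append, List.isChain_append, List.isChain_append]
    refine ⟨hc, ⟨seg_chain h.rim.adj _ _, ⟨hc', seg_chain h.rim.adj _ _, ?_⟩, ?_⟩, ?_⟩
    · intro x hx y hy
      rw [hw', Option.mem_def, Option.some.injEq] at hx
      rw [hS2, seg_head, Option.mem_def, Option.some.injEq] at hy
      subst hx; subst hy
      exact hwj'
    · intro x hx y hy
      rw [hS1l, Option.mem_def, Option.some.injEq] at hx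
      rw [hQS, Option.mem_def, Option.some.injEq] at hy
      subst hx; subst hy
      exact hui'.symm
    · intro x hx y hy
      rw [hw, Option.mem_def, Option.some.injEq] at hx
      rw [hSQS, Option.mem_def, Option.some.injEq] at hy
      subst hx; subst hy
      exact hwj
  · simp only [List.length_append, hS1, hS2, seg_length]
    omega
  · rw [List.head?_append, hu]; rfl
  · rw [ls_append σ hw hSQS, ls_append σ hS1l hQS, ls_append σ hw' (seg_head X _ r'), hS1,
      ls_seg σ X 0, ls_seg σ X 0, ← hr', h.phi_add]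
    unfold cs at hfl
    rw [Sym2.eq_swap (a := X i) (b := u), Sym2.eq_swap (a := X (i + j + r)) (b := u')]
    linear_combination hfl

/-- a unit arc of an outer vertex is a flip -/
theorem Top.unit {σ : Sym2 V → ZMod 2} {s : ZMod 2} {L : ℕ} {X : ℕ → V} (h : Top G σ s L X)
    {v : V} (hv : ∀ k, X k ≠ v) {i : ℕ} (h1 : G.Adj v (X i)) (h2 : G.Adj v (X (i + 1))) :
    cs σ X v i + cs σ X v (i + 1) = 1 := by
  rcases zmod2_cases (cs σ X v i + cs σ X v (i + 1)) with h3 | h3
  · have := h.one (P := [v]) (u := v) (w := v) (by simp) (by simp) rfl rfl (by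
      intro z hz; rw [List.mem_singleton] at hz; rw [hz]; exact hv) (i := i) (j := 1) one_pos
      (by have := h.rim.three; omega) h1 h2 (by rw [ls_single]; linear_combination h3)
    simp at this
  · exact h3

theorem fl_one {a : ZMod 2} (h : a ≠ 0) : a = 1 := (zmod2_cases a).resolve_left h

end Run7.h807
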