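import Mathlib
import Pool.Agent.Run7.h807.Bad
import Pool.Agent.Run7.h807.LinCount

set_option autoImplicit false

namespace Run7.h807

variable {V : Type*} {G : SimpleGraph V}

/-- a longest cycle of sign `s` together with an outer vertex `v0` seeing the two ends of the
edge `X (L-1), X 0` -/
structure UTop (G : SimpleGraph V) (σ : Sym2 V → ZMod 2) (s : ZMod 2) (L : ℕ) (X : ℕ → V)
    (v0 : V) : Prop extends Top G σ s L X where
  off : ∀ k, X k ≠ v0
  a0 : G.Adj v0 (X 0)
  a1 : G.Adj v0 (X (L - 1))

section lin

variable {σ : Sym2 V → ZMod 2} {s : ZMod 2} {L : ℕ} {X : ℕ → V} {v0 : V}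

theorem UTop.lin (h : UTop G σ s L X v0) {P : List V} {u w : V} (hn : P.Nodup)
    (hc : P.IsChain G.Adj) (hu : P.head? = some u) (hw : P.getLast? = some w)
    (hoff : ∀ z ∈ P, ∀ k, X k ≠ z) (hv0 : v0 ∉ P) {i j : ℕ} (hj0 : 0 < j) (hjc : i + j < L)
    (hui : G.Adj u (X i)) (hwj : G.Adj w (X (i + j))) :
    P.length + 1 ≤ j ∧ (ls σ P + cs σ X u i + cs σ X w (i + j) ≠ 0 → P.length + 2 ≤ j) := by
  have h3 := h.rim.three
  have hflip : ls σ P + cs σ X u i + cs σ X w (i + j) ≠ 0 → P.length + 2 ≤ j := by
    intro hne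
    have h1 := fl_one hne
    have h2 : cs σ X v0 (L - 1) + cs σ X v0 (L - 1 + 1) = 1 :=
      h.toTop.unit h.off h.a1 (by
        rw [Nat.sub_add_cancel (by omega)]
        have := h.rim.per 0
        rw [Nat.zero_add] at this
        rw [this]
        exact h.a0)
    have := h.toTop.two (P := P) (Q := [v0]) (u' := v0) (w' := v0) hn hc hu hw hoff (by simp)
      (by simp) rfl rfl (by
        intro z hz; rw [List.mem_singleton] at hz; rw [hz]; exact h.off) (by
        intro z hz hz'
        rw [List.mem_singleton] at hz'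
        exact hv0 (hz' ▸ hz)) (i := i) (j := j) (i' := L - 1) (j' := 1) hj0 one_pos (by omega)
        (by omega) hui hwj h.a1 (by
          rw [Nat.sub_add_cancel (by omega)]
          have := h.rim.per 0
          rw [Nat.zero_add] at this
          rw [this]
          exact h.a0) (by
          have hone : (1 : ZMod 2) + 1 = 0 := by decide
          rw [ls_single]
          linear_combination h1 + h2 + hone)
    simp only [List.length_cons, List.length_nil] at this
    omega
  refine ⟨?_, hflip⟩
  by_cases h0 : ls σ P + cs σ X u i + cs σ X w (i + j) = 0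
  · exact h.toTop.one hn hc hu hw hoff hj0 (by omega) hui hwj h0
  · have := hflip h0
    omega

/-- a gap of length two is not a flip -/
theorem UTop.gap2 (h : UTop G σ s L X v0) {u : V} (hu : ∀ k, X k ≠ u) (huv : u ≠ v0) {i : ℕ}
    (hi : i + 2 < L) (h1 : G.Adj u (X i)) (h2 : G.Adj u (X (i + 2))) :
    cs σ X u i + cs σ X u (i + 2) = 0 := by
  by_contra hne
  have := (h.lin (P := [u]) (u := u) (w := u) (by simp) (by simp) rfl rfl (by
    intro z hz; rw [List.mem_singleton] at hz; rw [hz]; exact hu) (by simpa using huv.symm)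
    (i := i) (j := 2) two_pos hi h1 h2).2 (by rw [ls_single, zero_add]; exact hne)
  simp at this

theorem UTop.noncons (h : UTop G σ s L X v0) {u : V} (hu : ∀ k, X k ≠ u) (huv : u ≠ v0) {i : ℕ}
    (hi : i + 1 < L) (h1 : G.Adj u (X i)) : ¬ G.Adj u (X (i + 1)) := by
  intro h2
  have := (h.lin (P := [u]) (u := u) (w := u) (by simp) (by simp) rfl rfl (by
    intro z hz; rw [List.mem_singleton] at hz; rw [hz]; exact hu) (by simpa using huv.symm)
    (i := i) (j := 1) one_pos hi h1 h2).1
  simp at this

end lin

theorem chain_rev {P : List V} (h : P.IsChain G.Adj) : P.reverse.IsChain G.Adj := by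
  rw [List.isChain_reverse]
  exact h.imp fun a b hab => hab.symm

section main

variable [Fintype V] [DecidableEq V] [DecidableRel G.Adj]
variable {σ : Sym2 V → ZMod 2} {s : ZMod 2} {L : ℕ} {X : ℕ → V} {v0 : V}

/-- the outer vertices other than `v0` are independent -/
theorem UTop.indep (h : UTop G σ s L X v0) {d k : ℕ} (hn : Fintype.card V = 2 * d + k)
    (hdeg : ∀ v, d ≤ G.degree v) (hL1 : d + 2 * k + 2 ≤ L)
    {u0 z0 : V} (hu0 : ∀ i, X i ≠ u0) (hu0v : u0 ≠ v0) (hz0 : ∀ i, X i ≠ z0) (hz0v : z0 ≠ v0) :
    ¬ G.Adj u0 z0 := by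
  classical
  intro huz
  have hL3 := h.rim.three
  obtain ⟨P, hPn, hPc, hPR, hPne, hPmax⟩ :=
    exists_max_path (G := G) (R := fun z => (∀ i, X i ≠ z) ∧ z ≠ v0) (v := u0) ⟨hu0, hu0v⟩
  obtain ⟨u, q, rfl⟩ : ∃ u q, P = u :: q := by
    cases P with
    | nil => exact absurd rfl hPne
    | cons u q => exact ⟨u, q, rfl⟩
  have hq1 : 1 ≤ q.length := by
    have := hPmax [u0, z0] (by simp [huz.ne]) (by simpa using huz) (by
      intro y hy
      simp only [List.mem_cons, List.not_mem_nil, or_false] at hy
      rcases hy with rfl | rfl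
      · exact ⟨hu0, hu0v⟩
      · exact ⟨hz0, hz0v⟩)
    simp only [List.length_cons, List.length_nil] at this
    omega
  obtain ⟨w, hw⟩ : ∃ w, (u :: q).getLast? = some w := ⟨_, List.getLast?_eq_some_getLast hPne⟩
  have hPu : ∀ z, G.Adj u z → (∀ i, X i ≠ z) → z ≠ v0 → z ∈ q := by
    intro z hz hz' hzv
    by_contra hzq
    have hzu : z ≠ u := hz.ne'
    have := hPmax (z :: u :: q) (by
      rw [List.nodup_cons]
      exact ⟨by simp [hzu, hzq], hPn⟩) (by
      rw [List.isChain_cons_cons]; exact ⟨hz.symm, hPc⟩) (by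
      intro y hy
      rcases List.mem_cons.1 hy with rfl | hy
      · exact ⟨hz', hzv⟩
      · exact hPR y hy)
    simp only [List.length_cons] at this
    omega
  have hPw : ∀ z, G.Adj w z → (∀ i, X i ≠ z) → z ≠ v0 → z ∈ u :: q := by
    intro z hz hz' hzv
    by_contra hzq
    have := hPmax ((u :: q) ++ [z]) (by
      rw [List.nodup_append]
      exact ⟨hPn, by simp, fun a ha b hb hab => by
        rw [List.mem_singleton] at hb; exact hzq (hb ▸ hab ▸ ha)⟩) (by
      rw [List.isChain_append]
      refine ⟨hPc, by simp, fun a ha b hb => ?_⟩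
      rw [hw, Option.mem_def, Option.some.injEq] at ha
      rw [List.head?_cons, Option.mem_def, Option.some.injEq] at hb
      subst ha; subst hb; exact hz) (by
      intro y hy
      rcases List.mem_append.1 hy with hy | hy
      · exact hPR y hy
      · rw [List.mem_singleton] at hy; rw [hy]; exact ⟨hz', hzv⟩)
    simp only [List.length_append, List.length_cons, List.length_nil] at this
    omega
  obtain ⟨q', hq'⟩ : ∃ q', u :: q = q' ++ [w] := List.getLast?_eq_some_iff.1 hw
  have hlenq' : q'.length = q.length := by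
    have := congrArg List.length hq'
    simp only [List.length_cons, List.length_append, List.length_nil] at this
    omega
  have hv0P : v0 ∉ u :: q := fun hv => (hPR v0 hv).2 rfl
  have hoff : ∀ z ∈ u :: q, ∀ i, X i ≠ z := fun z hz => (hPR z hz).1
  have hcard := (card_off h.rim (v0 :: u :: q) (by
    rw [List.nodup_cons]; exact ⟨hv0P, hPn⟩) (by
    intro z hz
    rcases List.mem_cons.1 hz with rfl | hz
    · exact h.off
    · exact hoff z hz)).1
  rw [hn] at hcard
  simp only [List.length_cons] at hcard
  have hdu := degree_le h.rim u (insert v0 q.toFinset) (fun z hz hz' => by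
    rw [Finset.mem_insert, List.mem_toFinset]
    by_cases hzv : z = v0
    · exact Or.inl hzv
    · exact Or.inr (hPu z hz hz' hzv))
  have hdw := degree_le h.rim w (insert v0 q'.toFinset) (fun z hz hz' => by
    rw [Finset.mem_insert, List.mem_toFinset]
    by_cases hzv : z = v0
    · exact Or.inl hzv
    · have h5 := hPw z hz hz' hzv
      rw [hq', List.mem_append, List.mem_singleton] at h5
      exact Or.inr (h5.resolve_right hz.ne'))
  have hfu : ((insert v0 q.toFinset).filter (fun z => G.Adj u z)).card ≤
      (if G.Adj u v0 then 1 else 0) + q.length := by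
    rw [Finset.filter_insert]
    have h1 : (q.toFinset.filter (fun z => G.Adj u z)).card ≤ q.length :=
      (Finset.card_filter_le _ _).trans (List.toFinset_card_le q)
    split_ifs with h2
    · exact (Finset.card_insert_le _ _).trans (by omega)
    · omega
  have hfw : ((insert v0 q'.toFinset).filter (fun z => G.Adj w z)).card ≤
      (if G.Adj w v0 then 1 else 0) + q.length := by
    rw [Finset.filter_insert, ← hlenq']
    have h1 : (q'.toFinset.filter (fun z => G.Adj w z)).card ≤ q'.length :=
      (Finset.card_filter_le _ _).trans (List.toFinset_card_le q')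
    split_ifs with h2
    · exact (Finset.card_insert_le _ _).trans (by omega)
    · omega
  have hdeu := hdeg u
  have hdew := hdeg w
  have hAu : d ≤ snum L (fun i => G.Adj u (X i)) + q.length + 1 := by
    split_ifs at hfu <;> omega
  have hBw : d ≤ snum L (fun i => G.Adj w (X i)) + q.length + 1 := by
    split_ifs at hfw <;> omega
  have huoff : (∀ i, X i ≠ u) ∧ u ≠ v0 := hPR u (by simp)
  have hwP : w ∈ u :: q := List.mem_of_getLast? hw
  have hwoff : (∀ i, X i ≠ w) ∧ w ≠ v0 := hPR w hwP
  have hAB : ∀ i j, 0 < j → i + j < L → G.Adj u (X i) → G.Adj w (X (i + j)) →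
      q.length + 2 ≤ j := by
    intro i j hj0 hj ha hb
    have := (h.lin hPn hPc rfl hw hoff hv0P hj0 hj ha hb).1
    simp only [List.length_cons] at this
    omega
  have hBA : ∀ i j, 0 < j → i + j < L → G.Adj w (X i) → G.Adj u (X (i + j)) →
      q.length + 2 ≤ j := by
    intro i j hj0 hj ha hb
    have := (h.lin (P := (u :: q).reverse) (u := w) (w := u) (List.nodup_reverse.2 hPn)
      (chain_rev hPc) (by rw [List.head?_reverse, hw]) (by rw [List.getLast?_reverse]; rfl)
      (by intro z hz; exact hoff z (List.mem_reverse.1 hz)) (by rwa [List.mem_reverse])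
      hj0 hj ha hb).1
    rw [List.length_reverse, List.length_cons] at this
    omega
  have hmain := lin_two (A := fun i => G.Adj u (X i)) (B := fun i => G.Adj w (X i)) (L := L)
    (lam := q.length) hq1 (by omega)
    (fun i hi h1 => h.noncons huoff.1 huoff.2 hi h1)
    (fun i hi h1 => h.noncons hwoff.1 hwoff.2 hi h1) hAB hBA (by omega) (by omega)
  have hU := snum_or_and (c := L) (A := fun i => G.Adj u (X i)) (B := fun i => G.Adj w (X i))
  rcases hmain with ⟨-, h2⟩ | ⟨h1, h2⟩ | ⟨h1, h2, h3⟩
  · omega
  · -- equal sets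
    obtain ⟨lam, hlam⟩ : ∃ lam, q.length = lam := ⟨_, rfl⟩
    rw [hlam] at h2 hAu hBw hq1 hcard hfu hfw
    set a := snum L (fun i => G.Adj u (X i)) with ha
    have hy : k + 3 ≤ a := by omega
    have hlam1 : lam = 1 := by
      by_contra hne
      obtain ⟨e, rfl⟩ : ∃ e, lam = e + 2 := ⟨lam - 2, by omega⟩
      have e1 : (e + 2 + 2) * a = e * a + 4 * a := by ring
      have e2 : e * (k + 3) ≤ e * a := Nat.mul_le_mul_left _ hy
      have e3 : e * (k + 3) = e * k + 3 * e := by ring
      omega
    subst hlam1
    have hLeq : L = 3 * k + 7 ∧ a = k + 3 ∧ d = k + 5 := by omega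
    obtain ⟨hLk, hak, hdk⟩ := hLeq
    have huv : G.Adj u v0 := by
      by_contra hno
      rw [if_neg hno] at hfu
      omega
    have hbk : snum L (fun i => G.Adj w (X i)) = a := by
      rw [ha]
      unfold snum
      congr 1
      ext i
      simp only [Finset.mem_filter, Finset.mem_Ico]
      constructor
      · rintro ⟨h5, h6⟩; exact ⟨h5, (h1 i h5.2).2 h6⟩
      · rintro ⟨h5, h6⟩; exact ⟨h5, (h1 i h5.2).1 h6⟩
    have hwv : G.Adj w v0 := by
      by_contra hno
      rw [if_neg hno] at hfw
      omega
    have hgap3 : ∀ i j, G.Adj u (X i) → G.Adj u (X (i + j)) → i + j < L → 0 < j → 3 ≤ j := by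
      intro i j h5 h6 h7 h8
      have := hAB i j h8 h7 h5 ((h1 _ h7).1 h6)
      omega
    have hl3 := lin3 (A := fun i => G.Adj u (X i)) (E := L) hgap3
    have htot := lcount_eq_snum (fun i => G.Adj u (X i)) L
    rw [← ha, hak] at htot
    have hA0 : G.Adj u (X 0) := by
      by_contra hno
      have h5 : L = (L - 1) + 1 := by omega
      rw [h5, lcount_succ_neg hno] at htot
      have := hl3 (L - 1) (0 + 1) (by omega)
      omega
    have hA1 : G.Adj u (X (L - 1)) := by
      by_contra hno
      have h5 : L = (L - 1) + 1 := by omega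
      rw [h5, lcount_add, Nat.zero_add] at htot
      have h6 : lcount (fun i => G.Adj u (X i)) (L - 1) 1 = 0 := by
        rw [show (1 : ℕ) = 0 + 1 from rfl, lcount_succ_neg hno, lcount_zero]
      have h7 := hl3 (L - 1) 0 (by omega)
      rw [h6] at htot
      omega
    have hA3 : G.Adj u (X 3) := by
      by_contra hno
      have n1 : ¬ G.Adj u (X (0 + 1)) := fun h5 => by
        have := hgap3 0 1 hA0 h5 (by omega) one_pos; omega
      have n2 : ¬ G.Adj u (X (0 + 1 + 1)) := fun h5 => by
        have := hgap3 0 2 hA0 h5 (by omega) two_pos; omega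
      have n3 : ¬ G.Adj u (X (0 + 1 + 1 + 1)) := hno
      have h5 : L = (L - 4) + 1 + 1 + 1 + 1 := by omega
      rw [h5, lcount_succ_pos hA0, lcount_succ_neg n1, lcount_succ_neg n2, lcount_succ_neg n3]
        at htot
      have := hl3 (L - 4) (0 + 1 + 1 + 1 + 1) (by omega)
      omega
    have hB0 : G.Adj w (X 0) := (h1 0 (by omega)).1 hA0
    have hB1 : G.Adj w (X (L - 1)) := (h1 _ (by omega)).1 hA1
    have hB3 : G.Adj w (X 3) := (h1 3 (by omega)).1 hA3
    obtain ⟨w', hw'⟩ := List.length_eq_one_iff.1 hlam
    subst hw'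
    have hww : w' = w := by simpa using hw
    subst hww
    have huw : G.Adj u w' := by simpa using hPc
    have hne1 : u ≠ v0 := huoff.2
    have hne2 : w' ≠ v0 := hwoff.2
    -- sign chase
    have hLm : L - 1 + 1 = L := by omega
    have hX0 : X (L - 1 + 1) = X 0 := by
      rw [hLm]
      have := h.rim.per 0
      rwa [Nat.zero_add] at this
    have hcsL : ∀ z, cs σ X z (L - 1 + 1) = cs σ X z 0 + s := by
      intro z
      rw [hLm]
      have := h.toTop.cs_add z 0
      rwa [Nat.zero_add] at this
    have r1 : σ s(u, w') + cs σ X u 0 + cs σ X w' 3 = 0 := by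
      by_contra hne
      have := (h.lin (P := [u, w']) (u := u) (w := w') hPn hPc rfl rfl hoff hv0P (i := 0) (j := 3)
        (by omega) (by omega) hA0 hB3).2 (by simpa using hne)
      simp at this
    have r2 : σ s(u, w') + cs σ X w' 0 + cs σ X u 3 = 0 := by
      by_contra hne
      have := (h.lin (P := [w', u]) (u := w') (w := u) (by simp [huw.ne']) (by simpa using huw.symm)
        rfl rfl (by intro z hz; exact hoff z (by simp at hz ⊢; tauto))
        (by simp [hne1.symm, hne2.symm]) (i := 0) (j := 3)
        (by omega) (by omega) hB0 hA3).2 (by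
          rw [ls_cons_cons, ls_single, add_zero, Sym2.eq_swap]; exact hne)
      simp at this
    have off3 : ∀ z, (z = u ∨ z = w' ∨ z = v0) → ∀ i, X i ≠ z := by
      rintro z (rfl | rfl | rfl)
      · exact huoff.1
      · exact hwoff.1
      · exact h.off
    have r3 : σ s(v0, u) + σ s(u, w') + cs σ X v0 0 + cs σ X w' 3 = 1 := by
      apply fl_one
      intro hne
      have := h.toTop.one (P := [v0, u, w']) (u := v0) (w := w')
        (by simp [huw.ne, hne1.symm, hne2.symm]) (by simp [huv.symm, huw]) rfl rfl (by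
          intro z hz; exact off3 z (by simp at hz; tauto)) (i := 0) (j := 3) (by omega)
        (by omega) h.a0 hB3 (by simpa using hne)
      simp at this
    have r4 : σ s(v0, w') + σ s(u, w') + cs σ X v0 0 + cs σ X u 3 = 1 := by
      apply fl_one
      intro hne
      have := h.toTop.one (P := [v0, w', u]) (u := v0) (w := u)
        (by simp [huw.ne', hne1.symm, hne2.symm]) (by simp [hwv.symm, huw.symm]) rfl rfl (by
          intro z hz; exact off3 z (by simp at hz; tauto)) (i := 0) (j := 3) (by omega)
        (by omega) h.a0 hA3 (by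
          simp only [ls_cons_cons, ls_single, add_zero]
          rw [Sym2.eq_swap (a := w') (b := u)]; exact hne)
      simp at this
    have r5 : σ s(v0, u) + σ s(v0, w') + cs σ X u 0 + cs σ X w' 3 = 1 := by
      apply fl_one
      intro hne
      have := h.toTop.one (P := [u, v0, w']) (u := u) (w := w')
        (by simp [huw.ne, hne1, hne2.symm]) (by simp [huv, hwv.symm]) rfl rfl (by
          intro z hz; exact off3 z (by simp at hz; tauto)) (i := 0) (j := 3) (by omega)
        (by omega) hA0 hB3 (by
          simp only [ls_cons_cons, ls_single, add_zero]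
          rw [Sym2.eq_swap (a := u) (b := v0)]; exact hne)
      simp at this
    have r6 := h.toTop.unit huoff.1 (i := L - 1) hA1 (by rw [hX0]; exact hA0)
    rw [hcsL] at r6
    have r7 : σ s(u, w') + cs σ X u (L - 1) + cs σ X w' (L - 1 + 1) = 1 := by
      apply fl_one
      intro hne
      have := h.toTop.one (P := [u, w']) (u := u) (w := w') hPn hPc rfl rfl hoff (i := L - 1)
        (j := 1) (by omega) (by omega) hA1 (by rw [hX0]; exact hB0) (by simpa using hne)
      simp at this
    rw [hcsL] at r7
    have h2 : (2 : ZMod 2) = 0 := by decide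
    have : (1 : ZMod 2) = 0 := by
      linear_combination (σ s(v0, u) + σ s(v0, w') + 2 * σ s(u, w') + cs σ X v0 0 +
        cs σ X w' 3 + cs σ X u 3 + cs σ X u 0 + cs σ X u (L - 1) + s + cs σ X w' 0 - 2) * h2 -
        r3 - r4 - r5 - r6 - r7 - r2
    exact absurd this (by decide)
  · -- overlapping sets
    obtain ⟨U, hUd⟩ : ∃ U, snum L (fun i => G.Adj u (X i) ∨ G.Adj w (X i)) = U := ⟨_, rfl⟩
    obtain ⟨K, hKd⟩ : ∃ K, snum L (fun i => G.Adj u (X i) ∧ G.Adj w (X i)) = K := ⟨_, rfl⟩
    simp only [hUd, hKd] at h1 h2 h3 hU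
    by_cases hlam : q.length = 1
    · rw [hlam] at h1
      omega
    · obtain ⟨e, he⟩ : ∃ e, q.length = e + 2 := ⟨q.length - 2, by omega⟩
      rw [he] at h1
      have e1 : (e + 2) * K = e * K + 2 * K := by ring
      have e2 : e * 1 ≤ e * K := Nat.mul_le_mul_left _ h3
      omega

end main

end Run7.h807
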