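import Mathlib
import Pool.Agent.Run7.h807.Unit

set_option autoImplicit false

namespace Run7.h807

variable {V : Type*} {G : SimpleGraph V}

open Classical in
/-- replace the rim vertex at position `p` by `u` -/
noncomputable def swp (X : ℕ → V) (L p : ℕ) (u : V) : ℕ → V :=
  fun k => if k % L = p then u else X k

theorem swp_ne {X : ℕ → V} {L p : ℕ} {u : V} {k : ℕ} (h : k % L ≠ p) : swp X L p u k = X k := by
  unfold swp; rw [if_neg h]

theorem swp_eq {X : ℕ → V} {L p : ℕ} {u : V} {k : ℕ} (h : k % L = p) : swp X L p u k = u := by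
  unfold swp; rw [if_pos h]

theorem Rim.swap {L : ℕ} {X : ℕ → V} (h : Rim G L X) {u : V} (hu : ∀ k, X k ≠ u) {p : ℕ}
    (hp1 : 1 ≤ p) (hpL : p < L) (h1 : G.Adj u (X (p - 1))) (h2 : G.Adj u (X (p + 1))) :
    Rim G L (swp X L p u) := by
  have h3 := h.three
  have hL0 : 0 < L := by omega
  refine ⟨fun k => ?_, fun i j hi hj hij => ?_, fun k => ?_, h3⟩
  · unfold swp
    rw [Nat.add_mod_right, h.per]
  · unfold swp at hij
    rw [Nat.mod_eq_of_lt hi, Nat.mod_eq_of_lt hj] at hij
    by_cases hip : i = p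
    · by_cases hjp : j = p
      · rw [hip, hjp]
      · rw [if_pos hip, if_neg hjp] at hij
        exact absurd hij.symm (hu j)
    · by_cases hjp : j = p
      · rw [if_neg hip, if_pos hjp] at hij
        exact absurd hij (hu i)
      · rw [if_neg hip, if_neg hjp] at hij
        exact h.inj i j hi hj hij
  · by_cases hk : k % L = p
    · have hk1 : (k + 1) % L ≠ p := by
        intro hcon
        rw [Nat.add_mod, hk, Nat.mod_eq_of_lt (a := 1) (by omega)] at hcon
        rcases Nat.lt_or_ge (p + 1) L with h4 | h4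
        · rw [Nat.mod_eq_of_lt h4] at hcon; omega
        · have : p + 1 = L := by omega
          rw [this, Nat.mod_self] at hcon; omega
      rw [swp_eq hk, swp_ne hk1]
      have e : X (k + 1) = X (p + 1) := by
        rw [h.modeq (k + 1), h.modeq (p + 1), Nat.add_mod, hk, Nat.add_mod p 1,
          Nat.mod_eq_of_lt (a := p) hpL]
      rw [e]; exact h2
    · by_cases hk1 : (k + 1) % L = p
      · rw [swp_ne hk, swp_eq hk1]
        have hkp : k % L = p - 1 := by
          have h5 := Nat.mod_lt k hL0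
          rw [Nat.add_mod, Nat.mod_eq_of_lt (a := 1) (by omega)] at hk1
          rcases Nat.lt_or_ge (k % L + 1) L with h4 | h4
          · rw [Nat.mod_eq_of_lt h4] at hk1; omega
          · have : k % L + 1 = L := by omega
            rw [this, Nat.mod_self] at hk1; omega
        have e : X k = X (p - 1) := by
          rw [h.modeq k, hkp]
        rw [e]; exact h1.symm
      · rw [swp_ne hk, swp_ne hk1]; exact h.adj k

theorem phi_swp_lt {σ : Sym2 V → ZMod 2} {X : ℕ → V} {L p : ℕ} {u : V} (hpL : p < L) :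
    ∀ k, k < p → phi σ (swp X L p u) 0 k = phi σ X 0 k := by
  intro k
  induction k with
  | zero => intro _; rfl
  | succ k ih =>
    intro hk
    change phi σ (swp X L p u) 0 k + σ s(swp X L p u k, swp X L p u (k + 1)) =
      phi σ X 0 k + σ s(X k, X (k + 1))
    rw [ih (by omega), swp_ne (by rw [Nat.mod_eq_of_lt (by omega)]; omega),
      swp_ne (by rw [Nat.mod_eq_of_lt (by omega)]; omega)]

theorem phi_swp_gt {σ : Sym2 V → ZMod 2} {X : ℕ → V} {L p : ℕ} {u : V} (hp1 : 1 ≤ p)
    (hpL : p < L) : ∀ k, p < k → k ≤ L →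
      phi σ (swp X L p u) 0 k = phi σ X 0 k + (cs σ X u (p - 1) + cs σ X u (p + 1)) := by
  intro k
  induction k with
  | zero => intro h; omega
  | succ k ih =>
    intro hk hkL
    rcases Nat.lt_or_ge p k with h | h
    · change phi σ (swp X L p u) 0 k + σ s(swp X L p u k, swp X L p u (k + 1)) =
        phi σ X 0 k + σ s(X k, X (k + 1)) + _
      rw [ih h (by omega), swp_ne (by rw [Nat.mod_eq_of_lt (by omega)]; omega)]
      have : swp X L p u (k + 1) = X (k + 1) := by
        apply swp_ne
        rcases Nat.lt_or_ge (k + 1) L with h4 | h4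
        · rw [Nat.mod_eq_of_lt h4]; omega
        · have : k + 1 = L := by omega
          rw [this, Nat.mod_self]; omega
      rw [this]
      ring
    · have hkp : k = p := by omega
      subst hkp
      obtain ⟨q, rfl⟩ : ∃ q, k = q + 1 := ⟨k - 1, by omega⟩
      change phi σ (swp X L (q + 1) u) 0 q + σ s(swp X L (q + 1) u q, swp X L (q + 1) u (q + 1)) +
        σ s(swp X L (q + 1) u (q + 1), swp X L (q + 1) u (q + 1 + 1)) =
        phi σ X 0 q + σ s(X q, X (q + 1)) + σ s(X (q + 1), X (q + 1 + 1)) + _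
      rw [phi_swp_lt hpL q (by omega), swp_ne (k := q) (by rw [Nat.mod_eq_of_lt (by omega)]; omega),
        swp_eq (k := q + 1) (Nat.mod_eq_of_lt hpL)]
      have : swp X L (q + 1) u (q + 1 + 1) = X (q + 1 + 1) := by
        apply swp_ne
        rcases Nat.lt_or_ge (q + 1 + 1) L with h4 | h4
        · rw [Nat.mod_eq_of_lt h4]; omega
        · have : q + 1 + 1 = L := by omega
          rw [this, Nat.mod_self]; omega
      rw [this]
      have e2 : cs σ X u (q + 1 - 1) = σ s(u, X q) + phi σ X 0 q := rfl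
      have e3 : cs σ X u (q + 1 + 1) = σ s(u, X (q + 1 + 1)) +
          (phi σ X 0 q + σ s(X q, X (q + 1)) + σ s(X (q + 1), X (q + 1 + 1))) := rfl
      rw [e2, e3, Sym2.eq_swap (a := X q) (b := u)]
      have t1 := two_self (phi σ X 0 q)
      have t2 := two_self (σ s(X q, X (q + 1)))
      have t3 := two_self (σ s(X (q + 1), X (q + 1 + 1)))
      linear_combination -t1 - t2 - t3

theorem Top.swap {σ : Sym2 V → ZMod 2} {s : ZMod 2} {L : ℕ} {X : ℕ → V} (h : Top G σ s L X)
    {u : V} (hu : ∀ k, X k ≠ u) {p : ℕ}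
    (hp1 : 1 ≤ p) (hpL : p < L) (h1 : G.Adj u (X (p - 1))) (h2 : G.Adj u (X (p + 1)))
    (hfl : cs σ X u (p - 1) + cs σ X u (p + 1) = 0) : Top G σ s L (swp X L p u) := by
  refine ⟨h.rim.swap hu hp1 hpL h1 h2, ?_, h.max⟩
  rw [phi_swp_gt hp1 hpL L hpL le_rfl, h.tot, hfl, add_zero]

/-- the replaced vertex is off the new rim -/
theorem swp_off {L : ℕ} {X : ℕ → V} (h : Rim G L X) {u : V} (hu : ∀ k, X k ≠ u) {p : ℕ}
    (hpL : p < L) : ∀ k, swp X L p u k ≠ X p := by
  intro k hk
  have hL0 : 0 < L := by omega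
  by_cases hkp : k % L = p
  · rw [swp_eq hkp] at hk
    exact hu p hk.symm
  · rw [swp_ne hkp, h.modeq k] at hk
    exact hkp (h.inj _ _ (Nat.mod_lt _ hL0) hpL hk)

theorem swp_off' {L : ℕ} {X : ℕ → V} {u z : V} (hz : ∀ k, X k ≠ z) (hzu : z ≠ u)
    {p : ℕ} : ∀ k, swp X L p u k ≠ z := by
  intro k hk
  by_cases hkp : k % L = p
  · rw [swp_eq hkp] at hk
    exact hzu hk.symm
  · rw [swp_ne hkp] at hk
    exact hz k hk

section unit

variable {σ : Sym2 V → ZMod 2} {s : ZMod 2} {L : ℕ} {X : ℕ → V} {v0 : V}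

theorem UTop.swap (h : UTop G σ s L X v0) {u : V} (hu : ∀ k, X k ≠ u) (huv : u ≠ v0) {p : ℕ}
    (hp1 : 1 ≤ p) (hpL : p + 1 < L) (h1 : G.Adj u (X (p - 1))) (h2 : G.Adj u (X (p + 1))) :
    UTop G σ s L (swp X L p u) v0 := by
  obtain ⟨q, rfl⟩ : ∃ q, p = q + 1 := ⟨p - 1, by omega⟩
  have hfl : cs σ X u (q + 1 - 1) + cs σ X u (q + 1 + 1) = 0 :=
    h.gap2 hu huv (i := q) (by omega) h1 h2
  refine ⟨h.toTop.swap hu hp1 (by omega) h1 h2 hfl, swp_off' h.off huv.symm, ?_, ?_⟩
  · rw [swp_ne (by rw [Nat.zero_mod]; omega)]; exact h.a0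
  · rw [swp_ne (by rw [Nat.mod_eq_of_lt (by omega)]; omega)]; exact h.a1

end unit

/-- a full alternating window -/
theorem lin2_full {A : ℕ → Prop} {E : ℕ} (h : ∀ k, A k → k + 1 < E → ¬ A (k + 1)) :
    ∀ m p, p + m ≤ E → 2 * lcount A p m = m + 1 → ∀ i, i < m → (A (p + i) ↔ Even i) := by
  intro m
  induction m using Nat.strong_induction_on with
  | _ m ih =>
    intro p hpE hm i hi
    rcases m with _ | m
    · omega
    · by_cases hp : A p
      · rw [lcount_succ_pos hp] at hm
        rcases m with _ | m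
        · have : i = 0 := by omega
          subst this
          simpa using hp
        · have h1 : ¬ A (p + 1) := h p hp (by omega)
          rw [lcount_succ_neg h1] at hm
          rcases i with _ | i
          · simpa using hp
          · rcases i with _ | i
            · simpa using h1
            · have := ih m (by omega) (p + 1 + 1) (by omega) (by omega) i (by omega)
              rw [show p + (i + 1 + 1) = p + 1 + 1 + i by ring, this]
              simp [Nat.even_add_one]
      · exfalso
        rw [lcount_succ_neg hp] at hm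
        have := lin2 h m (p + 1) (by omega)
        omega

end Run7.h807
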