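import Mathlib
import Pool.Agent.Run7.h807.Swap

set_option autoImplicit false

namespace Run7.h807

variable {V : Type*} {G : SimpleGraph V}
variable [Fintype V] [DecidableEq V] [DecidableRel G.Adj]
variable {σ : Sym2 V → ZMod 2} {s : ZMod 2} {L : ℕ} {X : ℕ → V} {v0 : V}

/-- structure of the outer vertices -/
theorem UTop.struct (h : UTop G σ s L X v0) {d k : ℕ} (hn : Fintype.card V = 2 * d + k)
    (hdeg : ∀ v, d ≤ G.degree v) (hL1 : d + 2 * k + 2 ≤ L) (hL2 : L + 2 ≤ 2 * d)
    {u : V} (hu : ∀ i, X i ≠ u) (huv : u ≠ v0) :
    G.Adj u v0 ∧ snum L (fun i => G.Adj u (X i)) + 1 = d := by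
  classical
  have hd := degree_le h.rim u {v0} (fun z hz hz' => by
    rw [Finset.mem_singleton]
    by_contra hzv
    exact h.indep hn hdeg hL1 hu huv hz' hzv hz)
  have h2 := lin2 (A := fun i => G.Adj u (X i)) (E := L)
    (fun i h1 hi => h.noncons hu huv hi h1) L 0 (by omega)
  rw [lcount_eq_snum] at h2
  have h3 := hdeg u
  rw [Finset.filter_singleton] at hd
  by_cases hadj : G.Adj u v0
  · rw [if_pos hadj, Finset.card_singleton] at hd
    exact ⟨hadj, by omega⟩
  · rw [if_neg hadj, Finset.card_empty] at hd
    omega

theorem exists_off {L : ℕ} {X : ℕ → V} (h : Rim G L X) (v0 : V) (hc : L + 2 ≤ Fintype.card V) :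
    ∃ u, (∀ i, X i ≠ u) ∧ u ≠ v0 := by
  classical
  by_contra hcon
  push Not at hcon
  have hsub : (Finset.univ : Finset V) ⊆ insert v0 ((Finset.range L).image X) := by
    intro z _
    rw [Finset.mem_insert]
    by_cases hz : ∃ i, X i = z
    · right
      obtain ⟨i, rfl⟩ := hz
      rw [h.modeq i]
      exact Finset.mem_image_of_mem _ (Finset.mem_range.2 (Nat.mod_lt _ (by
        have := h.three; omega)))
    · left
      push Not at hz
      exact hcon z hz
  have h1 := Finset.card_le_card hsub
  have h2 := Finset.card_insert_le v0 ((Finset.range L).image X)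
  have h3 : ((Finset.range L).image X).card ≤ L := Finset.card_image_le.trans (by simp)
  rw [Finset.card_univ] at h1
  omega

/-- cardinality of `v0` together with every second rim vertex -/
theorem card_J {d a : ℕ} (hX : Rim G L X) (hv0 : ∀ k, X k ≠ v0) (hL : a + 2 * (d - 1) ≤ L + 1)
    (hd : 1 ≤ d) :
    (insert v0 ((Finset.range (d - 1)).image (fun i => X (a + 2 * i)))).card = d := by
  classical
  rw [Finset.card_insert_of_notMem, Finset.card_image_of_injOn, Finset.card_range]
  · omega
  · intro x hx y hy hxy
    rw [Finset.mem_coe, Finset.mem_range] at hx hy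
    have := hX.inj (a + 2 * x) (a + 2 * y) (by omega) (by omega) hxy
    omega
  · intro hmem
    rw [Finset.mem_image] at hmem
    obtain ⟨i, _, hi⟩ := hmem
    exact hv0 _ hi

/-- the case of an outer vertex with two consecutive neighbours, `n = 2d` -/
theorem UTop.kdd (h : UTop G σ s L X v0) {d : ℕ} (hd : 3 ≤ d) (hn : Fintype.card V = 2 * d)
    (hdeg : ∀ v, d ≤ G.degree v) (hL1 : d + 2 ≤ L) (hL2 : L + 2 ≤ 2 * d) :
    ∃ I : Finset V, I.card = d ∧ ∀ x ∈ I, ∀ y, y ∉ I → G.Adj x y := by
  classical
  have hL3 := h.rim.three
  have hstr : ∀ {X' : ℕ → V}, UTop G σ s L X' v0 → ∀ {u : V}, (∀ i, X' i ≠ u) → u ≠ v0 →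
      G.Adj u v0 ∧ snum L (fun i => G.Adj u (X' i)) + 1 = d := by
    intro X' h' u hu huv
    exact h'.struct (k := 0) (by omega) hdeg (by omega) hL2 hu huv
  have hl2 : ∀ {X' : ℕ → V}, UTop G σ s L X' v0 → ∀ {u : V}, (∀ i, X' i ≠ u) → u ≠ v0 →
      ∀ m p, p + m ≤ L → 2 * lcount (fun i => G.Adj u (X' i)) p m ≤ m + 1 := by
    intro X' h' u hu huv
    exact lin2 (A := fun i => G.Adj u (X' i)) (E := L)
      (fun i h1 hi => h'.noncons hu huv hi h1)
  have hlf : ∀ {X' : ℕ → V}, UTop G σ s L X' v0 → ∀ {u : V}, (∀ i, X' i ≠ u) → u ≠ v0 →
      ∀ m p, p + m ≤ L → 2 * lcount (fun i => G.Adj u (X' i)) p m = m + 1 →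
        ∀ i, i < m → (G.Adj u (X' (p + i)) ↔ Even i) := by
    intro X' h' u hu huv
    exact lin2_full (A := fun i => G.Adj u (X' i)) (E := L)
      (fun i h1 hi => h'.noncons hu huv hi h1)
  obtain ⟨u, hu, huv⟩ := exists_off h.rim v0 (by omega)
  have hLge : 2 * d ≤ L + 3 := by
    have h1 := (hstr h hu huv).2
    have h2 := hl2 h hu huv L 0 (by omega)
    rw [lcount_eq_snum] at h2
    omega
  by_cases hcase : L + 3 = 2 * d
  · -- `L = 2d - 3`
    have hpar : ∀ {X' : ℕ → V}, UTop G σ s L X' v0 → ∀ {u : V}, (∀ i, X' i ≠ u) → u ≠ v0 →
        ∀ i, i < L → (G.Adj u (X' i) ↔ Even i) := by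
      intro X' h' u' hu' huv' i hi
      have h1 := (hstr h' hu' huv').2
      have h2 := hlf h' hu' huv' L 0 (by omega) (by rw [lcount_eq_snum]; omega) i hi
      rwa [Nat.zero_add] at h2
    refine ⟨insert v0 ((Finset.range (d - 1)).image (fun i => X (0 + 2 * i))),
      card_J h.rim h.off (by omega) (by omega), fun x hx y hy => ?_⟩
    have hyv : y ≠ v0 := fun he => hy (by rw [he]; exact Finset.mem_insert_self _ _)
    -- `y` sees `v0` and all even vertices
    have key : G.Adj y v0 ∧ ∀ i, i < L → Even i → G.Adj y (X i) := by
      by_cases hyX : ∃ i, X i = y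
      · obtain ⟨i0, hi0⟩ := hyX
        obtain ⟨i, hiL, hiy⟩ : ∃ i, i < L ∧ X i = y :=
          ⟨i0 % L, Nat.mod_lt _ (by omega), by rw [← h.rim.modeq]; exact hi0⟩
        have hodd : ¬ Even i := by
          rintro ⟨b, hb⟩
          apply hy
          rw [Finset.mem_insert]
          right
          rw [Finset.mem_image]
          refine ⟨b, Finset.mem_range.2 (by omega), ?_⟩
          rw [← hiy]
          congr 1
          omega
        have hi1 : 1 ≤ i := by
          by_contra h0
          exact hodd (by rw [show i = 0 by omega]; exact Even.zero)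
        have hi2 : i + 1 < L := by
          by_contra h0
          apply hodd
          rw [show i = L - 1 by omega]
          exact ⟨d - 2, by omega⟩
        have hev1 : Even (i - 1) := by
          rw [Nat.not_even_iff_odd] at hodd
          obtain ⟨b, hb⟩ := hodd
          exact ⟨b, by omega⟩
        have hev2 : Even (i + 1) := by
          rw [Nat.not_even_iff_odd] at hodd
          obtain ⟨b, hb⟩ := hodd
          exact ⟨b + 1, by omega⟩
        have h' := h.swap hu huv hi1 hi2 ((hpar h hu huv _ (by omega)).2 hev1)
          ((hpar h hu huv _ hi2).2 hev2)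
        have hyoff : ∀ k, swp X L i u k ≠ y := by
          rw [← hiy]; exact swp_off h.rim hu hiL
        refine ⟨(hstr h' hyoff hyv).1, fun j hj hje => ?_⟩
        have := (hpar h' hyoff hyv j hj).2 hje
        rwa [swp_ne (by rw [Nat.mod_eq_of_lt hj]; rintro rfl; exact hodd hje)] at this
      · push Not at hyX
        exact ⟨(hstr h hyX hyv).1, fun i hi hie => (hpar h hyX hyv i hi).2 hie⟩
    rw [Finset.mem_insert] at hx
    rcases hx with rfl | hx
    · exact key.1.symm
    · rw [Finset.mem_image] at hx
      obtain ⟨i, hi, rfl⟩ := hx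
      rw [Finset.mem_range] at hi
      exact (key.2 _ (by omega) ⟨i, by omega⟩).symm
  · -- `L = 2d - 2`
    have hL : L + 2 = 2 * d := by omega
    -- the outside consists of `v0` and `u`
    have hstep1 : ∀ {X' : ℕ → V}, UTop G σ s L X' v0 → ∀ {u : V}, (∀ i, X' i ≠ u) → u ≠ v0 →
        ¬ (G.Adj u (X' 0) ∧ G.Adj u (X' (L - 1))) := by
      intro X' h' u' hu' huv' hboth
      obtain ⟨hb0, hb1⟩ := hboth
      have hX0 : X' (L - 1 + 1) = X' 0 := by
        rw [Nat.sub_add_cancel (by omega)]
        have := h'.rim.per 0
        rwa [Nat.zero_add] at this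
      have hcnt := (hstr h' hu' huv').2
      rw [← lcount_eq_snum] at hcnt
      have huu := h'.toTop.unit hu' (i := L - 1) hb1 (by rw [hX0]; exact hb0)
      have hfin : ∀ i, i + 1 ≤ L - 1 → G.Adj v0 (X' i) → G.Adj v0 (X' (i + 1)) → False := by
        intro i hi hv hv'
        have hvv := h'.toTop.unit h'.off hv hv'
        have := h'.toTop.two (P := [v0]) (Q := [u']) (u := v0) (w := v0) (u' := u') (w' := u')
          (by simp) (by simp) rfl rfl (by
            intro z hz; rw [List.mem_singleton] at hz; rw [hz]; exact h'.off) (by simp) (by simp)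
          rfl rfl (by
            intro z hz; rw [List.mem_singleton] at hz; rw [hz]; exact hu') (by
            intro z hz hz'
            rw [List.mem_singleton] at hz hz'
            exact huv' (hz' ▸ hz)) (i := i) (j := 1) (i' := L - 1) (j' := 1) one_pos one_pos
          (by omega) (by omega) hv hv' hb1 (by rw [hX0]; exact hb0) (by
            have hone : (1 : ZMod 2) + 1 = 0 := by decide
            rw [ls_single, ls_single]
            linear_combination huu + hvv + hone)
        simp at this
      by_cases h2 : G.Adj u' (X' 2)
      · have h'' := h'.swap hu' huv' (p := 1) le_rfl (by omega) hb0 h2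
        have := (hstr h'' (swp_off h'.rim hu' (by omega)) (h'.off 1)).1
        exact hfin 0 (by omega) h'.a0 this.symm
      · by_cases h3 : G.Adj u' (X' (L - 3))
        · have h'' := h'.swap hu' huv' (p := L - 2) (by omega) (by omega)
            (by rw [show L - 2 - 1 = L - 3 by omega]; exact h3)
            (by rw [show L - 2 + 1 = L - 1 by omega]; exact hb1)
          have := (hstr h'' (swp_off h'.rim hu' (by omega)) (h'.off (L - 2))).1
          exact hfin (L - 2) (by omega) this.symm (by
            rw [show L - 2 + 1 = L - 1 by omega]; exact h'.a1)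
        · -- too few neighbours
          have hn1 : ¬ G.Adj u' (X' 1) := h'.noncons hu' huv' (i := 0) (by omega) hb0
          have hn2 : ¬ G.Adj u' (X' (L - 2)) := fun h4 =>
            h'.noncons hu' huv' (i := L - 2) (by omega) h4
              (by rw [show L - 2 + 1 = L - 1 by omega]; exact hb1)
          have e1 : L = (L - 6) + 3 + 3 := by omega
          have key : lcount (fun i => G.Adj u' (X' i)) 0 L =
              1 + (lcount (fun i => G.Adj u' (X' i)) 3 (L - 6) + 1) := by
            have hA : lcount (fun i => G.Adj u' (X' i)) 0 L =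
                lcount (fun i => G.Adj u' (X' i)) 0 (((L - 6) + 3) + 1 + 1 + 1) := by
              rw [← e1]
            rw [hA, lcount_succ_pos hb0, lcount_succ_neg (by simpa using hn1),
              lcount_succ_neg (by simpa using h2), lcount_add]
            have e2 : 0 + 1 + 1 + 1 + (L - 6) = L - 3 := by omega
            rw [e2, show (3 : ℕ) = 0 + 1 + 1 + 1 from rfl, lcount_succ_neg h3,
              lcount_succ_neg (by
                rw [show L - (0 + 1 + 1 + 1) + 1 = L - 2 by omega]; exact hn2),
              lcount_succ_pos (by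
                rw [show L - (0 + 1 + 1 + 1) + 1 + 1 = L - 1 by omega]; exact hb1), lcount_zero]
          have := hl2 h' hu' huv' (L - 6) 3 (by omega)
          omega
    have hstep2 : ∀ {X' : ℕ → V}, UTop G σ s L X' v0 → ∀ {u : V}, (∀ i, X' i ≠ u) → u ≠ v0 →
        (∀ i, i < L → (G.Adj u (X' i) ↔ Even i)) ∨ (∀ i, i < L → (G.Adj u (X' i) ↔ ¬ Even i)) := by
      intro X' h' u' hu' huv'
      have hcnt := (hstr h' hu' huv').2
      rw [← lcount_eq_snum] at hcnt
      by_cases h0 : G.Adj u' (X' 0)
      · left
        have h1 : ¬ G.Adj u' (X' (L - 1)) := fun h1 => hstep1 h' hu' huv' ⟨h0, h1⟩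
        have e1 : lcount (fun i => G.Adj u' (X' i)) 0 L =
            lcount (fun i => G.Adj u' (X' i)) 0 (L - 1) := by
          conv_lhs => rw [show L = (L - 1) + 1 by omega]
          rw [lcount_add, show (1 : ℕ) = 0 + 1 from rfl,
            lcount_succ_neg (p := 0 + (L - 1)) (by rw [Nat.zero_add]; exact h1), lcount_zero]
          simp
        rw [e1] at hcnt
        have h2 := hlf h' hu' huv' (L - 1) 0 (by omega) (by omega)
        intro i hi
        rcases Nat.lt_or_ge i (L - 1) with h3 | h3
        · have := h2 i h3
          rwa [Nat.zero_add] at this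
        · have : i = L - 1 := by omega
          subst this
          refine ⟨fun h4 => absurd h4 h1, fun h4 => ?_⟩
          obtain ⟨b, hb⟩ := h4
          omega
      · right
        have e1 : lcount (fun i => G.Adj u' (X' i)) 0 L =
            lcount (fun i => G.Adj u' (X' i)) 1 (L - 1) := by
          conv_lhs => rw [show L = (L - 1) + 1 by omega]
          rw [lcount_succ_neg h0]
        rw [e1] at hcnt
        have h2 := hlf h' hu' huv' (L - 1) 1 (by omega) (by omega)
        intro i hi
        rcases i with _ | i
        · simpa using h0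
        · have := h2 i (by omega)
          rw [Nat.add_comm 1 i] at this
          rw [this, Nat.even_add_one, not_not]
    -- parity class of `u`
    obtain ⟨a, ha, hua⟩ : ∃ a, a < 2 ∧ ∀ i, i < L → (G.Adj u (X i) ↔ i % 2 = a) := by
      rcases hstep2 h hu huv with h1 | h1
      · refine ⟨0, by omega, fun i hi => ?_⟩
        rw [h1 i hi, Nat.even_iff]
      · refine ⟨1, by omega, fun i hi => ?_⟩
        rw [h1 i hi, Nat.even_iff]; omega
    -- swappable vertices
    have hsw : ∀ i, 1 ≤ i → i + 1 < L → i % 2 ≠ a →
        G.Adj (X i) v0 ∧ ∀ j, j < L → j ≠ i → (G.Adj (X i) (X j) ↔ j % 2 = a) := by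
      intro i hi1 hi2 hia
      have h' := h.swap hu huv hi1 hi2 ((hua _ (by omega)).2 (by omega))
        ((hua _ hi2).2 (by omega))
      have hyoff := swp_off h.rim hu (p := i) (by omega)
      have hyv : X i ≠ v0 := h.off i
      refine ⟨(hstr h' hyoff hyv).1, ?_⟩
      have hprev : G.Adj (X i) (swp X L i u (i - 1)) := by
        rw [swp_ne (by rw [Nat.mod_eq_of_lt (by omega)]; omega)]
        have := h.rim.adj (i - 1)
        rw [Nat.sub_add_cancel hi1] at this
        exact this.symm
      intro j hj hji
      have hj' : swp X L i u j = X j := swp_ne (by rw [Nat.mod_eq_of_lt hj]; exact hji)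
      rcases hstep2 h' hyoff hyv with h1 | h1
      · have h2 := (h1 (i - 1) (by omega)).1 hprev
        have h3 := h1 j hj
        rw [hj'] at h3
        rw [Nat.even_iff] at h2 h3
        rw [h3]
        omega
      · have h2 := (h1 (i - 1) (by omega)).1 hprev
        have h3 := h1 j hj
        rw [hj'] at h3
        rw [Nat.even_iff] at h2 h3
        rw [h3]
        omega
    set J := insert v0 ((Finset.range (d - 1)).image (fun i => X (a + 2 * i))) with hJ
    have hJc : J.card = d := card_J h.rim h.off (by omega) (by omega)
    have hmemJ : ∀ i, i < L → i % 2 = a → X i ∈ J := by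
      intro i hi hia
      rw [hJ, Finset.mem_insert]
      right
      rw [Finset.mem_image]
      refine ⟨i / 2, Finset.mem_range.2 (by omega), ?_⟩
      congr 1
      omega
    refine ⟨J, hJc, fun x hx y hy => ?_⟩
    have hyv : y ≠ v0 := fun he => hy (by rw [he]; exact Finset.mem_insert_self _ _)
    have key : G.Adj y v0 ∧ ∀ i, i < L → i % 2 = a → G.Adj y (X i) := by
      by_cases hyX : ∃ i, X i = y
      · obtain ⟨i0, hi0⟩ := hyX
        obtain ⟨i, hiL, hiy⟩ : ∃ i, i < L ∧ X i = y :=
          ⟨i0 % L, Nat.mod_lt _ (by omega), by rw [← h.rim.modeq]; exact hi0⟩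
        have hia : i % 2 ≠ a := fun hia => hy (hiy ▸ hmemJ i hiL hia)
        by_cases hmid : 1 ≤ i ∧ i + 1 < L
        · obtain ⟨h1, h2⟩ := hsw i hmid.1 hmid.2 hia
          rw [← hiy]
          exact ⟨h1, fun j hj hja => (h2 j hj (by rintro rfl; exact hia hja)).2 hja⟩
        · -- the end vertex
          have hyv0 : G.Adj y v0 := by
            rw [← hiy]
            by_cases hi0' : i = 0
            · rw [hi0']; exact h.a0.symm
            · rw [show i = L - 1 by omega]; exact h.a1.symm
          have hsub : G.neighborFinset y ⊆ J := by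
            intro z hz
            rw [SimpleGraph.mem_neighborFinset] at hz
            by_cases hzX : ∃ j, X j = z
            · obtain ⟨j0, hj0⟩ := hzX
              obtain ⟨j, hjL, hjz⟩ : ∃ j, j < L ∧ X j = z :=
                ⟨j0 % L, Nat.mod_lt _ (by omega), by rw [← h.rim.modeq]; exact hj0⟩
              by_cases hja : j % 2 = a
              · rw [← hjz]; exact hmemJ j hjL hja
              · exfalso
                have hji : j ≠ i := by
                  rintro rfl
                  rw [hjz] at hiy
                  exact hz.ne hiy.symm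
                have hjm : 1 ≤ j ∧ j + 1 < L := by omega
                have h3 := ((hsw j hjm.1 hjm.2 hja).2 i hiL (by omega)).1
                  (by rw [hjz, hiy]; exact hz.symm)
                exact hia h3
            · push Not at hzX
              by_cases hzv : z = v0
              · rw [hzv]; exact Finset.mem_insert_self _ _
              · exfalso
                -- `z = u`
                have hzu : z = u := by
                  by_contra hne
                  have := (card_off h.rim [v0, u, z] (by
                    simp [huv.symm, Ne.symm hne, Ne.symm hzv]) (by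
                    intro y' hy'
                    simp only [List.mem_cons, List.not_mem_nil, or_false] at hy'
                    rcases hy' with rfl | rfl | rfl
                    · exact h.off
                    · exact hu
                    · exact hzX)).1
                  simp only [List.length_cons, List.length_nil] at this
                  omega
                rw [hzu, ← hiy] at hz
                exact hia ((hua i hiL).1 hz.symm)
          have heq : G.neighborFinset y = J := by
            apply Finset.eq_of_subset_of_card_le hsub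
            rw [hJc, SimpleGraph.card_neighborFinset_eq_degree]
            exact hdeg y
          refine ⟨hyv0, fun j hj hja => ?_⟩
          have := hmemJ j hj hja
          rw [← heq, SimpleGraph.mem_neighborFinset] at this
          exact this
      · push Not at hyX
        have hyu : y = u := by
          by_contra hne
          have := (card_off h.rim [v0, u, y] (by
            simp [huv.symm, Ne.symm hne, Ne.symm hyv]) (by
            intro y' hy'
            simp only [List.mem_cons, List.not_mem_nil, or_false] at hy'
            rcases hy' with rfl | rfl | rfl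
            · exact h.off
            · exact hu
            · exact hyX)).1
          simp only [List.length_cons, List.length_nil] at this
          omega
        rw [hyu]
        exact ⟨(hstr h hu huv).1, fun i hi hia => (hua i hi).2 hia⟩
    rw [hJ, Finset.mem_insert] at hx
    rcases hx with rfl | hx
    · exact key.1.symm
    · rw [Finset.mem_image] at hx
      obtain ⟨i, hi, rfl⟩ := hx
      rw [Finset.mem_range] at hi
      exact (key.2 _ (by omega) (by omega)).symm

end Run7.h807
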