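import Mathlib
import Pool.Agent.Run7.h807.UnitKdd
import Pool.Agent.Run7.h807.MA

set_option autoImplicit false

namespace Run7.h807

variable {V : Type*} {G : SimpleGraph V}

theorem phi_shift (σ : Sym2 V → ZMod 2) (X : ℕ → V) (a k : ℕ) :
    phi σ (fun k => X (k + a)) 0 k = phi σ X 0 (k + a) + phi σ X 0 a := by
  induction k with
  | zero =>
    rw [Nat.zero_add, two_self]; rfl
  | succ k ih =>
    have e : k + 1 + a = (k + a) + 1 := by ring
    rw [e]
    change phi σ (fun k => X (k + a)) 0 k + σ s(X (k + a), X (k + 1 + a)) =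
      phi σ X 0 (k + a) + σ s(X (k + a), X (k + a + 1)) + phi σ X 0 a
    rw [ih, e]; ring

theorem Top.shift {σ : Sym2 V → ZMod 2} {s : ZMod 2} {L : ℕ} {X : ℕ → V}
    (h : Top G σ s L X) (a : ℕ) : Top G σ s L (fun k => X (k + a)) := by
  refine ⟨h.rim.shift a, ?_, h.max⟩
  rw [phi_shift, Nat.add_comm L a, h.phi_add]
  have := two_self (phi σ X 0 a)
  linear_combination this

theorem cs_shift (σ : Sym2 V → ZMod 2) (X : ℕ → V) (u : V) (a k : ℕ) :
    cs σ (fun k => X (k + a)) u k = cs σ X u (k + a) + phi σ X 0 a := by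
  unfold cs
  rw [phi_shift]
  ring

section

variable [Fintype V] [DecidableEq V] [DecidableRel G.Adj]
variable {σ : Sym2 V → ZMod 2} {s : ZMod 2} {L : ℕ}

theorem two_struct {X : ℕ → V} (h : Top G σ s L X) {d : ℕ}
    (hn : Fintype.card V = 2 * d) (hdeg : ∀ v, d ≤ G.degree v) (hL : L + 2 = 2 * d)
    (hO : ∀ v, (∀ k, X k ≠ v) → ∀ k, G.Adj v (X k) → ¬ G.Adj v (X (k + 1)))
    {u w : V} (hu : ∀ k, X k ≠ u) (hw : ∀ k, X k ≠ w) (huw : u ≠ w) :
    G.Adj u w ∧ ∀ k, (G.Adj u (X (k + 1)) ↔ ¬ G.Adj u (X k)) := by
  classical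
  have hL3 := h.rim.three
  have hall : ∀ z, (∀ k, X k ≠ z) → z = u ∨ z = w := by
    intro z hz
    by_contra hcon
    rw [not_or] at hcon
    have := (card_off h.rim [u, w, z] (by
      simp [huw, Ne.symm hcon.1, Ne.symm hcon.2]) (by
      intro y' hy'
      simp only [List.mem_cons, List.not_mem_nil, or_false] at hy'
      rcases hy' with rfl | rfl | rfl
      · exact hu
      · exact hw
      · exact hz)).1
    simp only [List.length_cons, List.length_nil] at this
    omega
  have hper : ∀ k, G.Adj u (X (k + L)) ↔ G.Adj u (X k) := by intro k; rw [h.rim.per]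
  have h1 := degree_le h.rim u {w} (fun z hz hz' => by
    rw [Finset.mem_singleton]
    rcases hall z hz' with h2 | h2
    · exact absurd h2.symm hz.ne
    · exact h2)
  have h2 := count_lemma (c := L) (U := fun k => G.Adj u (X k)) (B := fun k => G.Adj u (X k))
    (by omega) hper (fun k hk => hk) (hO u hu) (lam := 0) (fun k hk j hj0 hj => by
      have : j = 1 := by omega
      subst this
      exact hO u hu k hk)
  have h3 := hdeg u
  rw [Finset.filter_singleton] at h1
  by_cases hadj : G.Adj u w
  · rw [if_pos hadj, Finset.card_singleton] at h1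
    refine ⟨hadj, fun k => ⟨fun h4 h5 => hO u hu k h5 h4, fun h4 => ?_⟩⟩
    by_contra h5
    have h6 := lcount_period (A := fun k => G.Adj u (X k)) hper k
    have e : L = (L - 2) + 1 + 1 := by omega
    have h7 : lcount (fun k => G.Adj u (X k)) k L =
        lcount (fun k => G.Adj u (X k)) (k + 1 + 1) (L - 2) := by
      conv_lhs => rw [e]
      rw [lcount_succ_neg h4, lcount_succ_neg h5]
    have h8 := lin2 (A := fun k => G.Adj u (X k)) (E := k + 1 + 1 + (L - 2))
      (fun q hq _ => hO u hu q hq) (L - 2) (k + 1 + 1) le_rfl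
    omega
  · rw [if_neg hadj, Finset.card_empty] at h1
    omega

/-- exactly two outer vertices, none with two consecutive neighbours, `n = 2d` -/
theorem pair_case {X : ℕ → V} (h : Top G σ s L X) {d : ℕ}
    (hn : Fintype.card V = 2 * d) (hdeg : ∀ v, d ≤ G.degree v) (hL1 : d + 2 ≤ L)
    (hL : L + 2 = 2 * d)
    (hO : ∀ X', Top G σ s L X' → ∀ v, (∀ k, X' k ≠ v) → ∀ k, G.Adj v (X' k) →
      ¬ G.Adj v (X' (k + 1))) :
    ∃ I : Finset V, I.card = d ∧ ∀ x ∈ I, ∀ y, y ∉ I → G.Adj x y := by
  classical
  have hL3 := h.rim.three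
  obtain ⟨v1, hv1, -⟩ := exists_off h.rim (X 0) (by omega)
  obtain ⟨w, hw, hwv1⟩ := exists_off h.rim v1 (by omega)
  -- rotate so that `v1 ~ X 0`
  obtain ⟨X, h, hu, hw, hu0⟩ : ∃ X' : ℕ → V, Top G σ s L X' ∧ (∀ k, X' k ≠ v1) ∧
      (∀ k, X' k ≠ w) ∧ G.Adj v1 (X' 0) := by
    have h1 := (two_struct h hn hdeg hL (hO X h) hv1 hw hwv1.symm).2 0
    by_cases h2 : G.Adj v1 (X 0)
    · exact ⟨X, h, hv1, hw, h2⟩
    · exact ⟨fun k => X (k + 1), h.shift 1, fun k => hv1 _, fun k => hw _, h1.2 h2⟩
  clear hv1
  have huw : v1 ≠ w := hwv1.symm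
  obtain ⟨hadj, halt⟩ := two_struct h hn hdeg hL (hO X h) hu hw huw
  obtain ⟨-, halt'⟩ := two_struct h hn hdeg hL (hO X h) hw hu huw.symm
  have hAe : ∀ k, G.Adj v1 (X k) ↔ Even k := by
    intro k
    induction k with
    | zero => simpa using hu0
    | succ k ih => rw [halt, ih, Nat.even_add_one]
  have t2 := two_self
  have h2z : (2 : ZMod 2) = 0 := by decide
  -- close pairs are flips
  have hcr : ∀ i j, 0 < j → j ≤ 2 → G.Adj v1 (X i) → G.Adj w (X (i + j)) →
      σ s(v1, w) + cs σ X v1 i + cs σ X w (i + j) = 1 := by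
    intro i j hj0 hj2 h1 h2
    apply fl_one
    intro h3
    have := h.one (P := [v1, w]) (u := v1) (w := w) (by simp [huw]) (by simpa using hadj) rfl rfl
      (by
        intro z hz k
        simp only [List.mem_cons, List.not_mem_nil, or_false] at hz
        rcases hz with rfl | rfl
        · exact hu k
        · exact hw k) hj0 (by omega) h1 h2 (by simpa using h3)
    simp only [List.length_cons, List.length_nil] at this
    omega
  have hcr' : ∀ i j, 0 < j → j ≤ 2 → G.Adj w (X i) → G.Adj v1 (X (i + j)) →
      σ s(v1, w) + cs σ X w i + cs σ X v1 (i + j) = 1 := by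
    intro i j hj0 hj2 h1 h2
    apply fl_one
    intro h3
    have := h.one (P := [w, v1]) (u := w) (w := v1) (by simp [huw.symm])
      (by simpa using hadj.symm) rfl rfl
      (by
        intro z hz k
        simp only [List.mem_cons, List.not_mem_nil, or_false] at hz
        rcases hz with rfl | rfl
        · exact hw k
        · exact hu k) hj0 (by omega) h1 h2 (by
        rw [ls_cons_cons, ls_single, add_zero, Sym2.eq_swap]; exact h3)
    simp only [List.length_cons, List.length_nil] at this
    omega
  by_cases hw0 : G.Adj w (X 0)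
  · exfalso
    have hBe : ∀ k, G.Adj w (X k) ↔ Even k := by
      intro k
      induction k with
      | zero => simpa using hw0
      | succ k ih => rw [halt', ih, Nat.even_add_one]
    -- all own gaps are flips
    have hflip : ∀ k, Even k → k + 2 ≤ L → cs σ X v1 k + cs σ X v1 (k + 2) = 1 := by
      intro k hk hkL
      apply fl_one
      intro h0
      have hk2 : Even (k + 2) := by rw [Nat.even_add]; simp [hk]
      have h' := h.swap hu (p := k + 1) (by omega) (by omega) ((hAe _).2 (by simpa using hk))
        ((hAe _).2 hk2) (by simpa using h0)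
      have hx := swp_off h.rim hu (p := k + 1) (by omega)
      have hw' : ∀ i, swp X L (k + 1) v1 i ≠ w := swp_off' hw huw.symm
      have h1 := (two_struct h' hn hdeg hL (hO _ h') hx hw' (hw (k + 1))).1
      have h2 := (hBe (k + 1)).1 h1.symm
      rw [Nat.even_add_one] at h2
      exact h2 hk
    have hflipw : ∀ k, Even k → k + 2 ≤ L → cs σ X w k + cs σ X w (k + 2) = 1 := by
      intro k hk hkL
      have hk2 : Even (k + 2) := by rw [Nat.even_add]; simp [hk]
      have h1 := hcr k 2 two_pos le_rfl ((hAe _).2 hk) ((hBe _).2 hk2)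
      have h2 := hcr' k 2 two_pos le_rfl ((hBe _).2 hk) ((hAe _).2 hk2)
      have h3 := hflip k hk (by omega)
      linear_combination h1 + h2 - h3 - σ s(v1, w) * h2z
    -- exchange two vertices at once
    have hX1 := h.rim.swap hu (p := 1) le_rfl (by omega) hu0 ((hAe 2).2 (by decide))
    have hfl0 : cs σ X v1 0 + cs σ X v1 2 = 1 := hflip 0 (by decide) (by omega)
    have hphi : ∀ k, 1 < k → k ≤ L → phi σ (swp X L 1 v1) 0 k = phi σ X 0 k + 1 := by
      intro k hk hkL
      rw [phi_swp_gt le_rfl (by omega) k hk hkL]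
      simp only [Nat.sub_self]
      rw [hfl0]
    have hdouble : ∀ p, 3 ≤ p → p < L → ¬ Even p → G.Adj (X 1) (X p) ∧
        ∀ j, j < L → j ≠ 1 → j ≠ p → (G.Adj (X 1) (X j) ↔ Even j) := by
      intro p hp3 hpL hpo
      obtain ⟨q, rfl⟩ : ∃ q, p = q + 1 := ⟨p - 1, by omega⟩
      have hqe : Even q := by rw [Nat.even_add_one, not_not] at hpo; exact hpo
      have hq2 : Even (q + 2) := by rw [Nat.even_add]; simp [hqe]
      have hwoff1 : ∀ i, swp X L 1 v1 i ≠ w := swp_off' hw huw.symm
      have e1 : swp X L 1 v1 q = X q := swp_ne (by rw [Nat.mod_eq_of_lt (by omega)]; omega)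
      have e2 : swp X L 1 v1 (q + 2) = X (q + 2) := by
        apply swp_ne
        rcases Nat.lt_or_ge (q + 2) L with h4 | h4
        · rw [Nat.mod_eq_of_lt h4]; omega
        · have : q + 2 = L := by omega
          rw [this, Nat.mod_self]; omega
      have hb1 : G.Adj w (swp X L 1 v1 (q + 1 - 1)) := by
        rw [Nat.add_sub_cancel, e1]; exact (hBe q).2 hqe
      have hb2 : G.Adj w (swp X L 1 v1 (q + 1 + 1)) := by
        rw [e2]; exact (hBe _).2 hq2
      have hX2 := hX1.swap hwoff1 (p := q + 1) (by omega) hpL hb1 hb2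
      have htot : phi σ (swp (swp X L 1 v1) L (q + 1) w) 0 L = s := by
        rw [phi_swp_gt (by omega) hpL L hpL le_rfl, hphi L (by omega) le_rfl, h.tot]
        unfold cs
        rw [Nat.add_sub_cancel, e1, e2, hphi q (by omega) (by omega),
          hphi (q + 1 + 1) (by omega) (by omega)]
        have h5 := hflipw q hqe (by omega)
        unfold cs at h5
        linear_combination h5 + 2 * h2z - 0
      have hT : Top G σ s L (swp (swp X L 1 v1) L (q + 1) w) := ⟨hX2, htot, h.max⟩
      have hx1 : ∀ i, swp (swp X L 1 v1) L (q + 1) w i ≠ X 1 :=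
        swp_off' (swp_off h.rim hu (by omega)) (hw 1)
      have hxp : ∀ i, swp (swp X L 1 v1) L (q + 1) w i ≠ X (q + 1) := by
        have h6 := swp_off hX1 hwoff1 (p := q + 1) hpL
        have e3 : swp X L 1 v1 (q + 1) = X (q + 1) :=
          swp_ne (by rw [Nat.mod_eq_of_lt (by omega)]; omega)
        rw [e3] at h6
        exact h6
      obtain ⟨h7, h8⟩ := two_struct hT hn hdeg hL (hO _ hT) hx1 hxp
        (h.rim.ne (by omega) (by omega))
      refine ⟨h7, fun j hj hj1 hjp => ?_⟩
      have hpar : ∀ i, G.Adj (X 1) (swp (swp X L 1 v1) L (q + 1) w i) ↔ Even i := by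
        intro i
        induction i with
        | zero =>
          rw [swp_ne (by rw [Nat.zero_mod]; omega), swp_ne (by rw [Nat.zero_mod]; omega)]
          simpa using (h.rim.adj 0).symm
        | succ i ih => rw [h8, ih, Nat.even_add_one]
      rw [← hpar j, swp_ne (by rw [Nat.mod_eq_of_lt hj]; exact hjp),
        swp_ne (by rw [Nat.mod_eq_of_lt hj]; exact hj1)]
    have h3 := (hdouble 3 le_rfl (by omega) (by decide)).2 5 (by omega) (by omega) (by omega)
    have h5 := (hdouble 5 (by omega) (by omega) (by decide)).1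
    exact absurd (h3.1 h5) (by decide)
  · -- opposite parities
    have hBo : ∀ k, G.Adj w (X k) ↔ ¬ Even k := by
      intro k
      induction k with
      | zero => simpa using hw0
      | succ k ih => rw [halt', ih, Nat.even_add_one]
    have hsw : ∀ p, p < L → ¬ Even p → ∀ j, j < L → Even j → G.Adj (X p) (X j) := by
      intro p hp hpo j hj hje
      have hp1 : 1 ≤ p := by
        by_contra h0
        exact hpo (by rw [show p = 0 by omega]; exact Even.zero)
      obtain ⟨k, rfl⟩ : ∃ k, p = k + 1 := ⟨p - 1, by omega⟩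
      have hke : Even k := by rw [Nat.even_add_one, not_not] at hpo; exact hpo
      have hk2 : Even (k + 2) := by rw [Nat.even_add]; simp [hke]
      have h1 := hcr k 1 one_pos (by omega) ((hAe _).2 hke) ((hBo _).2 hpo)
      have h2 := hcr' (k + 1) 1 one_pos (by omega) ((hBo _).2 hpo) ((hAe _).2 hk2)
      have h' := h.swap hu (p := k + 1) (by omega) hp ((hAe _).2 (by simpa using hke))
        ((hAe _).2 hk2) (by
          simp only [Nat.add_sub_cancel]
          linear_combination h1 + h2 + (1 - σ s(v1, w) - cs σ X w (k + 1)) * h2z)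
      have hx := swp_off h.rim hu (p := k + 1) (by omega)
      have hw' : ∀ i, swp X L (k + 1) v1 i ≠ w := swp_off' hw huw.symm
      have h3 := (two_struct h' hn hdeg hL (hO _ h') hx hw' (hw (k + 1))).2
      have hpar : ∀ i, G.Adj (X (k + 1)) (swp X L (k + 1) v1 (k + i)) ↔ Even i := by
        intro i
        induction i with
        | zero =>
          rw [Nat.add_zero, swp_ne (by rw [Nat.mod_eq_of_lt (by omega)]; omega)]
          simpa using (h.rim.adj k).symm
        | succ i ih => rw [← Nat.add_assoc, h3, ih, Nat.even_add_one]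
      have h4 := (hpar (j + k * L - k)).2 (by
        have h5 : k ≤ k * L := Nat.le_mul_of_pos_right _ (by omega)
        have h6 : j + k * L - k + k = j + k * L := by omega
        have h7 : Even (j + k * L) := by
          rw [Nat.even_add]
          simp [hje, hke, Nat.even_mul]
        rw [← h6, Nat.even_add] at h7
        exact h7.2 hke)
      have h5 : k ≤ k * L := Nat.le_mul_of_pos_right _ (by omega)
      have e : k + (j + k * L - k) = j + k * L := by omega
      have hrim := h'.rim.mul k j
      rw [e, hrim, swp_ne (by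
        rw [Nat.mod_eq_of_lt hj]
        intro h8
        rw [h8] at hje
        exact hpo hje)] at h4
      exact h4
    refine ⟨insert w ((Finset.range (d - 1)).image (fun i => X (0 + 2 * i))),
      card_J h.rim hw (by omega) (by omega), fun x hx y hy => ?_⟩
    have hyw : y ≠ w := fun he => hy (by rw [he]; exact Finset.mem_insert_self _ _)
    have key : G.Adj y w ∧ ∀ i, i < L → Even i → G.Adj y (X i) := by
      by_cases hyX : ∃ i, X i = y
      · obtain ⟨i0, hi0⟩ := hyX
        obtain ⟨i, hiL, hiy⟩ : ∃ i, i < L ∧ X i = y :=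
          ⟨i0 % L, Nat.mod_lt _ (by omega), by rw [← h.rim.modeq]; exact hi0⟩
        have hodd : ¬ Even i := by
          rintro ⟨b, hb⟩
          apply hy
          rw [Finset.mem_insert]
          right
          rw [Finset.mem_image]
          refine ⟨b, Finset.mem_range.2 (by omega), ?_⟩
          rw [← hiy]
          congr 1
          omega
        rw [← hiy]
        exact ⟨((hBo i).2 hodd).symm, fun j hj hje => hsw i hiL hodd j hj hje⟩
      · push Not at hyX
        have hyu : y = v1 := by
          by_contra hne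
          have := (card_off h.rim [v1, w, y] (by
            simp [huw, Ne.symm hne, Ne.symm hyw]) (by
            intro y' hy'
            simp only [List.mem_cons, List.not_mem_nil, or_false] at hy'
            rcases hy' with rfl | rfl | rfl
            · exact hu
            · exact hw
            · exact hyX)).1
          simp only [List.length_cons, List.length_nil] at this
          omega
        rw [hyu]
        exact ⟨hadj, fun i _ hi => (hAe i).2 hi⟩
    rw [Finset.mem_insert] at hx
    rcases hx with rfl | hx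
    · exact key.1.symm
    · rw [Finset.mem_image] at hx
      obtain ⟨i, hi, rfl⟩ := hx
      rw [Finset.mem_range] at hi
      exact (key.2 _ (by omega) ⟨i, by omega⟩).symm

end

end Run7.h807
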