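import Mathlib
import Pool.Agent.Run7.h807.NoN1
import Pool.Agent.Run7.h807.PairO
import Pool.Agent.Run7.h807.Fin

set_option autoImplicit false

namespace Run7.h807

variable {V : Type*} {G : SimpleGraph V}

theorem walk_cross {S : Finset V} {P : V → Prop} : ∀ {x y : V} (q : G.Walk x y),
    (∀ z ∈ q.support, z ∉ S) → P x → ¬ P y →
    ∃ a b, a ∉ S ∧ b ∉ S ∧ P a ∧ ¬ P b ∧ G.Adj a b
  | _, _, .nil, _, h1, h2 => absurd h1 h2
  | x, y, .cons (v := v) h q, hs, h1, h2 => by
    by_cases hv : P v
    · exact walk_cross q (fun z hz => hs z (by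
        rw [SimpleGraph.Walk.support_cons]; exact List.mem_cons_of_mem _ hz)) hv h2
    · exact ⟨x, v, hs x (by simp), hs v (by
        rw [SimpleGraph.Walk.support_cons]
        exact List.mem_cons_of_mem _ q.start_mem_support), h1, hv, h⟩

/-- an edge leaving a set, away from a small separator -/
theorem cut_edge [DecidableEq V]
    (h3 : ∀ S : Finset V, S.card ≤ 2 → (G.induce ((↑S : Set V)ᶜ)).Connected) {S : Finset V}
    (hS : S.card ≤ 2) {P : V → Prop} {x y : V} (hx : x ∉ S) (hy : y ∉ S) (hPx : P x)
    (hPy : ¬ P y) : ∃ a b, a ∉ S ∧ b ∉ S ∧ P a ∧ ¬ P b ∧ G.Adj a b := by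
  have hc := h3 S hS
  have hx' : x ∈ ((↑S : Set V)ᶜ) := by simpa using hx
  have hy' : y ∈ ((↑S : Set V)ᶜ) := by simpa using hy
  obtain ⟨p⟩ := hc.preconnected ⟨x, hx'⟩ ⟨y, hy'⟩
  obtain ⟨q, hq⟩ := walk_out p
  exact walk_cross q (fun z hz => by simpa using hq z hz) hPx hPy

section fan

variable {σ : Sym2 V → ZMod 2} {c : ℕ} {W : ℕ → V} {v : V}

/-- the fan cycle over an arc -/
theorem fan_cyc (hW : Rim G c W) (hv : ∀ k, W k ≠ v) {x j : ℕ} (hj0 : 0 < j) (hjc : j < c)
    (h1 : G.Adj v (W x)) (h2 : G.Adj v (W (x + j))) :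
    Cyc G σ (cs σ W v x + cs σ W v (x + j)) (v :: seg W x (j + 1)) := by
  refine ⟨?_, ?_, ?_, v, W (x + j), rfl, ?_, h2.symm, ?_⟩
  · rw [List.nodup_cons]
    refine ⟨fun h => ?_, hW.seg_nodup _ _ (by omega)⟩
    obtain ⟨k, _, hk⟩ := mem_seg.1 h
    exact hv _ hk
  · rw [seg_succ, List.isChain_cons_cons]
    have := seg_chain hW.adj x (j + 1)
    rw [seg_succ] at this
    exact ⟨h1, this⟩
  · rw [List.length_cons, seg_length]; omega
  · have := seg_last W x j
    rw [seg_succ] at this ⊢
    rw [List.getLast?_cons_cons]; exact this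
  · have e : v :: seg W x (j + 1) = [v] ++ seg W x (j + 1) := rfl
    rw [e, ls_append σ (a := v) (b := W x) rfl (seg_head _ _ _), ls_seg σ W 0, ls_single]
    unfold cs
    rw [Sym2.eq_swap (a := W (x + j)) (b := v)]
    ring

/-- a rotated cycle through an outer vertex -/
theorem rot_cyc (hW : Rim G c W) (hv : ∀ k, W k ≠ v) {b i e : ℕ} (hie : i + 1 + e < c)
    (h1 : G.Adj v (W (b + i))) (h2 : G.Adj v (W (b + i + 1 + e)))
    (h3 : G.Adj (W (b + i + 1)) (W b)) (hpos : 1 ≤ i + e) :
    Cyc G σ (cs σ W v (b + i) + cs σ W v (b + i + 1 + e) +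
      (σ s(W (b + i + 1), W b) + phi σ W 0 (b + i + 1) + phi σ W 0 b))
      (seg W b (i + 1) ++ (v :: (seg W (b + i + 1) (e + 1)).reverse)) := by
  have hr : (seg W (b + i + 1) (e + 1)).reverse.head? = some (W (b + i + 1 + e)) := by
    rw [List.head?_reverse, seg_last]
  have hr2 : (seg W (b + i + 1) (e + 1)).reverse.getLast? = some (W (b + i + 1)) := by
    rw [List.getLast?_reverse, seg_head]
  have hl2 : (v :: (seg W (b + i + 1) (e + 1)).reverse).getLast? = some (W (b + i + 1)) := by
    rw [List.getLast?_cons, hr2]; rfl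
  refine ⟨?_, ?_, ?_, W b, W (b + i + 1), ?_, ?_, h3, ?_⟩
  · rw [List.nodup_append, List.nodup_cons]
    refine ⟨hW.seg_nodup _ _ (by omega), ⟨fun h => ?_, List.nodup_reverse.2
      (hW.seg_nodup _ _ (by omega))⟩, ?_⟩
    · rw [List.mem_reverse] at h
      obtain ⟨k, _, hk⟩ := mem_seg.1 h
      exact hv _ hk
    · intro x hx y hy hxy
      obtain ⟨k, hk1, hk⟩ := mem_seg.1 hx
      rcases List.mem_cons.1 hy with hy | hy
      · exact hv _ (hk.trans (hxy.trans hy))
      · rw [List.mem_reverse] at hy
        obtain ⟨k', hk1', hk'⟩ := mem_seg.1 hy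
        exact hW.ne (a := b + k) (b := b + i + 1 + k') (by omega) (by omega)
          (by rw [hk, hk']; exact hxy)
  · rw [List.isChain_append]
    refine ⟨seg_chain hW.adj _ _, ?_, ?_⟩
    · rw [List.isChain_cons]
      refine ⟨fun y hy => ?_, ?_⟩
      · rw [hr, Option.mem_def, Option.some.injEq] at hy
        subst hy; exact h2
      · rw [List.isChain_reverse]
        exact (seg_chain hW.adj _ _).imp fun a b hab => hab.symm
    · intro x hx y hy
      rw [seg_last, Option.mem_def, Option.some.injEq] at hx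
      rw [List.head?_cons, Option.mem_def, Option.some.injEq] at hy
      subst hx; subst hy
      exact h1.symm
  · rw [List.length_append, List.length_cons, List.length_reverse, seg_length, seg_length]; omega
  · rw [List.head?_append, seg_head]; rfl
  · rw [List.getLast?_append, hl2]; rfl
  · have e1 : v :: (seg W (b + i + 1) (e + 1)).reverse =
        [v] ++ (seg W (b + i + 1) (e + 1)).reverse := rfl
    rw [ls_append σ (seg_last W b i) (b := v) rfl, e1,
      ls_append σ (a := v) rfl hr, ls_reverse, ls_seg σ W 0, ls_seg σ W 0, ls_single]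
    unfold cs
    rw [Sym2.eq_swap (a := W (b + i)) (b := v)]
    ring

/-- the mirror image of `rot_cyc` -/
theorem rot_cyc' (hW : Rim G c W) (hv : ∀ k, W k ≠ v) {b e f : ℕ} (hef : e + 1 + f < c)
    (h1 : G.Adj v (W b)) (h2 : G.Adj v (W (b + e + 1)))
    (h3 : G.Adj (W (b + e + 1 + f)) (W (b + e))) (hpos : 1 ≤ e + f) :
    Cyc G σ (cs σ W v b + cs σ W v (b + e + 1) +
      (σ s(W (b + e + 1 + f), W (b + e)) + phi σ W 0 (b + e + 1 + f) + phi σ W 0 (b + e)))
      ((seg W b (e + 1)).reverse ++ (v :: seg W (b + e + 1) (f + 1))) := by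
  have hr : (seg W b (e + 1)).reverse.head? = some (W (b + e)) := by
    rw [List.head?_reverse, seg_last]
  have hr2 : (seg W b (e + 1)).reverse.getLast? = some (W b) := by
    rw [List.getLast?_reverse, seg_head]
  have hl2 : (v :: seg W (b + e + 1) (f + 1)).getLast? = some (W (b + e + 1 + f)) := by
    rw [List.getLast?_cons, seg_last]; rfl
  refine ⟨?_, ?_, ?_, W (b + e), W (b + e + 1 + f), ?_, ?_, h3, ?_⟩
  · rw [List.nodup_append, List.nodup_cons]
    refine ⟨List.nodup_reverse.2 (hW.seg_nodup _ _ (by omega)), ⟨fun h => ?_,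
      (hW.seg_nodup _ _ (by omega))⟩, ?_⟩
    · obtain ⟨k, _, hk⟩ := mem_seg.1 h
      exact hv _ hk
    · intro x hx y hy hxy
      rw [List.mem_reverse] at hx
      obtain ⟨k, hk1, hk⟩ := mem_seg.1 hx
      rcases List.mem_cons.1 hy with hy | hy
      · exact hv _ (hk.trans (hxy.trans hy))
      · obtain ⟨k', hk1', hk'⟩ := mem_seg.1 hy
        exact hW.ne (a := b + k) (b := b + e + 1 + k') (by omega) (by omega)
          (by rw [hk, hk']; exact hxy)
  · rw [List.isChain_append]
    refine ⟨?_, ?_, ?_⟩
    · rw [List.isChain_reverse]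
      exact (seg_chain hW.adj _ _).imp fun a b hab => hab.symm
    · rw [List.isChain_cons]
      refine ⟨fun y hy => ?_, seg_chain hW.adj _ _⟩
      rw [seg_head, Option.mem_def, Option.some.injEq] at hy
      subst hy; exact h2
    · intro x hx y hy
      rw [hr2, Option.mem_def, Option.some.injEq] at hx
      rw [List.head?_cons, Option.mem_def, Option.some.injEq] at hy
      subst hx; subst hy
      exact h1.symm
  · rw [List.length_append, List.length_cons, List.length_reverse, seg_length, seg_length]; omega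
  · rw [List.head?_append, hr]; rfl
  · rw [List.getLast?_append, hl2]; rfl
  · have e1 : v :: seg W (b + e + 1) (f + 1) = [v] ++ seg W (b + e + 1) (f + 1) := rfl
    rw [ls_append σ hr2 (b := v) rfl, e1,
      ls_append σ (a := v) rfl (seg_head _ _ _), ls_reverse, ls_seg σ W 0, ls_seg σ W 0, ls_single]
    unfold cs
    rw [Sym2.eq_swap (a := W b) (b := v)]
    ring

end fan

section low1

variable [Fintype V] [DecidableEq V] [DecidableRel G.Adj]

/-- neighbours of the missed vertex form an interval -/
theorem interval_nbrs {σ : Sym2 V → ZMod 2} {d : ℕ} (hd : 3 ≤ d) (hn : Fintype.card V = 2 * d)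
    (hdeg : ∀ v, d ≤ G.degree v) (hU : Uni G (2 * d - 1) σ 1)
    (hmax : ∀ l, Cyc G σ 0 l → l.length ≤ d + 1) {W : ℕ → V} (hW : Rim G (2 * d - 1) W) {v : V}
    (hv : ∀ k, W k ≠ v) :
    (∀ x j, 0 < j → j < 2 * d - 1 → G.Adj v (W x) → G.Adj v (W (x + j)) → j ≤ d - 1 →
      cs σ W v x + cs σ W v (x + j) = 0) ∧
    ∃ y, ∀ k, k < 2 * d - 1 → (G.Adj v (W (y + k)) ↔ k < d) := by
  classical
  have htot : phi σ W 0 (2 * d - 1) = 1 := by
    have := rim_total hW le_rfl hU 0
    rwa [add_zero] at this
  have hcs : ∀ z k, cs σ W z (k + (2 * d - 1)) = cs σ W z k + 1 := by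
    intro z k
    unfold cs
    rw [phi_per hW, htot, hW.per]
    ring
  have hper : ∀ k, G.Adj v (W (k + (2 * d - 1))) ↔ G.Adj v (W k) := by intro k; rw [hW.per]
  have hone : (1 : ZMod 2) + 1 = 0 := by decide
  have hF : ∀ x j, 0 < j → j < 2 * d - 1 → G.Adj v (W x) → G.Adj v (W (x + j)) → j ≤ d - 1 →
      cs σ W v x + cs σ W v (x + j) = 0 := by
    intro x j hj0 hjc h1 h2 hjd
    by_contra hne
    have h3 := fl_one hne
    -- the other fan cycle
    have h4 := fan_cyc (σ := σ) hW hv (x := x + j) (j := 2 * d - 1 - j) (by omega) (by omega) h2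
      (by rw [show x + j + (2 * d - 1 - j) = x + (2 * d - 1) by omega, hper]; exact h1)
    rw [show x + j + (2 * d - 1 - j) = x + (2 * d - 1) by omega, hcs] at h4
    have h5 : cs σ W v (x + j) + (cs σ W v x + 1) = 0 := by linear_combination h3 + hone
    rw [h5] at h4
    have := hmax _ h4
    rw [List.length_cons, seg_length] at this
    omega
  refine ⟨hF, ?_⟩
  -- degree
  have hdv : d ≤ snum (2 * d - 1) (fun k => G.Adj v (W k)) := by
    have h1 := degree_le hW v ∅ (fun z hz hz' => by
      exfalso
      have := (card_off hW [v, z] (by simp [hz.ne]) (by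
        intro y hy
        simp only [List.mem_cons, List.not_mem_nil, or_false] at hy
        rcases hy with rfl | rfl
        · exact hv
        · exact hz')).1
      simp only [List.length_cons, List.length_nil] at this
      omega)
    simp only [Finset.filter_empty, Finset.card_empty, Nat.add_zero] at h1
    exact (hdeg v).trans h1
  obtain ⟨k0, hk0⟩ := exists_of_snum_pos (c := 2 * d - 1) (A := fun k => G.Adj v (W k)) (by omega)
  -- a long gap
  obtain ⟨x, g, hg0, hgc, hx, hxg, hfree, hgd⟩ : ∃ x g, 0 < g ∧ g ≤ 2 * d - 1 ∧ G.Adj v (W x) ∧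
      G.Adj v (W (x + g)) ∧ (∀ j, 0 < j → j < g → ¬ G.Adj v (W (x + j))) ∧ d ≤ g := by
    by_contra hcon
    push Not at hcon
    have hstep : ∀ j, G.Adj v (W (k0 + j)) → cs σ W v k0 + cs σ W v (k0 + j) = 0 := by
      intro j
      induction j using Nat.strong_induction_on with
      | _ j ih =>
        intro hj
        rcases Nat.eq_zero_or_pos j with h0 | h0
        · rw [h0, Nat.add_zero, two_self]
        · have hex : ∃ i, i < j ∧ G.Adj v (W (k0 + (j - 1 - i))) :=
            ⟨j - 1, by omega, by simpa using hk0⟩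
          obtain ⟨i, ⟨hi1, hi2⟩, himin⟩ : ∃ i, (i < j ∧ G.Adj v (W (k0 + (j - 1 - i)))) ∧
              ∀ i', i' < i → ¬ (i' < j ∧ G.Adj v (W (k0 + (j - 1 - i')))) :=
            ⟨Nat.find hex, Nat.find_spec hex, fun k hk => Nat.find_min hex hk⟩
          obtain ⟨g, hg0, hgc, hgU, hgf⟩ := next_exists (c := 2 * d - 1)
            (U := fun k => G.Adj v (W k)) (by omega) hper ⟨k0, hk0⟩ (k0 + (j - 1 - i))
          have hgi : g = i + 1 := by
            rcases Nat.lt_trichotomy g (i + 1) with h | h | h
            · exfalso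
              refine himin (i - g) (by omega) ⟨by omega, ?_⟩
              have e : k0 + (j - 1 - (i - g)) = k0 + (j - 1 - i) + g := by omega
              rw [e]; exact hgU
            · exact h
            · exfalso
              refine hgf (i + 1) (by omega) h ?_
              have e : k0 + (j - 1 - i) + (i + 1) = k0 + j := by omega
              change G.Adj v (W (k0 + (j - 1 - i) + (i + 1)))
              rw [e]; exact hj
          have h1 := hcon _ g hg0 hgc hi2 hgU hgf
          have h2 := hF _ g hg0 (by omega) hi2 hgU (by omega)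
          have h3 := ih (j - 1 - i) (by omega) hi2
          rw [show k0 + (j - 1 - i) + g = k0 + j by omega] at h2
          have := two_self (cs σ W v (k0 + (j - 1 - i)))
          linear_combination h2 + h3 - this
    have h1 := hstep (2 * d - 1) (by rw [hper]; exact hk0)
    rw [hcs] at h1
    have := two_self (cs σ W v k0)
    have h2 : (1 : ZMod 2) = 0 := by linear_combination h1 - this
    exact absurd h2 (by decide)
  -- everything outside the gap is a neighbour
  have hcnt : lcount (fun k => G.Adj v (W k)) (x + 1) (2 * d - 1) =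
      snum (2 * d - 1) (fun k => G.Adj v (W k)) := lcount_period hper _
  have hsplit : 2 * d - 1 = (g - 1) + (2 * d - g) := by omega
  have hcnt2 : lcount (fun k => G.Adj v (W k)) (x + 1) (2 * d - 1) =
      lcount (fun k => G.Adj v (W k)) (x + g) (2 * d - g) := by
    conv_lhs => rw [hsplit]
    rw [lcount_add, lcount_eq_zero (p := x + 1) (m := g - 1) (fun j hj => by
      rw [Nat.add_assoc]; exact hfree (1 + j) (by omega) (by omega)),
      show x + 1 + (g - 1) = x + g by omega, Nat.zero_add]
  have hle := lcount_le (fun k => G.Adj v (W k)) (x + g) (2 * d - g)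
  have hgeq : g = d := by omega
  subst hgeq
  have hfull : ∀ k, k < g → G.Adj v (W (x + g + k)) := by
    intro k hk
    exact lcount_full (A := fun k => G.Adj v (W k)) (p := x + g) (m := 2 * g - g) (by omega) k
      (by omega)
  refine ⟨x + g, fun k hk => ⟨fun h => ?_, fun h => hfull k h⟩⟩
  by_contra hlt
  push Not at hlt
  refine hfree (k + 1 - g) (by omega) (by omega) ?_
  have e : x + g + k = x + (k + 1 - g) + (2 * g - 1) := by omega
  rw [e, hper] at h
  exact h

/-- the total sign of the missing-vertex rim is one: contradiction with short sign-zero cycles -/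
theorem low1 {σ : Sym2 V → ZMod 2} {d : ℕ} (hd : 3 ≤ d) (hn : Fintype.card V = 2 * d)
    (hdeg : ∀ v, d ≤ G.degree v) (hU : Uni G (2 * d - 1) σ 1)
    (hmax : ∀ l, Cyc G σ 0 l → l.length ≤ d + 1)
    (h3 : ∀ S : Finset V, S.card ≤ 2 → (G.induce ((↑S : Set V)ᶜ)).Connected)
    {W0 : ℕ → V} (hW0 : Rim G (2 * d - 1) W0) : False := by
  classical
  -- the missed vertex
  obtain ⟨v, hv0⟩ : ∃ v, ∀ k, W0 k ≠ v := by
    by_contra hcon
    push Not at hcon
    have h1 : (Finset.univ : Finset V) ⊆ (Finset.range (2 * d - 1)).image W0 := by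
      intro z _
      obtain ⟨k, hk⟩ := hcon z
      rw [Finset.mem_image]
      refine ⟨k % (2 * d - 1), Finset.mem_range.2 (Nat.mod_lt _ (by omega)), ?_⟩
      rw [← hW0.modeq, hk]
    have h2 := Finset.card_le_card h1
    have h4 := Finset.card_image_le (s := Finset.range (2 * d - 1)) (f := W0)
    rw [Finset.card_univ, hn] at h2
    rw [Finset.card_range] at h4
    omega
  obtain ⟨_, y, hy⟩ := interval_nbrs hd hn hdeg hU hmax hW0 hv0
  -- shift
  obtain ⟨W, hWdef⟩ : ∃ W : ℕ → V, W = fun k => W0 (k + (y + (2 * d - 1) - 1)) := ⟨_, rfl⟩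
  have hW : Rim G (2 * d - 1) W := by rw [hWdef]; exact hW0.shift _
  have hv : ∀ k, W k ≠ v := by intro k; rw [hWdef]; exact hv0 _
  have hN : ∀ k, 1 ≤ k → k ≤ 2 * d - 1 → (G.Adj v (W k) ↔ k ≤ d) := by
    intro k hk1 hk2
    have e : W k = W0 (y + (k - 1)) := by
      rw [hWdef]
      change W0 (k + (y + (2 * d - 1) - 1)) = _
      rw [show k + (y + (2 * d - 1) - 1) = y + (k - 1) + (2 * d - 1) by omega, hW0.per]
    rw [e, hy (k - 1) (by omega)]
    omega
  have hall : ∀ z, z ≠ v → ∃ k, k < 2 * d - 1 ∧ W k = z := by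
    intro z hz
    by_contra hno
    push Not at hno
    have hz' : ∀ k, W k ≠ z := by
      intro k hk
      rw [hW.modeq k] at hk
      exact hno _ (Nat.mod_lt _ (by omega)) hk
    have := (card_off hW [v, z] (by simp [hz.symm]) (by
      intro y hy
      simp only [List.mem_cons, List.not_mem_nil, or_false] at hy
      rcases hy with rfl | rfl
      · exact hv
      · exact hz')).1
    simp only [List.length_cons, List.length_nil] at this
    omega
  have hF := (interval_nbrs hd hn hdeg hU hmax hW hv).1
  -- inner vertices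
  have hin : ∀ i, 2 ≤ i → i ≤ d - 1 → ∀ k, k < 2 * d - 1 → G.Adj (W i) (W k) → 1 ≤ k ∧ k ≤ d := by
    intro i hi1 hi2
    have hvm : G.Adj v (W (i - 1)) := (hN (i - 1) (by omega) (by omega)).2 (by omega)
    have hvp : G.Adj v (W (i + 1)) := (hN (i + 1) (by omega) (by omega)).2 (by omega)
    have hW' := hW.swap hv (p := i) (by omega) (by omega) hvm hvp
    have hoff' := swp_off hW hv (p := i) (by omega)
    obtain ⟨hF', y', hy'⟩ := interval_nbrs hd hn hdeg hU hmax hW' hoff'
    have hsw : ∀ k, k < 2 * d - 1 → k ≠ i → swp W (2 * d - 1) i v k = W k := by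
      intro k hk hki
      exact swp_ne (by rw [Nat.mod_eq_of_lt hk]; exact hki)
    have hcsl : ∀ k, k < i → cs σ (swp W (2 * d - 1) i v) (W i) k =
        σ s(W i, W k) + phi σ W 0 k := by
      intro k hk
      unfold cs
      rw [phi_swp_lt (by omega) k hk, hsw k (by omega) (by omega)]
    have hcsg : ∀ k, i < k → k < 2 * d - 1 → cs σ (swp W (2 * d - 1) i v) (W i) k =
        σ s(W i, W k) + phi σ W 0 k := by
      intro k hk hk2
      have h5 := hF (i - 1) 2 (by omega) (by omega) hvm
        (by rw [show i - 1 + 2 = i + 1 by omega]; exact hvp) (by omega)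
      rw [show i - 1 + 2 = i + 1 by omega] at h5
      unfold cs
      rw [phi_swp_gt (by omega) (by omega) k hk (by omega), hsw k (by omega) (by omega)]
      linear_combination h5
    -- the two forbidden chords
    have hno0 : ¬ G.Adj (W i) (W 0) := by
      intro hadj
      obtain ⟨q, rfl⟩ : ∃ q, i = q + 2 := ⟨i - 2, by omega⟩
      obtain ⟨e, he⟩ : ∃ e, d = q + 2 + e := ⟨d - (q + 2), by omega⟩
      have h6 := rot_cyc (σ := σ) hW hv (b := 0) (i := q + 1) (e := e) (by omega)
        (by simpa using hvm) (by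
          rw [show 0 + (q + 1) + 1 + e = d by omega]
          exact (hN d (by omega) (by omega)).2 le_rfl)
        (by rw [show 0 + (q + 1) + 1 = q + 2 by omega]; exact hadj) (by omega)
      have h7 := hF' 0 (q + 1) (by omega) (by omega)
        (by rw [hsw 0 (by omega) (by omega)]; exact hadj)
        (by rw [Nat.zero_add, hsw (q + 1) (by omega) (by omega)]; exact (hW.adj (q + 1)).symm)
        (by omega)
      rw [Nat.zero_add, hcsl 0 (by omega), hcsl (q + 1) (by omega)] at h7
      have h8 := hF (q + 1) (1 + e) (by omega) (by omega) (by simpa using hvm) (by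
        rw [show q + 1 + (1 + e) = d by omega]
        exact (hN d (by omega) (by omega)).2 le_rfl) (by omega)
      have h9 : cs σ W v (0 + (q + 1)) + cs σ W v (0 + (q + 1) + 1 + e) +
          (σ s(W (0 + (q + 1) + 1), W 0) + phi σ W 0 (0 + (q + 1) + 1) + phi σ W 0 0) = 0 := by
        rw [show 0 + (q + 1) + 1 + e = q + 1 + (1 + e) by omega,
          show 0 + (q + 1) + 1 = q + 2 by omega, show 0 + (q + 1) = q + 1 by omega]
        have e2 : phi σ W 0 (q + 2) = phi σ W 0 (q + 1) + σ s(W (q + 1), W (q + 2)) := rfl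
        rw [e2]
        rw [Sym2.eq_swap (a := W (q + 2)) (b := W (q + 1))] at h7
        linear_combination h8 + h7
      rw [h9] at h6
      have := hmax _ h6
      rw [List.length_append, List.length_cons, List.length_reverse, seg_length, seg_length] at this
      omega
    have hnod : ¬ G.Adj (W i) (W (d + 1)) := by
      intro hadj
      obtain ⟨q, rfl⟩ : ∃ q, i = q + 2 := ⟨i - 2, by omega⟩
      obtain ⟨f, hf⟩ : ∃ f, d = q + 2 + f + 1 := ⟨d - (q + 2) - 1, by omega⟩
      have h6 := rot_cyc' (σ := σ) hW hv (b := 1) (e := q + 1) (f := f + 1) (by omega)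
        ((hN 1 (by omega) (by omega)).2 (by omega)) (by
          rw [show 1 + (q + 1) + 1 = q + 2 + 1 by omega]
          exact hvp)
        (by rw [show 1 + (q + 1) + 1 + (f + 1) = d + 1 by omega,
              show 1 + (q + 1) = q + 2 by omega]; exact hadj.symm) (by omega)
      have h7 := hF' (q + 2 + 1) (f + 1) (by omega) (by omega)
        (by rw [hsw _ (by omega) (by omega)]; exact hW.adj _)
        (by rw [show q + 2 + 1 + (f + 1) = d + 1 by omega, hsw _ (by omega) (by omega)]
            exact hadj)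
        (by omega)
      rw [show q + 2 + 1 + (f + 1) = d + 1 by omega, hcsg _ (by omega) (by omega),
        hcsg _ (by omega) (by omega)] at h7
      have h8 := hF 1 (q + 2) (by omega) (by omega) ((hN 1 (by omega) (by omega)).2 (by omega)) (by
        rw [show 1 + (q + 2) = q + 2 + 1 by omega]
        exact hvp) (by omega)
      have h9 : cs σ W v 1 + cs σ W v (1 + (q + 1) + 1) +
          (σ s(W (1 + (q + 1) + 1 + (f + 1)), W (1 + (q + 1))) +
            phi σ W 0 (1 + (q + 1) + 1 + (f + 1)) + phi σ W 0 (1 + (q + 1))) = 0 := by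
        rw [show 1 + (q + 1) + 1 + (f + 1) = d + 1 by omega,
          show 1 + (q + 1) + 1 = 1 + (q + 2) by omega, show 1 + (q + 1) = q + 2 by omega]
        have e2 : phi σ W 0 (q + 2 + 1) = phi σ W 0 (q + 2) + σ s(W (q + 2), W (q + 2 + 1)) := rfl
        rw [e2] at h7
        rw [Sym2.eq_swap (a := W (d + 1)) (b := W (q + 2))]
        have t1 := two_self (σ s(W (q + 2), W (q + 2 + 1)))
        linear_combination h8 + h7 - t1
      rw [h9] at h6
      have := hmax _ h6
      rw [List.length_append, List.length_cons, List.length_reverse, seg_length, seg_length] at this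
      omega
    -- the interval of neighbours
    have hmodW : ∀ k, swp W (2 * d - 1) i v (y' + k) =
        swp W (2 * d - 1) i v (y' % (2 * d - 1) + k) := by
      intro k
      conv_lhs => rw [← Nat.mod_add_div y' (2 * d - 1), Nat.mul_comm (2 * d - 1)]
      have := hW'.mul (y' / (2 * d - 1)) (y' % (2 * d - 1) + k)
      rw [← this]
      congr 1
      ring
    have hyc := Nat.mod_lt y' (show 0 < 2 * d - 1 by omega)
    set z := y' % (2 * d - 1) with hz
    have hy'' : ∀ k, k < 2 * d - 1 → (G.Adj (W i) (swp W (2 * d - 1) i v (z + k)) ↔ k < d) := by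
      intro k hk
      rw [← hmodW, hy' k hk]
    have hvi : G.Adj (W i) v := ((hN i (by omega) (by omega)).2 (by omega)).symm
    -- position of i
    have hzi : z ≤ i := by
      by_contra hlt
      push Not at hlt
      -- c = 2d-1 lies in the interval unless it does not reach
      have h6 := hy'' (2 * d - 1 + i - z) (by omega)
      rw [show z + (2 * d - 1 + i - z) = i + (2 * d - 1) by omega, hW'.per,
        swp_eq (Nat.mod_eq_of_lt (by omega))] at h6
      have h7 := h6.1 hvi
      have h8 := hy'' (2 * d - 1 - z) (by omega)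
      rw [show z + (2 * d - 1 - z) = 0 + (2 * d - 1) by omega, hW'.per,
        hsw 0 (by omega) (by omega)] at h8
      exact hno0 (h8.2 (by omega))
    have hz0 : z ≠ 0 := by
      intro h0
      have h6 := hy'' 0 (by omega)
      rw [h0, hsw 0 (by omega) (by omega)] at h6
      exact hno0 (h6.2 (by omega))
    have hz1 : z = 1 := by
      by_contra hne
      have h6 := hy'' (d + 1 - z) (by omega)
      rw [show z + (d + 1 - z) = d + 1 by omega, hsw _ (by omega) (by omega)] at h6
      exact hnod (h6.2 (by omega))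
    intro k hk hadj
    have hki : k ≠ i := by rintro rfl; exact G.loopless.irrefl _ hadj
    have hk0 : k ≠ 0 := by rintro rfl; exact hno0 hadj
    have h6 := hy'' (k - 1) (by omega)
    rw [hz1, show 1 + (k - 1) = k by omega, hsw k hk hki] at h6
    have := h6.1 hadj
    omega
  -- the separator
  have hinj : ∀ a b, a < 2 * d - 1 → b < 2 * d - 1 → W a = W b → a = b := hW.inj
  obtain ⟨a, b, ha, hb, hPa, hPb, hab⟩ := cut_edge h3 (S := {W 1, W d}) (Finset.card_le_two)
    (P := fun z => z = v ∨ ∃ k, 2 ≤ k ∧ k ≤ d - 1 ∧ W k = z) (x := v) (y := W 0)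
    (by
      rw [Finset.mem_insert, Finset.mem_singleton, not_or]
      exact ⟨fun h => hv _ h.symm, fun h => hv _ h.symm⟩)
    (by
      rw [Finset.mem_insert, Finset.mem_singleton, not_or]
      refine ⟨fun h => ?_, fun h => ?_⟩
      · have := hinj _ _ (by omega) (by omega) h; omega
      · have := hinj _ _ (by omega) (by omega) h; omega)
    (Or.inl rfl)
    (by
      rintro (h | ⟨k, hk1, hk2, hk⟩)
      · exact hv _ h
      · have := hinj _ _ (by omega) (by omega) hk; omega)
  rw [Finset.mem_insert, Finset.mem_singleton, not_or] at hb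
  have hbv : b ≠ v := fun h => hPb (Or.inl h)
  obtain ⟨k, hk, rfl⟩ := hall b hbv
  have hk' : 1 ≤ k ∧ k ≤ d := by
    rcases hPa with rfl | ⟨i, hi1, hi2, rfl⟩
    · rcases Nat.eq_zero_or_pos k with h0 | h0
      · exfalso
        have h6 := hN (2 * d - 1) (by omega) le_rfl
        have h7 := hW.per 0
        rw [Nat.zero_add] at h7
        rw [h7] at h6
        rw [h0] at hab
        have := h6.1 hab
        omega
      · exact ⟨h0, (hN k h0 (by omega)).1 hab⟩
    · exact hin i hi1 hi2 k hk hab
  apply hPb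
  right
  have h1 : k ≠ 1 := fun h => hb.1 (by rw [h])
  have h2 : k ≠ d := fun h => hb.2 (by rw [h])
  exact ⟨k, by omega, by omega, rfl⟩

end low1

end Run7.h807
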