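import Mathlib
import Pool.Agent.Run7.h807.Low1

set_option autoImplicit false

namespace Run7.h807

variable {V : Type*} {G : SimpleGraph V}

theorem snum_le_card {n : ℕ} {A : ℕ → Prop} (F : Finset ℕ) (h : ∀ k, k < n → A k → k ∈ F) :
    snum n A ≤ F.card := by
  classical
  unfold snum
  refine Finset.card_le_card fun k hk => ?_
  rw [Finset.mem_filter, Finset.mem_Ico] at hk
  exact h k hk.1.2 hk.2

/-- sign of a chord relative to the rim potential -/
def qs (σ : Sym2 V → ZMod 2) (Z : ℕ → V) (i j : ℕ) : ZMod 2 :=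
  σ s(Z i, Z j) + phi σ Z 0 i + phi σ Z 0 j

theorem seg_cyc {σ : Sym2 V → ZMod 2} {c : ℕ} {Z : ℕ → V} (hZ : Rim G c Z) {i j : ℕ}
    (hj : 2 ≤ j) (hjc : j < c) (hadj : G.Adj (Z i) (Z (i + j))) :
    Cyc G σ (qs σ Z i (i + j)) (seg Z i (j + 1)) := by
  refine ⟨hZ.seg_nodup _ _ (by omega), seg_chain hZ.adj _ _, by rw [seg_length]; omega,
    Z i, Z (i + j), seg_head _ _ _, seg_last _ _ _, hadj.symm, ?_⟩
  rw [ls_seg σ Z 0, Sym2.eq_swap]
  unfold qs
  ring

/-- crossing chords: first rotation -/
theorem cross_cyc {σ : Sym2 V → ZMod 2} {c : ℕ} {Z : ℕ → V} (hZ : Rim G c Z) {a p e f : ℕ}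
    (hc : p + 1 + e + 1 + f ≤ c) (h1 : G.Adj (Z a) (Z (a + p + 1 + e)))
    (h2 : G.Adj (Z (a + p)) (Z (a + p + 1 + e + f))) (hpos : 1 ≤ p + f) :
    Cyc G σ (qs σ Z a (a + p + 1 + e) + qs σ Z (a + p) (a + p + 1 + e + f))
      (seg Z a (p + 1) ++ (seg Z (a + p + 1 + e) (f + 1)).reverse) := by
  have hr : (seg Z (a + p + 1 + e) (f + 1)).reverse.head? = some (Z (a + p + 1 + e + f)) := by
    rw [List.head?_reverse, seg_last]
  have hr2 : (seg Z (a + p + 1 + e) (f + 1)).reverse.getLast? = some (Z (a + p + 1 + e)) := by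
    rw [List.getLast?_reverse, seg_head]
  refine ⟨?_, ?_, ?_, Z a, Z (a + p + 1 + e), ?_, ?_, h1.symm, ?_⟩
  · rw [List.nodup_append]
    refine ⟨hZ.seg_nodup _ _ (by omega), List.nodup_reverse.2 (hZ.seg_nodup _ _ (by omega)), ?_⟩
    intro x hx y hy hxy
    rw [List.mem_reverse] at hy
    obtain ⟨k, hk1, hk⟩ := mem_seg.1 hx
    obtain ⟨k', hk1', hk'⟩ := mem_seg.1 hy
    exact hZ.ne (a := a + k) (b := a + p + 1 + e + k') (by omega) (by omega)
      (by rw [hk, hk']; exact hxy)
  · rw [List.isChain_append]
    refine ⟨seg_chain hZ.adj _ _, ?_, ?_⟩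
    · rw [List.isChain_reverse]
      exact (seg_chain hZ.adj _ _).imp fun a b hab => hab.symm
    · intro x hx y hy
      rw [seg_last, Option.mem_def, Option.some.injEq] at hx
      rw [hr, Option.mem_def, Option.some.injEq] at hy
      subst hx; subst hy
      exact h2
  · rw [List.length_append, List.length_reverse, seg_length, seg_length]; omega
  · rw [List.head?_append, seg_head]; rfl
  · rw [List.getLast?_append, hr2]; rfl
  · rw [ls_append σ (seg_last Z a p) hr, ls_reverse, ls_seg σ Z 0, ls_seg σ Z 0,
      Sym2.eq_swap (a := Z (a + p + 1 + e)) (b := Z a)]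
    unfold qs
    ring

section low0

variable {σ : Sym2 V → ZMod 2} {d : ℕ} {Z : ℕ → V}

theorem qs_per (hZ : Rim G (2 * d) Z) (htot : phi σ Z 0 (2 * d) = 0) (i j : ℕ) :
    qs σ Z (i + 2 * d) j = qs σ Z i j ∧ qs σ Z i (j + 2 * d) = qs σ Z i j := by
  unfold qs
  rw [hZ.per, hZ.per, phi_per hZ, phi_per hZ, htot]
  constructor <;> ring

theorem qs_symm (i j : ℕ) : qs σ Z i j = qs σ Z j i := by
  unfold qs
  rw [Sym2.eq_swap]
  ring

/-- negative chords are antipodal -/
theorem neg_anti (hZ : Rim G (2 * d) Z) (htot : phi σ Z 0 (2 * d) = 0)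
    (hmax : ∀ l, Cyc G σ 1 l → l.length ≤ d + 1) {i j : ℕ} (hj0 : 0 < j) (hj : j < 2 * d)
    (hadj : G.Adj (Z i) (Z (i + j))) (hq : qs σ Z i (i + j) = 1) : j = d := by
  have hone : ∀ i, qs σ Z i (i + 1) = 0 := by
    intro i
    unfold qs
    change σ s(Z i, Z (i + 1)) + phi σ Z 0 i + (phi σ Z 0 i + σ s(Z i, Z (i + 1))) = 0
    have t1 := two_self (σ s(Z i, Z (i + 1)))
    have t2 := two_self (phi σ Z 0 i)
    linear_combination t1 + t2
  have h1 : j ≠ 1 := by
    rintro rfl
    rw [hone] at hq
    exact absurd hq (by decide)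
  have h2 : j + 1 ≠ 2 * d := by
    intro h
    have h5 := hone (i + j)
    rw [show i + j + 1 = i + 2 * d by omega, (qs_per hZ htot _ _).2, qs_symm, hq] at h5
    exact absurd h5 (by decide)
  have h3 := seg_cyc (σ := σ) hZ (by omega) hj hadj
  rw [hq] at h3
  have h4 := hmax _ h3
  rw [seg_length] at h4
  have h5 := seg_cyc (σ := σ) hZ (i := i + j) (j := 2 * d - j) (by omega) (by omega)
    (by rw [show i + j + (2 * d - j) = i + 2 * d by omega, hZ.per]; exact hadj.symm)
  rw [show i + j + (2 * d - j) = i + 2 * d by omega, (qs_per hZ htot _ _).2, qs_symm, hq] at h5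
  have h6 := hmax _ h5
  rw [seg_length] at h6
  omega

/-- a chord crossing a negative chord is negative -/
theorem cross_neg (hZ : Rim G (2 * d) Z) (htot : phi σ Z 0 (2 * d) = 0)
    (hmax : ∀ l, Cyc G σ 1 l → l.length ≤ d + 1) {a p r : ℕ} (hadj : G.Adj (Z a) (Z (a + d)))
    (hq : qs σ Z a (a + d) = 1) (h1 : a < p) (h2 : p < a + d) (h3 : a + d < r)
    (h4 : r < a + 2 * d) (hpr : G.Adj (Z p) (Z r)) : r = p + d := by
  by_cases hq2 : qs σ Z p r = 1
  · obtain ⟨j, rfl⟩ : ∃ j, r = p + j := ⟨r - p, by omega⟩
    rw [neg_anti hZ htot hmax (by omega) (by omega) hpr hq2]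
  · exfalso
    have hq3 : qs σ Z p r = 0 := (zmod2_cases _).resolve_right hq2
    obtain ⟨i, rfl⟩ : ∃ i, p = a + i := ⟨p - a, by omega⟩
    obtain ⟨e, he⟩ : ∃ e, d = i + 1 + e := ⟨d - i - 1, by omega⟩
    obtain ⟨f, hf⟩ : ∃ f, r = a + d + f := ⟨r - a - d, by omega⟩
    have e1 : a + i + 1 + e = a + d := by omega
    have e2 : a + i + 1 + e + f = r := by omega
    have h5 := cross_cyc (σ := σ) hZ (a := a) (p := i) (e := e) (f := f) (by omega)
      (by rw [e1]; exact hadj) (by rw [e2]; exact hpr) (by omega)
    rw [e1, ← hf, hq, hq3, add_zero] at h5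
    have h6 := hmax _ h5
    rw [List.length_append, List.length_reverse, seg_length, seg_length] at h6
    -- the other rotation
    obtain ⟨g, hg⟩ : ∃ g, r + 1 + g = a + 2 * d := ⟨a + 2 * d - r - 1, by omega⟩
    have e3 : a + i + (e + 1) = a + d := by omega
    have e4 : a + i + (e + 1) + 1 + (f - 1) = r := by omega
    have e5 : a + i + (e + 1) + 1 + (f - 1) + (g + 1) = a + 2 * d := by omega
    have h7 := cross_cyc (σ := σ) hZ (a := a + i) (p := e + 1) (e := f - 1) (f := g + 1)
      (by omega) (by rw [e4]; exact hpr)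
      (by rw [e5, e3, hZ.per]; exact hadj.symm) (by omega)
    rw [e4, e3, show r + (g + 1) = a + 2 * d by omega, hq3, (qs_per hZ htot _ _).2, qs_symm, hq,
      zero_add] at h7
    have h8 := hmax _ h7
    rw [List.length_append, List.length_reverse, seg_length, seg_length] at h8
    omega

variable [Fintype V] [DecidableEq V] [DecidableRel G.Adj]

/-- the Hamilton rim is balanced -/
theorem low0 (hd : 3 ≤ d) (hn : Fintype.card V = 2 * d)
    (hdeg : ∀ v, d ≤ G.degree v) (hU : Uni G (2 * d - 1) σ 0)
    (hmax : ∀ l, Cyc G σ 1 l → l.length ≤ d + 1)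
    (h3 : ∀ S : Finset V, S.card ≤ 2 → (G.induce ((↑S : Set V)ᶜ)).Connected)
    (hZ : Rim G (2 * d) Z) :
    (∃ π : V → ZMod 2, ∀ x y, G.Adj x y → σ s(x, y) = π x + π y) ∨
      ∃ I : Finset V, I.card = d ∧ ∀ x ∈ I, ∀ y, y ∉ I → G.Adj x y := by
  classical
  have htot0 : phi σ Z 0 (2 * d) = 0 := by
    have := rim_total hZ (by omega) hU 0
    rwa [add_zero] at this
  by_cases hneg : ∃ a j, 0 < j ∧ j < 2 * d ∧ G.Adj (Z a) (Z (a + j)) ∧ qs σ Z a (a + j) = 1
  swap
  · left
    push Not at hneg
    have hq0 : ∀ i j, i < 2 * d → j < 2 * d → G.Adj (Z i) (Z j) → qs σ Z i j = 0 := by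
      intro i j hi hj hadj
      rcases Nat.lt_trichotomy i j with h | h | h
      · obtain ⟨r, rfl⟩ : ∃ r, j = i + r := ⟨j - i, by omega⟩
        exact (zmod2_cases _).resolve_right (hneg i r (by omega) (by omega) hadj)
      · rw [h] at hadj
        exact absurd hadj (G.loopless.irrefl _)
      · obtain ⟨r, rfl⟩ : ∃ r, i = j + r := ⟨i - j, by omega⟩
        rw [qs_symm]
        exact (zmod2_cases _).resolve_right (hneg j r (by omega) (by omega) hadj.symm)
    choose pos hpos1 hpos2 using fun v => ham_all (G := G) hn.symm hZ v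
    refine ⟨fun v => phi σ Z 0 (pos v), fun x y hxy => ?_⟩
    have h5 := hq0 (pos x) (pos y) (hpos1 x) (hpos1 y) (by rw [hpos2, hpos2]; exact hxy)
    unfold qs at h5
    rw [hpos2, hpos2] at h5
    have t1 := two_self (phi σ Z 0 (pos x))
    have t2 := two_self (phi σ Z 0 (pos y))
    linear_combination h5 - t1 - t2
  · right
    obtain ⟨a, j, hj0, hj, hadj, hq⟩ := hneg
    have hjd := neg_anti hZ htot0 hmax hj0 hj hadj hq
    subst hjd
    -- shift to position zero
    obtain ⟨Y, hYdef⟩ : ∃ Y : ℕ → V, Y = fun k => Z (k + a) := ⟨_, rfl⟩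
    have hY : Rim G (2 * j) Y := by rw [hYdef]; exact hZ.shift a
    have hYs : ∀ p r, qs σ Y p r = qs σ Z (p + a) (r + a) := by
      intro p r
      unfold qs
      rw [hYdef, phi_shift, phi_shift]
      have := two_self (phi σ Z 0 a)
      linear_combination this
    have htot : phi σ Y 0 (2 * j) = 0 := by
      have := rim_total hY (by omega) hU 0
      rwa [add_zero] at this
    have hadj0 : G.Adj (Y 0) (Y (0 + j)) := by
      rw [hYdef]
      change G.Adj (Z (0 + a)) (Z (0 + j + a))
      rw [show 0 + a = a by omega, show 0 + j + a = a + j by omega]; exact hadj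
    have hq0 : qs σ Y 0 (0 + j) = 1 := by
      rw [hYs, show 0 + a = a by omega, show 0 + j + a = a + j by omega]; exact hq
    have hcr : ∀ p r, 0 < p → p < j → j < r → r < 2 * j → G.Adj (Y p) (Y r) → r = p + j :=
      fun p r h1 h2 h4 h5 h6 => cross_neg hY htot hmax hadj0 hq0 (by omega) (by omega) (by omega)
        (by omega) h6
    have hcrq : ∀ p, 0 < p → p < j → G.Adj (Y p) (Y (p + j)) → qs σ Y p (p + j) = 1 := by
      intro p h1 h2 h4
      by_contra hne
      have hq3 : qs σ Y p (p + j) = 0 := (zmod2_cases _).resolve_right hne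
      -- both rotations
      obtain ⟨e, he⟩ : ∃ e, j = p + 1 + e := ⟨j - p - 1, by omega⟩
      have e1 : 0 + p + 1 + e = 0 + j := by omega
      have e2 : 0 + p + 1 + e + p = p + j := by omega
      have h5 := cross_cyc (σ := σ) hY (a := 0) (p := p) (e := e) (f := p) (by omega)
        (by rw [e1]; exact hadj0) (by rw [e2, Nat.zero_add]; exact h4) (by omega)
      rw [e2, e1, Nat.zero_add p, hq0, hq3, add_zero] at h5
      have h6 := hmax _ h5
      rw [List.length_append, List.length_reverse, seg_length, seg_length] at h6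
      have e3 : p + (e + 1) = 0 + j := by omega
      have e4 : p + (e + 1) + 1 + (p - 1) = p + j := by omega
      have e5 : p + (e + 1) + 1 + (p - 1) + (e + 1) = 0 + 2 * j := by omega
      have h7 := cross_cyc (σ := σ) hY (a := p) (p := e + 1) (e := p - 1) (f := e + 1)
        (by omega) (by rw [e4]; exact h4)
        (by rw [e5, e3, hY.per]; exact hadj0.symm) (by omega)
      rw [e5, e4, e3, hq3, (qs_per hY htot _ _).2, qs_symm, hq0, zero_add] at h7
      have h8 := hmax _ h7
      rw [List.length_append, List.length_reverse, seg_length, seg_length] at h8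
      omega
    have hall : ∀ z, ∃ k, k < 2 * j ∧ Y k = z := fun z => ham_all hn.symm hY z
    have hinj := hY.inj
    -- a second chord
    obtain ⟨x, y, hx, hy, ⟨i, hi1, hi2, rfl⟩, hPy, hxy⟩ := cut_edge h3 (S := {Y 0, Y j})
      (Finset.card_le_two)
      (P := fun z => ∃ k, 0 < k ∧ k < j ∧ Y k = z) (x := Y 1) (y := Y (j + 1))
      (by
        rw [Finset.mem_insert, Finset.mem_singleton, not_or]
        refine ⟨fun h => ?_, fun h => ?_⟩
        · have := hinj _ _ (by omega) (by omega) h; omega
        · have := hinj _ _ (by omega) (by omega) h; omega)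
      (by
        rw [Finset.mem_insert, Finset.mem_singleton, not_or]
        refine ⟨fun h => ?_, fun h => ?_⟩
        · have := hinj _ _ (by omega) (by omega) h; omega
        · have := hinj _ _ (by omega) (by omega) h; omega)
      ⟨1, one_pos, by omega, rfl⟩
      (by
        rintro ⟨k, hk1, hk2, hk⟩
        have := hinj _ _ (by omega) (by omega) hk; omega)
    obtain ⟨r, hr, rfl⟩ := hall y
    rw [Finset.mem_insert, Finset.mem_singleton, not_or] at hy
    have hr0 : r ≠ 0 := fun h => hy.1 (by rw [h])
    have hrj : r ≠ j := fun h => hy.2 (by rw [h])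
    have hrj2 : j < r := by
      by_contra hlt
      exact hPy ⟨r, by omega, by omega, rfl⟩
    have hri := hcr i r hi1 hi2 hrj2 hr hxy
    subst hri
    have hqi := hcrq i hi1 hi2 hxy
    -- all chords from the interval
    have key : ∀ i, 0 < i → i < j → G.Adj (Y i) (Y (i + j)) →
        (∀ k, 0 < k → k < i → G.Adj (Y k) (Y (k + j)) ∧ j ≤ i + 1) ∧
        (∀ k, i < k → k < j → G.Adj (Y k) (Y (k + j))) := by
      intro i hi1 hi2 hadji
      have hqi := hcrq i hi1 hi2 hadji
      constructor
      · intro k hk1 hk2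
        have hin : ∀ r, r < 2 * j → G.Adj (Y k) (Y r) → r = k + j ∨ (r ≤ i ∧ r ≠ k) := by
          intro r hr hkr
          have hrk : r ≠ k := by rintro rfl; exact G.loopless.irrefl _ hkr
          rcases Nat.lt_or_ge j r with h | h
          · exact Or.inl (hcr k r hk1 (by omega) h hr hkr)
          · rcases Nat.lt_or_ge i r with h' | h'
            · exfalso
              have := cross_neg hY htot hmax hadji hqi (p := r) (r := k + 2 * j) (by omega)
                (by omega) (by omega) (by omega) (by rw [hY.per]; exact hkr.symm)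
              omega
            · exact Or.inr ⟨h', hrk⟩
        have hdk := (hdeg (Y k)).trans (ham_degree hn.symm hY (Y k))
        constructor
        · by_contra hno
          have h5 := snum_le_card (n := 2 * j) (A := fun r => G.Adj (Y k) (Y r))
            ((Finset.range (i + 1)).erase k) (fun r hr hkr => by
              rcases hin r hr hkr with h | h
              · exact absurd (h ▸ hkr) hno
              · rw [Finset.mem_erase, Finset.mem_range]; exact ⟨h.2, by omega⟩)
          rw [Finset.card_erase_of_mem (Finset.mem_range.2 (by omega)), Finset.card_range] at h5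
          omega
        · have h5 := snum_le_card (n := 2 * j) (A := fun r => G.Adj (Y k) (Y r))
            (insert (k + j) ((Finset.range (i + 1)).erase k)) (fun r hr hkr => by
              rcases hin r hr hkr with h | h
              · rw [h]; exact Finset.mem_insert_self _ _
              · rw [Finset.mem_insert, Finset.mem_erase, Finset.mem_range]
                exact Or.inr ⟨h.2, by omega⟩)
          have h6 := Finset.card_insert_le (k + j) ((Finset.range (i + 1)).erase k)
          rw [Finset.card_erase_of_mem (Finset.mem_range.2 (by omega)), Finset.card_range] at h6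
          omega
      · intro k hk1 hk2
        by_contra hno
        have hin : ∀ r, r < 2 * j → G.Adj (Y k) (Y r) → i ≤ r ∧ r ≤ j ∧ r ≠ k := by
          intro r hr hkr
          have hrk : r ≠ k := by rintro rfl; exact G.loopless.irrefl _ hkr
          rcases Nat.lt_or_ge j r with h | h
          · exact absurd ((hcr k r (by omega) (by omega) h hr hkr) ▸ hkr) hno
          · rcases Nat.lt_or_ge r i with h' | h'
            · exfalso
              have := cross_neg hY htot hmax hadji hqi (p := k) (r := r + 2 * j) (by omega)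
                (by omega) (by omega) (by omega) (by rw [hY.per]; exact hkr)
              omega
            · exact ⟨h', h, hrk⟩
        have hdk := (hdeg (Y k)).trans (ham_degree hn.symm hY (Y k))
        have h5 := snum_le_card (n := 2 * j) (A := fun r => G.Adj (Y k) (Y r))
          ((Finset.Icc i j).erase k) (fun r hr hkr => by
            have := hin r hr hkr
            rw [Finset.mem_erase, Finset.mem_Icc]; exact ⟨this.2.2, this.1, this.2.1⟩)
        rw [Finset.card_erase_of_mem (Finset.mem_Icc.2 ⟨by omega, by omega⟩), Nat.card_Icc] at h5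
        omega
    have hchord : ∀ k, 0 < k → k < j → G.Adj (Y k) (Y (k + j)) := by
      intro k hk1 hk2
      rcases Nat.lt_trichotomy k i with h | h | h
      · exact ((key i hi1 hi2 hxy).1 k hk1 h).1
      · rw [h]; exact hxy
      · exact (key i hi1 hi2 hxy).2 k h hk2
    have hj3 : j = 3 := by
      have := ((key 2 (by omega) (by omega) (hchord 2 (by omega) (by omega))).1 1 one_pos
        (by omega)).2
      omega
    subst hj3
    have a03 : G.Adj (Y 0) (Y 3) := by simpa using hadj0
    have a14 : G.Adj (Y 1) (Y 4) := hchord 1 (by omega) (by omega)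
    have a25 : G.Adj (Y 2) (Y 5) := hchord 2 (by omega) (by omega)
    have a01 := hY.adj 0
    have a12 := hY.adj 1
    have a23 := hY.adj 2
    have a34 := hY.adj 3
    have a45 := hY.adj 4
    have a50 : G.Adj (Y 5) (Y 0) := by
      have := hY.adj 5
      have h6 := hY.per 0
      rw [show 5 + 1 = 0 + 2 * 3 by omega, h6] at this
      exact this
    refine ⟨{Y 0, Y 2, Y 4}, ?_, ?_⟩
    · rw [Finset.card_insert_of_notMem, Finset.card_insert_of_notMem, Finset.card_singleton]
      · rw [Finset.mem_singleton]
        intro h; have := hinj _ _ (by omega) (by omega) h; omega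
      · rw [Finset.mem_insert, Finset.mem_singleton, not_or]
        refine ⟨fun h => ?_, fun h => ?_⟩
        · have := hinj _ _ (by omega) (by omega) h; omega
        · have := hinj _ _ (by omega) (by omega) h; omega
    · intro x hx y hy
      simp only [Finset.mem_insert, Finset.mem_singleton] at hx hy
      push Not at hy
      obtain ⟨k, hk, rfl⟩ := hall y
      have hk1 : k = 1 ∨ k = 3 ∨ k = 5 := by
        have h0 : k ≠ 0 := fun h => hy.1 (by rw [h])
        have h2 : k ≠ 2 := fun h => hy.2.1 (by rw [h])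
        have h4 : k ≠ 4 := fun h => hy.2.2 (by rw [h])
        omega
      rcases hx with rfl | rfl | rfl
      · rcases hk1 with rfl | rfl | rfl
        · exact a01
        · exact a03
        · exact a50.symm
      · rcases hk1 with rfl | rfl | rfl
        · exact a12.symm
        · exact a23
        · exact a25
      · rcases hk1 with rfl | rfl | rfl
        · exact a14.symm
        · exact a34.symm
        · exact a45

end low0

end Run7.h807
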