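import Mathlib
import Pool.Agent.Run7.h807.MA
import Pool.Agent.Run7.h807.Swap
import Pool.Agent.Run7.h807.DiracHam

set_option autoImplicit false

namespace Run7.h807

variable {V : Type*} {G : SimpleGraph V}

/-- the spoke sign relative to both the rim and the ring -/
def gg (σ : Sym2 V → ZMod 2) (X Y : ℕ → V) (i k : ℕ) : ZMod 2 :=
  cs σ X (Y i) k + phi σ Y 0 i

theorem Top.ring {σ : Sym2 V → ZMod 2} {s : ZMod 2} {L r : ℕ} {X Y : ℕ → V}
    (h : Top G σ s L X) (hY : Rim G r Y) (hoff : ∀ i k, X k ≠ Y i) {a m k j : ℕ} (hm : m < r)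
    (hj0 : 0 < j) (hjL : j < L) (h1 : G.Adj (Y a) (X k)) (h2 : G.Adj (Y (a + m)) (X (k + j)))
    (hg : gg σ X Y a k + gg σ X Y (a + m) (k + j) = 0) : m + 2 ≤ j := by
  have := h.one (P := seg Y a (m + 1)) (u := Y a) (w := Y (a + m)) (hY.seg_nodup _ _ (by omega))
    (seg_chain hY.adj _ _) (seg_head _ _ _) (seg_last _ _ _) (by
      intro z hz i
      obtain ⟨q, _, hq⟩ := mem_seg.1 hz
      rw [← hq]; exact hoff _ _) hj0 hjL h1 h2 (by
      rw [ls_seg σ Y 0]
      unfold gg at hg
      linear_combination hg)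
  rw [seg_length] at this
  omega

theorem Top.ring' {σ : Sym2 V → ZMod 2} {s : ZMod 2} {L r : ℕ} {X Y : ℕ → V}
    (h : Top G σ s L X) (hY : Rim G r Y) (hoff : ∀ i k, X k ≠ Y i) {a m k j : ℕ} (hm : m < r)
    (hj0 : 0 < j) (hjL : j < L) (h1 : G.Adj (Y (a + m)) (X k)) (h2 : G.Adj (Y a) (X (k + j)))
    (hg : gg σ X Y (a + m) k + gg σ X Y a (k + j) = 0) : m + 2 ≤ j := by
  have := h.one (P := (seg Y a (m + 1)).reverse) (u := Y (a + m)) (w := Y a)
    (List.nodup_reverse.2 (hY.seg_nodup _ _ (by omega)))
    (chain_rev (seg_chain hY.adj _ _)) (by rw [List.head?_reverse, seg_last])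
    (by rw [List.getLast?_reverse, seg_head]) (by
      intro z hz i
      obtain ⟨q, _, hq⟩ := mem_seg.1 (List.mem_reverse.1 hz)
      rw [← hq]; exact hoff _ _) hj0 hjL h1 h2 (by
      rw [ls_reverse, ls_seg σ Y 0]
      unfold gg at hg
      linear_combination hg)
  rw [List.length_reverse, seg_length] at this
  omega

section

variable [Fintype V] [DecidableEq V] [DecidableRel G.Adj]

/-- the case where no outer vertex sees two consecutive rim vertices, at least three outer
vertices, `n = 2d` -/
theorem ring_false {σ : Sym2 V → ZMod 2} {s : ZMod 2} {L : ℕ} {X : ℕ → V} (h : Top G σ s L X)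
    {d : ℕ} (hn : Fintype.card V = 2 * d) (hdeg : ∀ v, d ≤ G.degree v) (hL1 : d + 2 ≤ L)
    (hL2 : L + 3 ≤ 2 * d)
    (hO : ∀ v, (∀ k, X k ≠ v) → ∀ k, G.Adj v (X k) → ¬ G.Adj v (X (k + 1))) : False := by
  classical
  obtain ⟨r, hr⟩ : ∃ r, L + r = 2 * d := ⟨2 * d - L, by omega⟩
  have hL3 := h.rim.three
  set R := Finset.univ.filter (fun z => ∀ k, X k ≠ z) with hR
  have hRmem : ∀ z, z ∈ R ↔ ∀ k, X k ≠ z := by intro z; simp [hR]
  have hRcard : R.card = r := by
    have h1 : (Finset.univ : Finset V) = R ∪ (Finset.range L).image X := by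
      ext z
      simp only [Finset.mem_univ, Finset.mem_union, true_iff]
      by_cases hz : ∃ k, X k = z
      · right
        obtain ⟨k, rfl⟩ := hz
        rw [h.rim.modeq k]
        exact Finset.mem_image_of_mem _ (Finset.mem_range.2 (Nat.mod_lt _ (by omega)))
      · left
        push Not at hz
        exact (hRmem z).2 hz
    have h2 : Disjoint R ((Finset.range L).image X) := by
      rw [Finset.disjoint_left]
      intro z hz hz'
      rw [Finset.mem_image] at hz'
      obtain ⟨k, _, hk⟩ := hz'
      exact (hRmem z).1 hz k hk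
    have h3 := congrArg Finset.card h1
    rw [Finset.card_univ, Finset.card_union_of_disjoint h2, hn, Finset.card_image_of_injOn,
      Finset.card_range] at h3
    · omega
    · intro x hx y hy hxy
      rw [Finset.mem_coe, Finset.mem_range] at hx hy
      exact h.rim.inj x y hx hy hxy
  have hper : ∀ v k, G.Adj v (X (k + L)) ↔ G.Adj v (X k) := by intro v k; rw [h.rim.per]
  have hcyc : ∀ v, (∀ k, X k ≠ v) → 2 * snum L (fun k => G.Adj v (X k)) ≤ L := by
    intro v hv
    have := count_lemma (c := L) (U := fun k => G.Adj v (X k)) (B := fun k => G.Adj v (X k))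
      (by omega) (hper v) (fun k hk => hk) (hO v hv) (lam := 0) (fun k hk j hj0 hj => by
        have : j = 1 := by omega
        subst this
        exact hO v hv k hk)
    omega
  have hdegR : ∀ v, (∀ k, X k ≠ v) →
      d ≤ snum L (fun k => G.Adj v (X k)) + (R.filter (fun z => G.Adj v z)).card := by
    intro v _
    exact (hdeg v).trans (degree_le h.rim v R (fun z _ hz => (hRmem z).2 hz))
  obtain ⟨l, hl, hlR, hll⟩ := dirac_rel (G := G) R (by omega) (by
    intro v hv
    have h1 := hdegR v ((hRmem v).1 hv)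
    have h2 := hcyc v ((hRmem v).1 hv)
    omega)
  obtain ⟨Y, hY, hYmem⟩ := rim_of_closed hl
  rw [hll, hRcard] at hY
  have hoff : ∀ i k, X k ≠ Y i := fun i k =>
    (hRmem (Y i)).1 (hlR _ ((hYmem (Y i)).2 ⟨i, rfl⟩)) k
  have hr3 := hY.three
  -- degrees
  have hlow : ∀ i, d + 1 ≤ snum L (fun k => G.Adj (Y i) (X k)) + r := by
    intro i
    have h1 := hdegR (Y i) (hoff i)
    have h2 : R.filter (fun z => G.Adj (Y i) z) ⊆ R.erase (Y i) := by
      intro z hz
      rw [Finset.mem_filter] at hz
      rw [Finset.mem_erase]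
      exact ⟨hz.2.ne', hz.1⟩
    have h3 := Finset.card_le_card h2
    rw [Finset.card_erase_of_mem ((hRmem _).2 (hoff i)), hRcard] at h3
    omega
  -- windows
  have hwin : ∀ i k, ∃ j, j < r ∧ G.Adj (Y i) (X (k + j)) := by
    intro i k
    by_contra hcon
    push Not at hcon
    have h1 : lcount (fun q => G.Adj (Y i) (X q)) k L = snum L (fun q => G.Adj (Y i) (X q)) :=
      lcount_period (hper (Y i)) k
    have h2 : lcount (fun q => G.Adj (Y i) (X q)) k r = 0 := lcount_eq_zero hcon
    have h3 : L = r + (L - r) := by omega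
    rw [h3, lcount_add, h2, ← h3] at h1
    have h4 := lin2 (A := fun q => G.Adj (Y i) (X q)) (E := k + r + (L - r))
      (fun q hq _ => hO (Y i) (hoff i) q hq) (L - r) (k + r) le_rfl
    have h5 := hlow i
    omega
  obtain ⟨sR, hsR⟩ : ∃ sR, phi σ Y 0 r = sR := ⟨_, rfl⟩
  have hgr : ∀ i k, gg σ X Y (i + r) k = gg σ X Y i k + sR := by
    intro i k
    unfold gg
    rw [hY.per, phi_per hY, hsR]
    ring
  have hgL : ∀ i k, gg σ X Y i (k + L) = gg σ X Y i k + s := by
    intro i k
    unfold gg
    rw [h.cs_add]; ring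
  have h2z : (2 : ZMod 2) = 0 := by decide
  -- the dichotomy for neighbours on the ring
  have hMA : ∀ i,
      ((∀ k k', G.Adj (Y i) (X k) → G.Adj (Y i) (X k') → gg σ X Y i k = gg σ X Y i k') ∧
        (∀ k k', G.Adj (Y (i + 1)) (X k) → G.Adj (Y (i + 1)) (X k') →
          gg σ X Y (i + 1) k = gg σ X Y (i + 1) k') ∧
        (∀ k k', G.Adj (Y i) (X k) → G.Adj (Y (i + 1)) (X k') →
          gg σ X Y i k = gg σ X Y (i + 1) k' + sR + 1)) ∨
      ((∀ k, G.Adj (Y i) (X k) ↔ G.Adj (Y (i + 1)) (X k)) ∧
        (∀ k, G.Adj (Y i) (X k) → gg σ X Y i k = gg σ X Y (i + 1) k + sR) ∧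
        (∀ k j, 0 < j → G.Adj (Y i) (X k) → G.Adj (Y i) (X (k + j)) →
          (∀ q, 0 < q → q < j → ¬ G.Adj (Y i) (X (k + q))) →
            gg σ X Y i k ≠ gg σ X Y i (k + j))) := by
    intro i
    have hpath : i + 1 + (r - 1) = i + r := by omega
    have hmain := pair_MA (A := fun k => G.Adj (Y i) (X k)) (B := fun k => G.Adj (Y (i + 1)) (X k))
      (a := fun k => gg σ X Y i k) (b := fun k => gg σ X Y (i + 1) k + sR + 1) (r := r) (L := L)
      (s := s) (by omega) (hper _) (hper _) (fun k => hgL i k) (fun k => by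
        change gg σ X Y (i + 1) (k + L) + sR + 1 = gg σ X Y (i + 1) k + sR + 1 + s
        rw [hgL]; ring) (hwin i) (hwin (i + 1)) (fun k j hj0 hj hA hB => by
        change gg σ X Y i k = gg σ X Y (i + 1) (k + j) + sR + 1
        by_contra hne
        have h1 := h.ring' hY hoff (a := i + 1) (m := r - 1) (k := k) (j := j) (by omega) hj0
          (by omega) (by rw [hpath, hY.per]; exact hA) hB (by
            rw [hpath, hgr]
            by_contra hne2
            have h3 := fl_one hne2
            apply hne
            linear_combination h3 - (gg σ X Y (i + 1) (k + j) + sR) * h2z)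
        omega) (fun k j hj0 hj hB hA => by
        change gg σ X Y (i + 1) k + sR + 1 = gg σ X Y i (k + j)
        by_contra hne
        have h1 := h.ring hY hoff (a := i + 1) (m := r - 1) (k := k) (j := j) (by omega) hj0
          (by omega) hB (by rw [hpath, hY.per]; exact hA) (by
            rw [hpath, hgr]
            by_contra hne2
            have h3 := fl_one hne2
            apply hne
            linear_combination (gg σ X Y (i + 1) k + sR) * h2z - h3)
        omega)
    rcases hmain with ⟨h1, h2, h3⟩ | ⟨h1, h2, h3⟩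
    · left
      refine ⟨h1, fun k k' hk hk' => ?_, h3⟩
      have := h2 k k' hk hk'
      linear_combination this
    · right
      refine ⟨h1, fun k hk => ?_, h3⟩
      have h4 := h2 k hk
      change gg σ X Y i k ≠ gg σ X Y (i + 1) k + sR + 1 at h4
      have h5 : gg σ X Y i k + (gg σ X Y (i + 1) k + sR + 1) = 1 := by
        apply fl_one
        intro h6
        apply h4
        linear_combination h6 - (gg σ X Y (i + 1) k + sR + 1) * h2z
      linear_combination h5 - (gg σ X Y (i + 1) k + sR) * h2z
  -- consecutive elements exist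
  have hcons : ∀ i, ∃ k j, 0 < j ∧ G.Adj (Y i) (X k) ∧ G.Adj (Y i) (X (k + j)) ∧
      ∀ q, 0 < q → q < j → ¬ G.Adj (Y i) (X (k + q)) := by
    intro i
    obtain ⟨j, _, hj⟩ := hwin i 0
    obtain ⟨g, hg0, _, hgU, hgf⟩ := next_exists (c := L) (U := fun k => G.Adj (Y i) (X k))
      (by omega) (hper _) ⟨0 + j, hj⟩ (0 + j)
    exact ⟨0 + j, g, hg0, hj, hgU, hgf⟩
  obtain ⟨k0, hk0⟩ : ∃ k0, G.Adj (Y 0) (X k0) := by
    obtain ⟨j, _, hj⟩ := hwin 0 0
    exact ⟨_, hj⟩
  rcases hMA 0 with hM | hA
  · -- all constant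
    have hMall : ∀ i,
        ((∀ k k', G.Adj (Y i) (X k) → G.Adj (Y i) (X k') → gg σ X Y i k = gg σ X Y i k') ∧
        (∀ k k', G.Adj (Y (i + 1)) (X k) → G.Adj (Y (i + 1)) (X k') →
          gg σ X Y (i + 1) k = gg σ X Y (i + 1) k') ∧
        (∀ k k', G.Adj (Y i) (X k) → G.Adj (Y (i + 1)) (X k') →
          gg σ X Y i k = gg σ X Y (i + 1) k' + sR + 1)) := by
      intro i
      induction i with
      | zero => exact hM
      | succ i ih =>
        rcases hMA (i + 1) with h1 | h1
        · exact h1
        · exfalso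
          obtain ⟨k, j, hj0, hk, hkj, hf⟩ := hcons (i + 1)
          exact h1.2.2 k j hj0 hk hkj hf (ih.2.1 _ _ hk hkj)
    -- values
    have hval : ∀ i, ∀ k, G.Adj (Y i) (X k) →
        gg σ X Y 0 k0 = gg σ X Y i k + i * (sR + 1) := by
      intro i
      induction i with
      | zero =>
        intro k hk
        rw [hM.1 k0 k hk0 hk]
        push_cast; ring
      | succ i ih =>
        intro k hk
        obtain ⟨j, _, hj⟩ := hwin i 0
        have h1 := ih _ hj
        have h2 := (hMall i).2.2 _ k hj hk
        push_cast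
        linear_combination h1 + h2
    have hr0 := hval r k0 (by
      have := hY.per 0
      rw [Nat.zero_add] at this
      rw [this]; exact hk0)
    have hgr0 := hgr 0 k0
    rw [Nat.zero_add] at hgr0
    rw [hgr0] at hr0
    have hrs : sR = (r : ZMod 2) * (sR + 1) := by
      linear_combination -hr0 - ((r : ZMod 2) * (sR + 1)) * h2z
    have hsR0 : sR = 0 := by
      rcases zmod2_cases sR with h1 | h1
      · exact h1
      · rw [h1] at hrs
        have : (1 : ZMod 2) = 0 := by
          linear_combination hrs + (r : ZMod 2) * h2z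
        exact absurd this (by decide)
    rw [hsR0] at hval hgr hMall
    -- the third and first ring vertices
    have hc2 : ∀ k, G.Adj (Y 2) (X k) → gg σ X Y 0 k0 = gg σ X Y 2 k := by
      intro k hk
      have := hval 2 k hk
      push_cast at this
      linear_combination this + h2z
    have hc0 : ∀ k, G.Adj (Y 0) (X k) → gg σ X Y r k = gg σ X Y 0 k0 := by
      intro k hk
      have h1 := hgr 0 k
      rw [Nat.zero_add] at h1
      rw [h1, hM.1 k k0 hk hk0, add_zero]
    have hYr : Y (2 + (r - 2)) = Y 0 := by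
      rw [show 2 + (r - 2) = 0 + r by omega, hY.per]
    have hr2 : 2 + (r - 2) = r := by omega
    have hd20 : ∀ k j, 0 < j → j < L → G.Adj (Y 2) (X k) → G.Adj (Y 0) (X (k + j)) → r ≤ j := by
      intro k j hj0 hjL h1 h2
      have := h.ring hY hoff (a := 2) (m := r - 2) (k := k) (j := j) (by omega) hj0 hjL h1
        (by rw [hYr]; exact h2) (by
          rw [hr2, hc0 _ h2, ← hc2 _ h1, two_self])
      omega
    have hd02 : ∀ k j, 0 < j → j < L → G.Adj (Y 0) (X k) → G.Adj (Y 2) (X (k + j)) → r ≤ j := by
      intro k j hj0 hjL h1 h2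
      have := h.ring' hY hoff (a := 2) (m := r - 2) (k := k) (j := j) (by omega) hj0 hjL
        (by rw [hYr]; exact h1) h2 (by
          rw [hr2, hc0 _ h1, ← hc2 _ h2, two_self])
      omega
    have hsub : ∀ k, G.Adj (Y 2) (X k) → G.Adj (Y 0) (X k) := by
      intro k hk
      obtain ⟨j, hj, hjA⟩ := hwin 0 (k + L - (r - 1))
      rcases Nat.lt_or_ge j (r - 1) with h1 | h1
      · exfalso
        have := hd02 (k + L - (r - 1) + j) (r - 1 - j) (by omega) (by omega) hjA (by
          rw [show k + L - (r - 1) + j + (r - 1 - j) = k + L by omega, h.rim.per]; exact hk)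
        omega
      · rw [show k + L - (r - 1) + j = k + L by omega, h.rim.per] at hjA
        exact hjA
    have hcount := count_lemma (c := L) (U := fun k => G.Adj (Y 0) (X k))
      (B := fun k => G.Adj (Y 2) (X k)) (by omega) (hper _) hsub (hO _ (hoff 0)) (lam := r - 2)
      (fun k hk j hj0 hj hA => by
        have := hd20 k j hj0 (by omega) hk hA
        omega)
    have hl0 := hlow 0
    have hl2 := hlow 2
    obtain ⟨e, he⟩ : ∃ e, r = e + 3 := ⟨r - 3, by omega⟩
    rw [he, show e + 3 - 2 = e + 1 by omega] at hcount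
    have h5 : e * 3 ≤ e * snum L (fun k => G.Adj (Y 2) (X k)) := Nat.mul_le_mul_left _ (by omega)
    have h6 : (e + 1) * snum L (fun k => G.Adj (Y 2) (X k)) =
      e * snum L (fun k => G.Adj (Y 2) (X k)) + snum L (fun k => G.Adj (Y 2) (X k)) := by ring
    omega
  · -- alternating
    have hAall : ∀ i,
        ((∀ k, G.Adj (Y i) (X k) ↔ G.Adj (Y (i + 1)) (X k)) ∧
        (∀ k, G.Adj (Y i) (X k) → gg σ X Y i k = gg σ X Y (i + 1) k + sR) ∧
        (∀ k j, 0 < j → G.Adj (Y i) (X k) → G.Adj (Y i) (X (k + j)) →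
          (∀ q, 0 < q → q < j → ¬ G.Adj (Y i) (X (k + q))) →
            gg σ X Y i k ≠ gg σ X Y i (k + j))) := by
      intro i
      induction i with
      | zero => exact hA
      | succ i ih =>
        rcases hMA (i + 1) with h1 | h1
        · exfalso
          obtain ⟨k, j, hj0, hk, hkj, hf⟩ := hcons i
          have h2 := ih.2.2 k j hj0 hk hkj hf
          have h3 := ih.2.1 k hk
          have h4 := ih.2.1 _ hkj
          have h5 := h1.1 _ _ ((ih.1 _).1 hk) ((ih.1 _).1 hkj)
          apply h2
          rw [h3, h4, h5]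
        · exact h1
    have hsame : ∀ i k, G.Adj (Y i) (X k) ↔ G.Adj (Y 0) (X k) := by
      intro i
      induction i with
      | zero => intro k; rfl
      | succ i ih => intro k; rw [← (hAall i).1 k]; exact ih k
    have hval : ∀ i k, G.Adj (Y 0) (X k) → gg σ X Y i k = gg σ X Y 0 k + i * sR := by
      intro i
      induction i with
      | zero => intro k _; push_cast; ring
      | succ i ih =>
        intro k hk
        have h1 := ih k hk
        have h2 := (hAall i).2.1 k ((hsame i k).2 hk)
        push_cast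
        linear_combination h1 - h2 + 2 * sR - sR * h2z
    have hrs : sR = (r : ZMod 2) * sR := by
      have h1 := hval r k0 hk0
      have h2 := hgr 0 k0
      rw [Nat.zero_add] at h2
      linear_combination h1 - h2
    have hconsec : ∀ k j, 0 < j → G.Adj (Y 0) (X k) → G.Adj (Y 0) (X (k + j)) →
        (∀ q, 0 < q → q < j → ¬ G.Adj (Y 0) (X (k + q))) →
          gg σ X Y 0 k + gg σ X Y 0 (k + j) = 1 := by
      intro k j hj0 hk hkj hf
      apply fl_one
      intro h1
      exact hA.2.2 k j hj0 hk hkj hf (by linear_combination h1 - gg σ X Y 0 (k + j) * h2z)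
    have hl0 := hlow 0
    obtain ⟨e, he⟩ : ∃ e, r = e + 3 := ⟨r - 3, by omega⟩
    rcases zmod2_cases sR with h0 | h0
    · -- `sR = 0`
      rw [h0] at hval
      have hval' : ∀ i k, G.Adj (Y 0) (X k) → gg σ X Y i k = gg σ X Y 0 k := by
        intro i k hk; rw [hval i k hk]; ring
      have hpairs : ∀ k j j', 0 < j → 0 < j' → j + j' ≤ L → G.Adj (Y 0) (X k) →
          G.Adj (Y 0) (X (k + j)) → G.Adj (Y 0) (X (k + j + j')) →
          (∀ q, 0 < q → q < j → ¬ G.Adj (Y 0) (X (k + q))) →
          (∀ q, 0 < q → q < j' → ¬ G.Adj (Y 0) (X (k + j + q))) → r + 2 ≤ j + j' := by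
        intro k j j' hj0 hj0' hle h1 h2 h3 hf hf'
        have hc1 := hconsec k j hj0 h1 h2 hf
        have hc2 := hconsec (k + j) j' hj0' h2 h3 hf'
        have hn1 : (seg Y 1 (r - 1)).Nodup := hY.seg_nodup _ _ (by omega)
        have hlen : r - 1 = (r - 2) + 1 := by omega
        have := h.two (P := seg Y 1 (r - 1)) (Q := [Y 0]) (u := Y 1) (w := Y (1 + (r - 2)))
          (u' := Y 0) (w' := Y 0) hn1 (seg_chain hY.adj _ _) (by rw [hlen]; exact seg_head _ _ _)
          (by rw [hlen]; exact seg_last _ _ _) (by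
            intro z hz i
            obtain ⟨q, _, hq⟩ := mem_seg.1 hz
            rw [← hq]; exact hoff _ _) (by simp) (by simp) rfl rfl (by
            intro z hz i
            rw [List.mem_singleton] at hz
            rw [hz]; exact hoff _ _) (by
            intro z hz hz'
            rw [List.mem_singleton] at hz'
            obtain ⟨q, hq1, hq⟩ := mem_seg.1 hz
            rw [hz'] at hq
            exact hY.ne (a := 0) (b := 1 + q) (by omega) (by omega) hq.symm)
          (i := k) (j := j) (i' := k + j) (j' := j') hj0 hj0' le_rfl (by omega)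
          ((hsame _ _).2 h1) ((hsame _ _).2 h2) h2 h3 (by
            have e1 := hval' 1 k h1
            have e2 := hval' (1 + (r - 2)) (k + j) h2
            rw [hlen, ls_seg σ Y 0, ls_single]
            unfold gg at e1 e2 hc1 hc2
            linear_combination e1 + e2 + hc1 + hc2 + h2z - phi σ Y 0 0 * h2z)
        rw [seg_length] at this
        simp only [List.length_cons, List.length_nil] at this
        omega
      have hw2 : ∀ k, lcount (fun q => G.Adj (Y 0) (X q)) k (r + 2) ≤ 2 := by
        intro k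
        by_contra hcon
        push Not at hcon
        obtain ⟨k1, k2, k3, h12, h23, h1k, h3k, hA1, hA2, hA3, hf1, hf2⟩ := lcount_three hcon
        have := hpairs k1 (k2 - k1) (k3 - k2) (by omega) (by omega) (by omega) hA1
          (by rw [Nat.add_sub_of_le h12.le]; exact hA2)
          (by rw [Nat.add_sub_of_le h12.le, Nat.add_sub_of_le h23.le]; exact hA3)
          (fun q hq0 hq1 => hf1 (k1 + q) (by omega) (by omega))
          (fun q hq0 hq1 => by
            rw [Nat.add_sub_of_le h12.le]; exact hf2 (k2 + q) (by omega) (by omega))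
        omega
      have hb := window_bound (A := fun q => G.Adj (Y 0) (X q)) (L := L) (hper _) hw2
      rw [he] at hb
      have h5 : e * 3 ≤ e * snum L (fun k => G.Adj (Y 0) (X k)) := Nat.mul_le_mul_left _ (by omega)
      have h6 : (e + 3 + 2) * snum L (fun k => G.Adj (Y 0) (X k)) =
        e * snum L (fun k => G.Adj (Y 0) (X k)) + 5 * snum L (fun k => G.Adj (Y 0) (X k)) := by ring
      nlinarith
    · -- `sR = 1`
      rw [h0] at hval hrs
      have hgap : ∀ k j, 0 < j → j < L → G.Adj (Y 0) (X k) → G.Adj (Y 0) (X (k + j)) →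
          (∀ q, 0 < q → q < j → ¬ G.Adj (Y 0) (X (k + q))) → r ≤ j := by
        intro k j hj0 hjL h1 h2 hf
        have hc1 := hconsec k j hj0 h1 h2 hf
        have := h.ring hY hoff (a := 1) (m := r - 2) (k := k) (j := j) (by omega) hj0 hjL
          ((hsame _ _).2 h1) ((hsame _ _).2 h2) (by
            rw [hval 1 k h1, hval (1 + (r - 2)) (k + j) h2]
            have e1 : ((1 + (r - 2) : ℕ) : ZMod 2) = (r : ZMod 2) + 1 := by
              have : (1 + (r - 2)) + 1 = r := by omega
              have h7 : (((1 + (r - 2)) + 1 : ℕ) : ZMod 2) = (r : ZMod 2) := by rw [this]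
              push_cast at h7 ⊢
              linear_combination h7 - h2z
            rw [e1]
            push_cast
            linear_combination hc1 - hrs + 2 * h2z)
        omega
      have hcount := count_lemma (c := L) (U := fun k => G.Adj (Y 0) (X k))
        (B := fun k => G.Adj (Y 0) (X k)) (by omega) (hper _) (fun k hk => hk) (hO _ (hoff 0))
        (lam := r - 2) (fun k hk j hj0 hj hA' => by
          obtain ⟨g, hg0, hgL, hgU, hgf⟩ := next_exists (c := L)
            (U := fun k => G.Adj (Y 0) (X k)) (by omega) (hper _) ⟨k, hk⟩ k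
          have hgj : g ≤ j := by
            by_contra hlt
            exact hgf j hj0 (by omega) hA'
          have := hgap k g hg0 (by omega) hk hgU hgf
          omega)
      rw [he, show e + 3 - 2 = e + 1 by omega] at hcount
      have h5 : e * 3 ≤ e * snum L (fun k => G.Adj (Y 0) (X k)) := Nat.mul_le_mul_left _ (by omega)
      have h6 : (e + 1) * snum L (fun k => G.Adj (Y 0) (X k)) =
        e * snum L (fun k => G.Adj (Y 0) (X k)) + snum L (fun k => G.Adj (Y 0) (X k)) := by ring
      omega

end

end Run7.h807
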