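import Mathlib
import Pool.Agent.Run7.h807.Low0
import Pool.Agent.Run7.h807.Ring

set_option autoImplicit false

namespace Run7.h807

variable {V : Type*} {G : SimpleGraph V}

theorem rim_of_closed' {l : List V} (h : Closed G l) :
    ∃ X : ℕ → V, Rim G l.length X ∧ seg X 0 l.length = l := by
  obtain ⟨hn, hc, h3, x, y, hx, hy, hxy⟩ := h
  have hpos : 0 < l.length := by omega
  refine ⟨fun k => l[k % l.length]'(Nat.mod_lt _ hpos), ⟨fun k => ?_, fun i j hi hj hij => ?_,
    fun k => ?_, h3⟩, ?_⟩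
  · simp only [Nat.add_mod_right]
  · simp only [Nat.mod_eq_of_lt hi, Nat.mod_eq_of_lt hj] at hij
    exact (List.Nodup.getElem_inj_iff hn).1 hij
  · have hk := Nat.mod_lt k hpos
    by_cases hlast : k % l.length + 1 = l.length
    · have h1 : (k + 1) % l.length = 0 := by
        rw [Nat.add_mod, Nat.mod_eq_of_lt (a := 1) (by omega), hlast, Nat.mod_self]
      simp only [h1]
      have h2 : l[k % l.length] = y := by
        rw [List.getLast?_eq_getElem?] at hy
        have h4 : l.length - 1 = k % l.length := by omega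
        rw [h4, List.getElem?_eq_getElem hk] at hy
        exact Option.some.inj hy
      have h3' : l[0] = x := by
        rw [List.head?_eq_getElem?, List.getElem?_eq_getElem hpos] at hx
        exact Option.some.inj hx
      rw [h2, h3']
      exact hxy
    · have h1 : (k + 1) % l.length = k % l.length + 1 := by
        rw [Nat.add_mod, Nat.mod_eq_of_lt (a := 1) (by omega)]
        exact Nat.mod_eq_of_lt (by omega)
      simp only [h1]
      exact List.isChain_iff_getElem.1 hc _ (by omega)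
  · refine List.ext_getElem (by rw [seg_length]) fun i h1 h2 => ?_
    unfold seg
    rw [List.getElem_map, List.getElem_range]
    simp only [Nat.zero_add, Nat.mod_eq_of_lt h2]

theorem phi_total {σ : Sym2 V → ZMod 2} {c : ℕ} {X : ℕ → V} (h : Rim G (c + 1) X) :
    phi σ X 0 (c + 1) = ls σ (seg X 0 (c + 1)) + σ s(X c, X 0) := by
  rw [ls_seg σ X 0, Nat.zero_add]
  change phi σ X 0 c + σ s(X c, X (c + 1)) = phi σ X 0 c + 0 + σ s(X c, X 0)
  have h2 := h.per 0
  rw [Nat.zero_add] at h2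
  rw [h2, add_zero]

theorem top_of_cyc {σ : Sym2 V → ZMod 2} {s : ZMod 2} {l : List V} (h : Cyc G σ s l)
    (hmax : ∀ l', Cyc G σ s l' → l'.length ≤ l.length) : ∃ X, Top G σ s l.length X := by
  obtain ⟨hn, hc, h3, x, y, hx, hy, hxy, hs⟩ := h
  obtain ⟨X, hX, hseg⟩ := rim_of_closed' (G := G) (l := l) ⟨hn, hc, h3, x, y, hx, hy, hxy⟩
  refine ⟨X, hX, ?_, hmax⟩
  obtain ⟨c, hcl⟩ : ∃ c, l.length = c + 1 := ⟨l.length - 1, by omega⟩
  rw [hcl] at hX hseg
  rw [hcl, phi_total hX, hseg]
  have h4 : X 0 = x := by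
    have := seg_head X 0 c
    rw [hseg, hx] at this
    exact (Option.some.inj this).symm
  have h5 : X c = y := by
    have := seg_last X 0 c
    rw [hseg, hy, Nat.zero_add] at this
    exact (Option.some.inj this).symm
  rw [h4, h5]
  exact hs

theorem exists_max_cyc [Finite V] {σ : Sym2 V → ZMod 2} {s : ZMod 2} (h : ∃ l, Cyc G σ s l) :
    ∃ l, Cyc G σ s l ∧ ∀ l', Cyc G σ s l' → l'.length ≤ l.length := by
  have := Fintype.ofFinite V
  set S : Set ℕ := {k | ∃ l, Cyc G σ s l ∧ l.length = k} with hS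
  have hne : S.Nonempty := by
    obtain ⟨l, h1⟩ := h
    exact ⟨l.length, l, h1, rfl⟩
  have hbd : BddAbove S := ⟨Fintype.card V, by rintro k ⟨l, h1, rfl⟩; exact h1.1.length_le_card⟩
  obtain ⟨l, h1, h3⟩ := Nat.sSup_mem hne hbd
  refine ⟨l, h1, fun l' h1' => ?_⟩
  rw [h3]
  exact le_csSup hbd ⟨l', h1', rfl⟩

/-- the Dirac case -/
theorem dirac_good [Fintype V] [DecidableEq V] [DecidableRel G.Adj] {d : ℕ} (hd : 3 ≤ d)
    (hn : Fintype.card V = 2 * d) (hdeg : ∀ v, d ≤ G.degree v)
    (h3 : ∀ S : Finset V, S.card ≤ 2 → (G.induce ((↑S : Set V)ᶜ)).Connected) :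
    Good G (2 * d - 1) := by
  classical
  by_cases hK : ∃ I : Finset V, I.card = d ∧ ∀ x ∈ I, ∀ y, y ∉ I → G.Adj x y
  · obtain ⟨I, hI, hIa⟩ := hK
    exact kdd_span hd hn I hI hIa
  intro σ t hU
  by_contra hbad
  -- Hamilton rim
  obtain ⟨lZ, hlZ, -, hlZn⟩ := dirac_rel (G := G) (Finset.univ : Finset V)
    (by rw [Finset.card_univ, hn]; omega) (fun v _ => by
      have h1 := hdeg v
      rw [← SimpleGraph.card_neighborFinset_eq_degree, SimpleGraph.neighborFinset_eq_filter] at h1
      rw [Finset.card_univ, hn]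
      have h2 : ((Finset.univ : Finset V).filter (fun z => G.Adj v z)).card =
          (Finset.univ.filter (G.Adj v)).card := by
        congr 1
      omega)
  rw [Finset.card_univ, hn] at hlZn
  obtain ⟨Z, hZ, -⟩ := rim_of_closed' hlZ
  rw [hlZn] at hZ
  obtain ⟨lW, hlW, hlWn⟩ := (n1_or_kdd hd hn hdeg hZ).resolve_right hK
  obtain ⟨W, hW, -⟩ := rim_of_closed' hlW
  rw [hlWn] at hW
  -- a long bad cycle
  have hlong : ∃ l, Cyc G σ (t + 1) l ∧ d + 2 ≤ l.length := by
    by_contra hno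
    push Not at hno
    rcases zmod2_cases t with rfl | rfl
    · rw [zero_add] at hno
      rcases low0 hd hn hdeg hU (fun l hl => by have := hno l hl; omega) h3 hZ with h | h
      · exact hbad ⟨rfl, h⟩
      · exact hK h
    · have e : (1 : ZMod 2) + 1 = 0 := by decide
      rw [e] at hno
      exact low1 hd hn hdeg hU (fun l hl => by have := hno l hl; omega) h3 hW
  obtain ⟨l0, hl0, hl0n⟩ := hlong
  obtain ⟨l, hl, hmax⟩ := exists_max_cyc ⟨l0, hl0⟩
  obtain ⟨X, hX⟩ := top_of_cyc hl hmax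
  obtain ⟨L, hL⟩ : ∃ L, L = l.length := ⟨_, rfl⟩
  rw [← hL] at hX
  have hL1 : d + 2 ≤ L := by have := hmax l0 hl0; omega
  have hL2 : L + 2 ≤ 2 * d := by
    by_contra hlt
    obtain ⟨g1, g2, g3, x, y, g4, g5, g6, g7⟩ := hl
    have := hU l x y g1 g2 g4 g5 g6 g3 (by omega)
    rw [g7] at this
    have h8 : (1 : ZMod 2) = 0 := by linear_combination this
    exact absurd h8 (by decide)
  -- unit arcs
  by_cases hunit : ∃ X', Top G σ (t + 1) L X' ∧ ∃ v, (∀ k, X' k ≠ v) ∧
      ∃ k, G.Adj v (X' k) ∧ G.Adj v (X' (k + 1))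
  · obtain ⟨X', hX', v, hv, k, h1, h2⟩ := hunit
    have hL3 := hX'.rim.three
    have hU' : UTop G σ (t + 1) L (fun i => X' (i + (k + 1))) v := by
      refine ⟨hX'.shift (k + 1), fun i => hv _, ?_, ?_⟩
      · change G.Adj v (X' (0 + (k + 1)))
        rw [Nat.zero_add]; exact h2
      · change G.Adj v (X' (L - 1 + (k + 1)))
        rw [show L - 1 + (k + 1) = k + L by omega, hX'.rim.per]; exact h1
    exact hK (hU'.kdd hd hn hdeg hL1 hL2)
  · push Not at hunit
    rcases Nat.lt_or_ge (L + 2) (2 * d) with h | h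
    · exact ring_false hX hn hdeg hL1 (by omega) (fun v hv k h1 => hunit X hX v hv k h1)
    · exact hK (pair_case hX hn hdeg hL1 (by omega)
        (fun X' hX' v hv k h1 => hunit X' hX' v hv k h1))

end Run7.h807
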