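import Mathlib
import Pool.Agent.Run7.h807.Dual

set_option autoImplicit false

namespace Run7.h807

theorem frozen_of_good {V : Type} [Fintype V] [DecidableEq V] {G : SimpleGraph V}
    [DecidableRel G.Adj] (h : Good G (2 * G.minDegree - 1)) :
    (∀ C : Finset (Sym2 V), (↑C : Set (Sym2 V)) ⊆ G.edgeSet →
          (∀ v : V, Even (C.filter (fun e => v ∈ e)).card) →
          ∃ F : Finset (Finset (Sym2 V)),
            (∀ D ∈ F, ∃ (u : V) (p : G.Walk u u),
              p.IsCycle ∧ p.edges.toFinset = D ∧ 2 * G.minDegree ≤ p.length + 1) ∧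
            ∀ e : Sym2 V, e ∈ C ↔ Odd (F.filter (fun D => e ∈ D)).card) ∧
      (∀ (w : V) (q : G.Walk w w), q.IsCycle →
          ∃ F : Finset (Finset (Sym2 V)),
            (∀ D ∈ F, ∃ (u : V) (p : G.Walk u u),
              p.IsCycle ∧ p.edges.toFinset = D ∧ 2 * G.minDegree ≤ p.length + 1) ∧
            Odd F.card ∧
            ∀ e : Sym2 V, e ∈ q.edges.toFinset ↔ Odd (F.filter (fun D => e ∈ D)).card) := by
  have hconv : ∀ D ∈ longFam G (2 * G.minDegree - 1), ∃ (u : V) (p : G.Walk u u),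
      p.IsCycle ∧ p.edges.toFinset = D ∧ 2 * G.minDegree ≤ p.length + 1 := by
    rintro D ⟨u, p, h1, h2, h3⟩
    exact ⟨u, p, h1, h2, by omega⟩
  obtain ⟨ha, hb⟩ := good_imp h
  constructor
  · intro C hC hev
    obtain ⟨F, hF, hF2⟩ := ha C hC hev
    exact ⟨F, fun D hD => hconv D (hF D hD), hF2⟩
  · intro w q hq
    obtain ⟨F, hF, hF1, hF2⟩ := hb w q hq
    exact ⟨F, fun D hD => hconv D (hF D hD), hF1, hF2⟩

end Run7.h807
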