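import Mathlib
import Pool.Agent.Run7.h807.Unit

set_option autoImplicit false

namespace Run7.h807

variable {V : Type*} {G : SimpleGraph V}

/-- an outer path from `u` to `w` -/
structure OP (G : SimpleGraph V) (X : ℕ → V) (P : List V) (u w : V) : Prop where
  nd : P.Nodup
  ch : P.IsChain G.Adj
  hd : P.head? = some u
  lt : P.getLast? = some w
  off : ∀ z ∈ P, ∀ k, X k ≠ z

theorem OP.rev {X : ℕ → V} {P : List V} {u w : V} (h : OP G X P u w) :
    OP G X P.reverse w u :=
  ⟨List.nodup_reverse.2 h.nd, chain_rev h.ch, by rw [List.head?_reverse, h.lt],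
    by rw [List.getLast?_reverse, h.hd], fun z hz => h.off z (List.mem_reverse.1 hz)⟩

theorem OP.one_le {X : ℕ → V} {P : List V} {u w : V} (h : OP G X P u w) : 1 ≤ P.length := by
  cases P with
  | nil => have := h.hd; simp at this
  | cons a l => simp

theorem OP.two_le {X : ℕ → V} {P : List V} {u w : V} (h : OP G X P u w) (huw : u ≠ w) :
    2 ≤ P.length := by
  match P, h with
  | [], h => have := h.hd; simp at this
  | [a], h =>
    exfalso
    have h1 := h.hd
    have h2 := h.lt
    simp only [List.head?_cons, Option.some.injEq, List.getLast?_singleton] at h1 h2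
    exact huw (h1.symm.trans h2)
  | a :: b :: l, _ => simp

theorem OP.memu {X : ℕ → V} {P : List V} {u w : V} (h : OP G X P u w) : u ∈ P :=
  List.mem_of_mem_head? (by rw [h.hd]; rfl)

theorem OP.memw {X : ℕ → V} {P : List V} {u w : V} (h : OP G X P u w) : w ∈ P :=
  List.mem_of_getLast? h.lt

theorem OP.single {X : ℕ → V} {u : V} (h : ∀ k, X k ≠ u) : OP G X [u] u u :=
  ⟨by simp, by simp, rfl, rfl, by intro z hz; rw [List.mem_singleton] at hz; rw [hz]; exact h⟩

theorem OP.pair {X : ℕ → V} {u w : V} (hu : ∀ k, X k ≠ u) (hw : ∀ k, X k ≠ w)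
    (ha : G.Adj u w) : OP G X [u, w] u w :=
  ⟨by simp [ha.ne], by simpa using ha, rfl, rfl, by
    intro z hz
    simp only [List.mem_cons, List.not_mem_nil, or_false] at hz
    rcases hz with rfl | rfl
    · exact hu
    · exact hw⟩

variable {σ : Sym2 V → ZMod 2} {s : ZMod 2} {L : ℕ} {X : ℕ → V}

theorem Top.far (h : Top G σ s L X) {P : List V} {u w : V} (hP : OP G X P u w) {i j : ℕ}
    (hj0 : 0 < j) (hjL : j < L) (hjP : j ≤ P.length) (hu : G.Adj u (X i))
    (hw : G.Adj w (X (i + j))) : ls σ P + cs σ X u i + cs σ X w (i + j) = 1 := by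
  refine fl_one fun h0 => ?_
  have := h.one hP.nd hP.ch hP.hd hP.lt hP.off hj0 hjL hu hw h0
  omega

theorem Top.crossing (h : Top G σ s L X) (hL : 4 ≤ L) {u w : V} (hu : ∀ k, X k ≠ u)
    (hw : ∀ k, X k ≠ w) (huw : u ≠ w) {i : ℕ} (h0 : G.Adj u (X i)) (h2 : G.Adj u (X (i + 2)))
    (h1 : G.Adj w (X (i + 1))) (h3 : G.Adj w (X (i + 3))) :
    cs σ X u i + cs σ X u (i + 2) + (cs σ X w (i + 1) + cs σ X w (i + 3)) = 1 := by
  refine fl_one fun hfl => ?_
  obtain ⟨r, hr⟩ : ∃ r, L = 3 + r := ⟨L - 3, by omega⟩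
  have hiL : i + 3 + r = i + L := by omega
  have hlast : (u :: X (i + 2) :: X (i + 1) :: w :: seg X (i + 3) (r + 1)).getLast? =
      some (X i) := by
    rw [List.getLast?_cons, List.getLast?_cons, List.getLast?_cons, List.getLast?_cons, seg_last,
      hiL, h.rim.per]
    rfl
  have h5 := h.max (u :: X (i + 2) :: X (i + 1) :: w :: seg X (i + 3) (r + 1)) ⟨?_, ?_, ?_, u, X i,
    rfl, hlast, h0.symm, ?_⟩
  · simp only [List.length_cons, seg_length] at h5
    omega
  · have hseg : ∀ {a : ℕ}, i ≤ a → a < i + 3 → i < a → X a ∉ seg X (i + 3) (r + 1) := by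
      intro a _ h7 h8 hmem
      obtain ⟨k, hk, hk'⟩ := mem_seg.1 hmem
      exact h.rim.ne (a := a) (b := i + 3 + k) (by omega) (by omega) hk'.symm
    have hus : ∀ {v : V}, (∀ k, X k ≠ v) → v ∉ seg X (i + 3) (r + 1) := by
      intro v hv hmem
      obtain ⟨k, _, hk'⟩ := mem_seg.1 hmem
      exact hv _ hk'
    simp only [List.nodup_cons, List.mem_cons, not_or]
    refine ⟨⟨(hu _).symm, (hu _).symm, huw, hus hu⟩, ⟨?_, hw _, hseg (by omega) (by omega)
      (by omega)⟩, ⟨hw _, hseg (by omega) (by omega) (by omega)⟩, hus hw,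
      h.rim.seg_nodup _ _ (by omega)⟩
    exact (h.rim.ne (a := i + 1) (b := i + 2) (by omega) (by omega)).symm
  · rw [List.isChain_cons_cons, List.isChain_cons_cons, List.isChain_cons_cons, seg_succ,
      List.isChain_cons_cons, ← seg_succ]
    exact ⟨h2, (h.rim.adj (i + 1)).symm, h1.symm, h3, seg_chain h.rim.adj _ _⟩
  · simp only [List.length_cons, seg_length]
    omega
  · rw [ls_cons_cons, ls_cons_cons, ls_cons_cons, seg_succ, ls_cons_cons, ← seg_succ,
      ls_seg σ X 0, hiL, h.phi_add]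
    unfold cs at hfl
    have e1 : phi σ X 0 (i + 2) = phi σ X 0 (i + 1) + σ s(X (i + 1), X (i + 2)) := rfl
    rw [e1] at hfl
    rw [Sym2.eq_swap (a := X i) (b := u), Sym2.eq_swap (a := X (i + 1)) (b := w),
      Sym2.eq_swap (a := X (i + 2)) (b := X (i + 1))]
    have e2 := two_self (phi σ X 0 (i + 1))
    linear_combination hfl - e2

/-- outer vertices in the same component have the same parity -/
theorem Top.align (h : Top G σ s L X) (hL : 4 ≤ L) {P : List V} {u w : V} (hP : OP G X P u w)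
    (huw : u ≠ w) {i : ℕ} (h0 : G.Adj u (X i)) (h2 : G.Adj u (X (i + 2)))
    (h1 : G.Adj w (X (i + 1))) (h3 : G.Adj w (X (i + 3))) : False := by
  have hc := h.crossing hL (hP.off u hP.memu) (hP.off w hP.memw) huw h0 h2 h1 h3
  have hl := hP.one_le
  have a1 := h.far hP (i := i) (j := 1) one_pos (by omega) hl h0 h1
  have a2 := h.far hP (i := i + 2) (j := 1) one_pos (by omega) hl h2 h3
  have e : i + 2 + 1 = i + 3 := by omega
  rw [e] at a2
  have h6 := two_self (ls σ P)
  have : (1 : ZMod 2) = 0 := by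
    linear_combination h6 - a1 - a2 + hc
  exact absurd this (by decide)

/-- strictly alternating window of `n` rim edges -/
def Alt (G : SimpleGraph V) (X : ℕ → V) (u : V) (i n : ℕ) : Prop :=
  ∀ k, k < n → (G.Adj u (X (i + k)) ↔ ¬ G.Adj u (X (i + k + 1)))

theorem Alt.sub {u : V} {i n i' n' : ℕ} (h : Alt G X u i n) (h1 : i ≤ i')
    (h2 : i' + n' ≤ i + n) : Alt G X u i' n' := by
  intro k hk
  have := h (i' - i + k) (by omega)
  have e : i + (i' - i + k) = i' + k := by omega
  rw [e] at this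
  exact this

theorem Top.pairflip (h : Top G σ s L X) (hL : 4 ≤ L) {P : List V} {u w : V}
    (hP : OP G X P u w) (huw : u ≠ w) {i : ℕ} (hu : Alt G X u i 3) (hw : Alt G X w i 3) :
    ∃ i', i ≤ i' ∧ i' ≤ i + 1 ∧ G.Adj u (X i') ∧ G.Adj u (X (i' + 2)) ∧ G.Adj w (X i') ∧
      G.Adj w (X (i' + 2)) ∧ ls σ P + cs σ X u i' + cs σ X w (i' + 2) = 1 := by
  classical
  have u0 := hu 0 (by omega)
  have u1 := hu 1 (by omega)
  have u2 := hu 2 (by omega)
  have w0 := hw 0 (by omega)
  have w1 := hw 1 (by omega)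
  have w2 := hw 2 (by omega)
  simp only [Nat.add_zero, Nat.add_assoc, Nat.reduceAdd] at u0 u1 u2 w0 w1 w2
  have hl := hP.two_le huw
  by_cases a : G.Adj u (X i) <;> by_cases b : G.Adj w (X i)
  · have c : G.Adj u (X (i + 2)) := by tauto
    have d : G.Adj w (X (i + 2)) := by tauto
    exact ⟨i, le_rfl, by omega, a, c, b, d, h.far hP (by omega) (by omega) hl a d⟩
  · exfalso
    exact h.align hL hP huw a (by tauto) (by tauto) (by tauto)
  · exfalso
    exact h.align hL hP.rev huw.symm b (by tauto) (by tauto) (by tauto)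
  · have c0 : G.Adj u (X (i + 1)) := by tauto
    have c : G.Adj u (X (i + 3)) := by tauto
    have d0 : G.Adj w (X (i + 1)) := by tauto
    have d : G.Adj w (X (i + 3)) := by tauto
    have e : i + 1 + 2 = i + 3 := by omega
    refine ⟨i + 1, by omega, le_rfl, c0, by rw [e]; exact c, d0, by rw [e]; exact d, ?_⟩
    exact h.far hP (by omega) (by omega) hl c0 (by rw [e]; exact d)

/-- three outer paths from a common vertex -/
structure Tripod (G : SimpleGraph V) (X : ℕ → V) (y : V) (U W Z : List V) (u w z : V) :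
    Prop where
  nd : (y :: (U ++ (W ++ Z))).Nodup
  cu : (y :: U).IsChain G.Adj
  cw : (y :: W).IsChain G.Adj
  cz : (y :: Z).IsChain G.Adj
  lu : (y :: U).getLast? = some u
  lw : (y :: W).getLast? = some w
  lz : (y :: Z).getLast? = some z
  off : ∀ x ∈ y :: (U ++ (W ++ Z)), ∀ k, X k ≠ x

theorem Tripod.swap {y : V} {U W Z : List V} {u w z : V} (h : Tripod G X y U W Z u w z) :
    Tripod G X y W U Z w u z := by
  have hp : (y :: (U ++ (W ++ Z))).Perm (y :: (W ++ (U ++ Z))) := by
    refine List.Perm.cons _ ?_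
    rw [← List.append_assoc, ← List.append_assoc]
    exact List.Perm.append_right _ List.perm_append_comm
  exact ⟨hp.nodup_iff.1 h.nd, h.cw, h.cu, h.cz, h.lw, h.lu, h.lz,
    fun x hx => h.off x (hp.mem_iff.2 hx)⟩

theorem Tripod.rot {y : V} {U W Z : List V} {u w z : V} (h : Tripod G X y U W Z u w z) :
    Tripod G X y W Z U w z u := by
  have hp : (y :: (U ++ (W ++ Z))).Perm (y :: (W ++ (Z ++ U))) := by
    refine List.Perm.cons _ ?_
    rw [← List.append_assoc W Z U]
    exact List.perm_append_comm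
  exact ⟨hp.nodup_iff.1 h.nd, h.cw, h.cz, h.cu, h.lw, h.lz, h.lu,
    fun x hx => h.off x (hp.mem_iff.2 hx)⟩

theorem Tripod.op {y : V} {U W Z : List V} {u w z : V} (h : Tripod G X y U W Z u w z) :
    OP G X (U.reverse ++ y :: W) u w ∧
      ls σ (U.reverse ++ y :: W) = ls σ (y :: U) + ls σ (y :: W) := by
  have hrev : (y :: U).reverse = U.reverse ++ [y] := by simp
  refine ⟨⟨?_, ?_, ?_, ?_, ?_⟩, ?_⟩
  · have hn := h.nd
    rw [← List.append_assoc, ← List.cons_append, List.nodup_append] at hn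
    have hp : (y :: (U ++ W)).Perm (U.reverse ++ y :: W) := by
      refine List.Perm.trans ?_ (List.perm_middle.symm)
      exact List.Perm.cons _ (List.Perm.append_right _ (List.reverse_perm _).symm)
    exact hp.nodup_iff.1 hn.1
  · rw [List.isChain_split]
    refine ⟨?_, h.cw⟩
    rw [← hrev]
    exact chain_rev h.cu
  · have h1 : (U.reverse ++ [y]).head? = some u := by
      rw [← hrev, List.head?_reverse, h.lu]
    rw [List.head?_append] at h1 ⊢
    exact h1
  · rw [List.getLast?_append, h.lw]; rfl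
  · intro x hx
    refine h.off x ?_
    simp only [List.mem_append, List.mem_reverse, List.mem_cons] at hx ⊢
    tauto
  · rw [ls_split, ← hrev, ls_reverse]

theorem Top.tri0 (h : Top G σ s L X) (hL : 5 ≤ L) {y : V} {U W Z : List V} {u w z : V}
    (hT : Tripod G X y U W Z u w z) (huw : u ≠ w) (huz : u ≠ z) (hwz : w ≠ z) (hU : U ≠ [])
    {i : ℕ} (u0 : G.Adj u (X i)) (u2 : G.Adj u (X (i + 2))) (w2 : G.Adj w (X (i + 2)))
    (z4 : G.Adj z (X (i + 4))) : False := by
  obtain ⟨p1, q1⟩ := hT.op (σ := σ)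
  obtain ⟨p2, q2⟩ := hT.rot.op (σ := σ)
  obtain ⟨p3, q3⟩ := hT.swap.rot.op (σ := σ)
  have e4 : i + 2 + 2 = i + 4 := by omega
  have a1 := h.far p1 (i := i) (j := 2) (by omega) (by omega) (p1.two_le huw) u0 w2
  have a2 := h.far p2 (i := i + 2) (j := 2) (by omega) (by omega) (p2.two_le hwz) w2
    (by rw [e4]; exact z4)
  have a3 := h.far p3 (i := i + 2) (j := 2) (by omega) (by omega) (p3.two_le huz) u2
    (by rw [e4]; exact z4)
  rw [q1] at a1
  rw [q3] at a3
  rw [e4] at a2 a3
  have huU : u ∈ U := by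
    have := hT.lu
    cases U with
    | nil => exact absurd rfl hU
    | cons a l =>
      rw [List.getLast?_cons_cons] at this
      exact List.mem_of_getLast? this
  have hun : u ∉ W.reverse ++ y :: Z := by
    have hn := hT.nd
    rw [List.nodup_cons, List.nodup_append] at hn
    intro hmem
    simp only [List.mem_append, List.mem_reverse, List.mem_cons] at hmem
    rcases hmem with hm | hm | hm
    · exact hn.2.2.2 u huU u (List.mem_append.2 (Or.inl hm)) rfl
    · exact hn.1 (List.mem_append.2 (Or.inl (hm ▸ huU)))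
    · exact hn.2.2.2 u huU u (List.mem_append.2 (Or.inr hm)) rfl
  have huoff : ∀ k, X k ≠ u := p1.off u p1.memu
  have := h.two (P := [u]) (Q := W.reverse ++ y :: Z) (u := u) (w := u) (u' := w) (w' := z)
    (by simp) (by simp) rfl rfl (OP.single (G := G) huoff).off p2.nd p2.ch p2.hd p2.lt p2.off
    (by intro x hx; rw [List.mem_singleton] at hx; rw [hx]; exact hun)
    (i := i) (j := 2) (i' := i + 2) (j' := 2) (by omega) (by omega) le_rfl (by omega) u0 u2 w2
    (by rw [e4]; exact z4) (by
      rw [ls_single, e4]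
      rw [q2] at a2 ⊢
      have h1 := two_self (ls σ (y :: U))
      have h2 := two_self (ls σ (y :: W))
      have h3 := two_self (ls σ (y :: Z))
      have h4 := two_self (cs σ X w (i + 2))
      have h5 := two_self (cs σ X z (i + 4))
      have h7 : (1 : ZMod 2) + 1 = 0 := by decide
      linear_combination a1 + a3 - h1 + h7)
  have h8 := p2.two_le hwz
  simp only [List.length_cons, List.length_nil] at this
  omega

theorem Top.tri (h : Top G σ s L X) (hL : 5 ≤ L) {y : V} {U W Z : List V} {u w z : V}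
    (hT : Tripod G X y U W Z u w z) (huw : u ≠ w) (huz : u ≠ z) (hwz : w ≠ z)
    {i : ℕ} (u0 : G.Adj u (X i)) (u2 : G.Adj u (X (i + 2))) (u4 : G.Adj u (X (i + 4)))
    (w0 : G.Adj w (X i)) (w2 : G.Adj w (X (i + 2))) (w4 : G.Adj w (X (i + 4)))
    (z4 : G.Adj z (X (i + 4))) : False := by
  by_cases hU : U = []
  · have hW : W ≠ [] := by
      rintro rfl
      have h1 := hT.lu
      have h2 := hT.lw
      rw [hU] at h1
      simp only [List.getLast?_singleton, Option.some.injEq] at h1 h2
      exact huw (h1.symm.trans h2)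
    exact h.tri0 hL hT.swap huw.symm hwz huz hW w0 w2 u2 z4
  · exact h.tri0 hL hT huw huz hwz hU u0 u2 w2 z4

theorem first_mem {α : Type*} {p : α → Prop} : ∀ (Q : List α), (∃ x ∈ Q, p x) →
    ∃ Q1 y Q2, Q = Q1 ++ y :: Q2 ∧ p y ∧ ∀ x ∈ Q1, ¬ p x
  | [], h => by obtain ⟨x, hx, _⟩ := h; simp at hx
  | a :: Q, h => by
    by_cases ha : p a
    · exact ⟨[], a, Q, rfl, ha, by simp⟩
    · obtain ⟨x, hx, hpx⟩ := h
      have hxQ : x ∈ Q := by
        rcases List.mem_cons.1 hx with rfl | hx
        · exact absurd hpx ha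
        · exact hx
      obtain ⟨Q1, y, Q2, h1, h2, h3⟩ := first_mem Q ⟨x, hxQ, hpx⟩
      refine ⟨a :: Q1, y, Q2, by rw [h1]; rfl, h2, fun z hz => ?_⟩
      rcases List.mem_cons.1 hz with rfl | hz
      · exact ha
      · exact h3 z hz

theorem exists_tripod {P Q : List V} {u w z v : V} (hP : OP G X P u w) (hQ : OP G X Q z v)
    (hv : v ∈ P) : ∃ y U W Z, Tripod G X y U W Z u w z := by
  obtain ⟨Q1, y, Q2, hQe, hy, hQ1⟩ := first_mem (p := fun x => x ∈ P) Q ⟨v, hQ.memw, hv⟩
  obtain ⟨P1, P2, hPe⟩ := List.append_of_mem hy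
  have hQch := hQ.ch
  have hPch := hP.ch
  have hPnd := hP.nd
  have hQnd := hQ.nd
  have hPhd := hP.hd
  have hPlt := hP.lt
  have hQhd := hQ.hd
  rw [hQe, List.isChain_split] at hQch
  rw [hPe, List.isChain_split] at hPch
  rw [hPe] at hPnd hPhd hPlt
  rw [hQe] at hQnd hQhd
  have e1 : y :: P1.reverse = (P1 ++ [y]).reverse := by simp
  have e2 : y :: Q1.reverse = (Q1 ++ [y]).reverse := by simp
  refine ⟨y, P1.reverse, P2, Q1.reverse, ⟨?_, ?_, hPch.2, ?_, ?_, ?_, ?_, ?_⟩⟩
  · have hp : (y :: (P1.reverse ++ (P2 ++ Q1.reverse))).Perm ((P1 ++ y :: P2) ++ Q1) := by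
      refine List.Perm.trans ?_ (List.Perm.append_right _ List.perm_middle.symm)
      rw [List.cons_append, List.append_assoc]
      refine List.Perm.cons _ ?_
      exact List.Perm.append (List.reverse_perm _)
        (List.Perm.append_left _ (List.reverse_perm _))
    rw [hp.nodup_iff, List.nodup_append]
    refine ⟨hPnd, (List.nodup_append.1 hQnd).1, fun a ha b hb hab => ?_⟩
    exact hQ1 b hb (by rw [hPe]; exact hab ▸ ha)
  · rw [e1]; exact chain_rev hPch.1
  · rw [e2]; exact chain_rev hQch.1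
  · rw [e1, List.getLast?_reverse]
    rw [List.head?_append] at hPhd ⊢
    exact hPhd
  · rw [List.getLast?_append] at hPlt
    cases hc : (y :: P2).getLast? with
    | none => simp at hc
    | some a => rw [hc] at hPlt; simpa using hPlt
  · rw [e2, List.getLast?_reverse]
    rw [List.head?_append] at hQhd ⊢
    exact hQhd
  · intro x hx
    have : x ∈ P ∨ x ∈ Q := by
      rw [hPe, hQe]
      simp only [List.mem_append, List.mem_reverse, List.mem_cons] at hx ⊢
      tauto
    rcases this with h1 | h1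
    · exact hP.off x h1
    · exact hQ.off x h1

end Run7.h807
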