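import Mathlib
import Pool.Agent.Run7.h807.HvA

set_option autoImplicit false

namespace Run7.h807

section count

variable {L : ℕ}

/-- `k` and `k+1` are both in `A` or both outside -/
def Df (A : ℕ → Prop) (k : ℕ) : Prop := A k ↔ A (k + 1)

/-- `k` and `k+1` are both in `A` -/
def Un (A : ℕ → Prop) (k : ℕ) : Prop := A k ∧ A (k + 1)

theorem snum_eq_sum (A : ℕ → Prop) [DecidablePred A] :
    snum L A = ∑ k ∈ Finset.Ico 0 L, if A k then 1 else 0 := by
  unfold snum
  rw [Finset.card_filter]
  refine Finset.sum_congr rfl fun k _ => ?_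
  congr

theorem df_count {A : ℕ → Prop} (hA : ∀ k, A (k + L) ↔ A k) :
    snum L (Df A) + 2 * snum L A = L + 2 * snum L (Un A) := by
  classical
  have h1 := snum_shift hA 1
  have h2 : snum L (Df A) + (snum L A + snum L (fun k => A (k + 1))) =
      L + 2 * snum L (Un A) := by
    rw [snum_eq_sum, snum_eq_sum, snum_eq_sum, snum_eq_sum, ← Finset.sum_add_distrib,
      ← Finset.sum_add_distrib, Finset.mul_sum]
    have e : L = ∑ _k ∈ Finset.Ico 0 L, 1 := by simp
    conv_rhs => lhs; rw [e]
    rw [← Finset.sum_add_distrib]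
    refine Finset.sum_congr rfl fun k _ => ?_
    unfold Df Un
    by_cases a : A k <;> by_cases b : A (k + 1) <;> simp [a, b]
  omega

theorem window_bad {B : ℕ → Prop} (hB : ∀ k, B (k + L) ↔ B k) (w : ℕ) :
    snum L (fun i => ∃ k, k < w ∧ B (i + k)) ≤ w * snum L B := by
  classical
  induction w with
  | zero =>
    have : ¬ 0 < snum L (fun i => ∃ k, k < 0 ∧ B (i + k)) := by
      intro h0
      obtain ⟨k, k', hk, _⟩ := exists_of_snum_pos h0
      omega
    omega
  | succ w ih =>
    have h1 : snum L (fun i => ∃ k, k < w + 1 ∧ B (i + k)) ≤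
        snum L (fun i => (∃ k, k < w ∧ B (i + k)) ∨ B (i + w)) := by
      refine snum_mono fun i => ?_
      rintro ⟨k, hk, hk'⟩
      rcases Nat.lt_or_ge k w with h | h
      · exact Or.inl ⟨k, h, hk'⟩
      · have : k = w := by omega
        exact Or.inr (this ▸ hk')
    have h2 : snum L (fun i => (∃ k, k < w ∧ B (i + k)) ∨ B (i + w)) ≤
        snum L (fun i => ∃ k, k < w ∧ B (i + k)) + snum L (fun i => B (i + w)) := by
      have := snum_or_and (c := L) (A := fun i => ∃ k, k < w ∧ B (i + k))
        (B := fun i => B (i + w))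
      omega
    rw [snum_shift hB w] at h2
    have : (w + 1) * snum L B = w * snum L B + snum L B := by ring
    omega

/-- pigeonhole: a position which is good for three members -/
theorem pigeon3 {α : Type*} [DecidableEq α] (H : Finset α) (B : α → ℕ → Prop) (hL : 0 < L)
    {T : ℕ} (h3 : 3 ≤ H.card) (hB : ∀ u ∈ H, snum L (B u) ≤ T)
    (hT : H.card * T < (H.card - 2) * L) :
    ∃ i, i < L ∧ ∃ u ∈ H, ∃ w ∈ H, ∃ z ∈ H, u ≠ w ∧ u ≠ z ∧ w ≠ z ∧ ¬ B u i ∧ ¬ B w i ∧
      ¬ B z i := by
  classical
  by_contra hcon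
  push Not at hcon
  have h1 : ∀ i ∈ Finset.Ico 0 L, H.card - 2 ≤ (H.filter (fun u => B u i)).card := by
    intro i hi
    rw [Finset.mem_Ico] at hi
    have h2 : (H.filter (fun u => ¬ B u i)).card ≤ 2 := by
      by_contra hlt
      push Not at hlt
      obtain ⟨a, ha, b, hb, c, hc, hab, hac, hbc⟩ := Finset.two_lt_card.1 hlt
      rw [Finset.mem_filter] at ha hb hc
      exact hc.2 (hcon i hi.2 a ha.1 b hb.1 c hc.1 hab hac hbc ha.2 hb.2)
    have h3 := Finset.card_filter_add_card_filter_not (s := H) (fun u => B u i)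
    omega
  have h2 := Finset.sum_le_sum h1
  rw [Finset.sum_const, Nat.card_Ico, smul_eq_mul, Nat.sub_zero] at h2
  have h3' : ∑ i ∈ Finset.Ico 0 L, (H.filter (fun u => B u i)).card = ∑ u ∈ H, snum L (B u) := by
    unfold snum
    simp only [Finset.card_filter]
    rw [Finset.sum_comm]
  have h4 := Finset.sum_le_sum hB
  rw [Finset.sum_const, smul_eq_mul] at h4
  have : L * (H.card - 2) = (H.card - 2) * L := Nat.mul_comm _ _
  omega

end count

variable {V : Type*} {G : SimpleGraph V}
variable {σ : Sym2 V → ZMod 2} {s : ZMod 2} {L : ℕ} {X : ℕ → V}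

theorem adj_per (h : Rim G L X) (u : V) (k : ℕ) : G.Adj u (X (k + L)) ↔ G.Adj u (X k) := by
  rw [h.per]

theorem df_per (h : Rim G L X) (u : V) (k : ℕ) :
    Df (fun i => G.Adj u (X i)) (k + L) ↔ Df (fun i => G.Adj u (X i)) k := by
  unfold Df
  have e : k + L + 1 = (k + 1) + L := by omega
  simp only [e, h.per]

theorem alt_of_good {u : V} {i n : ℕ}
    (h : ¬ ∃ k, k < n ∧ Df (fun i => G.Adj u (X i)) (i + k)) : Alt G X u i n := by
  intro k hk
  push Not at h
  have := h k hk
  unfold Df at this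
  tauto

/-- the number of unit arcs of `u` -/
noncomputable def un (G : SimpleGraph V) (L : ℕ) (X : ℕ → V) (u : V) : ℕ :=
  snum L (Un (fun i => G.Adj u (X i)))

/-- the number of defects of `u` -/
noncomputable def df (G : SimpleGraph V) (L : ℕ) (X : ℕ → V) (u : V) : ℕ :=
  snum L (Df (fun i => G.Adj u (X i)))

/-- the number of rim neighbours of `u` -/
noncomputable def rn (G : SimpleGraph V) (L : ℕ) (X : ℕ → V) (u : V) : ℕ :=
  snum L (fun i => G.Adj u (X i))

theorem df_eq (h : Rim G L X) (u : V) :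
    df G L X u + 2 * rn G L X u = L + 2 * un G L X u := df_count (adj_per h u)

theorem un_le_df (u : V) : un G L X u ≤ df G L X u :=
  snum_mono fun k hk => by
    unfold Un at hk
    unfold Df
    tauto

/-- two outer vertices cannot have different unit arcs -/
theorem Top.unit_unique (h : Top G σ s L X) {u w : V} (hu : ∀ k, X k ≠ u) (hw : ∀ k, X k ≠ w)
    (huw : u ≠ w) {i j : ℕ} (hi : i < L) (hj : j < L) (hui : Un (fun i => G.Adj u (X i)) i)
    (hwj : Un (fun i => G.Adj w (X i)) j) : i = j := by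
  have key : ∀ {u w : V}, (∀ k, X k ≠ u) → (∀ k, X k ≠ w) → u ≠ w → ∀ {i j : ℕ}, i < j → j < L →
      Un (fun i => G.Adj u (X i)) i → Un (fun i => G.Adj w (X i)) j → False := by
    intro u w hu hw huw i j hij hj hui hwj
    have a1 := h.unit hu hui.1 hui.2
    have a2 := h.unit hw hwj.1 hwj.2
    have := h.two (P := [u]) (Q := [w]) (u := u) (w := u) (u' := w) (w' := w)
      (by simp) (by simp) rfl rfl (OP.single (G := G) hu).off (by simp) (by simp) rfl rfl
      (OP.single (G := G) hw).off (by simpa using huw) (i := i) (j := 1) (i' := j) (j' := 1)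
      one_pos one_pos (by omega) (by omega) hui.1 hui.2 hwj.1 hwj.2 (by
        rw [ls_single, ls_single]
        have h7 : (1 : ZMod 2) + 1 = 0 := by decide
        linear_combination a1 + a2 + h7)
    simp at this
  rcases lt_trichotomy i j with hlt | heq | hgt
  · exact (key hu hw huw hlt hj hui hwj).elim
  · exact heq
  · exact (key hw hu huw.symm hgt hi hwj hui).elim

/-- if `v0` has a unit arc then every other outer vertex has at most one -/
theorem Top.un_le_one (h : Top G σ s L X) {v0 w : V} (hv : ∀ k, X k ≠ v0) (hw : ∀ k, X k ≠ w)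
    (hvw : v0 ≠ w) (h0 : 0 < un G L X v0) : un G L X w ≤ 1 := by
  classical
  unfold un snum at h0 ⊢
  obtain ⟨e, he⟩ := Finset.card_pos.1 h0
  rw [Finset.mem_filter, Finset.mem_Ico] at he
  rw [Finset.card_le_one]
  intro a ha b hb
  rw [Finset.mem_filter, Finset.mem_Ico] at ha hb
  rw [← h.unit_unique hv hw hvw he.1.2 ha.1.2 he.2 ha.2,
    ← h.unit_unique hv hw hvw he.1.2 hb.1.2 he.2 hb.2]

end Run7.h807
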