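import Mathlib
import Pool.Agent.Run7.h807.HvB

set_option autoImplicit false

namespace Run7.h807

variable {V : Type*} {G : SimpleGraph V}

/-- the graph on the outer vertices -/
def outG (G : SimpleGraph V) (X : ℕ → V) : SimpleGraph V where
  Adj u w := G.Adj u w ∧ (∀ k, X k ≠ u) ∧ (∀ k, X k ≠ w)
  symm := ⟨fun _ _ h => ⟨h.1.symm, h.2.2, h.2.1⟩⟩
  loopless := ⟨fun _ h => h.1.ne rfl⟩

theorem outG_walk {X : ℕ → V} {u w : V} (p : (outG G X).Walk u w) (hu : ∀ k, X k ≠ u) :
    ∀ z ∈ p.support, ∀ k, X k ≠ z := by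
  induction p with
  | nil =>
    intro z hz
    rw [SimpleGraph.Walk.support_nil, List.mem_singleton] at hz
    rw [hz]; exact hu
  | cons h p ih =>
    intro z hz
    rw [SimpleGraph.Walk.support_cons] at hz
    rcases List.mem_cons.1 hz with rfl | hz
    · exact hu
    · exact ih h.2.2 z hz

theorem op_of_reach {X : ℕ → V} {u w : V} (hu : ∀ k, X k ≠ u)
    (h : (outG G X).Reachable u w) : ∃ P, OP G X P u w := by
  classical
  obtain ⟨p⟩ := h
  have hp := p.bypass_isPath
  refine ⟨p.bypass.support, hp.support_nodup, ?_, ?_, ?_, outG_walk _ hu⟩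
  · exact p.bypass.isChain_adj_support.imp fun a b hab => hab.1
  · rw [List.head?_eq_some_head (SimpleGraph.Walk.support_ne_nil _),
      SimpleGraph.Walk.head_support]
  · rw [List.getLast?_eq_some_getLast (SimpleGraph.Walk.support_ne_nil _),
      SimpleGraph.Walk.getLast_support]

theorem reach_of_op {X : ℕ → V} : ∀ {P : List V} {u : V}, P.IsChain G.Adj →
    P.head? = some u → (∀ z ∈ P, ∀ k, X k ≠ z) → ∀ z ∈ P, (outG G X).Reachable u z
  | [], _, _, h, _, _, _ => by simp at h
  | [a], u, _, h, _, z, hz => by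
    simp only [List.head?_cons, Option.some.injEq] at h
    rw [List.mem_singleton] at hz
    rw [hz, h]
  | a :: b :: l, u, hc, h, ho, z, hz => by
    simp only [List.head?_cons, Option.some.injEq] at h
    subst h
    rw [List.isChain_cons_cons] at hc
    rcases List.mem_cons.1 hz with rfl | hz
    · exact SimpleGraph.Reachable.refl _
    · have hab : (outG G X).Adj a b :=
        ⟨hc.1, ho a (by simp), ho b (by simp)⟩
      exact hab.reachable.trans
        (reach_of_op hc.2 rfl (fun x hx => ho x (List.mem_cons_of_mem _ hx)) z hz)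

theorem snum_le_one {L : ℕ} {C : ℕ → Prop}
    (h : ∀ a b, a < L → b < L → C a → C b → a = b) : snum L C ≤ 1 := by
  classical
  unfold snum
  rw [Finset.card_le_one]
  intro a ha b hb
  rw [Finset.mem_filter, Finset.mem_Ico] at ha hb
  exact h a b ha.1.2 hb.1.2 ha.2 hb.2

theorem snum_all {L : ℕ} {C : ℕ → Prop} (h : ∀ i, C i) : snum L C = L := by
  classical
  unfold snum
  rw [Finset.filter_true_of_mem (fun i _ => h i), Nat.card_Ico, Nat.sub_zero]

variable {σ : Sym2 V → ZMod 2} {s : ZMod 2} {L : ℕ} {X : ℕ → V}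

theorem Top.same_par (h : Top G σ s L X) (hL : 4 ≤ L) {P : List V} {u w : V}
    (hP : OP G X P u w) (huw : u ≠ w) {i : ℕ} (hu : Alt G X u i 3) (hw : Alt G X w i 3) :
    G.Adj u (X i) ↔ G.Adj w (X i) := by
  classical
  have u0 := hu 0 (by omega)
  have u1 := hu 1 (by omega)
  have u2 := hu 2 (by omega)
  have w0 := hw 0 (by omega)
  have w1 := hw 1 (by omega)
  have w2 := hw 2 (by omega)
  simp only [Nat.add_zero, Nat.add_assoc, Nat.reduceAdd] at u0 u1 u2 w0 w1 w2
  by_cases a : G.Adj u (X i) <;> by_cases b : G.Adj w (X i)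
  · tauto
  · exfalso
    exact h.align hL hP huw a (by tauto) (by tauto) (by tauto)
  · exfalso
    exact h.align hL hP.rev huw.symm b (by tauto) (by tauto) (by tauto)
  · tauto

/-- a flip with gain, together with a unit arc of `v0` elsewhere -/
theorem Top.unit_false (h : Top G σ s L X) {v0 : V} (hv : ∀ k, X k ≠ v0) {e0 : ℕ} (he : e0 < L)
    (hun : Un (fun i => G.Adj v0 (X i)) e0) {P : List V} {u w : V} (hP : OP G X P u w)
    (hvP : v0 ∉ P) {i j : ℕ} (hj0 : 0 < j) (hjP : j ≤ P.length + 1) (hu : G.Adj u (X i))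
    (hw : G.Adj w (X (i + j))) (hfl : ls σ P + cs σ X u i + cs σ X w (i + j) = 1)
    (hav : ∀ k, k < j → (i + k) % L ≠ e0) : False := by
  have hL0 : 0 < L := by omega
  have hper : ∀ k, Un (fun i => G.Adj v0 (X i)) (k + L) ↔ Un (fun i => G.Adj v0 (X i)) k := by
    intro k
    unfold Un
    have e : k + L + 1 = (k + 1) + L := by omega
    simp only [e, h.rim.per]
  obtain ⟨e, hei, heL, hem⟩ : ∃ e, i ≤ e ∧ e < i + L ∧ e % L = e0 := by
    have h1 := Nat.div_add_mod i L
    have h2 := Nat.mod_lt i hL0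
    rcases Nat.lt_or_ge (L * (i / L) + e0) i with h3 | h3
    · refine ⟨L * (i / L) + e0 + L, by omega, by omega, ?_⟩
      rw [Nat.add_mod_right, Nat.mul_add_mod, Nat.mod_eq_of_lt he]
    · refine ⟨L * (i / L) + e0, h3, by omega, ?_⟩
      rw [Nat.mul_add_mod, Nat.mod_eq_of_lt he]
  have hue : Un (fun i => G.Adj v0 (X i)) e := by
    rw [← per_mod hper, hem]; exact hun
  have hje : i + j ≤ e := by
    by_contra hlt
    exact hav (e - i) (by omega) (by rw [show i + (e - i) = e by omega]; exact hem)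
  have a1 := h.unit hv hue.1 hue.2
  have := h.two (P := P) (Q := [v0]) (u := u) (w := w) (u' := v0) (w' := v0)
    hP.nd hP.ch hP.hd hP.lt hP.off (by simp) (by simp) rfl rfl (OP.single (G := G) hv).off
    (by intro z hz hz'; rw [List.mem_singleton] at hz'; exact hvP (hz' ▸ hz))
    (i := i) (j := j) (i' := e) (j' := 1) hj0 one_pos hje (by omega) hu hw hue.1 hue.2 (by
      rw [ls_single]
      have h7 : (1 : ZMod 2) + 1 = 0 := by decide
      linear_combination hfl + a1 + h7)
  simp only [List.length_cons, List.length_nil] at this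
  omega

theorem Alt.step {u : V} {i n k : ℕ} (h : Alt G X u i n) (hk : k + 1 < n) :
    G.Adj u (X (i + k)) ↔ G.Adj u (X (i + k + 2)) := by
  have h1 := h k (by omega)
  have h2 := h (k + 1) hk
  have e1 : i + (k + 1) = i + k + 1 := by omega
  have e2 : i + k + 1 + 1 = i + k + 2 := by omega
  rw [e1, e2] at h2
  rw [h1, h2, not_not]

theorem Alt.even {u : V} {i : ℕ} (h : Alt G X u i 5) (h0 : G.Adj u (X i)) :
    G.Adj u (X (i + 2)) ∧ G.Adj u (X (i + 4)) := by
  have h1 := (h.step (k := 0) (by omega)).1 h0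
  have h2 := (h.step (k := 2) (by omega)).1 h1
  exact ⟨h1, h2⟩

theorem Alt.odd {u : V} {i : ℕ} (h : Alt G X u i 5) (h0 : ¬ G.Adj u (X i)) :
    G.Adj u (X (i + 1)) ∧ G.Adj u (X (i + 1 + 2)) ∧ G.Adj u (X (i + 1 + 4)) := by
  have h1 : G.Adj u (X (i + 1)) := by
    have := h 0 (by omega)
    rw [Nat.add_zero] at this
    by_contra hc
    exact h0 (this.2 hc)
  have h2 := (h.step (k := 1) (by omega)).1 h1
  have h3 := (h.step (k := 3) (by omega)).1 h2
  exact ⟨h1, h2, h3⟩

/-- three outer vertices with a common alternating window -/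
theorem Top.tri_window (h : Top G σ s L X) (hL : 5 ≤ L) {u w z : V} (hu : ∀ k, X k ≠ u)
    (hz : ∀ k, X k ≠ z) (huw : u ≠ w) (huz : u ≠ z) (hwz : w ≠ z)
    (r1 : (outG G X).Reachable u w) (r2 : (outG G X).Reachable z u) {i : ℕ}
    (au : Alt G X u i 5) (aw : Alt G X w i 5) (az : Alt G X z i 5) : False := by
  classical
  obtain ⟨P, hP⟩ := op_of_reach hu r1
  obtain ⟨Q, hQ⟩ := op_of_reach hz r2
  obtain ⟨y, U, W, Z, hT⟩ := exists_tripod hP hQ hP.memu
  have e1 := h.same_par (by omega) hP huw (au.sub le_rfl (by omega)) (aw.sub le_rfl (by omega))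
  have e2 := h.same_par (by omega) hQ huz.symm (az.sub le_rfl (by omega))
    (au.sub le_rfl (by omega))
  by_cases a : G.Adj u (X i)
  · have b : G.Adj w (X i) := e1.1 a
    have c : G.Adj z (X i) := e2.2 a
    exact h.tri hL hT huw huz hwz (i := i) a (au.even a).1 (au.even a).2 b (aw.even b).1
      (aw.even b).2 (az.even c).2
  · have b : ¬ G.Adj w (X i) := fun hb => a (e1.2 hb)
    have c : ¬ G.Adj z (X i) := fun hc => a (e2.1 hc)
    exact h.tri hL hT huw huz hwz (i := i + 1) (au.odd a).1 (au.odd a).2.1 (au.odd a).2.2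
      (aw.odd b).1 (aw.odd b).2.1 (aw.odd b).2.2 (az.odd c).2.2

/-- pigeonhole form -/
theorem Top.tri_many [DecidableEq V] (h : Top G σ s L X) (hL : 5 ≤ L) (H : Finset V)
    (hoff : ∀ u ∈ H, ∀ k, X k ≠ u)
    (hre : ∀ u ∈ H, ∀ w ∈ H, (outG G X).Reachable u w) (h3 : 3 ≤ H.card) {T : ℕ}
    (hT : ∀ u ∈ H, df G L X u ≤ T) (hnum : H.card * (5 * T) < (H.card - 2) * L) : False := by
  obtain ⟨i, -, u, hu, w, hw, z, hz, huw, huz, hwz, bu, bw, bz⟩ :=
    pigeon3 H (fun u i => ∃ k, k < 5 ∧ Df (fun i => G.Adj u (X i)) (i + k)) (L := L)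
      (by omega) h3 (T := 5 * T) (fun u hu => (window_bad (df_per h.rim u) 5).trans
        (Nat.mul_le_mul_left 5 (hT u hu))) hnum
  exact h.tri_window hL (hoff u hu) (hoff z hz) huw huz hwz (hre u hu w hw) (hre z hz u hu)
    (alt_of_good bu) (alt_of_good bw) (alt_of_good bz)

section picks

variable [Fintype V] [DecidableEq V] [DecidableRel G.Adj]

omit [Fintype V] in
theorem picks {D : ℕ}
    (hcore : ∀ S : Finset V, S.Nonempty → (∀ v ∈ S, ∀ k, X k ≠ v) →
      ∃ v ∈ S, (S.filter (G.Adj v)).card < D) (S : Finset V) (hS : ∀ v ∈ S, ∀ k, X k ≠ v) :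
    ∀ j, j ≤ S.card → ∃ H, H ⊆ S ∧ H.card = j ∧ ∀ u ∈ H, (S.filter (G.Adj u)).card < D + j := by
  intro j
  induction j with
  | zero =>
    intro _
    exact ⟨∅, by simp, rfl, by simp⟩
  | succ j ih =>
    intro hj
    obtain ⟨H, hH, hHc, hHd⟩ := ih (by omega)
    have hne : (S \ H).Nonempty := by
      rw [← Finset.card_pos]
      have := Finset.card_sdiff_add_card_eq_card hH
      omega
    obtain ⟨v, hv, hvd⟩ := hcore (S \ H) hne fun v hv => hS v (Finset.mem_sdiff.1 hv).1
    rw [Finset.mem_sdiff] at hv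
    refine ⟨insert v H, Finset.insert_subset hv.1 hH, by
      rw [Finset.card_insert_of_notMem hv.2, hHc], fun u hu => ?_⟩
    rcases Finset.mem_insert.1 hu with rfl | hu
    · have hsub : S.filter (G.Adj u) ⊆ (S \ H).filter (G.Adj u) ∪ H := by
        intro z hz
        rw [Finset.mem_filter] at hz
        rw [Finset.mem_union, Finset.mem_filter, Finset.mem_sdiff]
        by_cases hzH : z ∈ H
        · exact Or.inr hzH
        · exact Or.inl ⟨⟨hz.1, hzH⟩, hz.2⟩
      have h1 := (Finset.card_le_card hsub).trans (Finset.card_union_le _ _)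
      omega
    · have := hHd u hu
      omega

/-- a large connected set of outer vertices -/
theorem Top.comp_false (h : Top G σ s L X) {d D : ℕ} (hL : L + 2 ≤ 2 * d)
    (hD : 6 * D + 73 < d) (hd : 84 ≤ d)
    (hcore : ∀ S : Finset V, S.Nonempty → (∀ v ∈ S, ∀ k, X k ≠ v) →
      ∃ v ∈ S, (S.filter (G.Adj v)).card < D) (S : Finset V) (hS : ∀ v ∈ S, ∀ k, X k ≠ v)
    (hre : ∀ u ∈ S, ∀ w ∈ S, (outG G X).Reachable u w) (h3 : 3 ≤ S.card)
    (hun : ∀ u ∈ S, un G L X u ≤ 1)
    (hdeg : ∀ u ∈ S, d ≤ rn G L X u + (S.filter (G.Adj u)).card + 1) : False := by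
  rcases Nat.lt_or_ge S.card 12 with hlt | hge
  · have hL2 : 2 * d ≤ L + 26 := by
      obtain ⟨u, hu⟩ : S.Nonempty := Finset.card_pos.1 (by omega)
      have h1 := hdeg u hu
      have h2 : (S.filter (G.Adj u)).card ≤ S.card := Finset.card_filter_le _ _
      have h4 := df_eq h.rim u
      have h5 := hun u hu
      omega
    refine h.tri_many (by omega) S hS hre h3 (T := 2 * S.card) (fun u hu => ?_) ?_
    · have h1 := hdeg u hu
      have h2 : (S.filter (G.Adj u)).card ≤ (S.erase u).card := by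
        refine Finset.card_le_card fun z hz => ?_
        rw [Finset.mem_filter] at hz
        rw [Finset.mem_erase]
        exact ⟨hz.2.ne', hz.1⟩
      rw [Finset.card_erase_of_mem hu] at h2
      have h4 := df_eq h.rim u
      have h5 := hun u hu
      omega
    · obtain ⟨c, hc⟩ : ∃ c, S.card = c + 2 := ⟨S.card - 2, by omega⟩
      rw [hc] at hlt h3 ⊢
      rw [Nat.add_sub_cancel]
      have h1 : c * 140 ≤ c * L := Nat.mul_le_mul_left c (by omega)
      have h2 : (c + 2) * (5 * (2 * (c + 2))) < c * 140 := by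
        have : c < 10 := by omega
        have : 1 ≤ c := by omega
        interval_cases c <;> norm_num
      omega
  · obtain ⟨H, hH, hHc, hHd⟩ := picks hcore S hS 12 hge
    refine h.tri_many (by
      obtain ⟨u, hu⟩ : H.Nonempty := Finset.card_pos.1 (by omega)
      have h1 := hdeg u (hH hu)
      have h2 := hHd u hu
      have h4 := df_eq h.rim u
      have h5 := hun u (hH hu)
      omega) H (fun u hu => hS u (hH hu)) (fun u hu w hw => hre u (hH hu) w (hH hw))
      (by omega) (T := L + 26 + 2 * D - 2 * d) (fun u hu => ?_) ?_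
    · have h1 := hdeg u (hH hu)
      have h2 := hHd u hu
      have h4 := df_eq h.rim u
      have h5 := hun u (hH hu)
      omega
    · obtain ⟨u, hu⟩ : H.Nonempty := Finset.card_pos.1 (by omega)
      have h1 := hdeg u (hH hu)
      have h2 := hHd u hu
      have h4 := df_eq h.rim u
      have h5 := hun u (hH hu)
      rw [hHc]
      omega

/-- two outer vertices joined avoiding `v0`, and a unit arc of `v0` -/
theorem Top.pair_unit (h : Top G σ s L X) (hL : 4 ≤ L) {v0 : V} (hv : ∀ k, X k ≠ v0) {e0 : ℕ}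
    (he : e0 < L) (hun : Un (fun i => G.Adj v0 (X i)) e0) {P : List V} {u w : V}
    (hP : OP G X P u w) (huw : u ≠ w) (hvP : v0 ∉ P)
    (hnum : 3 * (df G L X u + df G L X w + 1) < L) : False := by
  classical
  set B : ℕ → Prop := fun k => (Df (fun i => G.Adj u (X i)) k ∨ Df (fun i => G.Adj w (X i)) k) ∨
    k % L = e0 with hB
  have hBper : ∀ k, B (k + L) ↔ B k := by
    intro k
    simp only [hB, df_per h.rim, Nat.add_mod_right]
  have hBs : snum L B ≤ df G L X u + df G L X w + 1 := by
    have h1 := snum_or_and (c := L) (A := fun k => Df (fun i => G.Adj u (X i)) k ∨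
      Df (fun i => G.Adj w (X i)) k) (B := fun k => k % L = e0)
    have h2 := snum_or_and (c := L) (A := fun k => Df (fun i => G.Adj u (X i)) k)
      (B := fun k => Df (fun i => G.Adj w (X i)) k)
    have h3 : snum L (fun k => k % L = e0) ≤ 1 := by
      refine snum_le_one fun a b ha hb ha2 hb2 => ?_
      rw [Nat.mod_eq_of_lt ha] at ha2
      rw [Nat.mod_eq_of_lt hb] at hb2
      omega
    unfold df
    simp only [hB]
    have h4 : snum L (Df fun i => G.Adj u (X i)) =
      snum L (fun k => Df (fun i => G.Adj u (X i)) k) := rfl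
    have h5 : snum L (Df fun i => G.Adj w (X i)) =
      snum L (fun k => Df (fun i => G.Adj w (X i)) k) := rfl
    omega
  have hw := window_bad hBper 3
  obtain ⟨i, hi⟩ : ∃ i, ¬ ∃ k, k < 3 ∧ B (i + k) := by
    by_contra hcon
    push Not at hcon
    have : snum L (fun i => ∃ k, k < 3 ∧ B (i + k)) = L := snum_all hcon
    omega
  push Not at hi
  have au : Alt G X u i 3 := alt_of_good (by
    rintro ⟨k, hk, hk'⟩
    exact hi k hk (Or.inl (Or.inl hk')))
  have aw : Alt G X w i 3 := alt_of_good (by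
    rintro ⟨k, hk, hk'⟩
    exact hi k hk (Or.inl (Or.inr hk')))
  obtain ⟨i', h1, h2, h3, -, -, h6, h7⟩ := h.pairflip hL hP huw au aw
  refine h.unit_false hv he hun hP hvP (i := i') (j := 2) two_pos (by
    have := hP.two_le huw; omega) h3 h6 h7 fun k hk => ?_
  have := hi (i' - i + k) (by omega)
  intro hcon
  refine this (Or.inr ?_)
  rw [show i + (i' - i + k) = i' + k by omega]
  exact hcon

end picks

end Run7.h807
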