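import Mathlib

set_option autoImplicit false

namespace Run7.h807

variable {V : Type*}

/-- `q` disjoint paths of `H` from `A` to `B` -/
def DP (H : SimpleGraph V) (A B : Finset V) (q : ℕ) : Prop :=
  ∃ P : Fin q → List V, (∀ i, (P i).Nodup ∧ (P i).IsChain H.Adj ∧
    (∃ a ∈ A, (P i).head? = some a) ∧ (∃ b ∈ B, (P i).getLast? = some b)) ∧
    ∀ i j, i ≠ j → ∀ z ∈ P i, z ∉ P j

/-- `S` separates `A` from `B` in `H` -/
def Sepa (H : SimpleGraph V) (A B S : Finset V) : Prop :=
  ∀ l : List V, l.IsChain H.Adj → (∃ a ∈ A, l.head? = some a) → (∃ b ∈ B, l.getLast? = some b) →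
    ∃ z ∈ l, z ∈ S

/-- `z` is reached from `A` avoiding `S` -/
def Rch (H : SimpleGraph V) (A S : Finset V) (z : V) : Prop :=
  ∃ l : List V, l.IsChain H.Adj ∧ (∃ a ∈ A, l.head? = some a) ∧ l.getLast? = some z ∧
    ∀ w ∈ l, w ∉ S

theorem chain_cross {H : SimpleGraph V} {R : V → Prop} : ∀ {l : List V} {a b : V},
    l.IsChain H.Adj → l.head? = some a → l.getLast? = some b → R a → ¬ R b →
      ∃ p ∈ l, ∃ q ∈ l, H.Adj p q ∧ R p ∧ ¬ R q
  | [], _, _, _, h, _, _, _ => by simp at h
  | [c], a, b, _, h, h', ha, hb => by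
    simp only [List.head?_cons, Option.some.injEq, List.getLast?_singleton] at h h'
    subst h; subst h'
    exact absurd ha hb
  | c :: c' :: l, a, b, hc, h, h', ha, hb => by
    simp only [List.head?_cons, Option.some.injEq] at h
    subst h
    rw [List.isChain_cons_cons] at hc
    rw [List.getLast?_cons_cons] at h'
    by_cases hR : R c'
    · obtain ⟨p, hp, q, hq, h1⟩ := chain_cross hc.2 rfl h' hR hb
      exact ⟨p, List.mem_cons_of_mem _ hp, q, List.mem_cons_of_mem _ hq, h1⟩
    · exact ⟨c, by simp, c', by simp, hc.1, ha, hR⟩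

theorem chain_first {p : V → Prop} : ∀ (Q : List V), (∃ x ∈ Q, p x) →
    ∃ Q1 y Q2, Q = Q1 ++ y :: Q2 ∧ p y ∧ ∀ x ∈ Q1, ¬ p x
  | [], h => by obtain ⟨x, hx, _⟩ := h; simp at hx
  | a :: Q, h => by
    by_cases ha : p a
    · exact ⟨[], a, Q, rfl, ha, by simp⟩
    · obtain ⟨x, hx, hpx⟩ := h
      have hxQ : x ∈ Q := by
        rcases List.mem_cons.1 hx with rfl | hx
        · exact absurd hpx ha
        · exact hx
      obtain ⟨Q1, y, Q2, h1, h2, h3⟩ := chain_first Q ⟨x, hxQ, hpx⟩
      refine ⟨a :: Q1, y, Q2, by rw [h1]; rfl, h2, fun z hz => ?_⟩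
      rcases List.mem_cons.1 hz with rfl | hz
      · exact ha
      · exact h3 z hz

theorem list_rev_chain {H : SimpleGraph V} {P : List V} (h : P.IsChain H.Adj) :
    P.reverse.IsChain H.Adj := by
  rw [List.isChain_reverse]
  exact h.imp fun a b hab => hab.symm

theorem rch_disj {H : SimpleGraph V} {A B S : Finset V} (hS : Sepa H A B S) {z : V}
    (h1 : Rch H A S z) (h2 : Rch H B S z) : False := by
  obtain ⟨l, hc, ⟨a, ha, hla⟩, hl, hav⟩ := h1
  obtain ⟨l', hc', ⟨b, hb, hlb⟩, hl', hav'⟩ := h2
  obtain ⟨l0, rfl⟩ := List.getLast?_eq_some_iff.1 hl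
  obtain ⟨l1, rfl⟩ := List.getLast?_eq_some_iff.1 hl'
  have hr := list_rev_chain hc'
  rw [List.reverse_append, List.reverse_singleton, List.singleton_append] at hr
  obtain ⟨w, hw, hwS⟩ := hS (l0 ++ z :: l1.reverse) (List.isChain_split.2 ⟨hc, hr⟩) ⟨a, ha, by
    rw [List.head?_append] at hla ⊢; exact hla⟩ ⟨b, hb, by
    have e : l0 ++ z :: l1.reverse = l0 ++ (l1 ++ [z]).reverse := by simp
    rw [e, List.getLast?_append, List.getLast?_reverse, hlb]; rfl⟩
  simp only [List.mem_append, List.mem_cons, List.mem_reverse] at hw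
  rcases hw with hw | hw | hw
  · exact hav w (by simp [hw]) hwS
  · exact hav w (by simp [hw]) hwS
  · exact hav' w (by simp [hw]) hwS

theorem rch_of_mem {H : SimpleGraph V} {A S : Finset V} {P : List V} {z e : V} (hn : P.Nodup)
    (hc : P.IsChain H.Adj) (ha : ∃ a ∈ A, P.head? = some a) (he : P.getLast? = some e)
    (hS : ∀ w ∈ P, w ∈ S → w = e) (hz : z ∈ P) (hzS : z ∉ S) : Rch H A S z := by
  obtain ⟨p1, p2, rfl⟩ := List.append_of_mem hz
  obtain ⟨a, ha, hla⟩ := ha
  rw [List.isChain_split] at hc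
  refine ⟨p1 ++ [z], hc.1, ⟨a, ha, by rw [List.head?_append] at hla ⊢; exact hla⟩, by simp,
    fun w hw hwS => ?_⟩
  rcases List.mem_append.1 hw with hw | hw
  · have hwe := hS w (List.mem_append.2 (Or.inl hw)) hwS
    have hmem : e ∈ z :: p2 := by
      rw [List.getLast?_append] at he
      cases hl : (z :: p2).getLast? with
      | none => simp at hl
      | some b =>
        rw [hl] at he
        simp only [Option.some_or, Option.some.injEq] at he
        exact he ▸ List.mem_of_getLast? hl
    rw [List.nodup_append] at hn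
    exact hn.2.2 w hw e hmem hwe
  · rw [List.mem_singleton] at hw
    exact hzS (hw ▸ hwS)

variable [Fintype V] [DecidableEq V]

theorem ends_surj {q : ℕ} {T : Finset V} (hT : T.card = q) {P : Fin q → List V} {e : Fin q → V}
    (he : ∀ i, (P i).getLast? = some (e i)) (heT : ∀ i, e i ∈ T)
    (hd : ∀ i j, i ≠ j → ∀ z ∈ P i, z ∉ P j) :
    Function.Injective e ∧ ∀ t ∈ T, ∃ i, e i = t := by
  have hinj : Function.Injective e := by
    intro i j hij
    by_contra hne
    refine hd i j hne (e i) (List.mem_of_getLast? (he i)) ?_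
    rw [hij]
    exact List.mem_of_getLast? (he j)
  refine ⟨hinj, fun t ht => ?_⟩
  have h1 : Finset.univ.image e = T := by
    refine Finset.eq_of_subset_of_card_le ?_ ?_
    · intro z hz
      rw [Finset.mem_image] at hz
      obtain ⟨i, _, rfl⟩ := hz
      exact heT i
    · rw [Finset.card_image_of_injective _ hinj, Finset.card_univ, Fintype.card_fin, hT]
  rw [← h1, Finset.mem_image] at ht
  obtain ⟨i, _, hi⟩ := ht
  exact ⟨i, hi⟩

/-- the gluing step -/
theorem menger_glue {H H' : SimpleGraph V} (hle : ∀ a b, H'.Adj a b → H.Adj a b)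
    {A B S : Finset V} {x y : V} {q : ℕ} (hxy : H.Adj x y) (hS : Sepa H' A B S)
    (hxS : x ∉ S) (hyS : y ∉ S) (hcx : (insert x S).card = q) (hcy : (insert y S).card = q)
    (hP : DP H' A (insert x S) q) (hQ : DP H' B (insert y S) q) : DP H A B q := by
  classical
  obtain ⟨P, hP, hPd⟩ := hP
  obtain ⟨Q, hQ, hQd⟩ := hQ
  choose eP heP hlP using fun i => (hP i).2.2.2
  choose eQ heQ hlQ using fun i => (hQ i).2.2.2
  obtain ⟨hPi, hPs⟩ := ends_surj hcx hlP heP hPd
  obtain ⟨hQi, hQs⟩ := ends_surj hcy hlQ heQ hQd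
  have F1 : ∀ i z, z ∈ P i → z ∈ insert x S → z = eP i := by
    intro i z hz hzS
    obtain ⟨i', hi'⟩ := hPs z hzS
    by_contra hne
    have hii : i ≠ i' := by rintro rfl; exact hne hi'.symm
    exact hPd i i' hii z hz (hi' ▸ List.mem_of_getLast? (hlP i'))
  have F2 : ∀ i z, z ∈ Q i → z ∈ insert y S → z = eQ i := by
    intro i z hz hzS
    obtain ⟨i', hi'⟩ := hQs z hzS
    by_contra hne
    have hii : i ≠ i' := by rintro rfl; exact hne hi'.symm
    exact hQd i i' hii z hz (hi' ▸ List.mem_of_getLast? (hlQ i'))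
  have F3 : ∀ i j z, z ∈ P i → z ∈ Q j → z ∈ S := by
    intro i j z hz hz'
    by_contra hzS
    refine rch_disj hS (rch_of_mem (hP i).1 (hP i).2.1 (hP i).2.2.1 (hlP i)
      (fun w hw hwS => F1 i w hw (Finset.mem_insert_of_mem hwS)) hz hzS)
      (rch_of_mem (hQ j).1 (hQ j).2.1 (hQ j).2.2.1 (hlQ j)
      (fun w hw hwS => F2 j w hw (Finset.mem_insert_of_mem hwS)) hz' hzS)
  have hτ : ∀ i, ∃ j, eQ j = if eP i = x then y else eP i := by
    intro i
    refine hQs _ ?_
    split_ifs with h
    · exact Finset.mem_insert_self _ _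
    · exact Finset.mem_insert_of_mem ((Finset.mem_insert.1 (heP i)).resolve_left h)
  choose τ hτ using hτ
  have hrest : ∀ j, ∃ rest, (Q j).reverse = eQ j :: rest := by
    intro j
    obtain ⟨l0, hl0⟩ := List.getLast?_eq_some_iff.1 (hlQ j)
    exact ⟨l0.reverse, by rw [hl0]; simp⟩
  choose rest hrest using hrest
  have hQn : ∀ j, (eQ j :: rest j).Nodup := fun j => by
    rw [← hrest]; exact List.nodup_reverse.2 (hQ j).1
  have hQc : ∀ j, (eQ j :: rest j).IsChain H'.Adj := fun j => by
    rw [← hrest]; exact list_rev_chain (hQ j).2.1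
  have hQm : ∀ j z, z ∈ eQ j :: rest j ↔ z ∈ Q j := fun j z => by
    rw [← hrest, List.mem_reverse]
  have hτi : ∀ i i', τ i = τ i' → i = i' := by
    intro i i' hii
    have h1 := hτ i
    have h2 := hτ i'
    rw [hii, h2] at h1
    refine hPi ?_
    split_ifs at h1 with ha hb hb
    · rw [ha, hb]
    · exact absurd (h1 ▸ (Finset.mem_insert.1 (heP i)).resolve_left hb) hyS
    · exact absurd (h1 ▸ (Finset.mem_insert.1 (heP i')).resolve_left ha) hyS
    · exact h1.symm
  refine ⟨fun i => P i ++ (if eP i = x then eQ (τ i) :: rest (τ i) else rest (τ i)),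
    fun i => ⟨?_, ?_, ?_, ?_⟩, ?_⟩
  · -- nodup
    dsimp only
    by_cases hx : eP i = x
    · rw [if_pos hx, List.nodup_append]
      refine ⟨(hP i).1, hQn _, fun a ha b hb hab => ?_⟩
      subst hab
      have hbS := F3 i (τ i) a ha ((hQm _ _).1 hb)
      have := F1 i a ha (Finset.mem_insert_of_mem hbS)
      rw [this, hx] at hbS
      exact hxS hbS
    · rw [if_neg hx, List.nodup_append]
      have hn := hQn (τ i)
      rw [List.nodup_cons] at hn
      refine ⟨(hP i).1, hn.2, fun a ha b hb hab => ?_⟩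
      subst hab
      have hbQ : a ∈ Q (τ i) := (hQm _ _).1 (List.mem_cons_of_mem _ hb)
      have hbS := F3 i (τ i) a ha hbQ
      have := F2 (τ i) a hbQ (Finset.mem_insert_of_mem hbS)
      exact hn.1 (this ▸ hb)
  · -- chain
    dsimp only
    by_cases hx : eP i = x
    · rw [if_pos hx, List.isChain_append]
      refine ⟨(hP i).2.1.imp (hle), (hQc _).imp (hle), fun a ha b hb => ?_⟩
      rw [hlP i, Option.mem_def, Option.some.injEq] at ha
      rw [List.head?_cons, Option.mem_def, Option.some.injEq] at hb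
      subst ha; subst hb
      rw [hτ i, if_pos hx, hx]
      exact hxy
    · rw [if_neg hx]
      obtain ⟨l0, hl0⟩ := List.getLast?_eq_some_iff.1 (hlP i)
      have he : eQ (τ i) = eP i := by rw [hτ i, if_neg hx]
      rw [hl0, List.append_assoc, List.singleton_append, List.isChain_split]
      refine ⟨?_, ?_⟩
      · rw [← hl0]; exact (hP i).2.1.imp (hle)
      · rw [← he]; exact (hQc _).imp (hle)
  · obtain ⟨a, ha, hla⟩ := (hP i).2.2.1
    exact ⟨a, ha, by dsimp only; rw [List.head?_append, hla]; rfl⟩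
  · obtain ⟨b, hb, hlb⟩ := (hQ (τ i)).2.2.1
    refine ⟨b, hb, ?_⟩
    have hlast : (eQ (τ i) :: rest (τ i)).getLast? = some b := by
      rw [← hrest, List.getLast?_reverse, hlb]
    dsimp only
    by_cases hx : eP i = x
    · rw [if_pos hx, List.getLast?_append, hlast]; rfl
    · rw [if_neg hx]
      have he : eQ (τ i) = eP i := by rw [hτ i, if_neg hx]
      cases hr : rest (τ i) with
      | nil =>
        rw [hr] at hlast
        simp only [List.getLast?_singleton, Option.some.injEq] at hlast
        rw [List.append_nil, hlP i, ← he, hlast]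
      | cons c l =>
        rw [hr, List.getLast?_cons_cons] at hlast
        rw [List.getLast?_append, hlast]; rfl
  · intro i i' hii z hz hz'
    dsimp only at hz hz'
    have hmem : ∀ i, z ∈ P i ++ (if eP i = x then eQ (τ i) :: rest (τ i) else rest (τ i)) →
        z ∈ P i ∨ z ∈ Q (τ i) := by
      intro i hz
      rcases List.mem_append.1 hz with hz | hz
      · exact Or.inl hz
      · right
        split_ifs at hz
        · exact (hQm _ _).1 hz
        · exact (hQm _ _).1 (List.mem_cons_of_mem _ hz)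
    have hcross : ∀ i i', i ≠ i' → z ∈ P i → z ∈ Q (τ i') → False := by
      intro i i' hii h1 h2
      have hzS := F3 i (τ i') z h1 h2
      have e1 := F1 i z h1 (Finset.mem_insert_of_mem hzS)
      have e2 := F2 (τ i') z h2 (Finset.mem_insert_of_mem hzS)
      rw [hτ i'] at e2
      split_ifs at e2 with h3
      · exact hyS (e2 ▸ hzS)
      · exact hii (hPi (e1.symm.trans e2))
    rcases hmem i hz with h1 | h1 <;> rcases hmem i' hz' with h2 | h2
    · exact hPd i i' hii z h1 h2
    · exact hcross i i' hii h1 h2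
    · exact hcross i' i hii.symm h2 h1
    · exact hQd _ _ (fun h => hii (hτi i i' h)) z h1 h2

theorem menger : ∀ (n : ℕ) (H : SimpleGraph V), H.edgeSet.ncard = n → ∀ (A B : Finset V) (q : ℕ),
    (∀ S, Sepa H A B S → q ≤ S.card) → DP H A B q := by
  classical
  intro n
  induction n using Nat.strong_induction_on with
  | _ n ih =>
    intro H hn A B q hq
    by_cases hE : ∃ x y, H.Adj x y
    swap
    · push Not at hE
      have hsep : Sepa H A B (A ∩ B) := by
        intro l hc ha hb
        match l, hc, ha, hb with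
        | [], _, ha, _ => obtain ⟨a, _, h⟩ := ha; simp at h
        | [c], _, ha, hb =>
          obtain ⟨a, ha, h⟩ := ha
          obtain ⟨b, hb, h'⟩ := hb
          simp only [List.head?_cons, Option.some.injEq, List.getLast?_singleton] at h h'
          subst h; subst h'
          exact ⟨c, by simp, Finset.mem_inter.2 ⟨ha, hb⟩⟩
        | c :: c' :: l, hc, _, _ =>
          rw [List.isChain_cons_cons] at hc
          exact absurd hc.1 (hE _ _)
      obtain ⟨T, hT, hTc⟩ := Finset.exists_subset_card_eq (hq _ hsep)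
      refine ⟨fun i => [((T.equivFinOfCardEq hTc).symm i : V)], fun i => ⟨by simp, by simp, ?_,
        ?_⟩, ?_⟩
      · exact ⟨_, (Finset.mem_inter.1 (hT ((T.equivFinOfCardEq hTc).symm i).2)).1, rfl⟩
      · exact ⟨_, (Finset.mem_inter.1 (hT ((T.equivFinOfCardEq hTc).symm i).2)).2, rfl⟩
      · intro i j hij z hz hz'
        rw [List.mem_singleton] at hz hz'
        apply hij
        have : (T.equivFinOfCardEq hTc).symm i = (T.equivFinOfCardEq hTc).symm j :=
          Subtype.ext (hz.symm.trans hz')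
        exact (Equiv.injective _) this
    obtain ⟨x0, y0, hxy0⟩ := hE
    set H' := H.deleteEdges {s(x0, y0)} with hH'
    have hadj : ∀ a b, H'.Adj a b ↔ H.Adj a b ∧ s(a, b) ≠ s(x0, y0) := fun a b => by
      rw [hH', SimpleGraph.deleteEdges_adj, Set.mem_singleton_iff]
    have hle : ∀ a b, H'.Adj a b → H.Adj a b := fun a b h => ((hadj a b).1 h).1
    have hlt : H'.edgeSet.ncard < n := by
      rw [← hn]
      refine Set.ncard_lt_ncard ⟨?_, ?_⟩ (Set.toFinite _)
      · intro e he
        induction e using Sym2.ind with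
        | _ a b =>
          rw [SimpleGraph.mem_edgeSet] at he ⊢
          exact hle a b he
      · intro hsub
        have : s(x0, y0) ∈ H'.edgeSet := hsub hxy0
        rw [SimpleGraph.mem_edgeSet, hadj] at this
        exact this.2 rfl
    by_cases hall : ∀ S, Sepa H' A B S → q ≤ S.card
    · obtain ⟨P, hP, hPd⟩ := ih _ hlt H' rfl A B q hall
      exact ⟨P, fun i => ⟨(hP i).1, (hP i).2.1.imp (hle), (hP i).2.2.1, (hP i).2.2.2⟩, hPd⟩
    push Not at hall
    obtain ⟨S, hS, hSq⟩ := hall
    -- orientation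
    have hnS : ¬ Sepa H A B S := fun h => by have := hq S h; omega
    have hor : ∃ x y, s(x, y) = s(x0, y0) ∧ Rch H' A S x ∧ ¬ Rch H' A S y ∧ Rch H' B S y ∧
        ¬ Rch H' B S x := by
      unfold Sepa at hnS
      push Not at hnS
      obtain ⟨l, hc, ⟨a, ha, hla⟩, ⟨b, hb, hlb⟩, hav⟩ := hnS
      have ra : Rch H' A S a := ⟨[a], by simp, ⟨a, ha, rfl⟩, rfl, by
        intro w hw; rw [List.mem_singleton] at hw; rw [hw]
        exact hav a (List.mem_of_mem_head? (by rw [hla]; rfl))⟩
      have rb : Rch H' B S b := ⟨[b], by simp, ⟨b, hb, rfl⟩, rfl, by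
        intro w hw; rw [List.mem_singleton] at hw; rw [hw]
        exact hav b (List.mem_of_getLast? hlb)⟩
      have step : ∀ {C : Finset V} {p p' : V}, H.Adj p p' → p' ∈ l → Rch H' C S p →
          ¬ Rch H' C S p' → s(p, p') = s(x0, y0) := by
        intro C p p' hpp hp' h1 h2
        by_contra hne
        apply h2
        obtain ⟨l1, hc1, hh1, hl1, hav1⟩ := h1
        refine ⟨l1 ++ [p'], ?_, ?_, by simp, ?_⟩
        · rw [List.isChain_append]
          refine ⟨hc1, by simp, fun u hu w hw => ?_⟩
          rw [hl1, Option.mem_def, Option.some.injEq] at hu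
          rw [List.head?_cons, Option.mem_def, Option.some.injEq] at hw
          subst hu; subst hw
          exact (hadj _ _).2 ⟨hpp, hne⟩
        · obtain ⟨c, hc, hh⟩ := hh1
          exact ⟨c, hc, by rw [List.head?_append, hh]; rfl⟩
        · intro w hw
          rcases List.mem_append.1 hw with hw | hw
          · exact hav1 w hw
          · rw [List.mem_singleton] at hw
            rw [hw]; exact hav p' hp'
      have rb' : ¬ Rch H' A S b := fun h => rch_disj hS h rb
      have ra' : ¬ Rch H' B S a := fun h => rch_disj hS ra h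
      obtain ⟨p, hp, p', hp', hpp, h1, h2⟩ := chain_cross (R := Rch H' A S) hc hla hlb ra rb'
      have hlr : l.reverse.head? = some b := by rw [List.head?_reverse, hlb]
      have hlr' : l.reverse.getLast? = some a := by rw [List.getLast?_reverse, hla]
      obtain ⟨r, hr, r', hr', hrr, h3, h4⟩ := chain_cross (R := Rch H' B S) (list_rev_chain hc)
        hlr hlr' rb ra'
      have e1 := step hpp hp' h1 h2
      have e2 := step hrr (List.mem_reverse.1 hr') h3 h4
      have e3 : s(p, p') = s(r, r') := e1.trans e2.symm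
      rw [Sym2.eq_iff] at e3
      rcases e3 with ⟨rfl, rfl⟩ | ⟨rfl, rfl⟩
      · exact (rch_disj hS h1 h3).elim
      · exact ⟨p, p', e1, h1, h2, h3, h4⟩
    obtain ⟨x, y, hxy, hxA, hyA, hyB, hxB⟩ := hor
    have hadj' : ∀ a b, H'.Adj a b ↔ H.Adj a b ∧ s(a, b) ≠ s(x, y) := fun a b => by
      rw [hadj, hxy]
    have hHxy : H.Adj x y := by
      have : s(x, y) ∈ H.edgeSet := by rw [hxy]; exact hxy0
      exact this
    have notS : ∀ {C : Finset V} {z : V}, Rch H' C S z → z ∉ S := by
      intro C z h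
      obtain ⟨l, _, _, hl, hav⟩ := h
      exact hav z (List.mem_of_getLast? hl)
    have hxS := notS hxA
    have hyS := notS hyB
    -- a chain avoiding `x` (or `y`) is a chain in `H'`
    have avoid : ∀ (v : V), (v = x ∨ v = y) → ∀ l : List V, l.IsChain H.Adj → v ∉ l →
        l.IsChain H'.Adj := by
      intro v hv l hc hvl
      refine List.IsChain.imp_of_mem_imp (fun a b ha hb hab => ?_) hc
      refine (hadj' a b).2 ⟨hab, fun he => ?_⟩
      rw [Sym2.eq_iff] at he
      rcases hv with rfl | rfl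
      · rcases he with ⟨h1, _⟩ | ⟨_, h1⟩
        · exact hvl (h1 ▸ ha)
        · exact hvl (h1 ▸ hb)
      · rcases he with ⟨_, h1⟩ | ⟨h1, _⟩
        · exact hvl (h1 ▸ hb)
        · exact hvl (h1 ▸ ha)
    have hsepins : ∀ v, (v = x ∨ v = y) → Sepa H A B (insert v S) := by
      intro v hv l hc ha hb
      by_contra hcon
      push Not at hcon
      have hvl : v ∉ l := fun h => hcon v h (Finset.mem_insert_self _ _)
      obtain ⟨z, hz, hzS⟩ := hS l (avoid v hv l hc hvl) ha hb
      exact hcon z hz (Finset.mem_insert_of_mem hzS)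
    have hcx : (insert x S).card = q := by
      have h1 := hq _ (hsepins x (Or.inl rfl))
      have h2 := Finset.card_insert_le x S
      omega
    have hcy : (insert y S).card = q := by
      have h1 := hq _ (hsepins y (Or.inr rfl))
      have h2 := Finset.card_insert_le y S
      omega
    -- initial segments
    have init : ∀ (C : Finset V) (v v' : V), s(v, v') = s(x, y) → ¬ Rch H' C S v' →
        ∀ l : List V, l.IsChain H.Adj → (∃ a ∈ C, l.head? = some a) →
          (∃ z ∈ l, z ∈ insert v S) → ∀ T, Sepa H' C (insert v S) T → ∃ z ∈ l, z ∈ T := by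
      intro C v v' hvv hv' l hc ha hz T hT
      obtain ⟨l1, z, l2, rfl, hz, hl1⟩ := chain_first l hz
      have hvx : v = x ∨ v = y := by
        rw [Sym2.eq_iff] at hvv
        rcases hvv with ⟨h, _⟩ | ⟨h, _⟩
        · exact Or.inl h
        · exact Or.inr h
      rw [List.isChain_split] at hc
      have hc1 := hc.1
      rw [List.isChain_append] at hc1
      have hch1 : l1.IsChain H'.Adj := avoid v hvx l1 hc1.1 fun h =>
        hl1 v h (Finset.mem_insert_self _ _)
      obtain ⟨a, ha, hla⟩ := ha
      have hhead : (l1 ++ [z]).head? = some a := by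
        rw [List.head?_append] at hla ⊢; exact hla
      have hch2 : (l1 ++ [z]).IsChain H'.Adj := by
        rw [List.isChain_append]
        refine ⟨hch1, by simp, fun u hu w hw => ?_⟩
        rw [List.head?_cons, Option.mem_def, Option.some.injEq] at hw
        subst hw
        refine (hadj' _ _).2 ⟨hc1.2.2 u hu z (by simp), fun he => ?_⟩
        rw [← hvv, Sym2.eq_iff] at he
        have hu1 : u ∈ l1 := List.mem_of_getLast? hu
        rcases he with ⟨h1, _⟩ | ⟨h1, _⟩
        · exact hl1 u hu1 (h1 ▸ Finset.mem_insert_self _ _)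
        · apply hv'
          rw [← h1]
          refine ⟨l1, hch1, ⟨a, ha, ?_⟩, hu, fun w hw hwS =>
            hl1 w hw (Finset.mem_insert_of_mem hwS)⟩
          cases l1 with
          | nil => simp at hu1
          | cons c l1 => simpa using hhead
      obtain ⟨w, hw, hwT⟩ := hT (l1 ++ [z]) hch2 ⟨a, ha, hhead⟩ ⟨z, hz, by simp⟩
      refine ⟨w, ?_, hwT⟩
      simp only [List.mem_append, List.mem_cons, List.not_mem_nil, or_false] at hw ⊢
      tauto
    have hP : DP H' A (insert x S) q := by
      refine ih _ hlt H' rfl A (insert x S) q fun T hT => hq T ?_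
      intro l hc ha hb
      exact init A x y rfl hyA l hc ha (hsepins x (Or.inl rfl) l hc ha hb) T hT
    have hQ : DP H' B (insert y S) q := by
      refine ih _ hlt H' rfl B (insert y S) q fun T hT => hq T ?_
      intro l hc ha hb
      obtain ⟨a, ha, hla⟩ := ha
      obtain ⟨b, hb, hlb⟩ := hb
      obtain ⟨z0, hz0, hz0'⟩ := hsepins y (Or.inr rfl) l hc ⟨a, ha, hla⟩ ⟨b, hb, hlb⟩
      obtain ⟨z, hz, hzT⟩ := init B y x Sym2.eq_swap hxB l.reverse (list_rev_chain hc)
        ⟨b, hb, by rw [List.head?_reverse, hlb]⟩ ⟨z0, List.mem_reverse.2 hz0, hz0'⟩ T hT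
      exact ⟨z, List.mem_reverse.1 hz, hzT⟩
    exact menger_glue hle hHxy hS hxS hyS hcx hcy hP hQ

end Run7.h807
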