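import Mathlib
import Pool.Agent.Run7.h807.HvD
import Pool.Agent.Run7.h807.Dirac
import Pool.Agent.Run7.h807.Menger

set_option autoImplicit false

namespace Run7.h807

variable {V : Type*} {G : SimpleGraph V}

section cyc

variable [Fintype V] [DecidableEq V] [DecidableRel G.Adj]

/-- a long cycle of sign `0` in a set of large minimum degree -/
theorem core_cycle (σ : Sym2 V → ZMod 2) {h : ℕ} (hh : 2 ≤ h) (S : Finset V)
    (hne : S.Nonempty) (hS : ∀ v ∈ S, 2 * h - 1 ≤ (S.filter (G.Adj v)).card) :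
    ∃ l, Cyc G σ 0 l ∧ (∀ z ∈ l, z ∈ S) ∧ h + 1 ≤ l.length := by
  classical
  obtain ⟨v, hv⟩ := hne
  obtain ⟨P, hPn, hPc, hPR, hPne, hPmax⟩ := exists_max_path (G := G) (R := fun z => z ∈ S)
    (v := v) hv
  obtain ⟨u, q, hPq⟩ : ∃ u q, P = u :: q := by
    cases P with
    | nil => exact absurd rfl hPne
    | cons u q => exact ⟨u, q, rfl⟩
  have hlen : 0 < P.length := by rw [hPq]; simp
  obtain ⟨Z, hZ⟩ : ∃ Z : ℕ → V, ∀ k (hk : k < P.length), Z k = P[k] :=
    ⟨fun k => P.getD k u, fun k hk => by simp [List.getD_eq_getElem?_getD, hk]⟩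
  have hZ0 : Z 0 = u := by
    rw [hZ 0 hlen]
    simp [hPq]
  have hseg : ∀ i n, i + n ≤ P.length → seg Z i n = (P.drop i).take n := by
    intro i n hin
    refine List.ext_getElem (by rw [seg_length, List.length_take, List.length_drop]; omega)
      fun j h1 h2 => ?_
    unfold seg
    rw [List.getElem_map, List.getElem_range, List.getElem_take, List.getElem_drop]
    rw [seg_length] at h1
    exact hZ _ (by omega)
  have hsn : ∀ i n, i + n ≤ P.length → (seg Z i n).Nodup := fun i n hin => by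
    rw [hseg i n hin]
    exact hPn.sublist ((List.take_sublist _ _).trans (List.drop_sublist _ _))
  have hsc : ∀ i n, i + n ≤ P.length → (seg Z i n).IsChain G.Adj := fun i n hin => by
    rw [hseg i n hin]
    exact (hPc.drop i).take n
  have hZS : ∀ k, k < P.length → Z k ∈ S := fun k hk => by
    rw [hZ k hk]; exact hPR _ (List.getElem_mem hk)
  have hZinj : ∀ i j, i < P.length → j < P.length → Z i = Z j → i = j := fun i j hi hj hij => by
    rw [hZ i hi, hZ j hj] at hij
    exact (List.Nodup.getElem_inj_iff hPn).1 hij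
  set I : Finset ℕ := (Finset.range P.length).filter (fun i => G.Adj u (Z i)) with hI
  have hIc : 2 * h - 1 ≤ I.card := by
    refine (hS u (by rw [← hZ0]; exact hZS 0 hlen)).trans ?_
    have hsub : S.filter (G.Adj u) ⊆ I.image Z := by
      intro z hz
      rw [Finset.mem_filter] at hz
      have hzP : z ∈ P := by
        by_contra hzP
        have := hPmax (z :: P) (List.nodup_cons.2 ⟨hzP, hPn⟩) (by
          rw [hPq, List.isChain_cons_cons, ← hPq]
          exact ⟨hz.2.symm, hPc⟩) (by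
          intro y hy
          rcases List.mem_cons.1 hy with rfl | hy
          · exact hz.1
          · exact hPR y hy)
        simp only [List.length_cons] at this
        omega
      obtain ⟨k, hk, rfl⟩ := List.getElem_of_mem hzP
      rw [Finset.mem_image]
      refine ⟨k, ?_, hZ k hk⟩
      rw [hI, Finset.mem_filter, Finset.mem_range]
      exact ⟨hk, by rw [hZ k hk]; exact hz.2⟩
    exact (Finset.card_le_card hsub).trans Finset.card_image_le
  have hImem : ∀ i ∈ I, 1 ≤ i ∧ i < P.length ∧ G.Adj u (Z i) := by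
    intro i hi
    rw [hI, Finset.mem_filter, Finset.mem_range] at hi
    refine ⟨?_, hi.1, hi.2⟩
    rcases Nat.eq_zero_or_pos i with rfl | h0
    · rw [hZ0] at hi
      exact absurd rfl hi.2.ne
    · exact h0
  set f : ℕ → ZMod 2 := fun i => σ s(u, Z i) + phi σ Z 0 i with hf
  have hsplit := Finset.card_filter_add_card_filter_not (s := I) (fun i => f i = 0)
  rcases Nat.lt_or_ge (I.filter (fun i => f i = 0)).card h with hlt | hge
  · -- class one
    set I1 := I.filter (fun i => ¬ f i = 0) with hI1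
    have hI1c : h ≤ I1.card := by omega
    have hI1ne : I1.Nonempty := Finset.card_pos.1 (by omega)
    have hmin := I1.min'_mem hI1ne
    have hmax := I1.max'_mem hI1ne
    have hsub : I1 ⊆ Finset.Icc (I1.min' hI1ne) (I1.max' hI1ne) := fun x hx =>
      Finset.mem_Icc.2 ⟨I1.min'_le x hx, I1.le_max' x hx⟩
    have hcard := Finset.card_le_card hsub
    rw [Nat.card_Icc] at hcard
    obtain ⟨i, hi⟩ : ∃ i, i = I1.min' hI1ne := ⟨_, rfl⟩
    obtain ⟨r, hr⟩ : ∃ r, I1.max' hI1ne = i + r := ⟨I1.max' hI1ne - i, by omega⟩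
    rw [← hi] at hmin hcard
    rw [hr] at hmax hcard
    rw [hI1, Finset.mem_filter] at hmin hmax
    obtain ⟨m1, m2, m3⟩ := hImem _ hmin.1
    obtain ⟨n1, n2, n3⟩ := hImem _ hmax.1
    have g1 := fl_one hmin.2
    have g2 := fl_one hmax.2
    have hlast : (u :: seg Z i (r + 1)).getLast? = some (Z (i + r)) := by
      rw [List.getLast?_cons, seg_last]; rfl
    refine ⟨u :: seg Z i (r + 1), ⟨?_, ?_, ?_, u, Z (i + r), rfl, hlast, n3.symm, ?_⟩, ?_, ?_⟩
    · rw [List.nodup_cons]
      refine ⟨fun hmem => ?_, hsn _ _ (by omega)⟩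
      obtain ⟨k, hk, hk'⟩ := mem_seg.1 hmem
      rw [← hZ0] at hk'
      have := hZinj _ _ (by omega) hlen hk'
      omega
    · rw [seg_succ, List.isChain_cons_cons, ← seg_succ]
      exact ⟨m3, hsc _ _ (by omega)⟩
    · rw [List.length_cons, seg_length]; omega
    · rw [seg_succ, ls_cons_cons, ← seg_succ, ls_seg σ Z 0, Sym2.eq_swap (a := Z (i + r))]
      simp only [hf] at g1 g2
      have h7 : (1 : ZMod 2) + 1 = 0 := by decide
      linear_combination g1 + g2 + h7
    · intro z hz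
      rcases List.mem_cons.1 hz with rfl | hz
      · rw [← hZ0]; exact hZS 0 hlen
      · obtain ⟨k, hk, rfl⟩ := mem_seg.1 hz
        exact hZS _ (by omega)
    · rw [List.length_cons, seg_length]; omega
  · -- class zero
    set I0 := I.filter (fun i => f i = 0) with hI0
    have hI0ne : I0.Nonempty := Finset.card_pos.1 (by omega)
    have hmax := I0.max'_mem hI0ne
    have hsub : I0 ⊆ Finset.Icc 1 (I0.max' hI0ne) := fun x hx => by
      rw [hI0, Finset.mem_filter] at hx
      exact Finset.mem_Icc.2 ⟨(hImem x hx.1).1, I0.le_max' x (by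
        rw [hI0, Finset.mem_filter]; exact hx)⟩
    have hcard := Finset.card_le_card hsub
    rw [Nat.card_Icc] at hcard
    obtain ⟨i, hi⟩ : ∃ i, i = I0.max' hI0ne := ⟨_, rfl⟩
    rw [← hi] at hmax hcard
    rw [hI0, Finset.mem_filter] at hmax
    obtain ⟨m1, m2, m3⟩ := hImem _ hmax.1
    have hlast : (seg Z 0 (i + 1)).getLast? = some (Z i) := by
      rw [seg_last, Nat.zero_add]
    refine ⟨seg Z 0 (i + 1), ⟨hsn _ _ (by omega), hsc _ _ (by omega), ?_, u, Z i, ?_, hlast,
      m3.symm, ?_⟩, ?_, ?_⟩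
    · rw [seg_length]; omega
    · rw [seg_head, hZ0]
    · rw [ls_seg σ Z 0, Nat.zero_add, Sym2.eq_swap (a := Z i)]
      have g1 := hmax.2
      simp only [hf] at g1
      have h8 : phi σ Z 0 0 = 0 := rfl
      rw [h8]
      linear_combination g1
    · intro z hz
      obtain ⟨k, hk, rfl⟩ := mem_seg.1 hz
      exact hZS _ (by omega)
    · rw [seg_length]; omega

end cyc

section arc

variable {σ : Sym2 V → ZMod 2} {c : ℕ} {Y : ℕ → V}

theorem seg_snoc (X : ℕ → V) (i n : ℕ) : seg X i (n + 1) = seg X i n ++ [X (i + n)] := by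
  unfold seg
  rw [List.range_succ, List.map_append]
  rfl

/-- an arc of the rim `Y` from `y` to `y'` -/
structure Arc (G : SimpleGraph V) (σ : Sym2 V → ZMod 2) (Y : ℕ → V) (y y' : V) (a a' : ZMod 2)
    (μ : ℕ) (M : List V) : Prop where
  nd : (y :: M).Nodup
  ch : (y :: M).IsChain G.Adj
  lt : (y :: M).getLast? = some y'
  val : ls σ (y :: M) = a + a'
  mem : ∀ z ∈ y :: M, ∃ k, Y k = z
  len : μ ≤ M.length

theorem arc_fwd (hY : Rim G c Y) {e r : ℕ} (hr : r < c) :
    Arc G σ Y (Y e) (Y (e + r)) (phi σ Y 0 e) (phi σ Y 0 (e + r)) r (seg Y (e + 1) r) := by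
  have h1 : Y e :: seg Y (e + 1) r = seg Y e (r + 1) := (seg_succ Y e r).symm
  refine ⟨?_, ?_, ?_, ?_, ?_, ?_⟩
  · rw [h1]; exact hY.seg_nodup _ _ (by omega)
  · rw [h1]; exact seg_chain hY.adj _ _
  · rw [h1, seg_last]
  · rw [h1, ls_seg σ Y 0, add_comm]
  · intro z hz
    rw [h1] at hz
    obtain ⟨k, _, hk⟩ := mem_seg.1 hz
    exact ⟨_, hk⟩
  · rw [seg_length]

theorem arc_bwd (hY : Rim G c Y) {f r : ℕ} (hr : r < c) :
    Arc G σ Y (Y (f + r)) (Y f) (phi σ Y 0 (f + r)) (phi σ Y 0 f) r (seg Y f r).reverse := by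
  have h1 : Y (f + r) :: (seg Y f r).reverse = (seg Y f (r + 1)).reverse := by
    rw [seg_snoc, List.reverse_append]; rfl
  refine ⟨?_, ?_, ?_, ?_, ?_, ?_⟩
  · rw [h1]; exact List.nodup_reverse.2 (hY.seg_nodup _ _ (by omega))
  · rw [h1]; exact chain_rev (seg_chain hY.adj _ _)
  · rw [h1, List.getLast?_reverse, seg_head]
  · rw [h1, ls_reverse, ls_seg σ Y 0]
  · intro z hz
    rw [h1, List.mem_reverse] at hz
    obtain ⟨k, _, hk⟩ := mem_seg.1 hz
    exact ⟨_, hk⟩
  · rw [List.length_reverse, seg_length]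

theorem Arc.mono {y y' : V} {a a' : ZMod 2} {μ μ' : ℕ} {M : List V}
    (h : Arc G σ Y y y' a a' μ M) (hμ : μ' ≤ μ) : Arc G σ Y y y' a a' μ' M :=
  ⟨h.nd, h.ch, h.lt, h.val, h.mem, hμ.trans h.len⟩

theorem long_arc (hY : Rim G c Y) (h0 : phi σ Y 0 c = 0) {e f : ℕ} (he : e < c) (hf : f < c)
    (hef : e ≠ f) {μ : ℕ} (hμ : 2 * μ ≤ c + 1) :
    ∃ M, Arc G σ Y (Y e) (Y f) (phi σ Y 0 e) (phi σ Y 0 f) μ M := by
  have hper : ∀ k, phi σ Y 0 (k + c) = phi σ Y 0 k := fun k => by
    rw [phi_per hY, h0, add_zero, add_zero]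
  rcases lt_or_gt_of_ne hef with hlt | hgt
  · obtain ⟨r, rfl⟩ : ∃ r, f = e + r := ⟨f - e, by omega⟩
    rcases Nat.lt_or_ge r μ with h1 | h1
    · have h2 := arc_bwd (σ := σ) hY (f := e + r) (r := c - r) (by omega)
      rw [show e + r + (c - r) = e + c by omega, hY.per, hper] at h2
      exact ⟨_, h2.mono (by omega)⟩
    · exact ⟨_, (arc_fwd hY (e := e) (r := r) (by omega)).mono h1⟩
  · obtain ⟨r, rfl⟩ : ∃ r, e = f + r := ⟨e - f, by omega⟩
    rcases Nat.lt_or_ge r μ with h1 | h1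
    · have h2 := arc_fwd (σ := σ) hY (e := f + r) (r := c - r) (by omega)
      rw [show f + r + (c - r) = f + c by omega, hY.per, hper] at h2
      exact ⟨_, h2.mono (by omega)⟩
    · exact ⟨_, (arc_bwd hY (f := f) (r := r) (by omega)).mono h1⟩

end arc

section conn

variable {σ : Sym2 V → ZMod 2} {s : ZMod 2} {L c : ℕ} {X Y : ℕ → V}

/-- a path from the rim `Y` to the rim `X` -/
structure Conn (G : SimpleGraph V) (X Y : ℕ → V) (e : ℕ) (T : List V) (u : V) (a : ℕ) :
    Prop where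
  nd : (Y e :: T).Nodup
  ch : (Y e :: T).IsChain G.Adj
  lt : (Y e :: T).getLast? = some u
  off : ∀ z ∈ Y e :: T, ∀ k, X k ≠ z
  offY : ∀ z ∈ T, ∀ k, Y k ≠ z
  adj : G.Adj u (X a)

theorem conn_path {e e' : ℕ} {T T' : List V} {u u' : V} {a a' : ℕ}
    (h : Conn G X Y e T u a) (h' : Conn G X Y e' T' u' a') (hoff : ∀ k j, X k ≠ Y j)
    (hTT : ∀ z ∈ Y e :: T, z ∉ Y e' :: T') {α α' : ZMod 2} {μ : ℕ} {M : List V}
    (hM : Arc G σ Y (Y e) (Y e') α α' μ M) :
    ∃ P, OP G X P u u' ∧ ls σ P = ls σ (Y e :: T) + α + (α' + ls σ (Y e' :: T')) ∧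
      μ + 1 ≤ P.length := by
  have hne : Y e ≠ Y e' := fun he => hTT (Y e) (by simp) (by rw [he]; simp)
  have hlast : (Y e :: (M ++ T')).getLast? = some u' := by
    have h1 := hM.lt
    have h2 := h'.lt
    rw [← List.cons_append, List.getLast?_append, h1]
    cases T' with
    | nil =>
      simp only [List.getLast?_singleton, Option.some.injEq] at h2
      simp [h2]
    | cons b l =>
      rw [List.getLast?_cons_cons] at h2
      rw [h2]; rfl
  have hMne : M ≠ [] := by
    rintro rfl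
    have h1 := hM.lt
    simp only [List.getLast?_singleton, Option.some.injEq] at h1
    exact hne h1
  obtain ⟨M0, hM0⟩ : ∃ M0, Y e :: M = M0 ++ [Y e'] := List.getLast?_eq_some_iff.1 hM.lt
  have hch : (Y e :: (M ++ T')).IsChain G.Adj := by
    rw [← List.cons_append, hM0, List.append_assoc, List.singleton_append, List.isChain_split]
    exact ⟨by rw [← hM0]; exact hM.ch, h'.ch⟩
  have hls : ls σ (Y e :: (M ++ T')) = α + α' + ls σ (Y e' :: T') := by
    rw [← List.cons_append, hM0, List.append_assoc, List.singleton_append, ls_split, ← hM0,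
      hM.val]
  have hMT : ∀ z ∈ Y e :: M, z ∉ T' := by
    intro z hz hz'
    obtain ⟨k, hk⟩ := hM.mem z hz
    exact h'.offY z hz' k hk
  have hMT2 : ∀ z ∈ Y e :: M, z ∉ T := by
    intro z hz hz'
    obtain ⟨k, hk⟩ := hM.mem z hz
    exact h.offY z hz' k hk
  have hn : (Y e :: (T ++ ((M ++ T') ++ []))).Nodup := by
    rw [List.append_nil]
    have hnM := hM.nd
    have hnT := h.nd
    have hnT' := h'.nd
    rw [List.nodup_cons] at hnM hnT hnT'
    rw [List.nodup_cons, List.nodup_append, List.nodup_append]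
    refine ⟨?_, hnT.2, ⟨hnM.2, hnT'.2, ?_⟩, ?_⟩
    · simp only [List.mem_append, not_or]
      exact ⟨hnT.1, hnM.1, hMT _ (by simp)⟩
    · intro x hx y hy hxy
      exact hMT x (List.mem_cons_of_mem _ hx) (hxy ▸ hy)
    · intro x hx y hy hxy
      subst hxy
      rcases List.mem_append.1 hy with hy | hy
      · exact hMT2 x (List.mem_cons_of_mem _ hy) hx
      · exact hTT x (List.mem_cons_of_mem _ hx) (List.mem_cons_of_mem _ hy)
  have hT : Tripod G X (Y e) T (M ++ T') [] u u' (Y e) := by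
    refine ⟨hn, h.ch, hch, by simp, h.lt, hlast, by simp, ?_⟩
    intro x hx
    simp only [List.append_nil, List.mem_cons, List.mem_append] at hx
    rcases hx with rfl | hx | hx | hx
    · exact h.off _ (by simp)
    · exact h.off _ (List.mem_cons_of_mem _ hx)
    · obtain ⟨k, hk⟩ := hM.mem x (List.mem_cons_of_mem _ hx)
      intro j hj
      exact hoff j k (hj.trans hk.symm)
    · exact h'.off _ (List.mem_cons_of_mem _ hx)
  obtain ⟨p1, p2⟩ := hT.op (σ := σ)
  refine ⟨_, p1, ?_, ?_⟩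
  · rw [p2, hls]; ring
  · have := hM.len
    simp only [List.length_append, List.length_reverse, List.length_cons]
    omega

theorem Top.conn_far (h : Top G σ s L X) (hY : Rim G c Y) (h0 : phi σ Y 0 c = 0)
    (hoff : ∀ k j, X k ≠ Y j) {e e' : ℕ} {T T' : List V} {u u' : V} {a a' : ℕ}
    (hc : Conn G X Y e T u a) (hc' : Conn G X Y e' T' u' a') (he : e < c) (he' : e' < c)
    (hTT : ∀ z ∈ Y e :: T, z ∉ Y e' :: T') {μ : ℕ} (hμ : 2 * μ ≤ c + 1) (haa : a < a')
    (ha' : a' < L)
    (hcol : ls σ (Y e :: T) + phi σ Y 0 e + cs σ X u a =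
      ls σ (Y e' :: T') + phi σ Y 0 e' + cs σ X u' a') : a + (μ + 2) ≤ a' := by
  have hne : e ≠ e' := by
    rintro rfl
    exact hTT (Y e) (by simp) (by simp)
  obtain ⟨M, hM⟩ := long_arc (σ := σ) hY h0 he he' hne hμ
  obtain ⟨P, hP, hls, hlen⟩ := conn_path hc hc' hoff hTT hM
  obtain ⟨j, rfl⟩ : ∃ j, a' = a + j := ⟨a' - a, by omega⟩
  have := h.one hP.nd hP.ch hP.hd hP.lt hP.off (i := a) (j := j) (by omega) (by omega) hc.adj
    hc'.adj (by
      rw [hls]
      have h2 := two_self (ls σ (Y e' :: T') + phi σ Y 0 e' + cs σ X u' (a + j))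
      linear_combination hcol + h2)
  omega

end conn

end Run7.h807
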