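import Mathlib
import Pool.Agent.Run7.h807.CoreA

set_option autoImplicit false

namespace Run7.h807

variable {V : Type*} {G : SimpleGraph V}

section bal

variable {σ : Sym2 V → ZMod 2} {c : ℕ} {Y : ℕ → V}

theorem rim_pot (hY : Rim G c Y) (h0 : phi σ Y 0 c = 0) :
    ∃ π : V → ZMod 2, ∀ k, π (Y k) = phi σ Y 0 k := by
  classical
  have hc : 0 < c := by have := hY.three; omega
  have hper : Function.Periodic (phi σ Y 0) c := fun k => by
    rw [phi_per hY, h0, add_zero, add_zero]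
  refine ⟨fun z => if h : ∃ k, k < c ∧ Y k = z then phi σ Y 0 h.choose else 0, fun k => ?_⟩
  have hex : ∃ j, j < c ∧ Y j = Y k := ⟨k % c, Nat.mod_lt _ hc, (hY.modeq k).symm⟩
  simp only [dif_pos hex]
  have h1 := hex.choose_spec
  have h2 : hex.choose = k % c := by
    refine hY.inj _ _ h1.1 (Nat.mod_lt _ hc) ?_
    rw [h1.2, hY.modeq k]
  rw [h2]
  exact hper.map_mod_nat k

theorem rim_link (hY : Rim G c Y) (h0 : phi σ Y 0 c = 0) {π : V → ZMod 2}
    (hπ : ∀ k, π (Y k) = phi σ Y 0 k) {e f : ℕ} (he : e < c) (hf : f < c) (hef : e ≠ f)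
    {μ : ℕ} (hμ : 2 * μ ≤ c + 1) : Link G σ π (μ + 1) {z | ∃ k, Y k = z} (Y e) (Y f) := by
  have hcons : ∀ k, Cons G σ π (Y k) (Y (k + 1)) := fun k => by
    refine ⟨hY.adj k, ?_⟩
    rw [hπ, hπ]
    change _ = phi σ Y 0 k + (phi σ Y 0 k + σ s(Y k, Y (k + 1)))
    have := two_self (phi σ Y 0 k)
    linear_combination -this
  have hf' : ∀ {e r : ℕ}, r < c → μ ≤ r →
      Link G σ π (μ + 1) {z | ∃ k, Y k = z} (Y e) (Y (e + r)) := by
    intro e r hr hμr
    refine ⟨seg Y e (r + 1), hY.seg_nodup _ _ (by omega), seg_chain hcons _ _, seg_head _ _ _,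
      seg_last _ _ _, fun z hz => ?_, by rw [seg_length]; omega⟩
    obtain ⟨k, _, hk⟩ := mem_seg.1 hz
    exact ⟨_, hk⟩
  rcases lt_or_gt_of_ne hef with hlt | hgt
  · obtain ⟨r, rfl⟩ : ∃ r, f = e + r := ⟨f - e, by omega⟩
    rcases Nat.lt_or_ge r μ with h1 | h1
    · have h2 := hf' (e := e + r) (r := c - r) (by omega) (by omega)
      rw [show e + r + (c - r) = e + c by omega, hY.per] at h2
      exact h2.symm
    · exact hf' (by omega) h1
  · obtain ⟨r, rfl⟩ : ∃ r, e = f + r := ⟨e - f, by omega⟩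
    rcases Nat.lt_or_ge r μ with h1 | h1
    · have h2 := hf' (e := f + r) (r := c - r) (by omega) (by omega)
      rw [show f + r + (c - r) = f + c by omega, hY.per] at h2
      exact h2
    · exact (hf' (by omega) h1).symm

/-- a long balanced cycle forces balance -/
theorem bal_of_rim [DecidableEq V] [Finite V] (h2 : Two G) {m : ℕ} (hm : 3 ≤ m)
    (hU : Uni G m σ 0) (hY : Rim G c Y) (h0 : phi σ Y 0 c = 0) (hc : 2 * m ≤ c + 3) :
    ∃ π : V → ZMod 2, ∀ x y, G.Adj x y → σ s(x, y) = π x + π y := by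
  obtain ⟨π, hπ⟩ := rim_pot hY h0
  have h3 := hY.three
  refine ext_all h2 hm hU _ π {z | ∃ k, Y k = z} rfl ⟨Y 0, ⟨0, rfl⟩, Y 1, ⟨1, rfl⟩,
    hY.ne (by omega) (by omega)⟩ ?_
  rintro x ⟨e, rfl⟩ y ⟨f, rfl⟩ hxy
  have hc0 : 0 < c := by omega
  rw [hY.modeq e, hY.modeq f] at hxy ⊢
  obtain ⟨μ, rfl⟩ : ∃ μ, m = μ + 1 := ⟨m - 1, by omega⟩
  exact rim_link hY h0 hπ (Nat.mod_lt _ hc0) (Nat.mod_lt _ hc0) (fun h => hxy (by rw [h]))
    (by omega)

end bal

section elim

variable {σ : Sym2 V → ZMod 2} {s : ZMod 2} {L c : ℕ} {X Y : ℕ → V}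

theorem rim_of_cyc {s : ZMod 2} {l : List V} (h : Cyc G σ s l) :
    ∃ Y, Rim G l.length Y ∧ phi σ Y 0 l.length = s ∧ ∀ k, Y k ∈ l := by
  obtain ⟨hn, hc, h3, x, y, hx, hy, hxy, hs⟩ := h
  obtain ⟨X, hX, hseg⟩ := rim_of_closed' (G := G) (l := l) ⟨hn, hc, h3, x, y, hx, hy, hxy⟩
  refine ⟨X, hX, ?_, ?_⟩
  · obtain ⟨c, hcl⟩ : ∃ c, l.length = c + 1 := ⟨l.length - 1, by omega⟩
    rw [hcl] at hX hseg
    rw [hcl, phi_total hX, hseg]
    have h4 : X 0 = x := by
      have := seg_head X 0 c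
      rw [hseg, hx] at this
      exact (Option.some.inj this).symm
    have h5 : X c = y := by
      have := seg_last X 0 c
      rw [hseg, hy, Nat.zero_add] at this
      exact (Option.some.inj this).symm
    rw [h4, h5]
    exact hs
  · intro k
    rw [hX.modeq k]
    have h4 : X (k % l.length) ∈ seg X 0 l.length :=
      mem_seg.2 ⟨k % l.length, Nat.mod_lt _ (by omega), by rw [Nat.zero_add]⟩
    rw [hseg] at h4
    exact h4

theorem trim_path (hX : Rim G L X) (hY : Rim G c Y) {P : List V} (hn : P.Nodup)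
    (hc : P.IsChain G.Adj) {y x : V} (hd : P.head? = some y) (lt : P.getLast? = some x)
    (hy : ∃ e, Y e = y) (hx : ∃ a, X a = x) (hoff : ∀ k j, X k ≠ Y j) :
    ∃ e T u a, Conn G X Y e T u a ∧ e < c ∧ a < L ∧ (∀ z ∈ Y e :: T, z ∈ P) ∧ X a ∈ P := by
  have hc0 : 0 < c := by have := hY.three; omega
  have hL0 : 0 < L := by have := hX.three; omega
  obtain ⟨Q1, x', Q2, hP, ⟨a, hxa⟩, hQ1⟩ := chain_first (p := fun z => ∃ k, X k = z) P
    ⟨x, List.mem_of_getLast? lt, hx⟩
  rw [hX.modeq a] at hxa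
  have hyQ : y ∈ Q1 := by
    cases Q1 with
    | nil =>
      exfalso
      rw [hP] at hd
      simp only [List.nil_append, List.head?_cons, Option.some.injEq] at hd
      obtain ⟨e, he⟩ := hy
      exact hoff (a % L) e (by rw [hxa, hd, he])
    | cons b l =>
      rw [hP] at hd
      simp only [List.cons_append, List.head?_cons, Option.some.injEq] at hd
      simp [hd]
  obtain ⟨R1, y', R2, hQ, ⟨e, hye⟩, hR1⟩ := chain_first (p := fun z => ∃ k, Y k = z) Q1.reverse
    ⟨y, List.mem_reverse.2 hyQ, hy⟩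
  rw [hY.modeq e] at hye
  have hQ' : Q1 = R2.reverse ++ y' :: R1.reverse := by
    have := congrArg List.reverse hQ
    rw [List.reverse_reverse] at this
    rw [this]
    simp
  obtain ⟨u, hu⟩ : ∃ u, (y' :: R1.reverse).getLast? = some u :=
    ⟨_, List.getLast?_eq_some_getLast (by simp)⟩
  subst hye
  have hsub : ∀ z ∈ Y (e % c) :: R1.reverse, z ∈ Q1 := fun z hz => by
    rw [hQ']; exact List.mem_append.2 (Or.inr hz)
  have hQ1P : ∀ z ∈ Q1, z ∈ P := fun z hz => by
    rw [hP]; exact List.mem_append.2 (Or.inl hz)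
  rw [hP, List.nodup_append] at hn
  rw [hP, List.isChain_append] at hc
  have hQn := hn.1
  have hQc := hc.1
  rw [hQ', List.nodup_append] at hQn
  rw [hQ', List.isChain_append] at hQc
  refine ⟨e % c, R1.reverse, u, a % L, ⟨hQn.2.1, hQc.2.1, hu, ?_, ?_, ?_⟩, Nat.mod_lt _ hc0,
    Nat.mod_lt _ hL0, fun z hz => hQ1P z (hsub z hz), ?_⟩
  · intro z hz k hk
    exact hQ1 z (hsub z hz) ⟨k, hk⟩
  · intro z hz k hk
    exact hR1 z (List.mem_reverse.1 hz) ⟨k, hk⟩
  · rw [hxa]
    refine hc.2.2 u ?_ x' (by simp)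
    rw [hQ', List.getLast?_append, hu]
    rfl
  · rw [hxa, hP]
    exact List.mem_append.2 (Or.inr (by simp))

theorem col_count {q L M : ℕ} (hM : 0 < M) (a : Fin q → ℕ) (col : Fin q → ZMod 2)
    (ha : ∀ i, a i < L) (hinj : ∀ i j, i ≠ j → a i ≠ a j)
    (hsep : ∀ i j, col i = col j → a i < a j → a i + M ≤ a j) : q ≤ 2 * ((L - 1) / M + 1) := by
  classical
  have key : ∀ F : Finset (Fin q), (∀ i ∈ F, ∀ j ∈ F, col i = col j) →
      F.card ≤ (L - 1) / M + 1 := by
    intro F hF
    have hmaps : ∀ i ∈ F, a i / M ∈ Finset.range ((L - 1) / M + 1) := by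
      intro i _
      rw [Finset.mem_range, Nat.lt_succ_iff]
      exact Nat.div_le_div_right (by have := ha i; omega)
    have hdiv : ∀ i ∈ F, ∀ j ∈ F, a i < a j → a i / M ≠ a j / M := by
      intro i hi j hj hlt heq
      have h1 := Nat.div_le_div_right (c := M) (hsep i j (hF i hi j hj) hlt)
      rw [Nat.add_div_right _ hM] at h1
      omega
    have hinj' : Set.InjOn (fun i => a i / M) F := by
      intro i hi j hj hij
      by_contra hne
      rcases lt_or_gt_of_ne (hinj i j hne) with h | h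
      · exact hdiv i hi j hj h hij
      · exact hdiv j hj i hi h hij.symm
    have := Finset.card_le_card_of_injOn _ hmaps hinj'
    rwa [Finset.card_range] at this
  have h1 := Finset.card_filter_add_card_filter_not (s := (Finset.univ : Finset (Fin q)))
    (fun i => col i = 0)
  have h2 := key (Finset.univ.filter (fun i => col i = 0)) (fun i hi j hj => by
    rw [Finset.mem_filter] at hi hj
    rw [hi.2, hj.2])
  have h3 := key (Finset.univ.filter (fun i => ¬ col i = 0)) (fun i hi j hj => by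
    rw [Finset.mem_filter] at hi hj
    rw [fl_one hi.2, fl_one hj.2])
  rw [Finset.card_univ, Fintype.card_fin] at h1
  omega

theorem Top.core_elim [Fintype V] [DecidableEq V] [DecidableRel G.Adj] (h : Top G σ s L X)
    {k μ : ℕ} (hconn : ∀ S : Finset V, S.card < k → (G.induce ((↑S : Set V)ᶜ)).Connected)
    (hμ : 3 ≤ μ) (hk1 : k ≤ 2 * μ - 1) (hk2 : 2 * ((L - 1) / (μ + 2) + 1) < k) :
    ∀ S : Finset V, S.Nonempty → (∀ v ∈ S, ∀ j, X j ≠ v) →
      ∃ v ∈ S, (S.filter (G.Adj v)).card < 4 * μ - 5 := by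
  classical
  intro S hne hS
  by_contra hcon
  push Not at hcon
  have hL3 := h.rim.three
  obtain ⟨l, hl, hlS, hlen⟩ := core_cycle (G := G) σ (h := 2 * μ - 2) (by omega) S hne
    (fun v hv => by
      have := hcon v hv
      omega)
  obtain ⟨Y, hY, hY0, hYl⟩ := rim_of_cyc hl
  obtain ⟨c, hc⟩ : ∃ c, c = l.length := ⟨_, rfl⟩
  rw [← hc] at hY hY0 hlen
  have hoff : ∀ i j, X i ≠ Y j := fun i j => hS _ (hlS _ (hYl j)) i
  obtain ⟨q, hq⟩ : ∃ q, q = min k L := ⟨_, rfl⟩
  set YS : Finset V := (Finset.range c).image Y with hYS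
  set XS : Finset V := (Finset.range L).image X with hXS
  have hYc : YS.card = c := by
    rw [hYS, Finset.card_image_of_injOn, Finset.card_range]
    intro i hi j hj hij
    rw [Finset.coe_range, Set.mem_Iio] at hi hj
    exact hY.inj i j hi hj hij
  have hXc : XS.card = L := by
    rw [hXS, Finset.card_image_of_injOn, Finset.card_range]
    intro i hi j hj hij
    rw [Finset.coe_range, Set.mem_Iio] at hi hj
    exact h.rim.inj i j hi hj hij
  have hDP : DP G YS XS q := by
    refine menger _ G rfl YS XS q fun T hT => ?_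
    by_contra hlt
    push Not at hlt
    obtain ⟨y, hy, hyT⟩ := Finset.exists_mem_notMem_of_card_lt_card (s := T) (t := YS) (by omega)
    obtain ⟨x, hx, hxT⟩ := Finset.exists_mem_notMem_of_card_lt_card (s := T) (t := XS) (by omega)
    have hcn := hconn T (by omega)
    have hy' : y ∈ ((↑T : Set V)ᶜ) := by simpa using hyT
    have hx' : x ∈ ((↑T : Set V)ᶜ) := by simpa using hxT
    obtain ⟨p⟩ := hcn.preconnected ⟨y, hy'⟩ ⟨x, hx'⟩
    obtain ⟨w, hw⟩ := walk_out p
    obtain ⟨z, hz, hzT⟩ := hT w.support w.isChain_adj_support ⟨y, hy, by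
      rw [List.head?_eq_some_head (SimpleGraph.Walk.support_ne_nil _),
        SimpleGraph.Walk.head_support]⟩ ⟨x, hx, by
      rw [List.getLast?_eq_some_getLast (SimpleGraph.Walk.support_ne_nil _),
        SimpleGraph.Walk.getLast_support]⟩
    have := hw z hz
    rw [Set.mem_compl_iff] at this
    exact this hzT
  obtain ⟨P, hP, hPd⟩ := hDP
  have htrim : ∀ i, ∃ e T u a, Conn G X Y e T u a ∧ e < c ∧ a < L ∧
      (∀ z ∈ Y e :: T, z ∈ P i) ∧ X a ∈ P i := by
    intro i
    obtain ⟨h1, h2, ⟨y, hy, h3⟩, ⟨x, hx, h4⟩⟩ := hP i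
    rw [hYS, Finset.mem_image] at hy
    rw [hXS, Finset.mem_image] at hx
    obtain ⟨e, _, he⟩ := hy
    obtain ⟨a, _, ha⟩ := hx
    exact trim_path h.rim hY h1 h2 h3 h4 ⟨e, he⟩ ⟨a, ha⟩ hoff
  choose e T u a hconnP he ha hmem hXmem using htrim
  have hq2 : q ≤ 2 * ((L - 1) / (μ + 2) + 1) := by
    refine col_count (by omega) a
      (fun i => ls σ (Y (e i) :: T i) + phi σ Y 0 (e i) + cs σ X (u i) (a i)) ha ?_ ?_
    · intro i j hij haa
      refine hPd i j hij _ (hXmem i) ?_
      rw [haa]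
      exact hXmem j
    · intro i j hcol hlt
      have hij : i ≠ j := by rintro rfl; omega
      refine h.conn_far hY hY0 hoff (hconnP i) (hconnP j) (he i) (he j) ?_ (by omega) hlt (ha j)
        hcol
      intro z hz hz'
      exact hPd i j hij z (hmem i z hz) (hmem j z hz')
  have h5 : (L - 1) / (μ + 2) ≤ (L - 1) / 5 := Nat.div_le_div_left (by omega) (by omega)
  omega

end elim

/-- Bondy's conjecture (dual form) for highly connected graphs -/
theorem high_good [Fintype V] [DecidableEq V] [DecidableRel G.Adj] {d : ℕ}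
    (hdeg : ∀ v, d ≤ G.degree v) (hn : 2 * d ≤ Fintype.card V) (hd : 1244 ≤ d)
    (hconn : ∀ S : Finset V, S.card < 99 → (G.induce ((↑S : Set V)ᶜ)).Connected) :
    Good G (2 * d - 1) := by
  classical
  rcases Nat.eq_or_lt_of_le hn with heq | hlt
  · exact dirac_good (by omega) heq.symm hdeg fun S hS => hconn S (by omega)
  intro σ t hU
  have h2 : Two G := two_of_conn fun S hS => hconn S (by omega)
  by_cases hbad : ∃ l, Cyc G σ (t + 1) l
  · exfalso
    obtain ⟨l, hl, hmax⟩ := exists_max_cyc hbad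
    obtain ⟨X, hX⟩ := top_of_cyc hl hmax
    obtain ⟨L, hL⟩ : ∃ L, L = l.length := ⟨_, rfl⟩
    rw [← hL] at hX
    have hL2 : L + 2 ≤ 2 * d := by
      by_contra hlt
      obtain ⟨g1, g2, g3, x, y, g4, g5, g6, g7⟩ := hl
      have := hU l x y g1 g2 g4 g5 g6 g3 (by omega)
      rw [g7] at this
      have h8 : (1 : ZMod 2) = 0 := by linear_combination this
      exact absurd h8 (by decide)
    obtain ⟨μ, hμ⟩ : ∃ μ, μ = (d - 44) / 24 := ⟨_, rfl⟩
    have hdiv : (L - 1) / (μ + 2) < 49 := by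
      rw [Nat.div_lt_iff_lt_mul (by omega)]
      omega
    exact hX.heavy_false hdeg hL2 (by omega) (D := 4 * μ - 5) (by omega) (by omega)
      (hX.core_elim hconn (by omega) (by omega) (by omega))
  · -- all cycles have the same sign
    push Not at hbad
    have hne : (Finset.univ : Finset V).Nonempty := by
      rw [← Finset.card_pos, Finset.card_univ]
      omega
    obtain ⟨l, hl, -, -⟩ := core_cycle (G := G) σ (h := 2) le_rfl Finset.univ hne (fun v _ => by
      have h1 := hdeg v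
      rw [← SimpleGraph.card_neighborFinset_eq_degree,
        SimpleGraph.neighborFinset_eq_filter] at h1
      have h5 : (Finset.univ.filter (fun w => G.Adj v w)).card =
          (Finset.univ.filter (G.Adj v)).card := by congr
      omega)
    have ht : t = 0 := by
      rcases zmod2_cases t with h0 | h1
      · exact h0
      · exfalso
        refine hbad l ?_
        rw [h1]
        have e : (1 : ZMod 2) + 1 = 0 := by decide
        rw [e]
        exact hl
    subst ht
    refine ⟨rfl, ?_⟩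
    have hU3 : Uni G 3 σ 0 := by
      intro l x y g1 g2 g4 g5 g6 g3 _
      rcases zmod2_cases (ls σ l + σ s(y, x)) with h0 | h1
      · exact h0
      · exact absurd ⟨g1, g2, g3, x, y, g4, g5, g6, by rw [h1, zero_add]⟩ (hbad l)
    obtain ⟨Y, hY, hY0, -⟩ := rim_of_cyc hl
    have := hY.three
    exact bal_of_rim h2 le_rfl hU3 hY hY0 (by omega)

end Run7.h807
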