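import Mathlib
import Pool.Agent.Run7.h807.CoreB

set_option autoImplicit false

namespace Run7.h807

variable {V : Type*} {G : SimpleGraph V}

/-- a path from `u` to `v` inside `S`, consecutive vertices related by `R` -/
structure Pth (R : V → V → Prop) (S : Set V) (u v : V) (l : List V) : Prop where
  nd : l.Nodup
  ch : l.IsChain R
  hd : l.head? = some u
  lt : l.getLast? = some v
  mem : ∀ z ∈ l, z ∈ S

variable {R : V → V → Prop} {S S' : Set V} {u v w : V} {l l₁ l₂ : List V}

theorem Pth.memu (h : Pth R S u v l) : u ∈ l := List.mem_of_mem_head? (by rw [h.hd]; rfl)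

theorem Pth.memv (h : Pth R S u v l) : v ∈ l := List.mem_of_getLast? h.lt

theorem Pth.rev (hR : ∀ a b, R a b → R b a) (h : Pth R S u v l) : Pth R S v u l.reverse :=
  ⟨List.nodup_reverse.2 h.nd, by
    rw [List.isChain_reverse]; exact h.ch.imp fun a b hab => hR a b hab,
    by rw [List.head?_reverse, h.lt], by rw [List.getLast?_reverse, h.hd],
    fun z hz => h.mem z (List.mem_reverse.1 hz)⟩

theorem Pth.mono (h : Pth R S u v l) (hS : ∀ z ∈ l, z ∈ S → z ∈ S') : Pth R S' u v l :=
  ⟨h.nd, h.ch, h.hd, h.lt, fun z hz => hS z hz (h.mem z hz)⟩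

theorem Pth.imp {R' : V → V → Prop} (h : Pth R S u v l)
    (hR : ∀ a b, a ∈ S → b ∈ S → R a b → R' a b) : Pth R' S u v l :=
  ⟨h.nd, List.IsChain.imp_of_mem_imp (fun a b ha hb hab => hR a b (h.mem a ha) (h.mem b hb) hab)
    h.ch, h.hd, h.lt, h.mem⟩

theorem Pth.single (h : u ∈ S) : Pth R S u u [u] :=
  ⟨by simp, by simp, rfl, rfl, by simpa using h⟩

theorem Pth.pos (h : Pth R S u v l) : 1 ≤ l.length := by
  cases l with
  | nil => have := h.hd; simp at this
  | cons a l => simp

theorem Pth.two (h : Pth R S u v l) (huv : u ≠ v) : 2 ≤ l.length := by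
  match l, h with
  | [], h => have := h.hd; simp at this
  | [a], h =>
    exfalso
    have h1 := h.hd
    have h2 := h.lt
    simp only [List.head?_cons, Option.some.injEq, List.getLast?_singleton] at h1 h2
    exact huv (h1.symm.trans h2)
  | a :: b :: l, _ => simp

theorem Pth.cons_eq (h : Pth R S u v l) : l = u :: l.tail := by
  cases l with
  | nil => have := h.hd; simp at this
  | cons a l =>
    have := h.hd
    simp only [List.head?_cons, Option.some.injEq] at this
    rw [this]; rfl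

theorem Pth.snoc_eq (h : Pth R S u v l) : ∃ l', l = l' ++ [v] :=
  List.getLast?_eq_some_iff.1 h.lt

/-- join two paths at a common end -/
theorem Pth.join (h₁ : Pth R S u v l₁) (h₂ : Pth R S' v w l₂)
    (hd : ∀ z ∈ l₁, z ∈ l₂ → z = v) : Pth R (S ∪ S') u w (l₁ ++ l₂.tail) := by
  obtain ⟨l', hl'⟩ := h₁.snoc_eq
  have h2 := h₂.cons_eq
  have hn₂ := h₂.nd
  have hc₂ := h₂.ch
  have ht₂ := h₂.lt
  rw [h2] at hn₂ hc₂ ht₂
  rw [List.nodup_cons] at hn₂
  have htail : ∀ z ∈ l₂.tail, z ∈ l₂ := fun z hz => by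
    rw [h2]; exact List.mem_cons_of_mem _ hz
  refine ⟨?_, ?_, ?_, ?_, ?_⟩
  · rw [List.nodup_append]
    refine ⟨h₁.nd, hn₂.2, fun a ha b hb hab => ?_⟩
    subst hab
    exact hn₂.1 ((hd a ha (htail a hb)) ▸ hb)
  · have hc₁ := h₁.ch
    rw [hl'] at hc₁ ⊢
    rw [List.append_assoc, List.singleton_append, List.isChain_split]
    exact ⟨hc₁, hc₂⟩
  · rw [List.head?_append, h₁.hd]; rfl
  · rw [List.getLast?_append, h₁.lt]
    cases ht : l₂.tail with
    | nil =>
      rw [ht] at ht₂
      simp only [List.getLast?_singleton, Option.some.injEq] at ht₂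
      simp [ht₂]
    | cons a q =>
      rw [ht, List.getLast?_cons_cons] at ht₂
      rw [ht₂]; rfl
  · intro z hz
    rcases List.mem_append.1 hz with hz | hz
    · exact Or.inl (h₁.mem z hz)
    · exact Or.inr (h₂.mem z (htail z hz))

theorem Pth.join_mem (h₁ : Pth R S u v l₁) (h₂ : Pth R S' v w l₂) {z : V}
    (hz : z ∈ l₁ ++ l₂.tail) : z ∈ l₁ ∨ z ∈ l₂ := by
  rcases List.mem_append.1 hz with hz | hz
  · exact Or.inl hz
  · right
    rw [h₂.cons_eq]
    exact List.mem_cons_of_mem _ hz

theorem Pth.join_len (_h₁ : Pth R S u v l₁) (h₂ : Pth R S' v w l₂) :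
    (l₁ ++ l₂.tail).length + 1 = l₁.length + l₂.length := by
  have := h₂.pos
  rw [List.length_append, List.length_tail]
  omega

theorem Pth.join_ls (σ : Sym2 V → ZMod 2) (h₁ : Pth R S u v l₁) (h₂ : Pth R S' v w l₂) :
    ls σ (l₁ ++ l₂.tail) = ls σ l₁ + ls σ l₂ := by
  obtain ⟨l', hl'⟩ := h₁.snoc_eq
  have h2 := h₂.cons_eq
  conv_rhs => rw [h2]
  rw [hl', List.append_assoc, List.singleton_append, ls_split]

/-- two paths with the same ends form a cycle -/
theorem Uni.close {m : ℕ} {σ : Sym2 V → ZMod 2} {t : ZMod 2} (hU : Uni G m σ t)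
    (h₁ : Pth G.Adj S u v l₁) (h₂ : Pth G.Adj S' v u l₂) (huv : u ≠ v)
    (hd : ∀ z ∈ l₁, z ∈ l₂ → z = u ∨ z = v) (h5 : 5 ≤ l₁.length + l₂.length)
    (hm : m + 2 ≤ l₁.length + l₂.length) : ls σ l₁ + ls σ l₂ = t := by
  obtain ⟨l', hl'⟩ := h₂.snoc_eq
  have h2l := h₂.two huv.symm
  obtain ⟨M, rfl⟩ : ∃ M, l' = v :: M := by
    cases l' with
    | nil => rw [hl'] at h2l; simp at h2l
    | cons a M =>
      have := h₂.hd
      rw [hl'] at this
      simp only [List.cons_append, List.head?_cons, Option.some.injEq] at this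
      exact ⟨M, by rw [this]⟩
  have hn := h₂.nd
  have hc := h₂.ch
  rw [hl'] at hn hc
  obtain ⟨y, hy⟩ : ∃ y, (v :: M).getLast? = some y := ⟨_, List.getLast?_eq_some_getLast (by simp)⟩
  have hyu : G.Adj y u := by
    rw [List.isChain_append] at hc
    exact hc.2.2 y (by rw [hy]; rfl) u (by simp)
  have hMl : ∀ z ∈ M, z ∈ l₂ := fun z hz => by
    rw [hl']; exact List.mem_append.2 (Or.inl (List.mem_cons_of_mem _ hz))
  obtain ⟨l'', hl''⟩ := h₁.snoc_eq
  have hlast : (l₁ ++ M).getLast? = some y := by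
    rw [List.getLast?_append, h₁.lt]
    cases M with
    | nil =>
      simp only [List.getLast?_singleton, Option.some.injEq] at hy
      simp [hy]
    | cons a q =>
      rw [List.getLast?_cons_cons] at hy
      rw [hy]; rfl
  have h6 := hU (l₁ ++ M) u y ?_ ?_ ?_ hlast hyu ?_ ?_
  · have e1 : ls σ (l₁ ++ M) = ls σ l₁ + ls σ (v :: M) := by
      rw [hl'', List.append_assoc, List.singleton_append, ls_split]
    have e2 : ls σ l₂ = ls σ (v :: M) + σ s(y, u) := by
      rw [hl', ls_append σ hy (List.head?_cons), ls_single, add_zero]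
    rw [e1] at h6
    rw [e2, ← h6]
    ring
  · rw [List.nodup_append]
    rw [List.nodup_append, List.nodup_cons] at hn
    refine ⟨h₁.nd, hn.1.2, fun a ha b hb hab => ?_⟩
    subst hab
    rcases hd a ha (hMl a hb) with h | h
    · exact hn.2.2 a (List.mem_cons_of_mem _ hb) u (by simp) h
    · exact hn.1.1 (h ▸ hb)
  · rw [List.isChain_append] at hc
    have hc₁ := h₁.ch
    rw [hl''] at hc₁ ⊢
    rw [List.append_assoc, List.singleton_append, List.isChain_split]
    exact ⟨hc₁, hc.1⟩
  · rw [List.head?_append, h₁.hd]; rfl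
  · rw [hl'] at h5
    simp only [List.length_append, List.length_cons, List.length_nil] at h5 ⊢
    omega
  · rw [hl'] at hm
    simp only [List.length_append, List.length_cons, List.length_nil] at hm ⊢
    omega

section dense

variable [DecidableEq V] [DecidableRel G.Adj]

/-- min degree slack of the set `A` -/
def Slk (G : SimpleGraph V) [DecidableRel G.Adj] (A : Finset V) (s : ℕ) : Prop :=
  ∀ v ∈ A, A.card + s ≤ 2 * (A.filter (G.Adj v)).card

theorem Slk.sdiff {A : Finset V} {s r : ℕ} (h : Slk G A (s + r)) (T : Finset V)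
    (hT : T.card ≤ r) : Slk G (A \ T) s := by
  intro v hv
  rw [Finset.mem_sdiff] at hv
  have h1 := h v hv.1
  have h2 : (A.filter (G.Adj v)).card ≤ ((A \ T).filter (G.Adj v)).card + (A ∩ T).card := by
    have hsub : A.filter (G.Adj v) ⊆ (A \ T).filter (G.Adj v) ∪ (A ∩ T) := by
      intro z hz
      rw [Finset.mem_filter] at hz
      rw [Finset.mem_union, Finset.mem_filter, Finset.mem_sdiff, Finset.mem_inter]
      tauto
    exact (Finset.card_le_card hsub).trans (Finset.card_union_le _ _)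
  have h3 := Finset.card_sdiff_add_card_inter A T
  have h4 : (A ∩ T).card ≤ T.card := Finset.card_le_card Finset.inter_subset_right
  omega

theorem Slk.mono {A : Finset V} {s s' : ℕ} (h : Slk G A s) (hs : s' ≤ s) : Slk G A s' :=
  fun v hv => by have := h v hv; omega

omit [DecidableEq V] in
/-- common neighbours -/
theorem Slk.common [DecidableEq V] {A : Finset V} {s : ℕ} (h : Slk G A s) {v w : V} (hv : v ∈ A)
    (hw : w ∈ A) (F : Finset V) (hF : F.card < s) :
    ∃ z ∈ A, G.Adj v z ∧ G.Adj w z ∧ z ∉ F := by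
  have h1 := h v hv
  have h2 := h w hw
  have h3 := Finset.card_union_add_card_inter (A.filter (G.Adj v)) (A.filter (G.Adj w))
  have h4 : (A.filter (G.Adj v) ∪ A.filter (G.Adj w)).card ≤ A.card := Finset.card_le_card
    (Finset.union_subset (Finset.filter_subset _ _) (Finset.filter_subset _ _))
  have h5 : F.card < (A.filter (G.Adj v) ∩ A.filter (G.Adj w)).card := by omega
  obtain ⟨z, hz, hzF⟩ := Finset.exists_mem_notMem_of_card_lt_card h5
  rw [Finset.mem_inter, Finset.mem_filter, Finset.mem_filter] at hz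
  exact ⟨z, hz.1.1, hz.1.2, hz.2.2, hzF⟩

end dense

end Run7.h807
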