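import Mathlib
import Pool.Agent.Run7.h807.Pth

set_option autoImplicit false

namespace Run7.h807

variable {V : Type*} {G : SimpleGraph V}

/-- a robust set of vertices: short and long connections avoiding few vertices -/
structure Blob (G : SimpleGraph V) (A : Finset V) (ℓ c r : ℕ) : Prop where
  short : ∀ F : Finset V, F.card ≤ r → ∀ x ∈ A, ∀ y ∈ A, x ∉ F → y ∉ F →
    ∃ l, Pth G.Adj {z | z ∈ A ∧ z ∉ F} x y l ∧ l.length ≤ c
  long : ∀ F : Finset V, F.card ≤ r → ∀ x ∈ A, ∀ y ∈ A, x ∉ F → y ∉ F → x ≠ y →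
    ∃ l, Pth G.Adj {z | z ∈ A ∧ z ∉ F} x y l ∧ ℓ ≤ l.length

/-- long paths between the terminals have constant sign -/
def Cst (G : SimpleGraph V) (σ : Sym2 V → ZMod 2) (A : Finset V) (p : Fin 3 → V) (ℓ : ℕ) : Prop :=
  ∀ i j, i ≠ j → ∀ l l', Pth G.Adj {z | z ∈ A} (p i) (p j) l →
    Pth G.Adj {z | z ∈ A} (p i) (p j) l' → ℓ ≤ l.length → ℓ ≤ l'.length → ls σ l = ls σ l'

theorem two_term {p : Fin 3 → V} (hinj : ∀ i j, i ≠ j → p i ≠ p j) (v : V) :
    ∃ i j, i ≠ j ∧ p i ≠ v ∧ p j ≠ v := by
  by_cases h0 : p 0 = v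
  · exact ⟨1, 2, by decide, fun h => hinj 1 0 (by decide) (h.trans h0.symm),
      fun h => hinj 2 0 (by decide) (h.trans h0.symm)⟩
  · by_cases h1 : p 1 = v
    · exact ⟨0, 2, by decide, h0, fun h => hinj 2 1 (by decide) (h.trans h1.symm)⟩
    · exact ⟨0, 1, by decide, h0, h1⟩

variable [DecidableEq V] {σ : Sym2 V → ZMod 2} {A : Finset V} {p : Fin 3 → V} {ℓ c r : ℕ}

theorem blob_U (hB : Blob G A ℓ c r) (hC : Cst G σ A p ℓ) (hpA : ∀ i, p i ∈ A) {i j : Fin 3}
    (hij : i ≠ j) {S N N' : List V} {u v : V} (hS : Pth G.Adj {z | z ∈ A} (p i) u S)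
    (hN : Pth G.Adj {z | z ∈ A} u v N) (hN' : Pth G.Adj {z | z ∈ A} u v N')
    (hSN : ∀ z ∈ S, z ∈ N → z = u) (hSN' : ∀ z ∈ S, z ∈ N' → z = u) (hjS : p j ∉ S)
    (hjN : p j ∉ N) (hjN' : p j ∉ N') (hr : S.length + N.length + N'.length ≤ r) :
    ls σ N = ls σ N' := by
  have hcard : ((S ++ (N ++ N')).toFinset.erase v).card ≤ r := by
    refine (Finset.card_le_card (Finset.erase_subset _ _)).trans ?_
    refine (List.toFinset_card_le _).trans ?_
    rw [List.length_append, List.length_append]
    omega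
  obtain ⟨l, hl, hlen⟩ := hB.long _ hcard v (hN.mem v hN.memv) (p j) (hpA j)
    (by simp) (by
      rw [Finset.mem_erase, List.mem_toFinset, List.mem_append, List.mem_append]
      rintro ⟨-, h | h | h⟩
      · exact hjS h
      · exact hjN h
      · exact hjN' h) (fun h => hjN (h ▸ hN.memv))
  have hout : ∀ z ∈ l, (z ∈ S ∨ z ∈ N ∨ z ∈ N') → z = v := by
    intro z hz h
    by_contra hne
    refine (hl.mem z hz).2 ?_
    rw [Finset.mem_erase, List.mem_toFinset, List.mem_append, List.mem_append]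
    exact ⟨hne, h⟩
  have h1 := hS.join hN hSN
  have h1' := hS.join hN' hSN'
  have h2 := h1.join hl (fun z hz hz' => hout z hz' (by
    rcases hS.join_mem hN hz with h | h
    · exact Or.inl h
    · exact Or.inr (Or.inl h)))
  have h2' := h1'.join hl (fun z hz hz' => hout z hz' (by
    rcases hS.join_mem hN' hz with h | h
    · exact Or.inl h
    · exact Or.inr (Or.inr h)))
  have e := hC i j hij _ _ (h2.mono fun z _ hz => by
      rcases hz with (h | h) | h
      · exact h
      · exact h
      · exact h.1) (h2'.mono fun z _ hz => by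
      rcases hz with (h | h) | h
      · exact h
      · exact h
      · exact h.1) (by
      have := h1.join_len hl
      have := h1.pos
      omega) (by
      have := h1'.join_len hl
      have := h1'.pos
      omega)
  rw [h1.join_ls σ hl, h1'.join_ls σ hl, hS.join_ls σ hN, hS.join_ls σ hN'] at e
  linear_combination e

theorem blob_pot (hB : Blob G A ℓ c r) (hC : Cst G σ A p ℓ) (hpA : ∀ i, p i ∈ A)
    (hinj : ∀ i j, i ≠ j → p i ≠ p j) (h4 : 4 ≤ A.card) (hr : 3 * c + 4 ≤ r) (hc1 : 1 ≤ c) :
    ∃ π : V → ZMod 2, ∀ x ∈ A, ∀ y ∈ A, G.Adj x y → σ s(x, y) = π x + π y := by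
  classical
  obtain ⟨T, hT⟩ : ∃ T : Finset V, T = {p 0, p 1, p 2} := ⟨_, rfl⟩
  have hT3 : T.card ≤ 3 := by rw [hT]; exact Finset.card_le_three
  have hpT : ∀ i, p i ∈ T := by
    intro i
    rw [hT]
    fin_cases i <;> simp
  obtain ⟨p0, hp0, hp0T⟩ := Finset.exists_mem_notMem_of_card_lt_card (s := T) (t := A) (by omega)
  have hp0i : ∀ i, p i ≠ p0 := fun i h => hp0T (h ▸ hpT i)
  -- well-definedness
  have WD : ∀ (v : V) (N N' : List V), Pth G.Adj {z | z ∈ A} p0 v N →
      Pth G.Adj {z | z ∈ A} p0 v N' → N.length ≤ c + 1 → N'.length ≤ c + 1 →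
      (∀ k, p k ∈ N → p k = v) → (∀ k, p k ∈ N' → p k = v) → ls σ N = ls σ N' := by
    intro v N N' hN hN' hl hl' ht ht'
    obtain ⟨i, j, hij, hi, hj⟩ := two_term hinj v
    have hFc : (insert (p j) ((N ++ N').toFinset.erase p0)).card ≤ r := by
      refine (Finset.card_insert_le _ _).trans ?_
      have h1 := (Finset.card_le_card (Finset.erase_subset p0 (N ++ N').toFinset)).trans
        (List.toFinset_card_le _)
      rw [List.length_append] at h1
      omega
    obtain ⟨S, hS, hSl⟩ := hB.short _ hFc (p i) (hpA i) p0 hp0 (by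
      rw [Finset.mem_insert, Finset.mem_erase, List.mem_toFinset, List.mem_append]
      rintro (h | ⟨-, h | h⟩)
      · exact hinj i j hij h
      · exact hi (ht i h)
      · exact hi (ht' i h)) (by
      rw [Finset.mem_insert]
      rintro (h | h)
      · exact hp0i j h.symm
      · simp at h)
    have hSm : ∀ z ∈ S, (z ∈ N ∨ z ∈ N') → z = p0 := by
      intro z hz h
      by_contra hne
      refine (hS.mem z hz).2 ?_
      rw [Finset.mem_insert, Finset.mem_erase, List.mem_toFinset, List.mem_append]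
      exact Or.inr ⟨hne, h⟩
    exact blob_U hB hC hpA hij (hS.mono fun z _ hz => hz.1) hN hN'
      (fun z hz h => hSm z hz (Or.inl h)) (fun z hz h => hSm z hz (Or.inr h))
      (fun h => (hS.mem _ h).2 (Finset.mem_insert_self _ _)) (fun h => hj (ht j h))
      (fun h => hj (ht' j h)) (by omega)
  -- short paths from the base
  have hbase : ∀ v ∈ A, ∀ w, w ≠ p0 → w ≠ v → ∃ N, Pth G.Adj {z | z ∈ A} p0 v N ∧
      N.length ≤ c ∧ (∀ k, p k ∈ N → p k = v) ∧ w ∉ N := by
    intro v hv w hw hwv
    obtain ⟨N, hN, hNl⟩ := hB.short ((insert w T).erase v) (by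
      have h1 := Finset.card_le_card (Finset.erase_subset v (insert w T))
      have h2 := Finset.card_insert_le w T
      omega) p0 hp0 v hv (by
      rw [Finset.mem_erase, Finset.mem_insert]
      rintro ⟨-, h | h⟩
      · exact hw h.symm
      · exact hp0T h) (by simp)
    refine ⟨N, hN.mono fun z _ hz => hz.1, hNl, fun k hk => ?_, fun hwN => ?_⟩
    · by_contra hne
      refine (hN.mem _ hk).2 ?_
      rw [Finset.mem_erase, Finset.mem_insert]
      exact ⟨hne, Or.inr (hpT k)⟩
    · refine (hN.mem _ hwN).2 ?_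
      rw [Finset.mem_erase, Finset.mem_insert]
      exact ⟨hwv, Or.inl rfl⟩
  have hbase' : ∀ v ∈ A, ∃ N, Pth G.Adj {z | z ∈ A} p0 v N ∧ N.length ≤ c ∧
      ∀ k, p k ∈ N → p k = v := by
    intro v hv
    obtain ⟨i, -, -, hi, -⟩ := two_term hinj v
    obtain ⟨N, h1, h2, h3, -⟩ := hbase v hv (p i) (hp0i i) hi
    exact ⟨N, h1, h2, h3⟩
  obtain ⟨π, hπ⟩ : ∃ π : V → ZMod 2, ∀ v ∈ A, ∀ N, Pth G.Adj {z | z ∈ A} p0 v N →
      N.length ≤ c + 1 → (∀ k, p k ∈ N → p k = v) → ls σ N = π v := by
    refine ⟨fun v => if h : v ∈ A then ls σ (hbase' v h).choose else 0, fun v hv N hN hNl hNt => ?_⟩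
    simp only [dif_pos hv]
    have h1 := (hbase' v hv).choose_spec
    exact WD v _ _ hN h1.1 hNl (by omega) hNt h1.2.2
  -- the generic edge
  have hgen : ∀ v ∈ A, ∀ w ∈ A, G.Adj v w → (∀ k, p k ≠ v) → w ≠ p0 →
      σ s(v, w) = π v + π w := by
    intro v hv w hw hvw hvt hw0
    obtain ⟨N, hN, hNl, hNt, hwN⟩ := hbase v hv w hw0 hvw.ne'
    have hN2 : Pth G.Adj {z | z ∈ A} v w [v, w] :=
      ⟨by simpa using hvw.ne, by simpa using hvw, rfl, rfl, by
        intro z hz
        simp only [List.mem_cons, List.not_mem_nil, or_false] at hz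
        rcases hz with rfl | rfl
        · exact hv
        · exact hw⟩
    have hdisj : ∀ z ∈ N, z ∈ [v, w] → z = v := by
      intro z hz hz'
      simp only [List.mem_cons, List.not_mem_nil, or_false] at hz'
      rcases hz' with rfl | rfl
      · rfl
      · exact absurd hz hwN
    have hj := hN.join hN2 hdisj
    have e1 := hπ v hv N hN (by omega) hNt
    have e2 := hπ w hw _ (hj.mono fun z _ hz => by
      rcases hz with h | h <;> exact h) (by
      have := hN.join_len hN2
      simp only [List.length_cons, List.length_nil] at this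
      omega) (by
      intro k hk
      rcases hN.join_mem hN2 hk with h | h
      · exact absurd (hNt k h) (hvt k)
      · simp only [List.mem_cons, List.not_mem_nil, or_false] at h
        rcases h with h | h
        · exact absurd h (hvt k)
        · exact h)
    rw [hN.join_ls σ hN2, e1] at e2
    rw [← e2]
    have e3 : ls σ [v, w] = σ s(v, w) := by simp
    rw [e3]
    have := two_self (π v)
    linear_combination -this
  refine ⟨π, ?_⟩
  intro x hx y hy hxy
  by_cases hy0 : y = p0
  · subst hy0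
    rw [Sym2.eq_swap, add_comm]
    exact hgen _ hy x hx hxy.symm (fun k => hp0i k) hxy.ne
  by_cases hxt : ∀ k, p k ≠ x
  · exact hgen x hx y hy hxy hxt hy0
  push Not at hxt
  obtain ⟨i, hi⟩ := hxt
  by_cases hyt : ∀ k, p k ≠ y
  · rw [Sym2.eq_swap, add_comm]
    exact hgen y hy x hx hxy.symm hyt (by rw [← hi]; exact hp0i i)
  push Not at hyt
  obtain ⟨k, hk⟩ := hyt
  have hik : i ≠ k := by
    rintro rfl
    exact hxy.ne (hi.symm.trans hk)
  obtain ⟨j, hji, hjk⟩ : ∃ j : Fin 3, j ≠ i ∧ j ≠ k := by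
    revert hik
    fin_cases i <;> fin_cases k <;> first
      | (intro h; exact absurd rfl h)
      | (intro _; exact ⟨0, by decide, by decide⟩)
      | (intro _; exact ⟨1, by decide, by decide⟩)
      | (intro _; exact ⟨2, by decide, by decide⟩)
  obtain ⟨Nx, hNx, hNxl, hNxt⟩ := hbase' x hx
  obtain ⟨Ny, hNy, hNyl, hNyt⟩ := hbase' y hy
  have hR : ∀ a b, G.Adj a b → G.Adj b a := fun a b h => h.symm
  have hN2 : Pth G.Adj {z | z ∈ A} x y [x, y] :=
    ⟨by simpa using hxy.ne, by simpa using hxy, rfl, rfl, by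
      intro z hz
      simp only [List.mem_cons, List.not_mem_nil, or_false] at hz
      rcases hz with rfl | rfl
      · exact hx
      · exact hy⟩
  have hxNy : x ∉ Ny := fun h => hik (by
    by_contra _
    have := hNyt i (hi ▸ h)
    exact hxy.ne (hi.symm.trans this))
  have hdisj : ∀ z ∈ [x, y], z ∈ Ny.reverse → z = y := by
    intro z hz hz'
    simp only [List.mem_cons, List.not_mem_nil, or_false] at hz
    rcases hz with rfl | rfl
    · exact absurd (List.mem_reverse.1 hz') hxNy
    · rfl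
  have hj1 := hN2.join (hNy.rev hR) hdisj
  have hmono : Pth G.Adj {z | z ∈ A} x p0 ([x, y] ++ Ny.reverse.tail) := hj1.mono fun z _ hz => by
    rcases hz with h | h <;> exact h
  subst hi
  have hSx : Pth G.Adj {z | z ∈ A} (p i) (p i) [p i] := Pth.single hx
  have e := blob_U hB hC hpA hji.symm hSx hmono (hNx.rev hR)
    (fun z hz _ => by simpa using hz) (fun z hz _ => by simpa using hz)
    (by simpa using hinj j i hji) (by
      intro h
      rcases hN2.join_mem (hNy.rev hR) h with h | h
      · simp only [List.mem_cons, List.not_mem_nil, or_false] at h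
        rcases h with h | h
        · exact hinj j i hji h
        · exact hinj j k hjk (h.trans hk.symm)
      · exact hinj j k hjk ((hNyt j (List.mem_reverse.1 h)).trans hk.symm))
    (by
      intro h
      exact hinj j i hji (hNxt j (List.mem_reverse.1 h)))
    (by
      have h1 := hN2.join_len (hNy.rev hR)
      simp only [List.length_cons, List.length_nil, List.length_reverse] at h1 ⊢
      omega)
  rw [hN2.join_ls σ (hNy.rev hR), ls_reverse, ls_reverse] at e
  have e1 := hπ _ hx Nx hNx (by omega) hNxt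
  have e2 := hπ _ hy Ny hNy (by omega) hNyt
  have e3 : ls σ [p i, y] = σ s(p i, y) := by simp
  rw [e3, e1, e2] at e
  have := two_self (π y)
  linear_combination e - this

end Run7.h807
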