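import Mathlib
import Pool.Agent.Run7.h807.Blob1

set_option autoImplicit false

namespace Run7.h807

variable {V : Type*} {G : SimpleGraph V}

/-- three disjoint legs joining `A` to `B` -/
structure Legs (R : V → V → Prop) (A B : Finset V) (p q : Fin 3 → V) (Lg : Fin 3 → List V) :
    Prop where
  pth : ∀ i, Pth R Set.univ (p i) (q i) (Lg i)
  dis : ∀ i j, i ≠ j → ∀ z ∈ Lg i, z ∉ Lg j
  pA : ∀ i, p i ∈ A
  qB : ∀ i, q i ∈ B
  onA : ∀ i, ∀ z ∈ Lg i, z ∈ A → z = p i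
  onB : ∀ i, ∀ z ∈ Lg i, z ∈ B → z = q i
  dAB : ∀ z ∈ A, z ∉ B

variable {R : V → V → Prop} {A B : Finset V} {p q : Fin 3 → V} {Lg : Fin 3 → List V}

theorem Legs.swap (hR : ∀ a b, R a b → R b a) (h : Legs R A B p q Lg) :
    Legs R B A q p (fun i => (Lg i).reverse) :=
  ⟨fun i => (h.pth i).rev hR,
    fun i j hij z hz hz' => h.dis i j hij z (List.mem_reverse.1 hz) (List.mem_reverse.1 hz'),
    h.qB, h.pA, fun i z hz => h.onB i z (List.mem_reverse.1 hz),
    fun i z hz => h.onA i z (List.mem_reverse.1 hz), fun z hz hz' => h.dAB z hz' hz⟩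

theorem Legs.pinj (h : Legs R A B p q Lg) : ∀ i j, i ≠ j → p i ≠ p j := fun i j hij he =>
  h.dis i j hij (p i) (h.pth i).memu (he ▸ (h.pth j).memu)

theorem Legs.qinj (h : Legs R A B p q Lg) : ∀ i j, i ≠ j → q i ≠ q j := fun i j hij he =>
  h.dis i j hij (q i) (h.pth i).memv (he ▸ (h.pth j).memv)

theorem Legs.pq (h : Legs R A B p q Lg) (i : Fin 3) : p i ≠ q i := fun he =>
  h.dAB _ (h.pA i) (he ▸ h.qB i)

/-- the outer route between two terminals -/
theorem Legs.outer (hR : ∀ a b, R a b → R b a) (h : Legs R A B p q Lg) {i j : Fin 3}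
    (hij : i ≠ j) {b : List V} (hb : Pth R {z | z ∈ B} (q i) (q j) b) (σ : Sym2 V → ZMod 2) :
    ∃ O, Pth R {z | z ∈ B ∨ ∃ k, z ∈ Lg k} (p i) (p j) O ∧
      (∀ z ∈ O, z ∈ A → z = p i ∨ z = p j) ∧ b.length + 2 ≤ O.length ∧
      ls σ O = ls σ (Lg i) + ls σ b + ls σ (Lg j) := by
  have h1 := (h.pth i).join hb (fun z hz hz' => h.onB i z hz (hb.mem z hz'))
  have hrev := (h.pth j).rev hR
  have h2 := h1.join hrev (fun z hz hz' => by
    rcases (h.pth i).join_mem hb hz with hz1 | hz1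
    · exact absurd (List.mem_reverse.1 hz') (h.dis i j hij z hz1)
    · exact h.onB j z (List.mem_reverse.1 hz') (hb.mem z hz1))
  refine ⟨_, h2.mono fun z hz _ => ?_, fun z hz hzA => ?_, ?_, ?_⟩
  · rcases h1.join_mem hrev hz with hz1 | hz1
    · rcases (h.pth i).join_mem hb hz1 with hz2 | hz2
      · exact Or.inr ⟨i, hz2⟩
      · exact Or.inl (hb.mem z hz2)
    · exact Or.inr ⟨j, List.mem_reverse.1 hz1⟩
  · rcases h1.join_mem hrev hz with hz1 | hz1
    · rcases (h.pth i).join_mem hb hz1 with hz2 | hz2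
      · exact Or.inl (h.onA i z hz2 hzA)
      · exact absurd (hb.mem z hz2) (h.dAB z hzA)
    · exact Or.inr (h.onA j z (List.mem_reverse.1 hz1) hzA)
  · have e1 := h1.join_len hrev
    have e2 := (h.pth i).join_len hb
    have e3 := (h.pth i).two (h.pq i)
    have e4 := (h.pth j).two (h.pq j)
    rw [List.length_reverse] at e1
    omega
  · rw [h1.join_ls σ hrev, (h.pth i).join_ls σ hb, ls_reverse]

variable {σ : Sym2 V → ZMod 2} {t : ZMod 2} {ℓA ℓB cA cB rA rB m : ℕ}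

theorem Legs.close (h : Legs G.Adj A B p q Lg) (hU : Uni G m σ t) (hm : m ≤ ℓA + ℓB)
    (hB1 : 1 ≤ ℓB) {i j : Fin 3} (hij : i ≠ j) {l b : List V}
    (hl : Pth G.Adj {z | z ∈ A} (p i) (p j) l) (hb : Pth G.Adj {z | z ∈ B} (q j) (q i) b)
    (hll : ℓA ≤ l.length) (hbl : ℓB ≤ b.length) :
    ls σ l + (ls σ (Lg i) + ls σ b + ls σ (Lg j)) = t := by
  obtain ⟨O, hO, hOA, hOl, hOs⟩ := h.outer (fun a b hab => hab.symm) hij.symm hb σ
  have e := hU.close hl hO (h.pinj i j hij) (fun z hz hz' => (hOA z hz' (hl.mem z hz)).symm)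
    (by
      have := hl.two (h.pinj i j hij)
      omega) (by omega)
  rw [hOs] at e
  rw [← e]
  ring

theorem Legs.cst (h : Legs G.Adj A B p q Lg) (hB : Blob G B ℓB cB rB) (hU : Uni G m σ t)
    (hm : m ≤ ℓA + ℓB) (hB1 : 1 ≤ ℓB) : Cst G σ A p ℓA := by
  intro i j hij l l' hl hl' h1 h2
  obtain ⟨b, hb, hbl⟩ := hB.long ∅ (by simp) (q j) (h.qB j) (q i) (h.qB i) (by simp) (by simp)
    (h.qinj j i hij.symm)
  have hb' : Pth G.Adj {z | z ∈ B} (q j) (q i) b := hb.mono fun z _ hz => hz.1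
  have e1 := h.close hU hm hB1 hij hl hb' h1 hbl
  have e2 := h.close hU hm hB1 hij hl' hb' h2 hbl
  rw [← e2] at e1
  linear_combination e1

theorem pth_ls {S : Set V} {π : V → ZMod 2} {u v : V} {l : List V}
    (h : Pth (Cons G σ π) S u v l) : ls σ l = π u + π v :=
  ls_of_cons l u v h.ch h.hd h.lt

theorem pth_cons {π : V → ZMod 2} {A : Finset V} {S : Set V} (hS : ∀ z ∈ S, z ∈ A)
    (hA : ∀ x ∈ A, ∀ y ∈ A, G.Adj x y → σ s(x, y) = π x + π y) {u v : V} {l : List V}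
    (h : Pth G.Adj S u v l) : Pth (Cons G σ π) S u v l :=
  h.imp fun a b ha hb hab => ⟨hab, hA a (hS a ha) b (hS b hb) hab⟩

/-- the values of the three legs -/
theorem Legs.values (h : Legs G.Adj A B p q Lg) (hA : Blob G A ℓA cA rA)
    (hB : Blob G B ℓB cB rB) (hU : Uni G m σ t) (hm : m ≤ ℓA + ℓB) (hB1 : 1 ≤ ℓB)
    {πA πB : V → ZMod 2} (hπA : ∀ x ∈ A, ∀ y ∈ A, G.Adj x y → σ s(x, y) = πA x + πA y)
    (hπB : ∀ x ∈ B, ∀ y ∈ B, G.Adj x y → σ s(x, y) = πB x + πB y) :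
    t = 0 ∧ ∀ i, πA (p i) + πB (q i) + ls σ (Lg i) = πA (p 0) + πB (q 0) + ls σ (Lg 0) := by
  have key : ∀ i j, i ≠ j → (πA (p i) + πB (q i) + ls σ (Lg i)) +
      (πA (p j) + πB (q j) + ls σ (Lg j)) = t := by
    intro i j hij
    obtain ⟨b, hb, hbl⟩ := hB.long ∅ (by simp) (q j) (h.qB j) (q i) (h.qB i) (by simp) (by simp)
      (h.qinj j i hij.symm)
    obtain ⟨l, hl, hll⟩ := hA.long ∅ (by simp) (p i) (h.pA i) (p j) (h.pA j) (by simp) (by simp)
      (h.pinj i j hij)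
    have e := h.close hU hm hB1 hij (hl.mono fun z _ hz => hz.1) (hb.mono fun z _ hz => hz.1)
      hll hbl
    rw [pth_ls (pth_cons (fun z hz => hz.1) hπA hl), pth_ls (pth_cons (fun z hz => hz.1) hπB hb)]
      at e
    rw [← e]
    ring
  have h01 := key 0 1 (by decide)
  have h02 := key 0 2 (by decide)
  have h12 := key 1 2 (by decide)
  have h0 := two_self (πA (p 0) + πB (q 0) + ls σ (Lg 0))
  have h1 := two_self (πA (p 1) + πB (q 1) + ls σ (Lg 1))
  have h2 := two_self (πA (p 2) + πB (q 2) + ls σ (Lg 2))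
  have htt := two_self t
  have ht : t = 0 := by linear_combination h0 + h1 + h2 - h01 - h02 - h12 - htt
  refine ⟨ht, fun i => ?_⟩
  fin_cases i
  · rfl
  · change πA (p 1) + πB (q 1) + ls σ (Lg 1) = _
    linear_combination h01 - h0 + ht
  · change πA (p 2) + πB (q 2) + ls σ (Lg 2) = _
    linear_combination h02 - h0 + ht

end Run7.h807
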