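import Mathlib
import Pool.Agent.Run7.h807.Blob2

set_option autoImplicit false

namespace Run7.h807

variable {V : Type*} {G : SimpleGraph V} {σ : Sym2 V → ZMod 2}

theorem Pth.mid {R : V → V → Prop} {S : Set V} {u v : V} {l : List V} (h : Pth R S u v l)
    (huv : u ≠ v) : ∃ I, l = u :: (I ++ [v]) := by
  obtain ⟨l', rfl⟩ := h.snoc_eq
  cases l' with
  | nil =>
    have := h.hd
    simp only [List.nil_append, List.head?_cons, Option.some.injEq] at this
    exact absurd this.symm huv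
  | cons a I =>
    have := h.hd
    simp only [List.cons_append, List.head?_cons, Option.some.injEq] at this
    exact ⟨I, by rw [this]; rfl⟩

theorem leg_ext [DecidableEq V] {π : V → ZMod 2} {a b : V} {I : List V}
    (hn : (a :: (I ++ [b])).Nodup) (hc : (a :: (I ++ [b])).IsChain G.Adj)
    (hs : ls σ (a :: (I ++ [b])) = π a + π b) :
    ∃ π' : V → ZMod 2, (∀ z, z ∉ I → π' z = π z) ∧ (a :: (I ++ [b])).IsChain (Cons G σ π') := by
  rw [← List.cons_append] at hn hc hs ⊢
  have hn' := List.nodup_append.1 hn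
  have hc' := List.isChain_append.1 hc
  obtain ⟨π', h1, h2⟩ := ext_pot σ I a π hn'.1 hc'.1
  refine ⟨π', h1, ?_⟩
  rw [List.isChain_append]
  refine ⟨h2, by simp, fun x hx y hy => ?_⟩
  have hxa := hc'.2.2 x hx y hy
  simp only [List.head?_cons, Option.mem_def, Option.some.injEq] at hy
  subst hy
  rw [Option.mem_def] at hx
  refine ⟨hxa, ?_⟩
  rw [ls_append σ hx (List.head?_cons), ls_single, add_zero,
    ls_of_cons (a :: I) a x h2 rfl hx] at hs
  have haI : a ∉ I := (List.nodup_cons.1 hn'.1).1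
  have hbI : b ∉ I := fun h => hn'.2.2 b (List.mem_cons_of_mem _ h) b (by simp) rfl
  rw [h1 a haI] at hs
  rw [h1 b hbI]
  have := two_self (π' x)
  linear_combination hs - this

variable {A B : Finset V} {p q : Fin 3 → V} {Lg : Fin 3 → List V}

theorem Legs.pot [DecidableEq V] (h : Legs G.Adj A B p q Lg) (π0 : V → ZMod 2)
    (hs : ∀ i, ls σ (Lg i) = π0 (p i) + π0 (q i)) :
    ∃ π : V → ZMod 2, (∀ z, z ∈ A ∨ z ∈ B → π z = π0 z) ∧
      ∀ i, (Lg i).IsChain (Cons G σ π) := by
  have key : ∀ k, k ≤ 3 → ∃ π : V → ZMod 2, (∀ z, z ∈ A ∨ z ∈ B → π z = π0 z) ∧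
      ∀ i : Fin 3, i.val < k → (Lg i).IsChain (Cons G σ π) := by
    intro k
    induction k with
    | zero => exact fun _ => ⟨π0, fun _ _ => rfl, fun i hi => absurd hi (by omega)⟩
    | succ k ih =>
      intro hk
      obtain ⟨π, h1, h2⟩ := ih (by omega)
      obtain ⟨I, hI⟩ := (h.pth ⟨k, by omega⟩).mid (h.pq _)
      have hn := (h.pth ⟨k, by omega⟩).nd
      have hc := (h.pth ⟨k, by omega⟩).ch
      have hs' := hs ⟨k, by omega⟩
      rw [hI] at hn hc hs'
      rw [← h1 _ (Or.inl (h.pA _)), ← h1 _ (Or.inr (h.qB _))] at hs'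
      obtain ⟨π', g1, g2⟩ := leg_ext hn hc hs'
      rw [List.nodup_cons] at hn
      have hn2 := List.nodup_append.1 hn.2
      have hIm : ∀ z ∈ I, z ∈ Lg ⟨k, by omega⟩ := fun z hz => by
        rw [hI]
        exact List.mem_cons_of_mem _ (List.mem_append.2 (Or.inl hz))
      refine ⟨π', fun z hz => ?_, fun i hi => ?_⟩
      · rw [g1 z ?_]
        · exact h1 z hz
        · intro hzI
          rcases hz with hz | hz
          · have := h.onA _ z (hIm z hzI) hz
            exact hn.1 (this ▸ List.mem_append.2 (Or.inl hzI))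
          · have := h.onB _ z (hIm z hzI) hz
            exact hn2.2.2 z hzI z (by simp [this]) rfl
      · by_cases hik : i.val < k
        · refine List.IsChain.imp_of_mem_imp (fun a b ha hb hab => ?_) (h2 i hik)
          have hne : i ≠ ⟨k, by omega⟩ := fun he => by
            rw [he] at hik
            simp at hik
          refine ⟨hab.1, ?_⟩
          rw [g1 a fun haI => h.dis i _ hne a ha (hIm a haI),
            g1 b fun hbI => h.dis i _ hne b hb (hIm b hbI)]
          exact hab.2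
        · have he : i = ⟨k, by omega⟩ := Fin.ext (by simp; omega)
          rw [he, hI]
          exact g2
  obtain ⟨π, h1, h2⟩ := key 3 le_rfl
  exact ⟨π, h1, fun i => h2 i i.isLt⟩

/-- access to the side `A` -/
structure Acc (R : V → V → Prop) (A B : Finset V) (Lg : Fin 3 → List V) (i : Fin 3) (x a : V)
    (P : List V) : Prop where
  pth : Pth R {z | z ∈ A ∨ ∃ k, z ∈ Lg k} x a P
  aA : a ∈ A
  onA : ∀ z ∈ P, z ∈ A → z = a
  offB : ∀ z ∈ P, z ∉ B
  offL : ∀ k, k ≠ i → ∀ z ∈ P, z ∉ Lg k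

section links

variable {R : V → V → Prop} {ℓA ℓB : ℕ}

theorem Acc.unrev {i : Fin 3} {x a : V} {P : List V}
    (h : Acc R A B (fun k => (Lg k).reverse) i x a P) : Acc R A B Lg i x a P :=
  ⟨h.pth.mono fun z _ hz => by simpa using hz, h.aA, h.onA, h.offB,
    fun k hk z hz hz' => h.offL k hk z hz (List.mem_reverse.2 hz')⟩

theorem Legs.acc_self (h : Legs R A B p q Lg) {x : V} (hx : x ∈ A) :
    ∃ i, Acc R A B Lg i x x [x] := by
  by_cases hex : ∃ i, p i = x
  · obtain ⟨i, rfl⟩ := hex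
    refine ⟨i, Pth.single (Or.inl hx), hx, fun z hz _ => by simpa using hz, fun z hz => ?_,
      fun k hk z hz => ?_⟩
    · rw [List.mem_singleton] at hz
      rw [hz]
      exact h.dAB _ hx
    · rw [List.mem_singleton] at hz
      rw [hz]
      exact fun hm => h.dis k i hk _ hm (h.pth i).memu
  · push Not at hex
    refine ⟨0, Pth.single (Or.inl hx), hx, fun z hz _ => by simpa using hz, fun z hz => ?_,
      fun k hk z hz => ?_⟩
    · rw [List.mem_singleton] at hz
      rw [hz]
      exact h.dAB _ hx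
    · rw [List.mem_singleton] at hz
      rw [hz]
      exact fun hm => hex k (h.onA k x hm hx).symm

theorem Legs.acc_leg (hR : ∀ a b, R a b → R b a) (h : Legs R A B p q Lg) {i : Fin 3} {x : V}
    {l₁ l₂ : List V} (hsp : Lg i = l₁ ++ x :: l₂) (hx : x ∉ B) :
    Acc R A B Lg i x (p i) (l₁ ++ [x]).reverse := by
  have hn := (h.pth i).nd
  have hc := (h.pth i).ch
  have hd := (h.pth i).hd
  have hm : ∀ z ∈ (l₁ ++ [x]).reverse, z ∈ Lg i := fun z hz => by
    rw [List.mem_reverse, List.mem_append, List.mem_singleton] at hz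
    rw [hsp, List.mem_append, List.mem_cons]
    rcases hz with hz | hz
    · exact Or.inl hz
    · exact Or.inr (Or.inl hz)
  rw [hsp] at hn hc hd
  rw [List.isChain_split] at hc
  have hn2 : (l₁ ++ [x]).Nodup := by
    have : ((l₁ ++ [x]) ++ l₂).Nodup := by simpa using hn
    exact (List.nodup_append.1 this).1
  refine ⟨⟨List.nodup_reverse.2 hn2, ?_, by simp, ?_, fun z hz => Or.inr ⟨i, hm z hz⟩⟩, h.pA i,
    fun z hz hzA => h.onA i z (hm z hz) hzA, fun z hz hzB => ?_, fun k hk z hz hzk =>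
    h.dis k i hk z hzk (hm z hz)⟩
  · rw [List.isChain_reverse]
    exact hc.1.imp fun a b hab => hR a b hab
  · rw [List.getLast?_reverse]
    cases l₁ with
    | nil => simpa using hd
    | cons a l => simpa using hd
  · have hzq := h.onB i z (hm z hz) hzB
    rw [List.mem_reverse, List.mem_append, List.mem_singleton] at hz
    rcases hz with hz | hz
    · -- then `z = q i` is the last vertex, in the first part
      have hlast := (h.pth i).lt
      rw [hsp, List.getLast?_append_of_ne_nil _ (by simp)] at hlast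
      have h3 : z ∈ x :: l₂ := by
        rw [hzq]
        exact List.mem_of_getLast? hlast
      exact (List.nodup_append.1 hn).2.2 z hz z h3 rfl
    · exact hx (hz ▸ hzB)

theorem Legs.link1 (hR : ∀ a b, R a b → R b a) (h : Legs R A B p q Lg)
    (hlA : ∀ x ∈ A, ∀ y ∈ A, x ≠ y → ∃ l, Pth R {z | z ∈ A} x y l ∧ ℓA ≤ l.length)
    (hlB : ∀ x ∈ B, ∀ y ∈ B, x ≠ y → ∃ l, Pth R {z | z ∈ B} x y l ∧ ℓB ≤ l.length)
    {i j : Fin 3} {x y a b : V} {P Q : List V} (hx : Acc R A B Lg i x a P)
    (hy : Acc R B A Lg j y b Q) (hd : ∀ z ∈ P, z ∉ Q) :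
    ∃ l, Pth R {z | z ∈ A ∨ z ∈ B ∨ ∃ k, z ∈ Lg k} x y l ∧ ℓA + ℓB ≤ l.length := by
  obtain ⟨k, hki, hkj⟩ : ∃ k : Fin 3, k ≠ i ∧ k ≠ j := by
    fin_cases i <;> fin_cases j <;> first
      | exact ⟨0, by decide, by decide⟩
      | exact ⟨1, by decide, by decide⟩
      | exact ⟨2, by decide, by decide⟩
  obtain ⟨l1, hl1, hl1l⟩ := hlA a hx.aA (p k) (h.pA k) (fun he =>
    hx.offL k hki a hx.pth.memv (he ▸ (h.pth k).memu))
  obtain ⟨l2, hl2, hl2l⟩ := hlB (q k) (h.qB k) b hy.aA (fun he =>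
    hy.offL k hkj b hy.pth.memv (he ▸ (h.pth k).memv))
  have J1 := hx.pth.join hl1 (fun z hz hz' => hx.onA z hz (hl1.mem z hz'))
  have J2 := J1.join (h.pth k) (fun z hz hz' => by
    rcases hx.pth.join_mem hl1 hz with g | g
    · exact absurd hz' (hx.offL k hki z g)
    · exact h.onA k z hz' (hl1.mem z g))
  have J3 := J2.join hl2 (fun z hz hz' => by
    rcases J1.join_mem (h.pth k) hz with g | g
    · rcases hx.pth.join_mem hl1 g with g | g
      · exact absurd (hl2.mem z hz') (hx.offB z g)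
      · exact absurd (hl2.mem z hz') (h.dAB z (hl1.mem z g))
    · exact h.onB k z g (hl2.mem z hz'))
  have hQr := hy.pth.rev hR
  have J4 := J3.join hQr (fun z hz hz' => by
    rw [List.mem_reverse] at hz'
    rcases J2.join_mem hl2 hz with g | g
    · rcases J1.join_mem (h.pth k) g with g | g
      · rcases hx.pth.join_mem hl1 g with g | g
        · exact absurd hz' (hd z g)
        · exact absurd (hl1.mem z g) (hy.offB z hz')
      · exact absurd g (hy.offL k hkj z hz')
    · exact hy.onA z hz' (hl2.mem z g))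
  refine ⟨_, J4.mono fun z hz _ => ?_, ?_⟩
  · rcases J3.join_mem hQr hz with g | g
    · rcases J2.join_mem hl2 g with g | g
      · rcases J1.join_mem (h.pth k) g with g | g
        · rcases hx.pth.join_mem hl1 g with g | g
          · rcases hx.pth.mem z g with g | g
            · exact Or.inl g
            · exact Or.inr (Or.inr g)
          · exact Or.inl (hl1.mem z g)
        · exact Or.inr (Or.inr ⟨k, g⟩)
      · exact Or.inr (Or.inl (hl2.mem z g))
    · rcases hy.pth.mem z (List.mem_reverse.1 g) with g | g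
      · exact Or.inr (Or.inl g)
      · exact Or.inr (Or.inr g)
  · have e1 := hx.pth.join_len hl1
    have e2 := J1.join_len (h.pth k)
    have e3 := J2.join_len hl2
    have e4 := J3.join_len hQr
    have e5 := hx.pth.pos
    have e6 := (h.pth k).two (h.pq k)
    have e7 := hQr.pos
    omega

theorem Legs.link2 [DecidableEq V] (hR : ∀ a b, R a b → R b a) (h : Legs R A B p q Lg)
    {cA rA : ℕ} (hcr : cA ≤ rA) (hr2 : 2 ≤ rA)
    (hsA : ∀ F : Finset V, F.card ≤ rA → ∀ x ∈ A, ∀ y ∈ A, x ∉ F → y ∉ F →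
      ∃ l, Pth R {z | z ∈ A ∧ z ∉ F} x y l ∧ l.length ≤ cA)
    (hlA : ∀ F : Finset V, F.card ≤ rA → ∀ x ∈ A, ∀ y ∈ A, x ∉ F → y ∉ F → x ≠ y →
      ∃ l, Pth R {z | z ∈ A ∧ z ∉ F} x y l ∧ ℓA ≤ l.length)
    (hlB : ∀ x ∈ B, ∀ y ∈ B, x ≠ y → ∃ l, Pth R {z | z ∈ B} x y l ∧ ℓB ≤ l.length)
    {x y : V} (hx : x ∈ A) (hy : y ∈ A) (hxy : x ≠ y) :
    ∃ l, Pth R {z | z ∈ A ∨ z ∈ B ∨ ∃ k, z ∈ Lg k} x y l ∧ ℓA + ℓB ≤ l.length := by
  obtain ⟨i, j, hij, hiy, hjx, hjy⟩ : ∃ i j, i ≠ j ∧ p i ≠ y ∧ p j ≠ x ∧ p j ≠ y := by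
    obtain ⟨i, j, hij, hi, hj⟩ := two_term h.pinj y
    by_cases hix : p i = x
    · exact ⟨i, j, hij, hi, fun he => h.pinj i j hij (hix.trans he.symm), hj⟩
    · exact ⟨j, i, hij.symm, hj, hix, hi⟩
  obtain ⟨S, hS, hSl⟩ := hsA {p j, y} (Finset.card_le_two.trans hr2) x hx (p i) (h.pA i)
    (by
      rw [Finset.mem_insert, Finset.mem_singleton]
      rintro (g | g)
      · exact hjx g.symm
      · exact hxy g) (by
      rw [Finset.mem_insert, Finset.mem_singleton]
      rintro (g | g)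
      · exact h.pinj i j hij g
      · exact hiy g)
  have hSF : ∀ z ∈ S, z ≠ p j ∧ z ≠ y := fun z hz => by
    have := (hS.mem z hz).2
    rw [Finset.mem_insert, Finset.mem_singleton, not_or] at this
    exact this
  obtain ⟨b, hb, hbl⟩ := hlB (q i) (h.qB i) (q j) (h.qB j) (h.qinj i j hij)
  obtain ⟨O, hO, hOA, hOl, -⟩ := h.outer hR hij hb (fun _ => 0)
  obtain ⟨l, hl, hll⟩ := hlA S.toFinset ((List.toFinset_card_le _).trans (hSl.trans hcr)) (p j)
    (h.pA j) y hy (by
      rw [List.mem_toFinset]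
      exact fun g => (hSF _ g).1 rfl) (by
      rw [List.mem_toFinset]
      exact fun g => (hSF _ g).2 rfl) hjy
  have hlS : ∀ z ∈ l, z ∉ S := fun z hz g => (hl.mem z hz).2 (List.mem_toFinset.2 g)
  have J1 := hS.join hO (fun z hz hz' => by
    rcases hOA z hz' (hS.mem z hz).1 with g | g
    · exact g
    · exact absurd g (hSF z hz).1)
  have J2 := J1.join hl (fun z hz hz' => by
    rcases hS.join_mem hO hz with g | g
    · exact absurd g (hlS z hz')
    · rcases hOA z g (hl.mem z hz').1 with g' | g'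
      · exact absurd (g' ▸ hS.memv) (hlS z hz')
      · exact g')
  refine ⟨_, J2.mono fun z _ hz => ?_, ?_⟩
  · rcases hz with (g | g) | g
    · exact Or.inl g.1
    · exact Or.inr g
    · exact Or.inl g.1
  · have e1 := hS.join_len hO
    have e2 := J1.join_len hl
    have e3 := hS.pos
    omega

end links

end Run7.h807
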