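import Mathlib
import Pool.Agent.Run7.h807.Blob3

set_option autoImplicit false

namespace Run7.h807

variable {V : Type*} {G : SimpleGraph V} {σ : Sym2 V → ZMod 2}

/-- all pairs are linked -/
theorem Legs.all [DecidableEq V] {R : V → V → Prop} {A B : Finset V} {p q : Fin 3 → V}
    {Lg : Fin 3 → List V} {ℓA ℓB cA cB rA rB : ℕ} (hR : ∀ a b, R a b → R b a)
    (h : Legs R A B p q Lg) (hcA : cA ≤ rA) (hcB : cB ≤ rB) (hrA : 2 ≤ rA) (hrB : 2 ≤ rB)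
    (hsA : ∀ F : Finset V, F.card ≤ rA → ∀ x ∈ A, ∀ y ∈ A, x ∉ F → y ∉ F →
      ∃ l, Pth R {z | z ∈ A ∧ z ∉ F} x y l ∧ l.length ≤ cA)
    (hlA : ∀ F : Finset V, F.card ≤ rA → ∀ x ∈ A, ∀ y ∈ A, x ∉ F → y ∉ F → x ≠ y →
      ∃ l, Pth R {z | z ∈ A ∧ z ∉ F} x y l ∧ ℓA ≤ l.length)
    (hsB : ∀ F : Finset V, F.card ≤ rB → ∀ x ∈ B, ∀ y ∈ B, x ∉ F → y ∉ F →
      ∃ l, Pth R {z | z ∈ B ∧ z ∉ F} x y l ∧ l.length ≤ cB)
    (hlB : ∀ F : Finset V, F.card ≤ rB → ∀ x ∈ B, ∀ y ∈ B, x ∉ F → y ∉ F → x ≠ y →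
      ∃ l, Pth R {z | z ∈ B ∧ z ∉ F} x y l ∧ ℓB ≤ l.length)
    {x y : V} (hx : x ∈ A ∨ x ∈ B ∨ ∃ k, x ∈ Lg k) (hy : y ∈ A ∨ y ∈ B ∨ ∃ k, y ∈ Lg k)
    (hxy : x ≠ y) :
    ∃ l, Pth R {z | z ∈ A ∨ z ∈ B ∨ ∃ k, z ∈ Lg k} x y l ∧ ℓA + ℓB ≤ l.length := by
  have hlA0 : ∀ x ∈ A, ∀ y ∈ A, x ≠ y → ∃ l, Pth R {z | z ∈ A} x y l ∧ ℓA ≤ l.length := by
    intro x hx y hy hxy
    obtain ⟨l, hl, hll⟩ := hlA ∅ (by simp) x hx y hy (by simp) (by simp) hxy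
    exact ⟨l, hl.mono fun z _ hz => hz.1, hll⟩
  have hlB0 : ∀ x ∈ B, ∀ y ∈ B, x ≠ y → ∃ l, Pth R {z | z ∈ B} x y l ∧ ℓB ≤ l.length := by
    intro x hx y hy hxy
    obtain ⟨l, hl, hll⟩ := hlB ∅ (by simp) x hx y hy (by simp) (by simp) hxy
    exact ⟨l, hl.mono fun z _ hz => hz.1, hll⟩
  have hs := h.swap hR
  have hsymm : ∀ {x y : V},
      (∃ l, Pth R {z | z ∈ A ∨ z ∈ B ∨ ∃ k, z ∈ Lg k} x y l ∧ ℓA + ℓB ≤ l.length) →
      (∃ l, Pth R {z | z ∈ A ∨ z ∈ B ∨ ∃ k, z ∈ Lg k} y x l ∧ ℓA + ℓB ≤ l.length) := by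
    rintro x y ⟨l, h1, h2⟩
    exact ⟨l.reverse, h1.rev hR, by rw [List.length_reverse]; exact h2⟩
  -- a vertex outside the blobs lies inside a leg
  -- `x` has access to `A`, `y` has access to `B`
  have hAB : ∀ {x y : V}, x ∈ A → y ∈ B →
      ∃ l, Pth R {z | z ∈ A ∨ z ∈ B ∨ ∃ k, z ∈ Lg k} x y l ∧ ℓA + ℓB ≤ l.length := by
    intro x y hx hy
    obtain ⟨i, h1⟩ := h.acc_self hx
    obtain ⟨j, h2⟩ := hs.acc_self hy
    exact h.link1 hR hlA0 hlB0 h1 h2.unrev (fun z hz hz' => by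
      rw [List.mem_singleton] at hz hz'
      exact h.dAB x hx (hz.symm.trans hz' ▸ hy))
  have hAL : ∀ {x y : V}, x ∈ A → y ∉ A → y ∉ B → (∃ k, y ∈ Lg k) →
      ∃ l, Pth R {z | z ∈ A ∨ z ∈ B ∨ ∃ k, z ∈ Lg k} x y l ∧ ℓA + ℓB ≤ l.length := by
    rintro x y hx hyA hyB ⟨k, hk⟩
    obtain ⟨i, h1⟩ := h.acc_self hx
    obtain ⟨l₁, l₂, hsp⟩ := List.append_of_mem hk
    have hsp' : (Lg k).reverse = l₂.reverse ++ y :: l₁.reverse := by
      rw [hsp]; simp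
    have h2 := hs.acc_leg hR hsp' hyA
    refine h.link1 hR hlA0 hlB0 h1 h2.unrev (fun z hz hz' => ?_)
    rw [List.mem_singleton] at hz
    exact h2.offB z hz' (hz ▸ hx)
  have hBL : ∀ {x y : V}, x ∈ B → y ∉ A → y ∉ B → (∃ k, y ∈ Lg k) →
      ∃ l, Pth R {z | z ∈ A ∨ z ∈ B ∨ ∃ k, z ∈ Lg k} y x l ∧ ℓA + ℓB ≤ l.length := by
    rintro x y hx hyA hyB ⟨k, hk⟩
    obtain ⟨i, h1⟩ := hs.acc_self hx
    obtain ⟨l₁, l₂, hsp⟩ := List.append_of_mem hk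
    have h2 := h.acc_leg hR hsp hyB
    refine h.link1 hR hlA0 hlB0 h2 h1.unrev (fun z hz hz' => ?_)
    rw [List.mem_singleton] at hz'
    exact h2.offB z hz (hz' ▸ hx)
  have hLL : ∀ {x y : V}, x ∉ A → x ∉ B → y ∉ A → y ∉ B → x ≠ y → (∃ k, x ∈ Lg k) →
      (∃ k, y ∈ Lg k) →
      ∃ l, Pth R {z | z ∈ A ∨ z ∈ B ∨ ∃ k, z ∈ Lg k} x y l ∧ ℓA + ℓB ≤ l.length := by
    rintro x y hxA hxB hyA hyB hxy ⟨i, hi⟩ ⟨k, hk⟩
    by_cases hik : i = k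
    · subst hik
      -- same leg
      have hsame : ∀ {x y : V} {l₁ l₂ l₃ : List V}, x ∉ B → y ∉ A →
          Lg i = l₁ ++ x :: (l₂ ++ y :: l₃) →
          ∃ l, Pth R {z | z ∈ A ∨ z ∈ B ∨ ∃ k, z ∈ Lg k} x y l ∧ ℓA + ℓB ≤ l.length := by
        intro x y l₁ l₂ l₃ hxB hyA hsp
        have h1 := h.acc_leg hR hsp hxB
        have hsp' : (Lg i).reverse = l₃.reverse ++ y :: (l₁ ++ x :: l₂).reverse := by
          rw [hsp]; simp
        have h2 := hs.acc_leg hR hsp' hyA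
        refine h.link1 hR hlA0 hlB0 h1 h2.unrev (fun z hz hz' => ?_)
        have hn := (h.pth i).nd
        rw [hsp] at hn
        rw [List.mem_reverse, List.mem_append, List.mem_singleton] at hz hz'
        rw [List.mem_reverse] at hz'
        have hn1 := List.nodup_append.1 hn
        have hz2 : z ∈ l₂ ++ y :: l₃ := by
          rw [List.mem_append, List.mem_cons]
          tauto
        rcases hz with hz | hz
        · exact hn1.2.2 z hz z (List.mem_cons_of_mem _ hz2) rfl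
        · rw [hz] at hz2
          exact (List.nodup_cons.1 hn1.2.1).1 hz2
      obtain ⟨l₁, l₂, hsp⟩ := List.append_of_mem hi
      rw [hsp, List.mem_append, List.mem_cons] at hk
      rcases hk with hk | hk | hk
      · obtain ⟨m₁, m₂, hm⟩ := List.append_of_mem hk
        exact hsymm (hsame (l₁ := m₁) (l₂ := m₂) (l₃ := l₂) hyB hxA (by rw [hsp, hm]; simp))
      · exact absurd hk.symm hxy
      · obtain ⟨m₁, m₂, hm⟩ := List.append_of_mem hk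
        exact hsame (l₁ := l₁) (l₂ := m₁) (l₃ := m₂) hxB hyA (by rw [hsp, hm])
    · obtain ⟨l₁, l₂, hsp⟩ := List.append_of_mem hi
      obtain ⟨m₁, m₂, hsq⟩ := List.append_of_mem hk
      have h1 := h.acc_leg hR hsp hxB
      have hsq' : (Lg k).reverse = m₂.reverse ++ y :: m₁.reverse := by
        rw [hsq]; simp
      have h2 := hs.acc_leg hR hsq' hyA
      refine h.link1 hR hlA0 hlB0 h1 h2.unrev (fun z hz hz' => ?_)
      refine h.dis i k hik z ?_ ?_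
      · rw [List.mem_reverse, List.mem_append, List.mem_singleton] at hz
        rw [hsp, List.mem_append, List.mem_cons]
        tauto
      · rw [List.mem_reverse, List.mem_append, List.mem_singleton, List.mem_reverse] at hz'
        rw [hsq, List.mem_append, List.mem_cons]
        tauto
  have hBB : ∀ {x y : V}, x ∈ B → y ∈ B → x ≠ y →
      ∃ l, Pth R {z | z ∈ A ∨ z ∈ B ∨ ∃ k, z ∈ Lg k} x y l ∧ ℓA + ℓB ≤ l.length := by
    intro x y hx hy hxy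
    obtain ⟨l, h1, h2⟩ := hs.link2 hR hcB hrB hsB hlB hlA0 hx hy hxy
    refine ⟨l, h1.mono fun z _ hz => ?_, by omega⟩
    rcases hz with g | g | ⟨k, g⟩
    · exact Or.inr (Or.inl g)
    · exact Or.inl g
    · exact Or.inr (Or.inr ⟨k, List.mem_reverse.1 g⟩)
  by_cases hxA : x ∈ A
  · by_cases hyA : y ∈ A
    · exact h.link2 hR hcA hrA hsA hlA hlB0 hxA hyA hxy
    · by_cases hyB : y ∈ B
      · exact hAB hxA hyB
      · exact hAL hxA hyA hyB ((hy.resolve_left hyA).resolve_left hyB)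
  · by_cases hxB : x ∈ B
    · by_cases hyA : y ∈ A
      · exact hsymm (hAB hyA hxB)
      · by_cases hyB : y ∈ B
        · exact hBB hxB hyB hxy
        · exact hsymm (hBL hxB hyA hyB ((hy.resolve_left hyA).resolve_left hyB))
    · have hx' := (hx.resolve_left hxA).resolve_left hxB
      by_cases hyA : y ∈ A
      · exact hsymm (hAL hyA hxA hxB hx')
      · by_cases hyB : y ∈ B
        · exact hBL hyB hxA hxB hx'
        · exact hLL hxA hxB hyA hyB hxy hx' ((hy.resolve_left hyA).resolve_left hyB)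

/-- two robust sets joined by three legs force balance -/
theorem two_blobs [DecidableEq V] [Finite V] (h2 : Two G) {A B : Finset V} {p q : Fin 3 → V}
    {Lg : Fin 3 → List V} {ℓA ℓB cA cB rA rB m : ℕ} {t : ZMod 2} (h : Legs G.Adj A B p q Lg)
    (hA : Blob G A ℓA cA rA) (hB : Blob G B ℓB cB rB) (hU : Uni G m σ t) (hm3 : 3 ≤ m)
    (hm : m ≤ ℓA + ℓB) (hA1 : 1 ≤ ℓA) (hB1 : 1 ≤ ℓB) (hrA : 3 * cA + 4 ≤ rA)
    (hrB : 3 * cB + 4 ≤ rB) (hcA : 1 ≤ cA) (hcB : 1 ≤ cB) (hA4 : 4 ≤ A.card)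
    (hB4 : 4 ≤ B.card) :
    t = 0 ∧ ∃ π : V → ZMod 2, ∀ x y, G.Adj x y → σ s(x, y) = π x + π y := by
  classical
  have hR : ∀ a b, G.Adj a b → G.Adj b a := fun a b hab => hab.symm
  have hs := h.swap hR
  obtain ⟨πA, hπA⟩ := blob_pot hA (h.cst hB hU hm hB1) h.pA h.pinj hA4 hrA hcA
  obtain ⟨πB, hπB⟩ := blob_pot hB (hs.cst hA hU (by omega) hA1) h.qB h.qinj hB4 hrB hcB
  obtain ⟨ht, hval⟩ := h.values hA hB hU hm hB1 hπA hπB
  refine ⟨ht, ?_⟩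
  subst ht
  obtain ⟨κ, hκ⟩ : ∃ κ, κ = πA (p 0) + πB (q 0) + ls σ (Lg 0) := ⟨_, rfl⟩
  rw [← hκ] at hval
  obtain ⟨π, hπ, hch⟩ := h.pot (σ := σ) (fun z => if z ∈ B then πB z + κ else πA z) (by
    intro i
    rw [if_neg (h.dAB _ (h.pA i)), if_pos (h.qB i), ← hval i]
    have h1 := two_self (πA (p i))
    have h2 := two_self (πB (q i))
    linear_combination -h1 - h2)
  have hcA' : ∀ x ∈ A, ∀ y ∈ A, G.Adj x y → σ s(x, y) = π x + π y := by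
    intro x hx y hy hxy
    rw [hπ x (Or.inl hx), hπ y (Or.inl hy)]
    rw [if_neg (h.dAB x hx), if_neg (h.dAB y hy)]
    exact hπA x hx y hy hxy
  have hcB' : ∀ x ∈ B, ∀ y ∈ B, G.Adj x y → σ s(x, y) = π x + π y := by
    intro x hx y hy hxy
    rw [hπ x (Or.inr hx), hπ y (Or.inr hy)]
    rw [if_pos hx, if_pos hy, hπB x hx y hy hxy]
    have := two_self κ
    linear_combination -this
  have hL : Legs (Cons G σ π) A B p q Lg :=
    ⟨fun i => ⟨(h.pth i).nd, hch i, (h.pth i).hd, (h.pth i).lt, (h.pth i).mem⟩, h.dis, h.pA,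
      h.qB, h.onA, h.onB, h.dAB⟩
  have hRc : ∀ a b, Cons G σ π a b → Cons G σ π b a := fun a b hab => hab.symm
  refine ext_all h2 hm3 hU _ π {z | z ∈ A ∨ z ∈ B ∨ ∃ k, z ∈ Lg k} rfl
    ⟨p 0, Or.inl (h.pA 0), q 0, Or.inr (Or.inl (h.qB 0)), h.pq 0⟩ ?_
  intro x hx y hy hxy
  obtain ⟨l, hl, hll⟩ := hL.all (ℓA := ℓA) (ℓB := ℓB) (cA := cA) (cB := cB) (rA := rA) (rB := rB)
    hRc (by omega) (by omega) (by omega) (by omega)
    (fun F hF x hx y hy hxF hyF => by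
      obtain ⟨l, h1, h2⟩ := hA.short F hF x hx y hy hxF hyF
      exact ⟨l, pth_cons (fun z hz => hz.1) hcA' h1, h2⟩)
    (fun F hF x hx y hy hxF hyF hxy => by
      obtain ⟨l, h1, h2⟩ := hA.long F hF x hx y hy hxF hyF hxy
      exact ⟨l, pth_cons (fun z hz => hz.1) hcA' h1, h2⟩)
    (fun F hF x hx y hy hxF hyF => by
      obtain ⟨l, h1, h2⟩ := hB.short F hF x hx y hy hxF hyF
      exact ⟨l, pth_cons (fun z hz => hz.1) hcB' h1, h2⟩)
    (fun F hF x hx y hy hxF hyF hxy => by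
      obtain ⟨l, h1, h2⟩ := hB.long F hF x hx y hy hxF hyF hxy
      exact ⟨l, pth_cons (fun z hz => hz.1) hcB' h1, h2⟩) hx hy hxy
  exact ⟨l, hl.nd, hl.ch, hl.hd, hl.lt, hl.mem, by omega⟩

end Run7.h807
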