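import Mathlib
import Pool.Agent.Run7.h807.Blob4

set_option autoImplicit false

namespace Run7.h807

variable {V : Type*} {G : SimpleGraph V} [Fintype V] [DecidableEq V] [DecidableRel G.Adj]

/-- dense sets are Hamilton-connected -/
theorem ham_conn {A F : Finset V} {s : ℕ} (h : Slk G A s) (hs : 2 * F.card + 5 ≤ s)
    (hA : F.card + 5 ≤ A.card) {x y : V} (hx : x ∈ A) (hy : y ∈ A) (hxF : x ∉ F) (hyF : y ∉ F)
    (hxy : x ≠ y) :
    ∃ l, Pth G.Adj {z | z ∈ A ∧ z ∉ F} x y l ∧ A.card ≤ l.length + F.card := by
  obtain ⟨T, hT⟩ : ∃ T : Finset V, T = insert x (insert y F) := ⟨_, rfl⟩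
  have hTc : T.card ≤ F.card + 2 := by
    rw [hT]
    exact (Finset.card_insert_le _ _).trans (by
      have := Finset.card_insert_le y F
      omega)
  obtain ⟨A', hA'⟩ : ∃ A', A' = A \ T := ⟨_, rfl⟩
  have hmem : ∀ z, z ∈ A' ↔ z ∈ A ∧ z ≠ x ∧ z ≠ y ∧ z ∉ F := by
    intro z
    rw [hA', hT, Finset.mem_sdiff, Finset.mem_insert, Finset.mem_insert, not_or, not_or]
  have hA'c : A.card ≤ A'.card + T.card := by
    rw [hA']
    have := Finset.card_sdiff_add_card_inter A T
    have := Finset.card_le_card (Finset.inter_subset_right (s₁ := A) (s₂ := T))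
    omega
  have hA'c2 : A.card ≤ A'.card + 2 + F.card := by omega
  have hsub : A' ⊆ A.erase x := by
    intro z hz
    rw [hmem] at hz
    exact Finset.mem_erase.2 ⟨hz.2.1, hz.1⟩
  have hA'lt : A'.card + 1 ≤ A.card := by
    have h1 := Finset.card_le_card hsub
    have h2 := Finset.card_erase_add_one hx
    omega
  have hsl : Slk G A' 0 := by
    rw [hA']
    exact Slk.sdiff (h.mono (s' := 0 + (F.card + 2)) (by omega)) T hTc
  obtain ⟨l, hl, hlA, hll⟩ := dirac_rel (G := G) A' (by omega) (fun v hv => by
    have := hsl v hv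
    simpa using this)
  obtain ⟨X, hX, hXl⟩ := rim_of_closed hl
  obtain ⟨n, hn⟩ : ∃ n, n = l.length := ⟨_, rfl⟩
  rw [← hn] at hX hll
  have hn3 := hX.three
  have hcover : ∀ z ∈ A', ∃ k, k < n ∧ X k = z := by
    have h1 : l.toFinset = A' := by
      refine Finset.eq_of_subset_of_card_le (fun z hz => hlA z (List.mem_toFinset.1 hz)) ?_
      rw [List.toFinset_card_of_nodup hl.1]
      omega
    intro z hz
    rw [← h1, List.mem_toFinset] at hz
    obtain ⟨k, rfl⟩ := (hXl z).1 hz
    exact ⟨k % n, Nat.mod_lt _ (by omega), (hX.modeq k).symm⟩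
  have hdeg : ∀ v ∈ A, A.card + s ≤ 2 * ((A'.filter (G.Adj v)).card + T.card) := by
    intro v hv
    have h1 := h v hv
    have h2 : (A.filter (G.Adj v)).card ≤ (A'.filter (G.Adj v)).card + T.card := by
      have hsub : A.filter (G.Adj v) ⊆ A'.filter (G.Adj v) ∪ T := by
        intro z hz
        rw [Finset.mem_filter] at hz
        rw [Finset.mem_union, Finset.mem_filter, hA', Finset.mem_sdiff]
        by_cases hzT : z ∈ T
        · exact Or.inr hzT
        · exact Or.inl ⟨⟨hz.1, hzT⟩, hz.2⟩
      exact (Finset.card_le_card hsub).trans (Finset.card_union_le _ _)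
    omega
  have hS : (A'.filter (G.Adj x)).card ≤
      ((Finset.range n).filter (fun k => G.Adj x (X k))).card := by
    refine (Finset.card_le_card ?_).trans (Finset.card_image_le (f := X))
    intro z hz
    rw [Finset.mem_filter] at hz
    obtain ⟨k, hk, rfl⟩ := hcover z hz.1
    exact Finset.mem_image_of_mem _ (Finset.mem_filter.2 ⟨Finset.mem_range.2 hk, hz.2⟩)
  have hS' : (A'.filter (G.Adj y)).card ≤
      ((Finset.range n).filter (fun k => G.Adj y (X (k + 1)))).card := by
    refine (Finset.card_le_card ?_).trans (Finset.card_image_le (f := fun k => X (k + 1)))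
    intro z hz
    rw [Finset.mem_filter] at hz
    obtain ⟨k, hk, rfl⟩ := hcover z hz.1
    rcases Nat.eq_zero_or_pos k with rfl | hk0
    · have e : X (n - 1 + 1) = X 0 := by
        rw [show n - 1 + 1 = 0 + n by omega, hX.per]
      refine Finset.mem_image.2 ⟨n - 1, Finset.mem_filter.2 ⟨Finset.mem_range.2 (by omega), ?_⟩, e⟩
      rw [e]
      exact hz.2
    · have e : X (k - 1 + 1) = X k := by rw [show k - 1 + 1 = k by omega]
      refine Finset.mem_image.2 ⟨k - 1, Finset.mem_filter.2 ⟨Finset.mem_range.2 (by omega), ?_⟩, e⟩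
      rw [e]
      exact hz.2
  have hx1 := hdeg x hx
  have hy1 := hdeg y hy
  have hnon : ∃ k, k < n ∧ G.Adj x (X k) ∧ G.Adj y (X (k + 1)) := by
    by_contra hcon
    push Not at hcon
    have hdisj : Disjoint ((Finset.range n).filter (fun k => G.Adj x (X k)))
        ((Finset.range n).filter (fun k => G.Adj y (X (k + 1)))) := by
      rw [Finset.disjoint_left]
      intro k hk hk'
      rw [Finset.mem_filter, Finset.mem_range] at hk hk'
      exact hcon k hk.1 hk.2 hk'.2
    have h1 := Finset.card_union_of_disjoint hdisj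
    have h2 : (((Finset.range n).filter (fun k => G.Adj x (X k))) ∪
        ((Finset.range n).filter (fun k => G.Adj y (X (k + 1))))).card ≤ n := by
      have := Finset.card_le_card (Finset.union_subset
        (Finset.filter_subset (fun k => G.Adj x (X k)) (Finset.range n))
        (Finset.filter_subset (fun k => G.Adj y (X (k + 1))) (Finset.range n)))
      rwa [Finset.card_range] at this
    omega
  obtain ⟨k, hk, hxk, hyk⟩ := hnon
  have hsegA : ∀ z ∈ seg X (k + 1) n, z ∈ A' := by
    intro z hz
    obtain ⟨j, _, rfl⟩ := mem_seg.1 hz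
    exact hlA _ ((hXl _).2 ⟨_, rfl⟩)
  obtain ⟨n', hn'⟩ : ∃ n', n = n' + 1 := ⟨n - 1, by omega⟩
  have hP : Pth G.Adj {z | z ∈ A ∧ z ∉ F} y x (y :: (seg X (k + 1) n ++ [x])) := by
    refine ⟨?_, ?_, rfl, ?_, ?_⟩
    · rw [List.nodup_cons, List.nodup_append]
      refine ⟨?_, hX.seg_nodup _ _ le_rfl, by simp, ?_⟩
      · rw [List.mem_append, List.mem_singleton]
        rintro (g | g)
        · exact ((hmem y).1 (hsegA y g)).2.2.1 rfl
        · exact hxy g.symm
      · intro a ha b hb hab
        rw [List.mem_singleton] at hb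
        exact ((hmem a).1 (hsegA a ha)).2.1 (hab.trans hb)
    · have hsc := seg_chain hX.adj (k + 1) n
      have h1 : (seg X (k + 1) n ++ [x]).IsChain G.Adj := by
        rw [List.isChain_append]
        refine ⟨hsc, by simp, fun a ha b hb => ?_⟩
        rw [hn', seg_last, Option.mem_def, Option.some.injEq] at ha
        simp only [List.head?_cons, Option.mem_def, Option.some.injEq] at hb
        subst ha; subst hb
        have e : X (k + 1 + n') = X k := by
          rw [show k + 1 + n' = k + n by omega, hX.per]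
        rw [e]
        exact hxk.symm
      rw [List.isChain_cons]
      refine ⟨fun a ha => ?_, h1⟩
      rw [List.head?_append, hn', seg_head] at ha
      simp only [Option.some_or, Option.mem_def, Option.some.injEq] at ha
      subst ha
      exact hyk
    · rw [← List.cons_append, List.getLast?_append]
      simp
    · intro z hz
      rw [List.mem_cons, List.mem_append, List.mem_singleton] at hz
      rcases hz with rfl | hz | rfl
      · exact ⟨hy, hyF⟩
      · have := (hmem z).1 (hsegA z hz)
        exact ⟨this.1, this.2.2.2⟩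
      · exact ⟨hx, hxF⟩
  refine ⟨_, hP.rev fun a b hab => hab.symm, ?_⟩
  rw [List.length_reverse, List.length_cons, List.length_append, seg_length, List.length_singleton]
  omega

/-- dense sets are robust -/
theorem slk_blob {A : Finset V} {r : ℕ} (h : Slk G A (2 * r + 5)) (hA : r + 5 ≤ A.card) :
    Blob G A (A.card - r) 3 r := by
  refine ⟨fun F hF x hx y hy hxF hyF => ?_, fun F hF x hx y hy hxF hyF hxy => ?_⟩
  · by_cases hxy : x = y
    · subst hxy
      exact ⟨[x], Pth.single ⟨hx, hxF⟩, by simp⟩
    · obtain ⟨z, hz, hxz, hyz, hzF⟩ := h.common hx hy F (by omega)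
      refine ⟨[x, z, y], ⟨?_, ?_, rfl, rfl, ?_⟩, by simp⟩
      · simp [hxz.ne, hyz.ne', hxy]
      · simp [hxz, hyz.symm]
      · intro w hw
        simp only [List.mem_cons, List.not_mem_nil, or_false] at hw
        rcases hw with rfl | rfl | rfl
        · exact ⟨hx, hxF⟩
        · exact ⟨hz, hzF⟩
        · exact ⟨hy, hyF⟩
  · obtain ⟨l, hl, hll⟩ := ham_conn h (F := F) (by omega) (by omega) hx hy hxF hyF hxy
    exact ⟨l, hl, by omega⟩

end Run7.h807
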