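import Mathlib
import Pool.Agent.Run7.h807.Blob5

set_option autoImplicit false

namespace Run7.h807

variable {V : Type*} {G : SimpleGraph V}

section sepa

variable {σ : Sym2 V → ZMod 2} {s : ZMod 2} {L c : ℕ} {X Y : ℕ → V}

theorem Top.dp_bound [DecidableEq V] (h : Top G σ s L X) {μ : ℕ} (hY : Rim G c Y)
    (hY0 : phi σ Y 0 c = 0) (hoff : ∀ i j, X i ≠ Y j) (hμ : 2 * μ ≤ c + 1) {q : ℕ}
    (hDP : DP G ((Finset.range c).image Y) ((Finset.range L).image X) q) :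
    q ≤ 2 * ((L - 1) / (μ + 2) + 1) := by
  obtain ⟨P, hP, hPd⟩ := hDP
  have htrim : ∀ i, ∃ e T u a, Conn G X Y e T u a ∧ e < c ∧ a < L ∧
      (∀ z ∈ Y e :: T, z ∈ P i) ∧ X a ∈ P i := by
    intro i
    obtain ⟨h1, h2, ⟨y, hy, h3⟩, ⟨x, hx, h4⟩⟩ := hP i
    rw [Finset.mem_image] at hy
    rw [Finset.mem_image] at hx
    obtain ⟨e, _, he⟩ := hy
    obtain ⟨a, _, ha⟩ := hx
    exact trim_path h.rim hY h1 h2 h3 h4 ⟨e, he⟩ ⟨a, ha⟩ hoff
  choose e T u a hconnP he ha hmem hXmem using htrim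
  refine col_count (by omega) a
    (fun i => ls σ (Y (e i) :: T i) + phi σ Y 0 (e i) + cs σ X (u i) (a i)) ha ?_ ?_
  · intro i j hij haa
    refine hPd i j hij _ (hXmem i) ?_
    rw [haa]
    exact hXmem j
  · intro i j hcol hlt
    have hij : i ≠ j := by rintro rfl; omega
    refine h.conn_far hY hY0 hoff (hconnP i) (hconnP j) (he i) (he j) ?_ hμ hlt (ha j) hcol
    intro z hz hz'
    exact hPd i j hij z (hmem i z hz) (hmem j z hz')

theorem rim_card [DecidableEq V] (hX : Rim G L X) : ((Finset.range L).image X).card = L := by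
  rw [Finset.card_image_of_injOn, Finset.card_range]
  intro i hi j hj hij
  rw [Finset.coe_range, Set.mem_Iio] at hi hj
  exact hX.inj i j hi hj hij

/-- a dense core off a longest bad cycle is separated from it by few vertices -/
theorem Top.sep [Fintype V] [DecidableEq V] [DecidableRel G.Adj] (h : Top G σ s L X) {μ : ℕ}
    (hμ : 3 ≤ μ) {S : Finset V} (hne : S.Nonempty) (hS : ∀ v ∈ S, ∀ j, X j ≠ v)
    (hcon : ∀ v ∈ S, 4 * μ - 5 ≤ (S.filter (G.Adj v)).card)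
    (hk : 2 * ((L - 1) / (μ + 2)) + 3 ≤ 2 * μ - 1) :
    ∃ Z YS : Finset V, Z.card ≤ 2 * ((L - 1) / (μ + 2)) + 2 ∧ Z.card < L ∧ Z.card < YS.card ∧
      YS ⊆ S ∧ Sepa G YS ((Finset.range L).image X) Z := by
  classical
  have hL3 := h.rim.three
  obtain ⟨l, hl, hlS, hlen⟩ := core_cycle (G := G) σ (h := 2 * μ - 2) (by omega) S hne
    (fun v hv => by
      have := hcon v hv
      omega)
  obtain ⟨Y, hY, hY0, hYl⟩ := rim_of_cyc hl
  obtain ⟨c, hc⟩ : ∃ c, c = l.length := ⟨_, rfl⟩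
  rw [← hc] at hY hY0 hlen
  have hoff : ∀ i j, X i ≠ Y j := fun i j => hS _ (hlS _ (hYl j)) i
  obtain ⟨Z, hZ, hZc⟩ : ∃ Z, Sepa G ((Finset.range c).image Y) ((Finset.range L).image X) Z ∧
      Z.card < 2 * ((L - 1) / (μ + 2)) + 3 := by
    by_contra hcon
    push Not at hcon
    have := h.dp_bound hY hY0 hoff (μ := μ) (by omega) (menger _ G rfl _ _ _ hcon)
    omega
  refine ⟨Z, (Finset.range c).image Y, by omega, ?_, ?_, ?_, hZ⟩
  · have h1 := Nat.div_mul_le_self (L - 1) (μ + 2)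
    obtain ⟨a, ha⟩ : ∃ a, a = (L - 1) / (μ + 2) := ⟨_, rfl⟩
    rw [← ha] at h1 hZc
    have h2 : a * 5 ≤ a * (μ + 2) := Nat.mul_le_mul_left _ (by omega)
    omega
  · rw [rim_card hY]
    omega
  · intro z hz
    rw [Finset.mem_image] at hz
    obtain ⟨k, _, rfl⟩ := hz
    exact hlS _ (hYl k)

end sepa

theorem sepa_parts [Fintype V] [DecidableEq V] {YS XS Z : Finset V} (hS : Sepa G YS XS Z)
    (hY : Z.card < YS.card) (hX : Z.card < XS.card) :
    ∃ P Q : Finset V, P.Nonempty ∧ Q.Nonempty ∧ (∀ z ∈ P, z ∉ Z) ∧ (∀ z ∈ Q, z ∉ Z) ∧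
      (∀ z ∈ P, z ∉ Q) ∧ (∀ z, z ∈ Z ∨ z ∈ P ∨ z ∈ Q) ∧ (∀ a ∈ P, ∀ b ∈ Q, ¬ G.Adj a b) ∧
      (∀ x ∈ XS, x ∈ Q ∨ x ∈ Z) ∧ (∀ y ∈ YS, y ∈ P ∨ y ∈ Z) := by
  classical
  obtain ⟨P, hP⟩ : ∃ P : Finset V, ∀ z, z ∈ P ↔ Rch G YS Z z :=
    ⟨Finset.univ.filter (fun z => Rch G YS Z z), fun z => by simp⟩
  obtain ⟨Q, hQ⟩ : ∃ Q : Finset V, ∀ z, z ∈ Q ↔ z ∉ Z ∧ z ∉ P :=
    ⟨Finset.univ.filter (fun z => z ∉ Z ∧ z ∉ P), fun z => by simp⟩
  have hYP : ∀ y ∈ YS, y ∉ Z → y ∈ P := fun y hy hyZ => (hP y).2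
    ⟨[y], by simp, ⟨y, hy, rfl⟩, rfl, by simpa using hyZ⟩
  have hPZ : ∀ z ∈ P, z ∉ Z := by
    intro z hz
    obtain ⟨l, _, _, h3, h4⟩ := (hP z).1 hz
    exact h4 z (List.mem_of_getLast? h3)
  have hXQ : ∀ x ∈ XS, x ∉ Z → x ∈ Q := by
    intro x hx hxZ
    rw [hQ]
    refine ⟨hxZ, fun hxP => ?_⟩
    obtain ⟨l, h1, h2, h3, h4⟩ := (hP x).1 hxP
    obtain ⟨z, hz, hzZ⟩ := hS l h1 h2 ⟨x, hx, h3⟩
    exact h4 z hz hzZ
  obtain ⟨y, hy, hyZ⟩ := Finset.exists_mem_notMem_of_card_lt_card hY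
  obtain ⟨x, hx, hxZ⟩ := Finset.exists_mem_notMem_of_card_lt_card hX
  refine ⟨P, Q, ⟨y, hYP y hy hyZ⟩, ⟨x, hXQ x hx hxZ⟩, hPZ, fun z hz => ((hQ z).1 hz).1,
    fun z hz hz' => ((hQ z).1 hz').2 hz, fun z => ?_, fun a ha b hb hab => ?_, fun x hx => ?_,
    fun y hy => ?_⟩
  · by_cases h1 : z ∈ Z
    · exact Or.inl h1
    · by_cases h2 : z ∈ P
      · exact Or.inr (Or.inl h2)
      · exact Or.inr (Or.inr ((hQ z).2 ⟨h1, h2⟩))
  · obtain ⟨l, h1, ⟨e, he, h2⟩, h3, h4⟩ := (hP a).1 ha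
    refine ((hQ b).1 hb).2 ((hP b).2 ⟨l ++ [b], ?_, ⟨e, he, ?_⟩, by simp, ?_⟩)
    · rw [List.isChain_append]
      refine ⟨h1, by simp, fun u hu v hv => ?_⟩
      rw [Option.mem_def, h3, Option.some.injEq] at hu
      simp only [List.head?_cons, Option.mem_def, Option.some.injEq] at hv
      subst hu; subst hv
      exact hab
    · rw [List.head?_append, h2]; rfl
    · intro w hw
      rw [List.mem_append, List.mem_singleton] at hw
      rcases hw with hw | rfl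
      · exact h4 w hw
      · exact ((hQ _).1 hb).1
  · by_cases h1 : x ∈ Z
    · exact Or.inr h1
    · exact Or.inl (hXQ x hx h1)
  · by_cases h1 : y ∈ Z
    · exact Or.inr h1
    · exact Or.inl (hYP y hy h1)

/-- degrees inside a part -/
theorem part_deg [Fintype V] [DecidableEq V] [DecidableRel G.Adj] {P Q Z : Finset V} {d : ℕ}
    (hdeg : ∀ v, d ≤ G.degree v) (hall : ∀ z, z ∈ Z ∨ z ∈ P ∨ z ∈ Q)
    (hPQ : ∀ a ∈ P, ∀ b ∈ Q, ¬ G.Adj a b) :
    (∀ v ∈ P, d ≤ (P.filter (G.Adj v)).card + Z.card) ∧ (P.Nonempty → d + 1 ≤ P.card + Z.card) := by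
  have h1 : ∀ v ∈ P, d ≤ (P.filter (G.Adj v)).card + Z.card := by
    intro v hv
    have h2 := hdeg v
    rw [← SimpleGraph.card_neighborFinset_eq_degree] at h2
    have hsub : G.neighborFinset v ⊆ P.filter (G.Adj v) ∪ Z := by
      intro z hz
      rw [SimpleGraph.mem_neighborFinset] at hz
      rw [Finset.mem_union, Finset.mem_filter]
      rcases hall z with g | g | g
      · exact Or.inr g
      · exact Or.inl ⟨g, hz⟩
      · exact absurd hz (hPQ v hv z g)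
    exact h2.trans ((Finset.card_le_card hsub).trans (Finset.card_union_le _ _))
  refine ⟨h1, fun ⟨v, hv⟩ => ?_⟩
  have h2 := h1 v hv
  have h3 : (P.filter (G.Adj v)).card + 1 ≤ P.card := by
    have hsub : P.filter (G.Adj v) ⊆ P.erase v := by
      intro z hz
      rw [Finset.mem_filter] at hz
      exact Finset.mem_erase.2 ⟨hz.2.ne', hz.1⟩
    have := Finset.card_le_card hsub
    have := Finset.card_erase_add_one hv
    omega
  omega

theorem exists_legs [Fintype V] [DecidableEq V]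
    (hconn : ∀ S : Finset V, S.card < 3 → (G.induce ((↑S : Set V)ᶜ)).Connected)
    {P Q : Finset V} (hP : 3 ≤ P.card) (hQ : 3 ≤ Q.card) (hd : ∀ z ∈ P, z ∉ Q) :
    ∃ p q Lg, Legs G.Adj P Q p q Lg := by
  classical
  obtain ⟨l, hl, hld⟩ : DP G P Q 3 := by
    refine menger _ G rfl P Q 3 fun T hT => ?_
    by_contra hlt
    push Not at hlt
    obtain ⟨y, hy, hyT⟩ := Finset.exists_mem_notMem_of_card_lt_card (s := T) (t := P) (by omega)
    obtain ⟨x, hx, hxT⟩ := Finset.exists_mem_notMem_of_card_lt_card (s := T) (t := Q) (by omega)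
    have hcn := hconn T (by omega)
    have hy' : y ∈ ((↑T : Set V)ᶜ) := by simpa using hyT
    have hx' : x ∈ ((↑T : Set V)ᶜ) := by simpa using hxT
    obtain ⟨p⟩ := hcn.preconnected ⟨y, hy'⟩ ⟨x, hx'⟩
    obtain ⟨w, hw⟩ := walk_out p
    obtain ⟨z, hz, hzT⟩ := hT w.support w.isChain_adj_support ⟨y, hy, by
      rw [List.head?_eq_some_head (SimpleGraph.Walk.support_ne_nil _),
        SimpleGraph.Walk.head_support]⟩ ⟨x, hx, by
      rw [List.getLast?_eq_some_getLast (SimpleGraph.Walk.support_ne_nil _),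
        SimpleGraph.Walk.getLast_support]⟩
    have := hw z hz
    rw [Set.mem_compl_iff] at this
    exact this hzT
  have htrim : ∀ i, ∃ a b m, a ∈ P ∧ b ∈ Q ∧ Pth G.Adj Set.univ a b m ∧
      (∀ z ∈ m, z ∈ P → z = a) ∧ (∀ z ∈ m, z ∈ Q → z = b) ∧ ∀ z ∈ m, z ∈ l i := by
    intro i
    obtain ⟨h1, h2, ⟨a, ha, h3⟩, ⟨b, hb, h4⟩⟩ := hl i
    obtain ⟨l1, b', l2, hsp, hb', hl1⟩ := chain_first (p := fun z => z ∈ Q) (l i)
      ⟨b, List.mem_of_getLast? h4, hb⟩
    have hal : a ∈ l1 := by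
      cases l1 with
      | nil =>
        exfalso
        rw [hsp] at h3
        simp only [List.nil_append, List.head?_cons, Option.some.injEq] at h3
        exact hd a ha (h3 ▸ hb')
      | cons u l1 =>
        rw [hsp] at h3
        simp only [List.cons_append, List.head?_cons, Option.some.injEq] at h3
        simp [h3]
    obtain ⟨m1, a', m2, hsp2, ha', hm2⟩ := exists_last (p := fun z => z ∈ P) ⟨a, hal, ha⟩
    have hfull : l i = m1 ++ (a' :: (m2 ++ b' :: l2)) := by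
      rw [hsp, hsp2]; simp
    rw [hfull] at h1 h2
    have hn := (List.nodup_append.1 h1).2.1
    have hc := (List.isChain_append.1 h2).2.1
    have hfull' : a' :: (m2 ++ b' :: l2) = (a' :: (m2 ++ [b'])) ++ l2 := by simp
    rw [hfull'] at hn hc
    have hmm : ∀ z ∈ a' :: (m2 ++ [b']), z = a' ∨ z ∈ m2 ∨ z = b' := by
      intro z hz
      simpa using hz
    refine ⟨a', b', a' :: (m2 ++ [b']), ha', hb', ⟨(List.nodup_append.1 hn).1,
      (List.isChain_append.1 hc).1, rfl, ?_, fun z _ => trivial⟩, fun z hz hzP => ?_,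
      fun z hz hzQ => ?_, fun z hz => ?_⟩
    · rw [← List.cons_append, List.getLast?_append]; simp
    · rcases hmm z hz with g | g | g
      · exact g
      · exact absurd hzP (hm2 z g)
      · rw [g] at hzP
        exact absurd hb' (hd b' hzP)
    · rcases hmm z hz with g | g | g
      · rw [g] at hzQ
        exact absurd hzQ (hd a' ha')
      · refine absurd hzQ (hl1 z ?_)
        rw [hsp2]
        exact List.mem_append.2 (Or.inr (List.mem_cons_of_mem _ g))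
      · exact g
    · rw [hfull, hfull']
      exact List.mem_append.2 (Or.inr (List.mem_append.2 (Or.inl hz)))
  choose p q Lg hp hq hpth hon hon' hsub using htrim
  exact ⟨p, q, Lg, hpth, fun i j hij z hz hz' => hld i j hij z (hsub i z hz) (hsub j z hz'), hp,
    hq, hon, hon', hd⟩

end Run7.h807
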