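import Mathlib
import Pool.Agent.Run7.h807.Sep
import Pool.Agent.Run7.h807.HvD

set_option autoImplicit false

namespace Run7.h807

variable {V : Type*} {G : SimpleGraph V}

/-- if all cycles have the same sign, the conclusion is immediate -/
theorem good_of_no_bad [Fintype V] [DecidableEq V] [DecidableRel G.Adj] {d : ℕ}
    (hdeg : ∀ v, d ≤ G.degree v) (hn : 0 < Fintype.card V) (hd : 3 ≤ d) (h2 : Two G)
    {σ : Sym2 V → ZMod 2} {t : ZMod 2} (hbad : ∀ l, ¬ Cyc G σ (t + 1) l) :
    t = 0 ∧ ∃ π : V → ZMod 2, ∀ x y, G.Adj x y → σ s(x, y) = π x + π y := by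
  classical
  have hne : (Finset.univ : Finset V).Nonempty := by
    rw [← Finset.card_pos, Finset.card_univ]
    omega
  obtain ⟨l, hl, -, -⟩ := core_cycle (G := G) σ (h := 2) le_rfl Finset.univ hne (fun v _ => by
    have h1 := hdeg v
    rw [← SimpleGraph.card_neighborFinset_eq_degree,
      SimpleGraph.neighborFinset_eq_filter] at h1
    have h5 : (Finset.univ.filter (fun w => G.Adj v w)).card =
        (Finset.univ.filter (G.Adj v)).card := by congr
    omega)
  have ht : t = 0 := by
    rcases zmod2_cases t with h0 | h1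
    · exact h0
    · exfalso
      refine hbad l ?_
      rw [h1]
      have e : (1 : ZMod 2) + 1 = 0 := by decide
      rw [e]
      exact hl
  subst ht
  refine ⟨rfl, ?_⟩
  have hU3 : Uni G 3 σ 0 := by
    intro l x y g1 g2 g4 g5 g6 g3 _
    rcases zmod2_cases (ls σ l + σ s(y, x)) with h0 | h1
    · exact h0
    · exact absurd ⟨g1, g2, g3, x, y, g4, g5, g6, by rw [h1, zero_add]⟩ (hbad l)
  obtain ⟨Y, hY, hY0, -⟩ := rim_of_cyc hl
  have := hY.three
  exact bal_of_rim h2 le_rfl hU3 hY hY0 (by omega)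

/-- cycles longer than the longest bad cycle -/
theorem uni_of_max {σ : Sym2 V → ZMod 2} {t : ZMod 2} {L : ℕ}
    (hmax : ∀ l, Cyc G σ (t + 1) l → l.length ≤ L) : Uni G (L + 1) σ t := by
  intro l x y g1 g2 g4 g5 g6 g3 g7
  rcases zmod2_cases (ls σ l + σ s(y, x) + t) with h0 | h1
  · have := two_self t
    linear_combination h0 - this
  · have := hmax l ⟨g1, g2, g3, x, y, g4, g5, g6, by
      have := two_self t
      linear_combination h1 - this⟩
    omega

theorem bal_no_cyc {σ : Sym2 V → ZMod 2} {π : V → ZMod 2}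
    (hπ : ∀ x y, G.Adj x y → σ s(x, y) = π x + π y) {l : List V} (h : Cyc G σ 1 l) : False := by
  obtain ⟨g1, g2, g3, x, y, g4, g5, g6, g7⟩ := h
  rw [ls_of_cons l x y (g2.imp fun a b hab => ⟨hab, hπ a b hab⟩) g4 g5, hπ y x g6] at g7
  have h1 := two_self (π x)
  have h2 := two_self (π y)
  have h3 : (1 : ZMod 2) = 0 := by linear_combination -g7 + h1 + h2
  exact absurd h3 (by decide)

/-- Bondy's conjecture (dual form) for graphs of small order -/
theorem small_good [Fintype V] [DecidableEq V] [DecidableRel G.Adj] {d : ℕ}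
    (hdeg : ∀ v, d ≤ G.degree v) (hn : 2 * d ≤ Fintype.card V)
    (hn3 : Fintype.card V + 226 ≤ 3 * d) (hd : 1244 ≤ d)
    (hconn : ∀ S : Finset V, S.card < 3 → (G.induce ((↑S : Set V)ᶜ)).Connected) :
    Good G (2 * d - 1) := by
  classical
  rcases Nat.eq_or_lt_of_le hn with heq | hlt
  · exact dirac_good (by omega) heq.symm hdeg fun S hS => hconn S (by omega)
  intro σ t hU
  have h2 : Two G := two_of_conn fun S hS => hconn S (by omega)
  by_cases hbad : ∃ l, Cyc G σ (t + 1) l
  swap
  · push Not at hbad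
    exact good_of_no_bad hdeg (by omega) (by omega) h2 hbad
  exfalso
  obtain ⟨l, hl, hmax⟩ := exists_max_cyc hbad
  obtain ⟨X, hX⟩ := top_of_cyc hl hmax
  obtain ⟨L, hL⟩ : ∃ L, L = l.length := ⟨_, rfl⟩
  rw [← hL] at hX
  have hL2 : L + 2 ≤ 2 * d := by
    by_contra hlt
    obtain ⟨g1, g2, g3, x, y, g4, g5, g6, g7⟩ := hl
    have := hU l x y g1 g2 g4 g5 g6 g3 (by omega)
    rw [g7] at this
    have h8 : (1 : ZMod 2) = 0 := by linear_combination this
    exact absurd h8 (by decide)
  obtain ⟨μ, hμ⟩ : ∃ μ, μ = (d - 44) / 24 := ⟨_, rfl⟩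
  have hdiv : (L - 1) / (μ + 2) < 49 := by
    rw [Nat.div_lt_iff_lt_mul (by omega)]
    omega
  obtain ⟨S, hne, hS, hcon⟩ : ∃ S : Finset V, S.Nonempty ∧ (∀ v ∈ S, ∀ j, X j ≠ v) ∧
      ∀ v ∈ S, 4 * μ - 5 ≤ (S.filter (G.Adj v)).card := by
    by_contra hno
    push Not at hno
    exact hX.heavy_false hdeg hL2 (by omega) (D := 4 * μ - 5) (by omega) (by omega) hno
  obtain ⟨Z, YS, hZ1, hZ2, hZ3, -, hsep⟩ := hX.sep (by omega) hne hS hcon (by omega)
  obtain ⟨P, Q, hPne, hQne, hPZ, hQZ, hPQ, hall, hadj, hXQ, -⟩ :=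
    sepa_parts hsep hZ3 (by rw [rim_card hX.rim]; exact hZ2)
  have hP := part_deg hdeg hall hadj
  have hQ := part_deg (P := Q) (Q := P) (Z := Z) hdeg
    (fun z => by
      rcases hall z with g | g | g
      · exact Or.inl g
      · exact Or.inr (Or.inr g)
      · exact Or.inr (Or.inl g)) (fun a ha b hb hab => hadj b hb a ha hab.symm)
  have hPc := hP.2 hPne
  have hQc := hQ.2 hQne
  have hsum : P.card + Q.card + Z.card = Fintype.card V := by
    have h1 : Disjoint P Q := Finset.disjoint_left.2 hPQ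
    have h3 : Disjoint (P ∪ Q) Z := by
      rw [Finset.disjoint_left]
      intro z hz
      rw [Finset.mem_union] at hz
      rcases hz with hz | hz
      · exact hPZ z hz
      · exact hQZ z hz
    have h4 : P ∪ Q ∪ Z = Finset.univ := by
      ext z
      simp only [Finset.mem_union, Finset.mem_univ, iff_true]
      rcases hall z with g | g | g
      · exact Or.inr g
      · exact Or.inl (Or.inl g)
      · exact Or.inl (Or.inr g)
    rw [← Finset.card_union_of_disjoint h1, ← Finset.card_union_of_disjoint h3, h4,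
      Finset.card_univ]
  have hZ98 : Z.card ≤ 98 := by omega
  have hbP : Blob G P (P.card - 13) 3 13 := slk_blob (fun v hv => by
    have := hP.1 v hv
    omega) (by omega)
  have hbQ : Blob G Q (Q.card - 13) 3 13 := slk_blob (fun v hv => by
    have := hQ.1 v hv
    omega) (by omega)
  obtain ⟨p, q, Lg, hLg⟩ := exists_legs hconn (P := P) (Q := Q) (by omega) (by omega) hPQ
  have hLQ : L ≤ Q.card + Z.card := by
    have h1 : (Finset.range L).image X ⊆ Q ∪ Z := by
      intro x hx
      rw [Finset.mem_union]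
      exact hXQ x hx
    have h3 := (Finset.card_le_card h1).trans (Finset.card_union_le _ _)
    rwa [rim_card hX.rim] at h3
  have hL3 := hX.rim.three
  obtain ⟨ht, π, hπ⟩ := two_blobs h2 hLg hbP hbQ (uni_of_max (L := L) (by rw [hL]; exact hmax))
    (by omega) (by omega) (by omega) (by omega) (by omega) (by omega) (by omega) (by omega)
    (by omega) (by omega)
  subst ht
  rw [zero_add] at hl
  exact bal_no_cyc hπ hl

end Run7.h807
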