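import Mathlib
import Pool.Agent.Run7.h807.Small

set_option autoImplicit false

namespace Run7.h807

variable {V : Type*} {G : SimpleGraph V}

/-- `l` is a walk from `x` to `y` inside `S` -/
def Wk (G : SimpleGraph V) (S : Set V) (x y : V) (l : List V) : Prop :=
  l.IsChain G.Adj ∧ l.head? = some x ∧ l.getLast? = some y ∧ ∀ z ∈ l, z ∈ S

/-- `A` stays connected after deleting at most `k` vertices -/
def Sol (G : SimpleGraph V) (A : Finset V) (k : ℕ) : Prop :=
  ∀ F : Finset V, F.card ≤ k → ∀ x ∈ A, ∀ y ∈ A, x ∉ F → y ∉ F →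
    ∃ l, Wk G {z | z ∈ A ∧ z ∉ F} x y l

/-- the boundary of `A` is inside `Z` -/
def Part (G : SimpleGraph V) (A Z : Finset V) : Prop :=
  (∀ a ∈ A, a ∉ Z) ∧ ∀ a ∈ A, ∀ b, G.Adj a b → b ∈ A ∨ b ∈ Z

theorem Wk.snoc {S : Set V} {x a b : V} {l : List V} (h : Wk G S x a l) (hab : G.Adj a b)
    (hb : b ∈ S) : Wk G S x b (l ++ [b]) := by
  obtain ⟨h1, h2, h3, h4⟩ := h
  refine ⟨?_, ?_, by simp, ?_⟩
  · rw [List.isChain_append]
    refine ⟨h1, by simp, fun u hu v hv => ?_⟩
    rw [Option.mem_def, h3, Option.some.injEq] at hu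
    simp only [List.head?_cons, Option.mem_def, Option.some.injEq] at hv
    subst hu; subst hv
    exact hab
  · rw [List.head?_append, h2]; rfl
  · intro z hz
    rw [List.mem_append, List.mem_singleton] at hz
    rcases hz with hz | rfl
    · exact h4 z hz
    · exact hb

section split

variable [DecidableEq V] {A Z : Finset V} {k : ℕ}

theorem Part.split (h : Part G A Z) (hns : ¬ Sol G A k) :
    ∃ T A1 A2 : Finset V, T.card ≤ k ∧ A1 ⊆ A ∧ A2 ⊆ A ∧ A1.Nonempty ∧ A2.Nonempty ∧
      (∀ z ∈ A1, z ∉ A2) ∧ (∀ a ∈ A1, ∀ b ∈ A2, ¬ G.Adj a b) ∧ Part G A1 (Z ∪ T) ∧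
      Part G A2 (Z ∪ T) := by
  classical
  unfold Sol at hns
  push Not at hns
  obtain ⟨F, hF, x, hx, y, hy, hxF, hyF, hno⟩ := hns
  have hext : ∀ a b, (∃ l, Wk G {z | z ∈ A ∧ z ∉ F} x a l) → G.Adj a b → b ∈ A → b ∉ F →
      ∃ l, Wk G {z | z ∈ A ∧ z ∉ F} x b l := by
    rintro a b ⟨l, hl⟩ hab hb hbF
    exact ⟨_, hl.snoc hab ⟨hb, hbF⟩⟩
  refine ⟨F, A.filter (fun z => z ∉ F ∧ ∃ l, Wk G {z | z ∈ A ∧ z ∉ F} x z l),
    A.filter (fun z => z ∉ F ∧ ¬ ∃ l, Wk G {z | z ∈ A ∧ z ∉ F} x z l), hF,
    Finset.filter_subset _ _, Finset.filter_subset _ _, ⟨x, ?_⟩, ⟨y, ?_⟩, ?_, ?_, ⟨?_, ?_⟩,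
    ⟨?_, ?_⟩⟩
  · rw [Finset.mem_filter]
    exact ⟨hx, hxF, [x], by simp, rfl, rfl, by simp [hx, hxF]⟩
  · rw [Finset.mem_filter]
    exact ⟨hy, hyF, fun ⟨l, hl⟩ => hno l hl⟩
  · intro z hz hz'
    rw [Finset.mem_filter] at hz hz'
    exact hz'.2.2 hz.2.2
  · intro a ha b hb hab
    rw [Finset.mem_filter] at ha hb
    exact hb.2.2 (hext a b ha.2.2 hab hb.1 hb.2.1)
  · intro a ha hu
    rw [Finset.mem_filter] at ha
    rw [Finset.mem_union] at hu
    rcases hu with hu | hu
    · exact h.1 a ha.1 hu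
    · exact ha.2.1 hu
  · intro a ha b hab
    rw [Finset.mem_filter] at ha
    rw [Finset.mem_filter, Finset.mem_union]
    rcases h.2 a ha.1 b hab with hb | hb
    · by_cases hbF : b ∈ F
      · exact Or.inr (Or.inr hbF)
      · exact Or.inl ⟨hb, hbF, hext a b ha.2.2 hab hb hbF⟩
    · exact Or.inr (Or.inl hb)
  · intro a ha hu
    rw [Finset.mem_filter] at ha
    rw [Finset.mem_union] at hu
    rcases hu with hu | hu
    · exact h.1 a ha.1 hu
    · exact ha.2.1 hu
  · intro a ha b hab
    rw [Finset.mem_filter] at ha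
    rw [Finset.mem_filter, Finset.mem_union]
    rcases h.2 a ha.1 b hab with hb | hb
    · by_cases hbF : b ∈ F
      · exact Or.inr (Or.inr hbF)
      · refine Or.inl ⟨hb, hbF, fun hex => ha.2.2 (hext b a hex hab.symm ha.1 ha.2.1)⟩
    · exact Or.inr (Or.inl hb)

theorem Part.deg [Fintype V] [DecidableRel G.Adj] (h : Part G A Z) {d : ℕ}
    (hdeg : ∀ v, d ≤ G.degree v) :
    (∀ v ∈ A, d ≤ (A.filter (G.Adj v)).card + Z.card) ∧ (A.Nonempty → d + 1 ≤ A.card + Z.card) := by
  have h1 : ∀ v ∈ A, d ≤ (A.filter (G.Adj v)).card + Z.card := by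
    intro v hv
    have h2 := hdeg v
    rw [← SimpleGraph.card_neighborFinset_eq_degree] at h2
    have hsub : G.neighborFinset v ⊆ A.filter (G.Adj v) ∪ Z := by
      intro z hz
      rw [SimpleGraph.mem_neighborFinset] at hz
      rw [Finset.mem_union, Finset.mem_filter]
      rcases h.2 v hv z hz with g | g
      · exact Or.inl ⟨g, hz⟩
      · exact Or.inr g
    exact h2.trans ((Finset.card_le_card hsub).trans (Finset.card_union_le _ _))
  refine ⟨h1, fun ⟨v, hv⟩ => ?_⟩
  have h2 := h1 v hv
  have h3 : (A.filter (G.Adj v)).card + 1 ≤ A.card := by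
    have hsub : A.filter (G.Adj v) ⊆ A.erase v := by
      intro z hz
      rw [Finset.mem_filter] at hz
      exact Finset.mem_erase.2 ⟨hz.2.ne', hz.1⟩
    have := Finset.card_le_card hsub
    have := Finset.card_erase_add_one hv
    omega
  omega

theorem card_two_parts {A A1 A2 : Finset V} (h1 : A1 ⊆ A) (h2 : A2 ⊆ A)
    (hd : ∀ z ∈ A1, z ∉ A2) : A1.card + A2.card ≤ A.card := by
  rw [← Finset.card_union_of_disjoint (Finset.disjoint_left.2 hd)]
  exact Finset.card_le_card (Finset.union_subset h1 h2)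

/-- every part contains a robustly connected part -/
theorem exists_solid [Fintype V] [DecidableRel G.Adj] {d k C : ℕ} (hdeg : ∀ v, d ≤ G.degree v) :
    ∀ (j : ℕ) (A Z : Finset V), Part G A Z → A.Nonempty → Z.card + (j + 1) * k ≤ C →
      A.card < (j + 2) * (d + 1 - C) → ∃ A' Z', A' ⊆ A ∧ A'.Nonempty ∧ Part G A' Z' ∧
        Z'.card ≤ Z.card + j * k ∧ Sol G A' k := by
  intro j
  induction j with
  | zero =>
    intro A Z hA hne hC hc
    by_cases hS : Sol G A k
    · exact ⟨A, Z, subset_rfl, hne, hA, by omega, hS⟩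
    · exfalso
      obtain ⟨T, A1, A2, hT, hs1, hs2, hn1, hn2, hd, -, hp1, hp2⟩ := hA.split hS
      have e1 := (hp1.deg hdeg).2 hn1
      have e2 := (hp2.deg hdeg).2 hn2
      have e3 := card_two_parts hs1 hs2 hd
      have e4 := Finset.card_union_le Z T
      omega
  | succ j ih =>
    intro A Z hA hne hC hc
    by_cases hS : Sol G A k
    · exact ⟨A, Z, subset_rfl, hne, hA, by omega, hS⟩
    · obtain ⟨T, A1, A2, hT, hs1, hs2, hn1, hn2, hd, -, hp1, hp2⟩ := hA.split hS
      have e2 := (hp2.deg hdeg).2 hn2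
      have e3 := card_two_parts hs1 hs2 hd
      have e4 := Finset.card_union_le Z T
      have e5 : (j + 1 + 1) * k = (j + 1) * k + k := by ring
      have e6 : (j + 1 + 2) * (d + 1 - C) = (j + 2) * (d + 1 - C) + (d + 1 - C) := by ring
      have e7 : (j + 1) * k = j * k + k := by ring
      rw [e5] at hC
      rw [e6] at hc
      have e8 : 0 ≤ (j + 1) * k := Nat.zero_le _
      obtain ⟨A', Z', g1, g2, g3, g4, g5⟩ := ih A1 (Z ∪ T) hp1 hn1 (by omega) (by omega)
      exact ⟨A', Z', g1.trans hs1, g2, g3, by omega, g5⟩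

end split

section short

variable {S : Set V} {x y : V} {l : List V}

theorem Wk.take_drop (h : Wk G S x y l) {a b : ℕ} (hab : a < b) (hb : b < l.length) {z : V}
    (hz : z ∈ S) (h1 : G.Adj (l[a]'(hab.trans hb)) z) (h2 : G.Adj z (l[b]'hb)) :
    Wk G S x y (l.take (a + 1) ++ z :: l.drop b) := by
  obtain ⟨g1, g2, g3, g4⟩ := h
  have ha : a < l.length := hab.trans hb
  have hta : (l.take (a + 1)).getLast? = some (l[a]'ha) := by
    rw [List.getLast?_eq_getElem?, List.length_take, min_eq_left (by omega)]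
    simp [List.getElem?_eq_getElem ha]
  have hdb : (l.drop b).head? = some (l[b]'hb) := by
    rw [List.head?_drop, List.getElem?_eq_getElem hb]
  refine ⟨?_, ?_, ?_, ?_⟩
  · rw [List.isChain_append]
    refine ⟨g1.take _, ?_, fun u hu v hv => ?_⟩
    · rw [List.isChain_cons]
      refine ⟨fun v hv => ?_, g1.drop _⟩
      rw [Option.mem_def, hdb, Option.some.injEq] at hv
      subst hv
      exact h2
    · rw [Option.mem_def, hta, Option.some.injEq] at hu
      simp only [List.head?_cons, Option.mem_def, Option.some.injEq] at hv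
      subst hu; subst hv
      exact h1
  · rw [List.head?_append, List.head?_take, if_neg (by omega), g2]; rfl
  · rw [List.getLast?_append, List.getLast?_cons]
    have hl : (l.drop b).getLast? = some y := by
      rw [List.getLast?_drop, if_neg (by omega), g3]
    rw [hl]
    rfl
  · intro w hw
    rw [List.mem_append, List.mem_cons] at hw
    rcases hw with hw | rfl | hw
    · exact g4 w (List.mem_of_mem_take hw)
    · exact hz
    · exact g4 w (List.mem_of_mem_drop hw)

theorem Wk.cut (h : Wk G S x y l) {a b : ℕ} (hab : a < b) (hb : b < l.length)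
    (he : l[a]'(hab.trans hb) = l[b]'hb) : Wk G S x y (l.take a ++ l.drop b) := by
  obtain ⟨g1, g2, g3, g4⟩ := h
  have ha : a < l.length := hab.trans hb
  have hdb : (l.drop b).head? = some (l[b]'hb) := by
    rw [List.head?_drop, List.getElem?_eq_getElem hb]
  refine ⟨?_, ?_, ?_, ?_⟩
  · rw [List.isChain_append]
    refine ⟨g1.take _, g1.drop _, fun u hu v hv => ?_⟩
    rw [Option.mem_def, hdb, ← he, Option.some.injEq] at hv
    subst hv
    rcases Nat.eq_zero_or_pos a with rfl | h0
    · simp at hu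
    · have hta : (l.take a).getLast? = some (l[a - 1]'(by omega)) := by
        rw [List.getLast?_eq_getElem?, List.length_take, min_eq_left (by omega)]
        rw [List.getElem?_take, if_pos (by omega), List.getElem?_eq_getElem]
      rw [Option.mem_def, hta, Option.some.injEq] at hu
      subst hu
      have := List.isChain_iff_getElem.1 g1 (a - 1) (by omega)
      simpa [show a - 1 + 1 = a by omega] using this
  · rcases Nat.eq_zero_or_pos a with rfl | h0
    · rw [List.take_zero, List.nil_append, hdb, ← he]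
      rw [List.head?_eq_getElem?, List.getElem?_eq_getElem (by omega)] at g2
      exact g2
    · rw [List.head?_append, List.head?_take, if_neg (by omega), g2]; rfl
  · have hl : (l.drop b).getLast? = some y := by
      rw [List.getLast?_drop, if_neg (by omega), g3]
    rw [List.getLast?_append, hl]
    rfl
  · intro w hw
    rw [List.mem_append] at hw
    rcases hw with hw | hw
    · exact g4 w (List.mem_of_mem_take hw)
    · exact g4 w (List.mem_of_mem_drop hw)

/-- a shortest walk is a path with no shortcuts -/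
theorem exists_short (h : ∃ l, Wk G S x y l) :
    ∃ l, Pth G.Adj S x y l ∧ ∀ a b (hab : a + 3 ≤ b) (hb : b < l.length), ∀ z ∈ S,
      G.Adj (l[a]'(by omega)) z → ¬ G.Adj z (l[b]'hb) := by
  classical
  have hex : ∃ n, ∃ l, Wk G S x y l ∧ l.length = n := by
    obtain ⟨l, hl⟩ := h
    exact ⟨l.length, l, hl, rfl⟩
  obtain ⟨l, hl, hlen⟩ := Nat.find_spec hex
  have hmin : ∀ l', Wk G S x y l' → l.length ≤ l'.length := fun l' hl' => by
    rw [hlen]
    exact Nat.find_min' hex ⟨l', hl', rfl⟩
  refine ⟨l, ⟨?_, hl.1, hl.2.1, hl.2.2.1, hl.2.2.2⟩, ?_⟩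
  · rw [List.nodup_iff_injective_getElem]
    intro a b he
    by_contra hne
    have hne' : a.val ≠ b.val := fun h => hne (Fin.ext h)
    rcases lt_or_gt_of_ne hne' with hlt | hlt
    · have := hmin _ (hl.cut hlt b.isLt he)
      rw [List.length_append, List.length_take, List.length_drop] at this
      have := b.isLt
      omega
    · have := hmin _ (hl.cut hlt a.isLt he.symm)
      rw [List.length_append, List.length_take, List.length_drop] at this
      have := a.isLt
      omega
  · intro a b hab hb z hz h1 h2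
    have := hmin _ (hl.take_drop (by omega) hb hz h1 h2)
    rw [List.length_append, List.length_take, List.length_cons, List.length_drop] at this
    omega

end short

/-- short connections in a robustly connected set -/
theorem sol_short [DecidableEq V] [DecidableRel G.Adj] {A : Finset V} {D r k : ℕ}
    (hD : ∀ v ∈ A, D ≤ (A.filter (G.Adj v)).card) (hS : Sol G A k) (hrk : r ≤ k)
    (h5 : A.card < 5 * (D - r)) {F : Finset V} (hF : F.card ≤ r) {x y : V} (hx : x ∈ A)
    (hy : y ∈ A) (hxF : x ∉ F) (hyF : y ∉ F) :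
    ∃ l, Pth G.Adj {z | z ∈ A ∧ z ∉ F} x y l ∧ l.length ≤ 12 := by
  obtain ⟨l, hl, hcut⟩ := exists_short (hS F (hF.trans hrk) x hx y hy hxF hyF)
  refine ⟨l, hl, ?_⟩
  by_contra hlen
  push Not at hlen
  set N : Fin 5 → Finset V := fun i =>
    (A \ F).filter (G.Adj (l[3 * i.val]'(by omega))) with hN
  have hNc : ∀ i, D - r ≤ (N i).card := by
    intro i
    have hmem := hl.mem _ (List.getElem_mem (l := l) (n := 3 * i.val) (by omega))
    have h1 := hD _ hmem.1
    have h2 : (A.filter (G.Adj (l[3 * i.val]'(by omega)))).card ≤ (N i).card + F.card := by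
      have hsub : A.filter (G.Adj (l[3 * i.val]'(by omega))) ⊆ N i ∪ F := by
        intro z hz
        rw [Finset.mem_filter] at hz
        rw [hN, Finset.mem_union, Finset.mem_filter, Finset.mem_sdiff]
        by_cases hzF : z ∈ F
        · exact Or.inr hzF
        · exact Or.inl ⟨⟨hz.1, hzF⟩, hz.2⟩
      exact (Finset.card_le_card hsub).trans (Finset.card_union_le _ _)
    omega
  have hdisj : ∀ i ∈ (Finset.univ : Finset (Fin 5)), ∀ j ∈ (Finset.univ : Finset (Fin 5)), i ≠ j →
      Disjoint (N i) (N j) := by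
    have key : ∀ i j : Fin 5, i < j → Disjoint (N i) (N j) := by
      intro i j hij
      rw [Finset.disjoint_left]
      intro z hz hz'
      rw [hN, Finset.mem_filter, Finset.mem_sdiff] at hz hz'
      have hij' : i.val < j.val := hij
      exact hcut (3 * i.val) (3 * j.val) (by omega) (by omega) z hz.1 hz.2 hz'.2.symm
    intro i _ j _ hij
    rcases lt_or_gt_of_ne hij with h | h
    · exact key i j h
    · exact (key j i h).symm
  have h1 := Finset.card_biUnion hdisj
  have h2 : ((Finset.univ : Finset (Fin 5)).biUnion N).card ≤ A.card := by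
    refine Finset.card_le_card ?_
    intro z hz
    rw [Finset.mem_biUnion] at hz
    obtain ⟨i, _, hz⟩ := hz
    rw [hN, Finset.mem_filter, Finset.mem_sdiff] at hz
    exact hz.1.1
  rw [h1, Fin.sum_univ_five] at h2
  have := hNc 0
  have := hNc 1
  have := hNc 2
  have := hNc 3
  have := hNc 4
  omega

end Run7.h807
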