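import Mathlib
import Pool.Agent.Run7.h807.Sol1

set_option autoImplicit false

namespace Run7.h807

variable {V : Type*} {G : SimpleGraph V}

/-- the graph on `S` together with the extra edge `xy` -/
def PE (G : SimpleGraph V) (S : Set V) (x y : V) : SimpleGraph V where
  Adj a b := a ≠ b ∧ ((G.Adj a b ∧ a ∈ S ∧ b ∈ S) ∨ s(a, b) = s(x, y))
  symm := ⟨by
    rintro a b ⟨h1, h2⟩
    refine ⟨h1.symm, ?_⟩
    rcases h2 with ⟨g1, g2, g3⟩ | g
    · exact Or.inl ⟨g1.symm, g3, g2⟩
    · exact Or.inr (by rw [Sym2.eq_swap]; exact g)⟩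
  loopless := ⟨fun a h => h.1 rfl⟩

open Classical in
/-- the signature marking the extra edge -/
noncomputable def pes (x y : V) : Sym2 V → ZMod 2 := fun e => if e = s(x, y) then 1 else 0

theorem pes_off {x y : V} : ∀ (l : List V), x ∉ l → ls (pes x y) l = 0
  | [], _ => rfl
  | [a], _ => rfl
  | a :: b :: l, h => by
    rw [ls_cons_cons, pes_off (b :: l) (fun hm => h (List.mem_cons_of_mem _ hm)), add_zero]
    unfold pes
    rw [if_neg]
    intro he
    rcases Sym2.eq_iff.1 he with ⟨g, -⟩ | ⟨-, g⟩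
    · exact h (by simp [g])
    · exact h (by simp [g])

theorem path_cyc {S : Set V} {x y : V} {l : List V} (h : Pth G.Adj S x y l) (hxy : x ≠ y)
    (h3 : 3 ≤ l.length) : Cyc (PE G S x y) (pes x y) 1 l := by
  refine ⟨h.nd, List.IsChain.imp_of_mem_imp (fun a b ha hb hab => ⟨hab.ne, Or.inl ⟨hab, h.mem a ha,
    h.mem b hb⟩⟩) h.ch, h3, x, y, h.hd, h.lt, ⟨hxy.symm, Or.inr Sym2.eq_swap⟩, ?_⟩
  have hl := h.cons_eq
  have hn := h.nd
  have hlt := h.lt
  match l, h3, hl, hn, hlt with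
  | a :: b :: c :: q, _, hl, hn, hlt =>
    simp only [List.tail_cons, List.cons.injEq, and_true] at hl
    subst hl
    rw [List.nodup_cons] at hn
    rw [ls_cons_cons, pes_off (b :: c :: q) hn.1, add_zero]
    have h1 : pes a y s(a, b) = 0 := by
      unfold pes
      rw [if_neg]
      intro he
      rcases Sym2.eq_iff.1 he with ⟨-, g⟩ | ⟨g, -⟩
      · rw [List.getLast?_cons_cons, List.getLast?_cons_cons] at hlt
        have hm := List.mem_of_getLast? hlt
        rw [List.nodup_cons] at hn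
        exact hn.2.1 (g ▸ hm)
      · exact hxy g
    have h2 : pes a y s(y, a) = 1 := by
      unfold pes
      rw [if_pos Sym2.eq_swap]
    rw [h1, h2, zero_add]

/-- a cycle of sign one passes through the extra edge -/
theorem rim_edge {x y : V} {L : ℕ} {X : ℕ → V} (h1 : phi (pes x y) X 0 L = 1) :
    ∃ k, s(X k, X (k + 1)) = s(x, y) := by
  by_contra hno
  push Not at hno
  have : ∀ k, phi (pes x y) X 0 k = 0 := by
    intro k
    induction k with
    | zero => rfl
    | succ k ih =>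
      change phi (pes x y) X 0 k + pes x y s(X k, X (k + 1)) = 0
      rw [ih, zero_add]
      unfold pes
      rw [if_neg (hno k)]
  rw [this L] at h1
  exact absurd h1 (by decide)

/-- a cycle through the extra edge is a path -/
theorem rim_path {S : Set V} {x y : V} {L : ℕ} {X : ℕ → V} (hX : Rim (PE G S x y) L X)
    {k : ℕ} (hk : s(X k, X (k + 1)) = s(x, y)) :
    ∃ l, Pth G.Adj S x y l ∧ l.length = L ∧ ∀ z, z ∈ l ↔ ∃ j, X j = z := by
  have h3 := hX.three
  obtain ⟨n, rfl⟩ : ∃ n, L = n + 1 := ⟨L - 1, by omega⟩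
  have hlast : X (k + 1 + n) = X k := by
    rw [show k + 1 + n = k + (n + 1) by omega, hX.per]
  have hne : ∀ j, k + 1 ≤ j → j + 1 ≤ k + 1 + n → s(X j, X (j + 1)) ≠ s(x, y) := by
    intro j hj1 hj2 he
    rw [← hk] at he
    rcases Sym2.eq_iff.1 he with ⟨g, -⟩ | ⟨g, g'⟩
    · exact hX.ne (show k < j by omega) (by omega) g.symm
    · -- `X j = X (k+1)` so `j = k + 1`
      have hj : j = k + 1 := by
        by_contra hne
        exact hX.ne (show k + 1 < j by omega) (by omega) g.symm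
      subst hj
      exact hX.ne (show k < k + 1 + 1 by omega) (by omega) g'.symm
  have hadj : ∀ j, k + 1 ≤ j → j + 1 ≤ k + 1 + n → G.Adj (X j) (X (j + 1)) ∧ X j ∈ S ∧
      X (j + 1) ∈ S := by
    intro j hj1 hj2
    rcases (hX.adj j).2 with g | g
    · exact g
    · exact absurd g (hne j hj1 hj2)
  have hchain : ∀ m i, k + 1 ≤ i → i + m ≤ k + 1 + n → (seg X i (m + 1)).IsChain G.Adj := by
    intro m
    induction m with
    | zero => intro i _ _; simp [seg]
    | succ m ih =>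
      intro i hi1 hi2
      rw [seg_succ, List.isChain_cons]
      refine ⟨fun w hw => ?_, ih (i + 1) (by omega) (by omega)⟩
      rw [Option.mem_def, seg_head, Option.some.injEq] at hw
      subst hw
      exact (hadj i hi1 (by omega)).1
  have hS : ∀ z ∈ seg X (k + 1) (n + 1), z ∈ S := by
    intro z hz
    obtain ⟨j, hj, rfl⟩ := mem_seg.1 hz
    rcases Nat.eq_zero_or_pos j with rfl | h0
    · exact (hadj (k + 1) le_rfl (by omega)).2.1
    · have := (hadj (k + 1 + (j - 1)) (by omega) (by omega)).2.2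
      rwa [show k + 1 + (j - 1) + 1 = k + 1 + j by omega] at this
  have hP : Pth G.Adj S (X (k + 1)) (X k) (seg X (k + 1) (n + 1)) :=
    ⟨hX.seg_nodup _ _ le_rfl, hchain n (k + 1) le_rfl le_rfl, seg_head _ _ _, by
      rw [seg_last, hlast], hS⟩
  have hmem : ∀ z, z ∈ seg X (k + 1) (n + 1) ↔ ∃ j, X j = z := by
    intro z
    constructor
    · intro hz
      obtain ⟨j, _, hj⟩ := mem_seg.1 hz
      exact ⟨_, hj⟩
    · rintro ⟨j, rfl⟩
      rw [mem_seg]
      -- choose the representative of `j` in `[k+1, k+1+n]`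
      refine ⟨(j + (n + 1) * (k + 1) - (k + 1)) % (n + 1), Nat.mod_lt _ (by omega), ?_⟩
      have h0 : k + 1 ≤ (n + 1) * (k + 1) := Nat.le_mul_of_pos_left _ (by omega)
      have e1 : X (k + 1 + (j + (n + 1) * (k + 1) - (k + 1)) % (n + 1)) =
          X (k + 1 + (j + (n + 1) * (k + 1) - (k + 1))) := by
        rw [hX.modeq (k + 1 + (j + (n + 1) * (k + 1) - (k + 1)) % (n + 1)),
          hX.modeq (k + 1 + (j + (n + 1) * (k + 1) - (k + 1)))]
        congr 1
        rw [Nat.add_mod, Nat.mod_mod, ← Nat.add_mod]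
      rw [e1, show k + 1 + (j + (n + 1) * (k + 1) - (k + 1)) = j + (n + 1) * (k + 1) by omega,
        hX.modeq, Nat.add_mul_mod_self_left, ← hX.modeq]
  rcases Sym2.eq_iff.1 hk with ⟨g1, g2⟩ | ⟨g1, g2⟩
  · rw [g1, g2] at hP
    refine ⟨_, hP.rev fun a b hab => hab.symm, by rw [List.length_reverse, seg_length], ?_⟩
    intro z
    rw [List.mem_reverse]
    exact hmem z
  · rw [g1, g2] at hP
    exact ⟨_, hP, seg_length _ _ _, hmem⟩

theorem Pth.insert {S : Set V} {x y v : V} {l : List V} (h : Pth G.Adj S x y l) {i : ℕ}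
    (hi : i + 1 < l.length) (hv : v ∈ S) (hvl : v ∉ l) (h1 : G.Adj v (l[i]'(by omega)))
    (h2 : G.Adj v (l[i + 1]'hi)) :
    Pth G.Adj S x y (l.take (i + 1) ++ v :: l.drop (i + 1)) := by
  have hw := Wk.take_drop ⟨h.ch, h.hd, h.lt, h.mem⟩ (show i < i + 1 by omega) hi hv h1.symm h2
  refine ⟨?_, hw.1, hw.2.1, hw.2.2.1, hw.2.2.2⟩
  have hn := h.nd
  rw [← List.take_append_drop (i + 1) l] at hn
  have hn' := List.nodup_append.1 hn
  rw [List.nodup_append, List.nodup_cons]
  refine ⟨hn'.1, ⟨fun hm => hvl (List.mem_of_mem_drop hm), hn'.2.1⟩, fun a ha b hb hab => ?_⟩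
  rcases List.mem_cons.1 hb with hb | hb
  · exact hvl ((hab.trans hb) ▸ List.mem_of_mem_take ha)
  · exact hn'.2.2 a ha b hb hab

/-- no two consecutive elements in `p` -/
theorem half_filter {p : V → Prop} [DecidablePred p] : ∀ (q : List V),
    q.IsChain (fun a b => ¬ (p a ∧ p b)) → (q.filter (fun z => decide (p z))).length ≤
      (q.length + 1) / 2
  | [], _ => by simp
  | [b], _ => by
      by_cases h : p b <;> simp [h]
  | b :: b' :: q, hc => by
      rw [List.isChain_cons_cons] at hc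
      have hq : q.IsChain (fun a b => ¬ (p a ∧ p b)) := by
        cases q with
        | nil => simp
        | cons x q => exact (List.isChain_cons_cons.1 hc.2).2
      have ih := half_filter q hq
      by_cases h1 : p b
      · have h2 : ¬ p b' := fun h => hc.1 ⟨h1, h⟩
        simp only [List.filter_cons, h1, h2, decide_true, decide_false, if_true,
          List.length_cons, Bool.false_eq_true, if_false]
        omega
      · by_cases h2 : p b'
        · simp only [List.filter_cons, h1, h2, decide_true, decide_false, if_true,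
            List.length_cons, Bool.false_eq_true, if_false]
          omega
        · simp only [List.filter_cons, h1, h2, decide_false,
            List.length_cons, Bool.false_eq_true, if_false]
          omega

/-- long connections in a large robustly connected set -/
theorem sol_long [Fintype V] [DecidableEq V] [DecidableRel G.Adj] {A F : Finset V}
    {D r k μ ℓ : ℕ} (hD : ∀ v ∈ A, D ≤ (A.filter (G.Adj v)).card) (hS : Sol G A k)
    (hF : F.card ≤ r) (hk : r + 98 ≤ k) (hμ : 50 ≤ μ) (hℓμ : ℓ ≤ 49 * (μ + 2))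
    (hA : ℓ + r ≤ A.card) (hcore : ℓ + 2 * (4 * μ - 5) + 2 * r ≤ 2 * D + 1) (hDr : r + 3 ≤ D)
    {x y : V} (hx : x ∈ A)
    (hy : y ∈ A) (hxF : x ∉ F) (hyF : y ∉ F) (hxy : x ≠ y) :
    ∃ l, Pth G.Adj {z | z ∈ A ∧ z ∉ F} x y l ∧ ℓ ≤ l.length := by
  classical
  obtain ⟨S, hSdef⟩ : ∃ S : Set V, S = {z | z ∈ A ∧ z ∉ F} := ⟨_, rfl⟩
  rw [← hSdef]
  have hmS : ∀ z, z ∈ S ↔ z ∈ A ∧ z ∉ F := fun z => by rw [hSdef]; rfl
  have hxS : x ∈ S := (hmS x).2 ⟨hx, hxF⟩
  have hyS : y ∈ S := (hmS y).2 ⟨hy, hyF⟩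
  -- a first path with three vertices
  obtain ⟨a, haA, hxa, hay, haF⟩ : ∃ a ∈ A, G.Adj x a ∧ a ≠ y ∧ a ∉ F := by
    have h1 := hD x hx
    have h2 : (insert y F).card < (A.filter (G.Adj x)).card :=
      lt_of_le_of_lt (Finset.card_insert_le _ _) (by omega)
    obtain ⟨a, ha, haF⟩ := Finset.exists_mem_notMem_of_card_lt_card h2
    rw [Finset.mem_filter] at ha
    rw [Finset.mem_insert, not_or] at haF
    exact ⟨a, ha.1, ha.2, haF.1, haF.2⟩
  obtain ⟨l0, hl0, h30⟩ : ∃ l, Pth G.Adj S x y l ∧ 3 ≤ l.length := by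
    obtain ⟨l, hl, -⟩ := exists_short (hS (insert x F)
      ((Finset.card_insert_le _ _).trans (by omega)) a haA y hy (by
        rw [Finset.mem_insert, not_or]
        exact ⟨hxa.ne', haF⟩) (by
        rw [Finset.mem_insert, not_or]
        exact ⟨hxy.symm, hyF⟩))
    have hxl : x ∉ l := fun h => (hl.mem x h).2 (Finset.mem_insert_self _ _)
    have hl' : Pth G.Adj S a y l := hl.mono fun z _ hz => by
      have := hz.2
      rw [Finset.mem_insert, not_or] at this
      exact (hmS z).2 ⟨hz.1, this.2⟩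
    refine ⟨x :: l, ⟨List.nodup_cons.2 ⟨hxl, hl'.nd⟩, ?_, rfl, ?_, ?_⟩, ?_⟩
    · rw [List.isChain_cons]
      refine ⟨fun w hw => ?_, hl'.ch⟩
      rw [Option.mem_def, hl'.hd, Option.some.injEq] at hw
      subst hw
      exact hxa
    · rw [List.getLast?_cons, hl'.lt]; rfl
    · intro z hz
      rcases List.mem_cons.1 hz with rfl | hz
      · exact hxS
      · exact hl'.mem z hz
    · have := hl'.two hay
      rw [List.length_cons]
      omega
  obtain ⟨l, hl, hmax⟩ := exists_max_cyc ⟨l0, path_cyc hl0 hxy h30⟩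
  obtain ⟨X, hX⟩ := top_of_cyc hl hmax
  obtain ⟨L, hL⟩ : ∃ L, L = l.length := ⟨_, rfl⟩
  rw [← hL] at hX
  obtain ⟨e, he⟩ := rim_edge hX.tot
  obtain ⟨Q, hQ, hQL, hQX⟩ := rim_path hX.rim he
  by_cases hℓ : ℓ ≤ L
  · exact ⟨Q, hQ, by omega⟩
  exfalso
  push Not at hℓ
  have hQmax : ∀ Q', Pth G.Adj S x y Q' → 3 ≤ Q'.length → Q'.length ≤ L := fun Q' h1 h2 =>
    hX.max Q' (path_cyc h1 hxy h2)
  have hXS : ∀ j, X j ∈ S := fun j => hQ.mem _ ((hQX _).2 ⟨j, rfl⟩)
  -- the rest of `A`
  obtain ⟨R, hR⟩ : ∃ R : Finset V, R = A \ (F ∪ Q.toFinset) := ⟨_, rfl⟩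
  have hRm : ∀ v, v ∈ R ↔ v ∈ A ∧ v ∉ F ∧ v ∉ Q := fun v => by
    rw [hR, Finset.mem_sdiff, Finset.mem_union, List.mem_toFinset, not_or]
  have hRne : R.Nonempty := by
    have h1 : (F ∪ Q.toFinset).card < A.card := by
      have h2 := Finset.card_union_le F Q.toFinset
      have h3 := List.toFinset_card_le Q
      omega
    obtain ⟨v, hv, hv'⟩ := Finset.exists_mem_notMem_of_card_lt_card h1
    exact ⟨v, by rw [hR, Finset.mem_sdiff]; exact ⟨hv, hv'⟩⟩
  have hRX : ∀ v ∈ R, ∀ j, X j ≠ v := fun v hv j hj =>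
    ((hRm v).1 hv).2.2 ((hQX v).2 ⟨j, hj⟩)
  have hdiv : (L - 1) / (μ + 2) < 49 := by
    rw [Nat.div_lt_iff_lt_mul (by omega)]
    omega
  obtain ⟨v, hv, hvR⟩ : ∃ v ∈ R, (R.filter ((PE G S x y).Adj v)).card < 4 * μ - 5 := by
    by_contra hno
    push Not at hno
    obtain ⟨Z, YS, hZ1, hZ2, hZ3, hYS, hsep⟩ := hX.sep (by omega) hRne hRX hno (by omega)
    obtain ⟨y0, hy0, hy0Z⟩ := Finset.exists_mem_notMem_of_card_lt_card hZ3
    obtain ⟨x0, hx0, hx0Z⟩ := Finset.exists_mem_notMem_of_card_lt_card (s := Z)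
      (t := (Finset.range L).image X) (by rw [rim_card hX.rim]; exact hZ2)
    have hy0R := (hRm y0).1 (hYS hy0)
    obtain ⟨j, -, hj⟩ := Finset.mem_image.1 hx0
    have hx0S := (hmS x0).1 (hj ▸ hXS j)
    obtain ⟨w, hw1, hw2, hw3, hw4⟩ := hS (F ∪ Z) (by
      have := Finset.card_union_le F Z
      omega) y0 hy0R.1 x0 hx0S.1 (by
        rw [Finset.mem_union, not_or]
        exact ⟨hy0R.2.1, hy0Z⟩) (by
        rw [Finset.mem_union, not_or]
        exact ⟨hx0S.2, hx0Z⟩)
    have hw4' : ∀ z ∈ w, z ∈ S ∧ z ∉ Z := by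
      intro z hz
      have := hw4 z hz
      rw [Set.mem_setOf_eq, Finset.mem_union, not_or] at this
      exact ⟨(hmS z).2 ⟨this.1, this.2.1⟩, this.2.2⟩
    obtain ⟨z, hz, hzZ⟩ := hsep w (List.IsChain.imp_of_mem_imp (fun a b ha hb hab =>
      ⟨hab.ne, Or.inl ⟨hab, (hw4' a ha).1, (hw4' b hb).1⟩⟩) hw1) ⟨y0, hy0, hw2⟩ ⟨x0, hx0, hw3⟩
    exact (hw4' z hz).2 hzZ
  have hvm := (hRm v).1 hv
  have hvS : v ∈ S := (hmS v).2 ⟨hvm.1, hvm.2.1⟩
  have hL3 := hX.rim.three
  -- no two consecutive neighbours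
  have hcons : Q.IsChain (fun a b => ¬ (G.Adj v a ∧ G.Adj v b)) := by
    rw [List.isChain_iff_getElem]
    intro i hi hboth
    have h1 := hQ.insert hi hvS hvm.2.2 hboth.1 hboth.2
    have h2 := hQmax _ h1 (by
      rw [List.length_append, List.length_take, List.length_cons, List.length_drop]
      omega)
    rw [List.length_append, List.length_take, List.length_cons, List.length_drop] at h2
    omega
  have hhalf := half_filter Q hcons
  have hdegv := hD v hvm.1
  have hcount : (A.filter (G.Adj v)).card ≤ F.card + (R.filter ((PE G S x y).Adj v)).card +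
      (Q.filter (fun z => decide (G.Adj v z))).length := by
    have hsub : A.filter (G.Adj v) ⊆ (F ∪ R.filter ((PE G S x y).Adj v)) ∪
        (Q.filter (fun z => decide (G.Adj v z))).toFinset := by
      intro z hz
      rw [Finset.mem_filter] at hz
      rw [Finset.mem_union, Finset.mem_union, List.mem_toFinset, List.mem_filter,
        Finset.mem_filter]
      by_cases hzF : z ∈ F
      · exact Or.inl (Or.inl hzF)
      · by_cases hzQ : z ∈ Q
        · exact Or.inr ⟨hzQ, by simpa using hz.2⟩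
        · exact Or.inl (Or.inr ⟨(hRm z).2 ⟨hz.1, hzF, hzQ⟩, hz.2.ne, Or.inl ⟨hz.2, hvS,
            (hmS z).2 ⟨hz.1, hzF⟩⟩⟩)
    refine (Finset.card_le_card hsub).trans ((Finset.card_union_le _ _).trans ?_)
    have h1 := Finset.card_union_le F (R.filter ((PE G S x y).Adj v))
    have h2 := List.toFinset_card_le (Q.filter (fun z => decide (G.Adj v z)))
    omega
  omega

end Run7.h807
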