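import Mathlib
import Pool.Agent.Run7.h807.Sol2

set_option autoImplicit false

namespace Run7.h807

variable {V : Type*} {G : SimpleGraph V} [Fintype V] [DecidableEq V] [DecidableRel G.Adj]

/-- robustly connected parts are robust -/
theorem sol_blob {d z : ℕ} (hdeg : ∀ v, d ≤ G.degree v) {A Z : Finset V} (hp : Part G A Z)
    (hZ : Z.card ≤ z) (hne : A.Nonempty) (hS : Sol G A 138) (hA : A.card ≤ 4 * d)
    (hd : 8 * z + 4000 ≤ d) : Blob G A (min (A.card - 40) (3 * d / 2)) 12 40 := by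
  have hD := hp.deg hdeg
  have hD1 : ∀ v ∈ A, d - z ≤ (A.filter (G.Adj v)).card := fun v hv => by
    have := hD.1 v hv
    omega
  have hA1 := hD.2 hne
  refine ⟨fun F hF x hx y hy hxF hyF => ?_, fun F hF x hx y hy hxF hyF hxy => ?_⟩
  · exact sol_short hD1 hS (r := 40) (by omega) (by omega) hF hx hy hxF hyF
  · by_cases hcase : A.card + 85 ≤ 2 * (d - z)
    · have hb : Blob G A (A.card - 40) 3 40 := slk_blob (fun v hv => by
        have := hD1 v hv
        omega) (by omega)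
      obtain ⟨l, hl, hll⟩ := hb.long F hF x hx y hy hxF hyF hxy
      exact ⟨l, hl, (min_le_left _ _).trans hll⟩
    · obtain ⟨l, hl, hll⟩ := sol_long (μ := d / 32) (ℓ := 3 * d / 2) hD1 hS hF (by omega)
        (by omega) (by omega) (by omega) (by omega) (by omega) hx hy hxF hyF hxy
      exact ⟨l, hl, (min_le_right _ _).trans hll⟩

omit [DecidableRel G.Adj] in
/-- two robust sets of large total length exclude bad cycles -/
theorem pair_false (h2 : Two G)
    (hconn : ∀ S : Finset V, S.card < 3 → (G.induce ((↑S : Set V)ᶜ)).Connected)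
    {σ : Sym2 V → ZMod 2} {t : ZMod 2} {L : ℕ} {l : List V} (hl : Cyc G σ (t + 1) l)
    (hU : Uni G (L + 1) σ t) (hL3 : 3 ≤ L) {A B : Finset V} {ℓA ℓB cA cB rA rB : ℕ}
    (hA : Blob G A ℓA cA rA) (hB : Blob G B ℓB cB rB) (hd : ∀ z ∈ A, z ∉ B)
    (hm : L + 1 ≤ ℓA + ℓB) (hA1 : 1 ≤ ℓA) (hB1 : 1 ≤ ℓB) (hrA : 3 * cA + 4 ≤ rA)
    (hrB : 3 * cB + 4 ≤ rB) (hcA : 1 ≤ cA) (hcB : 1 ≤ cB) (hA4 : 4 ≤ A.card)
    (hB4 : 4 ≤ B.card) : False := by
  obtain ⟨p, q, Lg, hLg⟩ := exists_legs hconn (P := A) (Q := B) (by omega) (by omega) hd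
  obtain ⟨ht, π, hπ⟩ := two_blobs h2 hLg hA hB hU (by omega) hm hA1 hB1 hrA hrB hcA hcB hA4 hB4
  subst ht
  rw [zero_add] at hl
  exact bal_no_cyc hπ hl

/-- a near-clique with few outer neighbours -/
structure NCl (G : SimpleGraph V) (d : ℕ) (B Z : Finset V) : Prop where
  ne : B.Nonempty
  part : Part G B Z
  zc : Z.card ≤ 374
  big : B.card ≤ d + 451

/-- a bad cycle yields three near-cliques -/
theorem trio_of_bad {d : ℕ} (hdeg : ∀ v, d ≤ G.degree v) (hn : 2 * d + 1 ≤ Fintype.card V)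
    (hn4 : Fintype.card V ≤ 4 * d) (hd : 8000 ≤ d)
    (hconn : ∀ S : Finset V, S.card < 3 → (G.induce ((↑S : Set V)ᶜ)).Connected)
    {σ : Sym2 V → ZMod 2} {t : ZMod 2} (hU : Uni G (2 * d - 1) σ t)
    (hbad : ∃ l, Cyc G σ (t + 1) l) :
    ∃ (L : ℕ) (l : List V) (B Z : Fin 3 → Finset V), Cyc G σ (t + 1) l ∧ Uni G (L + 1) σ t ∧
      L + 2 ≤ 2 * d ∧ 3 ≤ L ∧ (∀ i, NCl G d (B i) (Z i)) ∧
      ∀ i j, i ≠ j → (∀ x ∈ B i, x ∉ B j) ∧ ∀ a ∈ B i, ∀ b ∈ B j, ¬ G.Adj a b := by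
  classical
  have h2 : Two G := two_of_conn fun S hS => hconn S (by omega)
  obtain ⟨l, hl, hmax⟩ := exists_max_cyc hbad
  obtain ⟨X, hX⟩ := top_of_cyc hl hmax
  obtain ⟨L, hL⟩ : ∃ L, L = l.length := ⟨_, rfl⟩
  rw [← hL] at hX
  have hL2 : L + 2 ≤ 2 * d := by
    by_contra hlt
    obtain ⟨g1, g2, g3, x, y, g4, g5, g6, g7⟩ := hl
    have := hU l x y g1 g2 g4 g5 g6 g3 (by omega)
    rw [g7] at this
    have h8 : (1 : ZMod 2) = 0 := by linear_combination this
    exact absurd h8 (by decide)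
  have hUL : Uni G (L + 1) σ t := uni_of_max (L := L) (by rw [hL]; exact hmax)
  have hL3 := hX.rim.three
  obtain ⟨μ, hμ⟩ : ∃ μ, μ = (d - 44) / 24 := ⟨_, rfl⟩
  have hdiv : (L - 1) / (μ + 2) < 49 := by
    rw [Nat.div_lt_iff_lt_mul (by omega)]
    omega
  obtain ⟨S, hne, hS, hcon⟩ : ∃ S : Finset V, S.Nonempty ∧ (∀ v ∈ S, ∀ j, X j ≠ v) ∧
      ∀ v ∈ S, 4 * μ - 5 ≤ (S.filter (G.Adj v)).card := by
    by_contra hno
    push Not at hno
    exact hX.heavy_false hdeg hL2 (by omega) (D := 4 * μ - 5) (by omega) (by omega) hno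
  obtain ⟨Z, YS, hZ1, hZ2, hZ3, -, hsep⟩ := hX.sep (by omega) hne hS hcon (by omega)
  obtain ⟨P, Q, hPne, hQne, hPZ, hQZ, hPQ, hall, hadj, hXQ, -⟩ :=
    sepa_parts hsep hZ3 (by rw [rim_card hX.rim]; exact hZ2)
  have hZ98 : Z.card ≤ 98 := by omega
  have hpP : Part G P Z := ⟨hPZ, fun a ha b hab => by
    rcases hall b with g | g | g
    · exact Or.inr g
    · exact Or.inl g
    · exact absurd hab (hadj a ha b g)⟩
  have hpQ : Part G Q Z := ⟨hQZ, fun a ha b hab => by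
    rcases hall b with g | g | g
    · exact Or.inr g
    · exact absurd hab.symm (hadj b g a ha)
    · exact Or.inl g⟩
  have hPc := (hpP.deg hdeg).2 hPne
  have hQc := (hpQ.deg hdeg).2 hQne
  have hsum : P.card + Q.card + Z.card ≤ Fintype.card V := by
    have h1 : Disjoint P Q := Finset.disjoint_left.2 hPQ
    have h3 : Disjoint (P ∪ Q) Z := by
      rw [Finset.disjoint_left]
      intro z hz
      rw [Finset.mem_union] at hz
      rcases hz with hz | hz
      · exact hPZ z hz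
      · exact hQZ z hz
    rw [← Finset.card_union_of_disjoint h1, ← Finset.card_union_of_disjoint h3]
    exact Finset.card_le_univ _
  obtain ⟨B1, Z1, hB1P, hB1n, hB1p, hZ1c, hB1S⟩ := exists_solid (k := 138) (C := 512) hdeg 2 P Z
    hpP hPne (by omega) (by omega)
  have hb1c := (hB1p.deg hdeg).2 hB1n
  have hb1 : Blob G B1 (min (B1.card - 40) (3 * d / 2)) 12 40 := sol_blob hdeg hB1p
    (z := 374) (by omega) hB1n hB1S (by
      have := Finset.card_le_card hB1P
      omega) (by omega)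
  have hQS : ¬ Sol G Q 138 := by
    intro hQS
    have hbQ : Blob G Q (min (Q.card - 40) (3 * d / 2)) 12 40 := sol_blob hdeg hpQ
      (z := 98) hZ98 hQne hQS (by omega) (by omega)
    have hLQ : L ≤ Q.card + Z.card := by
      have h1 : (Finset.range L).image X ⊆ Q ∪ Z := by
        intro x hx
        rw [Finset.mem_union]
        exact hXQ x hx
      have h3 := (Finset.card_le_card h1).trans (Finset.card_union_le _ _)
      rwa [rim_card hX.rim] at h3
    exact pair_false h2 hconn hl hUL hL3 hb1 hbQ (fun z hz hz' => hPQ z (hB1P hz) hz')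
      (by omega) (by omega) (by omega) (by omega) (by omega) (by omega) (by omega) (by omega)
      (by omega)
  obtain ⟨T, Q1, Q2, hT, hs1, hs2, hn1, hn2, hd12, hna12, hp1, hp2⟩ := hpQ.split hQS
  have hZT := Finset.card_union_le Z T
  have hq1 := (hp1.deg hdeg).2 hn1
  have hq2 := (hp2.deg hdeg).2 hn2
  have hq12 := card_two_parts hs1 hs2 hd12
  obtain ⟨B2, Z2, hB2Q, hB2n, hB2p, hZ2c, hB2S⟩ := exists_solid (k := 138) (C := 512) hdeg 1 Q1
    (Z ∪ T) hp1 hn1 (by omega) (by omega)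
  obtain ⟨B3, Z3, hB3Q, hB3n, hB3p, hZ3c, hB3S⟩ := exists_solid (k := 138) (C := 512) hdeg 1 Q2
    (Z ∪ T) hp2 hn2 (by omega) (by omega)
  have hb2c := (hB2p.deg hdeg).2 hB2n
  have hb3c := (hB3p.deg hdeg).2 hB3n
  have hB1le := Finset.card_le_card hB1P
  have hB2le := Finset.card_le_card hB2Q
  have hB3le := Finset.card_le_card hB3Q
  have hb2 : Blob G B2 (min (B2.card - 40) (3 * d / 2)) 12 40 := sol_blob hdeg hB2p
    (z := 374) (by omega) hB2n hB2S (by omega) (by omega)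
  have hb3 : Blob G B3 (min (B3.card - 40) (3 * d / 2)) 12 40 := sol_blob hdeg hB3p
    (z := 374) (by omega) hB3n hB3S (by omega) (by omega)
  have hd12' : ∀ z ∈ B1, z ∉ B2 := fun z hz hz' => hPQ z (hB1P hz) (hs1 (hB2Q hz'))
  have hd13' : ∀ z ∈ B1, z ∉ B3 := fun z hz hz' => hPQ z (hB1P hz) (hs2 (hB3Q hz'))
  have hd23' : ∀ z ∈ B2, z ∉ B3 := fun z hz hz' => hd12 z (hB2Q hz) (hB3Q hz')
  have hn12' : ∀ a ∈ B1, ∀ b ∈ B2, ¬ G.Adj a b := fun a ha b hb =>
    hadj a (hB1P ha) b (hs1 (hB2Q hb))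
  have hn13' : ∀ a ∈ B1, ∀ b ∈ B3, ¬ G.Adj a b := fun a ha b hb =>
    hadj a (hB1P ha) b (hs2 (hB3Q hb))
  have hn23' : ∀ a ∈ B2, ∀ b ∈ B3, ¬ G.Adj a b := fun a ha b hb =>
    hna12 a (hB2Q ha) b (hB3Q hb)
  have hp12 : min (B1.card - 40) (3 * d / 2) + min (B2.card - 40) (3 * d / 2) ≤ L := by
    by_contra hlt
    exact pair_false h2 hconn hl hUL hL3 hb1 hb2 hd12' (by omega) (by omega) (by omega)
      (by omega) (by omega) (by omega) (by omega) (by omega) (by omega)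
  have hp13 : min (B1.card - 40) (3 * d / 2) + min (B3.card - 40) (3 * d / 2) ≤ L := by
    by_contra hlt
    exact pair_false h2 hconn hl hUL hL3 hb1 hb3 hd13' (by omega) (by omega) (by omega)
      (by omega) (by omega) (by omega) (by omega) (by omega) (by omega)
  refine ⟨L, l, ![B1, B2, B3], ![Z1, Z2, Z3], hl, hUL, hL2, hL3, ?_, ?_⟩
  · intro i
    fin_cases i
    · exact ⟨hB1n, hB1p, by simp only [Fin.zero_eta, Matrix.cons_val_zero]; omega,
        by simp only [Fin.zero_eta, Matrix.cons_val_zero]; omega⟩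
    · exact ⟨hB2n, hB2p, by simp only [Fin.mk_one, Matrix.cons_val_one, Matrix.cons_val_zero]; omega,
        by simp only [Fin.mk_one, Matrix.cons_val_one, Matrix.cons_val_zero]; omega⟩
    · exact ⟨hB3n, hB3p, by simp only [Fin.reduceFinMk, Matrix.cons_val]; omega,
        by simp only [Fin.reduceFinMk, Matrix.cons_val]; omega⟩
  · intro i j hij
    fin_cases i <;> fin_cases j
    · exact absurd rfl hij
    · exact ⟨hd12', hn12'⟩
    · exact ⟨hd13', hn13'⟩
    · exact ⟨fun x hx hx' => hd12' x hx' hx, fun a ha b hb hab => hn12' b hb a ha hab.symm⟩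
    · exact absurd rfl hij
    · exact ⟨hd23', hn23'⟩
    · exact ⟨fun x hx hx' => hd13' x hx' hx, fun a ha b hb hab => hn13' b hb a ha hab.symm⟩
    · exact ⟨fun x hx hx' => hd23' x hx' hx, fun a ha b hb hab => hn23' b hb a ha hab.symm⟩
    · exact absurd rfl hij

end Run7.h807
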