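import Mathlib
import Pool.Agent.Run7.h807.Sol3

set_option autoImplicit false

namespace Run7.h807

variable {V : Type*} {G : SimpleGraph V}

/-- edges with an end in `B` -/
def RB (G : SimpleGraph V) (B : Finset V) (a b : V) : Prop := G.Adj a b ∧ (a ∈ B ∨ b ∈ B)

theorem RB.symm {B : Finset V} {a b : V} (h : RB G B a b) : RB G B b a := ⟨h.1.symm, h.2.symm⟩

/-- a near-clique `B` with a set `E` of vertices attached to it -/
structure NA (G : SimpleGraph V) [DecidableRel G.Adj] (B E : Finset V) (w c e : ℕ) : Prop where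
  dis : ∀ z ∈ B, z ∉ E
  dense : ∀ v ∈ B, B.card ≤ (B.filter (G.Adj v)).card + w
  att : ∀ v ∈ E, c ≤ (B.filter (G.Adj v)).card
  ec : E.card ≤ e

variable [DecidableEq V] [DecidableRel G.Adj] {B E : Finset V} {w c e : ℕ}

theorem NA.mono (h : NA G B E w c e) {E' : Finset V} (hE : E' ⊆ E) : NA G B E' w c e :=
  ⟨fun z hz hz' => h.dis z hz (hE hz'), h.dense, fun v hv => h.att v (hE hv),
    (Finset.card_le_card hE).trans h.ec⟩

/-- a vertex sees all but few of a subset of the near-clique -/
theorem NA.miss (h : NA G B E w c e) {v : V} (hv : v ∈ B) :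
    (B.filter (fun z => ¬ G.Adj v z)).card ≤ w := by
  have h1 := h.dense v hv
  have h2 := Finset.card_filter_add_card_filter_not (s := B) (fun z => G.Adj v z)
  have h3 : (B.filter (fun z => G.Adj v z)).card = (B.filter (G.Adj v)).card := rfl
  omega

/-- a common neighbour of one vertex of large degree and up to two vertices of `B` -/
theorem NA.common (h : NA G B E w c e) {u v v' : V} {m : ℕ}
    (hu : m ≤ (B.filter (G.Adj u)).card) (hv : v ∈ B) (hv' : v' ∈ B) {F : Finset V}
    (hF : F.card + 2 * w < m) : ∃ a ∈ B, G.Adj u a ∧ G.Adj v a ∧ G.Adj v' a ∧ a ∉ F := by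
  have h1 := h.miss hv
  have h2 := h.miss hv'
  have h3 : (F ∪ (B.filter (fun z => ¬ G.Adj v z) ∪ B.filter (fun z => ¬ G.Adj v' z))).card <
      (B.filter (G.Adj u)).card := by
    have e1 := Finset.card_union_le F (B.filter (fun z => ¬ G.Adj v z) ∪
      B.filter (fun z => ¬ G.Adj v' z))
    have e2 := Finset.card_union_le (B.filter (fun z => ¬ G.Adj v z))
      (B.filter (fun z => ¬ G.Adj v' z))
    omega
  obtain ⟨a, ha, ha'⟩ := Finset.exists_mem_notMem_of_card_lt_card h3
  rw [Finset.mem_filter] at ha
  rw [Finset.mem_union, Finset.mem_union, Finset.mem_filter, Finset.mem_filter, not_or, not_or] at ha'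
  refine ⟨a, ha.1, ha.2, ?_, ?_, ha'.1⟩
  · by_contra hn
    exact ha'.2.1 ⟨ha.1, hn⟩
  · by_contra hn
    exact ha'.2.2 ⟨ha.1, hn⟩

/-- large degree into `B` for every vertex -/
theorem NA.dg (h : NA G B E w c e) (hc : c + w ≤ B.card) {x : V} (hx : x ∈ B ∪ E) :
    c ≤ (B.filter (G.Adj x)).card := by
  rw [Finset.mem_union] at hx
  rcases hx with hx | hx
  · have := h.dense x hx
    omega
  · exact h.att x hx

omit [DecidableEq V] [DecidableRel G.Adj] in
theorem rb_chain_cons {S : Set V} {x a y : V} {l : List V} (h : Pth (RB G B) S a y l)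
    (hxa : RB G B x a) (hx : x ∈ S) (hxl : x ∉ l) : Pth (RB G B) S x y (x :: l) := by
  refine ⟨List.nodup_cons.2 ⟨hxl, h.nd⟩, ?_, rfl, ?_, ?_⟩
  · rw [List.isChain_cons]
    refine ⟨fun w hw => ?_, h.ch⟩
    rw [Option.mem_def, h.hd, Option.some.injEq] at hw
    subst hw
    exact hxa
  · rw [List.getLast?_cons, h.lt]; rfl
  · intro z hz
    rcases List.mem_cons.1 hz with rfl | hz
    · exact hx
    · exact h.mem z hz

variable [Fintype V]

/-- exact covers between vertices of the near-clique -/
theorem NA.cover0 (h : NA G B E w c e) : ∀ (n : ℕ) (F : Finset V) (x y : V), x ∈ B → y ∈ B →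
    x ∉ F → y ∉ F → x ≠ y → (E \ F).card = n → 2 * (F.card + 4 * n) + 4 * w + 12 ≤ B.card →
    F.card + 4 * n + 2 * w + 6 ≤ c →
    ∃ l, Pth (RB G B) {z | z ∈ B ∪ E ∧ z ∉ F} x y l ∧ ((B ∪ E) \ F).card ≤ l.length := by
  intro n
  induction n with
  | zero =>
    intro F x y hx hy hxF hyF hxy hE hB hc
    have hsl : Slk G B (2 * (F ∩ B).card + 5) := by
      intro v hv
      have h1 := h.dense v hv
      have h2 := Finset.card_le_card (Finset.inter_subset_left (s₁ := F) (s₂ := B))
      omega
    have hFB := Finset.card_le_card (Finset.inter_subset_left (s₁ := F) (s₂ := B))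
    obtain ⟨l, hl, hll⟩ := ham_conn hsl le_rfl (by omega) hx hy
      (fun h => hxF (Finset.mem_inter.1 h).1) (fun h => hyF (Finset.mem_inter.1 h).1) hxy
    refine ⟨l, (hl.imp fun a b ha _ hab => ⟨hab, Or.inl ha.1⟩).mono fun z _ hz => ?_, ?_⟩
    · exact ⟨Finset.mem_union_left _ hz.1, fun hzF => hz.2 (Finset.mem_inter.2 ⟨hzF, hz.1⟩)⟩
    · have hEF : E \ F = ∅ := Finset.card_eq_zero.1 hE
      have h1 : (B ∪ E) \ F = B \ F := by
        rw [Finset.union_sdiff_distrib, hEF, Finset.union_empty]
      rw [h1]
      have h2 := Finset.card_sdiff_add_card_inter B F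
      rw [Finset.inter_comm] at h2
      omega
  | succ n ih =>
    intro F x y hx hy hxF hyF hxy hE hB hc
    obtain ⟨u, hu⟩ : (E \ F).Nonempty := Finset.card_pos.1 (by omega)
    rw [Finset.mem_sdiff] at hu
    have huB : u ∉ B := fun hm => h.dis u hm hu.1
    -- two neighbours of `u`
    obtain ⟨b, hbB, hub, -, -, hbF⟩ := h.common (F := insert x (insert y F)) (h.att u hu.1) hx hx
      (by
        have e1 := Finset.card_insert_le x (insert y F)
        have e2 := Finset.card_insert_le y F
        omega)
    rw [Finset.mem_insert, Finset.mem_insert, not_or, not_or] at hbF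
    obtain ⟨b', hb'B, hub', -, -, hb'F⟩ := h.common (F := insert b (insert x (insert y F)))
      (h.att u hu.1) hx hx
      (by
        have e0 := Finset.card_insert_le b (insert x (insert y F))
        have e1 := Finset.card_insert_le x (insert y F)
        have e2 := Finset.card_insert_le y F
        omega)
    rw [Finset.mem_insert, Finset.mem_insert, Finset.mem_insert, not_or, not_or, not_or] at hb'F
    have hxdeg := h.dense x hx
    obtain ⟨a, haB, hxa, hba, -, haF⟩ := h.common (u := x) (v := b) (v' := b) (m := B.card - w)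
      (F := insert b' (insert b (insert x (insert y F)))) (by omega) hbB hbB
      (by
        have e00 := Finset.card_insert_le b' (insert b (insert x (insert y F)))
        have e0 := Finset.card_insert_le b (insert x (insert y F))
        have e1 := Finset.card_insert_le x (insert y F)
        have e2 := Finset.card_insert_le y F
        omega)
    rw [Finset.mem_insert, Finset.mem_insert, Finset.mem_insert, Finset.mem_insert, not_or,
      not_or, not_or, not_or] at haF
    obtain ⟨F', hF'⟩ : ∃ F', F' = insert x (insert a (insert b (insert u F))) := ⟨_, rfl⟩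
    have hF'c : F'.card ≤ F.card + 4 := by
      rw [hF']
      have e0 := Finset.card_insert_le x (insert a (insert b (insert u F)))
      have e1 := Finset.card_insert_le a (insert b (insert u F))
      have e2 := Finset.card_insert_le b (insert u F)
      have e3 := Finset.card_insert_le u F
      omega
    have hF'm : ∀ z, z ∈ F' ↔ z = x ∨ z = a ∨ z = b ∨ z = u ∨ z ∈ F := fun z => by
      rw [hF']; simp only [Finset.mem_insert]
    have hEF' : (E \ F').card = n := by
      have h1 : E \ F' = (E \ F).erase u := by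
        ext z
        rw [Finset.mem_sdiff, Finset.mem_erase, Finset.mem_sdiff, hF'm]
        constructor
        · rintro ⟨g1, g2⟩
          exact ⟨fun g => g2 (Or.inr (Or.inr (Or.inr (Or.inl g)))), g1,
            fun g => g2 (Or.inr (Or.inr (Or.inr (Or.inr g))))⟩
        · rintro ⟨g1, g2, g3⟩
          refine ⟨g2, ?_⟩
          rintro (g | g | g | g | g)
          · exact h.dis x hx (g ▸ g2)
          · exact h.dis a haB (g ▸ g2)
          · exact h.dis b hbB (g ▸ g2)
          · exact g1 g
          · exact g3 g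
      rw [h1, Finset.card_erase_of_mem (Finset.mem_sdiff.2 hu), hE]
      rfl
    have hub'' : u ≠ b' := hub'.ne
    obtain ⟨l, hl, hll⟩ := ih F' b' y hb'B hy (by
      rw [hF'm]
      rintro (g | g | g | g | g)
      · exact hb'F.2.1 g
      · exact haF.1 g.symm
      · exact hb'F.1 g
      · exact hub'' g.symm
      · exact hb'F.2.2.2 g) (by
      rw [hF'm]
      rintro (g | g | g | g | g)
      · exact hxy g.symm
      · exact haF.2.2.2.1 g.symm
      · exact hbF.2.1 g.symm
      · exact huB (g ▸ hy)
      · exact hyF g) hb'F.2.2.1 hEF' (by omega) (by omega)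
    have hlF : ∀ z ∈ l, z ∉ F' := fun z hz => (hl.mem z hz).2
    have hl1 : Pth (RB G B) {z | z ∈ B ∪ E ∧ z ∉ F} b' y l := hl.mono fun z _ hz =>
      ⟨hz.1, fun g => hz.2 ((hF'm z).2 (Or.inr (Or.inr (Or.inr (Or.inr g)))))⟩
    have hmB : ∀ z, z ∈ B → z ∉ F → z ∈ {z | z ∈ B ∪ E ∧ z ∉ F} := fun z h1 h2 =>
      ⟨Finset.mem_union_left _ h1, h2⟩
    have g1 := rb_chain_cons hl1 (x := u) ⟨hub', Or.inr hb'B⟩ ⟨Finset.mem_union_right _ hu.1, hu.2⟩
      (fun g => hlF u g ((hF'm u).2 (Or.inr (Or.inr (Or.inr (Or.inl rfl))))))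
    have g2 := rb_chain_cons g1 (x := b) ⟨hub.symm, Or.inl hbB⟩ (hmB b hbB hbF.2.2) (by
      rw [List.mem_cons, not_or]
      exact ⟨hub.ne', fun g => hlF b g ((hF'm b).2 (Or.inr (Or.inr (Or.inl rfl))))⟩)
    have g3 := rb_chain_cons g2 (x := a) ⟨hba.symm, Or.inl haB⟩ (hmB a haB haF.2.2.2.2) (by
      rw [List.mem_cons, List.mem_cons, not_or, not_or]
      exact ⟨haF.2.1, fun g => huB (g ▸ haB),
        fun g => hlF a g ((hF'm a).2 (Or.inr (Or.inl rfl)))⟩)
    have g4 := rb_chain_cons g3 (x := x) ⟨hxa, Or.inl hx⟩ (hmB x hx hxF) (by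
      rw [List.mem_cons, List.mem_cons, List.mem_cons, not_or, not_or, not_or]
      exact ⟨fun g => haF.2.2.1 g.symm, fun g => hbF.1 g.symm, fun g => huB (g ▸ hx),
        fun g => hlF x g ((hF'm x).2 (Or.inl rfl))⟩)
    refine ⟨_, g4, ?_⟩
    have hcard : ((B ∪ E) \ F).card ≤ ((B ∪ E) \ F').card + 4 := by
      have hsub : (B ∪ E) \ F ⊆ ((B ∪ E) \ F') ∪ {x, a, b, u} := by
        intro z hz
        rw [Finset.mem_sdiff] at hz
        rw [Finset.mem_union, Finset.mem_sdiff, hF'm]
        simp only [Finset.mem_insert, Finset.mem_singleton]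
        by_cases hzx : z = x
        · exact Or.inr (Or.inl hzx)
        by_cases hza : z = a
        · exact Or.inr (Or.inr (Or.inl hza))
        by_cases hzb : z = b
        · exact Or.inr (Or.inr (Or.inr (Or.inl hzb)))
        by_cases hzu : z = u
        · exact Or.inr (Or.inr (Or.inr (Or.inr hzu)))
        refine Or.inl ⟨hz.1, ?_⟩
        rintro (g | g | g | g | g)
        · exact hzx g
        · exact hza g
        · exact hzb g
        · exact hzu g
        · exact hz.2 g
      have e1 := (Finset.card_le_card hsub).trans (Finset.card_union_le _ _)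
      have e2 : ({x, a, b, u} : Finset V).card ≤ 4 := Finset.card_le_four
      omega
    simp only [List.length_cons]
    omega

end Run7.h807
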