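import Mathlib
import Pool.Agent.Run7.h807.Na1

set_option autoImplicit false

namespace Run7.h807

variable {V : Type*} {G : SimpleGraph V}

/-- exact robust sets -/
structure XB (R : V → V → Prop) (A : Finset V) (c r : ℕ) : Prop where
  short : ∀ F : Finset V, F.card ≤ r → ∀ x ∈ A, ∀ y ∈ A, x ∉ F → y ∉ F →
    ∃ l, Pth R {z | z ∈ A ∧ z ∉ F} x y l ∧ l.length ≤ c
  cover : ∀ F : Finset V, F.card ≤ r → ∀ x ∈ A, ∀ y ∈ A, x ∉ F → y ∉ F → x ≠ y →
    ∃ l, Pth R {z | z ∈ A ∧ z ∉ F} x y l ∧ A.card ≤ l.length + F.card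

variable [DecidableEq V] [DecidableRel G.Adj] {B E : Finset V} {w c e : ℕ}

theorem rb_snoc {S : Set V} {x a y : V} {l : List V} (h : Pth (RB G B) S x a l)
    (hay : RB G B a y) (hy : y ∈ S) (hyl : y ∉ l) : Pth (RB G B) S x y (y :: l.reverse).reverse :=
  (rb_chain_cons (h.rev fun _ _ => RB.symm) hay.symm hy (by rwa [List.mem_reverse])).rev
    fun _ _ => RB.symm

theorem sdiff_insert_card (A F : Finset V) (x : V) :
    (A \ F).card ≤ (A \ insert x F).card + 1 := by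
  have hsub : A \ F ⊆ insert x (A \ insert x F) := by
    intro z hz
    rw [Finset.mem_sdiff] at hz
    rw [Finset.mem_insert, Finset.mem_sdiff, Finset.mem_insert, not_or]
    by_cases hzx : z = x
    · exact Or.inl hzx
    · exact Or.inr ⟨hz.1, hzx, hz.2⟩
  exact (Finset.card_le_card hsub).trans (Finset.card_insert_le _ _)

theorem NA.short0 (h : NA G B E w c e) {F : Finset V} (hF : F.card + 2 * w < c)
    (hcB : c + w ≤ B.card) {x y : V} (hx : x ∈ B) (hy : y ∈ B) (hxF : x ∉ F) (hyF : y ∉ F) :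
    ∃ l, Pth (RB G B) {z | z ∈ B ∪ E ∧ z ∉ F} x y l ∧ l.length ≤ 3 := by
  by_cases hxy : x = y
  · subst hxy
    exact ⟨[x], Pth.single ⟨Finset.mem_union_left _ hx, hxF⟩, by simp⟩
  · obtain ⟨a, haB, hxa, hya, -, haF⟩ := h.common (h.dg hcB (Finset.mem_union_left _ hx)) hy hy hF
    refine ⟨[x, a, y], ⟨?_, ?_, rfl, rfl, ?_⟩, by simp⟩
    · simp [hxa.ne, hya.ne', hxy]
    · simp only [List.isChain_cons_cons, List.isChain_singleton, and_true]
      exact ⟨⟨hxa, Or.inl hx⟩, ⟨hya.symm, Or.inl haB⟩⟩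
    · intro z hz
      simp only [List.mem_cons, List.not_mem_nil, or_false] at hz
      rcases hz with rfl | rfl | rfl
      · exact ⟨Finset.mem_union_left _ hx, hxF⟩
      · exact ⟨Finset.mem_union_left _ haB, haF⟩
      · exact ⟨Finset.mem_union_left _ hy, hyF⟩

theorem NA.short1 (h : NA G B E w c e) {F : Finset V} (hF : F.card + 1 + 2 * w < c)
    (hcB : c + w ≤ B.card) {x y : V} (hx : x ∈ B ∪ E) (hy : y ∈ B) (hxF : x ∉ F) (hyF : y ∉ F) :
    ∃ l, Pth (RB G B) {z | z ∈ B ∪ E ∧ z ∉ F} x y l ∧ l.length ≤ 4 := by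
  by_cases hxB : x ∈ B
  · obtain ⟨l, h1, h2⟩ := h.short0 (F := F) (by omega) hcB hxB hy hxF hyF
    exact ⟨l, h1, by omega⟩
  · obtain ⟨a, haB, hxa, -, -, haF⟩ := h.common (F := insert x F) (h.dg hcB hx) hy hy (by
      have := Finset.card_insert_le x F
      omega)
    obtain ⟨l, h1, h2⟩ := h.short0 (F := insert x F) (by
      have := Finset.card_insert_le x F
      omega) hcB haB hy haF (by
      rw [Finset.mem_insert, not_or]
      exact ⟨fun g => hxB (g ▸ hy), hyF⟩)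
    have h1' : Pth (RB G B) {z | z ∈ B ∪ E ∧ z ∉ F} a y l := h1.mono fun z _ hz =>
      ⟨hz.1, fun g => hz.2 (Finset.mem_insert_of_mem g)⟩
    refine ⟨x :: l, rb_chain_cons h1' ⟨hxa, Or.inr haB⟩ ⟨hx, hxF⟩ (fun g =>
      (h1.mem x g).2 (Finset.mem_insert_self _ _)), ?_⟩
    rw [List.length_cons]
    omega

theorem NA.short2 (h : NA G B E w c e) {F : Finset V} (hF : F.card + 2 + 2 * w < c)
    (hcB : c + w ≤ B.card) {x y : V} (hx : x ∈ B ∪ E) (hy : y ∈ B ∪ E) (hxF : x ∉ F)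
    (hyF : y ∉ F) : ∃ l, Pth (RB G B) {z | z ∈ B ∪ E ∧ z ∉ F} x y l ∧ l.length ≤ 5 := by
  by_cases hyB : y ∈ B
  · obtain ⟨l, h1, h2⟩ := h.short1 (F := F) (by omega) hcB hx hyB hxF hyF
    exact ⟨l, h1, by omega⟩
  · by_cases hxy : x = y
    · subst hxy
      exact ⟨[x], Pth.single ⟨hx, hxF⟩, by simp⟩
    have hBne : ∃ b, b ∈ B := by
      have : 0 < B.card := by omega
      exact Finset.card_pos.1 this
    obtain ⟨b, hb⟩ := hBne
    obtain ⟨a, haB, hya, -, -, haF⟩ := h.common (F := insert y F) (h.dg hcB hy) hb hb (by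
      have := Finset.card_insert_le y F
      omega)
    obtain ⟨l, h1, h2⟩ := h.short1 (F := insert y F) (by
      have := Finset.card_insert_le y F
      omega) hcB hx haB (by
      rw [Finset.mem_insert, not_or]
      exact ⟨hxy, hxF⟩) haF
    have h1' : Pth (RB G B) {z | z ∈ B ∪ E ∧ z ∉ F} x a l := h1.mono fun z _ hz =>
      ⟨hz.1, fun g => hz.2 (Finset.mem_insert_of_mem g)⟩
    refine ⟨_, rb_snoc h1' ⟨hya.symm, Or.inl haB⟩ ⟨hy, hyF⟩ (fun g =>
      (h1.mem y g).2 (Finset.mem_insert_self _ _)), ?_⟩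
    rw [List.length_reverse, List.length_cons, List.length_reverse]
    omega

variable [Fintype V]

theorem NA.cover1 (h : NA G B E w c e) {F : Finset V} {x y : V} (hx : x ∈ B ∪ E) (hy : y ∈ B)
    (hxF : x ∉ F) (hyF : y ∉ F) (hxy : x ≠ y)
    (hB : 2 * (F.card + 1 + 4 * e) + 4 * w + 12 ≤ B.card)
    (hc : F.card + 1 + 4 * e + 2 * w + 6 ≤ c) (hcB : c + w ≤ B.card) :
    ∃ l, Pth (RB G B) {z | z ∈ B ∪ E ∧ z ∉ F} x y l ∧ ((B ∪ E) \ F).card ≤ l.length := by
  have hE : ∀ F' : Finset V, (E \ F').card ≤ e := fun F' =>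
    (Finset.card_le_card Finset.sdiff_subset).trans h.ec
  by_cases hxB : x ∈ B
  · have := hE F
    exact h.cover0 _ F x y hxB hy hxF hyF hxy rfl (by omega) (by omega)
  · have hE' := hE (insert x F)
    have hins := Finset.card_insert_le x F
    obtain ⟨a, haB, hxa, -, -, haF⟩ := h.common (F := insert y (insert x F)) (h.dg hcB hx) hy hy (by
      have := Finset.card_insert_le y (insert x F)
      omega)
    rw [Finset.mem_insert, not_or] at haF
    obtain ⟨l, h1, h2⟩ := h.cover0 _ (insert x F) a y haB hy haF.2 (by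
      rw [Finset.mem_insert, not_or]
      exact ⟨hxy.symm, hyF⟩) haF.1 rfl (by omega) (by omega)
    have h1' : Pth (RB G B) {z | z ∈ B ∪ E ∧ z ∉ F} a y l := h1.mono fun z _ hz =>
      ⟨hz.1, fun g => hz.2 (Finset.mem_insert_of_mem g)⟩
    refine ⟨x :: l, rb_chain_cons h1' ⟨hxa, Or.inr haB⟩ ⟨hx, hxF⟩ (fun g =>
      (h1.mem x g).2 (Finset.mem_insert_self _ _)), ?_⟩
    have := sdiff_insert_card (B ∪ E) F x
    rw [List.length_cons]
    omega

theorem NA.cover2 (h : NA G B E w c e) {F : Finset V} {x y : V} (hx : x ∈ B ∪ E) (hy : y ∈ B ∪ E)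
    (hxF : x ∉ F) (hyF : y ∉ F) (hxy : x ≠ y)
    (hB : 2 * (F.card + 2 + 4 * e) + 4 * w + 12 ≤ B.card)
    (hc : F.card + 2 + 4 * e + 2 * w + 6 ≤ c) (hcB : c + w ≤ B.card) :
    ∃ l, Pth (RB G B) {z | z ∈ B ∪ E ∧ z ∉ F} x y l ∧ ((B ∪ E) \ F).card ≤ l.length := by
  by_cases hyB : y ∈ B
  · exact h.cover1 hx hyB hxF hyF hxy (by omega) (by omega) hcB
  · have hins := Finset.card_insert_le y F
    have hBne : ∃ b, b ∈ B := Finset.card_pos.1 (by omega)
    obtain ⟨b, hb⟩ := hBne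
    obtain ⟨a, haB, hya, -, -, haF⟩ := h.common (F := insert x (insert y F)) (h.dg hcB hy) hb hb (by
      have := Finset.card_insert_le x (insert y F)
      omega)
    rw [Finset.mem_insert, not_or] at haF
    obtain ⟨l, h1, h2⟩ := h.cover1 (F := insert y F) hx haB (by
      rw [Finset.mem_insert, not_or]
      exact ⟨hxy, hxF⟩) haF.2 (fun g => haF.1 g.symm) (by omega) (by omega) hcB
    have h1' : Pth (RB G B) {z | z ∈ B ∪ E ∧ z ∉ F} x a l := h1.mono fun z _ hz =>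
      ⟨hz.1, fun g => hz.2 (Finset.mem_insert_of_mem g)⟩
    refine ⟨_, rb_snoc h1' ⟨hya.symm, Or.inl haB⟩ ⟨hy, hyF⟩ (fun g =>
      (h1.mem y g).2 (Finset.mem_insert_self _ _)), ?_⟩
    have := sdiff_insert_card (B ∪ E) F y
    rw [List.length_reverse, List.length_cons, List.length_reverse]
    omega

theorem NA.xb (h : NA G B E w c e) {r : ℕ}
    (hB : 2 * (r + 2 + 4 * e) + 4 * w + 12 ≤ B.card)
    (hc : r + 2 + 4 * e + 2 * w + 6 ≤ c) (hcB : c + w ≤ B.card) : XB (RB G B) (B ∪ E) 5 r := by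
  refine ⟨fun F hF x hx y hy hxF hyF => h.short2 (by omega) hcB hx hy hxF hyF,
    fun F hF x hx y hy hxF hyF hxy => ?_⟩
  obtain ⟨l, h1, h2⟩ := h.cover2 hx hy hxF hyF hxy (by omega) (by omega) hcB
  refine ⟨l, h1, ?_⟩
  have h3 := Finset.card_sdiff_add_card_inter (B ∪ E) F
  have h4 := Finset.card_le_card (Finset.inter_subset_right (s₁ := B ∪ E) (s₂ := F))
  omega

end Run7.h807
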