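import Mathlib
import Pool.Agent.Run7.h807.Na2

set_option autoImplicit false

namespace Run7.h807

variable {V : Type*} {G : SimpleGraph V} {σ : Sym2 V → ZMod 2}

/-- all pairs are linked, given the links inside the two sides -/
theorem Legs.all' {R : V → V → Prop} {A B : Finset V} {p q : Fin 3 → V}
    {Lg : Fin 3 → List V} {ℓA ℓB : ℕ} (hR : ∀ a b, R a b → R b a)
    (h : Legs R A B p q Lg)
    (hlA0 : ∀ x ∈ A, ∀ y ∈ A, x ≠ y → ∃ l, Pth R {z | z ∈ A} x y l ∧ ℓA ≤ l.length)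
    (hlB0 : ∀ x ∈ B, ∀ y ∈ B, x ≠ y → ∃ l, Pth R {z | z ∈ B} x y l ∧ ℓB ≤ l.length)
    (hAA : ∀ x ∈ A, ∀ y ∈ A, x ≠ y →
      ∃ l, Pth R {z | z ∈ A ∨ z ∈ B ∨ ∃ k, z ∈ Lg k} x y l ∧ ℓA + ℓB ≤ l.length)
    (hBB : ∀ x ∈ B, ∀ y ∈ B, x ≠ y →
      ∃ l, Pth R {z | z ∈ A ∨ z ∈ B ∨ ∃ k, z ∈ Lg k} x y l ∧ ℓA + ℓB ≤ l.length)
    {x y : V} (hx : x ∈ A ∨ x ∈ B ∨ ∃ k, x ∈ Lg k) (hy : y ∈ A ∨ y ∈ B ∨ ∃ k, y ∈ Lg k)
    (hxy : x ≠ y) :
    ∃ l, Pth R {z | z ∈ A ∨ z ∈ B ∨ ∃ k, z ∈ Lg k} x y l ∧ ℓA + ℓB ≤ l.length := by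
  have hs := h.swap hR
  have hsymm : ∀ {x y : V},
      (∃ l, Pth R {z | z ∈ A ∨ z ∈ B ∨ ∃ k, z ∈ Lg k} x y l ∧ ℓA + ℓB ≤ l.length) →
      (∃ l, Pth R {z | z ∈ A ∨ z ∈ B ∨ ∃ k, z ∈ Lg k} y x l ∧ ℓA + ℓB ≤ l.length) := by
    rintro x y ⟨l, h1, h2⟩
    exact ⟨l.reverse, h1.rev hR, by rw [List.length_reverse]; exact h2⟩
  -- a vertex outside the blobs lies inside a leg
  -- `x` has access to `A`, `y` has access to `B`
  have hAB : ∀ {x y : V}, x ∈ A → y ∈ B →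
      ∃ l, Pth R {z | z ∈ A ∨ z ∈ B ∨ ∃ k, z ∈ Lg k} x y l ∧ ℓA + ℓB ≤ l.length := by
    intro x y hx hy
    obtain ⟨i, h1⟩ := h.acc_self hx
    obtain ⟨j, h2⟩ := hs.acc_self hy
    exact h.link1 hR hlA0 hlB0 h1 h2.unrev (fun z hz hz' => by
      rw [List.mem_singleton] at hz hz'
      exact h.dAB x hx (hz.symm.trans hz' ▸ hy))
  have hAL : ∀ {x y : V}, x ∈ A → y ∉ A → y ∉ B → (∃ k, y ∈ Lg k) →
      ∃ l, Pth R {z | z ∈ A ∨ z ∈ B ∨ ∃ k, z ∈ Lg k} x y l ∧ ℓA + ℓB ≤ l.length := by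
    rintro x y hx hyA hyB ⟨k, hk⟩
    obtain ⟨i, h1⟩ := h.acc_self hx
    obtain ⟨l₁, l₂, hsp⟩ := List.append_of_mem hk
    have hsp' : (Lg k).reverse = l₂.reverse ++ y :: l₁.reverse := by
      rw [hsp]; simp
    have h2 := hs.acc_leg hR hsp' hyA
    refine h.link1 hR hlA0 hlB0 h1 h2.unrev (fun z hz hz' => ?_)
    rw [List.mem_singleton] at hz
    exact h2.offB z hz' (hz ▸ hx)
  have hBL : ∀ {x y : V}, x ∈ B → y ∉ A → y ∉ B → (∃ k, y ∈ Lg k) →
      ∃ l, Pth R {z | z ∈ A ∨ z ∈ B ∨ ∃ k, z ∈ Lg k} y x l ∧ ℓA + ℓB ≤ l.length := by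
    rintro x y hx hyA hyB ⟨k, hk⟩
    obtain ⟨i, h1⟩ := hs.acc_self hx
    obtain ⟨l₁, l₂, hsp⟩ := List.append_of_mem hk
    have h2 := h.acc_leg hR hsp hyB
    refine h.link1 hR hlA0 hlB0 h2 h1.unrev (fun z hz hz' => ?_)
    rw [List.mem_singleton] at hz'
    exact h2.offB z hz (hz' ▸ hx)
  have hLL : ∀ {x y : V}, x ∉ A → x ∉ B → y ∉ A → y ∉ B → x ≠ y → (∃ k, x ∈ Lg k) →
      (∃ k, y ∈ Lg k) →
      ∃ l, Pth R {z | z ∈ A ∨ z ∈ B ∨ ∃ k, z ∈ Lg k} x y l ∧ ℓA + ℓB ≤ l.length := by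
    rintro x y hxA hxB hyA hyB hxy ⟨i, hi⟩ ⟨k, hk⟩
    by_cases hik : i = k
    · subst hik
      -- same leg
      have hsame : ∀ {x y : V} {l₁ l₂ l₃ : List V}, x ∉ B → y ∉ A →
          Lg i = l₁ ++ x :: (l₂ ++ y :: l₃) →
          ∃ l, Pth R {z | z ∈ A ∨ z ∈ B ∨ ∃ k, z ∈ Lg k} x y l ∧ ℓA + ℓB ≤ l.length := by
        intro x y l₁ l₂ l₃ hxB hyA hsp
        have h1 := h.acc_leg hR hsp hxB
        have hsp' : (Lg i).reverse = l₃.reverse ++ y :: (l₁ ++ x :: l₂).reverse := by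
          rw [hsp]; simp
        have h2 := hs.acc_leg hR hsp' hyA
        refine h.link1 hR hlA0 hlB0 h1 h2.unrev (fun z hz hz' => ?_)
        have hn := (h.pth i).nd
        rw [hsp] at hn
        rw [List.mem_reverse, List.mem_append, List.mem_singleton] at hz hz'
        rw [List.mem_reverse] at hz'
        have hn1 := List.nodup_append.1 hn
        have hz2 : z ∈ l₂ ++ y :: l₃ := by
          rw [List.mem_append, List.mem_cons]
          tauto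
        rcases hz with hz | hz
        · exact hn1.2.2 z hz z (List.mem_cons_of_mem _ hz2) rfl
        · rw [hz] at hz2
          exact (List.nodup_cons.1 hn1.2.1).1 hz2
      obtain ⟨l₁, l₂, hsp⟩ := List.append_of_mem hi
      rw [hsp, List.mem_append, List.mem_cons] at hk
      rcases hk with hk | hk | hk
      · obtain ⟨m₁, m₂, hm⟩ := List.append_of_mem hk
        exact hsymm (hsame (l₁ := m₁) (l₂ := m₂) (l₃ := l₂) hyB hxA (by rw [hsp, hm]; simp))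
      · exact absurd hk.symm hxy
      · obtain ⟨m₁, m₂, hm⟩ := List.append_of_mem hk
        exact hsame (l₁ := l₁) (l₂ := m₁) (l₃ := m₂) hxB hyA (by rw [hsp, hm])
    · obtain ⟨l₁, l₂, hsp⟩ := List.append_of_mem hi
      obtain ⟨m₁, m₂, hsq⟩ := List.append_of_mem hk
      have h1 := h.acc_leg hR hsp hxB
      have hsq' : (Lg k).reverse = m₂.reverse ++ y :: m₁.reverse := by
        rw [hsq]; simp
      have h2 := hs.acc_leg hR hsq' hyA
      refine h.link1 hR hlA0 hlB0 h1 h2.unrev (fun z hz hz' => ?_)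
      refine h.dis i k hik z ?_ ?_
      · rw [List.mem_reverse, List.mem_append, List.mem_singleton] at hz
        rw [hsp, List.mem_append, List.mem_cons]
        tauto
      · rw [List.mem_reverse, List.mem_append, List.mem_singleton, List.mem_reverse] at hz'
        rw [hsq, List.mem_append, List.mem_cons]
        tauto
  by_cases hxA : x ∈ A
  · by_cases hyA : y ∈ A
    · exact hAA x hxA y hyA hxy
    · by_cases hyB : y ∈ B
      · exact hAB hxA hyB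
      · exact hAL hxA hyA hyB ((hy.resolve_left hyA).resolve_left hyB)
  · by_cases hxB : x ∈ B
    · by_cases hyA : y ∈ A
      · exact hsymm (hAB hyA hxB)
      · by_cases hyB : y ∈ B
        · exact hBB x hxB y hyB hxy
        · exact hsymm (hBL hxB hyA hyB ((hy.resolve_left hyA).resolve_left hyB))
    · have hx' := (hx.resolve_left hxA).resolve_left hxB
      by_cases hyA : y ∈ A
      · exact hsymm (hAL hyA hxA hxB hx')
      · by_cases hyB : y ∈ B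
        · exact hBL hyB hxA hxB hx'
        · exact hLL hxA hxB hyA hyB hxy hx' ((hy.resolve_left hyA).resolve_left hyB)

theorem Legs.link2x [DecidableEq V] {R : V → V → Prop} {A B : Finset V} {p q : Fin 3 → V}
    {Lg : Fin 3 → List V} {ℓB : ℕ} (hR : ∀ a b, R a b → R b a) (h : Legs R A B p q Lg)
    {cA rA : ℕ} (hcr : cA ≤ rA) (hr2 : 2 ≤ rA) (hXA : XB R A cA rA)
    (hlB : ∀ x ∈ B, ∀ y ∈ B, x ≠ y → ∃ l, Pth R {z | z ∈ B} x y l ∧ ℓB ≤ l.length)
    {x y : V} (hx : x ∈ A) (hy : y ∈ A) (hxy : x ≠ y) :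
    ∃ l, Pth R {z | z ∈ A ∨ z ∈ B ∨ ∃ k, z ∈ Lg k} x y l ∧ A.card + ℓB ≤ l.length := by
  obtain ⟨i, j, hij, hiy, hjx, hjy⟩ : ∃ i j, i ≠ j ∧ p i ≠ y ∧ p j ≠ x ∧ p j ≠ y := by
    obtain ⟨i, j, hij, hi, hj⟩ := two_term h.pinj y
    by_cases hix : p i = x
    · exact ⟨i, j, hij, hi, fun he => h.pinj i j hij (hix.trans he.symm), hj⟩
    · exact ⟨j, i, hij.symm, hj, hix, hi⟩
  obtain ⟨S, hS, hSl⟩ := hXA.short {p j, y} (Finset.card_le_two.trans hr2) x hx (p i) (h.pA i)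
    (by
      rw [Finset.mem_insert, Finset.mem_singleton]
      rintro (g | g)
      · exact hjx g.symm
      · exact hxy g) (by
      rw [Finset.mem_insert, Finset.mem_singleton]
      rintro (g | g)
      · exact h.pinj i j hij g
      · exact hiy g)
  have hSF : ∀ z ∈ S, z ≠ p j ∧ z ≠ y := fun z hz => by
    have := (hS.mem z hz).2
    rw [Finset.mem_insert, Finset.mem_singleton, not_or] at this
    exact this
  obtain ⟨b, hb, hbl⟩ := hlB (q i) (h.qB i) (q j) (h.qB j) (h.qinj i j hij)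
  obtain ⟨O, hO, hOA, hOl, -⟩ := h.outer hR hij hb (fun _ => 0)
  have hSc := List.toFinset_card_le S
  obtain ⟨l, hl, hll⟩ := hXA.cover S.toFinset (hSc.trans (hSl.trans hcr)) (p j)
    (h.pA j) y hy (by
      rw [List.mem_toFinset]
      exact fun g => (hSF _ g).1 rfl) (by
      rw [List.mem_toFinset]
      exact fun g => (hSF _ g).2 rfl) hjy
  have hlS : ∀ z ∈ l, z ∉ S := fun z hz g => (hl.mem z hz).2 (List.mem_toFinset.2 g)
  have J1 := hS.join hO (fun z hz hz' => by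
    rcases hOA z hz' (hS.mem z hz).1 with g | g
    · exact g
    · exact absurd g (hSF z hz).1)
  have J2 := J1.join hl (fun z hz hz' => by
    rcases hS.join_mem hO hz with g | g
    · exact absurd g (hlS z hz')
    · rcases hOA z g (hl.mem z hz').1 with g' | g'
      · exact absurd (g' ▸ hS.memv) (hlS z hz')
      · exact g')
  refine ⟨_, J2.mono fun z _ hz => ?_, ?_⟩
  · rcases hz with (g | g) | g
    · exact Or.inl g.1
    · exact Or.inr g
    · exact Or.inl g.1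
  · have e1 := hS.join_len hO
    have e2 := J1.join_len hl
    have e3 := hS.pos
    omega

theorem XB.cover0 [DecidableEq V] {R : V → V → Prop} {A : Finset V} {c r : ℕ} (h : XB R A c r)
    {x y : V} (hx : x ∈ A) (hy : y ∈ A) (hxy : x ≠ y) :
    ∃ l, Pth R {z | z ∈ A} x y l ∧ A.card ≤ l.length := by
  obtain ⟨l, h1, h2⟩ := h.cover ∅ (by simp) x hx y hy (by simp) (by simp) hxy
  exact ⟨l, h1.mono fun z _ hz => hz.1, by simpa using h2⟩

theorem pth_rcons {R : V → V → Prop} {π : V → ZMod 2} {A : Finset V} {S : Set V}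
    (hS : ∀ z ∈ S, z ∈ A) (hRG : ∀ a b, R a b → G.Adj a b)
    (hA : ∀ x ∈ A, ∀ y ∈ A, R x y → σ s(x, y) = π x + π y) {u v : V} {l : List V}
    (h : Pth R S u v l) : Pth (Cons G σ π) S u v l :=
  h.imp fun a b ha hb hab => ⟨hRG a b hab, hA a (hS a ha) b (hS b hb) hab⟩

theorem XB.toCons {R : V → V → Prop} {π : V → ZMod 2} {A : Finset V} {c r : ℕ} (h : XB R A c r)
    (hRG : ∀ a b, R a b → G.Adj a b)
    (hA : ∀ x ∈ A, ∀ y ∈ A, R x y → σ s(x, y) = π x + π y) : XB (Cons G σ π) A c r := by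
  refine ⟨fun F hF x hx y hy hxF hyF => ?_, fun F hF x hx y hy hxF hyF hxy => ?_⟩
  · obtain ⟨l, h1, h2⟩ := h.short F hF x hx y hy hxF hyF
    exact ⟨l, pth_rcons (fun z hz => hz.1) hRG hA h1, h2⟩
  · obtain ⟨l, h1, h2⟩ := h.cover F hF x hx y hy hxF hyF hxy
    exact ⟨l, pth_rcons (fun z hz => hz.1) hRG hA h1, h2⟩

/-- two exact robust sets with potentials, joined by three legs, force balance -/
theorem two_exact [DecidableEq V] [Finite V] (h2 : Two G) {A B : Finset V} {p q : Fin 3 → V}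
    {Lg : Fin 3 → List V} {cA cB rA rB m : ℕ} {t : ZMod 2} (h : Legs G.Adj A B p q Lg)
    {RA RB' : V → V → Prop} (hRA : ∀ a b, RA a b → G.Adj a b) (hRB : ∀ a b, RB' a b → G.Adj a b)
    (hA : XB RA A cA rA) (hB : XB RB' B cB rB) (hU : Uni G m σ t) (hm3 : 3 ≤ m)
    (hm : m ≤ A.card + B.card) (hcA : cA ≤ rA) (hcB : cB ≤ rB) (hrA : 2 ≤ rA) (hrB : 2 ≤ rB)
    {πA πB : V → ZMod 2} (hπA : ∀ x ∈ A, ∀ y ∈ A, RA x y → σ s(x, y) = πA x + πA y)
    (hπB : ∀ x ∈ B, ∀ y ∈ B, RB' x y → σ s(x, y) = πB x + πB y) :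
    t = 0 ∧ ∃ π : V → ZMod 2, ∀ x y, G.Adj x y → σ s(x, y) = π x + π y := by
  classical
  have hR : ∀ a b, G.Adj a b → G.Adj b a := fun a b hab => hab.symm
  have hB1 : 1 ≤ B.card := Finset.card_pos.2 ⟨_, h.qB 0⟩
  have key : ∀ i j, i ≠ j → (πA (p i) + πB (q i) + ls σ (Lg i)) +
      (πA (p j) + πB (q j) + ls σ (Lg j)) = t := by
    intro i j hij
    obtain ⟨b, hb, hbl⟩ := hB.cover0 (h.qB j) (h.qB i) (h.qinj j i hij.symm)
    obtain ⟨l, hl, hll⟩ := hA.cover0 (h.pA i) (h.pA j) (h.pinj i j hij)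
    have e := h.close hU hm hB1 hij (hl.imp fun a b _ _ hab => hRA a b hab)
      (hb.imp fun a b _ _ hab => hRB a b hab) hll hbl
    rw [pth_ls (pth_rcons (fun z hz => hz) hRA hπA hl),
      pth_ls (pth_rcons (fun z hz => hz) hRB hπB hb)] at e
    rw [← e]
    ring
  have h01 := key 0 1 (by decide)
  have h02 := key 0 2 (by decide)
  have h12 := key 1 2 (by decide)
  have h0 := two_self (πA (p 0) + πB (q 0) + ls σ (Lg 0))
  have h1 := two_self (πA (p 1) + πB (q 1) + ls σ (Lg 1))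
  have h2' := two_self (πA (p 2) + πB (q 2) + ls σ (Lg 2))
  have htt := two_self t
  have ht : t = 0 := by linear_combination h0 + h1 + h2' - h01 - h02 - h12 - htt
  have hval : ∀ i, πA (p i) + πB (q i) + ls σ (Lg i) = πA (p 0) + πB (q 0) + ls σ (Lg 0) := by
    intro i
    fin_cases i
    · rfl
    · change πA (p 1) + πB (q 1) + ls σ (Lg 1) = _
      linear_combination h01 - h0 + ht
    · change πA (p 2) + πB (q 2) + ls σ (Lg 2) = _
      linear_combination h02 - h0 + ht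
  refine ⟨ht, ?_⟩
  subst ht
  obtain ⟨κ, hκ⟩ : ∃ κ, κ = πA (p 0) + πB (q 0) + ls σ (Lg 0) := ⟨_, rfl⟩
  rw [← hκ] at hval
  obtain ⟨π, hπ, hch⟩ := h.pot (σ := σ) (fun z => if z ∈ B then πB z + κ else πA z) (by
    intro i
    rw [if_neg (h.dAB _ (h.pA i)), if_pos (h.qB i), ← hval i]
    have h1 := two_self (πA (p i))
    have h2 := two_self (πB (q i))
    linear_combination -h1 - h2)
  have hcA' : ∀ x ∈ A, ∀ y ∈ A, RA x y → σ s(x, y) = π x + π y := by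
    intro x hx y hy hxy
    rw [hπ x (Or.inl hx), hπ y (Or.inl hy)]
    rw [if_neg (h.dAB x hx), if_neg (h.dAB y hy)]
    exact hπA x hx y hy hxy
  have hcB' : ∀ x ∈ B, ∀ y ∈ B, RB' x y → σ s(x, y) = π x + π y := by
    intro x hx y hy hxy
    rw [hπ x (Or.inr hx), hπ y (Or.inr hy)]
    rw [if_pos hx, if_pos hy, hπB x hx y hy hxy]
    have := two_self κ
    linear_combination -this
  have hL : Legs (Cons G σ π) A B p q Lg :=
    ⟨fun i => ⟨(h.pth i).nd, hch i, (h.pth i).hd, (h.pth i).lt, (h.pth i).mem⟩, h.dis, h.pA,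
      h.qB, h.onA, h.onB, h.dAB⟩
  have hRc : ∀ a b, Cons G σ π a b → Cons G σ π b a := fun a b hab => hab.symm
  have hXA := hA.toCons hRA hcA'
  have hXB := hB.toCons hRB hcB'
  have hlA0 : ∀ x ∈ A, ∀ y ∈ A, x ≠ y →
      ∃ l, Pth (Cons G σ π) {z | z ∈ A} x y l ∧ A.card ≤ l.length := fun x hx y hy hxy =>
    hXA.cover0 hx hy hxy
  have hlB0 : ∀ x ∈ B, ∀ y ∈ B, x ≠ y →
      ∃ l, Pth (Cons G σ π) {z | z ∈ B} x y l ∧ B.card ≤ l.length := fun x hx y hy hxy =>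
    hXB.cover0 hx hy hxy
  refine ext_all h2 hm3 hU _ π {z | z ∈ A ∨ z ∈ B ∨ ∃ k, z ∈ Lg k} rfl
    ⟨p 0, Or.inl (h.pA 0), q 0, Or.inr (Or.inl (h.qB 0)), h.pq 0⟩ ?_
  intro x hx y hy hxy
  obtain ⟨l, hl, hll⟩ := hL.all' hRc hlA0 hlB0
    (fun x hx y hy hxy => hL.link2x hRc hcA hrA hXA hlB0 hx hy hxy)
    (fun x hx y hy hxy => by
      obtain ⟨l, h1, h2⟩ := (hL.swap hRc).link2x hRc hcB hrB hXB hlA0 hx hy hxy
      refine ⟨l, h1.mono fun z _ hz => ?_, by omega⟩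
      rcases hz with g | g | ⟨k, g⟩
      · exact Or.inr (Or.inl g)
      · exact Or.inl g
      · exact Or.inr (Or.inr ⟨k, List.mem_reverse.1 g⟩)) hx hy hxy
  exact ⟨l, hl.nd, hl.ch, hl.hd, hl.lt, hl.mem, by omega⟩

end Run7.h807
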