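import Mathlib
import Pool.Agent.Run7.h807.Xb1

set_option autoImplicit false

namespace Run7.h807

variable {V : Type*} {G : SimpleGraph V} [DecidableEq V] {σ : Sym2 V → ZMod 2} {A : Finset V}
  {p : Fin 3 → V}

omit [DecidableEq V] in
theorem card_bound [DecidableEq V] {F : Finset V} {X : List V} {v n : V} (hv : v ∈ X)
    (hF : ∀ z ∈ F, z ≠ v ∧ (z ∈ X ∨ z = n)) : F.card ≤ X.length := by
  have h1 : F ⊆ (insert n X.toFinset).erase v := by
    intro z hz
    rw [Finset.mem_erase, Finset.mem_insert, List.mem_toFinset]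
    exact ⟨(hF z hz).1, (hF z hz).2.symm⟩
  have h2 := Finset.card_le_card h1
  rw [Finset.card_erase_of_mem (Finset.mem_insert_of_mem (List.mem_toFinset.2 hv))] at h2
  have h3 := Finset.card_insert_le n X.toFinset
  have h4 := List.toFinset_card_le X
  omega

theorem xb_U {R : V → V → Prop} (hRG : ∀ a b, R a b → G.Adj a b) {cc r : ℕ} (hX : XB R A cc r)
    (hC : Cst G σ A p (A.card - 1)) (hpA : ∀ i, p i ∈ A) {i j : Fin 3} (hij : i ≠ j)
    {S N N' : List V} {u v n n' : V} (hS : Pth G.Adj {z | z ∈ A} (p i) u S)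
    (hN : Pth G.Adj {z | z ∈ A} u v N) (hN' : Pth G.Adj {z | z ∈ A} u v N')
    (hSN : ∀ z ∈ S, z ∈ N → z = u) (hSN' : ∀ z ∈ S, z ∈ N' → z = u) (hjS : p j ∉ S)
    (hjN : p j ∉ N) (hjN' : p j ∉ N') (h1 : ∀ z ∈ N', z ∈ N ∨ z = n')
    (h2 : ∀ z ∈ N, z ∈ N' ∨ z = n) (hr : S.length + N.length + N'.length ≤ r) :
    ls σ N = ls σ N' := by
  obtain ⟨F, hF⟩ : ∃ F : Finset V, F = (S ++ (N ++ N')).toFinset.erase v := ⟨_, rfl⟩
  have hFm : ∀ z, z ∈ F ↔ z ≠ v ∧ (z ∈ S ∨ z ∈ N ∨ z ∈ N') := fun z => by
    rw [hF, Finset.mem_erase, List.mem_toFinset, List.mem_append, List.mem_append]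
  have hcard : F.card ≤ r := by
    rw [hF]
    refine (Finset.card_le_card (Finset.erase_subset _ _)).trans ?_
    refine (List.toFinset_card_le _).trans ?_
    rw [List.length_append, List.length_append]
    omega
  obtain ⟨l, hl0, hlen⟩ := hX.cover F hcard v (hN.mem v hN.memv) (p j) (hpA j)
    (fun h => ((hFm v).1 h).1 rfl) (by
      rw [hFm]
      rintro ⟨-, h | h | h⟩
      · exact hjS h
      · exact hjN h
      · exact hjN' h) (fun h => hjN (h ▸ hN.memv))
  have hl : Pth G.Adj {z | z ∈ A ∧ z ∉ F} v (p j) l := hl0.imp fun a b _ _ hab => hRG a b hab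
  have hout : ∀ z ∈ l, (z ∈ S ∨ z ∈ N ∨ z ∈ N') → z = v := by
    intro z hz h
    by_contra hne
    exact (hl.mem z hz).2 ((hFm z).2 ⟨hne, h⟩)
  have g1 := hS.join hN hSN
  have g1' := hS.join hN' hSN'
  have g2 := g1.join hl (fun z hz hz' => hout z hz' (by
    rcases hS.join_mem hN hz with h | h
    · exact Or.inl h
    · exact Or.inr (Or.inl h)))
  have g2' := g1'.join hl (fun z hz hz' => hout z hz' (by
    rcases hS.join_mem hN' hz with h | h
    · exact Or.inl h
    · exact Or.inr (Or.inr h)))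
  have memJ : ∀ {M : List V}, Pth G.Adj {z | z ∈ A} u v M → ∀ z, z ∈ S ∨ z ∈ M →
      z ∈ S ++ M.tail := by
    intro M hM z hz
    rw [List.mem_append]
    rcases hz with hz | hz
    · exact Or.inl hz
    · rw [hM.cons_eq] at hz
      rcases List.mem_cons.1 hz with rfl | hz
      · exact Or.inl hS.memv
      · exact Or.inr hz
  have hFN : F.card ≤ (S ++ N.tail).length := by
    refine card_bound (v := v) (n := n') (memJ hN v (Or.inr hN.memv)) fun z hz => ?_
    have := (hFm z).1 hz
    refine ⟨this.1, ?_⟩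
    rcases this.2 with h | h | h
    · exact Or.inl (memJ hN z (Or.inl h))
    · exact Or.inl (memJ hN z (Or.inr h))
    · rcases h1 z h with h | h
      · exact Or.inl (memJ hN z (Or.inr h))
      · exact Or.inr h
  have hFN' : F.card ≤ (S ++ N'.tail).length := by
    refine card_bound (v := v) (n := n) (memJ hN' v (Or.inr hN'.memv)) fun z hz => ?_
    have := (hFm z).1 hz
    refine ⟨this.1, ?_⟩
    rcases this.2 with h | h | h
    · exact Or.inl (memJ hN' z (Or.inl h))
    · rcases h2 z h with h | h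
      · exact Or.inl (memJ hN' z (Or.inr h))
      · exact Or.inr h
    · exact Or.inl (memJ hN' z (Or.inr h))
  have e := hC i j hij _ _ (g2.mono fun z _ hz => by
      rcases hz with (h | h) | h
      · exact h
      · exact h
      · exact h.1) (g2'.mono fun z _ hz => by
      rcases hz with (h | h) | h
      · exact h
      · exact h
      · exact h.1) (by
      have := g1.join_len hl
      omega) (by
      have := g1'.join_len hl
      omega)
  rw [g1.join_ls σ hl, g1'.join_ls σ hl, hS.join_ls σ hN, hS.join_ls σ hN'] at e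
  linear_combination e

theorem two_list {S : Set V} {a b : V} (hab : G.Adj a b) (ha : a ∈ S) (hb : b ∈ S) :
    Pth G.Adj S a b [a, b] :=
  ⟨by simpa using hab.ne, by simpa using hab, rfl, rfl, by
    intro z hz
    simp only [List.mem_cons, List.not_mem_nil, or_false] at hz
    rcases hz with rfl | rfl
    · exact ha
    · exact hb⟩

theorem three_list {S : Set V} {a b c : V} (hab : G.Adj a b) (hbc : G.Adj b c) (hac : a ≠ c)
    (ha : a ∈ S) (hb : b ∈ S) (hc : c ∈ S) : Pth G.Adj S a c [a, b, c] :=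
  ⟨by simp [hab.ne, hbc.ne, hac], by simp [hab, hbc], rfl, rfl, by
    intro z hz
    simp only [List.mem_cons, List.not_mem_nil, or_false] at hz
    rcases hz with rfl | rfl | rfl
    · exact ha
    · exact hb
    · exact hc⟩

variable [DecidableRel G.Adj] {B E : Finset V} {w c e : ℕ}

/-- a potential on an extended near-clique, from slack one -/
theorem NA.pot1 (h : NA G B E w c e) {r : ℕ} (hX : XB (RB G B) (B ∪ E) 5 r) (hr : 12 ≤ r)
    (hc : 3 + 2 * w < c) (hcB : c + w ≤ B.card)
    (hC : Cst G σ (B ∪ E) p ((B ∪ E).card - 1)) (hpA : ∀ i, p i ∈ B ∪ E)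
    (hinj : ∀ i j, i ≠ j → p i ≠ p j) :
    ∃ π : V → ZMod 2, ∀ x ∈ B ∪ E, ∀ y ∈ B ∪ E, RB G B x y → σ s(x, y) = π x + π y := by
  classical
  obtain ⟨T, hT⟩ : ∃ T : Finset V, T = {p 0, p 1, p 2} := ⟨_, rfl⟩
  have hT3 : T.card ≤ 3 := by rw [hT]; exact Finset.card_le_three
  have hpT : ∀ i, p i ∈ T := by
    intro i
    rw [hT]
    fin_cases i <;> simp
  obtain ⟨b0, hb0, hb0T⟩ := Finset.exists_mem_notMem_of_card_lt_card (s := T) (t := B) (by omega)
  have hb0A : b0 ∈ B ∪ E := Finset.mem_union_left _ hb0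
  have hp0 : ∀ i, p i ≠ b0 := fun i h => hb0T (h ▸ hpT i)
  have hBA : ∀ z ∈ B, z ∈ B ∪ E := fun z hz => Finset.mem_union_left _ hz
  have hRG : ∀ a b, RB G B a b → G.Adj a b := fun a b hab => hab.1
  -- well-definedness
  have WD : ∀ v ∈ B ∪ E, ∀ a ∈ B, ∀ a' ∈ B, a ∉ T → a' ∉ T → G.Adj v a → G.Adj b0 a →
      G.Adj v a' → G.Adj b0 a' → σ s(b0, a) + σ s(a, v) = σ s(b0, a') + σ s(a', v) := by
    intro v hv a ha a' ha' haT ha'T hva hba hva' hba'
    by_cases hvb : v = b0
    · subst hvb
      rw [Sym2.eq_swap (a := a), Sym2.eq_swap (a := a'), two_self, two_self]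
    by_cases haa : a = a'
    · rw [haa]
    obtain ⟨i, j, hij, hi, hj⟩ := two_term hinj v
    obtain ⟨S, hS, hSl⟩ := hX.short {a, a', v, p j} (Finset.card_le_four.trans (by omega)) (p i)
      (hpA i) b0 hb0A (by
        simp only [Finset.mem_insert, Finset.mem_singleton, not_or]
        exact ⟨fun g => haT (g ▸ hpT i), fun g => ha'T (g ▸ hpT i), hi, hinj i j hij⟩) (by
        simp only [Finset.mem_insert, Finset.mem_singleton, not_or]
        exact ⟨hba.ne, hba'.ne, fun g => hvb g.symm, (hp0 j).symm⟩)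
    have hSm : ∀ z ∈ S, z ≠ a ∧ z ≠ a' ∧ z ≠ v ∧ z ≠ p j := by
      intro z hz
      have := (hS.mem z hz).2
      simp only [Finset.mem_insert, Finset.mem_singleton, not_or] at this
      exact this
    have key := xb_U (u := b0) (v := v) (n := a) (n' := a') hRG hX hC hpA hij
      ((hS.imp fun a b _ _ hab => hRG a b hab).mono fun z _ hz => hz.1)
      (three_list (S := {z | z ∈ B ∪ E}) hba hva.symm (fun g => hvb g.symm) hb0A (hBA a ha) hv)
      (three_list (S := {z | z ∈ B ∪ E}) hba' hva'.symm (fun g => hvb g.symm) hb0A (hBA a' ha') hv)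
      (fun z hz hz' => by
        simp only [List.mem_cons, List.not_mem_nil, or_false] at hz'
        rcases hz' with g | g | g
        · exact g
        · exact absurd g (hSm z hz).1
        · exact absurd g (hSm z hz).2.2.1)
      (fun z hz hz' => by
        simp only [List.mem_cons, List.not_mem_nil, or_false] at hz'
        rcases hz' with g | g | g
        · exact g
        · exact absurd g (hSm z hz).2.1
        · exact absurd g (hSm z hz).2.2.1)
      (fun g => (hSm _ g).2.2.2 rfl)
      (by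
        simp only [List.mem_cons, List.not_mem_nil, or_false, not_or]
        exact ⟨hp0 j, fun g => haT (g ▸ hpT j), hj⟩)
      (by
        simp only [List.mem_cons, List.not_mem_nil, or_false, not_or]
        exact ⟨hp0 j, fun g => ha'T (g ▸ hpT j), hj⟩)
      (fun z hz => by
        simp only [List.mem_cons, List.not_mem_nil, or_false] at hz ⊢
        tauto)
      (fun z hz => by
        simp only [List.mem_cons, List.not_mem_nil, or_false] at hz ⊢
        tauto)
      (by simp only [List.length_cons, List.length_nil]; omega)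
    simpa using key
  obtain ⟨π, hπ⟩ : ∃ π : V → ZMod 2, ∀ v ∈ B ∪ E, ∀ a ∈ B, a ∉ T → G.Adj v a → G.Adj b0 a →
      π v = σ s(b0, a) + σ s(a, v) := by
    have hex : ∀ v ∈ B ∪ E, ∃ a ∈ B, G.Adj v a ∧ G.Adj b0 a ∧ a ∉ T := by
      intro v hv
      obtain ⟨a, g1, g2, g3, -, g5⟩ := h.common (F := T) (h.dg hcB hv) hb0 hb0 (by omega)
      exact ⟨a, g1, g2, g3, g5⟩
    refine ⟨fun v => if hv : v ∈ B ∪ E then σ s(b0, (hex v hv).choose) +
      σ s((hex v hv).choose, v) else 0, fun v hv a ha haT hva hba => ?_⟩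
    simp only [dif_pos hv]
    have h1 := (hex v hv).choose_spec
    exact WD v hv _ h1.1 a ha h1.2.2.2 haT h1.2.1 h1.2.2.1 hva hba
  -- edges
  have hedge : ∀ v ∈ B ∪ E, ∀ w ∈ B, G.Adj v w → σ s(v, w) = π v + π w := by
    intro v hv x hx hvx
    obtain ⟨a, ha, hva, hb0a, hxa, haT⟩ := h.common (F := T) (h.dg hcB hv) hb0 hx (by omega)
    rw [hπ v hv a ha haT hva hb0a, hπ x (hBA x hx) a ha haT hxa hb0a]
    obtain ⟨i, j, hij, hix, hjv, hjx⟩ : ∃ i j, i ≠ j ∧ p i ≠ x ∧ p j ≠ v ∧ p j ≠ x := by
      obtain ⟨i, j, hij, hi, hj⟩ := two_term hinj x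
      by_cases hix : p i = v
      · exact ⟨i, j, hij, hi, fun he => hinj i j hij (hix.trans he.symm), hj⟩
      · exact ⟨j, i, hij.symm, hj, hix, hi⟩
    obtain ⟨S, hS, hSl⟩ := hX.short {x, a, p j} (Finset.card_le_three.trans (by omega)) (p i)
      (hpA i) v hv (by
        simp only [Finset.mem_insert, Finset.mem_singleton, not_or]
        exact ⟨hix, fun g => haT (g ▸ hpT i), hinj i j hij⟩) (by
        simp only [Finset.mem_insert, Finset.mem_singleton, not_or]
        exact ⟨hvx.ne, hva.ne, hjv.symm⟩)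
    have hSm : ∀ z ∈ S, z ≠ x ∧ z ≠ a ∧ z ≠ p j := by
      intro z hz
      have := (hS.mem z hz).2
      simp only [Finset.mem_insert, Finset.mem_singleton, not_or] at this
      exact this
    have key := xb_U (u := v) (v := x) (n := v) (n' := a) hRG hX hC hpA hij
      ((hS.imp fun a b _ _ hab => hRG a b hab).mono fun z _ hz => hz.1)
      (two_list (S := {z | z ∈ B ∪ E}) hvx hv (hBA x hx))
      (three_list (S := {z | z ∈ B ∪ E}) hva hxa.symm hvx.ne hv (hBA a ha) (hBA x hx))
      (fun z hz hz' => by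
        simp only [List.mem_cons, List.not_mem_nil, or_false] at hz'
        rcases hz' with g | g
        · exact g
        · exact absurd g (hSm z hz).1)
      (fun z hz hz' => by
        simp only [List.mem_cons, List.not_mem_nil, or_false] at hz'
        rcases hz' with g | g | g
        · exact g
        · exact absurd g (hSm z hz).2.1
        · exact absurd g (hSm z hz).1)
      (fun g => (hSm _ g).2.2 rfl)
      (by
        simp only [List.mem_cons, List.not_mem_nil, or_false, not_or]
        exact ⟨hjv, hjx⟩)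
      (by
        simp only [List.mem_cons, List.not_mem_nil, or_false, not_or]
        exact ⟨hjv, fun g => haT (g ▸ hpT j), hjx⟩)
      (fun z hz => by
        simp only [List.mem_cons, List.not_mem_nil, or_false] at hz ⊢
        tauto)
      (fun z hz => by
        simp only [List.mem_cons, List.not_mem_nil, or_false] at hz ⊢
        tauto)
      (by simp only [List.length_cons, List.length_nil]; omega)
    have key' : σ s(v, x) = σ s(v, a) + σ s(a, x) := by simpa using key
    rw [key', Sym2.eq_swap (a := v) (b := a)]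
    have := two_self (σ s(b0, a))
    linear_combination -this
  refine ⟨π, fun x hx y hy hxy => ?_⟩
  rcases hxy.2 with g | g
  · rw [Sym2.eq_swap, add_comm]
    exact hedge y hy x g hxy.1.symm
  · exact hedge x hx y g hxy.1

end Run7.h807
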