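import Mathlib
import Pool.Agent.Run7.h807.Pr2

set_option autoImplicit false

namespace Run7.h807

variable {V : Type*} {G : SimpleGraph V} [DecidableEq V] {σ : Sym2 V → ZMod 2} {A : Finset V}

theorem potG_U {R : V → V → Prop} (hRG : ∀ a b, R a b → G.Adj a b) {c r : ℕ} (hX : XB R A c r)
    {u w : V} (hwA : w ∈ A)
    (hC : ∀ l l', Pth G.Adj {z | z ∈ A} u w l → Pth G.Adj {z | z ∈ A} u w l' →
      A.card ≤ l.length + r → A.card ≤ l'.length + r → ls σ l = ls σ l')
    {S N N' : List V} {a v : V} (hS : Pth G.Adj {z | z ∈ A} u a S)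
    (hN : Pth G.Adj {z | z ∈ A} a v N) (hN' : Pth G.Adj {z | z ∈ A} a v N')
    (hSN : ∀ z ∈ S, z ∈ N → z = a) (hSN' : ∀ z ∈ S, z ∈ N' → z = a) (hwS : w ∉ S)
    (hwN : w ∉ N) (hwN' : w ∉ N') (hr : S.length + N.length + N'.length ≤ r) :
    ls σ N = ls σ N' := by
  have hcard : ((S ++ (N ++ N')).toFinset.erase v).card ≤ r := by
    refine (Finset.card_le_card (Finset.erase_subset _ _)).trans ?_
    refine (List.toFinset_card_le _).trans ?_
    rw [List.length_append, List.length_append]
    omega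
  obtain ⟨l, hl0, hlen⟩ := hX.cover _ hcard v (hN.mem v hN.memv) w hwA
    (by simp) (by
      rw [Finset.mem_erase, List.mem_toFinset, List.mem_append, List.mem_append]
      rintro ⟨-, h | h | h⟩
      · exact hwS h
      · exact hwN h
      · exact hwN' h) (fun h => hwN (h ▸ hN.memv))
  have hl : Pth G.Adj {z | z ∈ A ∧ z ∉ (S ++ (N ++ N')).toFinset.erase v} v w l :=
    hl0.imp fun a b _ _ hab => hRG a b hab
  have hout : ∀ z ∈ l, (z ∈ S ∨ z ∈ N ∨ z ∈ N') → z = v := by
    intro z hz h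
    by_contra hne
    refine (hl.mem z hz).2 ?_
    rw [Finset.mem_erase, List.mem_toFinset, List.mem_append, List.mem_append]
    exact ⟨hne, h⟩
  have h1 := hS.join hN hSN
  have h1' := hS.join hN' hSN'
  have h2 := h1.join hl (fun z hz hz' => hout z hz' (by
    rcases hS.join_mem hN hz with h | h
    · exact Or.inl h
    · exact Or.inr (Or.inl h)))
  have h2' := h1'.join hl (fun z hz hz' => hout z hz' (by
    rcases hS.join_mem hN' hz with h | h
    · exact Or.inl h
    · exact Or.inr (Or.inr h)))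
  have e := hC _ _ (h2.mono fun z _ hz => by
      rcases hz with (h | h) | h
      · exact h
      · exact h
      · exact h.1) (h2'.mono fun z _ hz => by
      rcases hz with (h | h) | h
      · exact h
      · exact h
      · exact h.1) (by
      have := h1.join_len hl
      have := h1.pos
      omega) (by
      have := h1'.join_len hl
      have := h1'.pos
      omega)
  rw [h1.join_ls σ hl, h1'.join_ls σ hl, hS.join_ls σ hN, hS.join_ls σ hN'] at e
  linear_combination e

/-- a potential from constancy for a system of pairs of terminals -/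
theorem blob_potG {R : V → V → Prop} (hRG : ∀ a b, R a b → G.Adj a b) {c r : ℕ}
    (hX : XB R A c r) {T : V → V → Prop}
    (hC : ∀ u w, T u w → ∀ l l', Pth G.Adj {z | z ∈ A} u w l → Pth G.Adj {z | z ∈ A} u w l' →
      A.card ≤ l.length + r → A.card ≤ l'.length + r → ls σ l = ls σ l')
    {Tm : Finset V} (hTm : Tm.card ≤ 4) (hTA : ∀ u ∈ Tm, u ∈ A)
    (hT : ∀ u w, T u w → u ∈ Tm ∧ w ∈ Tm ∧ u ≠ w)
    (c1 : ∀ v, ∃ u w, T u w ∧ u ≠ v ∧ w ≠ v)
    (c2 : ∀ x ∈ Tm, ∀ y ∈ Tm, x ≠ y →
      (∃ u w, T u w ∧ u ≠ x ∧ u ≠ y ∧ w ≠ x ∧ w ≠ y) ∨ (∃ w, T x w ∧ w ≠ y) ∨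
        (∃ w, T y w ∧ w ≠ x))
    (h5 : 5 ≤ A.card) (hr : 3 * c + 4 ≤ r) (hc1 : 1 ≤ c) :
    ∃ π : V → ZMod 2, ∀ x ∈ A, ∀ y ∈ A, G.Adj x y → σ s(x, y) = π x + π y := by
  classical
  have hR : ∀ a b, G.Adj a b → G.Adj b a := fun a b h => h.symm
  obtain ⟨p0, hp0, hp0T⟩ := Finset.exists_mem_notMem_of_card_lt_card (s := Tm) (t := A) (by omega)
  have hp0i : ∀ k ∈ Tm, k ≠ p0 := fun k hk h => hp0T (h ▸ hk)
  -- comparison of two paths from the base
  have WD0 : ∀ (v u w : V) (N N' : List V), T u w → Pth G.Adj {z | z ∈ A} p0 v N →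
      Pth G.Adj {z | z ∈ A} p0 v N' → N.length ≤ c + 1 → N'.length ≤ c + 1 →
      u ∉ N → u ∉ N' → w ∉ N → w ∉ N' → ls σ N = ls σ N' := by
    intro v u w N N' hTuw hN hN' hl hl' hu hu' hw hw'
    obtain ⟨huT, hwT, huw⟩ := hT u w hTuw
    have hFc : (insert w ((N ++ N').toFinset.erase p0)).card ≤ r := by
      refine (Finset.card_insert_le _ _).trans ?_
      have h1 := (Finset.card_le_card (Finset.erase_subset p0 (N ++ N').toFinset)).trans
        (List.toFinset_card_le _)
      rw [List.length_append] at h1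
      omega
    obtain ⟨S, hS, hSl⟩ := hX.short _ hFc u (hTA u huT) p0 hp0 (by
      rw [Finset.mem_insert, Finset.mem_erase, List.mem_toFinset, List.mem_append]
      rintro (h | ⟨-, h | h⟩)
      · exact huw h
      · exact hu h
      · exact hu' h) (by
      rw [Finset.mem_insert]
      rintro (h | h)
      · exact hp0i w hwT h.symm
      · simp at h)
    have hSm : ∀ z ∈ S, (z ∈ N ∨ z ∈ N') → z = p0 := by
      intro z hz h
      by_contra hne
      refine (hS.mem z hz).2 ?_
      rw [Finset.mem_insert, Finset.mem_erase, List.mem_toFinset, List.mem_append]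
      exact Or.inr ⟨hne, h⟩
    exact potG_U hRG hX (hTA w hwT) (hC u w hTuw)
      ((hS.imp fun a b _ _ hab => hRG a b hab).mono fun z _ hz => hz.1) hN hN'
      (fun z hz h => hSm z hz (Or.inl h)) (fun z hz h => hSm z hz (Or.inr h))
      (fun h => (hS.mem _ h).2 (Finset.mem_insert_self _ _)) hw hw' (by omega)
  have WD : ∀ (v : V) (N N' : List V), Pth G.Adj {z | z ∈ A} p0 v N →
      Pth G.Adj {z | z ∈ A} p0 v N' → N.length ≤ c + 1 → N'.length ≤ c + 1 →
      (∀ k ∈ Tm, k ∈ N → k = v) → (∀ k ∈ Tm, k ∈ N' → k = v) → ls σ N = ls σ N' := by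
    intro v N N' hN hN' hl hl' ht ht'
    obtain ⟨u, w, hTuw, hu, hw⟩ := c1 v
    obtain ⟨huT, hwT, huw⟩ := hT u w hTuw
    exact WD0 v u w N N' hTuw hN hN' hl hl' (fun h => hu (ht u huT h)) (fun h => hu (ht' u huT h))
      (fun h => hw (ht w hwT h)) (fun h => hw (ht' w hwT h))
  -- short paths from the base
  have hbase : ∀ v ∈ A, ∀ w, w ≠ p0 → w ≠ v → ∃ N, Pth G.Adj {z | z ∈ A} p0 v N ∧
      N.length ≤ c ∧ (∀ k ∈ Tm, k ∈ N → k = v) ∧ w ∉ N := by
    intro v hv w hw hwv
    obtain ⟨N, hN, hNl⟩ := hX.short ((insert w Tm).erase v) (by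
      have h1 := Finset.card_le_card (Finset.erase_subset v (insert w Tm))
      have h2 := Finset.card_insert_le w Tm
      omega) p0 hp0 v hv (by
      rw [Finset.mem_erase, Finset.mem_insert]
      rintro ⟨-, h | h⟩
      · exact hw h.symm
      · exact hp0T h) (by simp)
    refine ⟨N, (hN.imp fun a b _ _ hab => hRG a b hab).mono fun z _ hz => hz.1, hNl,
      fun k hkT hk => ?_, fun hwN => ?_⟩
    · by_contra hne
      refine (hN.mem _ hk).2 ?_
      rw [Finset.mem_erase, Finset.mem_insert]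
      exact ⟨hne, Or.inr hkT⟩
    · refine (hN.mem _ hwN).2 ?_
      rw [Finset.mem_erase, Finset.mem_insert]
      exact ⟨hwv, Or.inl rfl⟩
  have hbase' : ∀ v ∈ A, ∃ N, Pth G.Adj {z | z ∈ A} p0 v N ∧ N.length ≤ c ∧
      ∀ k ∈ Tm, k ∈ N → k = v := by
    intro v hv
    obtain ⟨u, w, hTuw, hu, -⟩ := c1 v
    obtain ⟨N, h1, h2, h3, -⟩ := hbase v hv u (hp0i u (hT u w hTuw).1) hu
    exact ⟨N, h1, h2, h3⟩
  obtain ⟨π, hπ⟩ : ∃ π : V → ZMod 2, ∀ v ∈ A, ∀ N, Pth G.Adj {z | z ∈ A} p0 v N →
      N.length ≤ c + 1 → (∀ k ∈ Tm, k ∈ N → k = v) → ls σ N = π v := by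
    refine ⟨fun v => if h : v ∈ A then ls σ (hbase' v h).choose else 0, fun v hv N hN hNl hNt => ?_⟩
    simp only [dif_pos hv]
    have h1 := (hbase' v hv).choose_spec
    exact WD v _ _ hN h1.1 hNl (by omega) hNt h1.2.2
  -- extending a path by one edge
  have hext : ∀ v w (N : List V), Pth G.Adj {z | z ∈ A} p0 v N → w ∈ A → G.Adj v w → w ∉ N →
      Pth G.Adj {z | z ∈ A} p0 w (N ++ [w]) ∧ ls σ (N ++ [w]) = ls σ N + σ s(v, w) := by
    intro v w N hN hw hvw hwN
    have hN2 := two_list (S := {z | z ∈ A}) hvw (hN.mem v hN.memv) hw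
    have hdisj : ∀ z ∈ N, z ∈ [v, w] → z = v := by
      intro z hz hz'
      simp only [List.mem_cons, List.not_mem_nil, or_false] at hz'
      rcases hz' with rfl | rfl
      · rfl
      · exact absurd hz hwN
    refine ⟨(hN.join hN2 hdisj).mono fun z _ hz => ?_, ?_⟩
    · rcases hz with h | h <;> exact h
    · have := hN.join_ls σ hN2
      simpa using this
  -- the generic edge
  have hgen : ∀ v ∈ A, ∀ w ∈ A, G.Adj v w → v ∉ Tm → w ≠ p0 → σ s(v, w) = π v + π w := by
    intro v hv w hw hvw hvt hw0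
    obtain ⟨N, hN, hNl, hNt, hwN⟩ := hbase v hv w hw0 hvw.ne'
    obtain ⟨hj, hjs⟩ := hext v w N hN hw hvw hwN
    have e1 := hπ v hv N hN (by omega) hNt
    have e2 := hπ w hw _ hj (by
      rw [List.length_append, List.length_singleton]
      omega) (by
      intro k hkT hk
      rw [List.mem_append, List.mem_singleton] at hk
      rcases hk with h | h
      · exact absurd ((hNt k hkT h) ▸ hkT) hvt
      · exact h)
    rw [hjs, e1] at e2
    rw [← e2]
    have := two_self (π v)
    linear_combination -this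
  -- an edge between terminals, started at `x`
  have hterm : ∀ x ∈ Tm, ∀ y ∈ Tm, G.Adj x y → (∃ w, T x w ∧ w ≠ y) →
      σ s(x, y) = π x + π y := by
    rintro x hxT y hyT hxy ⟨w, hTxw, hwy⟩
    have hx := hTA x hxT
    have hy := hTA y hyT
    obtain ⟨-, hwT, hxw⟩ := hT x w hTxw
    obtain ⟨Nx, hNx, hNxl, hNxt⟩ := hbase' x hx
    obtain ⟨Ny, hNy, hNyl, hNyt⟩ := hbase' y hy
    have hxNy : x ∉ Ny := fun h => hxy.ne (hNyt x hxT h)
    have hN2 := two_list (S := {z | z ∈ A}) hxy hx hy
    have hdisj : ∀ z ∈ [x, y], z ∈ Ny.reverse → z = y := by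
      intro z hz hz'
      simp only [List.mem_cons, List.not_mem_nil, or_false] at hz
      rcases hz with rfl | rfl
      · exact absurd (List.mem_reverse.1 hz') hxNy
      · rfl
    have hj1 := hN2.join (hNy.rev hR) hdisj
    have hmono : Pth G.Adj {z | z ∈ A} x p0 ([x, y] ++ Ny.reverse.tail) :=
      hj1.mono fun z _ hz => by
        rcases hz with h | h <;> exact h
    have hSx : Pth G.Adj {z | z ∈ A} x x [x] := Pth.single hx
    have e := potG_U hRG hX (hTA w hwT) (hC x w hTxw) hSx hmono (hNx.rev hR)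
      (fun z hz _ => by simpa using hz) (fun z hz _ => by simpa using hz)
      (by simpa using hxw.symm) (by
        intro h
        rcases hN2.join_mem (hNy.rev hR) h with h | h
        · simp only [List.mem_cons, List.not_mem_nil, or_false] at h
          rcases h with h | h
          · exact hxw h.symm
          · exact hwy h
        · exact hwy (hNyt w hwT (List.mem_reverse.1 h)))
      (by
        intro h
        exact hxw (hNxt w hwT (List.mem_reverse.1 h)).symm)
      (by
        have h1 := hN2.join_len (hNy.rev hR)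
        simp only [List.length_cons, List.length_nil, List.length_reverse] at h1 ⊢
        omega)
    rw [hN2.join_ls σ (hNy.rev hR), ls_reverse, ls_reverse] at e
    have e1 := hπ _ hx Nx hNx (by omega) hNxt
    have e2 := hπ _ hy Ny hNy (by omega) hNyt
    have e3 : ls σ [x, y] = σ s(x, y) := by simp
    rw [e3, e1, e2] at e
    have := two_self (π y)
    linear_combination e - this
  refine ⟨π, ?_⟩
  intro x hx y hy hxy
  by_cases hy0 : y = p0
  · subst hy0
    rw [Sym2.eq_swap, add_comm]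
    exact hgen _ hy x hx hxy.symm hp0T hxy.ne
  by_cases hxt : x ∉ Tm
  · exact hgen x hx y hy hxy hxt hy0
  push Not at hxt
  by_cases hyt : y ∉ Tm
  · rw [Sym2.eq_swap, add_comm]
    exact hgen y hy x hx hxy.symm hyt (hp0i x hxt)
  push Not at hyt
  rcases c2 x hxt y hyt hxy.ne with ⟨u, w, hTuw, hux, huy, hwx, hwy⟩ | h | h
  · obtain ⟨huT, hwT, huw⟩ := hT u w hTuw
    obtain ⟨Nx, hNx, hNxl, hNxt⟩ := hbase' x hx
    obtain ⟨Ny, hNy, hNyl, hNyt⟩ := hbase' y hy
    have hyNx : y ∉ Nx := fun h => hxy.ne (hNxt y hyt h).symm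
    obtain ⟨hj, hjs⟩ := hext x y Nx hNx hy hxy hyNx
    have key := WD0 y u w (Nx ++ [y]) Ny hTuw hj hNy (by
      rw [List.length_append, List.length_singleton]
      omega) (by omega) (by
      rw [List.mem_append, List.mem_singleton]
      rintro (h | h)
      · exact hux (hNxt u huT h)
      · exact huy h) (fun h => huy (hNyt u huT h)) (by
      rw [List.mem_append, List.mem_singleton]
      rintro (h | h)
      · exact hwx (hNxt w hwT h)
      · exact hwy h) (fun h => hwy (hNyt w hwT h))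
    rw [hjs, hπ x hx Nx hNx (by omega) hNxt, hπ y hy Ny hNy (by omega) hNyt] at key
    have := two_self (π x)
    linear_combination key - this
  · exact hterm x hxt y hyt hxy h
  · rw [Sym2.eq_swap, add_comm]
    exact hterm y hyt x hxt hxy.symm h

end Run7.h807
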