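import Mathlib
import Pool.Agent.Run7.h807.Tri5

set_option autoImplicit false

namespace Run7.h807

variable {V : Type*} {G : SimpleGraph V} [DecidableEq V] [DecidableRel G.Adj] [Fintype V]
  {d : ℕ} {B Z : Fin 3 → Finset V} {σ : Sym2 V → ZMod 2} {t : ZMod 2} {L : ℕ}

/-- at least four common attached vertices for all pairs -/
theorem Trio.four_false (h : Trio G d B Z) (hdeg : ∀ v, d ≤ G.degree v) (hd : 1200000 ≤ d)
    (h2 : Two G) {l : List V} (hl : Cyc G σ (t + 1) l)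
    (hU : Uni G (L + 1) σ t) (hL2 : L + 2 ≤ 2 * d) (hL3 : 3 ≤ L) {s : Fin 3 → V → ZMod 2}
    (hs : Pots G σ B Z s)
    (hC : ∀ i j, i ≠ j → 3 < (Zat G (B i) (Z i) 3200 ∩ Zat G (B j) (Z j) 3200).card) : False := by
  classical
  have hconst : ∀ i j k : Fin 3, i ≠ j → j ≠ k → i ≠ k → ∀ z w,
      z ∈ Zat G (B i) (Z i) 3200 → z ∈ Zat G (B j) (Z j) 3200 →
      w ∈ Zat G (B i) (Z i) 3200 → w ∈ Zat G (B j) (Z j) 3200 →
      s i z + s j z = s i w + s j w := by
    intro i j k hij hjk hik z w hzi hzj hwi hwj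
    obtain ⟨c, hc, hcF⟩ := pick_out (hC j k hjk) (F := {z, w})
      (Finset.card_le_two.trans (by norm_num))
    obtain ⟨e, he, heF⟩ := pick_out (hC k i (fun g => hik g.symm)) (F := {z, w, c})
      Finset.card_le_three
    rw [Finset.mem_inter] at hc he
    rw [Finset.mem_insert, Finset.mem_singleton, not_or] at hcF
    rw [Finset.mem_insert, Finset.mem_insert, Finset.mem_singleton, not_or, not_or] at heF
    have e1 := h.rel3 hdeg hd hU hL2 hs hij hjk hik hzi hzj hc.1 hc.2 he.1 he.2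
      (fun g => hcF.1 g.symm) (fun g => heF.2.2 g.symm) (fun g => heF.1 g.symm)
    have e2 := h.rel3 hdeg hd hU hL2 hs hij hjk hik hwi hwj hc.1 hc.2 he.1 he.2
      (fun g => hcF.2 g.symm) (fun g => heF.2.2 g.symm) (fun g => heF.2.1 g.symm)
    rw [← e2] at e1
    linear_combination e1
  have h01 : (0 : Fin 3) ≠ 1 := by decide
  have h12 : (1 : Fin 3) ≠ 2 := by decide
  have h02 : (0 : Fin 3) ≠ 2 := by decide
  have h20 : (2 : Fin 3) ≠ 0 := by decide
  have h10 : (1 : Fin 3) ≠ 0 := by decide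
  have h21 : (2 : Fin 3) ≠ 1 := by decide
  have ht : t = 0 := by
    obtain ⟨c, hc, -⟩ := pick_out (hC 1 2 h12) (F := ∅) (by simp)
    obtain ⟨c', hc', hc'F⟩ := pick_out (hC 1 2 h12) (F := {c}) (by simp)
    obtain ⟨z, hz, hzF⟩ := pick_out (hC 0 1 h01) (F := {c, c'})
      (Finset.card_le_two.trans (by norm_num))
    obtain ⟨w, hw, hwF⟩ := pick_out (hC 0 1 h01) (F := {c, c', z}) Finset.card_le_three
    rw [Finset.mem_inter] at hc hc' hz hw
    rw [Finset.mem_singleton] at hc'F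
    rw [Finset.mem_insert, Finset.mem_singleton, not_or] at hzF
    rw [Finset.mem_insert, Finset.mem_insert, Finset.mem_singleton, not_or, not_or] at hwF
    have e := h.rel4 hdeg hd hU hL2 hs h01 h12 h02 hz.1 hz.2 hw.1 hw.2 hc.1 hc.2 hc'.1 hc'.2
      (fun g => hwF.2.2 g.symm) (fun g => hc'F g.symm) hzF.1 hzF.2 hwF.1 hwF.2.1
    have e1 := hconst 0 1 2 h01 h12 h02 z w hz.1 hz.2 hw.1 hw.2
    have e2 := hconst 1 2 0 h12 h20 h10 c c' hc.1 hc.2 hc'.1 hc'.2
    have a1 := two_self (s 0 w + s 1 w)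
    have a2 := two_self (s 1 c' + s 2 c')
    rw [e1, e2] at e
    rw [← e]
    linear_combination a1 + a2
  subst ht
  -- the shifts
  obtain ⟨z0, hz0, -⟩ := pick_out (hC 0 1 h01) (F := ∅) (by simp)
  obtain ⟨c0, hc0, hc0F⟩ := pick_out (hC 1 2 h12) (F := {z0}) (by simp)
  obtain ⟨e0, he0, he0F⟩ := pick_out (hC 2 0 h20) (F := {z0, c0})
    (Finset.card_le_two.trans (by norm_num))
  rw [Finset.mem_inter] at hz0 hc0 he0
  rw [Finset.mem_singleton] at hc0F
  rw [Finset.mem_insert, Finset.mem_singleton, not_or] at he0F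
  obtain ⟨a, ha⟩ : ∃ a, a = s 0 z0 + s 1 z0 := ⟨_, rfl⟩
  obtain ⟨b, hb⟩ : ∃ b, b = s 1 c0 + s 2 c0 := ⟨_, rfl⟩
  obtain ⟨e, he⟩ : ∃ e, e = s 2 e0 + s 0 e0 := ⟨_, rfl⟩
  have habe : a + b + e = 0 := by
    rw [ha, hb, he]
    exact h.rel3 hdeg hd hU hL2 hs h01 h12 h02 hz0.1 hz0.2 hc0.1 hc0.2 he0.1 he0.2
      (fun g => hc0F g.symm) (fun g => he0F.2 g.symm) (fun g => he0F.1 g.symm)
  have k01 : ∀ z, z ∈ Zat G (B 0) (Z 0) 3200 → z ∈ Zat G (B 1) (Z 1) 3200 →
      s 0 z + s 1 z = a := fun z g1 g2 => by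
    rw [ha]; exact hconst 0 1 2 h01 h12 h02 z z0 g1 g2 hz0.1 hz0.2
  have k12 : ∀ z, z ∈ Zat G (B 1) (Z 1) 3200 → z ∈ Zat G (B 2) (Z 2) 3200 →
      s 1 z + s 2 z = b := fun z g1 g2 => by
    rw [hb]; exact hconst 1 2 0 h12 h20 h10 z c0 g1 g2 hc0.1 hc0.2
  have k20 : ∀ z, z ∈ Zat G (B 2) (Z 2) 3200 → z ∈ Zat G (B 0) (Z 0) 3200 →
      s 2 z + s 0 z = e := fun z g1 g2 => by
    rw [he]; exact hconst 2 0 1 h20 h01 h21 z e0 g1 g2 he0.1 he0.2
  obtain ⟨hh, hh0, hh1, hh2⟩ : ∃ hh : Fin 3 → ZMod 2, hh 0 = 0 ∧ hh 1 = a ∧ hh 2 = e :=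
    ⟨![0, a, e], rfl, rfl, rfl⟩
  have a0 := two_self a
  have b0 := two_self b
  have c0' := two_self e
  have hagree0 : ∀ i j : Fin 3, i ≠ j → ∀ z, z ∈ Zat G (B i) (Z i) 3200 →
      z ∈ Zat G (B j) (Z j) 3200 → s i z + hh i = s j z + hh j := by
    intro i j hij z h1 h2
    have t0 := two_self (s 0 z)
    have t1 := two_self (s 1 z)
    have t2 := two_self (s 2 z)
    fin_cases i <;> fin_cases j
    · exact absurd rfl hij
    · change s 0 z + hh 0 = s 1 z + hh 1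
      have := k01 z h1 h2
      rw [hh0, hh1]
      linear_combination this - t1
    · change s 0 z + hh 0 = s 2 z + hh 2
      have := k20 z h2 h1
      rw [hh0, hh2]
      linear_combination this - t2
    · change s 1 z + hh 1 = s 0 z + hh 0
      have := k01 z h2 h1
      rw [hh0, hh1]
      linear_combination this - t0 + a0
    · exact absurd rfl hij
    · change s 1 z + hh 1 = s 2 z + hh 2
      have := k12 z h1 h2
      rw [hh1, hh2]
      linear_combination this - t2 + habe - c0'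
    · change s 2 z + hh 2 = s 0 z + hh 0
      have := k20 z h1 h2
      rw [hh0, hh2]
      linear_combination this - t0 + c0'
    · change s 2 z + hh 2 = s 1 z + hh 1
      have := k12 z h2 h1
      rw [hh1, hh2]
      linear_combination this - t1 + habe - a0
    · exact absurd rfl hij
  have hagree : ∀ i j : Fin 3, ∀ x, Sd G B Z i x → Sd G B Z j x →
      s i x + hh i = s j x + hh j := by
    intro i j x h1 h2
    by_cases hij : i = j
    · rw [hij]
    · rcases h1 with g1 | g1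
      · exact absurd g1 (h.sd_off (fun g => hij g.symm) h2)
      · rcases h2 with g2 | g2
        · exact absurd g2 (h.off g1 j)
        · exact hagree0 i j hij x g1 g2
  obtain ⟨π, hπ⟩ : ∃ π : V → ZMod 2, ∀ i x, Sd G B Z i x → π x = s i x + hh i := by
    refine ⟨fun x => if hx : ∃ i, Sd G B Z i x then s hx.choose x + hh hx.choose else 0,
      fun i x hx => ?_⟩
    have hex : ∃ i, Sd G B Z i x := ⟨i, hx⟩
    simp only [dif_pos hex]
    exact hagree _ _ x hex.choose_spec hx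
  have hπe : ∀ i, ∀ x ∈ Ws G B Z, ∀ y ∈ Ws G B Z, Sd G B Z i x → Sd G B Z i y →
      RB G (B i) x y → σ s(x, y) = π x + π y := by
    intro i x _ y _ hx hy hxy
    rw [hπ i x hx, hπ i y hy, hs i x (Finset.mem_union.2 hx) y (Finset.mem_union.2 hy) hxy]
    have := two_self (hh i)
    linear_combination -this
  obtain ⟨x0, hx0⟩ := (h.cl 0).ne
  obtain ⟨y0, hy0⟩ := (h.cl 1).ne
  obtain ⟨π', hπ'⟩ := ext_all h2 (m := L + 1) (by omega) hU _ π (Ws G B Z) rfl
    ⟨x0, Or.inl ⟨0, hx0⟩, y0, Or.inl ⟨1, hy0⟩, fun g => h.dis 0 1 h01 x0 hx0 (g ▸ hy0)⟩ (by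
    intro x hx y hy hxy
    have hA : ∀ i j, i ≠ j → Sd G B Z i x → Sd G B Z j y → Link G σ π (L + 1) (Ws G B Z) x y :=
      fun i j hij g1 g2 => h.linkA hdeg hd hL2 hπe hC hij g1 g2 hx hy hxy
    rcases hx with ⟨i, hi⟩ | ⟨i1, i2, hi12, hi1, hi2⟩
    · rcases hy with ⟨j, hj⟩ | ⟨j1, j2, hj12, hj1, hj2⟩
      · by_cases hij : i = j
        · subst hij
          exact h.linkB hdeg hd hL2 hπe hC hi hj hxy
        · exact hA i j hij (Or.inl hi) (Or.inl hj)
      · by_cases hij : i = j1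
        · exact hA i j2 (fun g => hj12 (hij.symm.trans g)) (Or.inl hi) (Or.inr hj2)
        · exact hA i j1 hij (Or.inl hi) (Or.inr hj1)
    · rcases hy with ⟨j, hj⟩ | ⟨j1, j2, hj12, hj1, hj2⟩
      · by_cases hij : i1 = j
        · exact hA i2 j (fun g => hi12 (hij.trans g.symm)) (Or.inr hi2) (Or.inl hj)
        · exact hA i1 j hij (Or.inr hi1) (Or.inl hj)
      · by_cases hij : i1 = j1
        · exact hA i1 j2 (fun g => hj12 (hij.symm.trans g)) (Or.inr hi1) (Or.inr hj2)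
        · exact hA i1 j1 hij (Or.inr hi1) (Or.inr hj1))
  rw [zero_add] at hl
  exact bal_no_cyc hπ' hl

/-- three near-cliques exclude bad cycles -/
theorem Trio.absurd (h : Trio G d B Z) (hdeg : ∀ v, d ≤ G.degree v) (hd : 1200000 ≤ d)
    (h2 : Two G)
    (hconn : ∀ S : Finset V, S.card < 3 → (G.induce ((↑S : Set V)ᶜ)).Connected)
    {l : List V} (hl : Cyc G σ (t + 1) l)
    (hU : Uni G (L + 1) σ t) (hL2 : L + 2 ≤ 2 * d) (hL3 : 3 ≤ L) : False := by
  by_cases c2 : ∃ i j, i ≠ j ∧ (Zat G (B i) (Z i) 3200 ∩ Zat G (B j) (Z j) 3200).card ≤ 2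
  · obtain ⟨i, j, hij, hc⟩ := c2
    exact pair2_false hdeg hd h2 hconn hl hU hL2 hL3 (h.cl i) (h.cl j) (h.dis i j hij)
      (h.na i j hij) hc
  push Not at c2
  have hpot := h.pot hdeg hd hU hL2 c2
  choose s hs using hpot
  by_cases c3 : ∃ i j, i ≠ j ∧ (Zat G (B i) (Z i) 3200 ∩ Zat G (B j) (Z j) 3200).card ≤ 3
  · obtain ⟨i, j, hij, hc⟩ := c3
    exact h.pair3_false hdeg hd h2 hconn hl hU hL2 hL3 hij (hs i) (hs j) hc
  push Not at c3
  exact h.four_false hdeg hd h2 hl hU hL2 hL3 hs c3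

/-- Bondy's conjecture (dual form) for large minimum degree and `n ≤ 4 δ` -/
theorem large_good {G : SimpleGraph V} [DecidableRel G.Adj] {d : ℕ}
    (hdeg : ∀ v, d ≤ G.degree v) (hn : 2 * d ≤ Fintype.card V)
    (hn4 : Fintype.card V ≤ 4 * d) (hd : 1200000 ≤ d)
    (hconn : ∀ S : Finset V, S.card < 3 → (G.induce ((↑S : Set V)ᶜ)).Connected) :
    Good G (2 * d - 1) := by
  rcases Nat.eq_or_lt_of_le hn with heq | hlt
  · exact dirac_good (by omega) heq.symm hdeg fun S hS => hconn S (by omega)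
  intro σ t hU
  have h2 : Two G := two_of_conn fun S hS => hconn S (by omega)
  by_cases hbad : ∃ l, Cyc G σ (t + 1) l
  swap
  · push Not at hbad
    exact good_of_no_bad hdeg (by omega) (by omega) h2 hbad
  exfalso
  obtain ⟨L, l, B, Z, hl, hUL, hL2, hL3, hcl, hdn⟩ := trio_of_bad hdeg (by omega) hn4 (by omega)
    hconn hU hbad
  exact Trio.absurd (B := B) (Z := Z) ⟨hcl, fun i j hij => (hdn i j hij).1,
    fun i j hij => (hdn i j hij).2⟩ hdeg hd h2 hconn hl hUL hL2 hL3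

end Run7.h807
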