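import Mathlib
import Pool.Agent.Run7.h807.Tri6

set_option autoImplicit false

namespace Run7.h807

variable {V : Type*} {G : SimpleGraph V}

section rc

variable {S S' : Set V} {x y z a b : V}

/-- reachability inside a set -/
def Rc (G : SimpleGraph V) (S : Set V) (x y : V) : Prop := ∃ l, Wk G S x y l

theorem Rc.refl (h : x ∈ S) : Rc G S x x :=
  ⟨[x], by simp, rfl, rfl, fun z hz => by rw [List.mem_singleton] at hz; rw [hz]; exact h⟩

theorem Rc.step (h : Rc G S x a) (hab : G.Adj a b) (hb : b ∈ S) : Rc G S x b := by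
  obtain ⟨l, hl⟩ := h
  exact ⟨_, hl.snoc hab hb⟩

theorem Rc.symm (h : Rc G S x y) : Rc G S y x := by
  obtain ⟨l, h1, h2, h3, h4⟩ := h
  exact ⟨l.reverse, chain_rev h1, by rw [List.head?_reverse, h3], by
    rw [List.getLast?_reverse, h2], fun z hz => h4 z (List.mem_reverse.1 hz)⟩

theorem Rc.right (h : Rc G S x y) : y ∈ S := by
  obtain ⟨l, h1, h2, h3, h4⟩ := h
  exact h4 y (List.mem_of_getLast? h3)

theorem Rc.left (h : Rc G S x y) : x ∈ S := h.symm.right

theorem Rc.trans (h : Rc G S x y) (h' : Rc G S y z) : Rc G S x z := by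
  obtain ⟨l', h1, h2, h3, h4⟩ := h'
  have key : ∀ (l' : List V) (y : V), l'.IsChain G.Adj → l'.head? = some y →
      l'.getLast? = some z → (∀ w ∈ l', w ∈ S) → Rc G S x y → Rc G S x z := by
    intro l'
    induction l' with
    | nil => intro y _ h2; simp at h2
    | cons c l ih =>
      intro y h1 h2 h3 h4 hxy
      rw [List.head?_cons, Option.some.injEq] at h2
      subst h2
      cases l with
      | nil =>
        simp only [List.getLast?_singleton, Option.some.injEq] at h3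
        rw [← h3]; exact hxy
      | cons b l =>
        rw [List.isChain_cons_cons] at h1
        rw [List.getLast?_cons_cons] at h3
        exact ih b h1.2 rfl h3 (fun w hw => h4 w (List.mem_cons_of_mem _ hw))
          (hxy.step h1.1 (h4 b (by simp)))
  exact key l' y h1 h2 h3 h4 h

theorem Rc.mono (h : Rc G S x y) (hS : ∀ z ∈ S, z ∈ S') : Rc G S' x y := by
  obtain ⟨l, h1, h2, h3, h4⟩ := h
  exact ⟨l, h1, h2, h3, fun z hz => hS z (h4 z hz)⟩

end rc

/-- inclusion-minimal closed parts -/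
structure MinP (G : SimpleGraph V) (A Z : Finset V) (K : ℕ) : Prop where
  part : Part G A Z
  zc : Z.card ≤ K
  ne : A.Nonempty
  nb : ∀ z ∈ Z, ∃ a ∈ A, G.Adj a z
  min : ∀ A' Z' : Finset V, A' ⊆ A → A' ≠ A → A'.Nonempty → Part G A' Z' → K < Z'.card

variable [DecidableEq V]

theorem exists_minP {A0 Z0 : Finset V} {K : ℕ} (hp : Part G A0 Z0) (hne : A0.Nonempty)
    (hc : Z0.card ≤ K) : ∃ A Z, A ⊆ A0 ∧ MinP G A Z K := by
  classical
  obtain ⟨A, hA, hmin⟩ := Finset.exists_min_image (A0.powerset.filter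
    (fun A => A.Nonempty ∧ ∃ Z, Part G A Z ∧ Z.card ≤ K)) Finset.card
    ⟨A0, Finset.mem_filter.2 ⟨Finset.mem_powerset_self _, hne, Z0, hp, hc⟩⟩
  rw [Finset.mem_filter, Finset.mem_powerset] at hA
  obtain ⟨hA0, hAne, Z, hZ, hZc⟩ := hA
  refine ⟨A, Z.filter (fun z => ∃ a ∈ A, G.Adj a z), hA0, ⟨?_, ?_⟩, ?_, hAne, ?_, ?_⟩
  · intro a ha h
    exact hZ.1 a ha (Finset.mem_filter.1 h).1
  · intro a ha b hab
    rcases hZ.2 a ha b hab with h | h
    · exact Or.inl h
    · exact Or.inr (Finset.mem_filter.2 ⟨h, a, ha, hab⟩)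
  · exact (Finset.card_filter_le _ _).trans hZc
  · intro z hz
    exact (Finset.mem_filter.1 hz).2
  · intro A' Z' hA' hne' hA'ne hp'
    by_contra hcon
    push Not at hcon
    have := hmin A' (Finset.mem_filter.2 ⟨Finset.mem_powerset.2 (hA'.trans hA0), hA'ne, Z', hp',
      hcon⟩)
    exact hne' (Finset.eq_of_subset_of_card_le hA' this)

variable {A Z : Finset V} {K : ℕ}

theorem MinP.lnk (h : MinP G A Z K) {W : Finset V} (hW : 2 * W.card ≤ K) {x y : V} (hx : x ∈ A)
    (hy : y ∈ A) (hxW : x ∉ W) (hyW : y ∉ W) : Rc G {z | z ∈ A ∪ Z ∧ z ∉ W} x y := by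
  classical
  by_contra hcon
  obtain ⟨S, hS⟩ : ∃ S : Set V, S = {z | z ∈ A ∪ Z ∧ z ∉ W} := ⟨_, rfl⟩
  rw [← hS] at hcon
  have hSm : ∀ z, z ∈ S ↔ z ∈ A ∪ Z ∧ z ∉ W := fun z => by rw [hS]; rfl
  have key : ∀ u v : V, u ∈ A → u ∉ W → v ∈ A → ¬ Rc G S u v →
      K < W.card + (Z.filter (fun z => Rc G S u z)).card := by
    intro u v hu huW hv huv
    refine lt_of_lt_of_le (h.min (A.filter (fun z => Rc G S u z))
      (W ∪ Z.filter (fun z => Rc G S u z)) (Finset.filter_subset _ _) ?_ ?_ ⟨?_, ?_⟩)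
      (Finset.card_union_le _ _)
    · intro he
      rw [← he] at hv
      exact huv (Finset.mem_filter.1 hv).2
    · exact ⟨u, Finset.mem_filter.2 ⟨hu, Rc.refl ((hSm u).2 ⟨Finset.mem_union_left _ hu, huW⟩)⟩⟩
    · intro a ha h'
      rw [Finset.mem_filter] at ha
      rcases Finset.mem_union.1 h' with g | g
      · exact ((hSm a).1 ha.2.right).2 g
      · exact h.part.1 a ha.1 (Finset.mem_filter.1 g).1
    · intro a ha b hab
      rw [Finset.mem_filter] at ha
      by_cases hbW : b ∈ W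
      · exact Or.inr (Finset.mem_union_left _ hbW)
      · rcases h.part.2 a ha.1 b hab with g | g
        · exact Or.inl (Finset.mem_filter.2 ⟨g, ha.2.step hab
            ((hSm b).2 ⟨Finset.mem_union_left _ g, hbW⟩)⟩)
        · exact Or.inr (Finset.mem_union_right _ (Finset.mem_filter.2 ⟨g, ha.2.step hab
            ((hSm b).2 ⟨Finset.mem_union_right _ g, hbW⟩)⟩))
  have h1 := key x y hx hxW hy hcon
  have h2 := key y x hy hyW hx (fun g => hcon g.symm)
  have h3 : (Z.filter (fun z => Rc G S x z)).card + (Z.filter (fun z => Rc G S y z)).card ≤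
      Z.card := by
    rw [← Finset.card_union_of_disjoint]
    · exact Finset.card_le_card (Finset.union_subset (Finset.filter_subset _ _)
        (Finset.filter_subset _ _))
    · rw [Finset.disjoint_left]
      intro z hz hz'
      exact hcon ((Finset.mem_filter.1 hz).2.trans (Finset.mem_filter.1 hz').2.symm)
  have h4 := h.zc
  omega

/-- many vertices are reached -/
theorem MinP.lnk2 (h : MinP G A Z K) {W R Y : Finset V} (hW : 2 * W.card ≤ K)
    (hR : (∃ r ∈ R, r ∈ A ∧ r ∉ W) ∨ W.card < (Z ∩ R).card) (hY : Y ⊆ A)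
    (hYc : W.card < Y.card) :
    ∃ y ∈ Y, ∃ r ∈ R, y ∉ W ∧ r ∉ W ∧ Rc G {z | z ∈ A ∪ Z ∧ z ∉ W} y r := by
  classical
  obtain ⟨y, hy, hyW⟩ := Finset.exists_mem_notMem_of_card_lt_card hYc
  rcases hR with ⟨r, hr, hrA, hrW⟩ | hR
  · exact ⟨y, hy, r, hr, hyW, hrW, h.lnk hW (hY hy) hrA hyW hrW⟩
  obtain ⟨S, hS⟩ : ∃ S : Set V, S = {z | z ∈ A ∪ Z ∧ z ∉ W} := ⟨_, rfl⟩
  have hSm : ∀ z, z ∈ S ↔ z ∈ A ∪ Z ∧ z ∉ W := fun z => by rw [hS]; rfl
  by_contra hcon
  push Not at hcon
  rw [← hS] at hcon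
  have hno : ∀ r ∈ R, ¬ Rc G S y r := by
    intro r hr hrc
    exact hcon y hy r hr hyW ((hSm r).1 hrc.right).2 hrc
  have hall : ∀ a ∈ A, a ∉ W → Rc G S y a := by
    intro a ha haW
    rw [hS]
    exact h.lnk hW (hY hy) ha hyW haW
  have hZR : (Z.filter (fun z => Rc G S y z)).card + (Z ∩ R).card ≤ Z.card := by
    rw [← Finset.card_union_of_disjoint]
    · exact Finset.card_le_card (Finset.union_subset (Finset.filter_subset _ _)
        Finset.inter_subset_left)
    · rw [Finset.disjoint_left]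
      intro z hz hz'
      exact hno z (Finset.mem_inter.1 hz').2 (Finset.mem_filter.1 hz).2
  have hpart : Part G (A.filter (fun z => Rc G S y z)) (W ∪ Z.filter (fun z => Rc G S y z)) := by
    refine ⟨?_, ?_⟩
    · intro a ha h'
      rw [Finset.mem_filter] at ha
      rcases Finset.mem_union.1 h' with g | g
      · exact ((hSm a).1 ha.2.right).2 g
      · exact h.part.1 a ha.1 (Finset.mem_filter.1 g).1
    · intro a ha b hab
      rw [Finset.mem_filter] at ha
      by_cases hbW : b ∈ W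
      · exact Or.inr (Finset.mem_union_left _ hbW)
      · rcases h.part.2 a ha.1 b hab with g | g
        · exact Or.inl (Finset.mem_filter.2 ⟨g, ha.2.step hab
            ((hSm b).2 ⟨Finset.mem_union_left _ g, hbW⟩)⟩)
        · exact Or.inr (Finset.mem_union_right _ (Finset.mem_filter.2 ⟨g, ha.2.step hab
            ((hSm b).2 ⟨Finset.mem_union_right _ g, hbW⟩)⟩))
  have hcard := Finset.card_union_le W (Z.filter (fun z => Rc G S y z))
  have hzc := h.zc
  by_cases hA : A.filter (fun z => Rc G S y z) = A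
  · obtain ⟨r, hr, hrW⟩ := Finset.exists_mem_notMem_of_card_lt_card hR
    rw [Finset.mem_inter] at hr
    obtain ⟨a, ha, har⟩ := h.nb r hr.1
    rw [← hA, Finset.mem_filter] at ha
    exact hno r hr.2 (ha.2.step har ((hSm r).2 ⟨Finset.mem_union_right _ hr.1, hrW⟩))
  · have := h.min _ _ (Finset.filter_subset _ _) hA ⟨y, Finset.mem_filter.2 ⟨hY hy,
      Rc.refl ((hSm y).2 ⟨Finset.mem_union_left _ (hY hy), hyW⟩)⟩⟩ hpart
    omega

/-- few boundary vertices see only a given set -/
theorem MinP.surplus (h : MinP G A Z K) {P T0 : Finset V} (hP : P ⊆ A) (hPne : P.Nonempty)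
    (hPA : P ≠ A) (hT0 : T0 ⊆ Z) (hnb : ∀ z ∈ T0, ∀ a ∈ A, G.Adj a z → a ∈ P) :
    T0.card < P.card := by
  classical
  by_contra hcon
  push Not at hcon
  have h1 := h.min (A \ P) ((Z \ T0) ∪ P) Finset.sdiff_subset (by
    intro he
    obtain ⟨p, hp⟩ := hPne
    have := hP hp
    rw [← he] at this
    exact (Finset.mem_sdiff.1 this).2 hp) (by
    rw [Finset.sdiff_nonempty]
    intro hs
    exact hPA (Finset.Subset.antisymm hP hs)) ⟨by
      intro a ha h'
      rw [Finset.mem_sdiff] at ha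
      rcases Finset.mem_union.1 h' with g | g
      · exact h.part.1 a ha.1 (Finset.mem_sdiff.1 g).1
      · exact ha.2 g, by
      intro a ha b hab
      rw [Finset.mem_sdiff] at ha
      rcases h.part.2 a ha.1 b hab with g | g
      · by_cases hbP : b ∈ P
        · exact Or.inr (Finset.mem_union_right _ hbP)
        · exact Or.inl (Finset.mem_sdiff.2 ⟨g, hbP⟩)
      · refine Or.inr (Finset.mem_union_left _ (Finset.mem_sdiff.2 ⟨g, fun hb => ?_⟩))
        exact ha.2 (hnb b hb a ha.1 hab)⟩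
  have h2 := Finset.card_union_le (Z \ T0) P
  have h3 := Finset.card_sdiff_add_card_eq_card hT0
  have h4 := h.zc
  omega

theorem MinP.two [DecidableRel G.Adj] (h : MinP G A Z K) (hA : 2 ≤ A.card) {z : V} (hz : z ∈ Z) :
    2 ≤ (A.filter (G.Adj z)).card := by
  obtain ⟨a, ha, haz⟩ := h.nb z hz
  have := h.surplus (P := A.filter (G.Adj z)) (T0 := {z}) (Finset.filter_subset _ _)
    ⟨a, Finset.mem_filter.2 ⟨ha, haz.symm⟩⟩
  by_cases hA' : A.filter (G.Adj z) = A
  · rw [hA']; exact hA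
  · have h2 := this hA' (Finset.singleton_subset_iff.2 hz) (by
      intro w hw b hb hbw
      rw [Finset.mem_singleton] at hw
      subst hw
      exact Finset.mem_filter.2 ⟨hb, hbw.symm⟩)
    rw [Finset.card_singleton] at h2
    omega

end Run7.h807
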