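import Mathlib
import Pool.Agent.Run7.h807.Mn1

set_option autoImplicit false

namespace Run7.h807

variable {V : Type*} {G : SimpleGraph V} [DecidableEq V]

/-- a robust region `T` around `B` -/
structure Rgn (G : SimpleGraph V) [DecidableRel G.Adj] (B T : Finset V) (κ φ K D : ℕ) :
    Prop where
  sub : B ⊆ T
  deg : ∀ v ∈ B, D ≤ (B.filter (G.Adj v)).card
  fr : (T \ B).card ≤ K
  lnk : ∀ W : Finset V, W.card ≤ κ → ∀ x ∈ B, ∀ y ∈ B, x ∉ W → y ∉ W →
    Rc G {z | z ∈ T ∧ z ∉ W} x y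
  lnk2 : ∀ W R Y : Finset V, W.card ≤ κ → R ⊆ T → 2 * (W.card + φ) < R.card → Y ⊆ B →
    W.card + φ < Y.card → ∃ y ∈ Y, ∃ r ∈ R, y ∉ W ∧ r ∉ W ∧ Rc G {z | z ∈ T ∧ z ∉ W} y r

theorem MinP.rgn [DecidableRel G.Adj] {A Z F0 : Finset V} {K κ φ D : ℕ} (h : MinP G A Z K)
    (hF0 : F0 ⊆ Z) (hφ : F0.card ≤ φ) (hκ : 2 * (κ + φ) ≤ K)
    (hD : ∀ v ∈ A, D ≤ (A.filter (G.Adj v)).card) : Rgn G A ((A ∪ Z) \ F0) κ φ K D := by
  have hmem : ∀ (W : Finset V) (z : V), (z ∈ A ∪ Z ∧ z ∉ W ∪ F0) →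
      (z ∈ (A ∪ Z) \ F0 ∧ z ∉ W) := by
    intro W z ⟨h1, h2⟩
    rw [Finset.mem_union (s := W), not_or] at h2
    exact ⟨Finset.mem_sdiff.2 ⟨h1, h2.2⟩, h2.1⟩
  have hAF : ∀ z ∈ A, z ∉ F0 := fun z hz hz' => h.part.1 z hz (hF0 hz')
  refine ⟨?_, hD, ?_, ?_, ?_⟩
  · intro z hz
    exact Finset.mem_sdiff.2 ⟨Finset.mem_union_left _ hz, hAF z hz⟩
  · refine (Finset.card_le_card ?_).trans h.zc
    intro z hz
    rw [Finset.mem_sdiff, Finset.mem_sdiff, Finset.mem_union] at hz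
    exact hz.1.1.resolve_left hz.2
  · intro W hW x hx y hy hxW hyW
    have hc := Finset.card_union_le W F0
    refine (h.lnk (W := W ∪ F0) (by omega) hx hy ?_ ?_).mono fun z hz => hmem W z hz
    · rw [Finset.mem_union, not_or]; exact ⟨hxW, hAF x hx⟩
    · rw [Finset.mem_union, not_or]; exact ⟨hyW, hAF y hy⟩
  · intro W R Y hW hR hRc hY hYc
    have hc := Finset.card_union_le W F0
    have hR' : (∃ r ∈ R, r ∈ A ∧ r ∉ W ∪ F0) ∨ (W ∪ F0).card < (Z ∩ R).card := by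
      by_cases hex : ∃ r ∈ R, r ∈ A ∧ r ∉ W ∪ F0
      · exact Or.inl hex
      · right
        push Not at hex
        have h1 : (R ∩ A).card ≤ (W ∪ F0).card := by
          refine Finset.card_le_card fun r hr => ?_
          rw [Finset.mem_inter] at hr
          exact hex r hr.1 hr.2
        have h2 : R.card ≤ (R ∩ A).card + (Z ∩ R).card := by
          refine (Finset.card_le_card ?_).trans (Finset.card_union_le _ _)
          intro r hr
          have := hR hr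
          rw [Finset.mem_sdiff, Finset.mem_union] at this
          rcases this.1 with g | g
          · exact Finset.mem_union_left _ (Finset.mem_inter.2 ⟨hr, g⟩)
          · exact Finset.mem_union_right _ (Finset.mem_inter.2 ⟨g, hr⟩)
        omega
    obtain ⟨y, hy, r, hr, hyW, hrW, hrc⟩ := h.lnk2 (W := W ∪ F0) (by omega) hR' hY (by omega)
    rw [Finset.mem_union, not_or] at hyW hrW
    exact ⟨y, hy, r, hr, hyW.1, hrW.1, hrc.mono fun z hz => hmem W z hz⟩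

variable [DecidableRel G.Adj] {B T : Finset V} {κ φ K D : ℕ}

theorem Rgn.del (h : Rgn G B T κ φ K D) {F : Finset V} {f : ℕ} (hF : F.card ≤ f) (hf : f ≤ κ) :
    Rgn G (B \ F) (T \ F) (κ - f) (φ + f) K (D - f) := by
  have hmem : ∀ (W : Finset V) (z : V), (z ∈ T ∧ z ∉ W ∪ F) → (z ∈ T \ F ∧ z ∉ W) := by
    intro W z ⟨h1, h2⟩
    rw [Finset.mem_union, not_or] at h2
    exact ⟨Finset.mem_sdiff.2 ⟨h1, h2.2⟩, h2.1⟩
  refine ⟨Finset.sdiff_subset_sdiff h.sub subset_rfl, ?_, ?_, ?_, ?_⟩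
  · intro v hv
    rw [Finset.mem_sdiff] at hv
    have h1 := h.deg v hv.1
    have h2 : (B.filter (G.Adj v)).card ≤ ((B \ F).filter (G.Adj v)).card + F.card := by
      refine (Finset.card_le_card ?_).trans (Finset.card_union_le _ _)
      intro z hz
      rw [Finset.mem_filter] at hz
      by_cases hzF : z ∈ F
      · exact Finset.mem_union_right _ hzF
      · exact Finset.mem_union_left _ (Finset.mem_filter.2 ⟨Finset.mem_sdiff.2 ⟨hz.1, hzF⟩, hz.2⟩)
    omega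
  · refine (Finset.card_le_card ?_).trans h.fr
    intro z hz
    rw [Finset.mem_sdiff, Finset.mem_sdiff, Finset.mem_sdiff] at hz
    rw [Finset.mem_sdiff]
    exact ⟨hz.1.1, fun hb => hz.2 ⟨hb, hz.1.2⟩⟩
  · intro W hW x hx y hy hxW hyW
    rw [Finset.mem_sdiff] at hx hy
    have hc := Finset.card_union_le W F
    refine (h.lnk (W ∪ F) (by omega) x hx.1 y hy.1 ?_ ?_).mono fun z hz => hmem W z hz
    · rw [Finset.mem_union, not_or]; exact ⟨hxW, hx.2⟩
    · rw [Finset.mem_union, not_or]; exact ⟨hyW, hy.2⟩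
  · intro W R Y hW hR hRc hY hYc
    have hc := Finset.card_union_le W F
    obtain ⟨y, hy, r, hr, hyW, hrW, hrc⟩ := h.lnk2 (W ∪ F) R Y (by omega)
      (hR.trans Finset.sdiff_subset) (by omega) (hY.trans Finset.sdiff_subset) (by omega)
    rw [Finset.mem_union, not_or] at hyW hrW
    exact ⟨y, hy, r, hr, hyW.1, hrW.1, hrc.mono fun z hz => hmem W z hz⟩

/-- the graph on `T` -/
def TG (G : SimpleGraph V) (T : Finset V) : SimpleGraph V where
  Adj a b := G.Adj a b ∧ a ∈ T ∧ b ∈ T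
  symm := ⟨fun _ _ h => ⟨h.1.symm, h.2.2, h.2.1⟩⟩
  loopless := ⟨fun _ h => h.1.ne rfl⟩

theorem tg_chain : ∀ {l : List V}, l.IsChain G.Adj → (∀ z ∈ l, z ∈ T) → l.IsChain (TG G T).Adj
  | [], _, _ => by simp
  | [a], _, _ => by simp
  | a :: b :: l, h, hT => by
    rw [List.isChain_cons_cons] at h ⊢
    exact ⟨⟨h.1, hT a (by simp), hT b (by simp)⟩,
      tg_chain h.2 fun z hz => hT z (List.mem_cons_of_mem _ hz)⟩

theorem tg_mem : ∀ {l : List V} {x : V}, l.IsChain (TG G T).Adj → l.head? = some x → x ∈ T →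
    ∀ z ∈ l, z ∈ T
  | [], _, _, h, _ => by simp at h
  | [a], x, _, h, hx => by
    intro z hz
    rw [List.mem_singleton] at hz
    simp only [List.head?_cons, Option.some.injEq] at h
    rw [hz, h]; exact hx
  | a :: b :: l, x, hc, h, hx => by
    intro z hz
    rw [List.isChain_cons_cons] at hc
    rcases List.mem_cons.1 hz with rfl | hz
    · exact hc.1.2.1
    · exact tg_mem hc.2 rfl hc.1.2.2 z hz

theorem Rgn.dp [Fintype V] (h : Rgn G B T κ φ K D) {Y R : Finset V} {k : ℕ} (hk : k ≤ κ + 1)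
    (hk1 : 1 ≤ k) (hR : R ⊆ T) (hRc : 2 * (k - 1 + φ) < R.card) (hY : Y ⊆ B)
    (hYc : k - 1 + φ < Y.card) : DP (TG G T) Y R k := by
  refine menger _ (TG G T) rfl Y R k fun S hS => ?_
  by_contra hcon
  push Not at hcon
  obtain ⟨y, hy, r, hr, hyS, hrS, l, h1, h2, h3, h4⟩ := h.lnk2 S R Y (by omega) hR (by omega) hY
    (by omega)
  obtain ⟨z, hz, hzS⟩ := hS l (tg_chain h1 fun z hz => (h4 z hz).1) ⟨y, hy, h2⟩ ⟨r, hr, h3⟩
  exact (h4 z hz).2 hzS

/-- a path from the rim `Y` to the set `R` inside `T` -/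
structure CnR (G : SimpleGraph V) (T R : Finset V) (Y : ℕ → V) (e : ℕ) (Q : List V) (u r : V) :
    Prop where
  nd : (Y e :: Q).Nodup
  ch : (Y e :: Q).IsChain G.Adj
  lt : (Y e :: Q).getLast? = some u
  inT : ∀ z ∈ Y e :: Q, z ∈ T
  off : ∀ z ∈ Y e :: Q, z ∉ R
  offY : ∀ z ∈ Q, ∀ k, Y k ≠ z
  adj : G.Adj u r
  rR : r ∈ R

theorem trim_cnr {c : ℕ} {Y : ℕ → V} {R : Finset V} (hY : Rim G c Y) {P : List V} (hn : P.Nodup)
    (hc : P.IsChain (TG G T).Adj) {y x : V} (hd : P.head? = some y) (lt : P.getLast? = some x)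
    (hy : ∃ e, Y e = y) (hyT : y ∈ T) (hx : x ∈ R) (hoff : ∀ k, Y k ∉ R) :
    ∃ e Q u r, CnR G T R Y e Q u r ∧ e < c ∧ (∀ z ∈ Y e :: Q, z ∈ P) ∧ r ∈ P := by
  have hc0 : 0 < c := by have := hY.three; omega
  have hPT := tg_mem hc hd hyT
  obtain ⟨Q1, x', Q2, hP, hxa, hQ1⟩ := chain_first (p := fun z => z ∈ R) P
    ⟨x, List.mem_of_getLast? lt, hx⟩
  have hyQ : y ∈ Q1 := by
    cases Q1 with
    | nil =>
      exfalso
      rw [hP] at hd
      simp only [List.nil_append, List.head?_cons, Option.some.injEq] at hd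
      obtain ⟨e, he⟩ := hy
      exact hoff e (by rw [he, ← hd]; exact hxa)
    | cons b l =>
      rw [hP] at hd
      simp only [List.cons_append, List.head?_cons, Option.some.injEq] at hd
      simp [hd]
  obtain ⟨R1, y', R2, hQ, ⟨e, hye⟩, hR1⟩ := chain_first (p := fun z => ∃ k, Y k = z) Q1.reverse
    ⟨y, List.mem_reverse.2 hyQ, hy⟩
  rw [hY.modeq e] at hye
  have hQ' : Q1 = R2.reverse ++ y' :: R1.reverse := by
    have := congrArg List.reverse hQ
    rw [List.reverse_reverse] at this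
    rw [this]
    simp
  obtain ⟨u, hu⟩ : ∃ u, (y' :: R1.reverse).getLast? = some u :=
    ⟨_, List.getLast?_eq_some_getLast (by simp)⟩
  subst hye
  have hsub : ∀ z ∈ Y (e % c) :: R1.reverse, z ∈ Q1 := fun z hz => by
    rw [hQ']; exact List.mem_append.2 (Or.inr hz)
  have hQ1P : ∀ z ∈ Q1, z ∈ P := fun z hz => by
    rw [hP]; exact List.mem_append.2 (Or.inl hz)
  have hcG : P.IsChain G.Adj := hc.imp fun a b hab => hab.1
  rw [hP, List.nodup_append] at hn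
  rw [hP, List.isChain_append] at hcG
  have hQn := hn.1
  have hQc := hcG.1
  rw [hQ', List.nodup_append] at hQn
  rw [hQ', List.isChain_append] at hQc
  refine ⟨e % c, R1.reverse, u, x', ⟨hQn.2.1, hQc.2.1, hu, ?_, ?_, ?_, ?_, hxa⟩,
    Nat.mod_lt _ hc0, fun z hz => hQ1P z (hsub z hz), ?_⟩
  · intro z hz
    exact hPT z (hQ1P z (hsub z hz))
  · intro z hz
    exact hQ1 z (hsub z hz)
  · intro z hz k hk
    exact hR1 z (List.mem_reverse.1 hz) ⟨k, hk⟩
  · refine hcG.2.2 u ?_ x' (by simp)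
    rw [hQ', List.getLast?_append, hu]
    rfl
  · rw [hP]
    exact List.mem_append.2 (Or.inr (by simp))

/-- many disjoint connectors from a cycle in `B` to `R` -/
theorem Rgn.conns [Fintype V] (h : Rgn G B T κ φ K D) {c : ℕ} {Y : ℕ → V} (hY : Rim G c Y)
    (hYB : ∀ k, Y k ∈ B) {R : Finset V} (hR : R ⊆ T) (hYR : ∀ k, Y k ∉ R) {k : ℕ}
    (hk : k ≤ κ + 1) (hk1 : 1 ≤ k) (hRc : 2 * (k - 1 + φ) < R.card) (hc : k - 1 + φ < c) :
    ∃ (e : Fin k → ℕ) (Q : Fin k → List V) (u r : Fin k → V),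
      (∀ i, CnR G T R Y (e i) (Q i) (u i) (r i) ∧ e i < c) ∧
      (∀ i j, i ≠ j → ∀ z ∈ Y (e i) :: Q i, z ∉ Y (e j) :: Q j) ∧ ∀ i j, i ≠ j → r i ≠ r j := by
  obtain ⟨P, hP, hPd⟩ := h.dp (Y := (Finset.range c).image Y) (R := R) hk hk1 hR hRc (by
    intro z hz
    rw [Finset.mem_image] at hz
    obtain ⟨j, _, rfl⟩ := hz
    exact hYB j) (by rw [rim_card hY]; exact hc)
  have htrim : ∀ i, ∃ e Q u r, CnR G T R Y e Q u r ∧ e < c ∧ (∀ z ∈ Y e :: Q, z ∈ P i) ∧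
      r ∈ P i := by
    intro i
    obtain ⟨h1, h2, ⟨y, hy, h3⟩, ⟨x, hx, h4⟩⟩ := hP i
    rw [Finset.mem_image] at hy
    obtain ⟨e, _, he⟩ := hy
    exact trim_cnr hY h1 h2 h3 h4 ⟨e, he⟩ (he ▸ h.sub (hYB e)) hx hYR
  choose e Q u r hcn he hmem hr using htrim
  refine ⟨e, Q, u, r, fun i => ⟨hcn i, he i⟩, ?_, ?_⟩
  · intro i j hij z hz hz'
    exact hPd i j hij z (hmem i z hz) (hmem j z hz')
  · intro i j hij hrr
    exact hPd i j hij _ (hr i) (hrr ▸ hr j)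

end Run7.h807
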