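import Mathlib
import Pool.Agent.Run7.h807.Mn2

set_option autoImplicit false

namespace Run7.h807

variable {V : Type*} {G : SimpleGraph V}

/-- a path with positions `0, …, N-1` inside `T` -/
structure PX (G : SimpleGraph V) (T : Set V) (N : ℕ) (X : ℕ → V) : Prop where
  pos : 1 ≤ N
  inj : ∀ i j, i < N → j < N → X i = X j → i = j
  adj : ∀ k, k + 1 < N → G.Adj (X k) (X (k + 1))
  mem : ∀ k, k < N → X k ∈ T
  out : ∀ k, ∃ j, j < N ∧ X j = X k

/-- a longest path of its sign -/
structure PTop (G : SimpleGraph V) (σ : Sym2 V → ZMod 2) (T : Set V) (N : ℕ) (X : ℕ → V) :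
    Prop extends PX G T N X where
  max : ∀ l, Pth G.Adj T (X 0) (X (N - 1)) l → ls σ l = phi σ X 0 (N - 1) → l.length ≤ N

section basic

variable {T : Set V} {N : ℕ} {X : ℕ → V}

theorem px_of_pth {l : List V} {x y : V} (h : Pth G.Adj T x y l) :
    ∃ X, PX G T l.length X ∧ X 0 = x ∧ X (l.length - 1) = y ∧ (∀ z, z ∈ l ↔ ∃ k, X k = z) ∧
      seg X 0 l.length = l := by
  have hp := h.pos
  obtain ⟨X, hX⟩ : ∃ X : ℕ → V, X = fun k => l.getD k x := ⟨_, rfl⟩
  have hXk : ∀ k (hk : k < l.length), X k = l[k] := fun k hk => by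
    rw [hX]; simp [List.getD_eq_getElem?_getD, List.getElem?_eq_getElem hk]
  have hXo : ∀ k, l.length ≤ k → X k = x := fun k hk => by
    rw [hX]; simp [List.getD_eq_getElem?_getD, List.getElem?_eq_none hk]
  have h0 : X 0 = x := by
    rw [hXk 0 (by omega)]
    have := h.hd
    rw [List.head?_eq_getElem?, List.getElem?_eq_getElem (by omega)] at this
    exact Option.some.inj this
  have hlast : X (l.length - 1) = y := by
    rw [hXk _ (by omega)]
    have := h.lt
    rw [List.getLast?_eq_getElem?, List.getElem?_eq_getElem (by omega)] at this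
    exact Option.some.inj this
  have hseg : seg X 0 l.length = l := by
    apply List.ext_getElem
    · rw [seg_length]
    · intro k h1 h2
      simp only [seg, List.getElem_map, List.getElem_range, Nat.zero_add]
      exact hXk k h2
  refine ⟨X, ⟨hp, ?_, ?_, ?_, ?_⟩, h0, hlast, ?_, hseg⟩
  · intro i j hi hj hij
    rw [hXk i hi, hXk j hj] at hij
    exact (List.Nodup.getElem_inj_iff h.nd).1 hij
  · intro k hk
    rw [hXk k (by omega), hXk (k + 1) hk]
    exact List.isChain_iff_getElem.1 h.ch k (by omega)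
  · intro k hk
    rw [hXk k hk]
    exact h.mem _ (List.getElem_mem hk)
  · intro k
    by_cases hk : k < l.length
    · exact ⟨k, hk, rfl⟩
    · exact ⟨0, by omega, by rw [h0, hXo k (by omega)]⟩
  · intro z
    constructor
    · intro hz
      obtain ⟨k, hk, hkz⟩ := List.getElem_of_mem hz
      exact ⟨k, by rw [hXk k hk, hkz]⟩
    · rintro ⟨k, rfl⟩
      by_cases hk : k < l.length
      · rw [hXk k hk]; exact List.getElem_mem hk
      · rw [hXo k (by omega)]; exact h.memu

theorem PX.seg_nodup (h : PX G T N X) {i n : ℕ} (hn : i + n ≤ N) : (seg X i n).Nodup := by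
  unfold seg
  refine List.Nodup.map_on ?_ List.nodup_range
  intro a ha b hb hab
  rw [List.mem_range] at ha hb
  have := h.inj _ _ (by omega) (by omega) hab
  omega

theorem PX.seg_chain (h : PX G T N X) : ∀ (n i : ℕ), i + n ≤ N → (seg X i n).IsChain G.Adj
  | 0, i, _ => by simp [seg]
  | 1, i, _ => by simp [seg]
  | n + 2, i, hn => by
    have := h.seg_chain (n + 1) (i + 1) (by omega)
    rw [seg_succ X i (n + 1), seg_succ X (i + 1) n, List.isChain_cons_cons]
    rw [seg_succ] at this
    exact ⟨h.adj i (by omega), this⟩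

theorem PX.seg_mem (h : PX G T N X) {i n : ℕ} (hn : i + n ≤ N) : ∀ z ∈ seg X i n, z ∈ T := by
  intro z hz
  obtain ⟨k, hk, rfl⟩ := mem_seg.1 hz
  exact h.mem _ (by omega)

theorem PX.seg_disj (h : PX G T N X) {i n j m : ℕ} (hij : i + n ≤ j) (hn : j + m ≤ N) :
    ∀ z ∈ seg X i n, ∀ w ∈ seg X j m, z ≠ w := by
  intro z hz w hw hzw
  obtain ⟨k, hk, rfl⟩ := mem_seg.1 hz
  obtain ⟨k', hk', rfl⟩ := mem_seg.1 hw
  have := h.inj _ _ (by omega) (by omega) hzw
  omega

end basic

section top

variable {T : Set V} {N : ℕ} {X : ℕ → V} {σ : Sym2 V → ZMod 2}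

theorem ls_cut {X : ℕ → V} {i : ℕ} {l : List V} {b : V} (hb : l.head? = some b) :
    ls σ (seg X 0 (i + 1) ++ l) = phi σ X 0 i + σ s(X i, b) + ls σ l := by
  rw [ls_append σ (a := X i) (b := b) (by rw [seg_last, Nat.zero_add]) hb, ls_seg σ X 0,
    Nat.zero_add]
  have : phi σ X 0 0 = 0 := rfl
  rw [this, add_zero]

theorem PTop.one (h : PTop G σ T N X) {P : List V} {u w : V} (hP : OP G X P u w)
    (hT : ∀ z ∈ P, z ∈ T) {i j : ℕ} (hij : i < j) (hj : j < N) (hu : G.Adj u (X i))
    (hw : G.Adj w (X j)) (hfl : ls σ P + cs σ X u i + cs σ X w j = 0) :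
    P.length + 1 ≤ j - i := by
  obtain ⟨m, hm⟩ : ∃ m, N = j + (m + 1) := ⟨N - j - 1, by omega⟩
  have hlen := h.max (seg X 0 (i + 1) ++ (P ++ seg X j (m + 1))) ⟨?_, ?_, ?_, ?_, ?_⟩ ?_
  · rw [List.length_append, List.length_append, seg_length, seg_length] at hlen
    omega
  · rw [List.nodup_append, List.nodup_append]
    refine ⟨h.seg_nodup (by omega), ⟨hP.nd, h.seg_nodup (by omega), ?_⟩, ?_⟩
    · intro a ha b hb hab
      obtain ⟨k, _, hk⟩ := mem_seg.1 hb
      exact hP.off a ha _ (hk.trans hab.symm)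
    · intro a ha b hb hab
      rcases List.mem_append.1 hb with hb | hb
      · obtain ⟨k, _, hk⟩ := mem_seg.1 ha
        exact hP.off b hb _ (hk.trans hab)
      · exact h.seg_disj (i := 0) (n := i + 1) (j := j) (m := m + 1) (by omega) (by omega) a ha b
          hb hab
  · rw [List.isChain_append, List.isChain_append]
    refine ⟨h.seg_chain _ _ (by omega), ⟨hP.ch, h.seg_chain _ _ (by omega), ?_⟩, ?_⟩
    · intro a ha b hb
      rw [hP.lt, Option.mem_def, Option.some.injEq] at ha
      rw [seg_head, Option.mem_def, Option.some.injEq] at hb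
      subst ha; subst hb
      exact hw
    · intro a ha b hb
      rw [seg_last, Nat.zero_add, Option.mem_def, Option.some.injEq] at ha
      rw [List.head?_append, hP.hd] at hb
      simp only [Option.some_or, Option.mem_def, Option.some.injEq] at hb
      subst ha; subst hb
      exact hu.symm
  · rw [List.head?_append, seg_head]; rfl
  · rw [List.getLast?_append, List.getLast?_append, seg_last]
    simp only [Option.some_or]
    rw [show j + m = N - 1 by omega]
  · intro z hz
    rcases List.mem_append.1 hz with hz | hz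
    · exact h.seg_mem (by omega) z hz
    · rcases List.mem_append.1 hz with hz | hz
      · exact hT z hz
      · exact h.seg_mem (by omega) z hz
  · rw [ls_cut (b := u) (by rw [List.head?_append, hP.hd]; rfl),
      ls_append σ (a := w) (b := X j) hP.lt (seg_head _ _ _), ls_seg σ X 0]
    rw [show N - 1 = j + m by omega]
    unfold cs at hfl
    rw [Sym2.eq_swap (a := X i) (b := u)]
    linear_combination hfl

theorem PTop.two (h : PTop G σ T N X) {P Q : List V} {u w u' w' : V} (hP : OP G X P u w)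
    (hQ : OP G X Q u' w') (hT : ∀ z ∈ P, z ∈ T) (hT' : ∀ z ∈ Q, z ∈ T) (hPQ : ∀ z ∈ P, z ∉ Q)
    {i j i' j' : ℕ} (hij : i < j) (hji : j ≤ i') (hij' : i' < j') (hj : j' < N)
    (hu : G.Adj u (X i)) (hw : G.Adj w (X j)) (hu' : G.Adj u' (X i')) (hw' : G.Adj w' (X j'))
    (hfl : ls σ P + cs σ X u i + cs σ X w j + (ls σ Q + cs σ X u' i' + cs σ X w' j') = 0) :
    P.length + Q.length + 2 ≤ (j - i) + (j' - i') := by
  obtain ⟨m, hm⟩ : ∃ m, N = j' + (m + 1) := ⟨N - j' - 1, by omega⟩
  obtain ⟨r, hr⟩ : ∃ r, i' = j + r := ⟨i' - j, by omega⟩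
  have hlen := h.max (seg X 0 (i + 1) ++ (P ++ (seg X j (r + 1) ++ (Q ++ seg X j' (m + 1)))))
    ⟨?_, ?_, ?_, ?_, ?_⟩ ?_
  · simp only [List.length_append, seg_length] at hlen
    omega
  · simp only [List.nodup_append]
    refine ⟨h.seg_nodup (by omega), ⟨hP.nd, ⟨h.seg_nodup (by omega), ⟨hQ.nd,
      h.seg_nodup (by omega), ?_⟩, ?_⟩, ?_⟩, ?_⟩
    · intro a ha b hb hab
      obtain ⟨k, _, hk⟩ := mem_seg.1 hb
      exact hQ.off a ha _ (hk.trans hab.symm)
    · intro a ha b hb hab
      rcases List.mem_append.1 hb with hb | hb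
      · obtain ⟨k, _, hk⟩ := mem_seg.1 ha
        exact hQ.off b hb _ (hk.trans hab)
      · exact h.seg_disj (i := j) (n := r + 1) (j := j') (m := m + 1) (by omega) (by omega) a ha b
          hb hab
    · intro a ha b hb hab
      rcases List.mem_append.1 hb with hb | hb
      · obtain ⟨k, _, hk⟩ := mem_seg.1 hb
        exact hP.off a ha _ (hk.trans hab.symm)
      · rcases List.mem_append.1 hb with hb | hb
        · exact hPQ a ha (hab ▸ hb)
        · obtain ⟨k, _, hk⟩ := mem_seg.1 hb
          exact hP.off a ha _ (hk.trans hab.symm)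
    · intro a ha b hb hab
      rcases List.mem_append.1 hb with hb | hb
      · obtain ⟨k, _, hk⟩ := mem_seg.1 ha
        exact hP.off b hb _ (hk.trans hab)
      · rcases List.mem_append.1 hb with hb | hb
        · exact h.seg_disj (i := 0) (n := i + 1) (j := j) (m := r + 1) (by omega) (by omega) a ha
            b hb hab
        · rcases List.mem_append.1 hb with hb | hb
          · obtain ⟨k, _, hk⟩ := mem_seg.1 ha
            exact hQ.off b hb _ (hk.trans hab)
          · exact h.seg_disj (i := 0) (n := i + 1) (j := j') (m := m + 1) (by omega) (by omega) a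
              ha b hb hab
  · simp only [List.isChain_append]
    refine ⟨h.seg_chain _ _ (by omega), ⟨hP.ch, ⟨h.seg_chain _ _ (by omega), ⟨hQ.ch,
      h.seg_chain _ _ (by omega), ?_⟩, ?_⟩, ?_⟩, ?_⟩
    · intro a ha b hb
      rw [hQ.lt, Option.mem_def, Option.some.injEq] at ha
      rw [seg_head, Option.mem_def, Option.some.injEq] at hb
      subst ha; subst hb
      exact hw'
    · intro a ha b hb
      rw [seg_last, Option.mem_def, Option.some.injEq] at ha
      rw [List.head?_append, hQ.hd] at hb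
      simp only [Option.some_or, Option.mem_def, Option.some.injEq] at hb
      subst ha; subst hb
      rw [← hr]
      exact hu'.symm
    · intro a ha b hb
      rw [hP.lt, Option.mem_def, Option.some.injEq] at ha
      rw [List.head?_append, seg_head] at hb
      simp only [Option.some_or, Option.mem_def, Option.some.injEq] at hb
      subst ha; subst hb
      exact hw
    · intro a ha b hb
      rw [seg_last, Nat.zero_add, Option.mem_def, Option.some.injEq] at ha
      rw [List.head?_append, hP.hd] at hb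
      simp only [Option.some_or, Option.mem_def, Option.some.injEq] at hb
      subst ha; subst hb
      exact hu.symm
  · rw [List.head?_append, seg_head]; rfl
  · simp only [List.getLast?_append, seg_last, Option.some_or]
    rw [show j' + m = N - 1 by omega]
  · intro z hz
    simp only [List.mem_append] at hz
    rcases hz with hz | hz | hz | hz | hz
    · exact h.seg_mem (by omega) z hz
    · exact hT z hz
    · exact h.seg_mem (by omega) z hz
    · exact hT' z hz
    · exact h.seg_mem (by omega) z hz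
  · rw [ls_cut (b := u) (by rw [List.head?_append, hP.hd]; rfl),
      ls_append σ (a := w) (b := X j) hP.lt (by rw [List.head?_append, seg_head]; rfl),
      ls_append σ (a := X (j + r)) (b := u') (seg_last _ _ _)
        (by rw [List.head?_append, hQ.hd]; rfl),
      ls_append σ (a := w') (b := X j') hQ.lt (seg_head _ _ _), ls_seg σ X 0, ls_seg σ X 0]
    rw [show N - 1 = j' + m by omega]
    unfold cs at hfl
    rw [hr] at hfl
    rw [Sym2.eq_swap (a := X i) (b := u), Sym2.eq_swap (a := X (j + r)) (b := u')]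
    linear_combination hfl

end top

section conn

variable {σ : Sym2 V → ZMod 2} {c N : ℕ} {X Y : ℕ → V} {T : Set V}

theorem conn_path2 {e e' : ℕ} {T T' : List V} {u u' : V} {a a' : ℕ}
    (h : Conn G X Y e T u a) (h' : Conn G X Y e' T' u' a') (hoff : ∀ k j, X k ≠ Y j)
    (hTT : ∀ z ∈ Y e :: T, z ∉ Y e' :: T') {α α' : ZMod 2} {μ : ℕ} {M : List V}
    (hM : Arc G σ Y (Y e) (Y e') α α' μ M) :
    ∃ P, OP G X P u u' ∧ ls σ P = ls σ (Y e :: T) + α + (α' + ls σ (Y e' :: T')) ∧
      μ + 1 ≤ P.length ∧ ∀ z ∈ P, z ∈ Y e :: T ∨ z ∈ Y e' :: T' ∨ ∃ k, Y k = z := by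
  have hne : Y e ≠ Y e' := fun he => hTT (Y e) (by simp) (by rw [he]; simp)
  have hlast : (Y e :: (M ++ T')).getLast? = some u' := by
    have h1 := hM.lt
    have h2 := h'.lt
    rw [← List.cons_append, List.getLast?_append, h1]
    cases T' with
    | nil =>
      simp only [List.getLast?_singleton, Option.some.injEq] at h2
      simp [h2]
    | cons b l =>
      rw [List.getLast?_cons_cons] at h2
      rw [h2]; rfl
  obtain ⟨M0, hM0⟩ : ∃ M0, Y e :: M = M0 ++ [Y e'] := List.getLast?_eq_some_iff.1 hM.lt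
  have hch : (Y e :: (M ++ T')).IsChain G.Adj := by
    rw [← List.cons_append, hM0, List.append_assoc, List.singleton_append, List.isChain_split]
    exact ⟨by rw [← hM0]; exact hM.ch, h'.ch⟩
  have hls : ls σ (Y e :: (M ++ T')) = α + α' + ls σ (Y e' :: T') := by
    rw [← List.cons_append, hM0, List.append_assoc, List.singleton_append, ls_split, ← hM0,
      hM.val]
  have hMT : ∀ z ∈ Y e :: M, z ∉ T' := by
    intro z hz hz'
    obtain ⟨k, hk⟩ := hM.mem z hz
    exact h'.offY z hz' k hk
  have hMT2 : ∀ z ∈ Y e :: M, z ∉ T := by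
    intro z hz hz'
    obtain ⟨k, hk⟩ := hM.mem z hz
    exact h.offY z hz' k hk
  have hn : (Y e :: (T ++ ((M ++ T') ++ []))).Nodup := by
    rw [List.append_nil]
    have hnM := hM.nd
    have hnT := h.nd
    have hnT' := h'.nd
    rw [List.nodup_cons] at hnM hnT hnT'
    rw [List.nodup_cons, List.nodup_append, List.nodup_append]
    refine ⟨?_, hnT.2, ⟨hnM.2, hnT'.2, ?_⟩, ?_⟩
    · simp only [List.mem_append, not_or]
      exact ⟨hnT.1, hnM.1, hMT _ (by simp)⟩
    · intro x hx y hy hxy
      exact hMT x (List.mem_cons_of_mem _ hx) (hxy ▸ hy)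
    · intro x hx y hy hxy
      subst hxy
      rcases List.mem_append.1 hy with hy | hy
      · exact hMT2 x (List.mem_cons_of_mem _ hy) hx
      · exact hTT x (List.mem_cons_of_mem _ hx) (List.mem_cons_of_mem _ hy)
  have hT : Tripod G X (Y e) T (M ++ T') [] u u' (Y e) := by
    refine ⟨hn, h.ch, hch, by simp, h.lt, hlast, by simp, ?_⟩
    intro x hx
    simp only [List.append_nil, List.mem_cons, List.mem_append] at hx
    rcases hx with rfl | hx | hx | hx
    · exact h.off _ (by simp)
    · exact h.off _ (List.mem_cons_of_mem _ hx)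
    · obtain ⟨k, hk⟩ := hM.mem x (List.mem_cons_of_mem _ hx)
      intro j hj
      exact hoff j k (hj.trans hk.symm)
    · exact h'.off _ (List.mem_cons_of_mem _ hx)
  obtain ⟨p1, p2⟩ := hT.op (σ := σ)
  refine ⟨_, p1, ?_, ?_, ?_⟩
  · rw [p2, hls]; ring
  · have := hM.len
    simp only [List.length_append, List.length_reverse, List.length_cons]
    omega
  · intro z hz
    simp only [List.mem_append, List.mem_reverse, List.mem_cons] at hz
    rcases hz with hz | rfl | hz | hz
    · exact Or.inl (List.mem_cons_of_mem _ hz)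
    · exact Or.inl (by simp)
    · exact Or.inr (Or.inr (hM.mem z (List.mem_cons_of_mem _ hz)))
    · exact Or.inr (Or.inl (List.mem_cons_of_mem _ hz))

theorem PTop.conn_far (h : PTop G σ T N X) (hY : Rim G c Y) (h0 : phi σ Y 0 c = 0)
    (hoff : ∀ k j, X k ≠ Y j) (hYT : ∀ k, Y k ∈ T) {e e' : ℕ} {Q Q' : List V} {u u' : V}
    {a a' : ℕ} (hc : Conn G X Y e Q u a) (hc' : Conn G X Y e' Q' u' a')
    (hcT : ∀ z ∈ Y e :: Q, z ∈ T) (hcT' : ∀ z ∈ Y e' :: Q', z ∈ T) (he : e < c) (he' : e' < c)
    (hTT : ∀ z ∈ Y e :: Q, z ∉ Y e' :: Q') {μ : ℕ} (hμ : 2 * μ ≤ c + 1) (haa : a < a')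
    (ha' : a' < N)
    (hcol : ls σ (Y e :: Q) + phi σ Y 0 e + cs σ X u a =
      ls σ (Y e' :: Q') + phi σ Y 0 e' + cs σ X u' a') : a + (μ + 2) ≤ a' := by
  have hne : e ≠ e' := by
    rintro rfl
    exact hTT (Y e) (by simp) (by simp)
  obtain ⟨M, hM⟩ := long_arc (σ := σ) hY h0 he he' hne hμ
  obtain ⟨P, hP, hls, hlen, hmem⟩ := conn_path2 hc hc' hoff hTT hM
  have := h.one hP (fun z hz => by
    rcases hmem z hz with g | g | ⟨k, rfl⟩
    · exact hcT z g
    · exact hcT' z g
    · exact hYT k) haa ha' hc.adj hc'.adj (by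
      rw [hls]
      have h2 := two_self (ls σ (Y e' :: Q') + phi σ Y 0 e' + cs σ X u' a')
      linear_combination hcol + h2)
  omega

/-- number of connectors landing on a longest path -/
theorem PTop.count (h : PTop G σ T N X) (hY : Rim G c Y) (h0 : phi σ Y 0 c = 0)
    (hoff : ∀ k j, X k ≠ Y j) (hYT : ∀ k, Y k ∈ T) {q : ℕ} (e a : Fin q → ℕ)
    (Q : Fin q → List V) (u : Fin q → V)
    (hc : ∀ i, Conn G X Y (e i) (Q i) (u i) (a i) ∧ e i < c ∧ a i < N ∧
      ∀ z ∈ Y (e i) :: Q i, z ∈ T)
    (hd : ∀ i j, i ≠ j → ∀ z ∈ Y (e i) :: Q i, z ∉ Y (e j) :: Q j)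
    (hinj : ∀ i j, i ≠ j → a i ≠ a j) {μ : ℕ} (hμ : 2 * μ ≤ c + 1) :
    q ≤ 2 * ((N - 1) / (μ + 2) + 1) := by
  refine col_count (by omega) a
    (fun i => ls σ (Y (e i) :: Q i) + phi σ Y 0 (e i) + cs σ X (u i) (a i))
    (fun i => (hc i).2.2.1) hinj ?_
  intro i j hcol hlt
  have hij : i ≠ j := by rintro rfl; omega
  exact h.conn_far hY h0 hoff hYT (hc i).1 (hc j).1 (hc i).2.2.2 (hc j).2.2.2 (hc i).2.1
    (hc j).2.1 (hd i j hij) hμ hlt (hc j).2.2.1 hcol

end conn

end Run7.h807
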