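import Mathlib
import Pool.Agent.Run7.h807.Mn3

set_option autoImplicit false

namespace Run7.h807

theorem unit_other {P : ℕ → Prop} [DecidablePred P] {N : ℕ} (e0 : ℕ)
    (h : N + 3 < 2 * ((Finset.range N).filter P).card) :
    ∃ e, e ≠ e0 ∧ e + 1 < N ∧ P e ∧ P (e + 1) := by
  by_contra hcon
  push Not at hcon
  have h1 : ((Finset.range N).filter P).card ≤
      ((Finset.range N).filter (fun k => P k ∧ k ≠ e0)).card + 1 := by
    have : (Finset.range N).filter P ⊆ insert e0 ((Finset.range N).filter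
        (fun k => P k ∧ k ≠ e0)) := by
      intro k hk
      rw [Finset.mem_filter] at hk
      rw [Finset.mem_insert, Finset.mem_filter]
      by_cases he : k = e0
      · exact Or.inl he
      · exact Or.inr ⟨hk.1, hk.2, he⟩
    exact (Finset.card_le_card this).trans (Finset.card_insert_le _ _)
  obtain ⟨S, hS⟩ : ∃ S, S = (Finset.range N).filter (fun k => P k ∧ k ≠ e0) := ⟨_, rfl⟩
  rw [← hS] at h1
  have h2 : S.card + (S.image (fun k => k + 1)).card ≤ N + 1 := by
    rw [← Finset.card_union_of_disjoint]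
    · refine (Finset.card_le_card ?_).trans (Finset.card_range (N + 1)).le
      intro k hk
      rw [Finset.mem_union, Finset.mem_image] at hk
      rw [Finset.mem_range]
      rcases hk with hk | ⟨k', hk', rfl⟩
      · rw [hS, Finset.mem_filter, Finset.mem_range] at hk; omega
      · rw [hS, Finset.mem_filter, Finset.mem_range] at hk'; omega
    · rw [Finset.disjoint_left]
      intro k hk hk'
      rw [Finset.mem_image] at hk'
      obtain ⟨k', hk', rfl⟩ := hk'
      rw [hS, Finset.mem_filter, Finset.mem_range] at hk hk'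
      exact hcon k' hk'.2.2 hk.1 hk'.2.1 hk.2.1
  rw [Finset.card_image_of_injective _ (fun a b hab => Nat.succ.inj hab)] at h2
  omega

variable {V : Type*} {G : SimpleGraph V} [DecidableEq V] [DecidableRel G.Adj]

theorem two_low {O : Finset V} {m : ℕ} (hO : 2 ≤ O.card)
    (hno : ¬ ∃ S ⊆ O, S.Nonempty ∧ ∀ v ∈ S, m ≤ (S.filter (G.Adj v)).card) :
    ∃ v ∈ O, ∃ v' ∈ O, v ≠ v' ∧ (O.filter (G.Adj v)).card ≤ m ∧
      (O.filter (G.Adj v')).card ≤ m := by
  push Not at hno
  obtain ⟨v, hv, hv1⟩ := hno O subset_rfl (Finset.card_pos.1 (by omega))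
  obtain ⟨v', hv', hv1'⟩ := hno (O.erase v) (Finset.erase_subset _ _) (Finset.card_pos.1 (by
    rw [Finset.card_erase_of_mem hv]; omega))
  rw [Finset.mem_erase] at hv'
  refine ⟨v, hv, v', hv'.2, hv'.1.symm, by omega, ?_⟩
  have : O.filter (G.Adj v') ⊆ insert v ((O.erase v).filter (G.Adj v')) := by
    intro z hz
    rw [Finset.mem_filter] at hz
    rw [Finset.mem_insert, Finset.mem_filter, Finset.mem_erase]
    by_cases he : z = v
    · exact Or.inl he
    · exact Or.inr ⟨⟨he, hz.1⟩, hz.2⟩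
  have := (Finset.card_le_card this).trans (Finset.card_insert_le _ _)
  omega

theorem nb_split {B R : Finset V} (v : V) : (B.filter (G.Adj v)).card ≤
    ((B \ R).filter (G.Adj v)).card + (R.filter (G.Adj v)).card := by
  refine (Finset.card_le_card ?_).trans (Finset.card_union_le _ _)
  intro z hz
  rw [Finset.mem_filter] at hz
  rw [Finset.mem_union, Finset.mem_filter, Finset.mem_filter, Finset.mem_sdiff]
  by_cases hR : z ∈ R
  · exact Or.inr ⟨hR, hz.2⟩
  · exact Or.inl ⟨⟨hz.1, hR⟩, hz.2⟩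

theorem nb_image {N : ℕ} (X : ℕ → V) (v : V) :
    (((Finset.range N).image X).filter (G.Adj v)).card ≤
      ((Finset.range N).filter (fun k => G.Adj v (X k))).card := by
  refine (Finset.card_le_card ?_).trans (Finset.card_image_le (f := X))
  intro z hz
  rw [Finset.mem_filter, Finset.mem_image] at hz
  obtain ⟨⟨k, hk, rfl⟩, h2⟩ := hz
  exact Finset.mem_image.2 ⟨k, Finset.mem_filter.2 ⟨hk, h2⟩, rfl⟩

theorem PX.card {T : Set V} {N : ℕ} {X : ℕ → V} (h : PX G T N X) :
    ((Finset.range N).image X).card = N := by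
  rw [Finset.card_image_of_injOn, Finset.card_range]
  intro i hi j hj hij
  rw [Finset.coe_range, Set.mem_Iio] at hi hj
  exact h.inj i j hi hj hij

theorem PX.mem_im {T : Set V} {N : ℕ} {X : ℕ → V} (h : PX G T N X) {z : V} :
    z ∈ (Finset.range N).image X ↔ ∃ k, X k = z := by
  rw [Finset.mem_image]
  constructor
  · rintro ⟨k, _, hk⟩; exact ⟨k, hk⟩
  · rintro ⟨k, rfl⟩
    obtain ⟨j, hj, hjk⟩ := h.out k
    exact ⟨j, Finset.mem_range.2 hj, hjk⟩

/-- two insertions -/
theorem PTop.ins_false {σ : Sym2 V → ZMod 2} {T : Set V} {N : ℕ} {X : ℕ → V}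
    (ht : PTop G σ T N X) {v v' : V} (hv : ∀ k, X k ≠ v) (hv' : ∀ k, X k ≠ v') (hvT : v ∈ T)
    (hvT' : v' ∈ T) (hvv : v ≠ v')
    (h1 : N + 3 < 2 * ((Finset.range N).filter (fun k => G.Adj v (X k))).card)
    (h2 : N + 3 < 2 * ((Finset.range N).filter (fun k => G.Adj v' (X k))).card) : False := by
  obtain ⟨e, _, he, hva, hvb⟩ := unit_other N h1
  obtain ⟨e', hne, he', hva', hvb'⟩ := unit_other e h2
  have hs : ∀ {w : V} {i : ℕ}, (∀ k, X k ≠ w) → w ∈ T → i + 1 < N → G.Adj w (X i) →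
      G.Adj w (X (i + 1)) → cs σ X w i + cs σ X w (i + 1) = 1 := by
    intro w i hw hwT hi g1 g2
    refine fl_one fun h0 => ?_
    have := ht.one (OP.single hw) (fun z hz => by
      rw [List.mem_singleton] at hz; rw [hz]; exact hwT) (i := i) (j := i + 1) (by omega) hi g1 g2
      (by rw [ls_single]; linear_combination h0)
    simp only [List.length_cons, List.length_nil] at this
    omega
  have e1 := hs hv hvT he hva hvb
  have e2 := hs hv' hvT' he' hva' hvb'
  have hone : (1 : ZMod 2) + 1 = 0 := by decide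
  have hm : ∀ {w : V}, w ∈ T → ∀ z ∈ [w], z ∈ T := by
    intro w hw z hz
    rw [List.mem_singleton] at hz; rw [hz]; exact hw
  rcases lt_or_gt_of_ne hne with hlt | hgt
  · have := ht.two (OP.single hv') (OP.single hv) (hm hvT') (hm hvT) (by
      intro z hz hz'
      rw [List.mem_singleton] at hz hz'
      exact hvv (hz'.symm.trans hz)) (i := e') (j := e' + 1) (i' := e) (j' := e + 1) (by omega)
      (by omega) (by omega) he hva' hvb' hva hvb (by
      rw [ls_single, ls_single]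
      linear_combination e1 + e2 + hone)
    simp only [List.length_cons, List.length_nil] at this
    omega
  · have := ht.two (OP.single hv) (OP.single hv') (hm hvT) (hm hvT') (by
      intro z hz hz'
      rw [List.mem_singleton] at hz hz'
      exact hvv (hz.symm.trans hz')) (i := e) (j := e + 1) (i' := e') (j' := e' + 1) (by omega)
      (by omega) (by omega) he' hva hvb hva' hvb' (by
      rw [ls_single, ls_single]
      linear_combination e1 + e2 + hone)
    simp only [List.length_cons, List.length_nil] at this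
    omega

/-- a longest path of its sign is either short or very long -/
theorem Rgn.top_false [Fintype V] {B T : Finset V} {κ φ K D : ℕ} (h : Rgn G B T κ φ K D)
    {σ : Sym2 V → ZMod 2} {N : ℕ} {X : ℕ → V} (ht : PTop G σ {z | z ∈ T} N X) {k μ j : ℕ}
    (hμ : 3 ≤ μ) (hB : N + 2 ≤ B.card) (hdeg : N + 4 + 2 * (4 * μ - 5) ≤ 2 * D)
    (hk : k ≤ κ + 1) (hk1 : 1 ≤ k) (hkN : 2 * (k - 1 + φ) < N) (hkμ : k - 1 + φ < 2 * μ - 1)
    (hN : N ≤ j * (μ + 2)) (hj : 2 * j < k) : False := by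
  have hRc := ht.toPX.card
  obtain ⟨R, hR⟩ : ∃ R, R = (Finset.range N).image X := ⟨_, rfl⟩
  rw [← hR] at hRc
  have hRm : ∀ z, z ∈ R ↔ ∃ k, X k = z := fun z => by rw [hR]; exact ht.toPX.mem_im
  have hRT : R ⊆ T := by
    intro z hz
    rw [hR, Finset.mem_image] at hz
    obtain ⟨i, hi, rfl⟩ := hz
    exact ht.mem i (Finset.mem_range.1 hi)
  have hOc := Finset.le_card_sdiff R B
  by_cases hcore : ∃ S ⊆ B \ R, S.Nonempty ∧ ∀ v ∈ S, 4 * μ - 5 ≤ (S.filter (G.Adj v)).card
  · obtain ⟨S, hSO, hSne, hSd⟩ := hcore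
    obtain ⟨l, hl, hlS, hlen⟩ := core_cycle (G := G) σ (h := 2 * μ - 2) (by omega) S hSne
      (fun v hv => by
        have := hSd v hv
        omega)
    obtain ⟨Y, hY, hY0, hYl⟩ := rim_of_cyc hl
    obtain ⟨c, hc⟩ : ∃ c, c = l.length := ⟨_, rfl⟩
    rw [← hc] at hY hY0 hlen
    have hYO : ∀ i, Y i ∈ B ∧ Y i ∉ R := fun i => Finset.mem_sdiff.1 (hSO (hlS _ (hYl i)))
    have hoff : ∀ i j, X i ≠ Y j := fun i j he => (hYO j).2 ((hRm _).2 ⟨i, he⟩)
    obtain ⟨e, Q, u, r, h1, h2, h3⟩ := h.conns hY (fun i => (hYO i).1) hRT (fun i => (hYO i).2)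
      hk hk1 (by omega) (by omega)
    have hra : ∀ i, ∃ a, a < N ∧ X a = r i := fun i => by
      have := (h1 i).1.rR
      rw [hR, Finset.mem_image] at this
      obtain ⟨a, ha, hra⟩ := this
      exact ⟨a, Finset.mem_range.1 ha, hra⟩
    choose a ha hra using hra
    have := ht.count hY hY0 hoff (fun i => h.sub (hYO i).1) e a Q u (fun i => ⟨⟨(h1 i).1.nd,
      (h1 i).1.ch, (h1 i).1.lt, fun z hz k hk => (h1 i).1.off z hz ((hRm _).2 ⟨k, hk⟩),
      (h1 i).1.offY, by rw [hra]; exact (h1 i).1.adj⟩, (h1 i).2, ha i, (h1 i).1.inT⟩) h2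
      (fun i j hij haa => h3 i j hij (by rw [← hra i, ← hra j, haa])) (μ := μ) (by omega)
    have hdiv : (N - 1) / (μ + 2) < j := by
      rw [Nat.div_lt_iff_lt_mul (by omega)]
      have := ht.pos
      omega
    omega
  · obtain ⟨v, hv, v', hv', hvv, hvd, hvd'⟩ := two_low (by omega) hcore
    rw [Finset.mem_sdiff] at hv hv'
    have hcnt : ∀ w ∈ B, ((B \ R).filter (G.Adj w)).card ≤ 4 * μ - 5 →
        N + 3 < 2 * ((Finset.range N).filter (fun k => G.Adj w (X k))).card := by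
      intro w hw hwd
      have g1 := h.deg w hw
      have g2 := nb_split (G := G) (B := B) (R := R) w
      have g3 := nb_image (G := G) (N := N) X w
      rw [← hR] at g3
      omega
    exact ht.ins_false (fun k hk => hv.2 ((hRm _).2 ⟨k, hk⟩))
      (fun k hk => hv'.2 ((hRm _).2 ⟨k, hk⟩)) (h.sub hv.1) (h.sub hv'.1) hvv
      (hcnt v hv.1 hvd) (hcnt v' hv'.1 hvd')

theorem ls_zero : ∀ (l : List V), ls (fun _ => 0) l = 0
  | [] => rfl
  | [_] => rfl
  | a :: b :: l => by
    have := ls_zero (b :: l)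
    simp only [ls]
    rw [this]; rfl

theorem phi_zero (X : ℕ → V) : ∀ k, phi (fun _ => 0) X 0 k = 0
  | 0 => rfl
  | k + 1 => by
    rw [phi, phi_zero X k]; rfl

theorem greedy {B : Finset V} {D : ℕ} (hdeg : ∀ v ∈ B, D ≤ (B.filter (G.Adj v)).card) {x : V}
    (hx : x ∈ B) {F : Finset V} (hxF : x ∉ F) : ∀ m, m + F.card < D →
    ∃ b l, Pth G.Adj {z | z ∈ B ∧ z ∉ F} x b l ∧ l.length = m + 1
  | 0, _ => ⟨x, [x], Pth.single ⟨hx, hxF⟩, rfl⟩
  | m + 1, hm => by
    obtain ⟨b, l, hl, hlen⟩ := greedy hdeg hx hxF m (by omega)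
    have hb := hl.mem b hl.memv
    have h1 : (F ∪ l.toFinset).card < (B.filter (G.Adj b)).card := by
      have g1 := Finset.card_union_le F l.toFinset
      have g2 := List.toFinset_card_le l
      have g3 := hdeg b hb.1
      omega
    obtain ⟨c, hc, hcF⟩ := Finset.exists_mem_notMem_of_card_lt_card h1
    rw [Finset.mem_filter] at hc
    rw [Finset.mem_union, not_or, List.mem_toFinset] at hcF
    refine ⟨c, l ++ [c], ⟨?_, ?_, ?_, by simp, ?_⟩, by simp [hlen]⟩
    · rw [List.nodup_append]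
      refine ⟨hl.nd, by simp, ?_⟩
      intro a ha d hd hh
      rw [List.mem_singleton] at hd
      exact hcF.2 (hd ▸ hh ▸ ha)
    · rw [List.isChain_append]
      refine ⟨hl.ch, by simp, ?_⟩
      intro a ha d hd
      rw [hl.lt, Option.mem_def, Option.some.injEq] at ha
      simp only [List.head?_cons, Option.mem_def, Option.some.injEq] at hd
      rw [← ha, ← hd]
      exact hc.2
    · rw [List.head?_append, hl.hd]; rfl
    · intro z hz
      rcases List.mem_append.1 hz with hz | hz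
      · exact hl.mem z hz
      · rw [List.mem_singleton] at hz
        rw [hz]
        exact ⟨hc.1, hcF.1⟩

theorem Rgn.mid_path {B T : Finset V} {κ φ K D : ℕ} (h : Rgn G B T κ φ K D) {x y : V}
    (hx : x ∈ B) (hy : y ∈ B) (hxy : x ≠ y) {m : ℕ} (hm : m ≤ κ) (hmD : m + 1 < D) :
    ∃ l, Pth G.Adj {z | z ∈ T} x y l ∧ m + 2 ≤ l.length := by
  obtain ⟨b, l, hl, hlen⟩ := greedy h.deg hx (F := {y}) (by
    rw [Finset.mem_singleton]; exact hxy) m (by rw [Finset.card_singleton]; exact hmD)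
  have hb := hl.mem b hl.memv
  have hby : b ≠ y := fun he => hb.2 (by rw [he]; simp)
  have hrc := h.lnk (l.toFinset.erase b) (by
    rw [Finset.card_erase_of_mem (List.mem_toFinset.2 hl.memv)]
    have := List.toFinset_card_le l
    omega) b hb.1 y hy (by simp) (by
    intro hy'
    rw [Finset.mem_erase, List.mem_toFinset] at hy'
    exact (hl.mem y hy'.2).2 (by simp))
  obtain ⟨l2, hl2, -⟩ := exists_short hrc
  have J := hl.join hl2 (fun z hz hz' => by
    by_contra hne
    exact (hl2.mem z hz').2 (Finset.mem_erase.2 ⟨hne, List.mem_toFinset.2 hz⟩))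
  refine ⟨_, J.mono fun z _ hz => ?_, ?_⟩
  · rcases hz with g | g
    · exact h.sub g.1
    · exact g.1
  · have e1 := hl.join_len hl2
    have e2 := hl2.two hby
    omega

theorem exists_longest [Fintype V] {T : Set V} {x y : V} {Q : List V → Prop}
    (h : ∃ l, Pth G.Adj T x y l ∧ Q l) : ∃ l, Pth G.Adj T x y l ∧ Q l ∧
      ∀ l', Pth G.Adj T x y l' → Q l' → l'.length ≤ l.length := by
  classical
  obtain ⟨l0, hl0, hq0⟩ := h
  have hb : ∀ l : List V, l.Nodup → l.length ≤ Fintype.card V := fun l hl =>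
    List.Nodup.length_le_card hl
  obtain ⟨n, hn⟩ : ∃ n, n = Nat.findGreatest (fun n => ∃ l, Pth G.Adj T x y l ∧ Q l ∧
    l.length = n) (Fintype.card V) := ⟨_, rfl⟩
  have h1 := Nat.findGreatest_spec (P := fun n => ∃ l, Pth G.Adj T x y l ∧ Q l ∧
    l.length = n) (hb l0 hl0.nd) ⟨l0, hl0, hq0, rfl⟩
  rw [← hn] at h1
  obtain ⟨l, h2, h3, h4⟩ := h1
  refine ⟨l, h2, h3, fun l' h5 h6 => ?_⟩
  rw [h4, hn]
  exact Nat.le_findGreatest (hb l' h5.nd) ⟨l', h5, h6, rfl⟩

/-- long paths in a robust region -/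
theorem Rgn.long_path [Fintype V] {B T : Finset V} {κ φ K D : ℕ} (h : Rgn G B T κ φ K D)
    {x y : V} (hx : x ∈ B) (hy : y ∈ B) (hxy : x ≠ y) {k μ j ℓ : ℕ}
    (hμ : 3 ≤ μ) (hB : ℓ + 1 ≤ B.card) (hdeg : ℓ + 3 + 2 * (4 * μ - 5) ≤ 2 * D)
    (hκ : 2 * (k + φ) ≤ κ) (hk1 : 1 ≤ k) (hkμ : k + φ ≤ 2 * μ - 1) (hD : 2 * (k + φ) + 1 < D)
    (hN : ℓ ≤ j * (μ + 2)) (hj : 2 * j < k) :
    ∃ l, Pth G.Adj {z | z ∈ T} x y l ∧ ℓ ≤ l.length := by
  obtain ⟨l0, hl0, hlen0⟩ := h.mid_path hx hy hxy (m := 2 * (k + φ)) hκ hD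
  obtain ⟨l, hl, -, hmax⟩ := exists_longest (G := G) (Q := fun _ => True) ⟨l0, hl0, trivial⟩
  refine ⟨l, hl, ?_⟩
  by_contra hcon
  push Not at hcon
  have h1 := hmax l0 hl0 trivial
  obtain ⟨X, hX, hX0, hX1, -, -⟩ := px_of_pth hl
  refine h.top_false (σ := fun _ => 0) (N := l.length) (X := X) ⟨hX, ?_⟩ hμ (by omega) (by omega)
    (k := k) (j := j) (by omega) hk1 (by omega) (by omega) (by omega) hj
  intro l' hl' _
  rw [hX0, hX1] at hl'
  exact hmax l' hl' trivial

end Run7.h807
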