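import Mathlib
import Pool.Agent.Run7.h807.Mn4

set_option autoImplicit false

namespace Run7.h807

variable {V : Type*} {G : SimpleGraph V}

section cut

variable {R : V → V → Prop} {S : Set V} {a b c r y : V} {l₁ l₂ : List V}

theorem Pth.cut (h : Pth R S a b (l₁ ++ c :: l₂)) :
    Pth R S a c (l₁ ++ [c]) ∧ Pth R S c b (c :: l₂) := by
  have hn := h.nd
  have hc := h.ch
  have hd := h.hd
  have hlt := h.lt
  rw [List.isChain_split] at hc
  refine ⟨⟨?_, hc.1, ?_, by simp, fun z hz => h.mem z ?_⟩, ⟨?_, hc.2, rfl, ?_,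
    fun z hz => h.mem z (List.mem_append.2 (Or.inr hz))⟩⟩
  · have : ((l₁ ++ [c]) ++ l₂).Nodup := by simpa using hn
    exact (List.nodup_append.1 this).1
  · cases l₁ with
    | nil => simpa using hd
    | cons d l => simpa using hd
  · rw [List.mem_append, List.mem_singleton] at hz
    rw [List.mem_append, List.mem_cons]
    rcases hz with hz | hz
    · exact Or.inl hz
    · exact Or.inr (Or.inl hz)
  · exact (List.nodup_append.1 hn).2.1
  · rwa [List.getLast?_append_of_ne_nil _ (by simp)] at hlt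

theorem Pth.head_out (h : Pth R S a b (l₁ ++ r :: l₂)) (hr : r ≠ a) : a ∉ r :: l₂ := by
  have hn := h.nd
  have hd := h.hd
  cases l₁ with
  | nil =>
    simp only [List.nil_append, List.head?_cons, Option.some.injEq] at hd
    exact absurd hd hr
  | cons d l =>
    simp only [List.cons_append, List.head?_cons, Option.some.injEq] at hd
    subst hd
    rw [List.nodup_append] at hn
    intro hm
    exact hn.2.2 d (by simp) d hm rfl

theorem Pth.last_out (h : Pth R S a b (l₁ ++ r :: l₂)) (hr : r ≠ b) : b ∉ l₁ ++ [r] := by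
  have hn := h.nd
  have hb : b ∈ l₂ := by
    have := (h.cut).2.memv
    rcases List.mem_cons.1 this with g | g
    · exact absurd g.symm hr
    · exact g
  have hn' : ((l₁ ++ [r]) ++ l₂).Nodup := by simpa using hn
  intro hm
  exact (List.nodup_append.1 hn').2.2 b hm b hb rfl

theorem Pth.first_on {Q : List V} (h : Pth R S r a Q) (p : V → Prop) (hp : p a) :
    ∃ Q1 y, Pth R S r y (Q1 ++ [y]) ∧ p y ∧ (∀ z ∈ Q1, ¬ p z) ∧ ∀ z ∈ Q1 ++ [y], z ∈ Q := by
  obtain ⟨Q1, y, Q2, hQ, hy, hQ1⟩ := chain_first (p := p) Q ⟨a, h.memv, hp⟩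
  rw [hQ] at h
  refine ⟨Q1, y, h.cut.1, hy, hQ1, fun z hz => ?_⟩
  rw [hQ, List.mem_append, List.mem_cons]
  rw [List.mem_append, List.mem_singleton] at hz
  rcases hz with hz | hz
  · exact Or.inl hz
  · exact Or.inr (Or.inl hz)

end cut

variable {σ : Sym2 V → ZMod 2} {S : Set V}

/-- two ways through a theta graph with a bridge -/
theorem theta_swap {a b r y : V} {l₁ l₂ P₁ P₂ Q1 : List V}
    (hl : Pth G.Adj S a b (l₁ ++ r :: l₂)) (hP : Pth G.Adj S a b (P₁ ++ y :: P₂))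
    (hQ : Pth G.Adj S r y (Q1 ++ [y])) (hra : r ≠ a) (hrb : r ≠ b) (hya : y ≠ a) (hyb : y ≠ b)
    (hlP : ∀ z ∈ l₁ ++ r :: l₂, z ∈ P₁ ++ y :: P₂ → z = a ∨ z = b)
    (hQl : ∀ z ∈ Q1 ++ [y], z ∈ l₁ ++ r :: l₂ → z = r) (hQP : ∀ z ∈ Q1, z ∉ P₁ ++ y :: P₂) :
    ∃ L1 L2, Pth G.Adj S a b L1 ∧ Pth G.Adj S a b L2 ∧
      ls σ L1 + ls σ L2 = ls σ (l₁ ++ r :: l₂) + ls σ (P₁ ++ y :: P₂) ∧
      P₁.length + 1 ≤ L1.length ∧ P₂.length + 1 ≤ L2.length := by
  have hR : ∀ a b, G.Adj a b → G.Adj b a := fun a b hab => hab.symm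
  obtain ⟨l1, l2⟩ := hl.cut
  obtain ⟨p1, p2⟩ := hP.cut
  have hQr := hQ.rev hR
  have sub1 : ∀ z ∈ P₁ ++ [y], z ∈ P₁ ++ y :: P₂ := fun z hz => by
    rw [List.mem_append, List.mem_singleton] at hz
    rw [List.mem_append, List.mem_cons]
    rcases hz with hz | hz
    · exact Or.inl hz
    · exact Or.inr (Or.inl hz)
  have sub2 : ∀ z ∈ y :: P₂, z ∈ P₁ ++ y :: P₂ := fun z hz => List.mem_append.2 (Or.inr hz)
  have sub3 : ∀ z ∈ l₁ ++ [r], z ∈ l₁ ++ r :: l₂ := fun z hz => by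
    rw [List.mem_append, List.mem_singleton] at hz
    rw [List.mem_append, List.mem_cons]
    rcases hz with hz | hz
    · exact Or.inl hz
    · exact Or.inr (Or.inl hz)
  have sub4 : ∀ z ∈ r :: l₂, z ∈ l₁ ++ r :: l₂ := fun z hz => List.mem_append.2 (Or.inr hz)
  have hQP' : ∀ z ∈ Q1 ++ [y], z ∈ P₁ ++ y :: P₂ → z = y := by
    intro z hz hz'
    rcases List.mem_append.1 hz with g | g
    · exact absurd hz' (hQP z g)
    · rwa [List.mem_singleton] at g
  have J1 := p1.join hQr (fun z hz hz' => hQP' z (List.mem_reverse.1 hz') (sub1 z hz))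
  have J2 := J1.join l2 (fun z hz hz' => by
    rcases p1.join_mem hQr hz with g | g
    · exfalso
      rcases hlP z (sub4 z hz') (sub1 z g) with h | h
      · exact hl.head_out hra (h ▸ hz')
      · exact hP.last_out hyb (h ▸ g)
    · exact hQl z (List.mem_reverse.1 g) (sub4 z hz'))
  have J3 := l1.join hQ (fun z hz hz' => hQl z hz' (sub3 z hz))
  have J4 := J3.join p2 (fun z hz hz' => by
    rcases l1.join_mem hQ hz with g | g
    · exfalso
      rcases hlP z (sub3 z g) (sub2 z hz') with h | h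
      · exact hP.head_out hya (h ▸ hz')
      · exact hl.last_out hrb (h ▸ g)
    · exact hQP' z g (sub2 z hz'))
  refine ⟨_, _, J2.mono fun z _ hz => ?_, J4.mono fun z _ hz => ?_, ?_, ?_, ?_⟩
  · rcases hz with (g | g) | g <;> exact g
  · rcases hz with (g | g) | g <;> exact g
  · rw [J1.join_ls σ l2, p1.join_ls σ hQr, J3.join_ls σ p2, l1.join_ls σ hQ, ls_reverse,
      ls_split σ l₁ r l₂, ls_split σ P₁ y P₂]
    have := two_self (ls σ (Q1 ++ [y]))
    linear_combination this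
  · have e1 := p1.join_len hQr
    have e2 := J1.join_len l2
    have e3 := hQr.pos
    have e4 := l2.pos
    simp only [List.length_append, List.length_singleton] at e1
    simp only [List.length_append, List.length_singleton] at e2 e3 e4 ⊢
    omega
  · have e1 := l1.join_len hQ
    have e2 := J3.join_len p2
    have e3 := hQ.pos
    have e4 := l1.pos
    simp only [List.length_append, List.length_singleton, List.length_cons] at e1 e2 e3 e4 ⊢
    omega

/-- the tripod paths -/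
theorem tri_paths {qi qj qk c : V} {W1 W2 Q1 l : List V}
    (hW : Pth G.Adj S qi qj (W1 ++ c :: W2)) (hl : Pth G.Adj S qi qj l)
    (hQ : Pth G.Adj S qk c (Q1 ++ [c])) (hci : c ≠ qi)
    (hlW : ∀ z ∈ l, z ∈ W1 ++ c :: W2 → z = qi ∨ z = qj)
    (hQl : ∀ z ∈ Q1 ++ [c], z ∉ l) (hQW : ∀ z ∈ Q1, z ∉ W1 ++ c :: W2) :
    (∃ L3, Pth G.Adj S qk qi L3 ∧ ls σ L3 = ls σ (Q1 ++ [c]) + ls σ (W1 ++ [c]) ∧
      ∀ z ∈ W1 ++ [c], z ∈ L3) ∧
    ∃ L4, Pth G.Adj S qk qi L4 ∧ ls σ L4 = ls σ (Q1 ++ [c]) + ls σ (c :: W2) + ls σ l ∧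
      qj ∈ L4 := by
  have hR : ∀ a b, G.Adj a b → G.Adj b a := fun a b hab => hab.symm
  obtain ⟨w1, w2⟩ := hW.cut
  have sub1 : ∀ z ∈ W1 ++ [c], z ∈ W1 ++ c :: W2 := fun z hz => by
    rw [List.mem_append, List.mem_singleton] at hz
    rw [List.mem_append, List.mem_cons]
    rcases hz with hz | hz
    · exact Or.inl hz
    · exact Or.inr (Or.inl hz)
  have sub2 : ∀ z ∈ c :: W2, z ∈ W1 ++ c :: W2 := fun z hz => List.mem_append.2 (Or.inr hz)
  have hQW' : ∀ z ∈ Q1 ++ [c], z ∈ W1 ++ c :: W2 → z = c := by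
    intro z hz hz'
    rcases List.mem_append.1 hz with g | g
    · exact absurd hz' (hQW z g)
    · rwa [List.mem_singleton] at g
  have w1r := w1.rev hR
  have lr := hl.rev hR
  have J1 := hQ.join w1r (fun z hz hz' => hQW' z hz (sub1 z (List.mem_reverse.1 hz')))
  have J2 := hQ.join w2 (fun z hz hz' => hQW' z hz (sub2 z hz'))
  have J3 := J2.join lr (fun z hz hz' => by
    rw [List.mem_reverse] at hz'
    rcases hQ.join_mem w2 hz with g | g
    · exact absurd hz' (hQl z g)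
    · rcases hlW z hz' (sub2 z g) with h | h
      · exact absurd (h ▸ g) (hW.head_out hci)
      · exact h)
  refine ⟨⟨_, J1.mono fun z _ hz => ?_, ?_, ?_⟩, ⟨_, J3.mono fun z _ hz => ?_, ?_, ?_⟩⟩
  · rcases hz with g | g <;> exact g
  · rw [hQ.join_ls σ w1r, ls_reverse]
  · intro z hz
    have h1 : z ∈ (W1 ++ [c]).reverse := List.mem_reverse.2 hz
    rw [w1r.cons_eq] at h1
    rcases List.mem_cons.1 h1 with g | g
    · rw [g]
      exact List.mem_append.2 (Or.inl (by simp))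
    · exact List.mem_append.2 (Or.inr g)
  · rcases hz with (g | g) | g <;> exact g
  · rw [J2.join_ls σ lr, hQ.join_ls σ w2, ls_reverse]
  · exact List.mem_append.2 (Or.inl J2.memv)

end Run7.h807
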