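import Mathlib
import Pool.Agent.Run7.h807.Mn5

set_option autoImplicit false

namespace Run7.h807

variable {V : Type*} {G : SimpleGraph V}

section small

variable {R : V → V → Prop} {S : Set V} {a b c : V} {l₁ l₂ : List V}

theorem Pth.ne_head (h : Pth R S a b (l₁ ++ c :: l₂)) (hl : 1 ≤ l₁.length) : c ≠ a := by
  intro he
  have hn := h.nd
  have hd := h.hd
  cases l₁ with
  | nil => simp at hl
  | cons d l =>
    simp only [List.cons_append, List.head?_cons, Option.some.injEq] at hd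
    rw [List.nodup_append] at hn
    exact hn.2.2 d (by simp) c (by simp) (hd.trans he.symm)

theorem Pth.ne_last (h : Pth R S a b (l₁ ++ c :: l₂)) (hl : 1 ≤ l₂.length) : c ≠ b := by
  intro he
  have h2 := h.cut.2
  have hn := h2.nd
  have hlt := h2.lt
  cases l₂ with
  | nil => simp at hl
  | cons d l =>
    rw [List.getLast?_cons_cons] at hlt
    rw [List.nodup_cons] at hn
    exact hn.1 (he ▸ List.mem_of_getLast? hlt)

theorem mem_take_of {l₁ l₂ : List V} {n : ℕ} (h : l₁.length < n) : c ∈ (l₁ ++ c :: l₂).take n := by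
  rw [List.take_append]
  refine List.mem_append.2 (Or.inr ?_)
  obtain ⟨m, hm⟩ : ∃ m, n - l₁.length = m + 1 := ⟨n - l₁.length - 1, by omega⟩
  rw [hm, List.take_succ_cons]
  simp

theorem mem_drop_of {l₁ l₂ : List V} {n : ℕ} (h : n ≤ l₁.length) :
    c ∈ (l₁ ++ c :: l₂).drop n := by
  rw [List.drop_append]
  refine List.mem_append.2 (Or.inr ?_)
  have hm : n - l₁.length = 0 := by omega
  rw [hm, List.drop_zero]
  simp

end small

variable [Fintype V] [DecidableEq V] [DecidableRel G.Adj] {B T : Finset V} {κ φ K D : ℕ}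

/-- constancy of the sign for all paths between the terminals -/
theorem Rgn.phase1 (h : Rgn G B T κ φ K D) {σ : Sym2 V → ZMod 2} {q : Fin 3 → V}
    (hq : ∀ i, q i ∈ B) (hinj : ∀ i j, i ≠ j → q i ≠ q j) {τ k μ j ρ : ℕ}
    (hC : Cst G σ T q τ) (hμ : 3 ≤ μ)
    (hρ : ρ = 2 * (k - 1 + φ)) (hk1 : 1 ≤ k)
    (hB : τ + 2 + ρ ≤ B.card) (hdeg : τ + 3 + 2 * (4 * μ - 5) + 2 * (ρ + 1) ≤ 2 * D)
    (hκ : 3 * ρ + 3 + 2 * k + 2 * φ ≤ κ) (hkμ : k + φ + ρ + 1 ≤ 2 * μ - 1)
    (hN : τ ≤ j * (μ + 2)) (hj : 2 * j < k) (hτ : 3 * ρ + K + 10 ≤ τ) : Cst G σ T q 0 := by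
  classical
  have hlong : ∀ F : Finset V, F.card ≤ ρ + 1 → ∀ x ∈ B, ∀ y ∈ B, x ∉ F → y ∉ F → x ≠ y →
      ∃ l, Pth G.Adj {z | z ∈ T \ F} x y l ∧ τ ≤ l.length := by
    intro F hF x hx y hy hxF hyF hxy
    have hBF := Finset.le_card_sdiff F B
    exact (h.del hF (by omega)).long_path (Finset.mem_sdiff.2 ⟨hx, hxF⟩)
      (Finset.mem_sdiff.2 ⟨hy, hyF⟩) hxy (k := k) (μ := μ) (j := j) hμ (by omega) (by omega)
      (by omega) hk1 (by omega) (by omega) hN hj
  have hTF : ∀ {F : Finset V} {x y : V} {l : List V}, Pth G.Adj {z | z ∈ T \ F} x y l →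
      Pth G.Adj {z | z ∈ T} x y l := fun hl => hl.mono fun z _ hz => (Finset.mem_sdiff.1 hz).1
  obtain ⟨α, hα⟩ : ∃ α : Fin 3 → Fin 3 → ZMod 2, ∀ i j, i ≠ j → ∀ l,
      Pth G.Adj {z | z ∈ T} (q i) (q j) l → τ ≤ l.length → ls σ l = α i j := by
    have hP : ∀ i j, i ≠ j → ∃ l, Pth G.Adj {z | z ∈ T} (q i) (q j) l ∧ τ ≤ l.length := by
      intro i j hij
      obtain ⟨l, hl, hll⟩ := hlong ∅ (by simp) (q i) (hq i) (q j) (hq j) (by simp) (by simp)
        (hinj i j hij)
      exact ⟨l, hTF hl, hll⟩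
    choose P hP1 hP2 using hP
    refine ⟨fun i j => if hij : i ≠ j then ls σ (P i j hij) else 0, fun i j hij l hl hll => ?_⟩
    simp only [dif_pos hij]
    exact hC i j hij _ _ hl (hP1 i j hij) hll (hP2 i j hij)
  suffices hall : ∀ i j, i ≠ j → ∀ l, Pth G.Adj {z | z ∈ T} (q i) (q j) l → ls σ l = α i j by
    intro i j hij l l' hl hl' _ _
    rw [hall i j hij l hl, hall i j hij l' hl']
  by_contra hbad
  push Not at hbad
  obtain ⟨ib, jb, hijb, lb, hlb, hneb⟩ := hbad
  obtain ⟨Wr, hWr⟩ : ∃ Wr : ℕ → Prop, Wr = fun n => ∃ i j l, i ≠ j ∧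
    Pth G.Adj {z | z ∈ T} (q i) (q j) l ∧ ls σ l ≠ α i j ∧ l.length = n := ⟨_, rfl⟩
  have hcard : ∀ l : List V, l.Nodup → l.length ≤ Fintype.card V := fun l hl =>
    List.Nodup.length_le_card hl
  have hspec := Nat.findGreatest_spec (P := Wr) (hcard lb hlb.nd)
    (by rw [hWr]; exact ⟨ib, jb, lb, hijb, hlb, hneb, rfl⟩)
  have hgr : ∀ i j l, i ≠ j → Pth G.Adj {z | z ∈ T} (q i) (q j) l → ls σ l ≠ α i j →
      l.length ≤ Nat.findGreatest Wr (Fintype.card V) := fun i j l h1 h2 h3 =>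
    Nat.le_findGreatest (hcard l h2.nd) (by rw [hWr]; exact ⟨i, j, l, h1, h2, h3, rfl⟩)
  obtain ⟨N, hNd⟩ : ∃ N, N = Nat.findGreatest Wr (Fintype.card V) := ⟨_, rfl⟩
  rw [← hNd] at hspec hgr
  rw [hWr] at hspec
  obtain ⟨i0, j0, l0, hij0, hl0, hne0, hlen0⟩ := hspec
  have hNτ : N < τ := by
    by_contra hcon
    push Not at hcon
    exact hne0 (hα i0 j0 hij0 l0 hl0 (by omega))
  have hNρ : N ≤ ρ := by
    by_contra hcon
    push Not at hcon
    obtain ⟨X, hX, hX0, hX1, -, hseg⟩ := px_of_pth hl0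
    have hls0 : ls σ l0 = phi σ X 0 (l0.length - 1) := by
      conv_lhs => rw [← hseg]
      obtain ⟨m, hm⟩ : ∃ m, l0.length = m + 1 := ⟨l0.length - 1, by omega⟩
      rw [hm, ls_seg σ X 0, Nat.zero_add]
      have : phi σ X 0 0 = 0 := rfl
      rw [this, add_zero]
      rfl
    refine h.top_false (σ := σ) (N := l0.length) (X := X) ⟨hX, ?_⟩ hμ (by omega) (by omega)
      (k := k) (j := j) (by omega) hk1 (by omega) (by omega) (by omega) hj
    intro l' hl' hs'
    rw [hX0, hX1] at hl'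
    rw [hlen0]
    refine hgr i0 j0 l' hij0 hl' ?_
    rw [hs', ← hls0]
    exact hne0
  -- wrong paths have no interior vertex in `B`
  have stepC : ∀ i j l, i ≠ j → Pth G.Adj {z | z ∈ T} (q i) (q j) l → ls σ l ≠ α i j →
      ∀ r ∈ l, r ∈ B → r = q i ∨ r = q j := by
    intro i j l hij hl hne r hr hrB
    by_contra hcon
    push Not at hcon
    have hlN := hgr i j l hij hl hne
    have hFc : (l.toFinset \ {q i, q j}).card ≤ ρ + 1 :=
      (Finset.card_le_card Finset.sdiff_subset).trans ((List.toFinset_card_le l).trans (by omega))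
    obtain ⟨P, hP0, hPl⟩ := hlong _ hFc (q i) (hq i) (q j) (hq j) (by
      rw [Finset.mem_sdiff]; simp) (by rw [Finset.mem_sdiff]; simp) (hinj i j hij)
    have hP := hTF hP0
    have hlP : ∀ z ∈ l, z ∈ P → z = q i ∨ z = q j := by
      intro z hz hzP
      have := (Finset.mem_sdiff.1 (hP0.mem z hzP)).2
      rw [Finset.mem_sdiff, List.mem_toFinset] at this
      by_contra hc
      exact this ⟨hz, by simpa using hc⟩
    obtain ⟨W, hW⟩ : ∃ W, W = (l.toFinset.erase r) ∪ ((P.take (N + 1)).toFinset ∪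
      (P.drop (P.length - (N + 1))).toFinset) := ⟨_, rfl⟩
    have hWc : W.card ≤ 3 * ρ + 2 := by
      have g1 := Finset.card_union_le (l.toFinset.erase r) ((P.take (N + 1)).toFinset ∪
        (P.drop (P.length - (N + 1))).toFinset)
      have g2 := Finset.card_union_le (P.take (N + 1)).toFinset
        (P.drop (P.length - (N + 1))).toFinset
      have g3 := Finset.card_erase_le (s := l.toFinset) (a := r)
      have g4 := List.toFinset_card_le l
      have g5 := List.toFinset_card_le (P.take (N + 1))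
      have g6 := List.toFinset_card_le (P.drop (P.length - (N + 1)))
      rw [List.length_take] at g5
      rw [List.length_drop] at g6
      rw [← hW] at g1
      omega
    have hWm : ∀ z, z ∉ W → (z ∈ l → z = r) ∧ z ∉ P.take (N + 1) ∧
        z ∉ P.drop (P.length - (N + 1)) := by
      intro z hz
      rw [hW, Finset.mem_union, Finset.mem_union, Finset.mem_erase, List.mem_toFinset,
        List.mem_toFinset, List.mem_toFinset] at hz
      push Not at hz
      exact ⟨fun hzl => by by_contra hne'; exact hz.1 hne' hzl, hz.2.1, hz.2.2⟩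
    obtain ⟨b, hbP, hbW⟩ : ∃ b ∈ P.toFinset, b ∉ W ∪ (T \ B) := by
      refine Finset.exists_mem_notMem_of_card_lt_card ?_
      have g1 := Finset.card_union_le W (T \ B)
      have g2 := h.fr
      rw [List.toFinset_card_of_nodup hP.nd]
      omega
    rw [List.mem_toFinset] at hbP
    rw [Finset.mem_union, not_or, Finset.mem_sdiff] at hbW
    have hbB : b ∈ B := by
      by_contra hnb
      exact hbW.2 ⟨hP.mem b hbP, hnb⟩
    have hrP : r ∉ P := fun hrP => by
      rcases hlP r hr hrP with g | g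
      · exact hcon.1 g
      · exact hcon.2 g
    have hrW : r ∉ W := by
      rw [hW, Finset.mem_union, Finset.mem_union, Finset.mem_erase, List.mem_toFinset,
        List.mem_toFinset, List.mem_toFinset]
      rintro (g | g | g)
      · exact g.1 rfl
      · exact hrP (List.mem_of_mem_take g)
      · exact hrP (List.mem_of_mem_drop g)
    obtain ⟨Q0, hQ0, -⟩ := exists_short (h.lnk W (by omega) r hrB b hbB hrW hbW.1)
    obtain ⟨Q1, y, hQ, hyP, hQ1, -⟩ := hQ0.first_on (fun z => z ∈ P) hbP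
    have hQW : ∀ z ∈ Q1 ++ [y], z ∉ W := fun z hz => (hQ.mem z hz).2
    have hyW := hWm y (hQW y (by simp))
    obtain ⟨P₁, P₂, hPs⟩ := List.append_of_mem hyP
    have hP1 : N + 1 ≤ P₁.length := by
      by_contra hc
      exact hyW.2.1 (by rw [hPs]; exact mem_take_of (by omega))
    have hP2 : N + 1 ≤ P₂.length := by
      by_contra hc
      refine hyW.2.2 ?_
      rw [hPs]
      refine mem_drop_of ?_
      rw [List.length_append, List.length_cons]
      omega
    obtain ⟨l₁, l₂, hls⟩ := List.append_of_mem hr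
    have hQT : Pth G.Adj {z | z ∈ T} r y (Q1 ++ [y]) := hQ.mono fun z _ hz => hz.1
    rw [hPs] at hP hlP hQ1
    rw [hls] at hl hlP
    obtain ⟨L1, L2, g1, g2, g3, g4, g5⟩ := theta_swap (σ := σ) hl hP hQT hcon.1 hcon.2
      (hP.ne_head (by omega)) (hP.ne_last (by omega)) hlP (fun z hz hzl =>
        (hWm z (hQW z hz)).1 (by rw [hls]; exact hzl)) hQ1
    have f1 : ls σ L1 = α i j := by
      by_contra hc
      have := hgr i j L1 hij g1 hc
      omega
    have f2 : ls σ L2 = α i j := by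
      by_contra hc
      have := hgr i j L2 hij g2 hc
      omega
    have f3 : ls σ (P₁ ++ y :: P₂) = α i j := hα i j hij _ hP (by rw [← hPs]; exact hPl)
    rw [f1, f2, f3] at g3
    apply hne
    rw [hls]
    exact (add_right_cancel g3).symm
  -- key computation for wrong paths
  have key : ∀ {i j k : Fin 3} {l W1 W2 Q1 : List V} {c b : V}, i ≠ j → k ≠ i → k ≠ j →
      Pth G.Adj {z | z ∈ T} (q i) (q j) (W1 ++ c :: W2) → Pth G.Adj {z | z ∈ T} (q i) (q j) l →
      Pth G.Adj {z | z ∈ T} (q k) c (Q1 ++ [c]) → c ≠ q i →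
      (∀ z ∈ l, z ∈ W1 ++ c :: W2 → z = q i ∨ z = q j) → (∀ z ∈ Q1 ++ [c], z ∉ l) →
      (∀ z ∈ Q1, z ∉ W1 ++ c :: W2) → b ∈ W1 ++ [c] → b ∈ B → b ≠ q i → b ≠ q k →
      ls σ l = ls σ (W1 ++ c :: W2) := by
    intro i j k l W1 W2 Q1 c b hij hki hkj hW hl hQ hci hlW hQl hQW hb hbB hbi hbk
    obtain ⟨⟨L3, h3, h3s, h3m⟩, ⟨L4, h4, h4s, h4m⟩⟩ := tri_paths (σ := σ) hW hl hQ hci hlW hQl hQW
    have e3 : ls σ L3 = α k i := by
      by_contra hc
      rcases stepC k i L3 hki h3 hc b (h3m b hb) hbB with g | g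
      · exact hbk g
      · exact hbi g
    have e4 : ls σ L4 = α k i := by
      by_contra hc
      rcases stepC k i L4 hki h4 hc (q j) h4m (hq j) with g | g
      · exact hinj j k (fun hh => hkj hh.symm) g
      · exact hinj j i (fun hh => hij hh.symm) g
    rw [ls_split]
    have h5 := two_self (ls σ (c :: W2))
    have h6 := two_self (ls σ (Q1 ++ [c]))
    have h7 := two_self (ls σ l)
    linear_combination h3s - h4s - e3 + e4 - h5
  obtain ⟨k0, hk0, hk0'⟩ : ∃ k : Fin 3, k ≠ i0 ∧ k ≠ j0 := by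
    fin_cases i0 <;> fin_cases j0 <;> first
      | exact ⟨0, by decide, by decide⟩
      | exact ⟨1, by decide, by decide⟩
      | exact ⟨2, by decide, by decide⟩
  have hkl : q k0 ∉ l0 := by
    intro hm
    rcases stepC i0 j0 l0 hij0 hl0 hne0 _ hm (hq k0) with g | g
    · exact hinj k0 i0 hk0 g
    · exact hinj k0 j0 hk0' g
  have hFc : ((l0.toFinset \ {q i0, q j0}) ∪ {q k0}).card ≤ ρ + 1 := by
    refine (Finset.card_union_le _ _).trans ?_
    rw [Finset.card_singleton]
    have := (Finset.card_le_card (Finset.sdiff_subset (s := l0.toFinset)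
      (t := {q i0, q j0}))).trans (List.toFinset_card_le l0)
    omega
  obtain ⟨P, hP0, hPl⟩ := hlong _ hFc (q i0) (hq i0) (q j0) (hq j0) (by
      rw [Finset.mem_union, Finset.mem_sdiff, Finset.mem_singleton]
      rintro (g | g)
      · exact g.2 (by simp)
      · exact hinj i0 k0 (fun hh => hk0 hh.symm) g) (by
      rw [Finset.mem_union, Finset.mem_sdiff, Finset.mem_singleton]
      rintro (g | g)
      · exact g.2 (by simp)
      · exact hinj j0 k0 (fun hh => hk0' hh.symm) g) (hinj i0 j0 hij0)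
  have hP := hTF hP0
  have hPF : ∀ z ∈ P, (z ∈ l0 → z = q i0 ∨ z = q j0) ∧ z ≠ q k0 := by
    intro z hz
    have := (Finset.mem_sdiff.1 (hP0.mem z hz)).2
    rw [Finset.mem_union, Finset.mem_sdiff, List.mem_toFinset, Finset.mem_singleton, not_or]
      at this
    refine ⟨fun hzl => ?_, this.2⟩
    by_contra hc
    exact this.1 ⟨hzl, by simpa using hc⟩
  obtain ⟨b, hbP, hbW⟩ : ∃ b ∈ P.toFinset, b ∉ ({q i0, q j0} : Finset V) ∪ (T \ B) := by
    refine Finset.exists_mem_notMem_of_card_lt_card ?_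
    have g1 := Finset.card_union_le ({q i0, q j0} : Finset V) (T \ B)
    have g2 := h.fr
    have g3 := Finset.card_le_two (a := q i0) (b := q j0)
    rw [List.toFinset_card_of_nodup hP.nd]
    omega
  rw [List.mem_toFinset] at hbP
  rw [Finset.mem_union, not_or, Finset.mem_sdiff] at hbW
  have hbB : b ∈ B := by
    by_contra hnb
    exact hbW.2 ⟨hP.mem b hbP, hnb⟩
  have hbi : b ≠ q i0 := fun g => hbW.1 (by rw [g]; simp)
  have hbj : b ≠ q j0 := fun g => hbW.1 (by rw [g]; simp)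
  have hbl : b ∉ l0 := fun g => by
    rcases (hPF b hbP).1 g with g | g
    · exact hbi g
    · exact hbj g
  obtain ⟨Q0, hQ0, -⟩ := exists_short (h.lnk l0.toFinset ((List.toFinset_card_le l0).trans
    (by omega)) (q k0) (hq k0) b hbB (by rw [List.mem_toFinset]; exact hkl)
    (by rw [List.mem_toFinset]; exact hbl))
  obtain ⟨Q1, c, hQ, hcP, hQ1, -⟩ := hQ0.first_on (fun z => z ∈ P) hbP
  have hQl : ∀ z ∈ Q1 ++ [c], z ∉ l0 := fun z hz hzl =>
    (hQ.mem z hz).2 (List.mem_toFinset.2 hzl)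
  have hcl : c ∉ l0 := hQl c (by simp)
  have hci : c ≠ q i0 := fun g => hcl (g ▸ hl0.memu)
  have hcj : c ≠ q j0 := fun g => hcl (g ▸ hl0.memv)
  have hQT : Pth G.Adj {z | z ∈ T} (q k0) c (Q1 ++ [c]) := hQ.mono fun z _ hz => hz.1
  have hPs : ls σ P = α i0 j0 := hα i0 j0 hij0 P hP hPl
  obtain ⟨W1, W2, hPe⟩ := List.append_of_mem hcP
  have hR : ∀ a b, G.Adj a b → G.Adj b a := fun a b hab => hab.symm
  have hbs : b ∈ W1 ++ [c] ∨ b ∈ W2.reverse ++ [c] := by
    rw [hPe, List.mem_append, List.mem_cons] at hbP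
    rcases hbP with g | g | g
    · exact Or.inl (List.mem_append.2 (Or.inl g))
    · exact Or.inl (List.mem_append.2 (Or.inr (by simp [g])))
    · exact Or.inr (List.mem_append.2 (Or.inl (List.mem_reverse.2 g)))
  have hlW : ∀ z ∈ l0, z ∈ P → z = q i0 ∨ z = q j0 := fun z hz hzP => (hPF z hzP).1 hz
  have hbk : b ≠ q k0 := (hPF b hbP).2
  rcases hbs with hb | hb
  · apply hne0
    rw [← hPs, hPe]
    refine key hij0 hk0 hk0' (hPe ▸ hP) hl0 hQT hci (fun z hz hzP => hlW z hz (hPe ▸ hzP)) hQl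
      (fun z hz => ?_) hb hbB hbi hbk
    rw [← hPe]
    exact hQ1 z hz
  · apply hne0
    have hPr : P.reverse = W2.reverse ++ c :: W1.reverse := by rw [hPe]; simp
    have hmr : ∀ z, z ∈ W2.reverse ++ c :: W1.reverse ↔ z ∈ P := fun z => by
      rw [← hPr, List.mem_reverse]
    have := key (i := j0) (j := i0) (k := k0) (fun hh => hij0 hh.symm) hk0' hk0
      (hPr ▸ hP.rev hR) (hl0.rev hR) hQT hcj (fun z hz hzP => by
        rw [List.mem_reverse] at hz
        rw [hmr] at hzP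
        exact (hlW z hz hzP).symm) (fun z hz hzl => hQl z hz (List.mem_reverse.1 hzl))
      (fun z hz hzP => hQ1 z hz ((hmr z).1 hzP)) hb hbB hbj hbk
    rw [ls_reverse, ← hPr, ls_reverse] at this
    rw [this, hPs]

end Run7.h807
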