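import Mathlib
import Pool.Agent.Run7.h807.Mn6

set_option autoImplicit false

namespace Run7.h807

variable {V : Type*} {G : SimpleGraph V}

section two

variable [DecidableEq V] [DecidableRel G.Adj] {B T : Finset V} {κ φ K D : ℕ}

theorem Rgn.two_conn (h : Rgn G B T κ φ K D)
    (h2 : ∀ z ∈ T, z ∉ B → 2 ≤ (B.filter (G.Adj z)).card) (hκ : 1 ≤ κ) {S : Finset V}
    (hS : S.card ≤ 1) {x y : V} (hx : x ∈ T) (hy : y ∈ T) (hxS : x ∉ S) (hyS : y ∉ S) :
    Rc G {z | z ∈ T ∧ z ∉ S} x y := by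
  have key : ∀ x, x ∈ T → x ∉ S → ∃ b ∈ B, b ∉ S ∧ Rc G {z | z ∈ T ∧ z ∉ S} x b := by
    intro x hx hxS
    by_cases hxB : x ∈ B
    · exact ⟨x, hxB, hxS, Rc.refl ⟨hx, hxS⟩⟩
    · have h3 := h2 x hx hxB
      obtain ⟨b, hb, hbS⟩ := Finset.exists_mem_notMem_of_card_lt_card (s := S)
        (t := B.filter (G.Adj x)) (by omega)
      rw [Finset.mem_filter] at hb
      exact ⟨b, hb.1, hbS, (Rc.refl (S := {z | z ∈ T ∧ z ∉ S}) ⟨hx, hxS⟩).step hb.2
        ⟨h.sub hb.1, hbS⟩⟩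
  obtain ⟨b, hb, hbS, h3⟩ := key x hx hxS
  obtain ⟨b', hb', hbS', h4⟩ := key y hy hyS
  exact (h3.trans (h.lnk S (by omega) b hb b' hb' hbS hbS')).trans h4.symm

variable [Fintype V]

theorem Rgn.cyc_zero (h : Rgn G B T κ φ K D)
    (h2 : ∀ z ∈ T, z ∉ B → 2 ≤ (B.filter (G.Adj z)).card) (hκ : 1 ≤ κ) {σ : Sym2 V → ZMod 2}
    {q : Fin 3 → V} (hq : ∀ i, q i ∈ B) (hinj : ∀ i j, i ≠ j → q i ≠ q j)
    (hC : Cst G σ T q 0) {s : ZMod 2} {l : List V} (hl : Cyc G σ s l) (hlT : ∀ z ∈ l, z ∈ T) :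
    s = 0 := by
  have hR : ∀ a b, G.Adj a b → G.Adj b a := fun a b hab => hab.symm
  obtain ⟨Y, hY, hYs, hYl⟩ := rim_of_cyc hl
  obtain ⟨c, hc⟩ : ∃ c, c = l.length := ⟨_, rfl⟩
  rw [← hc] at hY hYs
  have hc3 := hY.three
  have hYT : ∀ k, Y k ∈ T := fun k => hlT _ (hYl k)
  obtain ⟨YS, hYS⟩ : ∃ YS, YS = (Finset.range c).image Y := ⟨_, rfl⟩
  have hYSm : ∀ z, z ∈ YS ↔ ∃ k, k < c ∧ Y k = z := fun z => by
    rw [hYS, Finset.mem_image]
    constructor
    · rintro ⟨k, hk, hz⟩; exact ⟨k, Finset.mem_range.1 hk, hz⟩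
    · rintro ⟨k, hk, hz⟩; exact ⟨k, Finset.mem_range.2 hk, hz⟩
  have hYSc : YS.card = c := by rw [hYS]; exact rim_card hY
  have hYk : ∀ k, Y k ∈ YS := fun k => by
    rw [hYSm, hY.modeq k]
    exact ⟨k % c, Nat.mod_lt _ (by omega), rfl⟩
  -- the two arcs
  have key : ∀ {i j : Fin 3} {e f : ℕ} {Ra Rb : List V}, i ≠ j →
      Pth G.Adj {z | z ∈ T} (q i) (Y e) Ra → Pth G.Adj {z | z ∈ T} (q j) (Y f) Rb →
      (∀ z ∈ Ra, z ∉ Rb) → (∀ z ∈ Ra, z ∈ YS → z = Y e) → (∀ z ∈ Rb, z ∈ YS → z = Y f) →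
      e < f → f < c → s = 0 := by
    intro i j e f Ra Rb hij ha hb hab hae hbf hef hfc
    obtain ⟨r, hr⟩ : ∃ r, f = e + r := ⟨f - e, by omega⟩
    have hM1 : Pth G.Adj {z | z ∈ YS} (Y e) (Y f) (seg Y e (r + 1)) := by
      refine ⟨hY.seg_nodup _ _ (by omega), seg_chain hY.adj _ _, seg_head _ _ _, ?_, ?_⟩
      · rw [seg_last, hr]
      · intro z hz
        obtain ⟨k, _, hk⟩ := mem_seg.1 hz
        rw [← hk]; exact hYk _
    have hM2 : Pth G.Adj {z | z ∈ YS} (Y f) (Y e) (seg Y f (c - r + 1)) := by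
      refine ⟨hY.seg_nodup _ _ (by omega), seg_chain hY.adj _ _, seg_head _ _ _, ?_, ?_⟩
      · rw [seg_last, show f + (c - r) = e + c by omega, hY.per]
      · intro z hz
        obtain ⟨k, _, hk⟩ := mem_seg.1 hz
        rw [← hk]; exact hYk _
    have hM2r := hM2.rev hR
    have hbr := hb.rev hR
    have build : ∀ {M : List V}, Pth G.Adj {z | z ∈ YS} (Y e) (Y f) M →
        ∃ L, Pth G.Adj {z | z ∈ T} (q i) (q j) L ∧ ls σ L = ls σ Ra + ls σ M + ls σ Rb := by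
      intro M hM
      have J1 := ha.join hM (fun z hz hz' => hae z hz (hM.mem z hz'))
      have J2 := J1.join hbr (fun z hz hz' => by
        rw [List.mem_reverse] at hz'
        rcases ha.join_mem hM hz with g | g
        · exact absurd hz' (hab z g)
        · exact hbf z hz' (hM.mem z g))
      refine ⟨_, J2.mono fun z _ hz => ?_, ?_⟩
      · rcases hz with (g | g) | g
        · exact g
        · obtain ⟨k, _, hk⟩ := (hYSm z).1 g
          rw [← hk]; exact hYT k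
        · exact g
      · rw [J1.join_ls σ hbr, ha.join_ls σ hM, ls_reverse]
    obtain ⟨L1, g1, s1⟩ := build hM1
    obtain ⟨L2, g2, s2⟩ := build hM2r
    have := hC i j hij L1 L2 g1 g2 (Nat.zero_le _) (Nat.zero_le _)
    rw [s1, s2, ls_reverse, ls_seg σ Y 0, ls_seg σ Y 0, show f + (c - r) = e + c by omega,
      phi_per hY, hYs, hr] at this
    linear_combination -this
  -- two disjoint paths
  have hDP : DP (TG G T) {q 0, q 1} YS 2 := by
    refine menger _ (TG G T) rfl _ _ _ fun S hS => ?_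
    by_contra hcon
    have hS1 : S.card ≤ 1 := by omega
    obtain ⟨a, ha, haS⟩ := Finset.exists_mem_notMem_of_card_lt_card (s := S)
      (t := ({q 0, q 1} : Finset V)) (by
        rw [Finset.card_pair (hinj 0 1 (by decide))]; omega)
    obtain ⟨y, hy, hyS⟩ := Finset.exists_mem_notMem_of_card_lt_card (s := S) (t := YS) (by omega)
    have haT : a ∈ T := by
      rw [Finset.mem_insert, Finset.mem_singleton] at ha
      rcases ha with rfl | rfl
      · exact h.sub (hq 0)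
      · exact h.sub (hq 1)
    have hyT : y ∈ T := by
      obtain ⟨k, _, hk⟩ := (hYSm y).1 hy
      rw [← hk]; exact hYT k
    obtain ⟨p, h3, h4, h5, h6⟩ := h.two_conn h2 hκ hS1 haT hyT haS hyS
    obtain ⟨z, hz, hzS⟩ := hS p (tg_chain h3 fun z hz => (h6 z hz).1) ⟨a, ha, h4⟩ ⟨y, hy, h5⟩
    exact (h6 z hz).2 hzS
  obtain ⟨P, hP, hPd⟩ := hDP
  have htrim : ∀ i : Fin 2, ∃ (m : Fin 3) (e : ℕ) (R : List V), m ≠ 2 ∧ e < c ∧
      Pth G.Adj {z | z ∈ T} (q m) (Y e) R ∧ (∀ z ∈ R, z ∈ YS → z = Y e) ∧ ∀ z ∈ R, z ∈ P i := by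
    intro i
    obtain ⟨p1, p2, ⟨a, ha, p3⟩, ⟨y, hy, p4⟩⟩ := hP i
    obtain ⟨m, hm2, hm⟩ : ∃ m : Fin 3, m ≠ 2 ∧ q m = a := by
      rw [Finset.mem_insert, Finset.mem_singleton] at ha
      rcases ha with rfl | rfl
      · exact ⟨0, by decide, rfl⟩
      · exact ⟨1, by decide, rfl⟩
    subst hm
    have hpth : Pth G.Adj {z | z ∈ T} (q m) y (P i) :=
      ⟨p1, p2.imp fun a b hab => hab.1, p3, p4, tg_mem p2 p3 (h.sub (hq m))⟩
    obtain ⟨Q1, w, h3, h4, h5, h6⟩ := hpth.first_on (fun z => z ∈ YS) hy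
    obtain ⟨e, he, hew⟩ := (hYSm w).1 h4
    subst hew
    refine ⟨m, e, _, hm2, he, h3, ?_, h6⟩
    intro z hz hzY
    rcases List.mem_append.1 hz with g | g
    · exact absurd hzY (h5 z g)
    · rwa [List.mem_singleton] at g
  choose m e R hm he hRp hRY hRP using htrim
  have hdis : ∀ z ∈ R 0, z ∉ R 1 := fun z hz hz' => hPd 0 1 (by decide) z (hRP 0 z hz)
    (hRP 1 z hz')
  have hmne : m 0 ≠ m 1 := fun hh => hdis _ (hRp 0).memu (hh ▸ (hRp 1).memu)
  have hene : e 0 ≠ e 1 := fun hh => hdis _ (hRp 0).memv (hh ▸ (hRp 1).memv)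
  rcases lt_or_gt_of_ne hene with hlt | hgt
  · exact key hmne (hRp 0) (hRp 1) hdis (hRY 0) (hRY 1) hlt (he 1)
  · exact key (fun hh => hmne hh.symm) (hRp 1) (hRp 0) (fun z hz hz' => hdis z hz' hz) (hRY 1)
      (hRY 0) hgt (he 0)

end two

section lift

variable {T : Finset V}

/-- the signature on the subtype -/
def sgT (T : Finset V) (σ : Sym2 V → ZMod 2) : Sym2 {z // z ∈ (↑T : Set V)} → ZMod 2 :=
  fun e => σ (e.map Subtype.val)

theorem ls_sgT (σ : Sym2 V → ZMod 2) : ∀ (l : List {z // z ∈ (↑T : Set V)}),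
    ls (sgT T σ) l = ls σ (l.map Subtype.val)
  | [] => rfl
  | [_] => rfl
  | a :: b :: l => by
    have := ls_sgT σ (b :: l)
    simp only [ls, List.map_cons] at this ⊢
    rw [this]
    rfl

theorem phi_sgT (σ : Sym2 V → ZMod 2) (Y : ℕ → {z // z ∈ (↑T : Set V)}) (a : ZMod 2) :
    ∀ k, phi (sgT T σ) Y a k = phi σ (fun k => (Y k).val) a k
  | 0 => rfl
  | k + 1 => by
    rw [phi, phi, phi_sgT σ Y a k]
    rfl

end lift

variable [DecidableEq V] [DecidableRel G.Adj] {B T : Finset V} {κ φ K D : ℕ} [Fintype V]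

/-- a potential on the region -/
theorem Rgn.pot (h : Rgn G B T κ φ K D)
    (h2 : ∀ z ∈ T, z ∉ B → 2 ≤ (B.filter (G.Adj z)).card) (hκ : 1 ≤ κ) (hD : 3 ≤ D)
    {σ : Sym2 V → ZMod 2} {q : Fin 3 → V} (hq : ∀ i, q i ∈ B) (hinj : ∀ i j, i ≠ j → q i ≠ q j)
    (hC : Cst G σ T q 0) :
    ∃ π : V → ZMod 2, ∀ x ∈ T, ∀ y ∈ T, G.Adj x y → σ s(x, y) = π x + π y := by
  classical
  obtain ⟨l, hl, hlB, hlen⟩ := core_cycle (G := G) σ (h := 2) le_rfl B ⟨q 0, hq 0⟩
    (fun v hv => by have := h.deg v hv; omega)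
  obtain ⟨Y, hY, hY0, hYl⟩ := rim_of_cyc hl
  have hYT : ∀ k, Y k ∈ (↑T : Set V) := fun k => h.sub (hlB _ (hYl k))
  have hTwo : Two (G.induce (↑T : Set V)) := by
    intro v a b hav hbv
    obtain ⟨p, h3, h4, h5, h6⟩ := h.two_conn h2 hκ (S := {v.val}) (by simp) (x := a.val)
      (y := b.val) a.2 b.2 (by
        rw [Finset.mem_singleton]; exact fun hh => hav (Subtype.ext hh)) (by
        rw [Finset.mem_singleton]; exact fun hh => hbv (Subtype.ext hh))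
    obtain ⟨w, hw⟩ := walk_of_list h3 h4 h5
    have hwT : ∀ z ∈ w.support, z ∈ (↑T : Set V) := fun z hz => (h6 z (hw ▸ hz)).1
    refine ⟨w.induce _ hwT, ?_⟩
    rw [SimpleGraph.Walk.support_induce]
    intro hv
    have hv' : v.val ∈ w.support := by
      simpa [List.mem_attachWith] using hv
    exact (h6 v.val (hw ▸ hv')).2 (by simp)
  have hUni : Uni (G.induce (↑T : Set V)) 3 (sgT T σ) 0 := by
    intro l' x y hn hc hx hy ha h3 _
    rw [ls_sgT]
    refine h.cyc_zero h2 hκ hq hinj hC (l := l'.map Subtype.val) ⟨?_, ?_, ?_, x.val, y.val, ?_, ?_,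
      ha, rfl⟩ ?_
    · exact hn.map Subtype.val_injective
    · rw [List.isChain_map]
      exact hc.imp fun a b hab => hab
    · rw [List.length_map]; exact h3
    · rw [List.head?_map, hx]; rfl
    · rw [List.getLast?_map, hy]; rfl
    · intro z hz
      rw [List.mem_map] at hz
      obtain ⟨w, _, rfl⟩ := hz
      exact w.2
  have hRim : Rim (G.induce (↑T : Set V)) l.length (fun k => ⟨Y k, hYT k⟩) := by
    refine ⟨fun k => Subtype.ext (hY.per k), fun i j hi hj hij => hY.inj i j hi hj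
      (congrArg Subtype.val hij), fun k => hY.adj k, hY.three⟩
  obtain ⟨π, hπ⟩ := bal_of_rim hTwo (m := 3) le_rfl hUni hRim (by
    rw [phi_sgT]; exact hY0) (by have := hY.three; omega)
  refine ⟨fun z => if hz : z ∈ (↑T : Set V) then π ⟨z, hz⟩ else 0, ?_⟩
  intro x hx y hy hxy
  have hx' : x ∈ (↑T : Set V) := hx
  have hy' : y ∈ (↑T : Set V) := hy
  beta_reduce
  rw [dif_pos hx', dif_pos hy']
  exact hπ ⟨x, hx'⟩ ⟨y, hy'⟩ hxy

end Run7.h807
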