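import Mathlib
import Pool.Agent.Run7.h807.Mn7

set_option autoImplicit false

namespace Run7.h807

variable {V : Type*} {G : SimpleGraph V}

theorem ptop_of_max {S : Set V} {x y : V} {l : List V} (hl : Pth G.Adj S x y l)
    (hmax : ∀ l', Pth G.Adj S x y l' → l'.length ≤ l.length) :
    ∃ X, PTop G (fun _ => 0) S l.length X ∧ ∀ z, z ∈ l ↔ ∃ k, X k = z := by
  obtain ⟨X, hX, hX0, hX1, hm, -⟩ := px_of_pth hl
  refine ⟨X, ⟨hX, ?_⟩, hm⟩
  intro l' hl' _
  rw [hX0, hX1] at hl'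
  exact hmax l' hl'

theorem PTop.ins1 [DecidableEq V] [DecidableRel G.Adj] {S : Set V} {N : ℕ} {X : ℕ → V}
    (ht : PTop G (fun _ => 0) S N X)
    {v : V} (hv : ∀ k, X k ≠ v) (hvS : v ∈ S)
    (h1 : N + 3 < 2 * ((Finset.range N).filter (fun k => G.Adj v (X k))).card) : False := by
  obtain ⟨e, _, he, hva, hvb⟩ := unit_other N h1
  have := ht.one (OP.single hv) (fun z hz => by
    rw [List.mem_singleton] at hz; rw [hz]; exact hvS) (i := e) (j := e + 1) (by omega) he hva hvb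
    (by
      unfold cs
      rw [phi_zero, phi_zero, ls_zero]
      simp)
  simp only [List.length_cons, List.length_nil] at this
  omega

variable [DecidableEq V] [DecidableRel G.Adj] {B T : Finset V} {κ φ K D : ℕ} [Fintype V]

/-- connectors landing on one list -/
theorem cnr_count {S : Set V} {R : Finset V} {c : ℕ} {Y : ℕ → V} (hY : Rim G c Y) {l : List V}
    {X : ℕ → V} (ht : PTop G (fun _ => 0) S l.length X) (hXm : ∀ z, z ∈ l ↔ ∃ k, X k = z)
    (hlR : ∀ z ∈ l, z ∈ R) (hTS : ∀ z ∈ T, z ∉ R → z ∈ S) (hYT : ∀ k, Y k ∈ T)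
    (hYR : ∀ k, Y k ∉ R) {K' : ℕ} {e : Fin K' → ℕ} {Q : Fin K' → List V} {u r : Fin K' → V}
    (h1 : ∀ i, CnR G T R Y (e i) (Q i) (u i) (r i) ∧ e i < c)
    (h2 : ∀ i j, i ≠ j → ∀ z ∈ Y (e i) :: Q i, z ∉ Y (e j) :: Q j)
    (h3 : ∀ i j, i ≠ j → r i ≠ r j) {k μ : ℕ} (hμ : 2 * μ ≤ c + 1)
    (hk : k ≤ (Finset.univ.filter (fun i => r i ∈ l)).card) :
    k ≤ 2 * ((l.length - 1) / (μ + 2) + 1) := by
  obtain ⟨I, hI, hIc⟩ := Finset.exists_subset_card_eq hk
  obtain ⟨g⟩ : Nonempty (Fin k ≃ I) := ⟨(Fintype.equivFinOfCardEq (by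
    rw [Fintype.card_coe]; exact hIc)).symm⟩
  have hgl : ∀ i, r (g i).1 ∈ l := fun i => (Finset.mem_filter.1 (hI (g i).2)).2
  have hgi : ∀ i j, i ≠ j → (g i).1 ≠ (g j).1 := fun i j hij hh =>
    hij (g.injective (Subtype.ext hh))
  have hra : ∀ i, ∃ a, a < l.length ∧ X a = r (g i).1 := fun i => by
    obtain ⟨k, hk⟩ := (hXm _).1 (hgl i)
    obtain ⟨a, ha, hak⟩ := ht.out k
    exact ⟨a, ha, hak.trans hk⟩
  choose a ha hra using hra
  refine ht.count hY (phi_zero _ _) (fun k j he => hYR j (he ▸ hlR _ ((hXm _).2 ⟨k, rfl⟩)))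
    (fun k => hTS _ (hYT k) (hYR k)) (fun i => e (g i).1) a (fun i => Q (g i).1)
    (fun i => u (g i).1) (fun i => ⟨⟨(h1 _).1.nd, (h1 _).1.ch, (h1 _).1.lt, ?_, (h1 _).1.offY,
      ?_⟩, (h1 _).2, ha i, ?_⟩) (fun i j hij => h2 _ _ (hgi i j hij)) (fun i j hij haa =>
      h3 _ _ (hgi i j hij) (by rw [← hra i, ← hra j, haa])) hμ
  · intro z hz k hk
    exact (h1 _).1.off z hz (hlR z ((hXm z).2 ⟨k, hk⟩))
  · rw [hra]; exact (h1 _).1.adj
  · intro z hz
    exact hTS z ((h1 _).1.inT z hz) ((h1 _).1.off z hz)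

/-- two disjoint paths of large total length to two of the three terminals -/
theorem Rgn.link2B (h : Rgn G B T κ φ K D) {q : Fin 3 → V} (hq : ∀ i, q i ∈ B)
    (hinj : ∀ i j, i ≠ j → q i ≠ q j) {x y : V} (hx : x ∈ B) (hy : y ∈ B) (hxy : x ≠ y)
    {ℓ k μ j ρ : ℕ} (hμ : 3 ≤ μ) (hρ : ρ = 2 * (2 * k - 1 + φ)) (hk1 : 1 ≤ k)
    (hB : ℓ + 1 ≤ B.card) (hdeg : ℓ + 7 + 2 * (4 * μ - 5) ≤ 2 * D) (hκ : 2 * ρ ≤ κ)
    (hkμ : 2 * k + φ ≤ 2 * μ - 1) (hD : 2 * ρ + 1 < D) (hN : ℓ ≤ j * (μ + 2)) (hj : 2 * j < k) :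
    ∃ (i i' : Fin 3) (l₁ l₂ : List V), i ≠ i' ∧ Pth G.Adj {z | z ∈ T} x (q i) l₁ ∧
      Pth G.Adj {z | z ∈ T} y (q i') l₂ ∧ (∀ z ∈ l₁, z ∉ l₂) ∧ ℓ ≤ l₁.length + l₂.length := by
  classical
  -- existence
  have hex : ∃ (i i' : Fin 3) (l₁ l₂ : List V), i ≠ i' ∧ Pth G.Adj {z | z ∈ T} x (q i) l₁ ∧
      Pth G.Adj {z | z ∈ T} y (q i') l₂ ∧ (∀ z ∈ l₁, z ∉ l₂) := by
    have hDP : DP (TG G T) {x, y} (Finset.univ.image q) 2 := by
      refine menger _ (TG G T) rfl _ _ _ fun S hS => ?_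
      by_contra hcon
      obtain ⟨a, ha, haS⟩ := Finset.exists_mem_notMem_of_card_lt_card (s := S)
        (t := ({x, y} : Finset V)) (by rw [Finset.card_pair hxy]; omega)
      obtain ⟨b, hb, hbS⟩ := Finset.exists_mem_notMem_of_card_lt_card (s := S)
        (t := Finset.univ.image q) (by
          rw [Finset.card_image_of_injective _ (fun a b hab => by
            by_contra hne; exact hinj a b hne hab), Finset.card_univ, Fintype.card_fin]
          omega)
      have haB : a ∈ B := by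
        rw [Finset.mem_insert, Finset.mem_singleton] at ha
        rcases ha with rfl | rfl
        · exact hx
        · exact hy
      have hbB : b ∈ B := by
        rw [Finset.mem_image] at hb
        obtain ⟨i, _, rfl⟩ := hb
        exact hq i
      obtain ⟨p, h3, h4, h5, h6⟩ := h.lnk S (by omega) a haB b hbB haS hbS
      obtain ⟨z, hz, hzS⟩ := hS p (tg_chain h3 fun z hz => (h6 z hz).1) ⟨a, ha, h4⟩ ⟨b, hb, h5⟩
      exact (h6 z hz).2 hzS
    obtain ⟨P, hP, hPd⟩ := hDP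
    have hi : ∀ i : Fin 2, ∃ (a : V) (m : Fin 3), (a = x ∨ a = y) ∧
        Pth G.Adj {z | z ∈ T} a (q m) (P i) := by
      intro i
      obtain ⟨p1, p2, ⟨a, ha, p3⟩, ⟨b, hb, p4⟩⟩ := hP i
      rw [Finset.mem_image] at hb
      obtain ⟨m, _, rfl⟩ := hb
      have haT : a ∈ T := by
        rw [Finset.mem_insert, Finset.mem_singleton] at ha
        rcases ha with rfl | rfl
        · exact h.sub hx
        · exact h.sub hy
      exact ⟨a, m, by simpa using ha, p1, p2.imp fun a b hab => hab.1, p3, p4, tg_mem p2 p3 haT⟩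
    obtain ⟨a0, m0, ha0, hp0⟩ := hi 0
    obtain ⟨a1, m1, ha1, hp1⟩ := hi 1
    have hdis : ∀ z ∈ P 0, z ∉ P 1 := fun z hz hz' => hPd 0 1 (by decide) z hz hz'
    have hm : m0 ≠ m1 := fun hh => hdis _ hp0.memv (hh ▸ hp1.memv)
    have ha : a0 ≠ a1 := fun hh => hdis _ hp0.memu (hh ▸ hp1.memu)
    rcases ha0 with rfl | rfl
    · rcases ha1 with rfl | rfl
      · exact absurd rfl ha
      · exact ⟨m0, m1, _, _, hm, hp0, hp1, hdis⟩
    · rcases ha1 with rfl | rfl
      · exact ⟨m1, m0, _, _, fun hh => hm hh.symm, hp1, hp0, fun z hz hz' => hdis z hz' hz⟩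
      · exact absurd rfl ha
  -- maximal choice
  obtain ⟨Wr, hWr⟩ : ∃ Wr : ℕ → Prop, Wr = fun n => ∃ (i i' : Fin 3) (l₁ l₂ : List V), i ≠ i' ∧
    Pth G.Adj {z | z ∈ T} x (q i) l₁ ∧ Pth G.Adj {z | z ∈ T} y (q i') l₂ ∧
    (∀ z ∈ l₁, z ∉ l₂) ∧ l₁.length + l₂.length = n := ⟨_, rfl⟩
  have hcard : ∀ l₁ l₂ : List V, l₁.Nodup → l₂.Nodup → (∀ z ∈ l₁, z ∉ l₂) →
      l₁.length + l₂.length ≤ Fintype.card V := fun l₁ l₂ h1 h2 h3 => by
    rw [← List.length_append]
    refine List.Nodup.length_le_card ?_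
    rw [List.nodup_append]
    exact ⟨h1, h2, fun a ha b hb hab => h3 a ha (hab ▸ hb)⟩
  obtain ⟨ib, jb, lb, lb', e1, e2, e3, e4⟩ := hex
  have hspec := Nat.findGreatest_spec (P := Wr) (hcard lb lb' e2.nd e3.nd e4)
    (by rw [hWr]; exact ⟨ib, jb, lb, lb', e1, e2, e3, e4, rfl⟩)
  have hgr : ∀ (i i' : Fin 3) (l₁ l₂ : List V), i ≠ i' → Pth G.Adj {z | z ∈ T} x (q i) l₁ →
      Pth G.Adj {z | z ∈ T} y (q i') l₂ → (∀ z ∈ l₁, z ∉ l₂) →
      l₁.length + l₂.length ≤ Nat.findGreatest Wr (Fintype.card V) := fun i j l l' h1 h2 h3 h4 =>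
    Nat.le_findGreatest (hcard l l' h2.nd h3.nd h4) (by
      rw [hWr]; exact ⟨i, j, l, l', h1, h2, h3, h4, rfl⟩)
  obtain ⟨N, hNd⟩ : ∃ N, N = Nat.findGreatest Wr (Fintype.card V) := ⟨_, rfl⟩
  rw [← hNd] at hspec hgr
  rw [hWr] at hspec
  obtain ⟨i0, j0, l₁, l₂, hij, hl₁, hl₂, hdis, hlen⟩ := hspec
  refine ⟨i0, j0, l₁, l₂, hij, hl₁, hl₂, hdis, ?_⟩
  by_contra hcon
  push Not at hcon
  have hmid : ∀ F : Finset V, F.card ≤ ρ → ∀ x ∈ B, ∀ y ∈ B, x ∉ F → y ∉ F → x ≠ y →
      ∃ l, Pth G.Adj {z | z ∈ T ∧ z ∉ F} x y l ∧ ρ + 2 ≤ l.length := by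
    intro F hF x hx y hy hxF hyF hxy
    obtain ⟨l, hl, hll⟩ := (h.del hF (by omega)).mid_path (Finset.mem_sdiff.2 ⟨hx, hxF⟩)
      (Finset.mem_sdiff.2 ⟨hy, hyF⟩) hxy (m := ρ) (by omega) (by omega)
    exact ⟨l, hl.mono fun z _ hz => Finset.mem_sdiff.1 hz, hll⟩
  rcases Nat.lt_or_ge ρ N with hbig | hsmall
  · -- large systems
    obtain ⟨R, hR⟩ : ∃ R, R = l₁.toFinset ∪ l₂.toFinset := ⟨_, rfl⟩
    have hRm : ∀ z, z ∈ R ↔ z ∈ l₁ ∨ z ∈ l₂ := fun z => by
      rw [hR, Finset.mem_union, List.mem_toFinset, List.mem_toFinset]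
    have hRc : R.card = N := by
      rw [hR, Finset.card_union_of_disjoint, List.toFinset_card_of_nodup hl₁.nd,
        List.toFinset_card_of_nodup hl₂.nd, hlen]
      rw [Finset.disjoint_left]
      intro z hz hz'
      rw [List.mem_toFinset] at hz hz'
      exact hdis z hz hz'
    have hRT : R ⊆ T := fun z hz => by
      rcases (hRm z).1 hz with g | g
      · exact hl₁.mem z g
      · exact hl₂.mem z g
    obtain ⟨X₁, ht₁, hX₁⟩ := ptop_of_max (S := {z | z ∈ T ∧ z ∉ l₂})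
      (hl₁.mono fun z hz hz' => ⟨hz', hdis z hz⟩) (fun l' hl' => by
        have := hgr i0 j0 l' l₂ hij (hl'.mono fun z _ hz => hz.1) hl₂ fun z hz =>
          (hl'.mem z hz).2
        omega)
    obtain ⟨X₂, ht₂, hX₂⟩ := ptop_of_max (S := {z | z ∈ T ∧ z ∉ l₁})
      (hl₂.mono fun z hz hz' => ⟨hz', fun hz'' => hdis z hz'' hz⟩) (fun l' hl' => by
        have := hgr i0 j0 l₁ l' hij hl₁ (hl'.mono fun z _ hz => hz.1) fun z hz hz' =>
          (hl'.mem z hz').2 hz
        omega)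
    have hOc := Finset.le_card_sdiff R B
    by_cases hcore : ∃ S ⊆ B \ R, S.Nonempty ∧ ∀ v ∈ S, 4 * μ - 5 ≤ (S.filter (G.Adj v)).card
    · obtain ⟨S, hSO, hSne, hSd⟩ := hcore
      obtain ⟨l, hl, hlS, hlenS⟩ := core_cycle (G := G) (fun _ => 0) (h := 2 * μ - 2) (by omega) S
        hSne (fun v hv => by
          have := hSd v hv
          omega)
      obtain ⟨Y, hY, -, hYl⟩ := rim_of_cyc hl
      obtain ⟨c, hc⟩ : ∃ c, c = l.length := ⟨_, rfl⟩
      rw [← hc] at hY hlenS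
      have hYO : ∀ i, Y i ∈ B ∧ Y i ∉ R := fun i => Finset.mem_sdiff.1 (hSO (hlS _ (hYl i)))
      obtain ⟨e, Q, u, r, h1, h2, h3⟩ := h.conns hY (fun i => (hYO i).1) hRT
        (fun i => (hYO i).2) (k := 2 * k) (by omega) (by omega) (by omega) (by omega)
      have hsum : 2 * k ≤ (Finset.univ.filter (fun i => r i ∈ l₁)).card +
          (Finset.univ.filter (fun i => r i ∈ l₂)).card := by
        have : (Finset.univ : Finset (Fin (2 * k))) ⊆ (Finset.univ.filter (fun i => r i ∈ l₁)) ∪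
            (Finset.univ.filter (fun i => r i ∈ l₂)) := by
          intro i _
          rw [Finset.mem_union, Finset.mem_filter, Finset.mem_filter]
          rcases (hRm _).1 (h1 i).1.rR with g | g
          · exact Or.inl ⟨Finset.mem_univ _, g⟩
          · exact Or.inr ⟨Finset.mem_univ _, g⟩
        have h5 := (Finset.card_le_card this).trans (Finset.card_union_le _ _)
        rwa [Finset.card_univ, Fintype.card_fin] at h5
      have hdiv : ∀ n, n ≤ N → (n - 1) / (μ + 2) < j := by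
        intro n hn
        rw [Nat.div_lt_iff_lt_mul (by omega)]
        have := hl₁.pos
        omega
      rcases Nat.lt_or_ge (Finset.univ.filter (fun i => r i ∈ l₁)).card k with hlt | hge
      · have := cnr_count (T := T) hY ht₂ hX₂ (fun z hz => (hRm z).2 (Or.inr hz))
          (fun z hz hzR => ⟨hz, fun hz' => hzR ((hRm z).2 (Or.inl hz'))⟩)
          (fun i => h.sub (hYO i).1) (fun i => (hYO i).2) h1 h2 h3 (k := k) (μ := μ) (by omega)
          (by omega)
        have := hdiv l₂.length (by omega)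
        omega
      · have := cnr_count (T := T) hY ht₁ hX₁ (fun z hz => (hRm z).2 (Or.inl hz))
          (fun z hz hzR => ⟨hz, fun hz' => hzR ((hRm z).2 (Or.inr hz'))⟩)
          (fun i => h.sub (hYO i).1) (fun i => (hYO i).2) h1 h2 h3 (k := k) (μ := μ) (by omega)
          hge
        have := hdiv l₁.length (by omega)
        omega
    · obtain ⟨v, hv, v', hv', hvv, hvd, hvd'⟩ := two_low (by omega) hcore
      rw [Finset.mem_sdiff] at hv
      have g1 := h.deg v hv.1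
      have g2 := nb_split (G := G) (B := B) (R := R) v
      have him : ∀ {l : List V} {X : ℕ → V} {S : Set V},
          PTop G (fun _ => 0) S l.length X → (∀ z, z ∈ l ↔ ∃ k, X k = z) →
          (l.toFinset.filter (G.Adj v)).card ≤
            ((Finset.range l.length).filter (fun k => G.Adj v (X k))).card := by
        intro l X S ht hX
        have : l.toFinset = (Finset.range l.length).image X := by
          ext z
          rw [List.mem_toFinset, ht.toPX.mem_im]
          exact hX z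
        rw [this]
        exact nb_image X v
      have g3 := him ht₁ hX₁
      have g4 := him ht₂ hX₂
      have g5 : (R.filter (G.Adj v)).card ≤ (l₁.toFinset.filter (G.Adj v)).card +
          (l₂.toFinset.filter (G.Adj v)).card := by
        rw [hR, Finset.filter_union]
        exact Finset.card_union_le _ _
      have hv1 : v ∉ l₁ := fun g => hv.2 ((hRm v).2 (Or.inl g))
      have hv2 : v ∉ l₂ := fun g => hv.2 ((hRm v).2 (Or.inr g))
      rcases Nat.lt_or_ge (l₁.length + 3)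
        (2 * ((Finset.range l₁.length).filter (fun k => G.Adj v (X₁ k))).card) with hlt | hge
      · exact ht₁.ins1 (fun k hk => hv1 ((hX₁ v).2 ⟨k, hk⟩)) ⟨h.sub hv.1, hv2⟩ hlt
      · refine ht₂.ins1 (fun k hk => hv2 ((hX₂ v).2 ⟨k, hk⟩)) ⟨h.sub hv.1, hv1⟩ ?_
        omega
  · -- small systems
    have p1 := hl₁.pos
    have p2 := hl₂.pos
    by_cases hxi : x = q i0
    · by_cases hyj : y = q j0
      · obtain ⟨k0, hk0, hk0'⟩ : ∃ k : Fin 3, k ≠ i0 ∧ k ≠ j0 := by
          fin_cases i0 <;> fin_cases j0 <;> first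
            | exact ⟨0, by decide, by decide⟩
            | exact ⟨1, by decide, by decide⟩
            | exact ⟨2, by decide, by decide⟩
        obtain ⟨l, hl, hll⟩ := hmid {y} (by rw [Finset.card_singleton]; omega) x hx (q k0)
          (hq k0) (by rw [Finset.mem_singleton]; exact hxy) (by
            rw [Finset.mem_singleton, hyj]; exact hinj k0 j0 hk0') (by
            rw [hxi]; exact hinj i0 k0 fun hh => hk0 hh.symm)
        have := hgr k0 j0 l [y] hk0' (hl.mono fun z _ hz => hz.1) (by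
          rw [hyj]; exact Pth.single (h.sub (hq j0))) (fun z hz hz' => by
          rw [List.mem_singleton] at hz'
          exact (hl.mem z hz).2 (by rw [hz']; simp))
        rw [List.length_singleton] at this
        omega
      · obtain ⟨l, hl, hll⟩ := hmid l₁.toFinset ((List.toFinset_card_le _).trans (by omega)) y hy
          (q j0) (hq j0) (by rw [List.mem_toFinset]; exact fun g => hdis y g hl₂.memu) (by
            rw [List.mem_toFinset]; exact fun g => hdis _ g hl₂.memv) hyj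
        have := hgr i0 j0 l₁ l hij hl₁ (hl.mono fun z _ hz => hz.1) (fun z hz hz' =>
          (hl.mem z hz').2 (List.mem_toFinset.2 hz))
        omega
    · obtain ⟨l, hl, hll⟩ := hmid l₂.toFinset ((List.toFinset_card_le _).trans (by omega)) x hx
        (q i0) (hq i0) (by rw [List.mem_toFinset]; exact fun g => hdis x hl₁.memu g) (by
          rw [List.mem_toFinset]; exact fun g => hdis _ hl₁.memv g) hxi
      have := hgr i0 j0 l l₂ hij (hl.mono fun z _ hz => hz.1) hl₂ (fun z hz hz' =>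
        (hl.mem z hz).2 (List.mem_toFinset.2 hz'))
      omega

end Run7.h807
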