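import Mathlib
import Pool.Agent.Run7.h807.Mn8

set_option autoImplicit false

namespace Run7.h807

variable {V : Type*} {G : SimpleGraph V}

/-- a weakly robust side with terminals `q` -/
structure WB (G : SimpleGraph V) (T : Finset V) (q : Fin 3 → V) (ℓ : ℕ) : Prop where
  long : ∀ x ∈ T, ∀ y ∈ T, x ≠ y → ∃ l, Pth G.Adj {z | z ∈ T} x y l ∧ ℓ ≤ l.length
  link : ∀ x ∈ T, ∀ y ∈ T, x ≠ y → ∃ (i i' : Fin 3) (l₁ l₂ : List V), i ≠ i' ∧
    Pth G.Adj {z | z ∈ T} x (q i) l₁ ∧ Pth G.Adj {z | z ∈ T} y (q i') l₂ ∧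
    (∀ z ∈ l₁, z ∉ l₂) ∧ ℓ ≤ l₁.length + l₂.length

theorem ext_hd {S : Set V} {x x' w : V} {l : List V} (hl : Pth G.Adj S x' w l) (hx : x ∈ S)
    (hcase : x' = x ∨ (G.Adj x x' ∧ x ∉ l)) :
    ∃ lx, Pth G.Adj S x w lx ∧ l.length ≤ lx.length ∧ ∀ z ∈ lx, z ∈ l ∨ z = x := by
  rcases hcase with rfl | ⟨h1, h2⟩
  · exact ⟨l, hl, le_rfl, fun z hz => Or.inl hz⟩
  · refine ⟨x :: l, ⟨List.nodup_cons.2 ⟨h2, hl.nd⟩, ?_, rfl, ?_, ?_⟩, by simp, ?_⟩
    · rw [hl.cons_eq, List.isChain_cons_cons]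
      rw [← hl.cons_eq]
      exact ⟨h1, hl.ch⟩
    · rw [hl.cons_eq, List.getLast?_cons_cons, ← hl.cons_eq]
      exact hl.lt
    · intro z hz
      rcases List.mem_cons.1 hz with rfl | hz
      · exact hx
      · exact hl.mem z hz
    · intro z hz
      rcases List.mem_cons.1 hz with g | g
      · exact Or.inr g
      · exact Or.inl g

variable [DecidableEq V]

section rgn

variable [DecidableRel G.Adj] {B T : Finset V} {κ φ K D : ℕ}

theorem Rgn.access (h : Rgn G B T κ φ K D)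
    (h2 : ∀ z ∈ T, z ∉ B → 2 ≤ (B.filter (G.Adj z)).card) {x y : V} (hx : x ∈ T) (hy : y ∈ T)
    (hxy : x ≠ y) : ∃ (F : Finset V) (x' y' : V), F.card ≤ 2 ∧ x' ∈ B ∧ y' ∈ B ∧ x' ≠ y' ∧
      (∀ z ∈ F, z ∉ B) ∧ (x' = x ∨ (G.Adj x x' ∧ x ∈ F)) ∧ (y' = y ∨ (G.Adj y y' ∧ y ∈ F)) := by
  classical
  obtain ⟨x', hx', hx'y, hcx⟩ : ∃ x' ∈ B, x' ≠ y ∧ (x' = x ∨ (G.Adj x x' ∧ x ∉ B)) := by
    by_cases hxB : x ∈ B
    · exact ⟨x, hxB, hxy, Or.inl rfl⟩
    · have := h2 x hx hxB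
      obtain ⟨b, hb, hby⟩ := Finset.exists_mem_notMem_of_card_lt_card (s := {y})
        (t := B.filter (G.Adj x)) (by rw [Finset.card_singleton]; omega)
      rw [Finset.mem_filter] at hb
      rw [Finset.mem_singleton] at hby
      exact ⟨b, hb.1, hby, Or.inr ⟨hb.2, hxB⟩⟩
  obtain ⟨y', hy', hxy', hcy⟩ : ∃ y' ∈ B, x' ≠ y' ∧ (y' = y ∨ (G.Adj y y' ∧ y ∉ B)) := by
    by_cases hyB : y ∈ B
    · exact ⟨y, hyB, hx'y, Or.inl rfl⟩
    · have := h2 y hy hyB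
      obtain ⟨b, hb, hby⟩ := Finset.exists_mem_notMem_of_card_lt_card (s := {x'})
        (t := B.filter (G.Adj y)) (by rw [Finset.card_singleton]; omega)
      rw [Finset.mem_filter] at hb
      rw [Finset.mem_singleton] at hby
      exact ⟨b, hb.1, fun hh => hby hh.symm, Or.inr ⟨hb.2, hyB⟩⟩
  refine ⟨({x, y} : Finset V).filter (fun z => z ∉ B), x', y', ?_, hx', hy', hxy', ?_, ?_, ?_⟩
  · exact (Finset.card_filter_le _ _).trans Finset.card_le_two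
  · intro z hz
    exact (Finset.mem_filter.1 hz).2
  · rcases hcx with g | ⟨g1, g2⟩
    · exact Or.inl g
    · exact Or.inr ⟨g1, Finset.mem_filter.2 ⟨by simp, g2⟩⟩
  · rcases hcy with g | ⟨g1, g2⟩
    · exact Or.inl g
    · exact Or.inr ⟨g1, Finset.mem_filter.2 ⟨by simp, g2⟩⟩

variable [Fintype V]

/-- robust regions are weakly robust sides -/
theorem Rgn.wb (h : Rgn G B T κ φ K D)
    (h2 : ∀ z ∈ T, z ∉ B → 2 ≤ (B.filter (G.Adj z)).card) {q : Fin 3 → V} (hq : ∀ i, q i ∈ B)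
    (hinj : ∀ i j, i ≠ j → q i ≠ q j)
    {ℓ k μ j ρ : ℕ} (hμ : 3 ≤ μ) (hρ : ρ = 2 * (2 * k - 1 + (φ + 2))) (hk1 : 1 ≤ k)
    (hB : ℓ + 1 ≤ B.card) (hdeg : ℓ + 11 + 2 * (4 * μ - 5) ≤ 2 * D) (hκ : 2 * ρ + 2 ≤ κ)
    (hkμ : 2 * k + φ + 2 ≤ 2 * μ - 1) (hD : 2 * ρ + 4 < D) (hN : ℓ ≤ j * (μ + 2))
    (hj : 2 * j < k) : WB G T q ℓ := by
  refine ⟨?_, ?_⟩
  · intro x hx y hy hxy
    obtain ⟨F, x', y', hF, hx', hy', hxy', hFB, hcx, hcy⟩ := h.access h2 hx hy hxy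
    obtain ⟨l, hl, hll⟩ := (h.del hF (by omega)).long_path (x := x') (y := y') (ℓ := ℓ)
      (Finset.mem_sdiff.2 ⟨hx', fun g => hFB _ g hx'⟩)
      (Finset.mem_sdiff.2 ⟨hy', fun g => hFB _ g hy'⟩) hxy' (k := k) (μ := μ) (j := j) hμ (by
        rw [Finset.sdiff_eq_self_of_disjoint]
        · exact hB
        · rw [Finset.disjoint_left]; exact fun z hz hz' => hFB z hz' hz) (by omega) (by omega) hk1
      (by omega) (by omega) hN hj
    have hlF : ∀ z ∈ l, z ∉ F := fun z hz => (Finset.mem_sdiff.1 (hl.mem z hz)).2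
    have hlT : Pth G.Adj {z | z ∈ T} x' y' l := hl.mono fun z _ hz => (Finset.mem_sdiff.1 hz).1
    obtain ⟨lx, h3, h4, h5⟩ := ext_hd hlT hx (by
      rcases hcx with g | ⟨g1, g2⟩
      · exact Or.inl g
      · exact Or.inr ⟨g1, fun g => hlF x g g2⟩)
    have hR : ∀ a b, G.Adj a b → G.Adj b a := fun a b hab => hab.symm
    obtain ⟨ly, h6, h7, -⟩ := ext_hd (h3.rev hR) hy (by
      rcases hcy with g | ⟨g1, g2⟩
      · exact Or.inl g
      · refine Or.inr ⟨g1, fun g => ?_⟩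
        rw [List.mem_reverse] at g
        rcases h5 y g with g | g
        · exact hlF y g g2
        · exact hxy g.symm)
    refine ⟨ly.reverse, h6.rev hR, ?_⟩
    rw [List.length_reverse] at h7 ⊢
    omega
  · intro x hx y hy hxy
    obtain ⟨F, x', y', hF, hx', hy', hxy', hFB, hcx, hcy⟩ := h.access h2 hx hy hxy
    have hBF : B \ F = B := by
      rw [Finset.sdiff_eq_self_of_disjoint]
      rw [Finset.disjoint_left]; exact fun z hz hz' => hFB z hz' hz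
    obtain ⟨i, i', l₁, l₂, hii, hl₁, hl₂, hd, hll⟩ := (h.del hF (by omega)).link2B (q := q)
      (fun i => by rw [hBF]; exact hq i) hinj (x := x') (y := y') (by rw [hBF]; exact hx')
      (by rw [hBF]; exact hy') hxy' (ℓ := ℓ) (k := k) (μ := μ) (j := j) (ρ := ρ) hμ hρ hk1
      (by rw [hBF]; exact hB) (by omega) (by omega) (by omega) (by omega) hN hj
    have hlF₁ : ∀ z ∈ l₁, z ∉ F := fun z hz => (Finset.mem_sdiff.1 (hl₁.mem z hz)).2
    have hlF₂ : ∀ z ∈ l₂, z ∉ F := fun z hz => (Finset.mem_sdiff.1 (hl₂.mem z hz)).2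
    obtain ⟨lx, h3, h4, h5⟩ := ext_hd (hl₁.mono fun z _ hz => (Finset.mem_sdiff.1 hz).1 :
      Pth G.Adj {z | z ∈ T} x' (q i) l₁) hx (by
      rcases hcx with g | ⟨g1, g2⟩
      · exact Or.inl g
      · exact Or.inr ⟨g1, fun g => hlF₁ x g g2⟩)
    obtain ⟨ly, h6, h7, h8⟩ := ext_hd (hl₂.mono fun z _ hz => (Finset.mem_sdiff.1 hz).1 :
      Pth G.Adj {z | z ∈ T} y' (q i') l₂) hy (by
      rcases hcy with g | ⟨g1, g2⟩
      · exact Or.inl g
      · exact Or.inr ⟨g1, fun g => hlF₂ y g g2⟩)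
    refine ⟨i, i', lx, ly, hii, h3, h6, ?_, by omega⟩
    intro z hz hz'
    rcases h5 z hz with g | rfl
    · rcases h8 z hz' with g' | rfl
      · exact hd z g g'
      · rcases hcy with g1 | ⟨g1, g2⟩
        · exact hd z g (g1 ▸ hl₂.memu)
        · exact hlF₁ z g g2
    · rcases h8 z hz' with g' | rfl
      · rcases hcx with g1 | ⟨g1, g2⟩
        · exact hd z (g1 ▸ hl₁.memu) g'
        · exact hlF₂ z g' g2
      · exact hxy rfl

end rgn

/-- a robust set and a weakly robust side force balance -/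
theorem weak_pair [Finite V] (h2 : Two G) {A T : Finset V} {p q : Fin 3 → V}
    {Lg : Fin 3 → List V} {ℓA ℓT cA rA m : ℕ} {t : ZMod 2} {σ : Sym2 V → ZMod 2}
    (h : Legs G.Adj A T p q Lg)
    (hA : Blob G A ℓA cA rA) (hT : WB G T q ℓT) (hU : Uni G m σ t) (hm3 : 3 ≤ m)
    (hm : m ≤ ℓA + ℓT) (hT1 : 1 ≤ ℓT) (hrA : 3 * cA + 4 ≤ rA)
    (hcA : 1 ≤ cA) (hA4 : 4 ≤ A.card) {πT : V → ZMod 2}
    (hπT : ∀ x ∈ T, ∀ y ∈ T, G.Adj x y → σ s(x, y) = πT x + πT y) :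
    t = 0 ∧ ∃ π : V → ZMod 2, ∀ x y, G.Adj x y → σ s(x, y) = π x + π y := by
  classical
  have hR : ∀ a b, G.Adj a b → G.Adj b a := fun a b hab => hab.symm
  have hlA : ∀ F : Finset V, F.card ≤ rA → ∀ x ∈ A, ∀ y ∈ A, x ∉ F → y ∉ F → x ≠ y →
      ∃ l, Pth G.Adj {z | z ∈ A ∧ z ∉ F} x y l ∧ ℓA ≤ l.length := hA.long
  have hcst : Cst G σ A p ℓA := by
    intro i j hij l l' hl hl' h1 h2
    obtain ⟨b, hb, hbl⟩ := hT.long (q j) (h.qB j) (q i) (h.qB i) (h.qinj j i hij.symm)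
    have e1 := h.close hU hm hT1 hij hl hb h1 hbl
    have e2 := h.close hU hm hT1 hij hl' hb h2 hbl
    rw [← e2] at e1
    linear_combination e1
  obtain ⟨πA, hπA⟩ := blob_pot hA hcst h.pA h.pinj hA4 hrA hcA
  have key : ∀ i j, i ≠ j → (πA (p i) + πT (q i) + ls σ (Lg i)) +
      (πA (p j) + πT (q j) + ls σ (Lg j)) = t := by
    intro i j hij
    obtain ⟨b, hb, hbl⟩ := hT.long (q j) (h.qB j) (q i) (h.qB i) (h.qinj j i hij.symm)
    obtain ⟨l, hl, hll⟩ := hA.long ∅ (by simp) (p i) (h.pA i) (p j) (h.pA j) (by simp) (by simp)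
      (h.pinj i j hij)
    have e := h.close hU hm hT1 hij (hl.mono fun z _ hz => hz.1) hb hll hbl
    rw [pth_ls (pth_cons (fun z hz => hz.1) hπA hl), pth_ls (pth_cons (fun z hz => hz) hπT hb)]
      at e
    rw [← e]
    ring
  have h01 := key 0 1 (by decide)
  have h02 := key 0 2 (by decide)
  have h12 := key 1 2 (by decide)
  have h0 := two_self (πA (p 0) + πT (q 0) + ls σ (Lg 0))
  have h1 := two_self (πA (p 1) + πT (q 1) + ls σ (Lg 1))
  have h2' := two_self (πA (p 2) + πT (q 2) + ls σ (Lg 2))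
  have htt := two_self t
  have ht : t = 0 := by linear_combination h0 + h1 + h2' - h01 - h02 - h12 - htt
  have hval : ∀ i, πA (p i) + πT (q i) + ls σ (Lg i) = πA (p 0) + πT (q 0) + ls σ (Lg 0) := by
    intro i
    fin_cases i
    · rfl
    · change πA (p 1) + πT (q 1) + ls σ (Lg 1) = _
      linear_combination h01 - h0 + ht
    · change πA (p 2) + πT (q 2) + ls σ (Lg 2) = _
      linear_combination h02 - h0 + ht
  refine ⟨ht, ?_⟩
  subst ht
  obtain ⟨κ, hκ⟩ : ∃ κ, κ = πA (p 0) + πT (q 0) + ls σ (Lg 0) := ⟨_, rfl⟩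
  rw [← hκ] at hval
  obtain ⟨π, hπ, hch⟩ := h.pot (σ := σ) (fun z => if z ∈ T then πT z + κ else πA z) (by
    intro i
    rw [if_neg (h.dAB _ (h.pA i)), if_pos (h.qB i), ← hval i]
    have h1 := two_self (πA (p i))
    have h2 := two_self (πT (q i))
    linear_combination -h1 - h2)
  have hcA' : ∀ x ∈ A, ∀ y ∈ A, G.Adj x y → σ s(x, y) = π x + π y := by
    intro x hx y hy hxy
    rw [hπ x (Or.inl hx), hπ y (Or.inl hy)]
    rw [if_neg (h.dAB x hx), if_neg (h.dAB y hy)]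
    exact hπA x hx y hy hxy
  have hcT' : ∀ x ∈ T, ∀ y ∈ T, G.Adj x y → σ s(x, y) = π x + π y := by
    intro x hx y hy hxy
    rw [hπ x (Or.inr hx), hπ y (Or.inr hy)]
    rw [if_pos hx, if_pos hy, hπT x hx y hy hxy]
    have := two_self κ
    linear_combination -this
  have hL : Legs (Cons G σ π) A T p q Lg :=
    ⟨fun i => ⟨(h.pth i).nd, hch i, (h.pth i).hd, (h.pth i).lt, (h.pth i).mem⟩, h.dis, h.pA,
      h.qB, h.onA, h.onB, h.dAB⟩
  have hRc : ∀ a b, Cons G σ π a b → Cons G σ π b a := fun a b hab => hab.symm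
  have hsAc : ∀ F : Finset V, F.card ≤ rA → ∀ x ∈ A, ∀ y ∈ A, x ∉ F → y ∉ F →
      ∃ l, Pth (Cons G σ π) {z | z ∈ A ∧ z ∉ F} x y l ∧ l.length ≤ cA := by
    intro F hF x hx y hy hxF hyF
    obtain ⟨l, h1, h2⟩ := hA.short F hF x hx y hy hxF hyF
    exact ⟨l, pth_cons (fun z hz => hz.1) hcA' h1, h2⟩
  have hlAc : ∀ F : Finset V, F.card ≤ rA → ∀ x ∈ A, ∀ y ∈ A, x ∉ F → y ∉ F → x ≠ y →
      ∃ l, Pth (Cons G σ π) {z | z ∈ A ∧ z ∉ F} x y l ∧ ℓA ≤ l.length := by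
    intro F hF x hx y hy hxF hyF hxy
    obtain ⟨l, h1, h2⟩ := hA.long F hF x hx y hy hxF hyF hxy
    exact ⟨l, pth_cons (fun z hz => hz.1) hcA' h1, h2⟩
  have hlA0 : ∀ x ∈ A, ∀ y ∈ A, x ≠ y →
      ∃ l, Pth (Cons G σ π) {z | z ∈ A} x y l ∧ ℓA ≤ l.length := by
    intro x hx y hy hxy
    obtain ⟨l, h1, h2⟩ := hlAc ∅ (by simp) x hx y hy (by simp) (by simp) hxy
    exact ⟨l, h1.mono fun z _ hz => hz.1, h2⟩
  have hlT0 : ∀ x ∈ T, ∀ y ∈ T, x ≠ y →
      ∃ l, Pth (Cons G σ π) {z | z ∈ T} x y l ∧ ℓT ≤ l.length := by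
    intro x hx y hy hxy
    obtain ⟨l, h1, h2⟩ := hT.long x hx y hy hxy
    exact ⟨l, pth_cons (fun z hz => hz) hcT' h1, h2⟩
  have hLs := hL.swap hRc
  refine ext_all h2 hm3 hU _ π {z | z ∈ A ∨ z ∈ T ∨ ∃ k, z ∈ Lg k} rfl
    ⟨p 0, Or.inl (h.pA 0), q 0, Or.inr (Or.inl (h.qB 0)), h.pq 0⟩ ?_
  intro x hx y hy hxy
  obtain ⟨l, hl, hll⟩ := hL.all' hRc hlA0 hlT0
    (fun x hx y hy hxy => hL.link2 hRc (by omega) (by omega) hsAc hlAc hlT0 hx hy hxy)
    (fun x hx y hy hxy => by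
      obtain ⟨i, i', l₁, l₂, hii, g1, g2, gd, gl⟩ := hT.link x hx y hy hxy
      have c1 : Pth (Cons G σ π) {z | z ∈ T} x (q i) l₁ := pth_cons (fun z hz => hz) hcT' g1
      have c2 : Pth (Cons G σ π) {z | z ∈ T} y (q i') l₂ := pth_cons (fun z hz => hz) hcT' g2
      obtain ⟨b, hb, hbl⟩ := hlA0 (p i) (h.pA i) (p i') (h.pA i') (h.pinj i i' hii)
      obtain ⟨O, hO, hOA, hOl, -⟩ := hLs.outer hRc hii hb (fun _ => 0)
      have c2r := c2.rev hRc
      have J1 := c1.join hO (fun z hz hz' => by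
        rcases hOA z hz' (c1.mem z hz) with g | g
        · exact g
        · exact absurd (g ▸ hz) (fun hh => gd _ hh c2.memv))
      have J2 := J1.join c2r (fun z hz hz' => by
        rw [List.mem_reverse] at hz'
        rcases c1.join_mem hO hz with g | g
        · exact absurd hz' (gd z g)
        · rcases hOA z g (c2.mem z hz') with g' | g'
          · exact absurd (g' ▸ hz') (gd _ c1.memv)
          · exact g')
      refine ⟨_, J2.mono fun z _ hz => ?_, ?_⟩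
      · rcases hz with (g | g) | g
        · exact Or.inr (Or.inl g)
        · rcases g with g | ⟨k, g⟩
          · exact Or.inl g
          · exact Or.inr (Or.inr ⟨k, List.mem_reverse.1 g⟩)
        · exact Or.inr (Or.inl g)
      · have e1 := c1.join_len hO
        have e2 := J1.join_len c2r
        rw [List.length_reverse] at e2
        omega) hx hy hxy
  exact ⟨l, hl.nd, hl.ch, hl.hd, hl.lt, hl.mem, by omega⟩

end Run7.h807
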