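import Mathlib
import Pool.Agent.Run7.h807.Mn9

set_option autoImplicit false

namespace Run7.h807

variable {V : Type*} {G : SimpleGraph V} [DecidableEq V]

/-- shortcut of one leg -/
theorem Legs.shortcut {A Q : Finset V} {p q : Fin 3 → V} {Lg : Fin 3 → List V}
    (h : Legs G.Adj A Q p q Lg) {i : Fin 3} {l₁ l₂ : List V} {z a : V}
    (hsp : Lg i = l₁ ++ z :: l₂) (hl₁ : 2 ≤ l₁.length) (ha : a ∈ A) (haz : G.Adj a z)
    (hap : ∀ j, a ≠ p j) :
    ∃ p' Lg', Legs G.Adj A Q p' q Lg' ∧
      ∑ k, (Lg' k).length < ∑ k, (Lg k).length := by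
  have hsub : ∀ w ∈ z :: l₂, w ∈ Lg i := fun w hw => by
    rw [hsp]; exact List.mem_append.2 (Or.inr hw)
  have hpth := h.pth i
  rw [hsp] at hpth
  have hcut := hpth.cut.2
  have hzp : z ≠ p i := hpth.ne_head (by omega)
  have hpi : p i ∉ z :: l₂ := hpth.head_out hzp
  have hal : ∀ k, a ∉ Lg k := fun k hk => hap k (h.onA k a hk ha)
  refine ⟨Function.update p i a, Function.update Lg i (a :: z :: l₂), ⟨?_, ?_, ?_, h.qB, ?_, ?_,
    h.dAB⟩, ?_⟩
  · intro k
    by_cases hk : k = i
    · subst hk
      rw [Function.update_self, Function.update_self]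
      refine ⟨List.nodup_cons.2 ⟨fun g => hal k (hsub a g), hcut.nd⟩, ?_, rfl, ?_,
        fun _ _ => trivial⟩
      · rw [List.isChain_cons_cons]
        exact ⟨haz, hcut.ch⟩
      · rw [List.getLast?_cons_cons]; exact hcut.lt
    · rw [Function.update_of_ne hk, Function.update_of_ne hk]
      exact h.pth k
  · have hmem : ∀ k w, w ∈ Function.update Lg i (a :: z :: l₂) k → w = a ∧ k = i ∨ w ∈ Lg k := by
      intro k w hw
      by_cases hk : k = i
      · subst hk
        rw [Function.update_self] at hw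
        rcases List.mem_cons.1 hw with g | g
        · exact Or.inl ⟨g, rfl⟩
        · exact Or.inr (hsub w g)
      · rw [Function.update_of_ne hk] at hw
        exact Or.inr hw
    intro k k' hkk w hw hw'
    rcases hmem k w hw with ⟨g1, g2⟩ | g
    · rcases hmem k' w hw' with ⟨g3, g4⟩ | g'
      · exact hkk (g2.trans g4.symm)
      · exact hal k' (g1 ▸ g')
    · rcases hmem k' w hw' with ⟨g3, g4⟩ | g'
      · exact hal k (g3 ▸ g)
      · exact h.dis k k' hkk w g g'
  · intro k
    by_cases hk : k = i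
    · subst hk
      rw [Function.update_self]; exact ha
    · rw [Function.update_of_ne hk]; exact h.pA k
  · intro k w hw hwA
    by_cases hk : k = i
    · subst hk
      rw [Function.update_self] at hw ⊢
      rcases List.mem_cons.1 hw with g | g
      · exact g
      · exact absurd (h.onA k w (hsub w g) hwA ▸ g) hpi
    · rw [Function.update_of_ne hk] at hw ⊢
      exact h.onA k w hw hwA
  · intro k w hw hwQ
    by_cases hk : k = i
    · subst hk
      rw [Function.update_self] at hw
      rcases List.mem_cons.1 hw with g | g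
      · exact absurd hwQ (g ▸ h.dAB a ha)
      · exact h.onB k w (hsub w g) hwQ
    · rw [Function.update_of_ne hk] at hw
      exact h.onB k w hw hwQ
  · refine Finset.sum_lt_sum ?_ ⟨i, Finset.mem_univ _, ?_⟩
    · intro k _
      by_cases hk : k = i
      · subst hk
        rw [Function.update_self, hsp]
        simp only [List.length_append, List.length_cons]
        omega
      · rw [Function.update_of_ne hk]
    · rw [Function.update_self, hsp]
      simp only [List.length_append, List.length_cons]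
      omega

/-- legs from a minimal part which meet its boundary in at most five vertices -/
theorem MinP.legs [Fintype V] {A Z Q : Finset V} {K : ℕ} (h : MinP G A Z K)
    (hconn : ∀ S : Finset V, S.card < 3 → (G.induce ((↑S : Set V)ᶜ)).Connected)
    (hA : 4 ≤ A.card) (hQ : 3 ≤ Q.card) (hd : ∀ z ∈ A, z ∉ Q) :
    ∃ p q Lg, Legs G.Adj A Q p q Lg ∧ (Z.filter (fun z => ∃ i, z ∈ Lg i)).card ≤ 5 := by
  classical
  obtain ⟨Wr, hWr⟩ : ∃ Wr : ℕ → Prop, Wr = fun n => ∃ p q Lg, Legs G.Adj A Q p q Lg ∧
    ∑ k, (Lg k).length = n := ⟨_, rfl⟩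
  have hex : ∃ n, Wr n := by
    obtain ⟨p, q, Lg, hL⟩ := exists_legs hconn (by omega : 3 ≤ A.card) hQ hd
    exact ⟨_, by rw [hWr]; exact ⟨p, q, Lg, hL, rfl⟩⟩
  have hspec := Nat.find_spec hex
  have hmin : ∀ p q Lg, Legs G.Adj A Q p q Lg → Nat.find hex ≤ ∑ k, (Lg k).length :=
    fun p q Lg hL => Nat.find_min' hex (by rw [hWr]; exact ⟨p, q, Lg, hL, rfl⟩)
  obtain ⟨n, hn⟩ : ∃ n, n = Nat.find hex := ⟨_, rfl⟩
  rw [← hn] at hspec hmin
  rw [hWr] at hspec
  obtain ⟨p, q, Lg, hL, hlen⟩ := hspec
  refine ⟨p, q, Lg, hL, ?_⟩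
  obtain ⟨T0, hT0⟩ : ∃ T0, T0 = Z.filter (fun z => ∃ (i : Fin 3) (l₁ l₂ : List V), Lg i = l₁ ++ z :: l₂ ∧
    2 ≤ l₁.length) := ⟨_, rfl⟩
  have hPc : (Finset.univ.image p).card = 3 := by
    rw [Finset.card_image_of_injective _ (fun a b hab => by
      by_contra hne; exact hL.pinj a b hne hab), Finset.card_univ, Fintype.card_fin]
  have hT0c : T0.card < 3 := by
    rw [← hPc]
    refine h.surplus (P := Finset.univ.image p) (T0 := T0) ?_ ?_ ?_ ?_ ?_
    · intro z hz
      rw [Finset.mem_image] at hz
      obtain ⟨i, _, rfl⟩ := hz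
      exact hL.pA i
    · exact ⟨p 0, Finset.mem_image_of_mem _ (Finset.mem_univ _)⟩
    · intro he
      rw [he] at hPc
      omega
    · rw [hT0]; exact Finset.filter_subset _ _
    · intro z hz a ha haz
      by_contra hcon
      rw [hT0, Finset.mem_filter] at hz
      obtain ⟨-, i, l₁, l₂, hsp, hl₁⟩ := hz
      obtain ⟨p', Lg', hL', hlt⟩ := hL.shortcut hsp hl₁ ha haz (fun j hj =>
        hcon (Finset.mem_image.2 ⟨j, Finset.mem_univ _, hj.symm⟩))
      have := hmin p' q Lg' hL'
      omega
  have hsub : Z.filter (fun z => ∃ i, z ∈ Lg i) ⊆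
      (Finset.univ.image (fun i => (Lg i).getD 1 (p i))) ∪ T0 := by
    intro z hz
    rw [Finset.mem_filter] at hz
    obtain ⟨hzZ, i, hi⟩ := hz
    obtain ⟨l₁, l₂, hsp⟩ := List.append_of_mem hi
    rw [Finset.mem_union]
    rcases Nat.lt_or_ge l₁.length 2 with hlt | hge
    · left
      rw [Finset.mem_image]
      refine ⟨i, Finset.mem_univ _, ?_⟩
      cases l₁ with
      | nil =>
        exfalso
        have := (hL.pth i).hd
        rw [hsp] at this
        simp only [List.nil_append, List.head?_cons, Option.some.injEq] at this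
        exact h.part.1 z (this ▸ hL.pA i) hzZ
      | cons b l =>
        cases l with
        | nil => rw [hsp]; rfl
        | cons b' l' => simp at hlt
    · right
      rw [hT0, Finset.mem_filter]
      exact ⟨hzZ, i, l₁, l₂, hsp, hge⟩
  have h1 := (Finset.card_le_card hsub).trans (Finset.card_union_le _ _)
  have h2 : (Finset.univ.image (fun i => (Lg i).getD 1 (p i))).card ≤ 3 :=
    Finset.card_image_le.trans (by rw [Finset.card_univ, Fintype.card_fin])
  omega

end Run7.h807
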