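import Mathlib
import Pool.Agent.Run7.h807.Mn10

set_option autoImplicit false

namespace Run7.h807

variable {V : Type*} {G : SimpleGraph V} [DecidableEq V] [DecidableRel G.Adj]

theorem MinP.dg [Fintype V] {B Z : Finset V} {K d : ℕ} (h : MinP G B Z K)
    (hdeg : ∀ v, d ≤ G.degree v) : ∀ v ∈ B, d - K ≤ (B.filter (G.Adj v)).card := by
  intro v hv
  have h1 := (h.part.deg hdeg).1 v hv
  have h2 := h.zc
  omega

/-- a dense set and a large minimal part exclude bad cycles -/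
theorem big_false [Fintype V] {d : ℕ} (hdeg : ∀ v, d ≤ G.degree v) (hd : 27060 ≤ d)
    (h2 : Two G)
    (hconn : ∀ S : Finset V, S.card < 3 → (G.induce ((↑S : Set V)ᶜ)).Connected)
    {σ : Sym2 V → ZMod 2} {t : ZMod 2} {L : ℕ} {l : List V} (hl : Cyc G σ (t + 1) l)
    (hU : Uni G (L + 1) σ t) (hL2 : L + 2 ≤ 2 * d) (hL3 : 3 ≤ L) {A B Z : Finset V} {ℓA K : ℕ}
    (hA : Blob G A ℓA 3 13) (hAℓ : d ≤ ℓA + 1500) (hA4 : 4 ≤ A.card) (hB : MinP G B Z K)
    (hdis : ∀ z ∈ A, z ∉ B ∪ Z) (hK1 : 460 ≤ K) (hK2 : K ≤ 1424) (hBc : 3 * d < 2 * B.card) :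
    False := by
  classical
  obtain ⟨p, q, Lg, hL, hF5⟩ := hB.legs hconn (by omega) (by omega : 3 ≤ A.card)
    (fun z hz hzA => hdis z hzA (Finset.mem_union_left _ hz))
  obtain ⟨F0, hF0⟩ : ∃ F0, F0 = Z.filter (fun z => ∃ i, z ∈ Lg i) := ⟨_, rfl⟩
  rw [← hF0] at hF5
  have hF0Z : F0 ⊆ Z := by rw [hF0]; exact Finset.filter_subset _ _
  have hR := hB.rgn (D := d - K) (κ := 225) (φ := 5) hF0Z hF5 (by omega) (hB.dg hdeg)
  obtain ⟨T, hT⟩ : ∃ T, T = (B ∪ Z) \ F0 := ⟨_, rfl⟩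
  rw [← hT] at hR
  have hTm : ∀ z, z ∈ T ↔ z ∈ B ∪ Z ∧ z ∉ F0 := fun z => by rw [hT, Finset.mem_sdiff]
  have hLT : Legs G.Adj T A p q Lg := by
    refine ⟨hL.pth, hL.dis, fun i => hR.sub (hL.pA i), hL.qB, ?_, hL.onB, ?_⟩
    · intro i z hz hzT
      rw [hTm, Finset.mem_union] at hzT
      rcases hzT.1 with g | g
      · exact hL.onA i z hz g
      · exact absurd (by rw [hF0, Finset.mem_filter]; exact ⟨g, i, hz⟩) hzT.2
    · intro z hz hzA
      exact hdis z hzA ((hTm z).1 hz).1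
  have hLs := hLT.swap (fun a b hab => hab.symm)
  have hcst : Cst G σ T p (d + 1500) := hLT.cst hA hU (by omega) (by omega)
  have hcst0 := hR.phase1 (q := p) hL.pA hL.pinj hcst (k := 23) (μ := (d - 4460) / 8)
    (j := 11) (ρ := 54)
    (by omega) (by norm_num) (by norm_num) (by omega) (by omega) (by norm_num) (by omega)
    (by omega) (by norm_num) (by omega)
  have h2T : ∀ z ∈ T, z ∉ B → 2 ≤ (B.filter (G.Adj z)).card := by
    intro z hz hzB
    rw [hTm, Finset.mem_union] at hz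
    exact hB.two (by omega) (hz.1.resolve_left hzB)
  obtain ⟨πT, hπT⟩ := hR.pot h2T (by norm_num) (by omega) (σ := σ) (q := p) hL.pA hL.pinj hcst0
  have hWB : WB G T p (d + 1500) := hR.wb h2T hL.pA hL.pinj (k := 23) (μ := (d - 4460) / 8)
    (j := 11) (ρ := 104) (by omega) (by norm_num) (by norm_num) (by omega) (by omega) (by norm_num)
    (by omega) (by omega) (by omega) (by norm_num)
  obtain ⟨ht, π, hπ⟩ := weak_pair h2 hLs hA hWB hU (by omega) (by omega) (by omega) (by norm_num)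
    (by norm_num) hA4 hπT
  subst ht
  rw [zero_add] at hl
  exact bal_no_cyc hπ hl

end Run7.h807
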