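import Mathlib
import Pool.Agent.Run7.h807.Mn11

set_option autoImplicit false

namespace Run7.h807

variable {V : Type*} {G : SimpleGraph V}

theorem Pth.init {S : Set V} {u v : V} {l : List V} (h : Pth G.Adj S u v l) (huv : u ≠ v) :
    ∃ M w, Pth G.Adj S u w M ∧ G.Adj w v ∧ (∀ z ∈ M, z ∈ l ∧ z ≠ v) := by
  obtain ⟨M, hM⟩ := h.snoc_eq
  have hn := h.nd
  have hc := h.ch
  have hd := h.hd
  rw [hM] at hn hc hd
  have hne : M ≠ [] := by
    rintro rfl
    simp only [List.nil_append, List.head?_cons, Option.some.injEq] at hd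
    exact huv hd.symm
  obtain ⟨w, hw⟩ : ∃ w, M.getLast? = some w := ⟨_, List.getLast?_eq_some_getLast hne⟩
  rw [List.nodup_append] at hn
  rw [List.isChain_append] at hc
  refine ⟨M, w, ⟨hn.1, hc.1, ?_, hw, fun z hz => h.mem z ?_⟩, ?_, fun z hz => ⟨?_, ?_⟩⟩
  · cases M with
    | nil => exact absurd rfl hne
    | cons a l => simpa using hd
  · rw [hM]; exact List.mem_append.2 (Or.inl hz)
  · exact hc.2.2 w (by rw [Option.mem_def]; exact hw) v (by simp)
  · rw [hM]; exact List.mem_append.2 (Or.inl hz)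
  · exact fun g => hn.2.2 z hz v (by simp) g

theorem sort3 (a : Fin 3 → ℕ) (ha : ∀ i j, i ≠ j → a i ≠ a j) :
    ∃ i j k : Fin 3, i ≠ j ∧ j ≠ k ∧ i ≠ k ∧ a i < a j ∧ a j < a k := by
  have h01 := ha 0 1 (by decide)
  have h12 := ha 1 2 (by decide)
  have h02 := ha 0 2 (by decide)
  rcases lt_or_gt_of_ne h01 with g1 | g1 <;> rcases lt_or_gt_of_ne h12 with g2 | g2 <;>
    rcases lt_or_gt_of_ne h02 with g3 | g3
  · exact ⟨0, 1, 2, by decide, by decide, by decide, g1, g2⟩
  · omega
  · exact ⟨0, 2, 1, by decide, by decide, by decide, g3, g2⟩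
  · exact ⟨2, 0, 1, by decide, by decide, by decide, g3, g1⟩
  · exact ⟨1, 0, 2, by decide, by decide, by decide, g1, g3⟩
  · exact ⟨1, 2, 0, by decide, by decide, by decide, g2, g3⟩
  · omega
  · exact ⟨2, 1, 0, by decide, by decide, by decide, g2, g1⟩

variable [DecidableEq V] [DecidableRel G.Adj]

/-- few vertices of a longest bad cycle lie on the boundary of a part -/
theorem MinP.few [Fintype V] {d : ℕ} (hdeg : ∀ v, d ≤ G.degree v) (hd : 20000 ≤ d)
    {σ : Sym2 V → ZMod 2} {s : ZMod 2} {L : ℕ} {X : ℕ → V} (h : Top G σ s L X)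
    (hL2 : L + 2 ≤ 2 * d) {A Z : Finset V} {K : ℕ} (hA : MinP G A Z K)
    (hX : ∀ z ∈ A, ∀ k, X k ≠ z) (hK1 : 36 ≤ K) (hK2 : K ≤ 1424) :
    (Z ∩ (Finset.range L).image X).card ≤ 18 := by
  by_contra hcon
  push Not at hcon
  obtain ⟨l, hl, hlA, hlen⟩ := core_cycle (G := G) σ (h := (d - K) / 2) (by omega) A hA.ne
    (fun v hv => by have := hA.dg hdeg v hv; omega)
  obtain ⟨Y, hY, hY0, hYl⟩ := rim_of_cyc hl
  obtain ⟨c, hc⟩ : ∃ c, c = l.length := ⟨_, rfl⟩
  rw [← hc] at hY hY0 hlen
  have hYA : ∀ k, Y k ∈ A := fun k => hlA _ (hYl k)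
  have hoff : ∀ i j, X i ≠ Y j := fun i j => hX _ (hYA j) i
  have hDP : DP G ((Finset.range c).image Y) ((Finset.range L).image X) 19 := by
    refine menger _ G rfl _ _ _ fun S hS => ?_
    by_contra hS19
    obtain ⟨y, hy, r, hr, hyS, hrS, p, h1, h2, h3, h4⟩ := hA.lnk2 (W := S)
      (R := (Finset.range L).image X) (Y := (Finset.range c).image Y) (by omega)
      (Or.inr (by omega)) (by
        intro z hz
        rw [Finset.mem_image] at hz
        obtain ⟨k, _, rfl⟩ := hz
        exact hYA k) (by rw [rim_card hY]; omega)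
    obtain ⟨z, hz, hzS⟩ := hS p h1 ⟨y, hy, h2⟩ ⟨r, hr, h3⟩
    exact (h4 z hz).2 hzS
  obtain ⟨μ, hμ⟩ : ∃ μ, μ = ((d - K) / 2 + 2) / 2 := ⟨_, rfl⟩
  have hb := h.dp_bound hY hY0 hoff (μ := μ) (by omega) hDP
  have : (L - 1) / (μ + 2) < 9 := by
    rw [Nat.div_lt_iff_lt_mul (by omega)]
    omega
  omega

/-- a large minimal part off a longest bad cycle is impossible -/
theorem claimA [Fintype V] {d : ℕ} (hdeg : ∀ v, d ≤ G.degree v) (hd : 27060 ≤ d)
    (hconn : ∀ S : Finset V, S.card < 3 → (G.induce ((↑S : Set V)ᶜ)).Connected)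
    {σ : Sym2 V → ZMod 2} {s : ZMod 2} {L : ℕ} {X : ℕ → V} (h : Top G σ s L X)
    (hL2 : L + 2 ≤ 2 * d) {A Z : Finset V} {K : ℕ} (hA : MinP G A Z K)
    (hX : ∀ z ∈ A, ∀ k, X k ≠ z) (hK1 : 712 ≤ K) (hK2 : K ≤ 1424) (hAc : 3 * d < 2 * A.card) :
    False := by
  classical
  have hR : ∀ a b, G.Adj a b → G.Adj b a := fun a b hab => hab.symm
  have hL3 := h.rim.three
  have hfew := hA.few hdeg (by omega) h hL2 hX (by omega) hK2
  obtain ⟨XS, hXS⟩ : ∃ XS, XS = (Finset.range L).image X := ⟨_, rfl⟩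
  rw [← hXS] at hfew
  have hXSm : ∀ z, z ∈ XS ↔ ∃ k, k < L ∧ X k = z := fun z => by
    rw [hXS, Finset.mem_image]
    constructor
    · rintro ⟨k, hk, hz⟩; exact ⟨k, Finset.mem_range.1 hk, hz⟩
    · rintro ⟨k, hk, hz⟩; exact ⟨k, Finset.mem_range.2 hk, hz⟩
  have hXk : ∀ k, X k ∈ XS := fun k => by
    rw [hXSm, h.rim.modeq k]
    exact ⟨k % L, Nat.mod_lt _ (by omega), rfl⟩
  have hAX : ∀ z ∈ A, z ∉ XS := fun z hz hz' => by
    obtain ⟨k, _, hk⟩ := (hXSm z).1 hz'
    exact hX z hz k hk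
  obtain ⟨p, q, Lg, hL, hF5⟩ := hA.legs hconn (by omega) (Q := XS)
    (by rw [hXS, rim_card h.rim]; exact hL3) hAX
  obtain ⟨F0, hF0⟩ : ∃ F0, F0 = (Z ∩ XS) ∪ Z.filter (fun z => ∃ i, z ∈ Lg i) := ⟨_, rfl⟩
  have hF0c : F0.card ≤ 23 := by
    have := Finset.card_union_le (Z ∩ XS) (Z.filter (fun z => ∃ i, z ∈ Lg i))
    rw [← hF0] at this
    omega
  have hF0Z : F0 ⊆ Z := by
    rw [hF0]
    exact Finset.union_subset Finset.inter_subset_left (Finset.filter_subset _ _)
  have hRg := hA.rgn (D := d - K) (κ := 333) (φ := 23) hF0Z hF0c (by omega) (hA.dg hdeg)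
  obtain ⟨T, hT⟩ : ∃ T, T = (A ∪ Z) \ F0 := ⟨_, rfl⟩
  rw [← hT] at hRg
  have hTm : ∀ z, z ∈ T ↔ z ∈ A ∪ Z ∧ z ∉ F0 := fun z => by rw [hT, Finset.mem_sdiff]
  have hTX : ∀ z ∈ T, z ∉ XS := by
    intro z hz hzX
    rw [hTm, Finset.mem_union] at hz
    rcases hz.1 with g | g
    · exact hAX z g hzX
    · exact hz.2 (by rw [hF0]; exact Finset.mem_union_left _ (Finset.mem_inter.2 ⟨g, hzX⟩))
  have hTL : ∀ i, ∀ z ∈ Lg i, z ∈ T → z = p i := by
    intro i z hz hzT
    rw [hTm, Finset.mem_union] at hzT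
    rcases hzT.1 with g | g
    · exact hL.onA i z hz g
    · exact absurd (by rw [hF0]; exact Finset.mem_union_right _ (Finset.mem_filter.2 ⟨g, i, hz⟩))
        hzT.2
  -- the legs without their last vertices
  have hM : ∀ i, ∃ M w, Pth G.Adj Set.univ (p i) w M ∧ G.Adj w (q i) ∧
      (∀ z ∈ M, z ∈ Lg i ∧ z ≠ q i) := fun i => (hL.pth i).init (hL.pq i)
  choose M w hMp hMw hMm using hM
  have ha : ∀ i, ∃ a, a < L ∧ X a = q i := fun i => (hXSm _).1 (hL.qB i)
  choose a haL haq using ha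
  have hainj : ∀ i j, i ≠ j → a i ≠ a j := fun i j hij hh =>
    hL.qinj i j hij (by rw [← haq i, ← haq j, hh])
  -- the outer paths
  have hO : ∀ i j, i ≠ j → ∀ l, Pth G.Adj {z | z ∈ T} (p i) (p j) l →
      ∃ O, OP G X O (w i) (w j) ∧ l.length ≤ O.length ∧
        ls σ O = ls σ (M i) + ls σ l + ls σ (M j) := by
    intro i j hij l hl
    have hMr := (hMp i).rev hR
    have J1 := hMr.join hl (fun z hz hz' =>
      hTL i z (hMm i z (List.mem_reverse.1 hz)).1 (hl.mem z hz'))
    have J2 := J1.join (hMp j) (fun z hz hz' => by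
      rcases hMr.join_mem hl hz with g | g
      · exact absurd (hMm j z hz').1 (hL.dis i j hij z (hMm i z (List.mem_reverse.1 g)).1)
      · exact hTL j z (hMm j z hz').1 (hl.mem z g))
    refine ⟨_, ⟨J2.nd, J2.ch, J2.hd, J2.lt, ?_⟩, ?_, ?_⟩
    · intro z hz k hk
      have hzX : z ∈ XS := hk ▸ hXk k
      rcases J1.join_mem (hMp j) hz with g | g
      · rcases hMr.join_mem hl g with g | g
        · have g' := hMm i z (List.mem_reverse.1 g)
          exact g'.2 (hL.onB i z g'.1 hzX)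
        · exact hTX z (hl.mem z g) hzX
      · have g' := hMm j z g
        exact g'.2 (hL.onB j z g'.1 hzX)
    · have e1 := hMr.join_len hl
      have e2 := J1.join_len (hMp j)
      have e3 := (hMp i).pos
      have e4 := (hMp j).pos
      rw [List.length_reverse] at e1
      omega
    · rw [J1.join_ls σ (hMp j), hMr.join_ls σ hl, ls_reverse]
  obtain ⟨c, hc⟩ : ∃ c : Fin 3 → ZMod 2, c = fun i => ls σ (M i) + cs σ X (w i) (a i) := ⟨_, rfl⟩
  have hci : ∀ i, c i = ls σ (M i) + cs σ X (w i) (a i) := fun i => by rw [hc]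
  have r1 : ∀ i j, a i < a j → ∀ l, Pth G.Adj {z | z ∈ T} (p i) (p j) l →
      a j - a i ≤ l.length → ls σ l = c i + c j + 1 := by
    intro i j hij l hl hll
    have hne : i ≠ j := by rintro rfl; omega
    obtain ⟨O, hO1, hO2, hO3⟩ := hO i j hne l hl
    have haj := haL j
    have := h.far hO1 (i := a i) (j := a j - a i) (by omega) (by omega) (by omega)
      (by rw [haq]; exact hMw i) (by rw [show a i + (a j - a i) = a j by omega, haq]; exact hMw j)
    rw [show a i + (a j - a i) = a j by omega, hO3] at this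
    rw [hci, hci]
    have t1 := two_self (ls σ (M i) + cs σ X (w i) (a i))
    have t2 := two_self (ls σ (M j) + cs σ X (w j) (a j))
    linear_combination this - t1 - t2
  have r2 : ∀ i j, a i < a j → ∀ l, Pth G.Adj {z | z ∈ T} (p i) (p j) l →
      L - (a j - a i) ≤ l.length → ls σ l = c i + c j + 1 + s := by
    intro i j hij l hl hll
    have hne : i ≠ j := by rintro rfl; omega
    obtain ⟨O, hO1, hO2, hO3⟩ := hO i j hne l hl
    have haj := haL j
    have := h.far hO1.rev (i := a j) (j := L - (a j - a i)) (by omega) (by omega)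
      (by rw [List.length_reverse]; omega)
      (by rw [haq]; exact hMw j) (by
        rw [show a j + (L - (a j - a i)) = a i + L by omega, h.rim.per, haq]; exact hMw i)
    rw [show a j + (L - (a j - a i)) = a i + L by omega, h.cs_add, ls_reverse, hO3] at this
    rw [hci, hci]
    have t1 := two_self (ls σ (M i) + cs σ X (w i) (a i))
    have t2 := two_self (ls σ (M j) + cs σ X (w j) (a j))
    have t3 := two_self s
    linear_combination this - t1 - t2 - t3
  -- constancy
  have hcst : Cst G σ T p d := by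
    have key : ∀ i j, a i < a j → ∀ l l', Pth G.Adj {z | z ∈ T} (p i) (p j) l →
        Pth G.Adj {z | z ∈ T} (p i) (p j) l' → d ≤ l.length → d ≤ l'.length →
        ls σ l = ls σ l' := by
      intro i j hij l l' hl hl' h1 h2
      have haj := haL j
      rcases Nat.lt_or_ge d (a j - a i) with hlt | hge
      · rw [r2 i j hij l hl (by omega), r2 i j hij l' hl' (by omega)]
      · rw [r1 i j hij l hl (by omega), r1 i j hij l' hl' (by omega)]
    intro i j hij l l' hl hl' h1 h2
    rcases lt_or_gt_of_ne (hainj i j hij) with g | g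
    · exact key i j g l l' hl hl' h1 h2
    · have := key j i g l.reverse l'.reverse (hl.rev hR) (hl'.rev hR)
        (by rw [List.length_reverse]; exact h1) (by rw [List.length_reverse]; exact h2)
      rwa [ls_reverse, ls_reverse] at this
  have hcst0 := hRg.phase1 (q := p) hL.pA hL.pinj hcst (k := 19) (μ := (d - 3010) / 8)
    (j := 9) (ρ := 82) (by omega) (by norm_num) (by norm_num) (by omega) (by omega) (by norm_num)
    (by omega) (by omega) (by norm_num) (by omega)
  have h2T : ∀ z ∈ T, z ∉ A → 2 ≤ (A.filter (G.Adj z)).card := by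
    intro z hz hzB
    rw [hTm, Finset.mem_union] at hz
    exact hA.two (by omega) (hz.1.resolve_left hzB)
  obtain ⟨π, hπ⟩ := hRg.pot h2T (by norm_num) (by omega) (σ := σ) (q := p) hL.pA hL.pinj hcst0
  -- long paths
  have hlong : ∀ i j, i ≠ j → ∃ l, Pth G.Adj {z | z ∈ T} (p i) (p j) l ∧
      4 * d / 3 + 3 ≤ l.length := fun i j hij =>
    hRg.long_path (hL.pA i) (hL.pA j) (hL.pinj i j hij) (k := 43) (μ := d / 15) (j := 21)
      (by omega) (by omega) (by omega) (by norm_num) (by norm_num) (by omega) (by omega)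
      (by omega) (by norm_num)
  obtain ⟨i, j, k, hij, hjk, hik, gij, gjk⟩ := sort3 a hainj
  obtain ⟨l1, hl1, hll1⟩ := hlong i j hij
  obtain ⟨l2, hl2, hll2⟩ := hlong j k hjk
  obtain ⟨l3, hl3, hll3⟩ := hlong i k hik
  have s1 := pth_ls (pth_cons (fun z hz => hz) hπ hl1)
  have s2 := pth_ls (pth_cons (fun z hz => hz) hπ hl2)
  have s3 := pth_ls (pth_cons (fun z hz => hz) hπ hl3)
  have hak := haL k
  have hsum : (ls σ l1 + c i + c j) + (ls σ l2 + c j + c k) + (ls σ l3 + c i + c k) = 0 := by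
    rw [s1, s2, s3]
    have t1 := two_self (π (p i))
    have t2 := two_self (π (p j))
    have t3 := two_self (π (p k))
    have t4 := two_self (c i)
    have t5 := two_self (c j)
    have t6 := two_self (c k)
    linear_combination t1 + t2 + t3 + t4 + t5 + t6
  have hone : (1 : ZMod 2) + 1 = 0 := by decide
  have h10 : (1 : ZMod 2) ≠ 0 := by decide
  have ex : ∀ {x y : Fin 3} {l : List V}, ls σ l = c x + c y + 1 → ls σ l + c x + c y = 1 := by
    intro x y l hh
    have t1 := two_self (c x)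
    have t2 := two_self (c y)
    linear_combination hh + t1 + t2
  have ey : ∀ {x y : Fin 3} {l : List V}, ls σ l = c x + c y + 1 + s →
      ls σ l + c x + c y = 1 + s := by
    intro x y l hh
    have t1 := two_self (c x)
    have t2 := two_self (c y)
    linear_combination hh + t1 + t2
  have A1 : a j - a i ≤ l1.length → ls σ l1 + c i + c j = 1 := fun g => ex (r1 i j gij l1 hl1 g)
  have A2 : L - (a j - a i) ≤ l1.length → ls σ l1 + c i + c j = 1 + s := fun g =>
    ey (r2 i j gij l1 hl1 g)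
  have B1 : a k - a j ≤ l2.length → ls σ l2 + c j + c k = 1 := fun g => ex (r1 j k gjk l2 hl2 g)
  have B2 : L - (a k - a j) ≤ l2.length → ls σ l2 + c j + c k = 1 + s := fun g =>
    ey (r2 j k gjk l2 hl2 g)
  have C1 : a k - a i ≤ l3.length → ls σ l3 + c i + c k = 1 := fun g =>
    ex (r1 i k (by omega) l3 hl3 g)
  have C2 : L - (a k - a i) ≤ l3.length → ls σ l3 + c i + c k = 1 + s := fun g =>
    ey (r2 i k (by omega) l3 hl3 g)
  obtain ⟨ℓ, hℓ⟩ : ∃ ℓ, ℓ = 4 * d / 3 + 3 := ⟨_, rfl⟩
  rw [← hℓ] at hll1 hll2 hll3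
  rcases zmod2_cases s with hs | hs
  · -- `s = 0`
    have e1 : ls σ l1 + c i + c j = 1 := by
      rcases Nat.lt_or_ge ℓ (a j - a i) with g | g
      · rw [A2 (by omega), hs, add_zero]
      · exact A1 (by omega)
    have e2 : ls σ l2 + c j + c k = 1 := by
      rcases Nat.lt_or_ge ℓ (a k - a j) with g | g
      · rw [B2 (by omega), hs, add_zero]
      · exact B1 (by omega)
    have e3 : ls σ l3 + c i + c k = 1 := by
      rcases Nat.lt_or_ge ℓ (a k - a i) with g | g
      · rw [C2 (by omega), hs, add_zero]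
      · exact C1 (by omega)
    rw [e1, e2, e3, hone, zero_add] at hsum
    exact h10 hsum
  · -- `s = 1`
    rw [hs, hone] at A2 B2 C2
    have nA : a j - a i ≤ ℓ → ℓ < L - (a j - a i) := fun g => by
      by_contra hc'
      exact h10 ((A1 (by omega)).symm.trans (A2 (by omega)))
    have nB : a k - a j ≤ ℓ → ℓ < L - (a k - a j) := fun g => by
      by_contra hc'
      exact h10 ((B1 (by omega)).symm.trans (B2 (by omega)))
    have nC : a k - a i ≤ ℓ → ℓ < L - (a k - a i) := fun g => by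
      by_contra hc'
      exact h10 ((C1 (by omega)).symm.trans (C2 (by omega)))
    rcases Nat.lt_or_ge ℓ (a j - a i) with g1 | g1
    · rw [A2 (by omega), B1 (by omega), C2 (by omega), zero_add, add_zero] at hsum
      exact h10 hsum
    · rcases Nat.lt_or_ge ℓ (a k - a j) with g2 | g2
      · rw [A1 (by omega), B2 (by omega), C2 (by omega), add_zero, add_zero] at hsum
        exact h10 hsum
      · have g3 : a k - a i ≤ ℓ := by
          have := nA g1
          have := nB g2
          omega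
        rw [A1 (by omega), B1 (by omega), C1 (by omega), hone, zero_add] at hsum
        exact h10 hsum

end Run7.h807
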