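import Mathlib
import Pool.Agent.Run7.h807.Mn12

set_option autoImplicit false

namespace Run7.h807.Y

variable {V : Type*} {G : SimpleGraph V}

/-- a near-clique with few outer neighbours -/
structure NCl (G : SimpleGraph V) (d : ℕ) (B Z : Finset V) : Prop where
  ne : B.Nonempty
  part : Part G B Z
  zc : Z.card ≤ 1424
  big : B.card ≤ d + 735

variable [DecidableEq V] [DecidableRel G.Adj]

/-- outer neighbours with many neighbours in `B` -/
def Zat (G : SimpleGraph V) [DecidableRel G.Adj] (B Z : Finset V) (c : ℕ) : Finset V :=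
  Z.filter (fun z => c ≤ (B.filter (G.Adj z)).card)

theorem mem_zat {B Z : Finset V} {c : ℕ} {z : V} :
    z ∈ Zat G B Z c ↔ z ∈ Z ∧ c ≤ (B.filter (G.Adj z)).card := by
  unfold Zat
  rw [Finset.mem_filter]

theorem zat_clean [Fintype V] {B Z : Finset V} {c d : ℕ} (hdeg : ∀ v, d ≤ G.degree v)
    (hp : Part G B Z) (hbig : Z.card * c < B.card) : d + 1 ≤ B.card + (Zat G B Z c).card := by
  have h1 : ((Z \ Zat G B Z c).biUnion (fun z => B.filter (G.Adj z))).card < B.card := by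
    refine lt_of_le_of_lt (Finset.card_biUnion_le_card_mul _ _ c fun z hz => ?_) ?_
    · rw [Finset.mem_sdiff, mem_zat, not_and, not_le] at hz
      exact (hz.2 hz.1).le
    · exact lt_of_le_of_lt (Nat.mul_le_mul_right _ (Finset.card_le_card Finset.sdiff_subset)) hbig
  obtain ⟨v, hv, hv'⟩ := Finset.exists_mem_notMem_of_card_lt_card h1
  have h2 := hdeg v
  rw [← SimpleGraph.card_neighborFinset_eq_degree] at h2
  have hsub : G.neighborFinset v ⊆ B.erase v ∪ Zat G B Z c := by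
    intro z hz
    rw [SimpleGraph.mem_neighborFinset] at hz
    rw [Finset.mem_union, Finset.mem_erase]
    rcases hp.2 v hv z hz with g | g
    · exact Or.inl ⟨hz.ne', g⟩
    · right
      by_contra hno
      refine hv' ?_
      rw [Finset.mem_biUnion]
      exact ⟨z, Finset.mem_sdiff.2 ⟨g, hno⟩, Finset.mem_filter.2 ⟨hv, hz.symm⟩⟩
  have h3 := (Finset.card_le_card hsub).trans (Finset.card_union_le _ _)
  have h4 := Finset.card_erase_add_one hv
  omega

theorem NCl.na [Fintype V] {d : ℕ} (hdeg : ∀ v, d ≤ G.degree v) {B Z : Finset V}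
    (h : NCl G d B Z) {E : Finset V} (hE : E ⊆ Zat G B Z 10050) : NA G B E 2159 10050 1424 := by
  have hD := h.part.deg hdeg
  refine ⟨fun z hz hz' => h.part.1 z hz (mem_zat.1 (hE hz')).1, fun v hv => ?_,
    fun v hv => (mem_zat.1 (hE hv)).2, ?_⟩
  · have h1 := hD.1 v hv
    have h2 := h.zc
    have h3 := h.big
    omega
  · refine (Finset.card_le_card hE).trans ((Finset.card_le_card ?_).trans h.zc)
    exact Finset.filter_subset _ _

theorem NCl.size [Fintype V] {d : ℕ} (hdeg : ∀ v, d ≤ G.degree v) {B Z : Finset V}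
    (h : NCl G d B Z) : d + 1 ≤ B.card + 1424 := by
  have h1 := (h.part.deg hdeg).2 h.ne
  have h2 := h.zc
  omega

theorem NCl.zat [Fintype V] {d : ℕ} (hdeg : ∀ v, d ≤ G.degree v) (hd : 14400000 ≤ d)
    {B Z : Finset V} (h : NCl G d B Z) : d + 1 ≤ B.card + (Zat G B Z 10050).card := by
  refine zat_clean hdeg h.part ?_
  have h1 := h.size hdeg
  have h2 := Nat.mul_le_mul_right 10050 h.zc
  omega

theorem NCl.xb [Fintype V] {d : ℕ} (hdeg : ∀ v, d ≤ G.degree v) (hd : 14400000 ≤ d)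
    {B Z : Finset V} (h : NCl G d B Z) {E : Finset V} (hE : E ⊆ Zat G B Z 10050) :
    XB (RB G B) (B ∪ E) 5 12 := by
  have h1 := h.size hdeg
  exact (h.na hdeg hE).xb (by omega) (by omega) (by omega)

/-- exact two-blob argument for near-cliques -/
theorem exact_false [Fintype V] {d : ℕ} (hdeg : ∀ v, d ≤ G.degree v) (hd : 14400000 ≤ d)
    (h2 : Two G)
    {σ : Sym2 V → ZMod 2} {t : ZMod 2} {L : ℕ} {l : List V} (hl : Cyc G σ (t + 1) l)
    (hU : Uni G (L + 1) σ t) (hL3 : 3 ≤ L) {B1 Z1 B2 Z2 E1 E2 : Finset V}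
    (h1 : NCl G d B1 Z1) (h2' : NCl G d B2 Z2) (hE1 : E1 ⊆ Zat G B1 Z1 10050)
    (hE2 : E2 ⊆ Zat G B2 Z2 10050) {p q : Fin 3 → V} {Lg : Fin 3 → List V}
    (hLg : Legs G.Adj (B1 ∪ E1) (B2 ∪ E2) p q Lg)
    (hm : L + 1 ≤ (B1 ∪ E1).card + (B2 ∪ E2).card)
    {πA πB : V → ZMod 2}
    (hπA : ∀ x ∈ B1 ∪ E1, ∀ y ∈ B1 ∪ E1, RB G B1 x y → σ s(x, y) = πA x + πA y)
    (hπB : ∀ x ∈ B2 ∪ E2, ∀ y ∈ B2 ∪ E2, RB G B2 x y → σ s(x, y) = πB x + πB y) : False := by
  obtain ⟨ht, π, hπ⟩ := two_exact h2 hLg (fun a b hab => hab.1) (fun a b hab => hab.1)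
    (h1.xb hdeg hd hE1) (h2'.xb hdeg hd hE2) hU (by omega) hm (by omega) (by omega) (by omega)
    (by omega) hπA hπB
  subst ht
  rw [zero_add] at hl
  exact bal_no_cyc hπ hl

/-- two near-cliques with at most two common attached vertices -/
theorem pair2_false [Fintype V] {d : ℕ} (hdeg : ∀ v, d ≤ G.degree v) (hd : 14400000 ≤ d)
    (h2 : Two G)
    (hconn : ∀ S : Finset V, S.card < 3 → (G.induce ((↑S : Set V)ᶜ)).Connected)
    {σ : Sym2 V → ZMod 2} {t : ZMod 2} {L : ℕ} {l : List V} (hl : Cyc G σ (t + 1) l)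
    (hU : Uni G (L + 1) σ t) (hL2 : L + 2 ≤ 2 * d) (hL3 : 3 ≤ L) {B1 Z1 B2 Z2 : Finset V}
    (h1 : NCl G d B1 Z1) (h2' : NCl G d B2 Z2) (hdis : ∀ x ∈ B1, x ∉ B2)
    (hna : ∀ a ∈ B1, ∀ b ∈ B2, ¬ G.Adj a b)
    (hcom : (Zat G B1 Z1 10050 ∩ Zat G B2 Z2 10050).card ≤ 2) : False := by
  classical
  obtain ⟨E1, hE1⟩ : ∃ E1, E1 = Zat G B1 Z1 10050 := ⟨_, rfl⟩
  obtain ⟨E2, hE2⟩ : ∃ E2, E2 = Zat G B2 Z2 10050 \ E1 := ⟨_, rfl⟩
  have hE1s : E1 ⊆ Zat G B1 Z1 10050 := by rw [hE1]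
  have hE2s : E2 ⊆ Zat G B2 Z2 10050 := by rw [hE2]; exact Finset.sdiff_subset
  have hN1 := h1.na hdeg hE1s
  have hN2 := h2'.na hdeg hE2s
  have hX1 := h1.xb hdeg hd hE1s
  have hX2 := h2'.xb hdeg hd hE2s
  have hs1 := h1.size hdeg
  have hs2 := h2'.size hdeg
  have hnb : ∀ {B : Finset V} {z : V}, 10050 ≤ (B.filter (G.Adj z)).card → ∃ b ∈ B, G.Adj z b := by
    intro B z hz
    obtain ⟨b, hb⟩ : (B.filter (G.Adj z)).Nonempty := Finset.card_pos.1 (by omega)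
    rw [Finset.mem_filter] at hb
    exact ⟨b, hb.1, hb.2⟩
  have hdAB : ∀ z ∈ B1 ∪ E1, z ∉ B2 ∪ E2 := by
    intro z hz hz'
    rw [Finset.mem_union] at hz hz'
    rcases hz with hz | hz <;> rcases hz' with hz' | hz'
    · exact hdis z hz hz'
    · obtain ⟨b, hb, hzb⟩ := hnb (mem_zat.1 (hE2s hz')).2
      exact hna z hz b hb hzb
    · obtain ⟨b, hb, hzb⟩ := hnb (mem_zat.1 (hE1s hz)).2
      exact hna b hb z hz' hzb.symm
    · rw [hE2, Finset.mem_sdiff] at hz'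
      exact hz'.2 hz
  have hcA : (B1 ∪ E1).card = B1.card + E1.card :=
    Finset.card_union_of_disjoint (Finset.disjoint_left.2 hN1.dis)
  have hcB : (B2 ∪ E2).card = B2.card + E2.card :=
    Finset.card_union_of_disjoint (Finset.disjoint_left.2 hN2.dis)
  have hz1 := h1.zat hdeg hd
  have hz2 := h2'.zat hdeg hd
  rw [← hE1] at hz1 hcom
  have hE2c : (Zat G B2 Z2 10050).card ≤ E2.card + 2 := by
    have e1 := Finset.card_sdiff_add_card_inter (Zat G B2 Z2 10050) E1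
    rw [Finset.inter_comm, ← hE2] at e1
    omega
  have hmm : L + 2 ≤ (B1 ∪ E1).card + (B2 ∪ E2).card := by omega
  obtain ⟨p, q, Lg, hLg⟩ := exists_legs hconn (P := B1 ∪ E1) (Q := B2 ∪ E2) (by omega) (by omega)
    hdAB
  have hR : ∀ a b, G.Adj a b → G.Adj b a := fun a b hab => hab.symm
  have hC1 : Cst G σ (B1 ∪ E1) p ((B1 ∪ E1).card - 1) := by
    intro i j hij l l' hl hl' g1 g2
    obtain ⟨b, hb, hbl⟩ := hX2.cover0 (hLg.qB j) (hLg.qB i) (hLg.qinj j i hij.symm)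
    have hb' : Pth G.Adj {z | z ∈ B2 ∪ E2} (q j) (q i) b := hb.imp fun a b _ _ hab => hab.1
    have e1 := hLg.close hU (by omega) (by omega) hij hl hb' g1 hbl
    have e2 := hLg.close hU (by omega) (by omega) hij hl' hb' g2 hbl
    rw [← e2] at e1
    linear_combination e1
  have hs := hLg.swap hR
  have hC2 : Cst G σ (B2 ∪ E2) q ((B2 ∪ E2).card - 1) := by
    intro i j hij l l' hl hl' g1 g2
    obtain ⟨b, hb, hbl⟩ := hX1.cover0 (hLg.pA j) (hLg.pA i) (hLg.pinj j i hij.symm)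
    have hb' : Pth G.Adj {z | z ∈ B1 ∪ E1} (p j) (p i) b := hb.imp fun a b _ _ hab => hab.1
    have e1 := hs.close hU (by omega) (by omega) hij hl hb' g1 hbl
    have e2 := hs.close hU (by omega) (by omega) hij hl' hb' g2 hbl
    rw [← e2] at e1
    linear_combination e1
  obtain ⟨πA, hπA⟩ := hN1.pot1 hX1 (by omega) (by omega) (by omega) hC1 hLg.pA hLg.pinj
  obtain ⟨πB, hπB⟩ := hN2.pot1 hX2 (by omega) (by omega) (by omega) hC2 hLg.qB hLg.qinj
  exact exact_false hdeg hd h2 hl hU hL3 h1 h2' hE1s hE2s hLg (by omega) hπA hπB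

end Run7.h807.Y
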