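import Mathlib
import Pool.Agent.Run7.h807.Yt2

set_option autoImplicit false

namespace Run7.h807.Y

variable {V : Type*} {G : SimpleGraph V} [DecidableEq V] [DecidableRel G.Adj] [Fintype V]
  {d : ℕ} {B Z : Fin 3 → Finset V}

omit [Fintype V] [DecidableRel G.Adj] in
theorem pick_out {X : Finset V} {n : ℕ} (h : n < X.card) {F : Finset V} (hF : F.card ≤ n) :
    ∃ x ∈ X, x ∉ F := Finset.exists_mem_notMem_of_card_lt_card (lt_of_le_of_lt hF h)

theorem fin3_others (i : Fin 3) : ∃ j k : Fin 3, i ≠ j ∧ j ≠ k ∧ i ≠ k := by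
  fin_cases i
  · exact ⟨1, 2, by decide, by decide, by decide⟩
  · exact ⟨0, 2, by decide, by decide, by decide⟩
  · exact ⟨0, 1, by decide, by decide, by decide⟩

/-- a potential on each extended near-clique -/
theorem Trio.pot (h : Trio G d B Z) (hdeg : ∀ v, d ≤ G.degree v) (hd : 14400000 ≤ d)
    {σ : Sym2 V → ZMod 2} {t : ZMod 2} {L : ℕ} (hU : Uni G (L + 1) σ t) (hL2 : L + 2 ≤ 2 * d)
    (hC : ∀ i j, i ≠ j → 2 < (Zat G (B i) (Z i) 10050 ∩ Zat G (B j) (Z j) 10050).card)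
    (i : Fin 3) : ∃ s : V → ZMod 2, ∀ x ∈ B i ∪ Zat G (B i) (Z i) 10050,
      ∀ y ∈ B i ∪ Zat G (B i) (Z i) 10050, RB G (B i) x y → σ s(x, y) = s x + s y := by
  classical
  obtain ⟨j, k, hij, hjk, hik⟩ := fin3_others i
  obtain ⟨At, hAt⟩ : ∃ At : Fin 3 → Finset V, At = fun i => Zat G (B i) (Z i) 10050 := ⟨_, rfl⟩
  have hAti : ∀ i, Zat G (B i) (Z i) 10050 = At i := fun i => by rw [hAt]
  simp only [hAti] at hC ⊢
  have hoff : ∀ {a : Fin 3} {z : V}, z ∈ At a → ∀ b, z ∉ B b := fun {a z} hz b => by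
    rw [← hAti] at hz
    exact h.off hz b
  have hnb : ∀ {a : Fin 3} {z : V}, z ∈ At a → ∀ {F : Finset V}, F.card < 10050 →
      ∃ b ∈ B a, G.Adj z b ∧ b ∉ F := fun {a z} hz {F} hF => by
    rw [← hAti] at hz
    exact zat_nb hz hF
  obtain ⟨z, hz, -⟩ := pick_out (hC i j hij) (F := ∅) (by simp)
  obtain ⟨c, hc, hcF⟩ := pick_out (hC j k hjk) (F := {z}) (by simp)
  obtain ⟨z', hz', hz'F⟩ := pick_out (hC k i (fun g => hik g.symm)) (F := {z, c})
    Finset.card_le_two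
  rw [Finset.mem_inter] at hz hc hz'
  rw [Finset.mem_singleton] at hcF
  rw [Finset.mem_insert, Finset.mem_singleton, not_or] at hz'F
  obtain ⟨l1, l2, -, -, hM, hMl⟩ := h.mpath hdeg hd hjk (z := z) (c := c) (z' := z')
    (by rw [hAti]; exact hz.2) (by rw [hAti]; exact hc.1) (by rw [hAti]; exact hc.2)
    (by rw [hAti]; exact hz'.1) (fun g => hcF g.symm) (fun g => hz'F.2 g.symm)
    (fun g => hz'F.1 g.symm)
  obtain ⟨M, hMdef⟩ : ∃ M, M = l1 ++ l2.tail := ⟨_, rfl⟩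
  rw [← hMdef] at hM hMl
  obtain ⟨E, hE⟩ : ∃ E, E = At i \ {z, c, z'} := ⟨_, rfl⟩
  have hEs : E ⊆ Zat G (B i) (Z i) 10050 := by
    rw [hE, hAti]
    exact Finset.sdiff_subset
  have hX := (h.cl i).xb20 hdeg hd hEs
  have hsi := (h.cl i).size hdeg
  have hsj := (h.cl j).size hdeg
  have hsk := (h.cl k).size hdeg
  -- terminals
  obtain ⟨p, hp, hzp, -⟩ := hnb hz.1 (F := ∅) (by simp)
  obtain ⟨q, hq, hzq, hqF⟩ := hnb hz.1 (F := {p}) (by simp)
  obtain ⟨p', hp', hzp', hp'F⟩ := hnb hz'.2 (F := {p, q}) (lt_of_le_of_lt Finset.card_le_two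
    (by norm_num))
  obtain ⟨q', hq', hzq', hq'F⟩ := hnb hz'.2 (F := {p, q, p'}) (lt_of_le_of_lt Finset.card_le_three
    (by norm_num))
  rw [Finset.mem_singleton] at hqF
  rw [Finset.mem_insert, Finset.mem_singleton, not_or] at hp'F
  rw [Finset.mem_insert, Finset.mem_insert, Finset.mem_singleton, not_or, not_or] at hq'F
  have hA : ∀ w ∈ B i ∪ E, w ∉ M := by
    intro w hw hw'
    rw [Finset.mem_union] at hw
    rcases hM.mem w hw' with a | a | a | a | a
    · rcases hw with hw | hw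
      · exact h.dis i j hij w hw a
      · exact h.off (hEs hw) j a
    · rcases hw with hw | hw
      · exact h.dis i k hik w hw a
      · exact h.off (hEs hw) k a
    · rcases hw with hw | hw
      · exact hoff hz.1 i (a ▸ hw)
      · rw [hE, Finset.mem_sdiff] at hw
        exact hw.2 (by simp [a])
    · rcases hw with hw | hw
      · exact hoff hc.1 i (a ▸ hw)
      · rw [hE, Finset.mem_sdiff] at hw
        exact hw.2 (by simp [a])
    · rcases hw with hw | hw
      · exact hoff hz'.1 i (a ▸ hw)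
      · rw [hE, Finset.mem_sdiff] at hw
        exact hw.2 (by simp [a])
  have hBA : (B i).card ≤ (B i ∪ E).card := Finset.card_le_card Finset.subset_union_left
  have hcst : ∀ u w, G.Adj z u → G.Adj z' w → u ≠ w → ∀ l l',
      Pth G.Adj {x | x ∈ B i ∪ E} u w l → Pth G.Adj {x | x ∈ B i ∪ E} u w l' →
      (B i ∪ E).card ≤ l.length + 20 → (B i ∪ E).card ≤ l'.length + 20 → ls σ l = ls σ l' := by
    intro u w hu hw huw l l' hl hl' g1 g2
    have e1 := close3 hU hM hA hl hu.symm hw.symm huw (by omega)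
    have e2 := close3 hU hM hA hl' hu.symm hw.symm huw (by omega)
    rw [← e2] at e1
    linear_combination e1
  have hcst' : ∀ u w, G.Adj z u → G.Adj z' w → u ≠ w → ∀ l l',
      Pth G.Adj {x | x ∈ B i ∪ E} w u l → Pth G.Adj {x | x ∈ B i ∪ E} w u l' →
      (B i ∪ E).card ≤ l.length + 20 → (B i ∪ E).card ≤ l'.length + 20 → ls σ l = ls σ l' := by
    intro u w hu hw huw l l' hl hl' g1 g2
    have hR : ∀ a b, G.Adj a b → G.Adj b a := fun a b h => h.symm
    have := hcst u w hu hw huw _ _ (hl.rev hR) (hl'.rev hR) (by rw [List.length_reverse]; exact g1)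
      (by rw [List.length_reverse]; exact g2)
    rwa [ls_reverse, ls_reverse] at this
  obtain ⟨π, hπ⟩ := blob_potG (σ := σ) (T := fun u w => (u = p ∧ w = p') ∨ (u = p' ∧ w = p) ∨
      (u = q ∧ w = q') ∨ (u = q' ∧ w = q)) (Tm := {p, p', q, q'}) (fun a b hab => hab.1) hX
    (by
      rintro u w (⟨rfl, rfl⟩ | ⟨rfl, rfl⟩ | ⟨rfl, rfl⟩ | ⟨rfl, rfl⟩)
      · exact hcst _ _ hzp hzp' (fun g => hp'F.1 g.symm)
      · exact hcst' _ _ hzp hzp' (fun g => hp'F.1 g.symm)
      · exact hcst _ _ hzq hzq' (fun g => hq'F.2.1 g.symm)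
      · exact hcst' _ _ hzq hzq' (fun g => hq'F.2.1 g.symm))
    Finset.card_le_four (by
      intro u hu
      simp only [Finset.mem_insert, Finset.mem_singleton] at hu
      rw [Finset.mem_union]
      rcases hu with rfl | rfl | rfl | rfl
      · exact Or.inl hp
      · exact Or.inl hp'
      · exact Or.inl hq
      · exact Or.inl hq') (by
      rintro u w (⟨rfl, rfl⟩ | ⟨rfl, rfl⟩ | ⟨rfl, rfl⟩ | ⟨rfl, rfl⟩)
      · exact ⟨by simp, by simp, fun g => hp'F.1 g.symm⟩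
      · exact ⟨by simp, by simp, hp'F.1⟩
      · exact ⟨by simp, by simp, fun g => hq'F.2.1 g.symm⟩
      · exact ⟨by simp, by simp, hq'F.2.1⟩) (by
      intro v
      by_cases hv : p = v ∨ p' = v
      · refine ⟨q, q', Or.inr (Or.inr (Or.inl ⟨rfl, rfl⟩)), ?_, ?_⟩
        · rcases hv with rfl | rfl
          · exact hqF
          · exact fun g => hp'F.2 g.symm
        · rcases hv with rfl | rfl
          · exact hq'F.1
          · exact hq'F.2.2
      · rw [not_or] at hv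
        exact ⟨p, p', Or.inl ⟨rfl, rfl⟩, hv.1, hv.2⟩) (by
      intro x hx y hy hxy
      simp only [Finset.mem_insert, Finset.mem_singleton] at hx hy
      rcases hx with rfl | rfl | rfl | rfl
      · rcases hy with rfl | rfl | rfl | rfl
        · exact absurd rfl hxy
        · exact Or.inl ⟨q, q', Or.inr (Or.inr (Or.inl ⟨rfl, rfl⟩)), hqF, fun g => hp'F.2 g.symm,
            hq'F.1, hq'F.2.2⟩
        · exact Or.inr (Or.inl ⟨p', Or.inl ⟨rfl, rfl⟩, hp'F.2⟩)
        · exact Or.inr (Or.inl ⟨p', Or.inl ⟨rfl, rfl⟩, fun g => hq'F.2.2 g.symm⟩)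
      · rcases hy with rfl | rfl | rfl | rfl
        · exact Or.inl ⟨q, q', Or.inr (Or.inr (Or.inl ⟨rfl, rfl⟩)), fun g => hp'F.2 g.symm, hqF,
            hq'F.2.2, hq'F.1⟩
        · exact absurd rfl hxy
        · exact Or.inr (Or.inl ⟨p, Or.inr (Or.inl ⟨rfl, rfl⟩), fun g => hqF g.symm⟩)
        · exact Or.inr (Or.inl ⟨p, Or.inr (Or.inl ⟨rfl, rfl⟩), fun g => hq'F.1 g.symm⟩)
      · rcases hy with rfl | rfl | rfl | rfl
        · exact Or.inr (Or.inl ⟨q', Or.inr (Or.inr (Or.inl ⟨rfl, rfl⟩)), hq'F.1⟩)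
        · exact Or.inr (Or.inl ⟨q', Or.inr (Or.inr (Or.inl ⟨rfl, rfl⟩)), hq'F.2.2⟩)
        · exact absurd rfl hxy
        · exact Or.inl ⟨p, p', Or.inl ⟨rfl, rfl⟩, fun g => hqF g.symm, fun g => hq'F.1 g.symm,
            hp'F.2, fun g => hq'F.2.2 g.symm⟩
      · rcases hy with rfl | rfl | rfl | rfl
        · exact Or.inr (Or.inl ⟨q, Or.inr (Or.inr (Or.inr ⟨rfl, rfl⟩)), hqF⟩)
        · exact Or.inr (Or.inl ⟨q, Or.inr (Or.inr (Or.inr ⟨rfl, rfl⟩)), fun g => hp'F.2 g.symm⟩)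
        · exact Or.inl ⟨p, p', Or.inl ⟨rfl, rfl⟩, fun g => hq'F.1 g.symm, fun g => hqF g.symm,
            fun g => hq'F.2.2 g.symm, hp'F.2⟩
        · exact absurd rfl hxy)
    (by omega) (by omega) (by omega)
  have hπB : ∀ x ∈ B i, ∀ y ∈ B i, G.Adj x y → σ s(x, y) = π x + π y := fun x hx y hy =>
    hπ x (Finset.mem_union_left _ hx) y (Finset.mem_union_left _ hy)
  -- connectors
  have cw : ∀ (a b : Fin 3), i ≠ a → a ≠ b → i ≠ b → ∀ w, w ∈ At a → ∀ p1 ∈ B i, ∀ p2 ∈ B i,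
      G.Adj w p1 → G.Adj w p2 → σ s(w, p1) + π p1 = σ s(w, p2) + π p2 := by
    intro a b hia hab hib w hw p1 hp1 p2 hp2 hwp1 hwp2
    obtain ⟨c1, hc1, hc1F⟩ := pick_out (hC a b hab) (F := {w}) (by simp)
    obtain ⟨z1, hz1, hz1F⟩ := pick_out (hC b i (fun g => hib g.symm)) (F := {w, c1})
      Finset.card_le_two
    rw [Finset.mem_inter] at hc1 hz1
    rw [Finset.mem_singleton] at hc1F
    rw [Finset.mem_insert, Finset.mem_singleton, not_or] at hz1F
    exact h.conn_const hdeg hd hU hL2 hia hab hib (z := w) (c := c1) (z' := z1)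
      (by rw [hAti]; exact hw) (by rw [hAti]; exact hc1.1) (by rw [hAti]; exact hc1.2)
      (by rw [hAti]; exact hz1.1) (by rw [hAti]; exact hz1.2) (fun g => hc1F g.symm)
      (fun g => hz1F.2 g.symm) (fun g => hz1F.1 g.symm) hπB hp1 hp2 hwp1 hwp2
  have cw' : ∀ w ∈ ({z, c, z'} : Finset V), ∀ p1 ∈ B i, ∀ p2 ∈ B i,
      G.Adj w p1 → G.Adj w p2 → σ s(w, p1) + π p1 = σ s(w, p2) + π p2 := by
    intro w hw
    simp only [Finset.mem_insert, Finset.mem_singleton] at hw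
    rcases hw with rfl | rfl | rfl
    · exact cw j k hij hjk hik _ hz.2
    · exact cw j k hij hjk hik _ hc.1
    · exact cw k j hik (fun g => hjk g.symm) hij _ hz'.1
  obtain ⟨s, hs1, hs2⟩ : ∃ s : V → ZMod 2, (∀ w, w ∉ ({z, c, z'} : Finset V) → s w = π w) ∧
      ∀ w ∈ ({z, c, z'} : Finset V), ∀ p1 ∈ B i, G.Adj w p1 → s w = σ s(w, p1) + π p1 := by
    refine ⟨fun w => if w ∈ ({z, c, z'} : Finset V) then
      (if hw : ∃ b, b ∈ B i ∧ G.Adj w b then σ s(w, hw.choose) + π hw.choose else 0) else π w,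
      fun w hw => if_neg hw, fun w hw p1 hp1 hwp1 => ?_⟩
    have hex : ∃ b, b ∈ B i ∧ G.Adj w b := ⟨p1, hp1, hwp1⟩
    simp only [if_pos hw, dif_pos hex]
    exact cw' w hw _ hex.choose_spec.1 p1 hp1 hex.choose_spec.2 hwp1
  have hBs : ∀ y ∈ B i, s y = π y := by
    intro y hy
    refine hs1 y fun hm => ?_
    simp only [Finset.mem_insert, Finset.mem_singleton] at hm
    rcases hm with rfl | rfl | rfl
    · exact hoff hz.1 i hy
    · exact hoff hc.1 i hy
    · exact hoff hz'.1 i hy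
  have hmain : ∀ x ∈ B i ∪ At i, ∀ y ∈ B i, G.Adj x y → σ s(x, y) = s x + s y := by
    intro x hx y hy hxy
    rw [hBs y hy]
    by_cases hxT : x ∈ ({z, c, z'} : Finset V)
    · rw [hs2 x hxT y hy hxy]
      have := two_self (π y)
      linear_combination -this
    · rw [hs1 x hxT]
      refine hπ x ?_ y (Finset.mem_union_left _ hy) hxy
      rw [Finset.mem_union] at hx ⊢
      refine hx.imp id fun g => ?_
      rw [hE, Finset.mem_sdiff]
      exact ⟨g, hxT⟩
  refine ⟨s, fun x hx y hy hxy => ?_⟩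
  rcases hxy.2 with g | g
  · rw [Sym2.eq_swap, add_comm]
    exact hmain y hy x g hxy.1.symm
  · exact hmain x hx y g hxy.1

end Run7.h807.Y
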