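import Mathlib
import Pool.Agent.Run7.h807.Yt6

set_option autoImplicit false

namespace Run7.h807

variable {V : Type*} {G : SimpleGraph V} [DecidableEq V] [DecidableRel G.Adj] [Fintype V]

/-- a minimal part of at most three halves of the degree is robust -/
theorem MinP.blob {d K : ℕ} (hdeg : ∀ v, d ≤ G.degree v) {A Z : Finset V} (h : MinP G A Z K)
    (hK : K ≤ 1424) (hd : 27060 ≤ d) (hA : 2 * A.card ≤ 3 * d) :
    Blob G A (A.card - 13) 3 13 ∧ d + 1 ≤ A.card + K := by
  have h1 := (h.part.deg hdeg).2 h.ne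
  have h2 := h.zc
  refine ⟨slk_blob (fun v hv => ?_) (by omega), by omega⟩
  have h3 := h.dg hdeg v hv
  omega

/-- the complement of a part and its boundary -/
theorem Part.rest {A Z : Finset V} (h : Part G A Z) (hc : A.card + Z.card < Fintype.card V) :
    ∃ R : Finset V, R.Nonempty ∧ Part G R Z ∧ (∀ z ∈ R, z ∉ A) ∧ R.card ≤ Fintype.card V := by
  classical
  refine ⟨Finset.univ \ (A ∪ Z), ?_, ⟨fun a ha h' => ?_, fun a ha b hab => ?_⟩, fun z hz h' => ?_,
    Finset.card_le_univ _⟩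
  · rw [← Finset.card_pos, Finset.card_sdiff_of_subset (Finset.subset_univ _), Finset.card_univ]
    have := Finset.card_union_le A Z
    omega
  · rw [Finset.mem_sdiff, Finset.mem_union, not_or] at ha
    exact ha.2.2 h'
  · rw [Finset.mem_sdiff, Finset.mem_union, not_or] at ha
    by_cases hb : b ∈ Z
    · exact Or.inr hb
    · left
      rw [Finset.mem_sdiff, Finset.mem_union, not_or]
      refine ⟨Finset.mem_univ _, fun g => ?_, hb⟩
      rcases h.2 b g a hab.symm with g' | g'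
      · exact ha.2.1 g'
      · exact ha.2.2 g'
  · rw [Finset.mem_sdiff, Finset.mem_union, not_or] at hz
    exact hz.2.1 h'

omit [DecidableEq V] [DecidableRel G.Adj] [Fintype V] in
/-- union of two parts -/
theorem Part.un {A Z B Y : Finset V} (h : Part G A Z) (h' : Part G B Y) (hAB : ∀ z ∈ B, z ∉ Z)
    (hBA : ∀ z ∈ A, z ∉ Y) [DecidableEq V] : Part G (A ∪ B) (Z ∪ Y) := by
  refine ⟨fun a ha hz => ?_, fun a ha b hab => ?_⟩
  · rw [Finset.mem_union] at ha hz
    rcases ha with ha | ha <;> rcases hz with hz | hz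
    · exact h.1 a ha hz
    · exact hBA a ha hz
    · exact hAB a ha hz
    · exact h'.1 a ha hz
  · rw [Finset.mem_union] at ha
    rw [Finset.mem_union, Finset.mem_union]
    rcases ha with ha | ha
    · rcases h.2 a ha b hab with g | g
      · exact Or.inl (Or.inl g)
      · exact Or.inr (Or.inl g)
    · rcases h'.2 a ha b hab with g | g
      · exact Or.inl (Or.inr g)
      · exact Or.inr (Or.inr g)

/-- a bad cycle in a graph with more than `4 d` vertices yields three near-cliques -/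
theorem trio_large {d : ℕ} (hdeg : ∀ v, d ≤ G.degree v) (hn : 4 * d < Fintype.card V)
    (hd : 27060 ≤ d)
    (hconn : ∀ S : Finset V, S.card < 3 → (G.induce ((↑S : Set V)ᶜ)).Connected)
    {σ : Sym2 V → ZMod 2} {t : ZMod 2} (hU : Uni G (2 * d - 1) σ t)
    (hbad : ∃ l, Cyc G σ (t + 1) l) :
    ∃ (L : ℕ) (l : List V) (B Z : Fin 3 → Finset V), Cyc G σ (t + 1) l ∧ Uni G (L + 1) σ t ∧
      L + 2 ≤ 2 * d ∧ 3 ≤ L ∧ (∀ i, Y.NCl G d (B i) (Z i)) ∧
      ∀ i j, i ≠ j → (∀ x ∈ B i, x ∉ B j) ∧ ∀ a ∈ B i, ∀ b ∈ B j, ¬ G.Adj a b := by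
  classical
  have h2 : Two G := two_of_conn fun S hS => hconn S (by omega)
  obtain ⟨l, hl, hmax⟩ := exists_max_cyc hbad
  obtain ⟨X, hX⟩ := top_of_cyc hl hmax
  obtain ⟨L, hL⟩ : ∃ L, L = l.length := ⟨_, rfl⟩
  rw [← hL] at hX
  have hL2 : L + 2 ≤ 2 * d := by
    by_contra hlt
    obtain ⟨g1, g2, g3, x, y, g4, g5, g6, g7⟩ := hl
    have := hU l x y g1 g2 g4 g5 g6 g3 (by omega)
    rw [g7] at this
    have h8 : (1 : ZMod 2) = 0 := by linear_combination this
    exact absurd h8 (by decide)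
  have hUL : Uni G (L + 1) σ t := uni_of_max (L := L) (by rw [hL]; exact hmax)
  have hL3 := hX.rim.three
  obtain ⟨μ, hμ⟩ : ∃ μ, μ = (d - 44) / 24 := ⟨_, rfl⟩
  have hdiv : (L - 1) / (μ + 2) < 49 := by
    rw [Nat.div_lt_iff_lt_mul (by omega)]
    omega
  obtain ⟨S, hne, hS, hcon⟩ : ∃ S : Finset V, S.Nonempty ∧ (∀ v ∈ S, ∀ j, X j ≠ v) ∧
      ∀ v ∈ S, 4 * μ - 5 ≤ (S.filter (G.Adj v)).card := by
    by_contra hno
    push Not at hno
    exact hX.heavy_false hdeg hL2 (by omega) (D := 4 * μ - 5) (by omega) (by omega) hno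
  obtain ⟨Z, YS, hZ1, hZ2, hZ3, -, hsep⟩ := hX.sep (by omega) hne hS hcon (by omega)
  obtain ⟨P, Q, hPne, hQne, hPZ, hQZ, hPQ, hall, hadj, hXQ, -⟩ :=
    sepa_parts hsep hZ3 (by rw [rim_card hX.rim]; exact hZ2)
  have hZ98 : Z.card ≤ 98 := by omega
  have hpP : Part G P Z := ⟨hPZ, fun a ha b hab => by
    rcases hall b with g | g | g
    · exact Or.inr g
    · exact Or.inl g
    · exact absurd hab (hadj a ha b g)⟩
  have hXP : ∀ z ∈ P, ∀ k, X k ≠ z := by
    intro z hz k hk
    have hk' : X (k % L) = z := by rw [← hk, hX.rim.modeq k]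
    rcases hXQ z (Finset.mem_image.2 ⟨k % L, Finset.mem_range.2 (Nat.mod_lt _ (by omega)),
      hk'⟩) with g | g
    · exact hPQ z hz g
    · exact hPZ z hz g
  -- first part
  obtain ⟨A1, Z1, hA1P, hM1⟩ := exists_minP (K := 712) hpP hPne (by omega)
  have hc1 : 2 * A1.card ≤ 3 * d := by
    by_contra hlt
    exact claimA hdeg hd hconn hX hL2 hM1 (fun z hz k => hXP z (hA1P hz) k) (by norm_num)
      (by norm_num) (by omega)
  obtain ⟨hb1, hs1⟩ := hM1.blob hdeg (by norm_num) (by omega) hc1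
  have hz1 := hM1.zc
  -- second part
  obtain ⟨R2, hR2n, hR2p, hR2d, -⟩ := hM1.part.rest (by omega)
  obtain ⟨A2, Z2, hA2R, hM2⟩ := exists_minP (K := 712) hR2p hR2n hz1
  have hz2 := hM2.zc
  have hd12 : ∀ z ∈ A1, z ∉ A2 := fun z hz hz' => hR2d z (hA2R hz') hz
  have hn12 : ∀ a ∈ A1, ∀ b ∈ A2, ¬ G.Adj a b := by
    intro a ha b hb hab
    rcases hM1.part.2 a ha b hab with g | g
    · exact hd12 b g hb
    · exact hR2p.1 b (hA2R hb) g
  have he12 : ∀ z ∈ A1, z ∉ Z2 := by
    intro z hz hz'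
    obtain ⟨a, ha, haz⟩ := hM2.nb z hz'
    exact hn12 z hz a ha haz.symm
  have he21 : ∀ z ∈ A2, z ∉ Z1 := fun z hz => hR2p.1 z (hA2R hz)
  have hc2 : 2 * A2.card ≤ 3 * d := by
    by_contra hlt
    exact big_false hdeg (by omega) h2 hconn hl hUL hL2 hL3 hb1 (by omega) (by omega) hM2
      (fun z hz hz' => by
        rcases Finset.mem_union.1 hz' with g | g
        · exact hd12 z hz g
        · exact he12 z hz g) (by norm_num) (by norm_num) (by omega)
  obtain ⟨hb2, hs2⟩ := hM2.blob hdeg (by norm_num) (by omega) hc2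
  -- third part
  have hp12 := hM1.part.un hM2.part he21 he12
  have hu1 := Finset.card_union_le A1 A2
  have hu2 := Finset.card_union_le Z1 Z2
  obtain ⟨R3, hR3n, hR3p, hR3d, -⟩ := hp12.rest (by omega)
  obtain ⟨A3, Z3, hA3R, hM3⟩ := exists_minP (K := 1424) hR3p hR3n (by omega)
  have hz3 := hM3.zc
  have hd13 : ∀ z ∈ A1, z ∉ A3 := fun z hz hz' =>
    hR3d z (hA3R hz') (Finset.mem_union_left _ hz)
  have hd23 : ∀ z ∈ A2, z ∉ A3 := fun z hz hz' =>
    hR3d z (hA3R hz') (Finset.mem_union_right _ hz)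
  have hn13 : ∀ a ∈ A1, ∀ b ∈ A3, ¬ G.Adj a b := by
    intro a ha b hb hab
    rcases hM1.part.2 a ha b hab with g | g
    · exact hd13 b g hb
    · exact hR3p.1 b (hA3R hb) (Finset.mem_union_left _ g)
  have hn23 : ∀ a ∈ A2, ∀ b ∈ A3, ¬ G.Adj a b := by
    intro a ha b hb hab
    rcases hM2.part.2 a ha b hab with g | g
    · exact hd23 b g hb
    · exact hR3p.1 b (hA3R hb) (Finset.mem_union_right _ g)
  have he13 : ∀ z ∈ A1, z ∉ Z3 := by
    intro z hz hz'
    obtain ⟨a, ha, haz⟩ := hM3.nb z hz'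
    exact hn13 z hz a ha haz.symm
  have hc3 : 2 * A3.card ≤ 3 * d := by
    by_contra hlt
    exact big_false hdeg (by omega) h2 hconn hl hUL hL2 hL3 hb1 (by omega) (by omega) hM3
      (fun z hz hz' => by
        rcases Finset.mem_union.1 hz' with g | g
        · exact hd13 z hz g
        · exact he13 z hz g) (by norm_num) (by norm_num) (by omega)
  obtain ⟨hb3, hs3⟩ := hM3.blob hdeg (by norm_num) (by omega) hc3
  have hq12 : (A1.card - 13) + (A2.card - 13) ≤ L := by
    by_contra hlt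
    exact pair_false h2 hconn hl hUL hL3 hb1 hb2 hd12 (by omega) (by omega) (by omega)
      (by omega) (by omega) (by omega) (by omega) (by omega) (by omega)
  have hq13 : (A1.card - 13) + (A3.card - 13) ≤ L := by
    by_contra hlt
    exact pair_false h2 hconn hl hUL hL3 hb1 hb3 hd13 (by omega) (by omega) (by omega)
      (by omega) (by omega) (by omega) (by omega) (by omega) (by omega)
  refine ⟨L, l, ![A1, A2, A3], ![Z1, Z2, Z3], hl, hUL, hL2, hL3, ?_, ?_⟩
  · intro i
    fin_cases i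
    · exact ⟨hM1.ne, hM1.part, by simp only [Fin.zero_eta, Matrix.cons_val_zero]; omega,
        by simp only [Fin.zero_eta, Matrix.cons_val_zero]; omega⟩
    · exact ⟨hM2.ne, hM2.part, by
          simp only [Fin.mk_one, Matrix.cons_val_one, Matrix.cons_val_zero]; omega,
        by simp only [Fin.mk_one, Matrix.cons_val_one, Matrix.cons_val_zero]; omega⟩
    · exact ⟨hM3.ne, hM3.part, by simp only [Fin.reduceFinMk, Matrix.cons_val]; omega,
        by simp only [Fin.reduceFinMk, Matrix.cons_val]; omega⟩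
  · intro i j hij
    fin_cases i <;> fin_cases j
    · exact absurd rfl hij
    · exact ⟨hd12, hn12⟩
    · exact ⟨hd13, hn13⟩
    · exact ⟨fun x hx hx' => hd12 x hx' hx, fun a ha b hb hab => hn12 b hb a ha hab.symm⟩
    · exact absurd rfl hij
    · exact ⟨hd23, hn23⟩
    · exact ⟨fun x hx hx' => hd13 x hx' hx, fun a ha b hb hab => hn13 b hb a ha hab.symm⟩
    · exact ⟨fun x hx hx' => hd23 x hx' hx, fun a ha b hb hab => hn23 b hb a ha hab.symm⟩
    · exact absurd rfl hij

/-- Bondy's conjecture (dual form) for large minimum degree -/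
theorem all_good {d : ℕ} (hdeg : ∀ v, d ≤ G.degree v) (hn : 2 * d ≤ Fintype.card V)
    (hd : 14400000 ≤ d)
    (hconn : ∀ S : Finset V, S.card < 3 → (G.induce ((↑S : Set V)ᶜ)).Connected) :
    Good G (2 * d - 1) := by
  by_cases hn4 : Fintype.card V ≤ 4 * d
  · exact large_good hdeg hn hn4 (by omega) hconn
  intro σ t hU
  have h2 : Two G := two_of_conn fun S hS => hconn S (by omega)
  by_cases hbad : ∃ l, Cyc G σ (t + 1) l
  swap
  · push Not at hbad
    exact good_of_no_bad hdeg (by omega) (by omega) h2 hbad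
  exfalso
  obtain ⟨L, l, B, Z, hl, hUL, hL2, hL3, hcl, hdn⟩ := trio_large hdeg (by omega) (by omega)
    hconn hU hbad
  exact Y.Trio.absurd (B := B) (Z := Z) ⟨hcl, fun i j hij => (hdn i j hij).1,
    fun i j hij => (hdn i j hij).2⟩ hdeg hd h2 hconn hl hUL hL2 hL3

end Run7.h807
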