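import Mathlib
import Pool.Agent.Run7.h807.Mn13

set_option autoImplicit false

namespace Run7.h807

variable {V : Type*} {G : SimpleGraph V}

variable [DecidableEq V] [DecidableRel G.Adj] {B E : Finset V} {w c e : ℕ}

/-- a neighbour in `B` outside a small set -/
theorem NA.nb (h : NA G B E w c e) {u : V} (hu : u ∈ E) {F : Finset V} (hF : F.card < c) :
    ∃ b ∈ B, G.Adj u b ∧ b ∉ F := by
  obtain ⟨b, hb, hbF⟩ := Finset.exists_mem_notMem_of_card_lt_card (lt_of_lt_of_le hF (h.att u hu))
  rw [Finset.mem_filter] at hb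
  exact ⟨b, hb.1, hb.2, hbF⟩

/-- disjoint pairs of neighbours for the attached vertices -/
theorem NA.pairs (h : NA G B E w c e) (R0 : Finset V) (S : Finset V) :
    S ⊆ E → R0.card + 2 * S.card ≤ c → ∃ f f' : V → V,
      (∀ u ∈ S, f u ∈ B ∧ f' u ∈ B ∧ G.Adj u (f u) ∧ G.Adj u (f' u) ∧ f u ∉ R0 ∧ f' u ∉ R0 ∧
        f u ≠ f' u) ∧
      ∀ u ∈ S, ∀ v ∈ S, u ≠ v → f u ≠ f v ∧ f u ≠ f' v ∧ f' u ≠ f' v := by
  classical
  induction S using Finset.induction_on with
  | empty => exact fun _ _ => ⟨id, id, by simp, by simp⟩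
  | insert u S huS ih =>
    intro hSE hc
    rw [Finset.card_insert_of_notMem huS] at hc
    obtain ⟨f, f', h1, h2⟩ := ih (fun z hz => hSE (Finset.mem_insert_of_mem hz)) (by omega)
    obtain ⟨R, hR⟩ : ∃ R, R = R0 ∪ (S.image f ∪ S.image f') := ⟨_, rfl⟩
    have hRc : R.card ≤ R0.card + 2 * S.card := by
      rw [hR]
      have e1 := Finset.card_union_le R0 (S.image f ∪ S.image f')
      have e2 := Finset.card_union_le (S.image f) (S.image f')
      have e3 := Finset.card_image_le (s := S) (f := f)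
      have e4 := Finset.card_image_le (s := S) (f := f')
      omega
    obtain ⟨b, hb, hub, hbR⟩ := h.nb (hSE (Finset.mem_insert_self u S)) (F := R) (by omega)
    obtain ⟨b', hb', hub', hbR'⟩ := h.nb (hSE (Finset.mem_insert_self u S)) (F := insert b R) (by
      have := Finset.card_insert_le b R
      omega)
    rw [Finset.mem_insert, not_or] at hbR'
    have hRm : ∀ z, z ∉ R → z ∉ R0 ∧ ∀ v ∈ S, f v ≠ z ∧ f' v ≠ z := by
      intro z hz
      rw [hR, Finset.mem_union, Finset.mem_union, not_or, not_or] at hz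
      refine ⟨hz.1, fun v hv => ⟨fun g => hz.2.1 (Finset.mem_image.2 ⟨v, hv, g⟩),
        fun g => hz.2.2 (Finset.mem_image.2 ⟨v, hv, g⟩)⟩⟩
    have q1 := hRm b hbR
    have q2 := hRm b' hbR'.2
    refine ⟨Function.update f u b, Function.update f' u b', fun v hv => ?_, fun v hv v' hv' hvv => ?_⟩
    · rw [Finset.mem_insert] at hv
      by_cases hvu : v = u
      · subst hvu
        rw [Function.update_self, Function.update_self]
        exact ⟨hb, hb', hub, hub', q1.1, q2.1, fun g => hbR'.1 g.symm⟩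
      · rw [Function.update_of_ne hvu, Function.update_of_ne hvu]
        exact h1 v (hv.resolve_left hvu)
    · rw [Finset.mem_insert] at hv hv'
      by_cases hvu : v = u
      · subst hvu
        have hv'u : v' ≠ v := fun g => hvv g.symm
        rw [Function.update_self, Function.update_self, Function.update_of_ne hv'u,
          Function.update_of_ne hv'u]
        have hv'S := hv'.resolve_left hv'u
        exact ⟨fun g => (q1.2 v' hv'S).1 g.symm, fun g => (q1.2 v' hv'S).2 g.symm,
          fun g => (q2.2 v' hv'S).2 g.symm⟩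
      · have hvS := hv.resolve_left hvu
        rw [Function.update_of_ne hvu, Function.update_of_ne hvu]
        by_cases hv'u : v' = u
        · subst hv'u
          rw [Function.update_self, Function.update_self]
          exact ⟨(q1.2 v hvS).1, (q2.2 v hvS).1, (q2.2 v hvS).2⟩
        · rw [Function.update_of_ne hv'u, Function.update_of_ne hv'u]
          exact h2 v hvS v' (hv'.resolve_left hv'u) hvv

variable [Fintype V]

/-- exact covers with reserved pairs -/
theorem NA.cover0r (h : NA G B E w c e) (f f' : V → V) : ∀ (n : ℕ) (F : Finset V) (x y : V),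
    x ∈ B → y ∈ B → x ∉ F → y ∉ F → x ≠ y → (E \ F).card = n →
    (∀ u ∈ E \ F, (f u ∈ B ∧ f' u ∈ B) ∧ (G.Adj u (f u) ∧ G.Adj u (f' u)) ∧
      (f u ∉ F ∧ f' u ∉ F) ∧ f u ≠ f' u ∧ (f u ≠ x ∧ f' u ≠ x) ∧ f u ≠ y ∧ f' u ≠ y) →
    (∀ u ∈ E \ F, ∀ v ∈ E \ F, u ≠ v → f u ≠ f v ∧ f u ≠ f' v ∧ f' u ≠ f' v) →
    2 * (F.card + 4 * n) + 4 * w + 12 ≤ B.card →
    ∃ l, Pth (RB G B) {z | z ∈ B ∪ E ∧ z ∉ F} x y l ∧ ((B ∪ E) \ F).card ≤ l.length := by
  intro n
  induction n with
  | zero =>
    intro F x y hx hy hxF hyF hxy hE _ _ hB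
    have hsl : Slk G B (2 * (F ∩ B).card + 5) := by
      intro v hv
      have h1 := h.dense v hv
      have h2 := Finset.card_le_card (Finset.inter_subset_left (s₁ := F) (s₂ := B))
      omega
    have hFB := Finset.card_le_card (Finset.inter_subset_left (s₁ := F) (s₂ := B))
    obtain ⟨l, hl, hll⟩ := ham_conn hsl le_rfl (by omega) hx hy
      (fun h => hxF (Finset.mem_inter.1 h).1) (fun h => hyF (Finset.mem_inter.1 h).1) hxy
    refine ⟨l, (hl.imp fun a b ha _ hab => ⟨hab, Or.inl ha.1⟩).mono fun z _ hz => ?_, ?_⟩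
    · exact ⟨Finset.mem_union_left _ hz.1, fun hzF => hz.2 (Finset.mem_inter.2 ⟨hzF, hz.1⟩)⟩
    · have hEF : E \ F = ∅ := Finset.card_eq_zero.1 hE
      have h1 : (B ∪ E) \ F = B \ F := by
        rw [Finset.union_sdiff_distrib, hEF, Finset.union_empty]
      rw [h1]
      have h2 := Finset.card_sdiff_add_card_inter B F
      rw [Finset.inter_comm] at h2
      omega
  | succ n ih =>
    intro F x y hx hy hxF hyF hxy hE hf hff hB
    obtain ⟨u, hu⟩ : (E \ F).Nonempty := Finset.card_pos.1 (by omega)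
    have huEF := hu
    rw [Finset.mem_sdiff] at hu
    have huB : u ∉ B := fun hm => h.dis u hm hu.1
    obtain ⟨⟨hbB, hb'B⟩, ⟨hub, hub'⟩, ⟨hbF, hb'F⟩, hbb', ⟨hbx, hb'x⟩, hby, hb'y⟩ := hf u huEF
    obtain ⟨b, hb⟩ : ∃ b, b = f u := ⟨_, rfl⟩
    obtain ⟨b', hb'⟩ : ∃ b', b' = f' u := ⟨_, rfl⟩
    rw [← hb] at hbB hub hbF hbb' hbx hby
    rw [← hb'] at hb'B hub' hb'F hbb' hb'x hb'y
    obtain ⟨R, hR⟩ : ∃ R, R = insert y (insert b' (F ∪ ((E \ F).image f ∪ (E \ F).image f'))) :=
      ⟨_, rfl⟩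
    have hRc : R.card ≤ F.card + 2 * (n + 1) + 2 := by
      rw [hR]
      have e00 := Finset.card_insert_le y (insert b' (F ∪ ((E \ F).image f ∪ (E \ F).image f')))
      have e0 := Finset.card_insert_le b' (F ∪ ((E \ F).image f ∪ (E \ F).image f'))
      have e1 := Finset.card_union_le F ((E \ F).image f ∪ (E \ F).image f')
      have e2 := Finset.card_union_le ((E \ F).image f) ((E \ F).image f')
      have e3 := Finset.card_image_le (s := E \ F) (f := f)
      have e4 := Finset.card_image_le (s := E \ F) (f := f')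
      omega
    have hxdeg := h.dense x hx
    obtain ⟨a, haB, hxa, hba, -, haR⟩ := h.common (u := x) (v := b) (v' := b) (m := B.card - w)
      (F := R) (by omega) hbB hbB (by omega)
    rw [hR, Finset.mem_insert, Finset.mem_insert, Finset.mem_union, Finset.mem_union, not_or,
      not_or, not_or, not_or] at haR
    obtain ⟨hay, hab', haF, haf, haf'⟩ := haR
    have haf : ∀ v ∈ E \ F, f v ≠ a := fun v hv g => haf (Finset.mem_image.2 ⟨v, hv, g⟩)
    have haf' : ∀ v ∈ E \ F, f' v ≠ a := fun v hv g => haf' (Finset.mem_image.2 ⟨v, hv, g⟩)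
    obtain ⟨F', hF'⟩ : ∃ F', F' = insert x (insert a (insert b (insert u F))) := ⟨_, rfl⟩
    have hF'c : F'.card ≤ F.card + 4 := by
      rw [hF']
      have e0 := Finset.card_insert_le x (insert a (insert b (insert u F)))
      have e1 := Finset.card_insert_le a (insert b (insert u F))
      have e2 := Finset.card_insert_le b (insert u F)
      have e3 := Finset.card_insert_le u F
      omega
    have hF'm : ∀ z, z ∈ F' ↔ z = x ∨ z = a ∨ z = b ∨ z = u ∨ z ∈ F := fun z => by
      rw [hF']; simp only [Finset.mem_insert]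
    have hEFe : E \ F' = (E \ F).erase u := by
      ext z
      rw [Finset.mem_sdiff, Finset.mem_erase, Finset.mem_sdiff, hF'm]
      constructor
      · rintro ⟨g1, g2⟩
        exact ⟨fun g => g2 (Or.inr (Or.inr (Or.inr (Or.inl g)))), g1,
          fun g => g2 (Or.inr (Or.inr (Or.inr (Or.inr g))))⟩
      · rintro ⟨g1, g2, g3⟩
        refine ⟨g2, ?_⟩
        rintro (g | g | g | g | g)
        · exact h.dis x hx (g ▸ g2)
        · exact h.dis a haB (g ▸ g2)
        · exact h.dis b hbB (g ▸ g2)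
        · exact g1 g
        · exact g3 g
    have hEF' : (E \ F').card = n := by
      rw [hEFe, Finset.card_erase_of_mem huEF, hE]
      rfl
    obtain ⟨l, hl, hll⟩ := ih F' b' y hb'B hy (by
      rw [hF'm]
      rintro (g | g | g | g | g)
      · exact hb'x g
      · exact hab' g.symm
      · exact hbb' g.symm
      · exact hub'.ne g.symm
      · exact hb'F g) (by
      rw [hF'm]
      rintro (g | g | g | g | g)
      · exact hxy g.symm
      · exact hay g.symm
      · exact hby g.symm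
      · exact huB (g ▸ hy)
      · exact hyF g) hb'y hEF' (fun v hv => by
      rw [hEFe, Finset.mem_erase] at hv
      obtain ⟨hvu, hvE⟩ := hv
      obtain ⟨k1, k2, k3, k4, k5, k6⟩ := hf v hvE
      obtain ⟨d1, d2, d3⟩ := hff v hvE u huEF hvu
      obtain ⟨-, d2', -⟩ := hff u huEF v hvE (fun g => hvu g.symm)
      rw [← hb] at d1 d2'
      rw [← hb'] at d2 d3
      refine ⟨k1, k2, ⟨?_, ?_⟩, k4, ⟨d2, d3⟩, k6⟩
      · rw [hF'm]
        rintro (g | g | g | g | g)
        · exact k5.1 g
        · exact haf v hvE g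
        · exact d1 g
        · exact huB (g ▸ k1.1)
        · exact k3.1 g
      · rw [hF'm]
        rintro (g | g | g | g | g)
        · exact k5.2 g
        · exact haf' v hvE g
        · exact d2' g.symm
        · exact huB (g ▸ k1.2)
        · exact k3.2 g) (fun v hv v' hv' hvv => by
      rw [hEFe, Finset.mem_erase] at hv hv'
      exact hff v hv.2 v' hv'.2 hvv) (by omega)
    have hlF : ∀ z ∈ l, z ∉ F' := fun z hz => (hl.mem z hz).2
    have hl1 : Pth (RB G B) {z | z ∈ B ∪ E ∧ z ∉ F} b' y l := hl.mono fun z _ hz =>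
      ⟨hz.1, fun g => hz.2 ((hF'm z).2 (Or.inr (Or.inr (Or.inr (Or.inr g)))))⟩
    have hmB : ∀ z, z ∈ B → z ∉ F → z ∈ {z | z ∈ B ∪ E ∧ z ∉ F} := fun z h1 h2 =>
      ⟨Finset.mem_union_left _ h1, h2⟩
    have g1 := rb_chain_cons hl1 (x := u) ⟨hub', Or.inr hb'B⟩ ⟨Finset.mem_union_right _ hu.1, hu.2⟩
      (fun g => hlF u g ((hF'm u).2 (Or.inr (Or.inr (Or.inr (Or.inl rfl))))))
    have g2 := rb_chain_cons g1 (x := b) ⟨hub.symm, Or.inl hbB⟩ (hmB b hbB hbF) (by
      rw [List.mem_cons, not_or]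
      exact ⟨hub.ne', fun g => hlF b g ((hF'm b).2 (Or.inr (Or.inr (Or.inl rfl))))⟩)
    have g3 := rb_chain_cons g2 (x := a) ⟨hba.symm, Or.inl haB⟩ (hmB a haB haF) (by
      rw [List.mem_cons, List.mem_cons, not_or, not_or]
      exact ⟨hba.ne', fun g => huB (g ▸ haB),
        fun g => hlF a g ((hF'm a).2 (Or.inr (Or.inl rfl)))⟩)
    have g4 := rb_chain_cons g3 (x := x) ⟨hxa, Or.inl hx⟩ (hmB x hx hxF) (by
      rw [List.mem_cons, List.mem_cons, List.mem_cons, not_or, not_or, not_or]
      exact ⟨hxa.ne, fun g => hbx g.symm, fun g => huB (g ▸ hx),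
        fun g => hlF x g ((hF'm x).2 (Or.inl rfl))⟩)
    refine ⟨_, g4, ?_⟩
    simp only [List.length_cons]
    have hsub : (B ∪ E) \ F ⊆ insert x (insert a (insert b (insert u ((B ∪ E) \ F')))) := by
      intro z hz
      rw [Finset.mem_sdiff] at hz
      simp only [Finset.mem_insert, Finset.mem_sdiff, hF'm]
      tauto
    have k0 := Finset.card_le_card hsub
    have k1 := Finset.card_insert_le x (insert a (insert b (insert u ((B ∪ E) \ F'))))
    have k2 := Finset.card_insert_le a (insert b (insert u ((B ∪ E) \ F')))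
    have k3 := Finset.card_insert_le b (insert u ((B ∪ E) \ F'))
    have k4 := Finset.card_insert_le u ((B ∪ E) \ F')
    omega

/-- exact covers between vertices of the near-clique, with a small attachment bound -/
theorem NA.cover0s (h : NA G B E w c e) {F : Finset V} {x y : V} (hx : x ∈ B) (hy : y ∈ B)
    (hxF : x ∉ F) (hyF : y ∉ F) (hxy : x ≠ y) (hB : 2 * (F.card + 4 * e) + 4 * w + 12 ≤ B.card)
    (hc : F.card + 2 + 2 * e ≤ c) :
    ∃ l, Pth (RB G B) {z | z ∈ B ∪ E ∧ z ∉ F} x y l ∧ ((B ∪ E) \ F).card ≤ l.length := by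
  have hEc : (E \ F).card ≤ e := (Finset.card_le_card Finset.sdiff_subset).trans h.ec
  obtain ⟨f, f', h1, h2⟩ := h.pairs (insert x (insert y F)) (E \ F) Finset.sdiff_subset (by
    have e1 := Finset.card_insert_le x (insert y F)
    have e2 := Finset.card_insert_le y F
    omega)
  refine h.cover0r f f' _ F x y hx hy hxF hyF hxy rfl (fun u hu => ?_) h2 (by omega)
  obtain ⟨k1, k2, k3, k4, k5, k6, k7⟩ := h1 u hu
  rw [Finset.mem_insert, Finset.mem_insert, not_or, not_or] at k5 k6
  exact ⟨⟨k1, k2⟩, ⟨k3, k4⟩, ⟨k5.2.2, k6.2.2⟩, k7, ⟨k5.1, k6.1⟩, k5.2.1, k6.2.1⟩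

end Run7.h807
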