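import Mathlib
import Pool.Agent.Run7.h807.Qa1

set_option autoImplicit false

namespace Run7.h807

variable {V : Type*} {G : SimpleGraph V} {σ : Sym2 V → ZMod 2}

variable [DecidableEq V] [DecidableRel G.Adj] {B E : Finset V} {w c e : ℕ}

theorem NA.comB (h : NA G B E w c e) {x y z : V} (hx : x ∈ B) (hy : y ∈ B) (hz : z ∈ B)
    {F : Finset V} (hF : F.card + 3 * w < B.card) :
    ∃ a ∈ B, G.Adj x a ∧ G.Adj y a ∧ G.Adj z a ∧ a ∉ F := by
  have := h.dense x hx
  exact h.common (m := B.card - w) (by omega) hy hz (by omega)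

theorem NA.short0s (h : NA G B E w c e) {F : Finset V} (hF : F.card + 3 * w < B.card)
    {x y : V} (hx : x ∈ B) (hy : y ∈ B) (hxF : x ∉ F) (hyF : y ∉ F) :
    ∃ l, Pth (RB G B) {z | z ∈ B ∪ E ∧ z ∉ F} x y l ∧ l.length ≤ 3 := by
  by_cases hxy : x = y
  · subst hxy
    exact ⟨[x], Pth.single ⟨Finset.mem_union_left _ hx, hxF⟩, by simp⟩
  · obtain ⟨a, haB, hxa, hya, -, haF⟩ := h.comB hx hy hy hF
    refine ⟨[x, a, y], ⟨?_, ?_, rfl, rfl, ?_⟩, by simp⟩
    · simp [hxa.ne, hya.ne', hxy]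
    · simp only [List.isChain_cons_cons, List.isChain_singleton, and_true]
      exact ⟨⟨hxa, Or.inl hx⟩, ⟨hya.symm, Or.inl haB⟩⟩
    · intro z hz
      simp only [List.mem_cons, List.not_mem_nil, or_false] at hz
      rcases hz with rfl | rfl | rfl
      · exact ⟨Finset.mem_union_left _ hx, hxF⟩
      · exact ⟨Finset.mem_union_left _ haB, haF⟩
      · exact ⟨Finset.mem_union_left _ hy, hyF⟩

theorem NA.short1s (h : NA G B E w c e) {F : Finset V} (hF : F.card + 1 + 3 * w < B.card)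
    (hc : F.card + 1 < c) {x y : V} (hx : x ∈ B ∪ E) (hy : y ∈ B) (hxF : x ∉ F) (hyF : y ∉ F) :
    ∃ l, Pth (RB G B) {z | z ∈ B ∪ E ∧ z ∉ F} x y l ∧ l.length ≤ 4 := by
  by_cases hxB : x ∈ B
  · obtain ⟨l, h1, h2⟩ := h.short0s (F := F) (by omega) hxB hy hxF hyF
    exact ⟨l, h1, by omega⟩
  · have hxE : x ∈ E := (Finset.mem_union.1 hx).resolve_left hxB
    obtain ⟨a, haB, hxa, haF⟩ := h.nb hxE (F := insert x F) (by
      have := Finset.card_insert_le x F
      omega)
    obtain ⟨l, h1, h2⟩ := h.short0s (F := insert x F) (by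
      have := Finset.card_insert_le x F
      omega) haB hy haF (by
      rw [Finset.mem_insert, not_or]
      exact ⟨fun g => hxB (g ▸ hy), hyF⟩)
    have h1' : Pth (RB G B) {z | z ∈ B ∪ E ∧ z ∉ F} a y l := h1.mono fun z _ hz =>
      ⟨hz.1, fun g => hz.2 (Finset.mem_insert_of_mem g)⟩
    refine ⟨x :: l, rb_chain_cons h1' ⟨hxa, Or.inr haB⟩ ⟨hx, hxF⟩ (fun g =>
      (h1.mem x g).2 (Finset.mem_insert_self _ _)), ?_⟩
    rw [List.length_cons]
    omega

theorem NA.short2s (h : NA G B E w c e) {F : Finset V} (hF : F.card + 2 + 3 * w < B.card)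
    (hc : F.card + 2 < c) {x y : V} (hx : x ∈ B ∪ E) (hy : y ∈ B ∪ E) (hxF : x ∉ F)
    (hyF : y ∉ F) : ∃ l, Pth (RB G B) {z | z ∈ B ∪ E ∧ z ∉ F} x y l ∧ l.length ≤ 5 := by
  by_cases hyB : y ∈ B
  · obtain ⟨l, h1, h2⟩ := h.short1s (F := F) (by omega) (by omega) hx hyB hxF hyF
    exact ⟨l, h1, by omega⟩
  · have hyE : y ∈ E := (Finset.mem_union.1 hy).resolve_left hyB
    by_cases hxy : x = y
    · subst hxy
      exact ⟨[x], Pth.single ⟨hx, hxF⟩, by simp⟩
    obtain ⟨a, haB, hya, haF⟩ := h.nb hyE (F := insert y F) (by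
      have := Finset.card_insert_le y F
      omega)
    obtain ⟨l, h1, h2⟩ := h.short1s (F := insert y F) (by
      have := Finset.card_insert_le y F
      omega) (by
      have := Finset.card_insert_le y F
      omega) hx haB (by
      rw [Finset.mem_insert, not_or]
      exact ⟨hxy, hxF⟩) haF
    have h1' : Pth (RB G B) {z | z ∈ B ∪ E ∧ z ∉ F} x a l := h1.mono fun z _ hz =>
      ⟨hz.1, fun g => hz.2 (Finset.mem_insert_of_mem g)⟩
    refine ⟨_, rb_snoc h1' ⟨hya.symm, Or.inl haB⟩ ⟨hy, hyF⟩ (fun g =>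
      (h1.mem y g).2 (Finset.mem_insert_self _ _)), ?_⟩
    rw [List.length_reverse, List.length_cons, List.length_reverse]
    omega

variable [Fintype V]

theorem NA.cover1s (h : NA G B E w c e) {F : Finset V} {x y : V} (hx : x ∈ B ∪ E) (hy : y ∈ B)
    (hxF : x ∉ F) (hyF : y ∉ F) (hxy : x ≠ y)
    (hB : 2 * (F.card + 1 + 4 * e) + 4 * w + 12 ≤ B.card)
    (hc : F.card + 3 + 2 * e ≤ c) :
    ∃ l, Pth (RB G B) {z | z ∈ B ∪ E ∧ z ∉ F} x y l ∧ ((B ∪ E) \ F).card ≤ l.length := by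
  by_cases hxB : x ∈ B
  · exact h.cover0s hxB hy hxF hyF hxy (by omega) (by omega)
  · have hxE : x ∈ E := (Finset.mem_union.1 hx).resolve_left hxB
    have hins := Finset.card_insert_le x F
    have he1 : 1 ≤ e := le_trans (Finset.card_pos.2 ⟨x, hxE⟩) h.ec
    obtain ⟨a, haB, hxa, haF⟩ := h.nb hxE (F := insert y (insert x F)) (by
      have := Finset.card_insert_le y (insert x F)
      omega)
    rw [Finset.mem_insert, not_or] at haF
    obtain ⟨l, h1, h2⟩ := h.cover0s (F := insert x F) haB hy haF.2 (by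
      rw [Finset.mem_insert, not_or]
      exact ⟨hxy.symm, hyF⟩) haF.1 (by omega) (by omega)
    have h1' : Pth (RB G B) {z | z ∈ B ∪ E ∧ z ∉ F} a y l := h1.mono fun z _ hz =>
      ⟨hz.1, fun g => hz.2 (Finset.mem_insert_of_mem g)⟩
    refine ⟨x :: l, rb_chain_cons h1' ⟨hxa, Or.inr haB⟩ ⟨hx, hxF⟩ (fun g =>
      (h1.mem x g).2 (Finset.mem_insert_self _ _)), ?_⟩
    have := sdiff_insert_card (B ∪ E) F x
    rw [List.length_cons]
    omega

theorem NA.cover2s (h : NA G B E w c e) {F : Finset V} {x y : V} (hx : x ∈ B ∪ E)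
    (hy : y ∈ B ∪ E) (hxF : x ∉ F) (hyF : y ∉ F) (hxy : x ≠ y)
    (hB : 2 * (F.card + 2 + 4 * e) + 4 * w + 12 ≤ B.card)
    (hc : F.card + 4 + 2 * e ≤ c) :
    ∃ l, Pth (RB G B) {z | z ∈ B ∪ E ∧ z ∉ F} x y l ∧ ((B ∪ E) \ F).card ≤ l.length := by
  by_cases hyB : y ∈ B
  · exact h.cover1s hx hyB hxF hyF hxy (by omega) (by omega)
  · have hyE : y ∈ E := (Finset.mem_union.1 hy).resolve_left hyB
    have hins := Finset.card_insert_le y F
    obtain ⟨a, haB, hya, haF⟩ := h.nb hyE (F := insert x (insert y F)) (by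
      have := Finset.card_insert_le x (insert y F)
      have he1 : 1 ≤ e := le_trans (Finset.card_pos.2 ⟨y, hyE⟩) h.ec
      omega)
    rw [Finset.mem_insert, not_or] at haF
    obtain ⟨l, h1, h2⟩ := h.cover1s (F := insert y F) hx haB (by
      rw [Finset.mem_insert, not_or]
      exact ⟨hxy, hxF⟩) haF.2 (fun g => haF.1 g.symm) (by omega) (by omega)
    have h1' : Pth (RB G B) {z | z ∈ B ∪ E ∧ z ∉ F} x a l := h1.mono fun z _ hz =>
      ⟨hz.1, fun g => hz.2 (Finset.mem_insert_of_mem g)⟩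
    refine ⟨_, rb_snoc h1' ⟨hya.symm, Or.inl haB⟩ ⟨hy, hyF⟩ (fun g =>
      (h1.mem y g).2 (Finset.mem_insert_self _ _)), ?_⟩
    have := sdiff_insert_card (B ∪ E) F y
    rw [List.length_reverse, List.length_cons, List.length_reverse]
    omega

theorem NA.xbs (h : NA G B E w c e) {r : ℕ}
    (hB : 2 * (r + 2 + 4 * e) + 4 * w + 12 ≤ B.card) (hc : r + 4 + 2 * e ≤ c) :
    XB (RB G B) (B ∪ E) 5 r := by
  refine ⟨fun F hF x hx y hy hxF hyF => h.short2s (by omega) (by omega) hx hy hxF hyF,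
    fun F hF x hx y hy hxF hyF hxy => ?_⟩
  obtain ⟨l, h1, h2⟩ := h.cover2s hx hy hxF hyF hxy (by omega) (by omega)
  refine ⟨l, h1, ?_⟩
  have h3 := Finset.card_sdiff_add_card_inter (B ∪ E) F
  have h4 := Finset.card_le_card (Finset.inter_subset_right (s₁ := B ∪ E) (s₂ := F))
  omega

/-- a potential on an extended near-clique, from slack one, with a small attachment bound -/
theorem NA.pot1s {p : Fin 3 → V} (h : NA G B E w c e) {r : ℕ} (hX : XB (RB G B) (B ∪ E) 5 r) (hr : 11 ≤ r)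
    (hc : 4 ≤ c) (hB : 5 + 3 * w < B.card)
    (hC : Cst G σ (B ∪ E) p ((B ∪ E).card - 1)) (hpA : ∀ i, p i ∈ B ∪ E)
    (hinj : ∀ i j, i ≠ j → p i ≠ p j) :
    ∃ π : V → ZMod 2, ∀ x ∈ B ∪ E, ∀ y ∈ B ∪ E, RB G B x y → σ s(x, y) = π x + π y := by
  classical
  obtain ⟨T, hT⟩ : ∃ T : Finset V, T = {p 0, p 1, p 2} := ⟨_, rfl⟩
  have hT3 : T.card ≤ 3 := by rw [hT]; exact Finset.card_le_three
  have hpT : ∀ i, p i ∈ T := by
    intro i
    rw [hT]
    fin_cases i <;> simp
  have hBA : ∀ z ∈ B, z ∈ B ∪ E := fun z hz => Finset.mem_union_left _ hz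
  have hRG : ∀ a b, RB G B a b → G.Adj a b := fun a b hab => hab.1
  -- two ways of length two between `v` and a vertex `y` of `B`
  have W2 : ∀ v ∈ B ∪ E, ∀ y ∈ B, y ∉ T → v ≠ y → ∀ a ∈ B, ∀ a' ∈ B, a' ∉ T → G.Adj v a →
      G.Adj y a → G.Adj v a' → G.Adj y a' → σ s(y, a) + σ s(a, v) = σ s(y, a') + σ s(a', v) := by
    intro v hv y hy hyT hvy a ha a' ha' ha'T hva hya hva' hya'
    by_cases haa : a = a'
    · rw [haa]
    have hyA := hBA y hy
    have hpy : ∀ i, p i ≠ y := fun i g => hyT (g ▸ hpT i)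
    obtain ⟨i, j, u, v', hij, hia, hja, hi, hj, huy, hvv, hu, hv'⟩ : ∃ (i j : Fin 3) (u v' : V),
        i ≠ j ∧ p i ≠ a ∧ p j ≠ a ∧
        p i ≠ v' ∧ p j ≠ v' ∧ p j ≠ u ∧ u ≠ v' ∧ ((u = v ∧ v' = y) ∨ (u = y ∧ v' = v)) ∧
        (u ∈ B ∪ E ∧ v' ∈ B ∪ E) := by
      obtain ⟨i, j, hij, hi, hj⟩ := two_term hinj a
      by_cases h1 : p j = v
      · exact ⟨j, i, v, y, hij.symm, hj, hi, hpy j, hpy i,
          fun g => hinj i j hij (g.trans h1.symm), hvy, Or.inl ⟨rfl, rfl⟩, hv, hyA⟩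
      by_cases h2 : p i = v
      · exact ⟨i, j, v, y, hij, hi, hj, hpy i, hpy j, h1, hvy, Or.inl ⟨rfl, rfl⟩, hv, hyA⟩
      · exact ⟨i, j, y, v, hij, hi, hj, h2, h1, hpy j, fun g => hvy g.symm, Or.inr ⟨rfl, rfl⟩,
          hyA, hv⟩
    have hu' : G.Adj u a ∧ G.Adj u a' ∧ G.Adj v' a ∧ G.Adj v' a' := by
      rcases hu with ⟨rfl, rfl⟩ | ⟨rfl, rfl⟩
      · exact ⟨hva, hva', hya, hya'⟩
      · exact ⟨hya, hya', hva, hva'⟩
    obtain ⟨k1, k2, k3, k4⟩ := hu'
    obtain ⟨S, hS, hSl⟩ := hX.short {a, a', v', p j} (Finset.card_le_four.trans (by omega)) (p i)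
      (hpA i) u hv'.1 (by
        simp only [Finset.mem_insert, Finset.mem_singleton, not_or]
        exact ⟨hia, fun g => ha'T (g ▸ hpT i), hi, hinj i j hij⟩) (by
        simp only [Finset.mem_insert, Finset.mem_singleton, not_or]
        exact ⟨k1.ne, k2.ne, hvv, fun g => huy g.symm⟩)
    have hSm : ∀ z ∈ S, z ≠ a ∧ z ≠ a' ∧ z ≠ v' ∧ z ≠ p j := by
      intro z hz
      have := (hS.mem z hz).2
      simp only [Finset.mem_insert, Finset.mem_singleton, not_or] at this
      exact this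
    have key := xb_U (u := u) (v := v') (n := a) (n' := a') hRG hX hC hpA hij
      ((hS.imp fun a b _ _ hab => hRG a b hab).mono fun z _ hz => hz.1)
      (three_list (S := {z | z ∈ B ∪ E}) k1 k3.symm hvv hv'.1 (hBA a ha) hv'.2)
      (three_list (S := {z | z ∈ B ∪ E}) k2 k4.symm hvv hv'.1 (hBA a' ha') hv'.2)
      (fun z hz hz' => by
        simp only [List.mem_cons, List.not_mem_nil, or_false] at hz'
        rcases hz' with g | g | g
        · exact g
        · exact absurd g (hSm z hz).1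
        · exact absurd g (hSm z hz).2.2.1)
      (fun z hz hz' => by
        simp only [List.mem_cons, List.not_mem_nil, or_false] at hz'
        rcases hz' with g | g | g
        · exact g
        · exact absurd g (hSm z hz).2.1
        · exact absurd g (hSm z hz).2.2.1)
      (fun g => (hSm _ g).2.2.2 rfl)
      (by
        simp only [List.mem_cons, List.not_mem_nil, or_false, not_or]
        exact ⟨huy, hja, hj⟩)
      (by
        simp only [List.mem_cons, List.not_mem_nil, or_false, not_or]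
        exact ⟨huy, fun g => ha'T (g ▸ hpT j), hj⟩)
      (fun z hz => by
        simp only [List.mem_cons, List.not_mem_nil, or_false] at hz ⊢
        tauto)
      (fun z hz => by
        simp only [List.mem_cons, List.not_mem_nil, or_false] at hz ⊢
        tauto)
      (by simp only [List.length_cons, List.length_nil]; omega)
    have key' : σ s(u, a) + σ s(a, v') = σ s(u, a') + σ s(a', v') := by simpa using key
    rcases hu with ⟨rfl, rfl⟩ | ⟨rfl, rfl⟩
    · rw [Sym2.eq_swap (a := v') (b := a), Sym2.eq_swap (a := a) (b := u),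
        Sym2.eq_swap (a := v') (b := a'), Sym2.eq_swap (a := a') (b := u)]
      linear_combination key'
    · exact key'
  -- triangles
  have TR : ∀ v ∈ B ∪ E, ∀ x ∈ B, ∀ a ∈ B, a ∉ T → G.Adj v x → G.Adj v a → G.Adj x a →
      σ s(v, x) = σ s(v, a) + σ s(a, x) := by
    intro v hv x hx a ha haT hvx hva hxa
    obtain ⟨i, j, hij, hix, hjv, hjx⟩ : ∃ i j, i ≠ j ∧ p i ≠ x ∧ p j ≠ v ∧ p j ≠ x := by
      obtain ⟨i, j, hij, hi, hj⟩ := two_term hinj x
      by_cases hix : p i = v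
      · exact ⟨i, j, hij, hi, fun he => hinj i j hij (hix.trans he.symm), hj⟩
      · exact ⟨j, i, hij.symm, hj, hix, hi⟩
    obtain ⟨S, hS, hSl⟩ := hX.short {x, a, p j} (Finset.card_le_three.trans (by omega)) (p i)
      (hpA i) v hv (by
        simp only [Finset.mem_insert, Finset.mem_singleton, not_or]
        exact ⟨hix, fun g => haT (g ▸ hpT i), hinj i j hij⟩) (by
        simp only [Finset.mem_insert, Finset.mem_singleton, not_or]
        exact ⟨hvx.ne, hva.ne, hjv.symm⟩)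
    have hSm : ∀ z ∈ S, z ≠ x ∧ z ≠ a ∧ z ≠ p j := by
      intro z hz
      have := (hS.mem z hz).2
      simp only [Finset.mem_insert, Finset.mem_singleton, not_or] at this
      exact this
    have key := xb_U (u := v) (v := x) (n := v) (n' := a) hRG hX hC hpA hij
      ((hS.imp fun a b _ _ hab => hRG a b hab).mono fun z _ hz => hz.1)
      (two_list (S := {z | z ∈ B ∪ E}) hvx hv (hBA x hx))
      (three_list (S := {z | z ∈ B ∪ E}) hva hxa.symm hvx.ne hv (hBA a ha) (hBA x hx))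
      (fun z hz hz' => by
        simp only [List.mem_cons, List.not_mem_nil, or_false] at hz'
        rcases hz' with g | g
        · exact g
        · exact absurd g (hSm z hz).1)
      (fun z hz hz' => by
        simp only [List.mem_cons, List.not_mem_nil, or_false] at hz'
        rcases hz' with g | g | g
        · exact g
        · exact absurd g (hSm z hz).2.1
        · exact absurd g (hSm z hz).1)
      (fun g => (hSm _ g).2.2 rfl)
      (by
        simp only [List.mem_cons, List.not_mem_nil, or_false, not_or]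
        exact ⟨hjv, hjx⟩)
      (by
        simp only [List.mem_cons, List.not_mem_nil, or_false, not_or]
        exact ⟨hjv, fun g => haT (g ▸ hpT j), hjx⟩)
      (fun z hz => by
        simp only [List.mem_cons, List.not_mem_nil, or_false] at hz ⊢
        tauto)
      (fun z hz => by
        simp only [List.mem_cons, List.not_mem_nil, or_false] at hz ⊢
        tauto)
      (by simp only [List.length_cons, List.length_nil]; omega)
    simpa using key
  -- the potential on `B`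
  obtain ⟨b0, hb0, hb0T⟩ := Finset.exists_mem_notMem_of_card_lt_card (s := T) (t := B) (by omega)
  obtain ⟨πB, hπB⟩ : ∃ π : V → ZMod 2, ∀ v ∈ B, ∀ a ∈ B, a ∉ T → G.Adj v a → G.Adj b0 a →
      π v = σ s(b0, a) + σ s(a, v) := by
    have hex : ∀ v ∈ B, ∃ a ∈ B, G.Adj v a ∧ G.Adj b0 a ∧ a ∉ T := by
      intro v hv
      obtain ⟨a, g1, g2, g3, -, g5⟩ := h.comB (F := T) hv hb0 hb0 (by omega)
      exact ⟨a, g1, g2, g3, g5⟩
    refine ⟨fun v => if hv : v ∈ B then σ s(b0, (hex v hv).choose) +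
      σ s((hex v hv).choose, v) else 0, fun v hv a ha haT hva hba => ?_⟩
    simp only [dif_pos hv]
    have h1 := (hex v hv).choose_spec
    by_cases hvb : v = b0
    · subst hvb
      rw [Sym2.eq_swap (a := (hex v hv).choose), Sym2.eq_swap (a := a), two_self, two_self]
    · exact W2 v (hBA v hv) b0 hb0 hb0T hvb _ h1.1 a ha haT h1.2.1 h1.2.2.1 hva hba
  have hBB : ∀ x ∈ B, ∀ y ∈ B, G.Adj x y → σ s(x, y) = πB x + πB y := by
    intro x hx y hy hxy
    obtain ⟨a, ha, hxa, hya, hb0a, haT⟩ := h.comB (F := T) hx hy hb0 (by omega)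
    rw [hπB x hx a ha haT hxa hb0a, hπB y hy a ha haT hya hb0a,
      TR x (hBA x hx) y hy a ha haT hxy hxa hya, Sym2.eq_swap (a := x) (b := a)]
    have := two_self (σ s(b0, a))
    linear_combination -this
  -- attached vertices
  obtain ⟨πE, hπE⟩ : ∃ π : V → ZMod 2, ∀ v ∈ E, ∀ x ∈ B, G.Adj v x →
      π v = σ s(v, x) + πB x := by
    have hex : ∀ v ∈ E, ∃ x ∈ B, G.Adj v x ∧ x ∉ T := fun v hv => h.nb hv (by omega)
    refine ⟨fun v => if hv : v ∈ E then σ s(v, (hex v hv).choose) + πB (hex v hv).choose else 0,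
      fun v hv x hx hvx => ?_⟩
    simp only [dif_pos hv]
    obtain ⟨g1, g2, g3⟩ := (hex v hv).choose_spec
    obtain ⟨x0, hx0⟩ : ∃ x0, x0 = (hex v hv).choose := ⟨_, rfl⟩
    rw [← hx0] at g1 g2 g3 ⊢
    obtain ⟨y, hy, hxy, hx0y, -, hyT⟩ := h.comB (F := T) hx g1 g1 (by omega)
    have e1 := W2 v (Finset.mem_union_right _ hv) y hy hyT (fun g => h.dis y hy (g ▸ hv)) x hx x0
      g1 g3 hvx hxy.symm g2 hx0y.symm
    rw [hBB y hy x hx hxy.symm, hBB y hy x0 g1 hx0y.symm, Sym2.eq_swap (a := x) (b := v),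
      Sym2.eq_swap (a := x0) (b := v)] at e1
    linear_combination -e1
  obtain ⟨π, hπ⟩ : ∃ π : V → ZMod 2, π = fun v => if v ∈ B then πB v else πE v := ⟨_, rfl⟩
  have hπ1 : ∀ v ∈ B, π v = πB v := fun v hv => by rw [hπ]; exact if_pos hv
  have hπ2 : ∀ v ∈ E, π v = πE v := fun v hv => by
    rw [hπ]; exact if_neg fun g => h.dis v g hv
  have hedge : ∀ v ∈ B ∪ E, ∀ x ∈ B, G.Adj v x → σ s(v, x) = π v + π x := by
    intro v hv x hx hvx
    rw [hπ1 x hx]
    rcases Finset.mem_union.1 hv with hv | hv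
    · rw [hπ1 v hv]
      exact hBB v hv x hx hvx
    · rw [hπ2 v hv, hπE v hv x hx hvx]
      have := two_self (πB x)
      linear_combination -this
  refine ⟨π, fun x hx y hy hxy => ?_⟩
  rcases hxy.2 with g | g
  · rw [Sym2.eq_swap, add_comm]
    exact hedge y hy x g hxy.1.symm
  · exact hedge x hx y g hxy.1

end Run7.h807
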