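import Mathlib
import Pool.Agent.Run7.h807.Qa2

set_option autoImplicit false

namespace Run7.h807.Q

variable {V : Type*} {G : SimpleGraph V}

/-- a near-clique with few outer neighbours -/
structure NCk (G : SimpleGraph V) (d κ β : ℕ) (B Z : Finset V) : Prop where
  ne : B.Nonempty
  part : Part G B Z
  zc : Z.card ≤ κ
  big : B.card ≤ d + β

/-- size conditions -/
structure Big (d κ β : ℕ) : Prop where
  lin : 14 * κ + 4 * β + 200 ≤ d
  quad : (κ + 15) * (κ + 15) + 2 * κ ≤ 2 * d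

variable [DecidableEq V] [DecidableRel G.Adj]

/-- outer neighbours with many neighbours in `B` -/
def Za (G : SimpleGraph V) [DecidableRel G.Adj] (d : ℕ) (B Z : Finset V) : Finset V :=
  Zat G B Z (2 * (d + 1 - B.card) + 28)

theorem mem_za {d : ℕ} {B Z : Finset V} {z : V} :
    z ∈ Za G d B Z ↔ z ∈ Z ∧ 2 * (d + 1 - B.card) + 28 ≤ (B.filter (G.Adj z)).card := by
  unfold Za
  exact mem_zat

/-- many attached vertices, by double counting -/
theorem zat_count [Fintype V] {B Z : Finset V} {c d : ℕ} (hdeg : ∀ v, d ≤ G.degree v)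
    (hp : Part G B Z) (hBZ : d + 1 ≤ B.card + Z.card)
    (hbig : (B.card + Z.card - d) * c < B.card) : d + 1 ≤ B.card + (Zat G B Z c).card := by
  by_contra hlt
  push Not at hlt
  obtain ⟨q, hq⟩ : ∃ q, q = (Zat G B Z c).card := ⟨_, rfl⟩
  rw [← hq] at hlt
  have hZs : Zat G B Z c ⊆ Z := Finset.filter_subset _ _
  have hqZ : q ≤ Z.card := by rw [hq]; exact Finset.card_le_card hZs
  have hsd : (Z \ Zat G B Z c).card = Z.card - q := by
    rw [Finset.card_sdiff_of_subset hZs, hq]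
  have h1 : ∀ v ∈ B, d + 1 - B.card - q ≤
      (Finset.bipartiteAbove G.Adj (Z \ Zat G B Z c) v).card := by
    intro v hv
    have h2 := hdeg v
    rw [← SimpleGraph.card_neighborFinset_eq_degree] at h2
    have hsub : G.neighborFinset v ⊆ B.erase v ∪ (Zat G B Z c ∪
        Finset.bipartiteAbove G.Adj (Z \ Zat G B Z c) v) := by
      intro z hz
      rw [SimpleGraph.mem_neighborFinset] at hz
      rw [Finset.mem_union, Finset.mem_union, Finset.mem_erase, Finset.mem_bipartiteAbove,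
        Finset.mem_sdiff]
      rcases hp.2 v hv z hz with g | g
      · exact Or.inl ⟨hz.ne', g⟩
      · by_cases hzz : z ∈ Zat G B Z c
        · exact Or.inr (Or.inl hzz)
        · exact Or.inr (Or.inr ⟨⟨g, hzz⟩, hz⟩)
    have h3 := (Finset.card_le_card hsub).trans (Finset.card_union_le _ _)
    have h5 := Finset.card_union_le (Zat G B Z c)
      (Finset.bipartiteAbove G.Adj (Z \ Zat G B Z c) v)
    have h4 := Finset.card_erase_add_one hv
    omega
  have h2 : ∀ z ∈ Z \ Zat G B Z c, (Finset.bipartiteBelow G.Adj B z).card ≤ c := by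
    intro z hz
    rw [Finset.mem_sdiff, mem_zat, not_and, not_le] at hz
    have h3 := hz.2 hz.1
    have h4 : Finset.bipartiteBelow G.Adj B z = B.filter (G.Adj z) := by
      ext v
      rw [Finset.mem_bipartiteBelow, Finset.mem_filter, G.adj_comm]
    rw [h4]
    exact h3.le
  have h3 := Finset.sum_card_bipartiteAbove_eq_sum_card_bipartiteBelow (s := B)
    (t := Z \ Zat G B Z c) G.Adj
  have h4 := Finset.sum_le_card_nsmul _ _ c h2
  have h5 := Finset.card_nsmul_le_sum B _ (d + 1 - B.card - q) h1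
  rw [h3] at h5
  have h6 := h5.trans h4
  rw [smul_eq_mul, smul_eq_mul, hsd] at h6
  obtain ⟨a, ha⟩ : ∃ a, d + 1 - B.card - q = a + 1 := ⟨d + 1 - B.card - q - 1, by omega⟩
  obtain ⟨b, hb⟩ : ∃ b, B.card + Z.card - d = b + 1 := ⟨B.card + Z.card - d - 1, by omega⟩
  have hZq : Z.card - q = a + b + 1 := by omega
  rw [ha, hZq] at h6
  rw [hb] at hbig
  have h7 : (a + b + 1) * c ≤ (a + 1) * ((b + 1) * c) := by
    rw [← Nat.mul_assoc]
    refine Nat.mul_le_mul_right _ ?_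
    have : (a + 1) * (b + 1) = a * b + (a + b + 1) := by ring
    omega
  have h8 : (a + 1) * ((b + 1) * c) < (a + 1) * B.card :=
    Nat.mul_lt_mul_of_pos_left hbig (Nat.succ_pos _)
  have h9 : B.card * (a + 1) = (a + 1) * B.card := Nat.mul_comm _ _
  omega

theorem four_mul_le (x y : ℕ) : 4 * (x * y) ≤ (x + y) * (x + y) := by
  have h : (x + y) * (x + y) = x * x + y * y + 2 * (x * y) := by ring
  have h' : 2 * (x * y) ≤ x * x + y * y := by
    rcases Nat.le_total x y with g | g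
    · obtain ⟨k, rfl⟩ := Nat.exists_eq_add_of_le g
      have : x * x + (x + k) * (x + k) = 2 * (x * (x + k)) + k * k := by ring
      omega
    · obtain ⟨k, rfl⟩ := Nat.exists_eq_add_of_le g
      have : (y + k) * (y + k) + y * y = 2 * ((y + k) * y) + k * k := by ring
      omega
  omega

variable {d κ β : ℕ}

theorem NCk.size [Fintype V] (hdeg : ∀ v, d ≤ G.degree v) {B Z : Finset V}
    (h : NCk G d κ β B Z) : d + 1 ≤ B.card + κ := by
  have h1 := (h.part.deg hdeg).2 h.ne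
  have h2 := h.zc
  omega

theorem NCk.na [Fintype V] (hdeg : ∀ v, d ≤ G.degree v) {B Z : Finset V}
    (h : NCk G d κ β B Z) {E : Finset V} (hE : E ⊆ Za G d B Z)
    (hEc : E.card ≤ d + 1 - B.card + 2) :
    NA G B E (κ + β) (2 * (d + 1 - B.card) + 28) (d + 1 - B.card + 2) := by
  have hD := h.part.deg hdeg
  refine ⟨fun z hz hz' => h.part.1 z hz (mem_za.1 (hE hz')).1, fun v hv => ?_,
    fun v hv => (mem_za.1 (hE hv)).2, hEc⟩
  have h1 := hD.1 v hv
  have h2 := h.zc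
  have h3 := h.big
  omega

theorem NCk.zat [Fintype V] (hdeg : ∀ v, d ≤ G.degree v) (hd : Big d κ β)
    {B Z : Finset V} (h : NCk G d κ β B Z) : d + 1 ≤ B.card + (Za G d B Z).card := by
  by_cases hB : d + 1 ≤ B.card
  · omega
  have h0 := (h.part.deg hdeg).2 h.ne
  refine zat_count hdeg h.part h0 ?_
  have h1 := h.size hdeg
  have h2 := h.zc
  have h3 := hd.quad
  obtain ⟨m, hm⟩ : ∃ m, m = d + 1 - B.card := ⟨_, rfl⟩
  obtain ⟨x, hx⟩ : ∃ x, x = B.card + Z.card - d := ⟨_, rfl⟩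
  rw [← hm, ← hx]
  have hxm : x + (m + 14) ≤ κ + 15 := by omega
  have h4 := four_mul_le x (m + 14)
  have h5 := h4.trans (Nat.mul_le_mul hxm hxm)
  have h6 : x * (2 * m + 28) = 2 * (x * (m + 14)) := by ring
  rw [h6]
  omega

theorem NCk.xb [Fintype V] (hdeg : ∀ v, d ≤ G.degree v) (hd : Big d κ β)
    {B Z : Finset V} (h : NCk G d κ β B Z) {E : Finset V} (hE : E ⊆ Za G d B Z)
    (hEc : E.card ≤ d + 1 - B.card + 2) : XB (RB G B) (B ∪ E) 5 20 := by
  have h1 := h.size hdeg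
  have h2 := hd.lin
  exact (h.na hdeg hE hEc).xbs (by omega) (by omega)

/-- exact two-blob argument for near-cliques -/
theorem exact_false [Fintype V] (hdeg : ∀ v, d ≤ G.degree v) (hd : Big d κ β)
    (h2 : Two G)
    {σ : Sym2 V → ZMod 2} {t : ZMod 2} {L : ℕ} {l : List V} (hl : Cyc G σ (t + 1) l)
    (hU : Uni G (L + 1) σ t) (hL3 : 3 ≤ L) {B1 Z1 B2 Z2 E1 E2 : Finset V}
    (h1 : NCk G d κ β B1 Z1) (h2' : NCk G d κ β B2 Z2) (hE1 : E1 ⊆ Za G d B1 Z1)
    (hE2 : E2 ⊆ Za G d B2 Z2) (hE1c : E1.card ≤ d + 1 - B1.card + 2)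
    (hE2c : E2.card ≤ d + 1 - B2.card + 2) {p q : Fin 3 → V} {Lg : Fin 3 → List V}
    (hLg : Legs G.Adj (B1 ∪ E1) (B2 ∪ E2) p q Lg)
    (hm : L + 1 ≤ (B1 ∪ E1).card + (B2 ∪ E2).card)
    {πA πB : V → ZMod 2}
    (hπA : ∀ x ∈ B1 ∪ E1, ∀ y ∈ B1 ∪ E1, RB G B1 x y → σ s(x, y) = πA x + πA y)
    (hπB : ∀ x ∈ B2 ∪ E2, ∀ y ∈ B2 ∪ E2, RB G B2 x y → σ s(x, y) = πB x + πB y) : False := by
  obtain ⟨ht, π, hπ⟩ := two_exact h2 hLg (fun a b hab => hab.1) (fun a b hab => hab.1)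
    (h1.xb hdeg hd hE1 hE1c) (h2'.xb hdeg hd hE2 hE2c) hU (by omega) hm (by omega) (by omega)
    (by omega) (by omega) hπA hπB
  subst ht
  rw [zero_add] at hl
  exact bal_no_cyc hπ hl

/-- choice of the attached vertices -/
theorem choose_att [Fintype V] (hdeg : ∀ v, d ≤ G.degree v) (hd : Big d κ β)
    {B1 Z1 B2 Z2 : Finset V} (h1 : NCk G d κ β B1 Z1) (h2 : NCk G d κ β B2 Z2) {s : ℕ}
    (hs : s ≤ 3) (hcom : (Za G d B1 Z1 ∩ Za G d B2 Z2).card ≤ s) :
    ∃ E1 E2, E1 ⊆ Za G d B1 Z1 ∧ E2 ⊆ Za G d B2 Z2 ∧ (∀ z ∈ E1, z ∉ E2) ∧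
      E1.card ≤ d + 1 - B1.card + 2 ∧ E2.card ≤ d + 1 - B2.card + 2 ∧
      2 * d + 2 ≤ B1.card + E1.card + (B2.card + E2.card) + s := by
  have g1 := h1.zat hdeg hd
  have g2 := h2.zat hdeg hd
  obtain ⟨E1, hE1, hE1c⟩ := Finset.exists_subset_card_eq (s := Za G d B1 Z1)
    (n := d + 1 - B1.card) (by omega)
  have e1 := Finset.card_sdiff_add_card_inter (Za G d B2 Z2) (Za G d B1 Z1)
  rw [Finset.inter_comm] at e1
  obtain ⟨E2, hE2, hE2c⟩ := Finset.exists_subset_card_eq (s := Za G d B2 Z2 \ Za G d B1 Z1)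
    (n := d + 1 - B2.card - s) (by omega)
  refine ⟨E1, E2, hE1, hE2.trans Finset.sdiff_subset, fun z hz hz' => ?_, by omega, by omega,
    by omega⟩
  exact (Finset.mem_sdiff.1 (hE2 hz')).2 (hE1 hz)

/-- two near-cliques with at most two common attached vertices -/
theorem pair2_false [Fintype V] (hdeg : ∀ v, d ≤ G.degree v) (hd : Big d κ β)
    (h2 : Two G)
    (hconn : ∀ S : Finset V, S.card < 3 → (G.induce ((↑S : Set V)ᶜ)).Connected)
    {σ : Sym2 V → ZMod 2} {t : ZMod 2} {L : ℕ} {l : List V} (hl : Cyc G σ (t + 1) l)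
    (hU : Uni G (L + 1) σ t) (hL2 : L + 2 ≤ 2 * d) (hL3 : 3 ≤ L) {B1 Z1 B2 Z2 : Finset V}
    (h1 : NCk G d κ β B1 Z1) (h2' : NCk G d κ β B2 Z2) (hdis : ∀ x ∈ B1, x ∉ B2)
    (hna : ∀ a ∈ B1, ∀ b ∈ B2, ¬ G.Adj a b)
    (hcom : (Za G d B1 Z1 ∩ Za G d B2 Z2).card ≤ 2) : False := by
  classical
  have hdl := hd.lin
  obtain ⟨E1, E2, hE1s, hE2s, hE12, hE1c, hE2c, hsum⟩ := choose_att hdeg hd h1 h2' (by norm_num)
    hcom
  have hN1 := h1.na hdeg hE1s hE1c
  have hN2 := h2'.na hdeg hE2s hE2c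
  have hX1 := h1.xb hdeg hd hE1s hE1c
  have hX2 := h2'.xb hdeg hd hE2s hE2c
  have hs1 := h1.size hdeg
  have hs2 := h2'.size hdeg
  have hdAB : ∀ z ∈ B1 ∪ E1, z ∉ B2 ∪ E2 := by
    intro z hz hz'
    rw [Finset.mem_union] at hz hz'
    rcases hz with hz | hz <;> rcases hz' with hz' | hz'
    · exact hdis z hz hz'
    · obtain ⟨b, hb, hzb, -⟩ := hN2.nb hz' (F := ∅) (by simp)
      exact hna z hz b hb hzb
    · obtain ⟨b, hb, hzb, -⟩ := hN1.nb hz (F := ∅) (by simp)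
      exact hna b hb z hz' hzb.symm
    · exact hE12 z hz hz'
  have hcA : (B1 ∪ E1).card = B1.card + E1.card :=
    Finset.card_union_of_disjoint (Finset.disjoint_left.2 hN1.dis)
  have hcB : (B2 ∪ E2).card = B2.card + E2.card :=
    Finset.card_union_of_disjoint (Finset.disjoint_left.2 hN2.dis)
  have hmm : L + 2 ≤ (B1 ∪ E1).card + (B2 ∪ E2).card := by omega
  obtain ⟨p, q, Lg, hLg⟩ := exists_legs hconn (P := B1 ∪ E1) (Q := B2 ∪ E2) (by omega) (by omega)
    hdAB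
  have hR : ∀ a b, G.Adj a b → G.Adj b a := fun a b hab => hab.symm
  have hC1 : Cst G σ (B1 ∪ E1) p ((B1 ∪ E1).card - 1) := by
    intro i j hij l l' hl hl' g1 g2
    obtain ⟨b, hb, hbl⟩ := hX2.cover0 (hLg.qB j) (hLg.qB i) (hLg.qinj j i hij.symm)
    have hb' : Pth G.Adj {z | z ∈ B2 ∪ E2} (q j) (q i) b := hb.imp fun a b _ _ hab => hab.1
    have e1 := hLg.close hU (by omega) (by omega) hij hl hb' g1 hbl
    have e2 := hLg.close hU (by omega) (by omega) hij hl' hb' g2 hbl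
    rw [← e2] at e1
    linear_combination e1
  have hs := hLg.swap hR
  have hC2 : Cst G σ (B2 ∪ E2) q ((B2 ∪ E2).card - 1) := by
    intro i j hij l l' hl hl' g1 g2
    obtain ⟨b, hb, hbl⟩ := hX1.cover0 (hLg.pA j) (hLg.pA i) (hLg.pinj j i hij.symm)
    have hb' : Pth G.Adj {z | z ∈ B1 ∪ E1} (p j) (p i) b := hb.imp fun a b _ _ hab => hab.1
    have e1 := hs.close hU (by omega) (by omega) hij hl hb' g1 hbl
    have e2 := hs.close hU (by omega) (by omega) hij hl' hb' g2 hbl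
    rw [← e2] at e1
    linear_combination e1
  obtain ⟨πA, hπA⟩ := hN1.pot1s hX1 (by omega) (by omega) (by omega) hC1 hLg.pA hLg.pinj
  obtain ⟨πB, hπB⟩ := hN2.pot1s hX2 (by omega) (by omega) (by omega) hC2 hLg.qB hLg.qinj
  exact exact_false hdeg hd h2 hl hU hL3 h1 h2' hE1s hE2s hE1c hE2c hLg (by omega) hπA hπB

end Run7.h807.Q
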