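import Mathlib
import Pool.Agent.Run7.h807.Qt4

set_option autoImplicit false

namespace Run7.h807.Q

variable {V : Type*} {G : SimpleGraph V} [DecidableEq V] [DecidableRel G.Adj] [Fintype V]
  {d κ β : ℕ} {B Z : Fin 3 → Finset V} {σ : Sym2 V → ZMod 2} {t : ZMod 2} {L : ℕ}

theorem fin3_third (i j : Fin 3) (hij : i ≠ j) : ∃ k : Fin 3, j ≠ k ∧ i ≠ k := by
  revert hij
  fin_cases i <;> fin_cases j <;> intro hij <;> first
    | exact absurd rfl hij
    | exact ⟨0, by decide, by decide⟩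
    | exact ⟨1, by decide, by decide⟩
    | exact ⟨2, by decide, by decide⟩

/-- `x` lies in the `i`-th near-clique or is attached to it -/
def Sd (G : SimpleGraph V) [DecidableRel G.Adj] (d : ℕ) (B Z : Fin 3 → Finset V) (i : Fin 3) (x : V) :
    Prop := x ∈ B i ∨ x ∈ Za G d (B i) (Z i)

/-- the connectors -/
def Cn (G : SimpleGraph V) [DecidableRel G.Adj] (d : ℕ) (B Z : Fin 3 → Finset V) (x : V) : Prop :=
  ∃ i j, i ≠ j ∧ x ∈ Za G d (B i) (Z i) ∧ x ∈ Za G d (B j) (Z j)

/-- the consistent set -/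
def Ws (G : SimpleGraph V) [DecidableRel G.Adj] (d : ℕ) (B Z : Fin 3 → Finset V) : Set V :=
  {x | (∃ i, x ∈ B i) ∨ Cn G d B Z x}

/-- long consistent segment -/
theorem Trio.cseg (h : Trio G d κ β B Z) (hdeg : ∀ v, d ≤ G.degree v) (hd : Big d κ β)
    {π : V → ZMod 2}
    (hπ : ∀ i, ∀ x ∈ Ws G d B Z, ∀ y ∈ Ws G d B Z, Sd G d B Z i x → Sd G d B Z i y → RB G (B i) x y →
      σ s(x, y) = π x + π y)
    {i : Fin 3} {u v : V} (hu : Sd G d B Z i u) (hv : Sd G d B Z i v) (huW : u ∈ Ws G d B Z)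
    (hvW : v ∈ Ws G d B Z) {F : Finset V} (hF : F.card ≤ 20) (huF : u ∉ F) (hvF : v ∉ F) :
    (u ≠ v → ∃ l, Pth (Cons G σ π) {w | (w ∈ B i ∧ w ∉ F) ∨ w = u ∨ w = v} u v l ∧
      (B i).card ≤ l.length + F.card) ∧
    (∃ l, Pth (Cons G σ π) {w | (w ∈ B i ∧ w ∉ F) ∨ w = u ∨ w = v} u v l ∧ l.length ≤ 5) := by
  have hdl := hd.lin
  have key : ∀ l, Pth (RB G (B i)) {w | (w ∈ B i ∧ w ∉ F) ∨ w = u ∨ w = v} u v l →
      Pth (Cons G σ π) {w | (w ∈ B i ∧ w ∉ F) ∨ w = u ∨ w = v} u v l := by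
    intro l hl
    have hm : ∀ w, (w ∈ B i ∧ w ∉ F) ∨ w = u ∨ w = v → w ∈ Ws G d B Z ∧ Sd G d B Z i w := by
      rintro w (g | g | g)
      · exact ⟨Or.inl ⟨i, g.1⟩, Or.inl g.1⟩
      · rw [g]; exact ⟨huW, hu⟩
      · rw [g]; exact ⟨hvW, hv⟩
    exact hl.imp fun a b ha hb hab => ⟨hab.1, hπ i a (hm a ha).1 b (hm b hb).1 (hm a ha).2
      (hm b hb).2 hab⟩
  obtain ⟨h1, h2⟩ := (h.cl i).seg hdeg hd hu hv hF huF hvF
  refine ⟨fun huv => ?_, ?_⟩
  · obtain ⟨l, g1, g2⟩ := h1 huv
    exact ⟨l, key l g1, g2⟩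
  · obtain ⟨l, g1, g2⟩ := h2
    exact ⟨l, key l g1, g2⟩

theorem Trio.sd_off (h : Trio G d κ β B Z) {i j : Fin 3} (hij : i ≠ j) {x : V}
    (hx : Sd G d B Z i x) : x ∉ B j := by
  rcases hx with g | g
  · exact h.dis i j hij x g
  · exact h.off g j

/-- links between different sides -/
theorem Trio.linkA (h : Trio G d κ β B Z) (hdeg : ∀ v, d ≤ G.degree v) (hd : Big d κ β)
    (hL2 : L + 2 ≤ 2 * d) {π : V → ZMod 2}
    (hπ : ∀ i, ∀ x ∈ Ws G d B Z, ∀ y ∈ Ws G d B Z, Sd G d B Z i x → Sd G d B Z i y → RB G (B i) x y →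
      σ s(x, y) = π x + π y)
    (hC : ∀ i j, i ≠ j → 3 < (Za G d (B i) (Z i) ∩ Za G d (B j) (Z j)).card)
    {i j : Fin 3} (hij : i ≠ j) {x y : V} (hx : Sd G d B Z i x) (hy : Sd G d B Z j y)
    (hxW : x ∈ Ws G d B Z) (hyW : y ∈ Ws G d B Z) (hxy : x ≠ y) :
    Link G σ π (L + 1) (Ws G d B Z) x y := by
  have hdl := hd.lin
  obtain ⟨k, hjk, hik⟩ := fin3_third i j hij
  obtain ⟨c, hc, hcF⟩ := pick_out (hC i k hik) (F := {x, y})
    (Finset.card_le_two.trans (by norm_num))
  obtain ⟨c', hc', hc'F⟩ := pick_out (hC k j (fun g => hjk g.symm)) (F := {x, y, c})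
    Finset.card_le_three
  rw [Finset.mem_inter] at hc hc'
  rw [Finset.mem_insert, Finset.mem_singleton, not_or] at hcF
  rw [Finset.mem_insert, Finset.mem_insert, Finset.mem_singleton, not_or, not_or] at hc'F
  have hcW : c ∈ Ws G d B Z := Or.inr ⟨i, k, hik, hc.1, hc.2⟩
  have hc'W : c' ∈ Ws G d B Z := Or.inr ⟨k, j, fun g => hjk g.symm, hc'.1, hc'.2⟩
  obtain ⟨l1, h1, h1l⟩ := (h.cseg hdeg hd hπ hx (Or.inr hc.1) hxW hcW (F := ∅) (by simp)
    (by simp) (by simp)).1 (fun g => hcF.1 g.symm)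
  obtain ⟨l2, h2, h2l⟩ := (h.cseg hdeg hd hπ (Or.inr hc.2) (Or.inr hc'.1) hcW hc'W (F := ∅)
    (by simp) (by simp) (by simp)).1 (fun g => hc'F.2.2 g.symm)
  obtain ⟨l3, h3, h3l⟩ := (h.cseg hdeg hd hπ (Or.inr hc'.2) hy hc'W hyW (F := ∅)
    (by simp) (by simp) (by simp)).1 hc'F.2.1
  have J1 := h1.join h2 (fun w hw hw' => by
    rcases h1.mem w hw with a | a | a
    · rcases h2.mem w hw' with b | b | b
      · exact absurd b.1 (h.dis i k hik w a.1)
      · exact b
      · exact absurd (b ▸ a.1) (h.off hc'.1 i)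
    · rcases h2.mem w hw' with b | b | b
      · exact absurd (a ▸ b.1) (h.sd_off hik hx)
      · exact b
      · exact absurd (b.symm.trans a) hc'F.1
    · exact a)
  have J2 := J1.join h3 (fun w hw hw' => by
    rcases h1.join_mem h2 hw with a | a
    · exfalso
      rcases h1.mem w a with a | a | a
      · rcases h3.mem w hw' with b | b | b
        · exact h.dis i j hij w a.1 b.1
        · exact h.off hc'.1 i (b ▸ a.1)
        · exact h.sd_off (fun g => hij g.symm) hy (b ▸ a.1)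
      · rcases h3.mem w hw' with b | b | b
        · exact h.sd_off hij hx (a ▸ b.1)
        · exact hc'F.1 (b.symm.trans a)
        · exact hxy (a.symm.trans b)
      · rcases h3.mem w hw' with b | b | b
        · exact h.off hc.1 j (a ▸ b.1)
        · exact hc'F.2.2 (b.symm.trans a)
        · exact hcF.2 (a.symm.trans b)
    · rcases h2.mem w a with a | a | a
      · exfalso
        rcases h3.mem w hw' with b | b | b
        · exact h.dis j k hjk w b.1 a.1
        · exact h.off hc'.1 k (b ▸ a.1)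
        · exact h.sd_off hjk hy (b ▸ a.1)
      · exfalso
        rcases h3.mem w hw' with b | b | b
        · exact h.off hc.1 j (a ▸ b.1)
        · exact hc'F.2.2 (b.symm.trans a)
        · exact hcF.2 (a.symm.trans b)
      · exact a)
  have hsi := (h.cl i).size hdeg
  have hsj := (h.cl j).size hdeg
  have hsk := (h.cl k).size hdeg
  simp only [Finset.card_empty, add_zero] at h1l h2l h3l
  refine ⟨_, J2.nd, J2.ch, J2.hd, J2.lt, fun w hw => ?_, ?_⟩
  · rcases J2.mem w hw with ((a | a | a) | (a | a | a)) | (a | a | a)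
    · exact Or.inl ⟨i, a.1⟩
    · rw [a]; exact hxW
    · rw [a]; exact hcW
    · exact Or.inl ⟨k, a.1⟩
    · rw [a]; exact hcW
    · rw [a]; exact hc'W
    · exact Or.inl ⟨j, a.1⟩
    · rw [a]; exact hc'W
    · rw [a]; exact hyW
  · have a1 := h1.join_len h2
    have a2 := J1.join_len h3
    omega

/-- links inside one near-clique -/
theorem Trio.linkB (h : Trio G d κ β B Z) (hdeg : ∀ v, d ≤ G.degree v) (hd : Big d κ β)
    (hL2 : L + 2 ≤ 2 * d) {π : V → ZMod 2}
    (hπ : ∀ i, ∀ x ∈ Ws G d B Z, ∀ y ∈ Ws G d B Z, Sd G d B Z i x → Sd G d B Z i y → RB G (B i) x y →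
      σ s(x, y) = π x + π y)
    (hC : ∀ i j, i ≠ j → 3 < (Za G d (B i) (Z i) ∩ Za G d (B j) (Z j)).card)
    {i : Fin 3} {x y : V} (hx : x ∈ B i) (hy : y ∈ B i) (hxy : x ≠ y) :
    Link G σ π (L + 1) (Ws G d B Z) x y := by
  have hdl := hd.lin
  obtain ⟨j, k, hij, hjk, hik⟩ := fin3_others i
  have hxW : x ∈ Ws G d B Z := Or.inl ⟨i, hx⟩
  have hyW : y ∈ Ws G d B Z := Or.inl ⟨i, hy⟩
  obtain ⟨c, hc, -⟩ := pick_out (hC i j hij) (F := ∅) (by simp)
  obtain ⟨c', hc', hc'F⟩ := pick_out (hC j k hjk) (F := {c}) (by simp)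
  obtain ⟨e, he, heF⟩ := pick_out (hC k i (fun g => hik g.symm)) (F := {c, c'})
    (Finset.card_le_two.trans (by norm_num))
  rw [Finset.mem_inter] at hc hc' he
  rw [Finset.mem_singleton] at hc'F
  rw [Finset.mem_insert, Finset.mem_singleton, not_or] at heF
  have hcW : c ∈ Ws G d B Z := Or.inr ⟨i, j, hij, hc.1, hc.2⟩
  have hc'W : c' ∈ Ws G d B Z := Or.inr ⟨j, k, hjk, hc'.1, hc'.2⟩
  have heW : e ∈ Ws G d B Z := Or.inr ⟨k, i, fun g => hik g.symm, he.1, he.2⟩
  have hxne : ∀ {a : Fin 3} {w : V}, w ∈ Za G d (B a) (Z a) → x ≠ w := fun hw g =>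
    h.off hw i (g ▸ hx)
  have hyne : ∀ {a : Fin 3} {w : V}, w ∈ Za G d (B a) (Z a) → y ≠ w := fun hw g =>
    h.off hw i (g ▸ hy)
  obtain ⟨S, hS, hSl⟩ := (h.cseg hdeg hd hπ (i := i) (Or.inl hx) (Or.inr hc.1) hxW hcW (F := {y})
    (by simp) (by simpa using hxy) (by
      rw [Finset.mem_singleton]
      exact fun g => hyne hc.1 g.symm)).2
  have hSc := List.toFinset_card_le S
  obtain ⟨l1, h1, h1l⟩ := (h.cseg hdeg hd hπ (i := j) (Or.inr hc.2) (Or.inr hc'.1) hcW hc'W (F := ∅)
    (by simp) (by simp) (by simp)).1 (fun g => hc'F g.symm)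
  obtain ⟨l2, h2, h2l⟩ := (h.cseg hdeg hd hπ (i := k) (Or.inr hc'.2) (Or.inr he.1) hc'W heW (F := ∅)
    (by simp) (by simp) (by simp)).1 (fun g => heF.2 g.symm)
  have heS : e ∉ S := by
    intro g
    rcases hS.mem e g with a | a | a
    · exact h.off he.1 i a.1
    · exact hxne he.1 a.symm
    · exact heF.1 a
  have hyS : y ∉ S := by
    intro g
    rcases hS.mem y g with a | a | a
    · exact a.2 (Finset.mem_singleton_self _)
    · exact hxy a.symm
    · exact hyne hc.1 a
  obtain ⟨l3, h3, h3l⟩ := (h.cseg hdeg hd hπ (i := i) (Or.inr he.2) (Or.inl hy) heW hyW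
    (F := S.toFinset) (by omega) (by rwa [List.mem_toFinset]) (by rwa [List.mem_toFinset])).1
    (fun g => hyne he.1 g.symm)
  have J1 := hS.join h1 (fun w hw hw' => by
    rcases hS.mem w hw with a | a | a
    · rcases h1.mem w hw' with b | b | b
      · exact absurd b.1 (h.dis i j hij w a.1)
      · exact b
      · exact absurd (b ▸ a.1) (h.off hc'.1 i)
    · rcases h1.mem w hw' with b | b | b
      · exact absurd (a ▸ b.1) (h.dis i j hij x hx)
      · exact b
      · exact absurd (a.symm.trans b) (hxne hc'.1)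
    · exact a)
  have J2 := J1.join h2 (fun w hw hw' => by
    rcases hS.join_mem h1 hw with a | a
    · exfalso
      rcases h2.mem w hw' with b | b | b
      · rcases hS.mem w a with a | a | a
        · exact h.dis i k hik w a.1 b.1
        · exact h.dis i k hik x hx (a ▸ b.1)
        · exact h.off hc.1 k (a ▸ b.1)
      · rcases hS.mem w a with a | a | a
        · exact h.off hc'.1 i (b ▸ a.1)
        · exact hxne hc'.1 (a.symm.trans b)
        · exact hc'F (b.symm.trans a)
      · exact heS (b ▸ a)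
    · rcases h1.mem w a with a | a | a
      · exfalso
        rcases h2.mem w hw' with b | b | b
        · exact h.dis j k hjk w a.1 b.1
        · exact h.off hc'.1 j (b ▸ a.1)
        · exact h.off he.1 j (b ▸ a.1)
      · exfalso
        rcases h2.mem w hw' with b | b | b
        · exact h.off hc.1 k (a ▸ b.1)
        · exact hc'F (b.symm.trans a)
        · exact heF.1 (b.symm.trans a)
      · exact a)
  have J3 := J2.join h3 (fun w hw hw' => by
    rcases J1.join_mem h2 hw with a | a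
    · exfalso
      rcases hS.join_mem h1 a with a | a
      · rcases h3.mem w hw' with b | b | b
        · exact b.2 (List.mem_toFinset.2 a)
        · exact heS (b ▸ a)
        · exact hyS (b ▸ a)
      · rcases h1.mem w a with a | a | a
        · rcases h3.mem w hw' with b | b | b
          · exact h.dis i j hij w b.1 a.1
          · exact h.off he.1 j (b ▸ a.1)
          · exact h.dis i j hij y hy (b ▸ a.1)
        · rcases h3.mem w hw' with b | b | b
          · exact h.off hc.1 i (a ▸ b.1)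
          · exact heF.1 (b.symm.trans a)
          · exact hyne hc.1 (b.symm.trans a)
        · rcases h3.mem w hw' with b | b | b
          · exact h.off hc'.1 i (a ▸ b.1)
          · exact heF.2 (b.symm.trans a)
          · exact hyne hc'.1 (b.symm.trans a)
    · rcases h2.mem w a with a | a | a
      · exfalso
        rcases h3.mem w hw' with b | b | b
        · exact h.dis i k hik w b.1 a.1
        · exact h.off he.1 k (b ▸ a.1)
        · exact h.dis i k hik y hy (b ▸ a.1)
      · exfalso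
        rcases h3.mem w hw' with b | b | b
        · exact h.off hc'.1 i (a ▸ b.1)
        · exact heF.2 (b.symm.trans a)
        · exact hyne hc'.1 (b.symm.trans a)
      · exact a)
  have hsi := (h.cl i).size hdeg
  have hsj := (h.cl j).size hdeg
  have hsk := (h.cl k).size hdeg
  simp only [Finset.card_empty, add_zero] at h1l h2l
  refine ⟨_, J3.nd, J3.ch, J3.hd, J3.lt, fun w hw => ?_, ?_⟩
  · rcases J3.mem w hw with (((a | a | a) | (a | a | a)) | (a | a | a)) | (a | a | a)
    · exact Or.inl ⟨i, a.1⟩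
    · rw [a]; exact hxW
    · rw [a]; exact hcW
    · exact Or.inl ⟨j, a.1⟩
    · rw [a]; exact hcW
    · rw [a]; exact hc'W
    · exact Or.inl ⟨k, a.1⟩
    · rw [a]; exact hc'W
    · rw [a]; exact heW
    · exact Or.inl ⟨i, a.1⟩
    · rw [a]; exact heW
    · rw [a]; exact hyW
  · have a1 := hS.join_len h1
    have a2 := J1.join_len h2
    have a3 := J2.join_len h3
    have a4 := hS.pos
    omega

end Run7.h807.Q
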