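import Mathlib
import Pool.Agent.Run7.h807.Qs0

set_option autoImplicit false

namespace Run7.h807

variable {V : Type*} {G : SimpleGraph V}

/-- short connections in a robustly connected set -/
theorem sol_shortq [DecidableEq V] [DecidableRel G.Adj] {A : Finset V} {D r k q : ℕ}
    (hD : ∀ v ∈ A, D ≤ (A.filter (G.Adj v)).card) (hS : Sol G A k) (hrk : r ≤ k)
    (h5 : A.card < q * (D - r)) {F : Finset V} (hF : F.card ≤ r) {x y : V} (hx : x ∈ A)
    (hy : y ∈ A) (hxF : x ∉ F) (hyF : y ∉ F) :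
    ∃ l, Pth G.Adj {z | z ∈ A ∧ z ∉ F} x y l ∧ l.length ≤ 3 * (q - 1) := by
  obtain ⟨l, hl, hcut⟩ := exists_short (hS F (hF.trans hrk) x hx y hy hxF hyF)
  refine ⟨l, hl, ?_⟩
  by_contra hlen
  push Not at hlen
  set N : Fin q → Finset V := fun i =>
    (A \ F).filter (G.Adj (l[3 * i.val]'(by omega))) with hN
  have hNc : ∀ i, D - r ≤ (N i).card := by
    intro i
    have hmem := hl.mem _ (List.getElem_mem (l := l) (n := 3 * i.val) (by omega))
    have h1 := hD _ hmem.1
    have h2 : (A.filter (G.Adj (l[3 * i.val]'(by omega)))).card ≤ (N i).card + F.card := by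
      have hsub : A.filter (G.Adj (l[3 * i.val]'(by omega))) ⊆ N i ∪ F := by
        intro z hz
        rw [Finset.mem_filter] at hz
        rw [hN, Finset.mem_union, Finset.mem_filter, Finset.mem_sdiff]
        by_cases hzF : z ∈ F
        · exact Or.inr hzF
        · exact Or.inl ⟨⟨hz.1, hzF⟩, hz.2⟩
      exact (Finset.card_le_card hsub).trans (Finset.card_union_le _ _)
    omega
  have hdisj : ∀ i ∈ (Finset.univ : Finset (Fin q)), ∀ j ∈ (Finset.univ : Finset (Fin q)), i ≠ j →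
      Disjoint (N i) (N j) := by
    have key : ∀ i j : Fin q, i < j → Disjoint (N i) (N j) := by
      intro i j hij
      rw [Finset.disjoint_left]
      intro z hz hz'
      rw [hN, Finset.mem_filter, Finset.mem_sdiff] at hz hz'
      have hij' : i.val < j.val := hij
      exact hcut (3 * i.val) (3 * j.val) (by omega) (by omega) z hz.1 hz.2 hz'.2.symm
    intro i _ j _ hij
    rcases lt_or_gt_of_ne hij with h | h
    · exact key i j h
    · exact (key j i h).symm
  have h1 := Finset.card_biUnion hdisj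
  have h2 : ((Finset.univ : Finset (Fin q)).biUnion N).card ≤ A.card := by
    refine Finset.card_le_card ?_
    intro z hz
    rw [Finset.mem_biUnion] at hz
    obtain ⟨i, _, hz⟩ := hz
    rw [hN, Finset.mem_filter, Finset.mem_sdiff] at hz
    exact hz.1.1
  rw [h1] at h2
  have h3 := Finset.card_nsmul_le_sum (Finset.univ : Finset (Fin q)) (fun i => (N i).card) (D - r)
    fun i _ => hNc i
  rw [Finset.card_univ, Fintype.card_fin, smul_eq_mul] at h3
  omega

/-- long connections in a large robustly connected set -/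
theorem sol_longm [Fintype V] [DecidableEq V] [DecidableRel G.Adj] {A F : Finset V}
    {D r k μ ℓ m : ℕ} (hD : ∀ v ∈ A, D ≤ (A.filter (G.Adj v)).card) (hS : Sol G A k)
    (hF : F.card ≤ r) (hk : r + 2 * m ≤ k) (hμ : m + 1 ≤ μ) (hμ3 : 3 ≤ μ)
    (hℓμ : ℓ ≤ m * (μ + 2)) (hm : 1 ≤ m)
    (hA : ℓ + r ≤ A.card) (hcore : ℓ + 2 * (4 * μ - 5) + 2 * r ≤ 2 * D + 1) (hDr : r + 3 ≤ D)
    {x y : V} (hx : x ∈ A)
    (hy : y ∈ A) (hxF : x ∉ F) (hyF : y ∉ F) (hxy : x ≠ y) :
    ∃ l, Pth G.Adj {z | z ∈ A ∧ z ∉ F} x y l ∧ ℓ ≤ l.length := by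
  classical
  obtain ⟨S, hSdef⟩ : ∃ S : Set V, S = {z | z ∈ A ∧ z ∉ F} := ⟨_, rfl⟩
  rw [← hSdef]
  have hmS : ∀ z, z ∈ S ↔ z ∈ A ∧ z ∉ F := fun z => by rw [hSdef]; rfl
  have hxS : x ∈ S := (hmS x).2 ⟨hx, hxF⟩
  have hyS : y ∈ S := (hmS y).2 ⟨hy, hyF⟩
  -- a first path with three vertices
  obtain ⟨a, haA, hxa, hay, haF⟩ : ∃ a ∈ A, G.Adj x a ∧ a ≠ y ∧ a ∉ F := by
    have h1 := hD x hx
    have h2 : (insert y F).card < (A.filter (G.Adj x)).card :=
      lt_of_le_of_lt (Finset.card_insert_le _ _) (by omega)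
    obtain ⟨a, ha, haF⟩ := Finset.exists_mem_notMem_of_card_lt_card h2
    rw [Finset.mem_filter] at ha
    rw [Finset.mem_insert, not_or] at haF
    exact ⟨a, ha.1, ha.2, haF.1, haF.2⟩
  obtain ⟨l0, hl0, h30⟩ : ∃ l, Pth G.Adj S x y l ∧ 3 ≤ l.length := by
    obtain ⟨l, hl, -⟩ := exists_short (hS (insert x F)
      ((Finset.card_insert_le _ _).trans (by omega)) a haA y hy (by
        rw [Finset.mem_insert, not_or]
        exact ⟨hxa.ne', haF⟩) (by
        rw [Finset.mem_insert, not_or]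
        exact ⟨hxy.symm, hyF⟩))
    have hxl : x ∉ l := fun h => (hl.mem x h).2 (Finset.mem_insert_self _ _)
    have hl' : Pth G.Adj S a y l := hl.mono fun z _ hz => by
      have := hz.2
      rw [Finset.mem_insert, not_or] at this
      exact (hmS z).2 ⟨hz.1, this.2⟩
    refine ⟨x :: l, ⟨List.nodup_cons.2 ⟨hxl, hl'.nd⟩, ?_, rfl, ?_, ?_⟩, ?_⟩
    · rw [List.isChain_cons]
      refine ⟨fun w hw => ?_, hl'.ch⟩
      rw [Option.mem_def, hl'.hd, Option.some.injEq] at hw
      subst hw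
      exact hxa
    · rw [List.getLast?_cons, hl'.lt]; rfl
    · intro z hz
      rcases List.mem_cons.1 hz with rfl | hz
      · exact hxS
      · exact hl'.mem z hz
    · have := hl'.two hay
      rw [List.length_cons]
      omega
  obtain ⟨l, hl, hmax⟩ := exists_max_cyc ⟨l0, path_cyc hl0 hxy h30⟩
  obtain ⟨X, hX⟩ := top_of_cyc hl hmax
  obtain ⟨L, hL⟩ : ∃ L, L = l.length := ⟨_, rfl⟩
  rw [← hL] at hX
  obtain ⟨e, he⟩ := rim_edge hX.tot
  obtain ⟨Q, hQ, hQL, hQX⟩ := rim_path hX.rim he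
  by_cases hℓ : ℓ ≤ L
  · exact ⟨Q, hQ, by omega⟩
  exfalso
  push Not at hℓ
  have hQmax : ∀ Q', Pth G.Adj S x y Q' → 3 ≤ Q'.length → Q'.length ≤ L := fun Q' h1 h2 =>
    hX.max Q' (path_cyc h1 hxy h2)
  have hXS : ∀ j, X j ∈ S := fun j => hQ.mem _ ((hQX _).2 ⟨j, rfl⟩)
  -- the rest of `A`
  obtain ⟨R, hR⟩ : ∃ R : Finset V, R = A \ (F ∪ Q.toFinset) := ⟨_, rfl⟩
  have hRm : ∀ v, v ∈ R ↔ v ∈ A ∧ v ∉ F ∧ v ∉ Q := fun v => by
    rw [hR, Finset.mem_sdiff, Finset.mem_union, List.mem_toFinset, not_or]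
  have hRne : R.Nonempty := by
    have h1 : (F ∪ Q.toFinset).card < A.card := by
      have h2 := Finset.card_union_le F Q.toFinset
      have h3 := List.toFinset_card_le Q
      omega
    obtain ⟨v, hv, hv'⟩ := Finset.exists_mem_notMem_of_card_lt_card h1
    exact ⟨v, by rw [hR, Finset.mem_sdiff]; exact ⟨hv, hv'⟩⟩
  have hRX : ∀ v ∈ R, ∀ j, X j ≠ v := fun v hv j hj =>
    ((hRm v).1 hv).2.2 ((hQX v).2 ⟨j, hj⟩)
  have hdiv : (L - 1) / (μ + 2) < m := by
    rw [Nat.div_lt_iff_lt_mul (by omega)]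
    omega
  obtain ⟨v, hv, hvR⟩ : ∃ v ∈ R, (R.filter ((PE G S x y).Adj v)).card < 4 * μ - 5 := by
    by_contra hno
    push Not at hno
    obtain ⟨Z, YS, hZ1, hZ2, hZ3, hYS, hsep⟩ := hX.sep (by omega) hRne hRX hno (by omega)
    obtain ⟨y0, hy0, hy0Z⟩ := Finset.exists_mem_notMem_of_card_lt_card hZ3
    obtain ⟨x0, hx0, hx0Z⟩ := Finset.exists_mem_notMem_of_card_lt_card (s := Z)
      (t := (Finset.range L).image X) (by rw [rim_card hX.rim]; exact hZ2)
    have hy0R := (hRm y0).1 (hYS hy0)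
    obtain ⟨j, -, hj⟩ := Finset.mem_image.1 hx0
    have hx0S := (hmS x0).1 (hj ▸ hXS j)
    obtain ⟨w, hw1, hw2, hw3, hw4⟩ := hS (F ∪ Z) (by
      have := Finset.card_union_le F Z
      omega) y0 hy0R.1 x0 hx0S.1 (by
        rw [Finset.mem_union, not_or]
        exact ⟨hy0R.2.1, hy0Z⟩) (by
        rw [Finset.mem_union, not_or]
        exact ⟨hx0S.2, hx0Z⟩)
    have hw4' : ∀ z ∈ w, z ∈ S ∧ z ∉ Z := by
      intro z hz
      have := hw4 z hz
      rw [Set.mem_setOf_eq, Finset.mem_union, not_or] at this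
      exact ⟨(hmS z).2 ⟨this.1, this.2.1⟩, this.2.2⟩
    obtain ⟨z, hz, hzZ⟩ := hsep w (List.IsChain.imp_of_mem_imp (fun a b ha hb hab =>
      ⟨hab.ne, Or.inl ⟨hab, (hw4' a ha).1, (hw4' b hb).1⟩⟩) hw1) ⟨y0, hy0, hw2⟩ ⟨x0, hx0, hw3⟩
    exact (hw4' z hz).2 hzZ
  have hvm := (hRm v).1 hv
  have hvS : v ∈ S := (hmS v).2 ⟨hvm.1, hvm.2.1⟩
  have hL3 := hX.rim.three
  -- no two consecutive neighbours
  have hcons : Q.IsChain (fun a b => ¬ (G.Adj v a ∧ G.Adj v b)) := by
    rw [List.isChain_iff_getElem]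
    intro i hi hboth
    have h1 := hQ.insert hi hvS hvm.2.2 hboth.1 hboth.2
    have h2 := hQmax _ h1 (by
      rw [List.length_append, List.length_take, List.length_cons, List.length_drop]
      omega)
    rw [List.length_append, List.length_take, List.length_cons, List.length_drop] at h2
    omega
  have hhalf := half_filter Q hcons
  have hdegv := hD v hvm.1
  have hcount : (A.filter (G.Adj v)).card ≤ F.card + (R.filter ((PE G S x y).Adj v)).card +
      (Q.filter (fun z => decide (G.Adj v z))).length := by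
    have hsub : A.filter (G.Adj v) ⊆ (F ∪ R.filter ((PE G S x y).Adj v)) ∪
        (Q.filter (fun z => decide (G.Adj v z))).toFinset := by
      intro z hz
      rw [Finset.mem_filter] at hz
      rw [Finset.mem_union, Finset.mem_union, List.mem_toFinset, List.mem_filter,
        Finset.mem_filter]
      by_cases hzF : z ∈ F
      · exact Or.inl (Or.inl hzF)
      · by_cases hzQ : z ∈ Q
        · exact Or.inr ⟨hzQ, by simpa using hz.2⟩
        · exact Or.inl (Or.inr ⟨(hRm z).2 ⟨hz.1, hzF, hzQ⟩, hz.2.ne, Or.inl ⟨hz.2, hvS,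
            (hmS z).2 ⟨hz.1, hzF⟩⟩⟩)
    refine (Finset.card_le_card hsub).trans ((Finset.card_union_le _ _).trans ?_)
    have h1 := Finset.card_union_le F (R.filter ((PE G S x y).Adj v))
    have h2 := List.toFinset_card_le (Q.filter (fun z => decide (G.Adj v z)))
    omega
  omega

/-- robustly connected parts are robust -/
theorem sol_blob2 [Fintype V] [DecidableEq V] [DecidableRel G.Adj] {d z : ℕ}
    (hdeg : ∀ v, d ≤ G.degree v) {A Z : Finset V} (hp : Part G A Z)
    (hZ : Z.card ≤ z) (hz : z ≤ 116) (hne : A.Nonempty) (hS : Sol G A 49)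
    (hA : A.card ≤ 3 * d + 20) (hd : 6000 ≤ d) :
    Blob G A (min (A.card - 31) (d + 160)) 9 31 := by
  have hD := hp.deg hdeg
  have hD1 : ∀ v ∈ A, d - z ≤ (A.filter (G.Adj v)).card := fun v hv => by
    have := hD.1 v hv
    omega
  have hA1 := hD.2 hne
  refine ⟨fun F hF x hx y hy hxF hyF => ?_, fun F hF x hx y hy hxF hyF hxy => ?_⟩
  · exact sol_shortq (q := 4) hD1 hS (r := 31) (by omega) (by omega) hF hx hy hxF hyF
  · by_cases hcase : A.card + 67 ≤ 2 * (d - z)
    · have hb : Blob G A (A.card - 31) 3 31 := slk_blob (fun v hv => by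
        have := hD1 v hv
        omega) (by omega)
      obtain ⟨l, hl, hll⟩ := hb.long F hF x hx y hy hxF hyF hxy
      exact ⟨l, hl, (min_le_left _ _).trans hll⟩
    · obtain ⟨l, hl, hll⟩ := sol_longm (μ := (d - 443) / 8) (ℓ := d + 160) (m := 9) hD1 hS hF
        (by omega) (by omega) (by omega) (by omega) (by omega) (by omega) (by omega) (by omega)
        hx hy hxF hyF hxy
      exact ⟨l, hl, (min_le_right _ _).trans hll⟩

end Run7.h807
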