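import Mathlib
import Pool.Agent.Run7.h807.Qs1

set_option autoImplicit false

namespace Run7.h807

variable {V : Type*} {G : SimpleGraph V} [DecidableEq V] [DecidableRel G.Adj] [Fintype V]

/-- a longest bad cycle is separated from the rest by at most 18 vertices -/
theorem Top.first_part {d : ℕ} (hdeg : ∀ v, d ≤ G.degree v)
    (hn : 2 * d + 1 ≤ Fintype.card V) (hd : 1244 ≤ d) {σ : Sym2 V → ZMod 2} {s : ZMod 2} {L : ℕ}
    {X : ℕ → V} (hX : Top G σ s L X) (hL2 : L + 2 ≤ 2 * d) :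
    ∃ P Q Z : Finset V, Z.card ≤ 18 ∧ P.Nonempty ∧ Q.Nonempty ∧ Part G P Z ∧ Part G Q Z ∧
      (∀ z ∈ P, z ∉ Q) ∧ (∀ z, z ∈ Z ∨ z ∈ P ∨ z ∈ Q) ∧ (∀ a ∈ P, ∀ b ∈ Q, ¬ G.Adj a b) ∧
      ∀ k, X k ∈ Q ∨ X k ∈ Z := by
  classical
  have hL3 := hX.rim.three
  have hXim : ∀ k, X k ∈ (Finset.range L).image X := fun k =>
    Finset.mem_image.2 ⟨k % L, Finset.mem_range.2 (Nat.mod_lt _ (by omega)),
      (hX.rim.modeq k).symm⟩
  obtain ⟨μ, hμ⟩ : ∃ μ, μ = (d - 44) / 24 := ⟨_, rfl⟩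
  have hdiv : (L - 1) / (μ + 2) < 49 := by
    rw [Nat.div_lt_iff_lt_mul (by omega)]
    omega
  obtain ⟨S, hne, hS, hcon⟩ : ∃ S : Finset V, S.Nonempty ∧ (∀ v ∈ S, ∀ j, X j ≠ v) ∧
      ∀ v ∈ S, 4 * μ - 5 ≤ (S.filter (G.Adj v)).card := by
    by_contra hno
    push Not at hno
    exact hX.heavy_false hdeg hL2 (by omega) (D := 4 * μ - 5) (by omega) (by omega) hno
  obtain ⟨Z0, YS0, hZ1, hZ2, hZ3, -, hsep0⟩ := hX.sep (by omega) hne hS hcon (by omega)
  obtain ⟨P0, Q0, hP0ne, -, hPZ0, -, hPQ0, hall0, hadj0, hXQ0, -⟩ :=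
    sepa_parts hsep0 hZ3 (by rw [rim_card hX.rim]; exact hZ2)
  have hpP0 : Part G P0 Z0 := ⟨hPZ0, fun a ha b hab => by
    rcases hall0 b with g | g | g
    · exact Or.inr g
    · exact Or.inl g
    · exact absurd hab (hadj0 a ha b g)⟩
  have hXP0 : ∀ z ∈ P0, ∀ k, X k ≠ z := by
    intro z hz k hk
    rcases hXQ0 z (hk ▸ hXim k) with g | g
    · exact hPQ0 z hz g
    · exact hPZ0 z hz g
  -- second separation, with the denser core
  obtain ⟨ν, hν⟩ : ∃ ν, ν = (d - 93) / 4 := ⟨_, rfl⟩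
  have hdiv' : (L - 1) / (ν + 2) < 9 := by
    rw [Nat.div_lt_iff_lt_mul (by omega)]
    omega
  have hdegP := (hpP0.deg hdeg).1
  obtain ⟨Z, YS, hZ1', hZ2', hZ3', -, hsep⟩ := hX.sep (μ := ν) (by omega) hP0ne hXP0 (fun v hv => by
    have := hdegP v hv
    omega) (by omega)
  obtain ⟨P, Q, hPne, hQne, hPZ, hQZ, hPQ, hall, hadj, hXQ, -⟩ :=
    sepa_parts hsep hZ3' (by rw [rim_card hX.rim]; exact hZ2')
  refine ⟨P, Q, Z, by omega, hPne, hQne, ⟨hPZ, fun a ha b hab => ?_⟩, ⟨hQZ, fun a ha b hab => ?_⟩,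
    hPQ, hall, hadj, fun k => hXQ _ (hXim k)⟩
  · rcases hall b with g | g | g
    · exact Or.inr g
    · exact Or.inl g
    · exact absurd hab (hadj a ha b g)
  · rcases hall b with g | g | g
    · exact Or.inr g
    · exact absurd hab.symm (hadj b g a ha)
    · exact Or.inl g

/-- a bad cycle yields three near-cliques -/
theorem trio_of_bad2 {d : ℕ} (hdeg : ∀ v, d ≤ G.degree v) (hn : 2 * d + 1 ≤ Fintype.card V)
    (hn4 : Fintype.card V ≤ 4 * d) (hd : 6000 ≤ d)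
    (hconn : ∀ S : Finset V, S.card < 3 → (G.induce ((↑S : Set V)ᶜ)).Connected)
    {σ : Sym2 V → ZMod 2} {t : ZMod 2} (hU : Uni G (2 * d - 1) σ t)
    (hbad : ∃ l, Cyc G σ (t + 1) l) :
    ∃ (L : ℕ) (l : List V) (B Z : Fin 3 → Finset V), Cyc G σ (t + 1) l ∧ Uni G (L + 1) σ t ∧
      L + 2 ≤ 2 * d ∧ 3 ≤ L ∧ (∀ i, Q.NCk G d 116 175 (B i) (Z i)) ∧
      ∀ i j, i ≠ j → (∀ x ∈ B i, x ∉ B j) ∧ ∀ a ∈ B i, ∀ b ∈ B j, ¬ G.Adj a b := by
  classical
  have h2 : Two G := two_of_conn fun S hS => hconn S (by omega)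
  obtain ⟨l, hl, hmax⟩ := exists_max_cyc hbad
  obtain ⟨X, hX⟩ := top_of_cyc hl hmax
  obtain ⟨L, hL⟩ : ∃ L, L = l.length := ⟨_, rfl⟩
  rw [← hL] at hX
  have hL2 : L + 2 ≤ 2 * d := by
    by_contra hlt
    obtain ⟨g1, g2, g3, x, y, g4, g5, g6, g7⟩ := hl
    have := hU l x y g1 g2 g4 g5 g6 g3 (by omega)
    rw [g7] at this
    have h8 : (1 : ZMod 2) = 0 := by linear_combination this
    exact absurd h8 (by decide)
  have hUL : Uni G (L + 1) σ t := uni_of_max (L := L) (by rw [hL]; exact hmax)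
  have hL3 := hX.rim.three
  obtain ⟨P, Q, Z, hZ18, hPne, hQne, hpP, hpQ, hPQ, hall, hadj, hXQ⟩ :=
    hX.first_part hdeg hn (by omega) hL2
  have hPZ := hpP.1
  have hQZ := hpQ.1
  have hPc := (hpP.deg hdeg).2 hPne
  have hQc := (hpQ.deg hdeg).2 hQne
  have hsum : P.card + Q.card + Z.card ≤ Fintype.card V := by
    have h1 : Disjoint P Q := Finset.disjoint_left.2 hPQ
    have h3 : Disjoint (P ∪ Q) Z := by
      rw [Finset.disjoint_left]
      intro z hz
      rw [Finset.mem_union] at hz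
      rcases hz with hz | hz
      · exact hPZ z hz
      · exact hQZ z hz
    rw [← Finset.card_union_of_disjoint h1, ← Finset.card_union_of_disjoint h3]
    exact Finset.card_le_univ _
  obtain ⟨B1, Z1, hB1P, hB1n, hB1p, hZ1c, hB1S⟩ := exists_solid (k := 49) (C := 165) hdeg 2 P Z
    hpP hPne (by omega) (by omega)
  have hb1c := (hB1p.deg hdeg).2 hB1n
  have hB1le := Finset.card_le_card hB1P
  have hb1 : Blob G B1 (min (B1.card - 31) (d + 160)) 9 31 := sol_blob2 hdeg hB1p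
    (z := 116) (by omega) (by omega) hB1n hB1S (by omega) (by omega)
  have hQS : ¬ Sol G Q 49 := by
    intro hQS
    have hbQ : Blob G Q (min (Q.card - 31) (d + 160)) 9 31 := sol_blob2 hdeg hpQ
      (z := 18) hZ18 (by omega) hQne hQS (by omega) (by omega)
    have hLQ : L ≤ Q.card + Z.card := by
      have h1 : (Finset.range L).image X ⊆ Q ∪ Z := by
        intro x hx
        rw [Finset.mem_image] at hx
        obtain ⟨k, -, rfl⟩ := hx
        rw [Finset.mem_union]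
        exact hXQ k
      have h3 := (Finset.card_le_card h1).trans (Finset.card_union_le _ _)
      rwa [rim_card hX.rim] at h3
    exact pair_false h2 hconn hl hUL hL3 hb1 hbQ (fun z hz hz' => hPQ z (hB1P hz) hz')
      (by omega) (by omega) (by omega) (by omega) (by omega) (by omega) (by omega) (by omega)
      (by omega)
  obtain ⟨T, Q1, Q2, hT, hs1, hs2, hn1, hn2, hd12, hna12, hp1, hp2⟩ := hpQ.split hQS
  have hZT := Finset.card_union_le Z T
  have hq1 := (hp1.deg hdeg).2 hn1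
  have hq2 := (hp2.deg hdeg).2 hn2
  have hq12 := card_two_parts hs1 hs2 hd12
  obtain ⟨B2, Z2, hB2Q, hB2n, hB2p, hZ2c, hB2S⟩ := exists_solid (k := 49) (C := 165) hdeg 1 Q1
    (Z ∪ T) hp1 hn1 (by omega) (by omega)
  obtain ⟨B3, Z3, hB3Q, hB3n, hB3p, hZ3c, hB3S⟩ := exists_solid (k := 49) (C := 165) hdeg 1 Q2
    (Z ∪ T) hp2 hn2 (by omega) (by omega)
  have hb2c := (hB2p.deg hdeg).2 hB2n
  have hb3c := (hB3p.deg hdeg).2 hB3n
  have hB2le := Finset.card_le_card hB2Q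
  have hB3le := Finset.card_le_card hB3Q
  have hb2 : Blob G B2 (min (B2.card - 31) (d + 160)) 9 31 := sol_blob2 hdeg hB2p
    (z := 116) (by omega) (by omega) hB2n hB2S (by omega) (by omega)
  have hb3 : Blob G B3 (min (B3.card - 31) (d + 160)) 9 31 := sol_blob2 hdeg hB3p
    (z := 116) (by omega) (by omega) hB3n hB3S (by omega) (by omega)
  have hd12' : ∀ z ∈ B1, z ∉ B2 := fun z hz hz' => hPQ z (hB1P hz) (hs1 (hB2Q hz'))
  have hd13' : ∀ z ∈ B1, z ∉ B3 := fun z hz hz' => hPQ z (hB1P hz) (hs2 (hB3Q hz'))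
  have hd23' : ∀ z ∈ B2, z ∉ B3 := fun z hz hz' => hd12 z (hB2Q hz) (hB3Q hz')
  have hn12' : ∀ a ∈ B1, ∀ b ∈ B2, ¬ G.Adj a b := fun a ha b hb =>
    hadj a (hB1P ha) b (hs1 (hB2Q hb))
  have hn13' : ∀ a ∈ B1, ∀ b ∈ B3, ¬ G.Adj a b := fun a ha b hb =>
    hadj a (hB1P ha) b (hs2 (hB3Q hb))
  have hn23' : ∀ a ∈ B2, ∀ b ∈ B3, ¬ G.Adj a b := fun a ha b hb =>
    hna12 a (hB2Q ha) b (hB3Q hb)
  have hp12 : min (B1.card - 31) (d + 160) + min (B2.card - 31) (d + 160) ≤ L := by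
    by_contra hlt
    exact pair_false h2 hconn hl hUL hL3 hb1 hb2 hd12' (by omega) (by omega) (by omega)
      (by omega) (by omega) (by omega) (by omega) (by omega) (by omega)
  have hp13 : min (B1.card - 31) (d + 160) + min (B3.card - 31) (d + 160) ≤ L := by
    by_contra hlt
    exact pair_false h2 hconn hl hUL hL3 hb1 hb3 hd13' (by omega) (by omega) (by omega)
      (by omega) (by omega) (by omega) (by omega) (by omega) (by omega)
  refine ⟨L, l, ![B1, B2, B3], ![Z1, Z2, Z3], hl, hUL, hL2, hL3, ?_, ?_⟩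
  · intro i
    fin_cases i
    · exact ⟨hB1n, hB1p, by simp only [Fin.zero_eta, Matrix.cons_val_zero]; omega,
        by simp only [Fin.zero_eta, Matrix.cons_val_zero]; omega⟩
    · exact ⟨hB2n, hB2p, by simp only [Fin.mk_one, Matrix.cons_val_one, Matrix.cons_val_zero]; omega,
        by simp only [Fin.mk_one, Matrix.cons_val_one, Matrix.cons_val_zero]; omega⟩
    · exact ⟨hB3n, hB3p, by simp only [Fin.reduceFinMk, Matrix.cons_val]; omega,
        by simp only [Fin.reduceFinMk, Matrix.cons_val]; omega⟩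
  · intro i j hij
    fin_cases i <;> fin_cases j
    · exact absurd rfl hij
    · exact ⟨hd12', hn12'⟩
    · exact ⟨hd13', hn13'⟩
    · exact ⟨fun x hx hx' => hd12' x hx' hx, fun a ha b hb hab => hn12' b hb a ha hab.symm⟩
    · exact absurd rfl hij
    · exact ⟨hd23', hn23'⟩
    · exact ⟨fun x hx hx' => hd13' x hx' hx, fun a ha b hb hab => hn13' b hb a ha hab.symm⟩
    · exact ⟨fun x hx hx' => hd23' x hx' hx, fun a ha b hb hab => hn23' b hb a ha hab.symm⟩
    · exact absurd rfl hij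

/-- Bondy's conjecture (dual form) for `n ≤ 4 δ` and `δ ≥ 8700` -/
theorem large_good3 {d : ℕ} (hdeg : ∀ v, d ≤ G.degree v) (hn : 2 * d ≤ Fintype.card V)
    (hn4 : Fintype.card V ≤ 4 * d) (hd : 8700 ≤ d)
    (hconn : ∀ S : Finset V, S.card < 3 → (G.induce ((↑S : Set V)ᶜ)).Connected) :
    Good G (2 * d - 1) := by
  rcases Nat.eq_or_lt_of_le hn with heq | hlt
  · exact dirac_good (by omega) heq.symm hdeg fun S hS => hconn S (by omega)
  intro σ t hU
  have h2 : Two G := two_of_conn fun S hS => hconn S (by omega)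
  by_cases hbad : ∃ l, Cyc G σ (t + 1) l
  swap
  · push Not at hbad
    exact good_of_no_bad hdeg (by omega) (by omega) h2 hbad
  exfalso
  obtain ⟨L, l, B, Z, hl, hUL, hL2, hL3, hcl, hdn⟩ := trio_of_bad2 hdeg (by omega) hn4 (by omega)
    hconn hU hbad
  exact Q.Trio.absurd (κ := 116) (β := 175) (B := B) (Z := Z)
    ⟨hcl, fun i j hij => (hdn i j hij).1, fun i j hij => (hdn i j hij).2⟩ hdeg
    ⟨by omega, by omega⟩ h2 hconn hl hUL hL2 hL3

end Run7.h807
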