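import Mathlib
import Pool.Agent.Run7.h807.Qs2

set_option autoImplicit false

namespace Run7.h807

variable {V : Type*} {G : SimpleGraph V}

/-- a connected remainder cannot be split -/
theorem conn_split {P Q Z : Finset V} (h : (G.induce ((↑Z : Set V)ᶜ)).Connected)
    (hPne : P.Nonempty) (hQne : Q.Nonempty) (hP : Part G P Z) (hQ : Part G Q Z)
    (hPQ : ∀ z ∈ P, z ∉ Q) : False := by
  obtain ⟨x, hx⟩ := hPne
  obtain ⟨y, hy⟩ := hQne
  have hxZ : x ∈ ((↑Z : Set V)ᶜ) := fun g => hP.1 x hx g
  have hyZ : y ∈ ((↑Z : Set V)ᶜ) := fun g => hQ.1 y hy g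
  obtain ⟨p⟩ := h.preconnected ⟨x, hxZ⟩ ⟨y, hyZ⟩
  have key : ∀ (u v : ((↑Z : Set V)ᶜ : Set V)), (G.induce ((↑Z : Set V)ᶜ)).Walk u v →
      (u : V) ∈ P → (v : V) ∈ P := by
    intro u v w
    induction w with
    | nil => exact id
    | @cons a b _ hadj _ ih =>
      intro hu
      refine ih ?_
      have hb : (b : V) ∉ Z := fun g => b.2 g
      have hab : G.Adj (a : V) (b : V) := hadj
      rcases hP.2 _ hu _ hab with g | g
      · exact g
      · exact absurd g hb
  exact hPQ y (key _ _ p hx) hy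

variable [DecidableEq V] [DecidableRel G.Adj] [Fintype V]

/-- Bondy's conjecture (dual form) for 19-connected graphs -/
theorem high_good2 {d : ℕ}
    (hdeg : ∀ v, d ≤ G.degree v) (hn : 2 * d ≤ Fintype.card V) (hd : 1244 ≤ d)
    (hconn : ∀ S : Finset V, S.card < 19 → (G.induce ((↑S : Set V)ᶜ)).Connected) :
    Good G (2 * d - 1) := by
  classical
  rcases Nat.eq_or_lt_of_le hn with heq | hlt
  · exact dirac_good (by omega) heq.symm hdeg fun S hS => hconn S (by omega)
  intro σ t hU
  have h2 : Two G := two_of_conn fun S hS => hconn S (by omega)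
  by_cases hbad : ∃ l, Cyc G σ (t + 1) l
  swap
  · push Not at hbad
    exact good_of_no_bad hdeg (by omega) (by omega) h2 hbad
  exfalso
  obtain ⟨l, hl, hmax⟩ := exists_max_cyc hbad
  obtain ⟨X, hX⟩ := top_of_cyc hl hmax
  obtain ⟨L, hL⟩ : ∃ L, L = l.length := ⟨_, rfl⟩
  rw [← hL] at hX
  have hL2 : L + 2 ≤ 2 * d := by
    by_contra hlt
    obtain ⟨g1, g2, g3, x, y, g4, g5, g6, g7⟩ := hl
    have := hU l x y g1 g2 g4 g5 g6 g3 (by omega)
    rw [g7] at this
    have h8 : (1 : ZMod 2) = 0 := by linear_combination this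
    exact absurd h8 (by decide)
  obtain ⟨P, Q, Z, hZ18, hPne, hQne, hpP, hpQ, hPQ, -, -, -⟩ :=
    hX.first_part hdeg (by omega) hd hL2
  exact conn_split (hconn Z (by omega)) hPne hQne hpP hpQ hPQ

/-- Bondy's conjecture (dual form) for graphs of small order -/
theorem small_good2 {d : ℕ}
    (hdeg : ∀ v, d ≤ G.degree v) (hn : 2 * d ≤ Fintype.card V)
    (hn3 : Fintype.card V + 66 ≤ 3 * d) (hd : 1244 ≤ d)
    (hconn : ∀ S : Finset V, S.card < 3 → (G.induce ((↑S : Set V)ᶜ)).Connected) :
    Good G (2 * d - 1) := by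
  classical
  rcases Nat.eq_or_lt_of_le hn with heq | hlt
  · exact dirac_good (by omega) heq.symm hdeg fun S hS => hconn S (by omega)
  intro σ t hU
  have h2 : Two G := two_of_conn fun S hS => hconn S (by omega)
  by_cases hbad : ∃ l, Cyc G σ (t + 1) l
  swap
  · push Not at hbad
    exact good_of_no_bad hdeg (by omega) (by omega) h2 hbad
  exfalso
  obtain ⟨l, hl, hmax⟩ := exists_max_cyc hbad
  obtain ⟨X, hX⟩ := top_of_cyc hl hmax
  obtain ⟨L, hL⟩ : ∃ L, L = l.length := ⟨_, rfl⟩
  rw [← hL] at hX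
  have hL2 : L + 2 ≤ 2 * d := by
    by_contra hlt
    obtain ⟨g1, g2, g3, x, y, g4, g5, g6, g7⟩ := hl
    have := hU l x y g1 g2 g4 g5 g6 g3 (by omega)
    rw [g7] at this
    have h8 : (1 : ZMod 2) = 0 := by linear_combination this
    exact absurd h8 (by decide)
  have hL3 := hX.rim.three
  obtain ⟨P, Q, Z, hZ18, hPne, hQne, hpP, hpQ, hPQ, hall, hadj, hXQ⟩ :=
    hX.first_part hdeg (by omega) hd hL2
  have hP := hpP.deg hdeg
  have hQ := hpQ.deg hdeg
  have hPc := hP.2 hPne
  have hQc := hQ.2 hQne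
  have hsum : P.card + Q.card + Z.card ≤ Fintype.card V := by
    have h1 : Disjoint P Q := Finset.disjoint_left.2 hPQ
    have h3 : Disjoint (P ∪ Q) Z := by
      rw [Finset.disjoint_left]
      intro z hz
      rw [Finset.mem_union] at hz
      rcases hz with hz | hz
      · exact hpP.1 z hz
      · exact hpQ.1 z hz
    rw [← Finset.card_union_of_disjoint h1, ← Finset.card_union_of_disjoint h3]
    exact Finset.card_le_univ _
  have hbP : Blob G P (P.card - 13) 3 13 := slk_blob (fun v hv => by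
    have := hP.1 v hv
    omega) (by omega)
  have hbQ : Blob G Q (Q.card - 13) 3 13 := slk_blob (fun v hv => by
    have := hQ.1 v hv
    omega) (by omega)
  have hLQ : L ≤ Q.card + Z.card := by
    have h1 : (Finset.range L).image X ⊆ Q ∪ Z := by
      intro x hx
      rw [Finset.mem_image] at hx
      obtain ⟨k, -, rfl⟩ := hx
      rw [Finset.mem_union]
      exact hXQ k
    have h3 := (Finset.card_le_card h1).trans (Finset.card_union_le _ _)
    rwa [rim_card hX.rim] at h3
  have hUL : Uni G (L + 1) σ t := uni_of_max (L := L) (by rw [hL]; exact hmax)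
  exact pair_false h2 (fun S hS => hconn S hS) hl hUL hL3 hbP hbQ hPQ (by omega) (by omega)
    (by omega) (by omega) (by omega) (by omega) (by omega) (by omega) (by omega)

end Run7.h807
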