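import Mathlib
import Pool.Agent.Run7.h807.Qs3

set_option autoImplicit false

namespace Run7.h807

variable {V : Type*} {G : SimpleGraph V}

/-- disjoint pairs of neighbours in `B` for the vertices of `E`, avoiding any small set -/
def Prs (G : SimpleGraph V) (B E : Finset V) (ρ : ℕ) : Prop :=
  ∀ R0 : Finset V, R0.card ≤ ρ → ∃ f f' : V → V,
    (∀ u ∈ E, f u ∈ B ∧ f' u ∈ B ∧ G.Adj u (f u) ∧ G.Adj u (f' u) ∧ f u ∉ R0 ∧ f' u ∉ R0 ∧
      f u ≠ f' u) ∧
    ∀ u ∈ E, ∀ v ∈ E, u ≠ v → f u ≠ f v ∧ f u ≠ f' v ∧ f' u ≠ f' v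

variable [DecidableEq V] [DecidableRel G.Adj] {B E : Finset V} {w c e ρ : ℕ}

/-- one more vertex of large degree -/
theorem Prs.insert (h : Prs G B E ρ) {u : V} (hu : u ∉ E)
    (hc : ρ + 2 * E.card + 2 ≤ (B.filter (G.Adj u)).card) : Prs G B (Insert.insert u E) ρ := by
  intro R0 hR0
  obtain ⟨f, f', h1, h2⟩ := h R0 hR0
  obtain ⟨R, hR⟩ : ∃ R, R = R0 ∪ (E.image f ∪ E.image f') := ⟨_, rfl⟩
  have hRc : R.card ≤ ρ + 2 * E.card := by
    rw [hR]
    have e1 := Finset.card_union_le R0 (E.image f ∪ E.image f')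
    have e2 := Finset.card_union_le (E.image f) (E.image f')
    have e3 := Finset.card_image_le (s := E) (f := f)
    have e4 := Finset.card_image_le (s := E) (f := f')
    omega
  obtain ⟨b, hb, hbR⟩ := Finset.exists_mem_notMem_of_card_lt_card (s := R)
    (t := B.filter (G.Adj u)) (by omega)
  obtain ⟨b', hb', hbR'⟩ := Finset.exists_mem_notMem_of_card_lt_card (s := Insert.insert b R)
    (t := B.filter (G.Adj u)) (by
      have := Finset.card_insert_le b R
      omega)
  rw [Finset.mem_filter] at hb hb'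
  rw [Finset.mem_insert, not_or] at hbR'
  have hRm : ∀ z, z ∉ R → z ∉ R0 ∧ ∀ v ∈ E, f v ≠ z ∧ f' v ≠ z := by
    intro z hz
    rw [hR, Finset.mem_union, Finset.mem_union, not_or, not_or] at hz
    refine ⟨hz.1, fun v hv => ⟨fun g => hz.2.1 (Finset.mem_image.2 ⟨v, hv, g⟩),
      fun g => hz.2.2 (Finset.mem_image.2 ⟨v, hv, g⟩)⟩⟩
  have q1 := hRm b hbR
  have q2 := hRm b' hbR'.2
  refine ⟨Function.update f u b, Function.update f' u b', fun v hv => ?_, fun v hv v' hv' hvv => ?_⟩
  · rw [Finset.mem_insert] at hv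
    by_cases hvu : v = u
    · subst hvu
      rw [Function.update_self, Function.update_self]
      exact ⟨hb.1, hb'.1, hb.2, hb'.2, q1.1, q2.1, fun g => hbR'.1 g.symm⟩
    · rw [Function.update_of_ne hvu, Function.update_of_ne hvu]
      exact h1 v (hv.resolve_left hvu)
  · rw [Finset.mem_insert] at hv hv'
    by_cases hvu : v = u
    · subst hvu
      have hv'u : v' ≠ v := fun g => hvv g.symm
      rw [Function.update_self, Function.update_self, Function.update_of_ne hv'u,
        Function.update_of_ne hv'u]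
      have hv'S := hv'.resolve_left hv'u
      exact ⟨fun g => (q1.2 v' hv'S).1 g.symm, fun g => (q1.2 v' hv'S).2 g.symm,
        fun g => (q2.2 v' hv'S).2 g.symm⟩
    · have hvS := hv.resolve_left hvu
      rw [Function.update_of_ne hvu, Function.update_of_ne hvu]
      by_cases hv'u : v' = u
      · subst hv'u
        rw [Function.update_self, Function.update_self]
        exact ⟨(q1.2 v hvS).1, (q2.2 v hvS).1, (q2.2 v hvS).2⟩
      · rw [Function.update_of_ne hv'u, Function.update_of_ne hv'u]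
        exact h2 v hvS v' (hv'.resolve_left hv'u) hvv

omit [DecidableEq V] [DecidableRel G.Adj] in
theorem Prs.empty : Prs G B ∅ ρ := fun _ _ => ⟨id, id, by simp, by simp⟩

/-- small sets of vertices of moderate degree -/
theorem prs_small (hE : ∀ u ∈ E, 28 ≤ (B.filter (G.Adj u)).card) (hEc : E.card ≤ 2) :
    Prs G B E 24 := by
  classical
  have key : ∀ S : Finset V, S ⊆ E → Prs G B S 24 := by
    intro S
    induction S using Finset.induction_on with
    | empty => exact fun _ => Prs.empty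
    | insert u S huS ih =>
      intro hS
      have hc := Finset.card_le_card hS
      rw [Finset.card_insert_of_notMem huS] at hc
      refine (ih fun z hz => hS (Finset.mem_insert_of_mem hz)).insert huS ?_
      have := hE u (hS (Finset.mem_insert_self _ _))
      omega
  exact key E subset_rfl

/-- choice of attached vertices with disjoint pairs of neighbours -/
theorem exists_att : ∀ (m : ℕ) (Z : Finset V), (∀ v ∈ B, m ≤ (Z.filter (G.Adj v)).card) →
    27 * Z.card < B.card → ∃ E ⊆ Z, E.card = m ∧ Prs G B E 24 ∧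
      ∀ u ∈ E, 28 ≤ (B.filter (G.Adj u)).card := by
  intro m
  induction m with
  | zero => exact fun Z _ _ => ⟨∅, Finset.empty_subset _, rfl, Prs.empty, by simp⟩
  | succ m ih =>
    intro Z hZ hB
    obtain ⟨u, hu, huc⟩ : ∃ u ∈ Z, 28 + 2 * m ≤ (B.filter (G.Adj u)).card := by
      by_contra hno
      push Not at hno
      have h1 : ∀ v ∈ B, m + 1 ≤ (Finset.bipartiteAbove G.Adj Z v).card := hZ
      have h2 : ∀ z ∈ Z, (Finset.bipartiteBelow G.Adj B z).card ≤ 27 + 2 * m := by
        intro z hz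
        have h3 := hno z hz
        have h4 : Finset.bipartiteBelow G.Adj B z = B.filter (G.Adj z) := by
          ext v
          rw [Finset.mem_bipartiteBelow, Finset.mem_filter, G.adj_comm]
        rw [h4]
        omega
      have h3 := Finset.sum_card_bipartiteAbove_eq_sum_card_bipartiteBelow (s := B) (t := Z) G.Adj
      have h4 := Finset.sum_le_card_nsmul _ _ _ h2
      have h5 := Finset.card_nsmul_le_sum B _ _ h1
      rw [h3] at h5
      have h6 := h5.trans h4
      rw [smul_eq_mul, smul_eq_mul] at h6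
      have h7 : Z.card * (27 + 2 * m) ≤ 27 * Z.card * (m + 1) := by
        have : 27 * Z.card * (m + 1) = Z.card * (27 + 27 * m) := by ring
        rw [this]
        exact Nat.mul_le_mul_left _ (by omega)
      have h8 : 27 * Z.card * (m + 1) < B.card * (m + 1) :=
        Nat.mul_lt_mul_of_pos_right hB (Nat.succ_pos _)
      omega
    obtain ⟨E, hE, hEc, hEp, hEd⟩ := ih (Z.erase u) (fun v hv => by
      have h1 := hZ v hv
      have h2 : Z.filter (G.Adj v) ⊆ Insert.insert u ((Z.erase u).filter (G.Adj v)) := by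
        intro z hz
        rw [Finset.mem_filter] at hz
        rw [Finset.mem_insert, Finset.mem_filter, Finset.mem_erase]
        by_cases hzu : z = u
        · exact Or.inl hzu
        · exact Or.inr ⟨⟨hzu, hz.1⟩, hz.2⟩
      have h3 := (Finset.card_le_card h2).trans (Finset.card_insert_le _ _)
      omega) (by
      have := Finset.card_le_card (Finset.erase_subset u Z)
      omega)
    have huE : u ∉ E := fun g => (Finset.mem_erase.1 (hE g)).1 rfl
    refine ⟨Insert.insert u E, fun z hz => ?_, ?_, hEp.insert huE (by omega), fun z hz => ?_⟩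
    · rcases Finset.mem_insert.1 hz with rfl | hz
      · exact hu
      · exact Finset.mem_of_mem_erase (hE hz)
    · rw [Finset.card_insert_of_notMem huE, hEc]
    · rcases Finset.mem_insert.1 hz with rfl | hz
      · omega
      · exact hEd z hz

variable [Fintype V]

/-- exact covers between vertices of the near-clique, with given pairs -/
theorem NA.cover0p (h : NA G B E w c e) (hp : Prs G B E ρ) {F : Finset V} {x y : V} (hx : x ∈ B)
    (hy : y ∈ B) (hxF : x ∉ F) (hyF : y ∉ F) (hxy : x ≠ y)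
    (hB : 2 * (F.card + 4 * e) + 4 * w + 12 ≤ B.card) (hc : F.card + 2 ≤ ρ) :
    ∃ l, Pth (RB G B) {z | z ∈ B ∪ E ∧ z ∉ F} x y l ∧ ((B ∪ E) \ F).card ≤ l.length := by
  have hEc : (E \ F).card ≤ e := (Finset.card_le_card Finset.sdiff_subset).trans h.ec
  obtain ⟨f, f', h1, h2⟩ := hp (Insert.insert x (Insert.insert y F)) (by
    have e1 := Finset.card_insert_le x (Insert.insert y F)
    have e2 := Finset.card_insert_le y F
    omega)
  refine h.cover0r f f' _ F x y hx hy hxF hyF hxy rfl (fun u hu => ?_) (fun u hu v hv =>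
    h2 u (Finset.mem_sdiff.1 hu).1 v (Finset.mem_sdiff.1 hv).1) (by omega)
  obtain ⟨k1, k2, k3, k4, k5, k6, k7⟩ := h1 u (Finset.mem_sdiff.1 hu).1
  rw [Finset.mem_insert, Finset.mem_insert, not_or, not_or] at k5 k6
  exact ⟨⟨k1, k2⟩, ⟨k3, k4⟩, ⟨k5.2.2, k6.2.2⟩, k7, ⟨k5.1, k6.1⟩, k5.2.1, k6.2.1⟩

theorem NA.cover1p (h : NA G B E w c e) (hp : Prs G B E ρ) {F : Finset V} {x y : V}
    (hx : x ∈ B ∪ E) (hy : y ∈ B) (hxF : x ∉ F) (hyF : y ∉ F) (hxy : x ≠ y)
    (hB : 2 * (F.card + 1 + 4 * e) + 4 * w + 12 ≤ B.card)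
    (hρ : F.card + 3 ≤ ρ) (hc : F.card + 2 < c) :
    ∃ l, Pth (RB G B) {z | z ∈ B ∪ E ∧ z ∉ F} x y l ∧ ((B ∪ E) \ F).card ≤ l.length := by
  by_cases hxB : x ∈ B
  · exact h.cover0p hp hxB hy hxF hyF hxy (by omega) (by omega)
  · have hxE : x ∈ E := (Finset.mem_union.1 hx).resolve_left hxB
    have hins := Finset.card_insert_le x F
    obtain ⟨a, haB, hxa, haF⟩ := h.nb hxE (F := Insert.insert y (Insert.insert x F)) (by
      have := Finset.card_insert_le y (Insert.insert x F)
      omega)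
    rw [Finset.mem_insert, not_or] at haF
    obtain ⟨l, h1, h2⟩ := h.cover0p hp (F := Insert.insert x F) haB hy haF.2 (by
      rw [Finset.mem_insert, not_or]
      exact ⟨hxy.symm, hyF⟩) haF.1 (by omega) (by omega)
    have h1' : Pth (RB G B) {z | z ∈ B ∪ E ∧ z ∉ F} a y l := h1.mono fun z _ hz =>
      ⟨hz.1, fun g => hz.2 (Finset.mem_insert_of_mem g)⟩
    refine ⟨x :: l, rb_chain_cons h1' ⟨hxa, Or.inr haB⟩ ⟨hx, hxF⟩ (fun g =>
      (h1.mem x g).2 (Finset.mem_insert_self _ _)), ?_⟩
    have := sdiff_insert_card (B ∪ E) F x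
    rw [List.length_cons]
    omega

theorem NA.cover2p (h : NA G B E w c e) (hp : Prs G B E ρ) {F : Finset V} {x y : V}
    (hx : x ∈ B ∪ E) (hy : y ∈ B ∪ E) (hxF : x ∉ F) (hyF : y ∉ F) (hxy : x ≠ y)
    (hB : 2 * (F.card + 2 + 4 * e) + 4 * w + 12 ≤ B.card)
    (hρ : F.card + 4 ≤ ρ) (hc : F.card + 3 < c) :
    ∃ l, Pth (RB G B) {z | z ∈ B ∪ E ∧ z ∉ F} x y l ∧ ((B ∪ E) \ F).card ≤ l.length := by
  by_cases hyB : y ∈ B
  · exact h.cover1p hp hx hyB hxF hyF hxy (by omega) (by omega) (by omega)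
  · have hyE : y ∈ E := (Finset.mem_union.1 hy).resolve_left hyB
    have hins := Finset.card_insert_le y F
    obtain ⟨a, haB, hya, haF⟩ := h.nb hyE (F := Insert.insert x (Insert.insert y F)) (by
      have := Finset.card_insert_le x (Insert.insert y F)
      omega)
    rw [Finset.mem_insert, not_or] at haF
    obtain ⟨l, h1, h2⟩ := h.cover1p hp (F := Insert.insert y F) hx haB (by
      rw [Finset.mem_insert, not_or]
      exact ⟨hxy, hxF⟩) haF.2 (fun g => haF.1 g.symm) (by omega) (by omega) (by omega)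
    have h1' : Pth (RB G B) {z | z ∈ B ∪ E ∧ z ∉ F} x a l := h1.mono fun z _ hz =>
      ⟨hz.1, fun g => hz.2 (Finset.mem_insert_of_mem g)⟩
    refine ⟨_, rb_snoc h1' ⟨hya.symm, Or.inl haB⟩ ⟨hy, hyF⟩ (fun g =>
      (h1.mem y g).2 (Finset.mem_insert_self _ _)), ?_⟩
    have := sdiff_insert_card (B ∪ E) F y
    rw [List.length_reverse, List.length_cons, List.length_reverse]
    omega

theorem NA.xbp (h : NA G B E w 28 e) (hp : Prs G B E 24)
    (hB : 2 * (22 + 4 * e) + 4 * w + 12 ≤ B.card) : XB (RB G B) (B ∪ E) 5 20 := by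
  refine ⟨fun F hF x hx y hy hxF hyF => h.short2s (by omega) (by omega) hx hy hxF hyF,
    fun F hF x hx y hy hxF hyF hxy => ?_⟩
  obtain ⟨l, h1, h2⟩ := h.cover2p hp hx hy hxF hyF hxy (by omega) (by omega) (by omega)
  refine ⟨l, h1, ?_⟩
  have h3 := Finset.card_sdiff_add_card_inter (B ∪ E) F
  have h4 := Finset.card_le_card (Finset.inter_subset_right (s₁ := B ∪ E) (s₂ := F))
  omega

end Run7.h807
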