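import Mathlib
import Pool.Agent.Run7.h807.Rp

set_option autoImplicit false

namespace Run7.h807.R

variable {V : Type*} {G : SimpleGraph V} [DecidableEq V] [DecidableRel G.Adj] [Fintype V]

omit [DecidableRel G.Adj] [Fintype V] in
theorem close3 {σ : Sym2 V → ZMod 2} {t : ZMod 2} {L : ℕ} (hU : Uni G (L + 1) σ t) {SM : Set V}
    {A : Finset V} {z z' p p' : V} {M l : List V} (hM : Pth G.Adj SM z z' M)
    (hdis : ∀ w ∈ A, w ∉ M) (hl : Pth G.Adj {w | w ∈ A} p p' l) (hp : G.Adj p z)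
    (hp' : G.Adj p' z') (hpp : p ≠ p') (hlen : L + 1 ≤ l.length + M.length) :
    ls σ l + ls σ M + σ s(p, z) + σ s(p', z') = t := by
  have hpM : p ∉ M := hdis p (hl.mem p hl.memu)
  have hp'M : p' ∉ M := hdis p' (hl.mem p' hl.memv)
  have hR : ∀ a b, G.Adj a b → G.Adj b a := fun a b h => h.symm
  have h1 := two_list (S := (Set.univ : Set V)) hp trivial trivial
  have h2 : Pth G.Adj (Set.univ : Set V) z z' M := hM.mono fun _ _ _ => trivial
  have h3 := two_list (S := (Set.univ : Set V)) hp'.symm trivial trivial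
  have j1 := h1.join h2 (fun w hw hw' => by
    simp only [List.mem_cons, List.not_mem_nil, or_false] at hw
    rcases hw with rfl | rfl
    · exact absurd hw' hpM
    · rfl)
  have j2 := j1.join h3 (fun w hw hw' => by
    simp only [List.mem_cons, List.not_mem_nil, or_false] at hw'
    rcases hw' with rfl | rfl
    · rfl
    · exfalso
      rcases h1.join_mem h2 hw with g | g
      · simp only [List.mem_cons, List.not_mem_nil, or_false] at g
        rcases g with g | g
        · exact hpp g.symm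
        · exact hp'M (g ▸ hM.memu)
      · exact hp'M g)
  have hO := j2.rev hR
  have e := hU.close hl hO hpp (fun w hw hw' => by
    rw [List.mem_reverse] at hw'
    have hwA := hl.mem w hw
    rcases j1.join_mem h3 hw' with g | g
    · rcases h1.join_mem h2 g with g | g
      · simp only [List.mem_cons, List.not_mem_nil, or_false] at g
        rcases g with g | g
        · exact Or.inl g
        · exact absurd (g ▸ hM.memu) (hdis w hwA)
      · exact absurd g (hdis w hwA)
    · simp only [List.mem_cons, List.not_mem_nil, or_false] at g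
      rcases g with g | g
      · exact absurd (g ▸ hM.memv) (hdis w hwA)
      · exact Or.inr g) (by
      have a1 := h1.join_len h2
      have a2 := j1.join_len h3
      have a3 := hl.two hpp
      have a4 := hM.pos
      rw [List.length_reverse]
      simp only [List.length_cons, List.length_nil] at a1 a2
      omega) (by
      have a1 := h1.join_len h2
      have a2 := j1.join_len h3
      rw [List.length_reverse]
      simp only [List.length_cons, List.length_nil] at a1 a2
      omega)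
  rw [ls_reverse, j1.join_ls σ h3, h1.join_ls σ h2] at e
  have e1 : ls σ [p, z] = σ s(p, z) := by simp
  have e2 : ls σ [z', p'] = σ s(z', p') := by simp
  rw [e1, e2, Sym2.eq_swap (a := z') (b := p')] at e
  rw [← e]
  ring

/-- three near-cliques -/
structure Trio (G : SimpleGraph V) [DecidableRel G.Adj] (d κ β : ℕ) (B Z : Fin 3 → Finset V) :
    Prop where
  cl : ∀ i, NCk G d κ β (B i) (Z i)
  dis : ∀ i j, i ≠ j → ∀ x ∈ B i, x ∉ B j
  na : ∀ i j, i ≠ j → ∀ a ∈ B i, ∀ b ∈ B j, ¬ G.Adj a b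

variable {d κ β : ℕ} {B Z : Fin 3 → Finset V}

theorem zat_nb {B Z : Finset V} {z : V} (hz : z ∈ Za G d B Z) {F : Finset V}
    (hF : F.card < 28) : ∃ b ∈ B, G.Adj z b ∧ b ∉ F := by
  have h1 := (mem_za.1 hz).2
  have h2 : F.card < (B.filter (G.Adj z)).card := by omega
  obtain ⟨b, hb, hbF⟩ := Finset.exists_mem_notMem_of_card_lt_card h2
  rw [Finset.mem_filter] at hb
  exact ⟨b, hb.1, hb.2, hbF⟩

theorem Trio.off (h : Trio G d κ β B Z) {i : Fin 3} {z : V} (hz : z ∈ Za G d (B i) (Z i))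
    (j : Fin 3) : z ∉ B j := by
  intro hj
  by_cases hij : i = j
  · subst hij
    exact (h.cl i).part.1 z hj (mem_za.1 hz).1
  · obtain ⟨b, hb, hzb, -⟩ := zat_nb hz (F := ∅) (by simp)
    exact h.na j i (fun g => hij g.symm) z hj b hb hzb

/-- long and short segments through a near-clique -/
theorem NCk.seg (hdeg : ∀ v, d ≤ G.degree v) (hd : Big d κ β) {B Z : Finset V}
    (h : NCk G d κ β B Z) {u v : V} (hu : u ∈ B ∨ u ∈ Za G d B Z)
    (hv : v ∈ B ∨ v ∈ Za G d B Z) {F : Finset V} (hF : F.card ≤ 20) (huF : u ∉ F)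
    (hvF : v ∉ F) :
    (u ≠ v → ∃ l, Pth (RB G B) {w | (w ∈ B ∧ w ∉ F) ∨ w = u ∨ w = v} u v l ∧
      B.card ≤ l.length + F.card) ∧
    (∃ l, Pth (RB G B) {w | (w ∈ B ∧ w ∉ F) ∨ w = u ∨ w = v} u v l ∧ l.length ≤ 5) := by
  have hdl := hd.lin
  obtain ⟨E, hE⟩ : ∃ E : Finset V, E = ({u, v} : Finset V).filter (fun z => z ∈ Za G d B Z) :=
    ⟨_, rfl⟩
  have hEs : E ⊆ Za G d B Z := by
    intro z hz
    rw [hE, Finset.mem_filter] at hz
    exact hz.2
  have hEm : ∀ z ∈ E, z = u ∨ z = v := by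
    intro z hz
    rw [hE, Finset.mem_filter, Finset.mem_insert, Finset.mem_singleton] at hz
    exact hz.1
  have huE : u ∈ B ∪ E := by
    rw [Finset.mem_union]
    refine hu.imp id fun g => ?_
    rw [hE, Finset.mem_filter]
    exact ⟨Finset.mem_insert_self _ _, g⟩
  have hvE : v ∈ B ∪ E := by
    rw [Finset.mem_union]
    refine hv.imp id fun g => ?_
    rw [hE, Finset.mem_filter]
    exact ⟨Finset.mem_insert_of_mem (Finset.mem_singleton_self _), g⟩
  have hEc : E.card ≤ 2 := by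
    rw [hE]
    exact (Finset.card_filter_le _ _).trans Finset.card_le_two
  have hX := h.xb2 hdeg hd hEs hEc
  have hmono : ∀ z, z ∈ B ∪ E ∧ z ∉ F → (z ∈ B ∧ z ∉ F) ∨ z = u ∨ z = v := by
    rintro z ⟨g, g'⟩
    rcases Finset.mem_union.1 g with g | g
    · exact Or.inl ⟨g, g'⟩
    · exact Or.inr (hEm z g)
  refine ⟨fun huv => ?_, ?_⟩
  · obtain ⟨l, h1, h2⟩ := hX.cover F hF u huE v hvE huF hvF huv
    refine ⟨l, h1.mono fun z _ hz => hmono z hz, ?_⟩
    have := Finset.card_le_card (Finset.subset_union_left (s₁ := B) (s₂ := E))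
    omega
  · obtain ⟨l, h1, h2⟩ := hX.short F hF u huE v hvE huF hvF
    exact ⟨l, h1.mono fun z _ hz => hmono z hz, h2⟩

/-- the long way round through two near-cliques -/
theorem Trio.mpath (h : Trio G d κ β B Z) (hdeg : ∀ v, d ≤ G.degree v) (hd : Big d κ β)
    {j k : Fin 3} (hjk : j ≠ k) {z c z' : V} (hz : z ∈ Za G d (B j) (Z j))
    (hc : c ∈ Za G d (B j) (Z j)) (hc' : c ∈ Za G d (B k) (Z k))
    (hz' : z' ∈ Za G d (B k) (Z k)) (hzc : z ≠ c) (hcz' : c ≠ z') (hzz' : z ≠ z') :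
    ∃ l1 l2, Pth (RB G (B j)) {w | w ∈ B j ∨ w = z ∨ w = c} z c l1 ∧
      Pth (RB G (B k)) {w | w ∈ B k ∨ w = c ∨ w = z'} c z' l2 ∧
      Pth G.Adj {w | w ∈ B j ∨ w ∈ B k ∨ w = z ∨ w = c ∨ w = z'} z z' (l1 ++ l2.tail) ∧
      (B j).card + (B k).card ≤ (l1 ++ l2.tail).length + 1 := by
  have hdl := hd.lin
  obtain ⟨l1, h1, h1l⟩ := ((h.cl j).seg hdeg hd (Or.inr hz) (Or.inr hc) (F := ∅) (by simp)
    (by simp) (by simp)).1 hzc
  obtain ⟨l2, h2, h2l⟩ := ((h.cl k).seg hdeg hd (Or.inr hc') (Or.inr hz') (F := ∅) (by simp)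
    (by simp) (by simp)).1 hcz'
  have h1' : Pth (RB G (B j)) {w | w ∈ B j ∨ w = z ∨ w = c} z c l1 := h1.mono fun w _ hw => by
    rcases hw with hw | hw
    · exact Or.inl hw.1
    · exact Or.inr hw
  have h2' : Pth (RB G (B k)) {w | w ∈ B k ∨ w = c ∨ w = z'} c z' l2 := h2.mono fun w _ hw => by
    rcases hw with hw | hw
    · exact Or.inl hw.1
    · exact Or.inr hw
  have g1 : Pth G.Adj {w | w ∈ B j ∨ w = z ∨ w = c} z c l1 := h1'.imp fun a b _ _ hab => hab.1
  have g2 : Pth G.Adj {w | w ∈ B k ∨ w = c ∨ w = z'} c z' l2 := h2'.imp fun a b _ _ hab => hab.1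
  have J := g1.join g2 (fun w hw hw' => by
    rcases g1.mem w hw with a | a | a
    · rcases g2.mem w hw' with b | b | b
      · exact absurd b (h.dis j k hjk w a)
      · exact b
      · exact absurd (b ▸ a) (h.off hz' j)
    · rcases g2.mem w hw' with b | b | b
      · exact absurd (a ▸ b) (h.off hz k)
      · exact b
      · exact absurd (a.symm.trans b) hzz'
    · exact a)
  refine ⟨l1, l2, h1', h2', J.mono fun w _ hw => ?_, ?_⟩
  · rcases hw with (a | a | a) | (a | a | a)
    · exact Or.inl a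
    · exact Or.inr (Or.inr (Or.inl a))
    · exact Or.inr (Or.inr (Or.inr (Or.inl a)))
    · exact Or.inr (Or.inl a)
    · exact Or.inr (Or.inr (Or.inr (Or.inl a)))
    · exact Or.inr (Or.inr (Or.inr (Or.inr a)))
  · have := g1.join_len g2
    simp only [Finset.card_empty, add_zero] at h1l h2l
    omega

/-- a connector has a constant value on its neighbours in a near-clique -/
theorem Trio.conn_const (h : Trio G d κ β B Z) (hdeg : ∀ v, d ≤ G.degree v) (hd : Big d κ β)
    {σ : Sym2 V → ZMod 2} {t : ZMod 2} {L : ℕ} (hU : Uni G (L + 1) σ t) (hL2 : L + 2 ≤ 2 * d)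
    {i j k : Fin 3} (hij : i ≠ j) (hjk : j ≠ k) (hik : i ≠ k) {z c z' : V}
    (hz : z ∈ Za G d (B j) (Z j))
    (hc : c ∈ Za G d (B j) (Z j)) (hc' : c ∈ Za G d (B k) (Z k))
    (hz' : z' ∈ Za G d (B k) (Z k)) (hz'i : z' ∈ Za G d (B i) (Z i)) (hzc : z ≠ c)
    (hcz' : c ≠ z') (hzz' : z ≠ z') {π : V → ZMod 2}
    (hπ : ∀ x ∈ B i, ∀ y ∈ B i, G.Adj x y → σ s(x, y) = π x + π y) {p1 p2 : V} (hp1 : p1 ∈ B i)
    (hp2 : p2 ∈ B i) (hzp1 : G.Adj z p1) (hzp2 : G.Adj z p2) :
    σ s(z, p1) + π p1 = σ s(z, p2) + π p2 := by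
  have hdl := hd.lin
  obtain ⟨l1, l2, -, -, hM, hMl⟩ := h.mpath hdeg hd hjk hz hc hc' hz' hzc hcz' hzz'
  obtain ⟨q, hq, hz'q, hqF⟩ := zat_nb hz'i (F := {p1, p2}) (lt_of_le_of_lt Finset.card_le_two
    (by norm_num))
  rw [Finset.mem_insert, Finset.mem_singleton, not_or] at hqF
  have hsi := (h.cl i).size hdeg
  have hsj := (h.cl j).size hdeg
  have hsk := (h.cl k).size hdeg
  have hdisM : ∀ w ∈ B i, w ∉ l1 ++ l2.tail := by
    intro w hw hw'
    rcases hM.mem w hw' with a | a | a | a | a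
    · exact h.dis i j hij w hw a
    · exact h.dis i k hik w hw a
    · exact h.off hz i (a ▸ hw)
    · exact h.off hc i (a ▸ hw)
    · exact h.off hz' i (a ▸ hw)
  have key : ∀ p ∈ B i, G.Adj z p → q ≠ p →
      π p + π q + ls σ (l1 ++ l2.tail) + σ s(p, z) + σ s(q, z') = t := by
    intro p hp hzp hqp
    obtain ⟨l, hl, hll⟩ := ((h.cl i).seg hdeg hd (Or.inl hp) (Or.inl hq) (F := ∅) (by simp)
      (by simp) (by simp)).1 (fun g => hqp g.symm)
    have hl' : Pth G.Adj {w | w ∈ B i} p q l := (hl.imp fun a b _ _ hab => hab.1).mono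
      fun w _ hw => by
        rcases hw with a | a | a
        · exact a.1
        · rw [a]; exact hp
        · rw [a]; exact hq
    have e := close3 hU hM hdisM hl' hzp.symm hz'q.symm (fun g => hqp g.symm) (by
      simp only [Finset.card_empty, add_zero] at hll
      omega)
    rw [pth_ls (pth_cons (fun w hw => hw) hπ hl')] at e
    exact e
  have e1 := key p1 hp1 hzp1 hqF.1
  have e2 := key p2 hp2 hzp2 hqF.2
  rw [Sym2.eq_swap (a := z) (b := p1), Sym2.eq_swap (a := z) (b := p2)]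
  rw [← e2] at e1
  linear_combination e1

end Run7.h807.R
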