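import Mathlib
import Pool.Agent.Run7.h807.Rt2

set_option autoImplicit false

namespace Run7.h807.R

variable {V : Type*} {G : SimpleGraph V} [DecidableEq V] [DecidableRel G.Adj] [Fintype V]
  {d κ β : ℕ} {B Z : Fin 3 → Finset V}

omit [Fintype V] [DecidableRel G.Adj] in
theorem pick_out {X : Finset V} {n : ℕ} (h : n < X.card) {F : Finset V} (hF : F.card ≤ n) :
    ∃ x ∈ X, x ∉ F := Finset.exists_mem_notMem_of_card_lt_card (lt_of_le_of_lt hF h)

theorem fin3_others (i : Fin 3) : ∃ j k : Fin 3, i ≠ j ∧ j ≠ k ∧ i ≠ k := by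
  fin_cases i
  · exact ⟨1, 2, by decide, by decide, by decide⟩
  · exact ⟨0, 2, by decide, by decide, by decide⟩
  · exact ⟨0, 1, by decide, by decide, by decide⟩

/-- a potential on each extended near-clique -/
theorem Trio.pot (h : Trio G d κ β B Z) (hdeg : ∀ v, d ≤ G.degree v) (hd : Big d κ β)
    {σ : Sym2 V → ZMod 2} {t : ZMod 2} {L : ℕ} (hU : Uni G (L + 1) σ t) (hL2 : L + 2 ≤ 2 * d)
    (hC : ∀ i j, i ≠ j → 2 < (Za G d (B i) (Z i) ∩ Za G d (B j) (Z j)).card)
    (i : Fin 3) : ∃ s : V → ZMod 2, ∀ x ∈ B i ∪ Za G d (B i) (Z i),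
      ∀ y ∈ B i ∪ Za G d (B i) (Z i), RB G (B i) x y → σ s(x, y) = s x + s y := by
  have hdl := hd.lin
  classical
  obtain ⟨j, k, hij, hjk, hik⟩ := fin3_others i
  obtain ⟨At, hAt⟩ : ∃ At : Fin 3 → Finset V, At = fun i => Za G d (B i) (Z i) := ⟨_, rfl⟩
  have hAti : ∀ i, Za G d (B i) (Z i) = At i := fun i => by rw [hAt]
  simp only [hAti] at hC ⊢
  have hoff : ∀ {a : Fin 3} {z : V}, z ∈ At a → ∀ b, z ∉ B b := fun {a z} hz b => by
    rw [← hAti] at hz
    exact h.off hz b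
  have hnb : ∀ {a : Fin 3} {z : V}, z ∈ At a → ∀ {F : Finset V}, F.card < 28 →
      ∃ b ∈ B a, G.Adj z b ∧ b ∉ F := fun {a z} hz {F} hF => by
    rw [← hAti] at hz
    exact zat_nb hz hF
  obtain ⟨z, hz, -⟩ := pick_out (hC i j hij) (F := ∅) (by simp)
  obtain ⟨c, hc, hcF⟩ := pick_out (hC j k hjk) (F := {z}) (by simp)
  obtain ⟨z', hz', hz'F⟩ := pick_out (hC k i (fun g => hik g.symm)) (F := {z, c})
    Finset.card_le_two
  rw [Finset.mem_inter] at hz hc hz'
  rw [Finset.mem_singleton] at hcF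
  rw [Finset.mem_insert, Finset.mem_singleton, not_or] at hz'F
  obtain ⟨l1, l2, -, -, hM, hMl⟩ := h.mpath hdeg hd hjk (z := z) (c := c) (z' := z')
    (by rw [hAti]; exact hz.2) (by rw [hAti]; exact hc.1) (by rw [hAti]; exact hc.2)
    (by rw [hAti]; exact hz'.1) (fun g => hcF g.symm) (fun g => hz'F.2 g.symm)
    (fun g => hz'F.1 g.symm)
  obtain ⟨M, hMdef⟩ : ∃ M, M = l1 ++ l2.tail := ⟨_, rfl⟩
  rw [← hMdef] at hM hMl
  have hpotE : ∀ E : Finset V, E ⊆ At i \ {z, c, z'} → E.card ≤ 1 → ∃ π : V → ZMod 2,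
      ∀ x ∈ B i ∪ E, ∀ y ∈ B i ∪ E, G.Adj x y → σ s(x, y) = π x + π y := by
    intro E hE hE1
    have hEs : E ⊆ Za G d (B i) (Z i) := by
      rw [hAti]
      exact hE.trans Finset.sdiff_subset
    have hX := (h.cl i).xb2 hdeg hd hEs (by omega)
    have hsi := (h.cl i).size hdeg
    have hsj := (h.cl j).size hdeg
    have hsk := (h.cl k).size hdeg
    -- terminals
    obtain ⟨p, hp, hzp, -⟩ := hnb hz.1 (F := ∅) (by simp)
    obtain ⟨q, hq, hzq, hqF⟩ := hnb hz.1 (F := {p}) (by simp)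
    obtain ⟨p', hp', hzp', hp'F⟩ := hnb hz'.2 (F := {p, q}) (lt_of_le_of_lt Finset.card_le_two
      (by norm_num))
    obtain ⟨q', hq', hzq', hq'F⟩ := hnb hz'.2 (F := {p, q, p'}) (lt_of_le_of_lt Finset.card_le_three
      (by norm_num))
    rw [Finset.mem_singleton] at hqF
    rw [Finset.mem_insert, Finset.mem_singleton, not_or] at hp'F
    rw [Finset.mem_insert, Finset.mem_insert, Finset.mem_singleton, not_or, not_or] at hq'F
    have hA : ∀ w ∈ B i ∪ E, w ∉ M := by
      intro w hw hw'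
      rw [Finset.mem_union] at hw
      rcases hM.mem w hw' with a | a | a | a | a
      · rcases hw with hw | hw
        · exact h.dis i j hij w hw a
        · exact h.off (hEs hw) j a
      · rcases hw with hw | hw
        · exact h.dis i k hik w hw a
        · exact h.off (hEs hw) k a
      · rcases hw with hw | hw
        · exact hoff hz.1 i (a ▸ hw)
        · have hw := Finset.mem_sdiff.1 (hE hw)
          exact hw.2 (by simp [a])
      · rcases hw with hw | hw
        · exact hoff hc.1 i (a ▸ hw)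
        · have hw := Finset.mem_sdiff.1 (hE hw)
          exact hw.2 (by simp [a])
      · rcases hw with hw | hw
        · exact hoff hz'.1 i (a ▸ hw)
        · have hw := Finset.mem_sdiff.1 (hE hw)
          exact hw.2 (by simp [a])
    have hBA : (B i).card ≤ (B i ∪ E).card := Finset.card_le_card Finset.subset_union_left
    have hcst : ∀ u w, G.Adj z u → G.Adj z' w → u ≠ w → ∀ l l',
        Pth G.Adj {x | x ∈ B i ∪ E} u w l → Pth G.Adj {x | x ∈ B i ∪ E} u w l' →
        (B i ∪ E).card ≤ l.length + 20 → (B i ∪ E).card ≤ l'.length + 20 → ls σ l = ls σ l' := by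
      intro u w hu hw huw l l' hl hl' g1 g2
      have e1 := close3 hU hM hA hl hu.symm hw.symm huw (by omega)
      have e2 := close3 hU hM hA hl' hu.symm hw.symm huw (by omega)
      rw [← e2] at e1
      linear_combination e1
    have hcst' : ∀ u w, G.Adj z u → G.Adj z' w → u ≠ w → ∀ l l',
        Pth G.Adj {x | x ∈ B i ∪ E} w u l → Pth G.Adj {x | x ∈ B i ∪ E} w u l' →
        (B i ∪ E).card ≤ l.length + 20 → (B i ∪ E).card ≤ l'.length + 20 → ls σ l = ls σ l' := by
      intro u w hu hw huw l l' hl hl' g1 g2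
      have hR : ∀ a b, G.Adj a b → G.Adj b a := fun a b h => h.symm
      have := hcst u w hu hw huw _ _ (hl.rev hR) (hl'.rev hR) (by rw [List.length_reverse]; exact g1)
        (by rw [List.length_reverse]; exact g2)
      rwa [ls_reverse, ls_reverse] at this
    refine blob_potG (σ := σ) (T := fun u w => (u = p ∧ w = p') ∨ (u = p' ∧ w = p) ∨
        (u = q ∧ w = q') ∨ (u = q' ∧ w = q)) (Tm := {p, p', q, q'}) (fun a b hab => hab.1) hX
      (by
        rintro u w (⟨rfl, rfl⟩ | ⟨rfl, rfl⟩ | ⟨rfl, rfl⟩ | ⟨rfl, rfl⟩)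
        · exact hcst _ _ hzp hzp' (fun g => hp'F.1 g.symm)
        · exact hcst' _ _ hzp hzp' (fun g => hp'F.1 g.symm)
        · exact hcst _ _ hzq hzq' (fun g => hq'F.2.1 g.symm)
        · exact hcst' _ _ hzq hzq' (fun g => hq'F.2.1 g.symm))
      Finset.card_le_four (by
        intro u hu
        simp only [Finset.mem_insert, Finset.mem_singleton] at hu
        rw [Finset.mem_union]
        rcases hu with rfl | rfl | rfl | rfl
        · exact Or.inl hp
        · exact Or.inl hp'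
        · exact Or.inl hq
        · exact Or.inl hq') (by
        rintro u w (⟨rfl, rfl⟩ | ⟨rfl, rfl⟩ | ⟨rfl, rfl⟩ | ⟨rfl, rfl⟩)
        · exact ⟨by simp, by simp, fun g => hp'F.1 g.symm⟩
        · exact ⟨by simp, by simp, hp'F.1⟩
        · exact ⟨by simp, by simp, fun g => hq'F.2.1 g.symm⟩
        · exact ⟨by simp, by simp, hq'F.2.1⟩) (by
        intro v
        by_cases hv : p = v ∨ p' = v
        · refine ⟨q, q', Or.inr (Or.inr (Or.inl ⟨rfl, rfl⟩)), ?_, ?_⟩
          · rcases hv with rfl | rfl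
            · exact hqF
            · exact fun g => hp'F.2 g.symm
          · rcases hv with rfl | rfl
            · exact hq'F.1
            · exact hq'F.2.2
        · rw [not_or] at hv
          exact ⟨p, p', Or.inl ⟨rfl, rfl⟩, hv.1, hv.2⟩) (by
        intro x hx y hy hxy
        simp only [Finset.mem_insert, Finset.mem_singleton] at hx hy
        rcases hx with rfl | rfl | rfl | rfl
        · rcases hy with rfl | rfl | rfl | rfl
          · exact absurd rfl hxy
          · exact Or.inl ⟨q, q', Or.inr (Or.inr (Or.inl ⟨rfl, rfl⟩)), hqF, fun g => hp'F.2 g.symm,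
              hq'F.1, hq'F.2.2⟩
          · exact Or.inr (Or.inl ⟨p', Or.inl ⟨rfl, rfl⟩, hp'F.2⟩)
          · exact Or.inr (Or.inl ⟨p', Or.inl ⟨rfl, rfl⟩, fun g => hq'F.2.2 g.symm⟩)
        · rcases hy with rfl | rfl | rfl | rfl
          · exact Or.inl ⟨q, q', Or.inr (Or.inr (Or.inl ⟨rfl, rfl⟩)), fun g => hp'F.2 g.symm, hqF,
              hq'F.2.2, hq'F.1⟩
          · exact absurd rfl hxy
          · exact Or.inr (Or.inl ⟨p, Or.inr (Or.inl ⟨rfl, rfl⟩), fun g => hqF g.symm⟩)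
          · exact Or.inr (Or.inl ⟨p, Or.inr (Or.inl ⟨rfl, rfl⟩), fun g => hq'F.1 g.symm⟩)
        · rcases hy with rfl | rfl | rfl | rfl
          · exact Or.inr (Or.inl ⟨q', Or.inr (Or.inr (Or.inl ⟨rfl, rfl⟩)), hq'F.1⟩)
          · exact Or.inr (Or.inl ⟨q', Or.inr (Or.inr (Or.inl ⟨rfl, rfl⟩)), hq'F.2.2⟩)
          · exact absurd rfl hxy
          · exact Or.inl ⟨p, p', Or.inl ⟨rfl, rfl⟩, fun g => hqF g.symm, fun g => hq'F.1 g.symm,
              hp'F.2, fun g => hq'F.2.2 g.symm⟩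
        · rcases hy with rfl | rfl | rfl | rfl
          · exact Or.inr (Or.inl ⟨q, Or.inr (Or.inr (Or.inr ⟨rfl, rfl⟩)), hqF⟩)
          · exact Or.inr (Or.inl ⟨q, Or.inr (Or.inr (Or.inr ⟨rfl, rfl⟩)), fun g => hp'F.2 g.symm⟩)
          · exact Or.inl ⟨p, p', Or.inl ⟨rfl, rfl⟩, fun g => hq'F.1 g.symm, fun g => hqF g.symm,
              fun g => hq'F.2.2 g.symm, hp'F.2⟩
          · exact absurd rfl hxy)
      (by omega) (by omega) (by omega)
  obtain ⟨π, hπ⟩ := hpotE ∅ (Finset.empty_subset _) (by simp)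
  have hπB : ∀ x ∈ B i, ∀ y ∈ B i, G.Adj x y → σ s(x, y) = π x + π y := fun x hx y hy =>
    hπ x (Finset.mem_union_left _ hx) y (Finset.mem_union_left _ hy)
  -- connectors
  have cw : ∀ (a b : Fin 3), i ≠ a → a ≠ b → i ≠ b → ∀ w, w ∈ At a → ∀ p1 ∈ B i, ∀ p2 ∈ B i,
      G.Adj w p1 → G.Adj w p2 → σ s(w, p1) + π p1 = σ s(w, p2) + π p2 := by
    intro a b hia hab hib w hw p1 hp1 p2 hp2 hwp1 hwp2
    obtain ⟨c1, hc1, hc1F⟩ := pick_out (hC a b hab) (F := {w}) (by simp)
    obtain ⟨z1, hz1, hz1F⟩ := pick_out (hC b i (fun g => hib g.symm)) (F := {w, c1})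
      Finset.card_le_two
    rw [Finset.mem_inter] at hc1 hz1
    rw [Finset.mem_singleton] at hc1F
    rw [Finset.mem_insert, Finset.mem_singleton, not_or] at hz1F
    exact h.conn_const hdeg hd hU hL2 hia hab hib (z := w) (c := c1) (z' := z1)
      (by rw [hAti]; exact hw) (by rw [hAti]; exact hc1.1) (by rw [hAti]; exact hc1.2)
      (by rw [hAti]; exact hz1.1) (by rw [hAti]; exact hz1.2) (fun g => hc1F g.symm)
      (fun g => hz1F.2 g.symm) (fun g => hz1F.1 g.symm) hπB hp1 hp2 hwp1 hwp2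
  have cw' : ∀ w ∈ ({z, c, z'} : Finset V), ∀ p1 ∈ B i, ∀ p2 ∈ B i,
      G.Adj w p1 → G.Adj w p2 → σ s(w, p1) + π p1 = σ s(w, p2) + π p2 := by
    intro w hw
    simp only [Finset.mem_insert, Finset.mem_singleton] at hw
    rcases hw with rfl | rfl | rfl
    · exact cw j k hij hjk hik _ hz.2
    · exact cw j k hij hjk hik _ hc.1
    · exact cw k j hik (fun g => hjk g.symm) hij _ hz'.1
  have cw2 : ∀ w ∈ At i, ∀ p1 ∈ B i, ∀ p2 ∈ B i,
      G.Adj w p1 → G.Adj w p2 → σ s(w, p1) + π p1 = σ s(w, p2) + π p2 := by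
    intro w hw p1 hp1 p2 hp2 hwp1 hwp2
    by_cases hwT : w ∈ ({z, c, z'} : Finset V)
    · exact cw' w hwT p1 hp1 p2 hp2 hwp1 hwp2
    obtain ⟨πw, hπw⟩ := hpotE {w} (by
      rw [Finset.singleton_subset_iff, Finset.mem_sdiff]
      exact ⟨hw, hwT⟩) (by simp)
    have hN := (h.cl i).na hdeg (E := ∅) (Finset.empty_subset _) (by simp)
    have hsi := (h.cl i).size hdeg
    obtain ⟨a, ha, h1a, h2a, -, -⟩ := hN.comB (F := ∅) hp1 hp2 hp2 (by
      rw [Finset.card_empty]
      omega)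
    have mB : ∀ q ∈ B i, q ∈ B i ∪ {w} := fun q hq => Finset.mem_union_left _ hq
    have mw : w ∈ B i ∪ {w} := Finset.mem_union_right _ (Finset.mem_singleton_self _)
    rw [hπw w mw p1 (mB p1 hp1) hwp1, hπw w mw p2 (mB p2 hp2) hwp2]
    have e1 := hπB p1 hp1 a ha h1a
    have e2 := hπB p2 hp2 a ha h2a
    rw [hπw p1 (mB p1 hp1) a (mB a ha) h1a] at e1
    rw [hπw p2 (mB p2 hp2) a (mB a ha) h2a] at e2
    have t1 := two_self (πw a)
    have t2 := two_self (π a)
    have t3 := two_self (π p1)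
    have t4 := two_self (π p2)
    linear_combination e1 + (-1 : ZMod 2) * e2 + t3 - t4
  obtain ⟨s, hBs, hs2⟩ : ∃ s : V → ZMod 2, (∀ w ∈ B i, s w = π w) ∧
      ∀ w ∈ At i, ∀ p1 ∈ B i, G.Adj w p1 → s w = σ s(w, p1) + π p1 := by
    refine ⟨fun w => if w ∈ B i then π w else
      (if hw : ∃ b, b ∈ B i ∧ G.Adj w b then σ s(w, hw.choose) + π hw.choose else 0),
      fun w hw => if_pos hw, fun w hw p1 hp1 hwp1 => ?_⟩
    have hex : ∃ b, b ∈ B i ∧ G.Adj w b := ⟨p1, hp1, hwp1⟩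
    simp only [if_neg (hoff hw i), dif_pos hex]
    exact cw2 w hw _ hex.choose_spec.1 p1 hp1 hex.choose_spec.2 hwp1
  have hmain : ∀ x ∈ B i ∪ At i, ∀ y ∈ B i, G.Adj x y → σ s(x, y) = s x + s y := by
    intro x hx y hy hxy
    rw [hBs y hy]
    rcases Finset.mem_union.1 hx with hx | hx
    · rw [hBs x hx]
      exact hπB x hx y hy hxy
    · rw [hs2 x hx y hy hxy]
      have := two_self (π y)
      linear_combination -this
  refine ⟨s, fun x hx y hy hxy => ?_⟩
  rcases hxy.2 with g | g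
  · rw [Sym2.eq_swap, add_comm]
    exact hmain y hy x g hxy.1.symm
  · exact hmain x hx y g hxy.1

end Run7.h807.R
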