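import Mathlib
import Pool.Agent.Run7.h807.Rs

set_option autoImplicit false

namespace Run7.h807

variable {V : Type*} {G : SimpleGraph V}

variable [DecidableEq V] [DecidableRel G.Adj] {B E : Finset V} {w c e : ℕ}

/-- small sets of vertices of moderate degree -/
theorem prs_small' (hE : ∀ u ∈ E, 19 ≤ (B.filter (G.Adj u)).card) (hEc : E.card ≤ 2) :
    Prs G B E 15 := by
  classical
  have key : ∀ S : Finset V, S ⊆ E → Prs G B S 15 := by
    intro S
    induction S using Finset.induction_on with
    | empty => exact fun _ => Prs.empty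
    | insert u S huS ih =>
      intro hS
      have hc := Finset.card_le_card hS
      rw [Finset.card_insert_of_notMem huS] at hc
      refine (ih fun z hz => hS (Finset.mem_insert_of_mem hz)).insert huS ?_
      have := hE u (hS (Finset.mem_insert_self _ _))
      omega
  exact key E subset_rfl

/-- choice of attached vertices with disjoint pairs of neighbours -/
theorem exists_att' : ∀ (m : ℕ) (Z : Finset V), (∀ v ∈ B, m ≤ (Z.filter (G.Adj v)).card) →
    18 * Z.card < B.card → ∃ E ⊆ Z, E.card = m ∧ Prs G B E 15 ∧
      ∀ u ∈ E, 19 ≤ (B.filter (G.Adj u)).card := by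
  intro m
  induction m with
  | zero => exact fun Z _ _ => ⟨∅, Finset.empty_subset _, rfl, Prs.empty, by simp⟩
  | succ m ih =>
    intro Z hZ hB
    obtain ⟨u, hu, huc⟩ : ∃ u ∈ Z, 19 + 2 * m ≤ (B.filter (G.Adj u)).card := by
      by_contra hno
      push Not at hno
      have h1 : ∀ v ∈ B, m + 1 ≤ (Finset.bipartiteAbove G.Adj Z v).card := hZ
      have h2 : ∀ z ∈ Z, (Finset.bipartiteBelow G.Adj B z).card ≤ 18 + 2 * m := by
        intro z hz
        have h3 := hno z hz
        have h4 : Finset.bipartiteBelow G.Adj B z = B.filter (G.Adj z) := by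
          ext v
          rw [Finset.mem_bipartiteBelow, Finset.mem_filter, G.adj_comm]
        rw [h4]
        omega
      have h3 := Finset.sum_card_bipartiteAbove_eq_sum_card_bipartiteBelow (s := B) (t := Z) G.Adj
      have h4 := Finset.sum_le_card_nsmul _ _ _ h2
      have h5 := Finset.card_nsmul_le_sum B _ _ h1
      rw [h3] at h5
      have h6 := h5.trans h4
      rw [smul_eq_mul, smul_eq_mul] at h6
      have h7 : Z.card * (18 + 2 * m) ≤ 18 * Z.card * (m + 1) := by
        have : 18 * Z.card * (m + 1) = Z.card * (18 + 18 * m) := by ring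
        rw [this]
        exact Nat.mul_le_mul_left _ (by omega)
      have h8 : 18 * Z.card * (m + 1) < B.card * (m + 1) :=
        Nat.mul_lt_mul_of_pos_right hB (Nat.succ_pos _)
      omega
    obtain ⟨E, hE, hEc, hEp, hEd⟩ := ih (Z.erase u) (fun v hv => by
      have h1 := hZ v hv
      have h2 : Z.filter (G.Adj v) ⊆ Insert.insert u ((Z.erase u).filter (G.Adj v)) := by
        intro z hz
        rw [Finset.mem_filter] at hz
        rw [Finset.mem_insert, Finset.mem_filter, Finset.mem_erase]
        by_cases hzu : z = u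
        · exact Or.inl hzu
        · exact Or.inr ⟨⟨hzu, hz.1⟩, hz.2⟩
      have h3 := (Finset.card_le_card h2).trans (Finset.card_insert_le _ _)
      omega) (by
      have := Finset.card_le_card (Finset.erase_subset u Z)
      omega)
    have huE : u ∉ E := fun g => (Finset.mem_erase.1 (hE g)).1 rfl
    refine ⟨Insert.insert u E, fun z hz => ?_, ?_, hEp.insert huE (by omega), fun z hz => ?_⟩
    · rcases Finset.mem_insert.1 hz with rfl | hz
      · exact hu
      · exact Finset.mem_of_mem_erase (hE hz)
    · rw [Finset.card_insert_of_notMem huE, hEc]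
    · rcases Finset.mem_insert.1 hz with rfl | hz
      · omega
      · exact hEd z hz

variable [Fintype V]

theorem NA.xbp' (h : NA G B E w 19 e) (hp : Prs G B E 15)
    (hB : 2 * (13 + 4 * e) + 4 * w + 12 ≤ B.card) : XB (RB G B) (B ∪ E) 5 11 := by
  refine ⟨fun F hF x hx y hy hxF hyF => h.short2s (by omega) (by omega) hx hy hxF hyF,
    fun F hF x hx y hy hxF hyF hxy => ?_⟩
  obtain ⟨l, h1, h2⟩ := h.cover2p hp hx hy hxF hyF hxy (by omega) (by omega) (by omega)
  refine ⟨l, h1, ?_⟩
  have h3 := Finset.card_sdiff_add_card_inter (B ∪ E) F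
  have h4 := Finset.card_le_card (Finset.inter_subset_right (s₁ := B ∪ E) (s₂ := F))
  omega

end Run7.h807
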