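import Mathlib
import Pool.Agent.Run7.h807.Sa1

set_option autoImplicit false

namespace Run7.h807.S

variable {V : Type*} {G : SimpleGraph V}

/-- a near-clique with few outer neighbours -/
structure NCk (G : SimpleGraph V) (d κ β : ℕ) (B Z : Finset V) : Prop where
  ne : B.Nonempty
  part : Part G B Z
  zc : Z.card ≤ κ
  big : B.card ≤ d + β

/-- size conditions -/
structure Big (d κ β : ℕ) : Prop where
  lin : 19 * κ ≤ d ∧ 9 * κ + 100 ≤ d ∧ 4 * κ + 3 * β + 150 ≤ d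

variable [DecidableEq V] [DecidableRel G.Adj]

/-- outer neighbours with several neighbours in `B` -/
def Za (G : SimpleGraph V) [DecidableRel G.Adj] (_d : ℕ) (B Z : Finset V) : Finset V :=
  Zat G B Z 19

theorem mem_za {d : ℕ} {B Z : Finset V} {z : V} :
    z ∈ Za G d B Z ↔ z ∈ Z ∧ 19 ≤ (B.filter (G.Adj z)).card := by
  unfold Za
  exact mem_zat

variable {d κ β : ℕ}

theorem NCk.size [Fintype V] (hdeg : ∀ v, d ≤ G.degree v) {B Z : Finset V}
    (h : NCk G d κ β B Z) : d + 1 ≤ B.card + κ := by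
  have h1 := (h.part.deg hdeg).2 h.ne
  have h2 := h.zc
  omega

theorem NCk.na [Fintype V] (hdeg : ∀ v, d ≤ G.degree v) {B Z : Finset V}
    (h : NCk G d κ β B Z) {E : Finset V} (hE : E ⊆ Za G d B Z)
    (hEc : E.card ≤ d + 1 - B.card + 2) :
    NA G B E (B.card + κ - d) 19 (d + 1 - B.card + 2) := by
  have hD := h.part.deg hdeg
  refine ⟨fun z hz hz' => h.part.1 z hz (mem_za.1 (hE hz')).1, fun v hv => ?_,
    fun v hv => (mem_za.1 (hE hv)).2, hEc⟩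
  have h1 := hD.1 v hv
  have h2 := h.zc
  have h3 := h.big
  omega

theorem NCk.xb [Fintype V] (hdeg : ∀ v, d ≤ G.degree v) (hd : Big d κ β)
    {B Z : Finset V} (h : NCk G d κ β B Z) {E : Finset V} (hE : E ⊆ Za G d B Z)
    (hEc : E.card ≤ d + 1 - B.card + 2) (hp : Prs G B E 15) : XB (RB G B) (B ∪ E) 5 11 := by
  have h1 := h.size hdeg
  have h2 := hd.lin
  have h3 := h.big
  exact (h.na hdeg hE hEc).xbp' hp (by omega)

theorem NCk.xb2 [Fintype V] (hdeg : ∀ v, d ≤ G.degree v) (hd : Big d κ β)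
    {B Z : Finset V} (h : NCk G d κ β B Z) {E : Finset V} (hE : E ⊆ Za G d B Z)
    (hEc : E.card ≤ 2) : XB (RB G B) (B ∪ E) 5 11 :=
  h.xb hdeg hd hE (by omega) (prs_small' (fun u hu => (mem_za.1 (hE hu)).2) hEc)

theorem NCk.xb0 [Fintype V] (hdeg : ∀ v, d ≤ G.degree v) (hd : Big d κ β)
    {B Z : Finset V} (h : NCk G d κ β B Z) : XB (RB G B) (B ∪ ∅) 5 20 := by
  have h1 := h.size hdeg
  have h2 := hd.lin
  have h3 := h.big
  have h4 := h.na hdeg (E := ∅) (Finset.empty_subset _) (by simp)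
  have h5 : NA G B ∅ (B.card + κ - d) 28 (d + 1 - B.card + 2) :=
    ⟨h4.dis, h4.dense, fun v hv => by simp at hv, h4.ec⟩
  exact h5.xbp Prs.empty (by omega)

/-- exact two-blob argument for near-cliques -/
theorem exact_false [Fintype V] (hdeg : ∀ v, d ≤ G.degree v) (hd : Big d κ β)
    (h2 : Two G)
    {σ : Sym2 V → ZMod 2} {t : ZMod 2} {L : ℕ} {l : List V} (hl : Cyc G σ (t + 1) l)
    (hU : Uni G (L + 1) σ t) (hL3 : 3 ≤ L) {B1 Z1 B2 Z2 E1 E2 : Finset V}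
    (h1 : NCk G d κ β B1 Z1) (h2' : NCk G d κ β B2 Z2) (hE1 : E1 ⊆ Za G d B1 Z1)
    (hE2 : E2 ⊆ Za G d B2 Z2) (hE1c : E1.card ≤ d + 1 - B1.card + 2)
    (hE2c : E2.card ≤ d + 1 - B2.card + 2) (hp1 : Prs G B1 E1 15) (hp2 : Prs G B2 E2 15)
    {p q : Fin 3 → V} {Lg : Fin 3 → List V}
    (hLg : Legs G.Adj (B1 ∪ E1) (B2 ∪ E2) p q Lg)
    (hm : L + 1 ≤ (B1 ∪ E1).card + (B2 ∪ E2).card)
    {πA πB : V → ZMod 2}
    (hπA : ∀ x ∈ B1 ∪ E1, ∀ y ∈ B1 ∪ E1, RB G B1 x y → σ s(x, y) = πA x + πA y)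
    (hπB : ∀ x ∈ B2 ∪ E2, ∀ y ∈ B2 ∪ E2, RB G B2 x y → σ s(x, y) = πB x + πB y) : False := by
  obtain ⟨ht, π, hπ⟩ := two_exact h2 hLg (fun a b hab => hab.1) (fun a b hab => hab.1)
    (h1.xb hdeg hd hE1 hE1c hp1) (h2'.xb hdeg hd hE2 hE2c hp2) hU (by omega) hm (by omega) (by omega)
    (by omega) (by omega) hπA hπB
  subst ht
  rw [zero_add] at hl
  exact bal_no_cyc hπ hl

/-- neighbours in the boundary -/
theorem NCk.out [Fintype V] (hdeg : ∀ v, d ≤ G.degree v) {B Z : Finset V}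
    (h : NCk G d κ β B Z) {C : Finset V} : ∀ v ∈ B, d + 1 - B.card - C.card ≤
      ((Z \ C).filter (G.Adj v)).card := by
  intro v hv
  have h2 := hdeg v
  rw [← SimpleGraph.card_neighborFinset_eq_degree] at h2
  have hsub : G.neighborFinset v ⊆ B.erase v ∪ (C ∪ (Z \ C).filter (G.Adj v)) := by
    intro z hz
    rw [SimpleGraph.mem_neighborFinset] at hz
    rw [Finset.mem_union, Finset.mem_union, Finset.mem_erase, Finset.mem_filter,
      Finset.mem_sdiff]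
    rcases h.part.2 v hv z hz with g | g
    · exact Or.inl ⟨hz.ne', g⟩
    · by_cases hzz : z ∈ C
      · exact Or.inr (Or.inl hzz)
      · exact Or.inr (Or.inr ⟨⟨g, hzz⟩, hz⟩)
  have h3 := (Finset.card_le_card hsub).trans (Finset.card_union_le _ _)
  have h5 := Finset.card_union_le C ((Z \ C).filter (G.Adj v))
  have h4 := Finset.card_erase_add_one hv
  omega

/-- choice of the attached vertices -/
theorem choose_att [Fintype V] (hdeg : ∀ v, d ≤ G.degree v) (hd : Big d κ β)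
    {B1 Z1 B2 Z2 : Finset V} (h1 : NCk G d κ β B1 Z1) (h2 : NCk G d κ β B2 Z2) {s : ℕ}
    (hs : s ≤ 3) (hcom : (Za G d B1 Z1 ∩ Za G d B2 Z2).card ≤ s) :
    ∃ E1 E2, E1 ⊆ Za G d B1 Z1 ∧ E2 ⊆ Za G d B2 Z2 ∧ (∀ z ∈ E1, z ∉ E2) ∧
      E1.card ≤ d + 1 - B1.card + 2 ∧ E2.card ≤ d + 1 - B2.card + 2 ∧
      2 * d + 2 ≤ B1.card + E1.card + (B2.card + E2.card) + s ∧ Prs G B1 E1 15 ∧
      Prs G B2 E2 15 := by
  have hdl := hd.lin
  have g1 := h1.size hdeg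
  have g2 := h2.size hdeg
  have k1 := h1.zc
  have k2 := h2.zc
  obtain ⟨C, hC⟩ : ∃ C, C = Za G d B1 Z1 ∩ Za G d B2 Z2 := ⟨_, rfl⟩
  rw [← hC] at hcom
  obtain ⟨E1, hE1, hE1c, hE1p, hE1d⟩ := exists_att' (d + 1 - B1.card) Z1 (fun v hv => by
    have := h1.out hdeg (C := ∅) v hv
    rwa [Finset.card_empty, Finset.sdiff_empty, Nat.sub_zero] at this) (by omega)
  obtain ⟨E2, hE2, hE2c, hE2p, hE2d⟩ := exists_att' (d + 1 - B2.card - C.card) (Z2 \ C)
    (h2.out hdeg) (by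
      have := Finset.card_le_card (Finset.sdiff_subset (s := Z2) (t := C))
      omega)
  have hE1s : E1 ⊆ Za G d B1 Z1 := fun z hz => mem_za.2 ⟨hE1 hz, hE1d z hz⟩
  have hE2s : E2 ⊆ Za G d B2 Z2 := fun z hz =>
    mem_za.2 ⟨(Finset.mem_sdiff.1 (hE2 hz)).1, hE2d z hz⟩
  refine ⟨E1, E2, hE1s, hE2s, fun z hz hz' => ?_, by omega, by omega, by omega, hE1p, hE2p⟩
  refine (Finset.mem_sdiff.1 (hE2 hz')).2 ?_
  rw [hC, Finset.mem_inter]
  exact ⟨hE1s hz, hE2s hz'⟩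

/-- two near-cliques with at most two common attached vertices -/
theorem pair2_false [Fintype V] (hdeg : ∀ v, d ≤ G.degree v) (hd : Big d κ β)
    (h2 : Two G)
    (hconn : ∀ S : Finset V, S.card < 3 → (G.induce ((↑S : Set V)ᶜ)).Connected)
    {σ : Sym2 V → ZMod 2} {t : ZMod 2} {L : ℕ} {l : List V} (hl : Cyc G σ (t + 1) l)
    (hU : Uni G (L + 1) σ t) (hL2 : L + 2 ≤ 2 * d) (hL3 : 3 ≤ L) {B1 Z1 B2 Z2 : Finset V}
    (h1 : NCk G d κ β B1 Z1) (h2' : NCk G d κ β B2 Z2) (hdis : ∀ x ∈ B1, x ∉ B2)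
    (hna : ∀ a ∈ B1, ∀ b ∈ B2, ¬ G.Adj a b)
    (hcom : (Za G d B1 Z1 ∩ Za G d B2 Z2).card ≤ 2) : False := by
  classical
  have hdl := hd.lin
  obtain ⟨E1, E2, hE1s, hE2s, hE12, hE1c, hE2c, hsum, hp1, hp2⟩ := choose_att hdeg hd h1 h2' (by norm_num)
    hcom
  have hN1 := h1.na hdeg hE1s hE1c
  have hN2 := h2'.na hdeg hE2s hE2c
  have hX1 := h1.xb hdeg hd hE1s hE1c hp1
  have hX2 := h2'.xb hdeg hd hE2s hE2c hp2
  have hs1 := h1.size hdeg
  have hs2 := h2'.size hdeg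
  have hb1 := h1.big
  have hb2 := h2'.big
  have hdAB : ∀ z ∈ B1 ∪ E1, z ∉ B2 ∪ E2 := by
    intro z hz hz'
    rw [Finset.mem_union] at hz hz'
    rcases hz with hz | hz <;> rcases hz' with hz' | hz'
    · exact hdis z hz hz'
    · obtain ⟨b, hb, hzb, -⟩ := hN2.nb hz' (F := ∅) (by simp)
      exact hna z hz b hb hzb
    · obtain ⟨b, hb, hzb, -⟩ := hN1.nb hz (F := ∅) (by simp)
      exact hna b hb z hz' hzb.symm
    · exact hE12 z hz hz'
  have hcA : (B1 ∪ E1).card = B1.card + E1.card :=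
    Finset.card_union_of_disjoint (Finset.disjoint_left.2 hN1.dis)
  have hcB : (B2 ∪ E2).card = B2.card + E2.card :=
    Finset.card_union_of_disjoint (Finset.disjoint_left.2 hN2.dis)
  have hmm : L + 2 ≤ (B1 ∪ E1).card + (B2 ∪ E2).card := by omega
  obtain ⟨p, q, Lg, hLg⟩ := exists_legs hconn (P := B1 ∪ E1) (Q := B2 ∪ E2) (by omega) (by omega)
    hdAB
  have hR : ∀ a b, G.Adj a b → G.Adj b a := fun a b hab => hab.symm
  have hC1 : Cst G σ (B1 ∪ E1) p ((B1 ∪ E1).card - 1) := by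
    intro i j hij l l' hl hl' g1 g2
    obtain ⟨b, hb, hbl⟩ := hX2.cover0 (hLg.qB j) (hLg.qB i) (hLg.qinj j i hij.symm)
    have hb' : Pth G.Adj {z | z ∈ B2 ∪ E2} (q j) (q i) b := hb.imp fun a b _ _ hab => hab.1
    have e1 := hLg.close hU (by omega) (by omega) hij hl hb' g1 hbl
    have e2 := hLg.close hU (by omega) (by omega) hij hl' hb' g2 hbl
    rw [← e2] at e1
    linear_combination e1
  have hs := hLg.swap hR
  have hC2 : Cst G σ (B2 ∪ E2) q ((B2 ∪ E2).card - 1) := by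
    intro i j hij l l' hl hl' g1 g2
    obtain ⟨b, hb, hbl⟩ := hX1.cover0 (hLg.pA j) (hLg.pA i) (hLg.pinj j i hij.symm)
    have hb' : Pth G.Adj {z | z ∈ B1 ∪ E1} (p j) (p i) b := hb.imp fun a b _ _ hab => hab.1
    have e1 := hs.close hU (by omega) (by omega) hij hl hb' g1 hbl
    have e2 := hs.close hU (by omega) (by omega) hij hl' hb' g2 hbl
    rw [← e2] at e1
    linear_combination e1
  obtain ⟨πA, hπA⟩ := hN1.pot1s hX1 (by omega) (by omega) (by omega) hC1 hLg.pA hLg.pinj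
  obtain ⟨πB, hπB⟩ := hN2.pot1s hX2 (by omega) (by omega) (by omega) hC2 hLg.qB hLg.qinj
  exact exact_false hdeg hd h2 hl hU hL3 h1 h2' hE1s hE2s hE1c hE2c hp1 hp2 hLg (by omega) hπA hπB

end Run7.h807.S
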