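import Mathlib
import Pool.Agent.Run7.h807.St2

set_option autoImplicit false

namespace Run7.h807.S

variable {V : Type*} {G : SimpleGraph V} [DecidableEq V] [DecidableRel G.Adj] [Fintype V]
  {d κ β : ℕ} {B Z : Fin 3 → Finset V}

omit [Fintype V] [DecidableRel G.Adj] in
theorem pick_out {X : Finset V} {n : ℕ} (h : n < X.card) {F : Finset V} (hF : F.card ≤ n) :
    ∃ x ∈ X, x ∉ F := Finset.exists_mem_notMem_of_card_lt_card (lt_of_le_of_lt hF h)

theorem fin3_others (i : Fin 3) : ∃ j k : Fin 3, i ≠ j ∧ j ≠ k ∧ i ≠ k := by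
  fin_cases i
  · exact ⟨1, 2, by decide, by decide, by decide⟩
  · exact ⟨0, 2, by decide, by decide, by decide⟩
  · exact ⟨0, 1, by decide, by decide, by decide⟩

/-- a potential on each extended near-clique -/
theorem Trio.pot (h : Trio G d κ β B Z) (hdeg : ∀ v, d ≤ G.degree v) (hd : Big d κ β)
    {σ : Sym2 V → ZMod 2} {t : ZMod 2} {L : ℕ} (hU : Uni G (L + 1) σ t) (hL2 : L + 2 ≤ 2 * d)
    (hC : ∀ i j, i ≠ j → 2 < (Za G d (B i) (Z i) ∩ Za G d (B j) (Z j)).card)
    (i : Fin 3) : ∃ s : V → ZMod 2, ∀ x ∈ B i ∪ Za G d (B i) (Z i),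
      ∀ y ∈ B i ∪ Za G d (B i) (Z i), RB G (B i) x y → σ s(x, y) = s x + s y := by
  have hdl := hd.lin
  classical
  obtain ⟨j, k, hij, hjk, hik⟩ := fin3_others i
  obtain ⟨At, hAt⟩ : ∃ At : Fin 3 → Finset V, At = fun i => Za G d (B i) (Z i) := ⟨_, rfl⟩
  have hAti : ∀ i, Za G d (B i) (Z i) = At i := fun i => by rw [hAt]
  simp only [hAti] at hC ⊢
  have hoff : ∀ {a : Fin 3} {z : V}, z ∈ At a → ∀ b, z ∉ B b := fun {a z} hz b => by
    rw [← hAti] at hz
    exact h.off hz b
  have hnb : ∀ {a : Fin 3} {z : V}, z ∈ At a → ∀ {F : Finset V}, F.card < 19 →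
      ∃ b ∈ B a, G.Adj z b ∧ b ∉ F := fun {a z} hz {F} hF => by
    rw [← hAti] at hz
    exact zat_nb hz hF
  obtain ⟨z, hz, -⟩ := pick_out (hC i j hij) (F := ∅) (by simp)
  obtain ⟨c, hc, hcF⟩ := pick_out (hC j k hjk) (F := {z}) (by simp)
  obtain ⟨z', hz', hz'F⟩ := pick_out (hC k i (fun g => hik g.symm)) (F := {z, c})
    Finset.card_le_two
  rw [Finset.mem_inter] at hz hc hz'
  rw [Finset.mem_singleton] at hcF
  rw [Finset.mem_insert, Finset.mem_singleton, not_or] at hz'F
  obtain ⟨l1, l2, -, -, hM, hMl⟩ := h.mpath hdeg hd hjk (z := z) (c := c) (z' := z')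
    (by rw [hAti]; exact hz.2) (by rw [hAti]; exact hc.1) (by rw [hAti]; exact hc.2)
    (by rw [hAti]; exact hz'.1) (fun g => hcF g.symm) (fun g => hz'F.2 g.symm)
    (fun g => hz'F.1 g.symm)
  obtain ⟨M, hMdef⟩ : ∃ M, M = l1 ++ l2.tail := ⟨_, rfl⟩
  rw [← hMdef] at hM hMl
  have hpotE : ∀ E : Finset V, E ⊆ At i \ {z, c, z'} → E = ∅ → ∃ π : V → ZMod 2,
      ∀ x ∈ B i ∪ E, ∀ y ∈ B i ∪ E, G.Adj x y → σ s(x, y) = π x + π y := by
    intro E hE hE1
    have hEs : E ⊆ Za G d (B i) (Z i) := by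
      rw [hAti]
      exact hE.trans Finset.sdiff_subset
    have hX : XB (RB G (B i)) (B i ∪ E) 5 20 := by
      rw [hE1]
      exact (h.cl i).xb0 hdeg hd
    have hsi := (h.cl i).size hdeg
    have hsj := (h.cl j).size hdeg
    have hsk := (h.cl k).size hdeg
    -- terminals
    obtain ⟨p, hp, hzp, -⟩ := hnb hz.1 (F := ∅) (by simp)
    obtain ⟨q, hq, hzq, hqF⟩ := hnb hz.1 (F := {p}) (by simp)
    obtain ⟨p', hp', hzp', hp'F⟩ := hnb hz'.2 (F := {p, q}) (lt_of_le_of_lt Finset.card_le_two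
      (by norm_num))
    obtain ⟨q', hq', hzq', hq'F⟩ := hnb hz'.2 (F := {p, q, p'}) (lt_of_le_of_lt Finset.card_le_three
      (by norm_num))
    rw [Finset.mem_singleton] at hqF
    rw [Finset.mem_insert, Finset.mem_singleton, not_or] at hp'F
    rw [Finset.mem_insert, Finset.mem_insert, Finset.mem_singleton, not_or, not_or] at hq'F
    have hA : ∀ w ∈ B i ∪ E, w ∉ M := by
      intro w hw hw'
      rw [Finset.mem_union] at hw
      rcases hM.mem w hw' with a | a | a | a | a
      · rcases hw with hw | hw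
        · exact h.dis i j hij w hw a
        · exact h.off (hEs hw) j a
      · rcases hw with hw | hw
        · exact h.dis i k hik w hw a
        · exact h.off (hEs hw) k a
      · rcases hw with hw | hw
        · exact hoff hz.1 i (a ▸ hw)
        · have hw := Finset.mem_sdiff.1 (hE hw)
          exact hw.2 (by simp [a])
      · rcases hw with hw | hw
        · exact hoff hc.1 i (a ▸ hw)
        · have hw := Finset.mem_sdiff.1 (hE hw)
          exact hw.2 (by simp [a])
      · rcases hw with hw | hw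
        · exact hoff hz'.1 i (a ▸ hw)
        · have hw := Finset.mem_sdiff.1 (hE hw)
          exact hw.2 (by simp [a])
    have hBA : (B i).card ≤ (B i ∪ E).card := Finset.card_le_card Finset.subset_union_left
    have hcst : ∀ u w, G.Adj z u → G.Adj z' w → u ≠ w → ∀ l l',
        Pth G.Adj {x | x ∈ B i ∪ E} u w l → Pth G.Adj {x | x ∈ B i ∪ E} u w l' →
        (B i ∪ E).card ≤ l.length + 20 → (B i ∪ E).card ≤ l'.length + 20 → ls σ l = ls σ l' := by
      intro u w hu hw huw l l' hl hl' g1 g2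
      have e1 := close3 hU hM hA hl hu.symm hw.symm huw (by omega)
      have e2 := close3 hU hM hA hl' hu.symm hw.symm huw (by omega)
      rw [← e2] at e1
      linear_combination e1
    have hcst' : ∀ u w, G.Adj z u → G.Adj z' w → u ≠ w → ∀ l l',
        Pth G.Adj {x | x ∈ B i ∪ E} w u l → Pth G.Adj {x | x ∈ B i ∪ E} w u l' →
        (B i ∪ E).card ≤ l.length + 20 → (B i ∪ E).card ≤ l'.length + 20 → ls σ l = ls σ l' := by
      intro u w hu hw huw l l' hl hl' g1 g2
      have hR : ∀ a b, G.Adj a b → G.Adj b a := fun a b h => h.symm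
      have := hcst u w hu hw huw _ _ (hl.rev hR) (hl'.rev hR) (by rw [List.length_reverse]; exact g1)
        (by rw [List.length_reverse]; exact g2)
      rwa [ls_reverse, ls_reverse] at this
    refine blob_potG (σ := σ) (T := fun u w => (u = p ∧ w = p') ∨ (u = p' ∧ w = p) ∨
        (u = q ∧ w = q') ∨ (u = q' ∧ w = q)) (Tm := {p, p', q, q'}) (fun a b hab => hab.1) hX
      (by
        rintro u w (⟨rfl, rfl⟩ | ⟨rfl, rfl⟩ | ⟨rfl, rfl⟩ | ⟨rfl, rfl⟩)
        · exact hcst _ _ hzp hzp' (fun g => hp'F.1 g.symm)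
        · exact hcst' _ _ hzp hzp' (fun g => hp'F.1 g.symm)
        · exact hcst _ _ hzq hzq' (fun g => hq'F.2.1 g.symm)
        · exact hcst' _ _ hzq hzq' (fun g => hq'F.2.1 g.symm))
      Finset.card_le_four (by
        intro u hu
        simp only [Finset.mem_insert, Finset.mem_singleton] at hu
        rw [Finset.mem_union]
        rcases hu with rfl | rfl | rfl | rfl
        · exact Or.inl hp
        · exact Or.inl hp'
        · exact Or.inl hq
        · exact Or.inl hq') (by
        rintro u w (⟨rfl, rfl⟩ | ⟨rfl, rfl⟩ | ⟨rfl, rfl⟩ | ⟨rfl, rfl⟩)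
        · exact ⟨by simp, by simp, fun g => hp'F.1 g.symm⟩
        · exact ⟨by simp, by simp, hp'F.1⟩
        · exact ⟨by simp, by simp, fun g => hq'F.2.1 g.symm⟩
        · exact ⟨by simp, by simp, hq'F.2.1⟩) (by
        intro v
        by_cases hv : p = v ∨ p' = v
        · refine ⟨q, q', Or.inr (Or.inr (Or.inl ⟨rfl, rfl⟩)), ?_, ?_⟩
          · rcases hv with rfl | rfl
            · exact hqF
            · exact fun g => hp'F.2 g.symm
          · rcases hv with rfl | rfl
            · exact hq'F.1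
            · exact hq'F.2.2
        · rw [not_or] at hv
          exact ⟨p, p', Or.inl ⟨rfl, rfl⟩, hv.1, hv.2⟩) (by
        intro x hx y hy hxy
        simp only [Finset.mem_insert, Finset.mem_singleton] at hx hy
        rcases hx with rfl | rfl | rfl | rfl
        · rcases hy with rfl | rfl | rfl | rfl
          · exact absurd rfl hxy
          · exact Or.inl ⟨q, q', Or.inr (Or.inr (Or.inl ⟨rfl, rfl⟩)), hqF, fun g => hp'F.2 g.symm,
              hq'F.1, hq'F.2.2⟩
          · exact Or.inr (Or.inl ⟨p', Or.inl ⟨rfl, rfl⟩, hp'F.2⟩)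
          · exact Or.inr (Or.inl ⟨p', Or.inl ⟨rfl, rfl⟩, fun g => hq'F.2.2 g.symm⟩)
        · rcases hy with rfl | rfl | rfl | rfl
          · exact Or.inl ⟨q, q', Or.inr (Or.inr (Or.inl ⟨rfl, rfl⟩)), fun g => hp'F.2 g.symm, hqF,
              hq'F.2.2, hq'F.1⟩
          · exact absurd rfl hxy
          · exact Or.inr (Or.inl ⟨p, Or.inr (Or.inl ⟨rfl, rfl⟩), fun g => hqF g.symm⟩)
          · exact Or.inr (Or.inl ⟨p, Or.inr (Or.inl ⟨rfl, rfl⟩), fun g => hq'F.1 g.symm⟩)
        · rcases hy with rfl | rfl | rfl | rfl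
          · exact Or.inr (Or.inl ⟨q', Or.inr (Or.inr (Or.inl ⟨rfl, rfl⟩)), hq'F.1⟩)
          · exact Or.inr (Or.inl ⟨q', Or.inr (Or.inr (Or.inl ⟨rfl, rfl⟩)), hq'F.2.2⟩)
          · exact absurd rfl hxy
          · exact Or.inl ⟨p, p', Or.inl ⟨rfl, rfl⟩, fun g => hqF g.symm, fun g => hq'F.1 g.symm,
              hp'F.2, fun g => hq'F.2.2 g.symm⟩
        · rcases hy with rfl | rfl | rfl | rfl
          · exact Or.inr (Or.inl ⟨q, Or.inr (Or.inr (Or.inr ⟨rfl, rfl⟩)), hqF⟩)
          · exact Or.inr (Or.inl ⟨q, Or.inr (Or.inr (Or.inr ⟨rfl, rfl⟩)), fun g => hp'F.2 g.symm⟩)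
          · exact Or.inl ⟨p, p', Or.inl ⟨rfl, rfl⟩, fun g => hq'F.1 g.symm, fun g => hqF g.symm,
              fun g => hq'F.2.2 g.symm, hp'F.2⟩
          · exact absurd rfl hxy)
      (by omega) (by omega) (by omega)
  obtain ⟨π, hπ⟩ := hpotE ∅ (Finset.empty_subset _) rfl
  have hπB : ∀ x ∈ B i, ∀ y ∈ B i, G.Adj x y → σ s(x, y) = π x + π y := fun x hx y hy =>
    hπ x (Finset.mem_union_left _ hx) y (Finset.mem_union_left _ hy)
  -- connectors
  have cw : ∀ (a b : Fin 3), i ≠ a → a ≠ b → i ≠ b → ∀ w, w ∈ At a → ∀ p1 ∈ B i, ∀ p2 ∈ B i,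
      G.Adj w p1 → G.Adj w p2 → σ s(w, p1) + π p1 = σ s(w, p2) + π p2 := by
    intro a b hia hab hib w hw p1 hp1 p2 hp2 hwp1 hwp2
    obtain ⟨c1, hc1, hc1F⟩ := pick_out (hC a b hab) (F := {w}) (by simp)
    obtain ⟨z1, hz1, hz1F⟩ := pick_out (hC b i (fun g => hib g.symm)) (F := {w, c1})
      Finset.card_le_two
    rw [Finset.mem_inter] at hc1 hz1
    rw [Finset.mem_singleton] at hc1F
    rw [Finset.mem_insert, Finset.mem_singleton, not_or] at hz1F
    exact h.conn_const hdeg hd hU hL2 hia hab hib (z := w) (c := c1) (z' := z1)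
      (by rw [hAti]; exact hw) (by rw [hAti]; exact hc1.1) (by rw [hAti]; exact hc1.2)
      (by rw [hAti]; exact hz1.1) (by rw [hAti]; exact hz1.2) (fun g => hc1F g.symm)
      (fun g => hz1F.2 g.symm) (fun g => hz1F.1 g.symm) hπB hp1 hp2 hwp1 hwp2
  have cw' : ∀ w ∈ ({z, c, z'} : Finset V), ∀ p1 ∈ B i, ∀ p2 ∈ B i,
      G.Adj w p1 → G.Adj w p2 → σ s(w, p1) + π p1 = σ s(w, p2) + π p2 := by
    intro w hw
    simp only [Finset.mem_insert, Finset.mem_singleton] at hw
    rcases hw with rfl | rfl | rfl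
    · exact cw j k hij hjk hik _ hz.2
    · exact cw j k hij hjk hik _ hc.1
    · exact cw k j hik (fun g => hjk g.symm) hij _ hz'.1
  have cw2 : ∀ w ∈ At i, ∀ p1 ∈ B i, ∀ p2 ∈ B i,
      G.Adj w p1 → G.Adj w p2 → σ s(w, p1) + π p1 = σ s(w, p2) + π p2 := by
    intro w hw p1 hp1 p2 hp2 hwp1 hwp2
    by_cases hwT : w ∈ ({z, c, z'} : Finset V)
    · exact cw' w hwT p1 hp1 p2 hp2 hwp1 hwp2
    by_cases hpp : p1 = p2
    · rw [hpp]
    have hX0 := (h.cl i).xb0 hdeg hd
    have hsi := (h.cl i).size hdeg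
    have hsj := (h.cl j).size hdeg
    have hsk := (h.cl k).size hdeg
    obtain ⟨u, hu, hzu, huF⟩ := hnb hz.1 (F := {p1, p2}) (lt_of_le_of_lt Finset.card_le_two
      (by norm_num))
    obtain ⟨u', hu', hzu', hu'F⟩ := hnb hz'.2 (F := {p1, p2, u}) (lt_of_le_of_lt
      Finset.card_le_three (by norm_num))
    rw [Finset.mem_insert, Finset.mem_singleton, not_or] at huF
    rw [Finset.mem_insert, Finset.mem_insert, Finset.mem_singleton, not_or, not_or] at hu'F
    have mB : ∀ q ∈ B i, q ∈ B i ∪ (∅ : Finset V) := fun q hq => Finset.mem_union_left _ hq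
    have mB' : ∀ q, q ∈ B i ∪ (∅ : Finset V) → q ∈ B i := fun q hq => by
      rwa [Finset.union_empty] at hq
    obtain ⟨S, hS, hSl⟩ := hX0.short {p2, u'} (Finset.card_le_two.trans (by norm_num)) u (mB u hu)
      p1 (mB p1 hp1) (by
        simp only [Finset.mem_insert, Finset.mem_singleton, not_or]
        exact ⟨huF.2, fun g => hu'F.2.2 g.symm⟩) (by
        simp only [Finset.mem_insert, Finset.mem_singleton, not_or]
        exact ⟨hpp, fun g => hu'F.1 g.symm⟩)
    have hSm : ∀ q ∈ S, q ∈ B i ∧ q ≠ p2 ∧ q ≠ u' := by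
      intro q hq
      have := hS.mem q hq
      have h2 := this.2
      simp only [Finset.mem_insert, Finset.mem_singleton, not_or] at h2
      exact ⟨mB' q this.1, h2.1, h2.2⟩
    have hSc : S.toFinset.card ≤ 5 := (List.toFinset_card_le S).trans hSl
    obtain ⟨l, hl, hll⟩ := hX0.cover S.toFinset (hSc.trans (by norm_num)) p2 (mB p2 hp2) u'
      (mB u' hu') (fun g => (hSm _ (List.mem_toFinset.1 g)).2.1 rfl)
      (fun g => (hSm _ (List.mem_toFinset.1 g)).2.2 rfl) (fun g => hu'F.2.1 g.symm)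
    have hlm : ∀ q ∈ l, q ∈ B i ∧ q ∉ S := by
      intro q hq
      have := hl.mem q hq
      exact ⟨mB' q this.1, fun g => this.2 (List.mem_toFinset.2 g)⟩
    obtain ⟨l0, hl0, hl0l⟩ := hX0.cover0 (mB u hu) (mB u' hu') (fun g => hu'F.2.2 g.symm)
    have hwB : w ∉ B i := hoff hw i
    have hS' : Pth G.Adj {q | q ∈ B i} u p1 S := (hS.imp fun a b _ _ hab => hab.1).mono
      fun q hq _ => (hSm q hq).1
    have hl' : Pth G.Adj {q | q ∈ B i} p2 u' l := (hl.imp fun a b _ _ hab => hab.1).mono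
      fun q hq _ => (hlm q hq).1
    have hl0' : Pth G.Adj {q | q ∈ B i} u u' l0 := (hl0.imp fun a b _ _ hab => hab.1).mono
      fun q _ hq => mB' q hq
    obtain ⟨A, hAdef⟩ : ∃ A, A = B i ∪ {w} := ⟨_, rfl⟩
    have hAm : ∀ q, q ∈ A ↔ q ∈ B i ∨ q = w := fun q => by
      rw [hAdef, Finset.mem_union, Finset.mem_singleton]
    have k1 : Pth G.Adj {q | q ∈ A} u p1 S := hS'.mono fun q _ hq => (hAm q).2 (Or.inl hq)
    have k2 : Pth G.Adj {q | q ∈ A} p1 p2 [p1, w, p2] := three_list hwp1.symm hwp2 hpp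
      ((hAm p1).2 (Or.inl hp1)) ((hAm w).2 (Or.inr rfl)) ((hAm p2).2 (Or.inl hp2))
    have k3 : Pth G.Adj {q | q ∈ A} p2 u' l := hl'.mono fun q _ hq => (hAm q).2 (Or.inl hq)
    have j1 := k1.join k2 (fun q hq hq' => by
      simp only [List.mem_cons, List.not_mem_nil, or_false] at hq'
      rcases hq' with g | g | g
      · exact g
      · exact absurd (g ▸ (hSm q hq).1) hwB
      · exact absurd g (hSm q hq).2.1)
    have j2 := j1.join k3 (fun q hq hq' => by
      rcases k1.join_mem k2 hq with g | g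
      · exact absurd g (hlm q hq').2
      · simp only [List.mem_cons, List.not_mem_nil, or_false] at g
        rcases g with g | g | g
        · exact absurd (g ▸ hS'.memv) (hlm q hq').2
        · exact absurd (g ▸ (hlm q hq').1) hwB
        · exact g)
    have hAM : ∀ q ∈ A, q ∉ M := by
      intro q hq hq'
      rcases (hAm q).1 hq with g | g
      · rcases hM.mem q hq' with a | a | a | a | a
        · exact h.dis i j hij q g a
        · exact h.dis i k hik q g a
        · exact hoff hz.1 i (a ▸ g)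
        · exact hoff hc.1 i (a ▸ g)
        · exact hoff hz'.1 i (a ▸ g)
      · subst g
        simp only [Finset.mem_insert, Finset.mem_singleton, not_or] at hwT
        rcases hM.mem q hq' with a | a | a | a | a
        · exact hoff hw j a
        · exact hoff hw k a
        · exact hwT.1 a
        · exact hwT.2.1 a
        · exact hwT.2.2 a
    have huu' : u ≠ u' := fun g => hu'F.2.2 g.symm
    have n1 := k1.join_len k2
    have n2 := j1.join_len k3
    simp only [List.length_cons, List.length_nil] at n1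
    have e1 := close3 hU hM hAM (j2.mono fun q _ hq => by
      rcases hq with (g | g) | g
      · exact g
      · exact g
      · exact g) hzu.symm hzu'.symm huu' (by
      have := k1.pos
      have c1 : (B i).card ≤ (B i ∪ (∅ : Finset V)).card :=
        Finset.card_le_card Finset.subset_union_left
      omega)
    have e0 := close3 hU hM hAM (hl0'.mono fun q _ hq => (hAm q).2 (Or.inl hq)) hzu.symm
      hzu'.symm huu' (by
      have c1 : (B i).card ≤ (B i ∪ (∅ : Finset V)).card :=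
        Finset.card_le_card Finset.subset_union_left
      omega)
    rw [j1.join_ls σ k3, k1.join_ls σ k2, pth_ls (pth_cons (fun q hq => hq) hπB hS'),
      pth_ls (pth_cons (fun q hq => hq) hπB hl')] at e1
    rw [pth_ls (pth_cons (fun q hq => hq) hπB hl0')] at e0
    have e3 : ls σ [p1, w, p2] = σ s(w, p1) + σ s(w, p2) := by
      rw [Sym2.eq_swap (a := w) (b := p1)]
      simp
    rw [e3, ← e0] at e1
    have t3 := two_self (π p2)
    have t4 := two_self (σ s(w, p2))
    linear_combination e1 - t3 - t4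
  obtain ⟨s, hBs, hs2⟩ : ∃ s : V → ZMod 2, (∀ w ∈ B i, s w = π w) ∧
      ∀ w ∈ At i, ∀ p1 ∈ B i, G.Adj w p1 → s w = σ s(w, p1) + π p1 := by
    refine ⟨fun w => if w ∈ B i then π w else
      (if hw : ∃ b, b ∈ B i ∧ G.Adj w b then σ s(w, hw.choose) + π hw.choose else 0),
      fun w hw => if_pos hw, fun w hw p1 hp1 hwp1 => ?_⟩
    have hex : ∃ b, b ∈ B i ∧ G.Adj w b := ⟨p1, hp1, hwp1⟩
    simp only [if_neg (hoff hw i), dif_pos hex]
    exact cw2 w hw _ hex.choose_spec.1 p1 hp1 hex.choose_spec.2 hwp1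
  have hmain : ∀ x ∈ B i ∪ At i, ∀ y ∈ B i, G.Adj x y → σ s(x, y) = s x + s y := by
    intro x hx y hy hxy
    rw [hBs y hy]
    rcases Finset.mem_union.1 hx with hx | hx
    · rw [hBs x hx]
      exact hπB x hx y hy hxy
    · rw [hs2 x hx y hy hxy]
      have := two_self (π y)
      linear_combination -this
  refine ⟨s, fun x hx y hy hxy => ?_⟩
  rcases hxy.2 with g | g
  · rw [Sym2.eq_swap, add_comm]
    exact hmain y hy x g hxy.1.symm
  · exact hmain x hx y g hxy.1

end Run7.h807.S
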