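import Mathlib
import Pool.Agent.Run7.h807.St3

set_option autoImplicit false

namespace Run7.h807.S

variable {V : Type*} {G : SimpleGraph V} [DecidableEq V] [DecidableRel G.Adj] [Fintype V]
  {d κ β : ℕ} {B Z : Fin 3 → Finset V} {σ : Sym2 V → ZMod 2} {t : ZMod 2} {L : ℕ}

/-- at most three common attached vertices, given the potentials -/
theorem Trio.pair3_false (h : Trio G d κ β B Z) (hdeg : ∀ v, d ≤ G.degree v) (hd : Big d κ β)
    (h2 : Two G)
    (hconn : ∀ S : Finset V, S.card < 3 → (G.induce ((↑S : Set V)ᶜ)).Connected)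
    {l : List V} (hl : Cyc G σ (t + 1) l)
    (hU : Uni G (L + 1) σ t) (hL2 : L + 2 ≤ 2 * d) (hL3 : 3 ≤ L) {i j : Fin 3} (hij : i ≠ j)
    {sA sB : V → ZMod 2}
    (hsA : ∀ x ∈ B i ∪ Za G d (B i) (Z i), ∀ y ∈ B i ∪ Za G d (B i) (Z i),
      RB G (B i) x y → σ s(x, y) = sA x + sA y)
    (hsB : ∀ x ∈ B j ∪ Za G d (B j) (Z j), ∀ y ∈ B j ∪ Za G d (B j) (Z j),
      RB G (B j) x y → σ s(x, y) = sB x + sB y)
    (hcom : (Za G d (B i) (Z i) ∩ Za G d (B j) (Z j)).card ≤ 3) : False := by
  have hdl := hd.lin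
  classical
  obtain ⟨E1, E2, hE1s, hE2s, hE12, hE1c, hE2c, hsum, hp1, hp2⟩ := choose_att hdeg hd (h.cl i) (h.cl j)
    (by norm_num) hcom
  have hs1 := (h.cl i).size hdeg
  have hs2 := (h.cl j).size hdeg
  have hdAB : ∀ z ∈ B i ∪ E1, z ∉ B j ∪ E2 := by
    intro z hz hz'
    rw [Finset.mem_union] at hz hz'
    rcases hz with hz | hz <;> rcases hz' with hz' | hz'
    · exact h.dis i j hij z hz hz'
    · exact h.off (hE2s hz') i hz
    · exact h.off (hE1s hz) j hz'
    · exact hE12 z hz hz'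
  have hcA : (B i ∪ E1).card = (B i).card + E1.card :=
    Finset.card_union_of_disjoint (Finset.disjoint_left.2 fun z hz hz' => h.off (hE1s hz') i hz)
  have hcB : (B j ∪ E2).card = (B j).card + E2.card :=
    Finset.card_union_of_disjoint (Finset.disjoint_left.2 fun z hz hz' => h.off (hE2s hz') j hz)
  obtain ⟨p, q, Lg, hLg⟩ := exists_legs hconn (P := B i ∪ E1) (Q := B j ∪ E2) (by omega) (by omega)
    hdAB
  exact exact_false hdeg hd h2 hl hU hL3 (h.cl i) (h.cl j) hE1s hE2s hE1c hE2c hp1 hp2 hLg (by omega)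
    (fun x hx y hy => hsA x (Finset.union_subset_union subset_rfl hE1s hx) y
      (Finset.union_subset_union subset_rfl hE1s hy))
    (fun x hx y hy => hsB x (Finset.union_subset_union subset_rfl hE2s hx) y
      (Finset.union_subset_union subset_rfl hE2s hy))

/-- potentials on the extended near-cliques -/
def Pots (G : SimpleGraph V) [DecidableRel G.Adj] (d : ℕ) (σ : Sym2 V → ZMod 2)
    (B Z : Fin 3 → Finset V)
    (s : Fin 3 → V → ZMod 2) : Prop :=
  ∀ i, ∀ x ∈ B i ∪ Za G d (B i) (Z i), ∀ y ∈ B i ∪ Za G d (B i) (Z i),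
    RB G (B i) x y → σ s(x, y) = s i x + s i y

omit [Fintype V] in
theorem Pots.ls_eq {s : Fin 3 → V → ZMod 2} (hs : Pots G d σ B Z s) {i : Fin 3} {u v : V}
    (hu : u ∈ B i ∨ u ∈ Za G d (B i) (Z i)) (hv : v ∈ B i ∨ v ∈ Za G d (B i) (Z i))
    {S : Set V} (hS : ∀ w ∈ S, w ∈ B i ∨ w = u ∨ w = v) {l : List V}
    (h : Pth (RB G (B i)) S u v l) : ls σ l = s i u + s i v := by
  refine pth_ls (pth_rcons (G := G) (A := B i ∪ Za G d (B i) (Z i)) (fun w hw => ?_)
    (fun a b hab => hab.1) (hs i) h)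
  rw [Finset.mem_union]
  rcases hS w hw with g | g | g
  · exact Or.inl g
  · rw [g]; exact hu
  · rw [g]; exact hv

/-- the relation around the triangle of near-cliques -/
theorem Trio.rel3 (h : Trio G d κ β B Z) (hdeg : ∀ v, d ≤ G.degree v) (hd : Big d κ β)
    (hU : Uni G (L + 1) σ t) (hL2 : L + 2 ≤ 2 * d) {s : Fin 3 → V → ZMod 2}
    (hs : Pots G d σ B Z s) {i j k : Fin 3} (hij : i ≠ j) (hjk : j ≠ k) (hik : i ≠ k) {z c z' : V}
    (hzi : z ∈ Za G d (B i) (Z i)) (hzj : z ∈ Za G d (B j) (Z j))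
    (hcj : c ∈ Za G d (B j) (Z j)) (hck : c ∈ Za G d (B k) (Z k))
    (hz'k : z' ∈ Za G d (B k) (Z k)) (hz'i : z' ∈ Za G d (B i) (Z i)) (hzc : z ≠ c)
    (hcz' : c ≠ z') (hzz' : z ≠ z') :
    (s i z + s j z) + (s j c + s k c) + (s k z' + s i z') = t := by
  have hdl := hd.lin
  obtain ⟨l1, l2, h1, h2, hM, hMl⟩ := h.mpath hdeg hd hjk hzj hcj hck hz'k hzc hcz' hzz'
  obtain ⟨l0, h0, h0l⟩ := ((h.cl i).seg hdeg hd (Or.inr hz'i) (Or.inr hzi) (F := ∅) (by simp)
    (by simp) (by simp)).1 (fun g => hzz' g.symm)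
  have h0' : Pth (RB G (B i)) {w | w ∈ B i ∨ w = z' ∨ w = z} z' z l0 := h0.mono fun w _ hw => by
    rcases hw with hw | hw
    · exact Or.inl hw.1
    · exact Or.inr hw
  have g0 : Pth G.Adj {w | w ∈ B i ∨ w = z' ∨ w = z} z' z l0 := h0'.imp fun a b _ _ hab => hab.1
  have hsi := (h.cl i).size hdeg
  have hsj := (h.cl j).size hdeg
  have hsk := (h.cl k).size hdeg
  simp only [Finset.card_empty, add_zero] at h0l
  have e := hU.close hM g0 hzz' (fun w hw hw' => by
    rcases g0.mem w hw' with a | a | a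
    · exfalso
      rcases hM.mem w hw with b | b | b | b | b
      · exact h.dis i j hij w a b
      · exact h.dis i k hik w a b
      · exact h.off hzi i (b ▸ a)
      · exact h.off hcj i (b ▸ a)
      · exact h.off hz'i i (b ▸ a)
    · exact Or.inr a
    · exact Or.inl a) (by omega) (by omega)
  have g1 : Pth G.Adj {w | w ∈ B j ∨ w = z ∨ w = c} z c l1 := h1.imp fun a b _ _ hab => hab.1
  have g2 : Pth G.Adj {w | w ∈ B k ∨ w = c ∨ w = z'} c z' l2 := h2.imp fun a b _ _ hab => hab.1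
  rw [g1.join_ls σ g2, hs.ls_eq (Or.inr hzj) (Or.inr hcj) (fun w hw => hw) h1,
    hs.ls_eq (Or.inr hck) (Or.inr hz'k) (fun w hw => hw) h2,
    hs.ls_eq (Or.inr hz'i) (Or.inr hzi) (fun w hw => hw) h0'] at e
  rw [← e]
  ring

/-- the relation for a cycle visiting one near-clique twice -/
theorem Trio.rel4 (h : Trio G d κ β B Z) (hdeg : ∀ v, d ≤ G.degree v) (hd : Big d κ β)
    (hU : Uni G (L + 1) σ t) (hL2 : L + 2 ≤ 2 * d) {s : Fin 3 → V → ZMod 2}
    (hs : Pots G d σ B Z s) {i j k : Fin 3} (hij : i ≠ j) (hjk : j ≠ k) (hik : i ≠ k)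
    {z w c c' : V}
    (hzi : z ∈ Za G d (B i) (Z i)) (hzj : z ∈ Za G d (B j) (Z j))
    (hwi : w ∈ Za G d (B i) (Z i)) (hwj : w ∈ Za G d (B j) (Z j))
    (hcj : c ∈ Za G d (B j) (Z j)) (hck : c ∈ Za G d (B k) (Z k))
    (hc'j : c' ∈ Za G d (B j) (Z j)) (hc'k : c' ∈ Za G d (B k) (Z k))
    (hzw : z ≠ w) (hcc' : c ≠ c') (hzc : z ≠ c) (hzc' : z ≠ c') (hwc : w ≠ c) (hwc' : w ≠ c') :
    (s i z + s j z) + (s i w + s j w) + (s j c + s k c) + (s j c' + s k c') = t := by
  have hdl := hd.lin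
  -- short path in `B j` from `z` to `c`
  obtain ⟨S, hS, hSl⟩ := ((h.cl j).seg hdeg hd (Or.inr hzj) (Or.inr hcj) (F := ∅) (by simp)
    (by simp) (by simp)).2
  have hS' : Pth (RB G (B j)) {x | x ∈ B j ∨ x = z ∨ x = c} z c S := hS.mono fun x _ hx => by
    rcases hx with hx | hx
    · exact Or.inl hx.1
    · exact Or.inr hx
  obtain ⟨l2, h2, h2l⟩ := ((h.cl k).seg hdeg hd (Or.inr hck) (Or.inr hc'k) (F := ∅) (by simp)
    (by simp) (by simp)).1 hcc'
  have h2' : Pth (RB G (B k)) {x | x ∈ B k ∨ x = c ∨ x = c'} c c' l2 := h2.mono fun x _ hx => by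
    rcases hx with hx | hx
    · exact Or.inl hx.1
    · exact Or.inr hx
  have hSc := List.toFinset_card_le S
  have hnS : ∀ x, x ∉ B j → x ≠ z → x ≠ c → x ∉ S.toFinset := by
    intro x h1 h2 h3 h4
    rcases hS'.mem x (List.mem_toFinset.1 h4) with g | g | g
    · exact h1 g
    · exact h2 g
    · exact h3 g
  obtain ⟨l3, h3, h3l⟩ := ((h.cl j).seg hdeg hd (Or.inr hc'j) (Or.inr hwj) (F := S.toFinset)
    (by omega) (hnS c' (h.off hc'j j) (fun g => hzc' g.symm) (fun g => hcc' g.symm))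
    (hnS w (h.off hwj j) (fun g => hzw g.symm) hwc)).1 (fun g => hwc' g.symm)
  obtain ⟨l0, h0, h0l⟩ := ((h.cl i).seg hdeg hd (Or.inr hwi) (Or.inr hzi) (F := ∅) (by simp)
    (by simp) (by simp)).1 (fun g => hzw g.symm)
  have h0' : Pth (RB G (B i)) {x | x ∈ B i ∨ x = w ∨ x = z} w z l0 := h0.mono fun x _ hx => by
    rcases hx with hx | hx
    · exact Or.inl hx.1
    · exact Or.inr hx
  have g0 : Pth G.Adj {x | x ∈ B i ∨ x = w ∨ x = z} w z l0 := h0'.imp fun a b _ _ hab => hab.1
  have gS : Pth G.Adj {x | x ∈ B j ∨ x = z ∨ x = c} z c S := hS'.imp fun a b _ _ hab => hab.1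
  have g2 : Pth G.Adj {x | x ∈ B k ∨ x = c ∨ x = c'} c c' l2 := h2'.imp fun a b _ _ hab => hab.1
  have g3 : Pth G.Adj {x | (x ∈ B j ∧ x ∉ S.toFinset) ∨ x = c' ∨ x = w} c' w l3 :=
    h3.imp fun a b _ _ hab => hab.1
  have J1 := gS.join g2 (fun x hx hx' => by
    rcases gS.mem x hx with a | a | a
    · rcases g2.mem x hx' with b | b | b
      · exact absurd b (h.dis j k hjk x a)
      · exact b
      · exact absurd (b ▸ a) (h.off hc'j j)
    · rcases g2.mem x hx' with b | b | b
      · exact absurd (a ▸ b) (h.off hzj k)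
      · exact b
      · exact absurd (a.symm.trans b) hzc'
    · exact a)
  have J2 := J1.join g3 (fun x hx hx' => by
    rcases gS.join_mem g2 hx with a | a
    · exfalso
      rcases g3.mem x hx' with b | b | b
      · exact b.2 (List.mem_toFinset.2 a)
      · rcases gS.mem x a with e | e | e
        · exact h.off hc'j j (b ▸ e)
        · exact hzc' (e.symm.trans b)
        · exact hcc' (e.symm.trans b)
      · rcases gS.mem x a with e | e | e
        · exact h.off hwj j (b ▸ e)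
        · exact hzw (e.symm.trans b)
        · exact hwc (b.symm.trans e)
    · rcases g2.mem x a with e | e | e
      · exfalso
        rcases g3.mem x hx' with b | b | b
        · exact h.dis j k hjk x b.1 e
        · exact h.off hc'j k (b ▸ e)
        · exact h.off hwj k (b ▸ e)
      · exfalso
        rcases g3.mem x hx' with b | b | b
        · exact h.off hcj j (e ▸ b.1)
        · exact hcc' (e.symm.trans b)
        · exact hwc (b.symm.trans e)
      · exact e)
  have hsi := (h.cl i).size hdeg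
  have hsj := (h.cl j).size hdeg
  have hsk := (h.cl k).size hdeg
  simp only [Finset.card_empty, add_zero] at h0l h2l
  have e := hU.close J2 g0 hzw (fun x hx hx' => by
    rcases g0.mem x hx' with a | a | a
    · exfalso
      rcases J1.join_mem g3 hx with b | b
      · rcases gS.join_mem g2 b with b | b
        · rcases gS.mem x b with e | e | e
          · exact h.dis i j hij x a e
          · exact h.off hzi i (e ▸ a)
          · exact h.off hcj i (e ▸ a)
        · rcases g2.mem x b with e | e | e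
          · exact h.dis i k hik x a e
          · exact h.off hcj i (e ▸ a)
          · exact h.off hc'j i (e ▸ a)
      · rcases g3.mem x b with e | e | e
        · exact h.dis i j hij x a e.1
        · exact h.off hc'j i (e ▸ a)
        · exact h.off hwi i (e ▸ a)
    · exact Or.inr a
    · exact Or.inl a) (by
      have a1 := gS.join_len g2
      have a2 := J1.join_len g3
      have a3 := gS.pos
      omega) (by
      have a1 := gS.join_len g2
      have a2 := J1.join_len g3
      have a3 := gS.pos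
      omega)
  rw [J1.join_ls σ g3, gS.join_ls σ g2, hs.ls_eq (Or.inr hzj) (Or.inr hcj) (fun w hw => hw) hS',
    hs.ls_eq (Or.inr hck) (Or.inr hc'k) (fun w hw => hw) h2',
    hs.ls_eq (Or.inr hc'j) (Or.inr hwj) (fun x hx => by
      rcases hx with g | g
      · exact Or.inl g.1
      · exact Or.inr g) h3,
    hs.ls_eq (Or.inr hwi) (Or.inr hzi) (fun w hw => hw) h0'] at e
  rw [← e]
  ring

end Run7.h807.S
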