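import Mathlib
import Pool.Agent.Run7.h807.Ss

set_option autoImplicit false

namespace Run7.h807

variable {V : Type*} {G : SimpleGraph V}

/-- a long cycle in a set of large minimum degree -/
theorem core_cycle0 [Fintype V] [DecidableEq V] [DecidableRel G.Adj] (σ : Sym2 V → ZMod 2) {h : ℕ}
    (hh : 2 ≤ h) (S : Finset V)
    (hne : S.Nonempty) (hS : ∀ v ∈ S, h ≤ (S.filter (G.Adj v)).card) :
    ∃ s l, Cyc G σ s l ∧ (∀ z ∈ l, z ∈ S) ∧ h + 1 ≤ l.length := by
  classical
  obtain ⟨v, hv⟩ := hne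
  obtain ⟨P, hPn, hPc, hPR, hPne, hPmax⟩ := exists_max_path (G := G) (R := fun z => z ∈ S)
    (v := v) hv
  obtain ⟨u, q, hPq⟩ : ∃ u q, P = u :: q := by
    cases P with
    | nil => exact absurd rfl hPne
    | cons u q => exact ⟨u, q, rfl⟩
  have hlen : 0 < P.length := by rw [hPq]; simp
  obtain ⟨Z, hZ⟩ : ∃ Z : ℕ → V, ∀ k (hk : k < P.length), Z k = P[k] :=
    ⟨fun k => P.getD k u, fun k hk => by simp [List.getD_eq_getElem?_getD, hk]⟩
  have hZ0 : Z 0 = u := by
    rw [hZ 0 hlen]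
    simp [hPq]
  have hseg : ∀ i n, i + n ≤ P.length → seg Z i n = (P.drop i).take n := by
    intro i n hin
    refine List.ext_getElem (by rw [seg_length, List.length_take, List.length_drop]; omega)
      fun j h1 h2 => ?_
    rw [seg_length] at h1
    simp only [seg, List.getElem_map, List.getElem_range, List.getElem_take, List.getElem_drop]
    exact hZ _ (by omega)
  have hsn : ∀ i n, i + n ≤ P.length → (seg Z i n).Nodup := fun i n hin => by
    rw [hseg i n hin]
    exact hPn.sublist ((List.take_sublist _ _).trans (List.drop_sublist _ _))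
  have hsc : ∀ i n, i + n ≤ P.length → (seg Z i n).IsChain G.Adj := fun i n hin => by
    rw [hseg i n hin]
    exact (hPc.drop i).take n
  have hZS : ∀ k, k < P.length → Z k ∈ S := fun k hk => by
    rw [hZ k hk]; exact hPR _ (List.getElem_mem hk)
  set I : Finset ℕ := (Finset.range P.length).filter (fun i => G.Adj u (Z i)) with hI
  have hIc : h ≤ I.card := by
    refine (hS u (by rw [← hZ0]; exact hZS 0 hlen)).trans ?_
    have hsub : S.filter (G.Adj u) ⊆ I.image Z := by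
      intro z hz
      rw [Finset.mem_filter] at hz
      have hzP : z ∈ P := by
        by_contra hzP
        have := hPmax (z :: P) (List.nodup_cons.2 ⟨hzP, hPn⟩) (by
          rw [hPq, List.isChain_cons_cons, ← hPq]
          exact ⟨hz.2.symm, hPc⟩) (by
          intro y hy
          rcases List.mem_cons.1 hy with rfl | hy
          · exact hz.1
          · exact hPR y hy)
        simp only [List.length_cons] at this
        omega
      obtain ⟨k, hk, rfl⟩ := List.getElem_of_mem hzP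
      rw [Finset.mem_image]
      refine ⟨k, ?_, hZ k hk⟩
      rw [hI, Finset.mem_filter, Finset.mem_range]
      exact ⟨hk, by rw [hZ k hk]; exact hz.2⟩
    exact (Finset.card_le_card hsub).trans Finset.card_image_le
  have hImem : ∀ i ∈ I, 1 ≤ i ∧ i < P.length ∧ G.Adj u (Z i) := by
    intro i hi
    rw [hI, Finset.mem_filter, Finset.mem_range] at hi
    refine ⟨?_, hi.1, hi.2⟩
    rcases Nat.eq_zero_or_pos i with rfl | h0
    · rw [hZ0] at hi
      exact absurd rfl hi.2.ne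
    · exact h0
  have hIne : I.Nonempty := Finset.card_pos.1 (by omega)
  have hmax := I.max'_mem hIne
  have hsub : I ⊆ Finset.Icc 1 (I.max' hIne) := fun x hx =>
    Finset.mem_Icc.2 ⟨(hImem x hx).1, I.le_max' x hx⟩
  have hcard := Finset.card_le_card hsub
  rw [Nat.card_Icc] at hcard
  obtain ⟨i, hi⟩ : ∃ i, i = I.max' hIne := ⟨_, rfl⟩
  rw [← hi] at hmax hcard
  obtain ⟨m1, m2, m3⟩ := hImem _ hmax
  refine ⟨_, seg Z 0 (i + 1), ⟨hsn _ _ (by omega), hsc _ _ (by omega), by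
    rw [seg_length]; omega, Z 0, Z i, seg_head _ _ _, by rw [seg_last, Nat.zero_add], by
    rw [hZ0]; exact m3.symm, rfl⟩, ?_, by rw [seg_length]; omega⟩
  intro z hz
  obtain ⟨k, hk, rfl⟩ := mem_seg.1 hz
  rw [Nat.zero_add]
  exact hZS k (by omega)

/-- widely spaced positions -/
theorem one_count {q L M : ℕ} (hM : 0 < M) (a : Fin q → ℕ)
    (ha : ∀ i, a i < L) (hinj : ∀ i j, i ≠ j → a i ≠ a j)
    (hsep : ∀ i j, a i < a j → a i + M ≤ a j) : q ≤ (L - 1) / M + 1 := by
  classical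
  have hmaps : ∀ i ∈ (Finset.univ : Finset (Fin q)), a i / M ∈ Finset.range ((L - 1) / M + 1) := by
    intro i _
    rw [Finset.mem_range, Nat.lt_succ_iff]
    exact Nat.div_le_div_right (by have := ha i; omega)
  have hdiv : ∀ i j, a i < a j → a i / M ≠ a j / M := by
    intro i j hlt heq
    have h1 := Nat.div_le_div_right (c := M) (hsep i j hlt)
    rw [Nat.add_div_right _ hM] at h1
    omega
  have hinj' : Set.InjOn (fun i => a i / M) (Finset.univ : Finset (Fin q)) := by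
    intro i _ j _ hij
    by_contra hne
    rcases lt_or_gt_of_ne (hinj i j hne) with h | h
    · exact hdiv i j h hij
    · exact hdiv j i h hij.symm
  have := Finset.card_le_card_of_injOn _ hmaps hinj'
  rwa [Finset.card_range, Finset.card_univ, Fintype.card_fin] at this

theorem phi_pes_off {x y : V} {X : ℕ → V} : ∀ {a : ℕ},
    (∀ j < a, s(X j, X (j + 1)) ≠ s(x, y)) → phi (pes x y) X 0 a = 0
  | 0, _ => rfl
  | a + 1, h => by
    change phi (pes x y) X 0 a + pes x y s(X a, X (a + 1)) = 0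
    rw [phi_pes_off (fun j hj => h j (by omega)), zero_add]
    unfold pes
    rw [if_neg (h a (by omega))]

theorem pes_zero {x y u w : V} (h : x ≠ u) (h' : y ≠ u) : pes x y s(u, w) = 0 := by
  unfold pes
  rw [if_neg]
  intro he
  rcases Sym2.eq_iff.1 he with ⟨g, -⟩ | ⟨g, -⟩
  · exact h g.symm
  · exact h' g.symm

theorem Top.dp_bound1 [DecidableEq V] {S : Set V} {x y : V} {L c : ℕ} {X Y : ℕ → V}
    (h : Top (PE G S x y) (pes x y) 1 L X) (hX0 : s(X (L - 1), X 0) = s(x, y)) {μ : ℕ}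
    (hY : Rim (PE G S x y) c Y) (hoff : ∀ i j, X i ≠ Y j) (hμ : 2 * μ ≤ c + 1) {q : ℕ}
    (hDP : DP (PE G S x y) ((Finset.range c).image Y) ((Finset.range L).image X) q) :
    q ≤ (L - 1) / (μ + 2) + 1 := by
  obtain ⟨P, hP, hPd⟩ := hDP
  have hL3 := h.rim.three
  have htrim : ∀ i, ∃ e T u a, Conn (PE G S x y) X Y e T u a ∧ e < c ∧ a < L ∧
      (∀ z ∈ Y e :: T, z ∈ P i) ∧ X a ∈ P i := by
    intro i
    obtain ⟨h1, h2, ⟨y, hy, h3⟩, ⟨x, hx, h4⟩⟩ := hP i
    rw [Finset.mem_image] at hy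
    rw [Finset.mem_image] at hx
    obtain ⟨e, _, he⟩ := hy
    obtain ⟨a, _, ha⟩ := hx
    exact trim_path h.rim hY h1 h2 h3 h4 ⟨e, he⟩ ⟨a, ha⟩ hoff
  choose e T u a hconnP he ha hmem hXmem using htrim
  -- `x` and `y` are on the rim `X`
  have hxX : ∃ k, X k = x := by
    rcases Sym2.eq_iff.1 hX0 with ⟨g, -⟩ | ⟨-, g⟩
    · exact ⟨_, g⟩
    · exact ⟨_, g⟩
  have hyX : ∃ k, X k = y := by
    rcases Sym2.eq_iff.1 hX0 with ⟨-, g⟩ | ⟨g, -⟩
    · exact ⟨_, g⟩
    · exact ⟨_, g⟩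
  have hYx : ∀ k, x ≠ Y k := fun k g => by
    obtain ⟨j, hj⟩ := hxX
    exact hoff j k (hj.trans g)
  have hYy : ∀ k, y ≠ Y k := fun k g => by
    obtain ⟨j, hj⟩ := hyX
    exact hoff j k (hj.trans g)
  have hYphi : ∀ k, phi (pes x y) Y 0 k = 0 := fun k => phi_pes_off fun j _ he => by
    rcases Sym2.eq_iff.1 he with ⟨g, -⟩ | ⟨g, -⟩
    · exact hYx j g.symm
    · exact hYy j g.symm
  have hXphi : ∀ k < L, phi (pes x y) X 0 k = 0 := fun k hk => phi_pes_off fun j hj he => by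
    rw [← hX0] at he
    rcases Sym2.eq_iff.1 he with ⟨g, -⟩ | ⟨g, g'⟩
    · have := h.rim.inj j (L - 1) (by omega) (by omega) g
      omega
    · have h1 := h.rim.inj j 0 (by omega) (by omega) g
      have h2 := h.rim.inj (j + 1) (L - 1) (by omega) (by omega) g'
      omega
  have hcol : ∀ i, ls (pes x y) (Y (e i) :: T i) + phi (pes x y) Y 0 (e i) +
      cs (pes x y) X (u i) (a i) = 0 := by
    intro i
    have hc := hconnP i
    have hu : u i ∈ Y (e i) :: T i := List.mem_of_getLast? hc.lt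
    obtain ⟨jx, hjx⟩ := hxX
    obtain ⟨jy, hjy⟩ := hyX
    rw [pes_off _ (fun hm => hc.off _ hm jx hjx), hYphi]
    unfold cs
    rw [hXphi _ (ha i), pes_zero (fun g => hc.off _ hu jx (hjx.trans g))
      (fun g => hc.off _ hu jy (hjy.trans g))]
    simp
  refine one_count (by omega) a ha ?_ ?_
  · intro i j hij haa
    refine hPd i j hij _ (hXmem i) ?_
    rw [haa]
    exact hXmem j
  · intro i j hlt
    have hij : i ≠ j := by rintro rfl; omega
    refine h.conn_far hY (hYphi c) hoff (hconnP i) (hconnP j) (he i) (he j) ?_ hμ hlt (ha j) ?_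
    · intro z hz hz'
      exact hPd i j hij z (hmem i z hz) (hmem j z hz')
    · rw [hcol i, hcol j]

/-- long connections in a large robustly connected set -/
theorem sol_longp [Fintype V] [DecidableEq V] [DecidableRel G.Adj] {A F : Finset V}
    {D r k μ ℓ m : ℕ} (hD : ∀ v ∈ A, D ≤ (A.filter (G.Adj v)).card) (hS : Sol G A k)
    (hF : F.card ≤ r) (hk : r + m ≤ k) (hμ : m + 1 ≤ μ) (hμ3 : 3 ≤ μ)
    (hℓμ : ℓ ≤ m * (μ + 2)) (hm : 1 ≤ m)
    (hA : ℓ + r ≤ A.card) (hcore : ℓ + 2 * (2 * μ - 2) + 2 * r ≤ 2 * D + 1) (hDr : r + 3 ≤ D)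
    {x y : V} (hx : x ∈ A)
    (hy : y ∈ A) (hxF : x ∉ F) (hyF : y ∉ F) (hxy : x ≠ y) :
    ∃ l, Pth G.Adj {z | z ∈ A ∧ z ∉ F} x y l ∧ ℓ ≤ l.length := by
  classical
  obtain ⟨S, hSdef⟩ : ∃ S : Set V, S = {z | z ∈ A ∧ z ∉ F} := ⟨_, rfl⟩
  rw [← hSdef]
  have hmS : ∀ z, z ∈ S ↔ z ∈ A ∧ z ∉ F := fun z => by rw [hSdef]; rfl
  have hxS : x ∈ S := (hmS x).2 ⟨hx, hxF⟩
  have hyS : y ∈ S := (hmS y).2 ⟨hy, hyF⟩
  -- a first path with three vertices
  obtain ⟨a, haA, hxa, hay, haF⟩ : ∃ a ∈ A, G.Adj x a ∧ a ≠ y ∧ a ∉ F := by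
    have h1 := hD x hx
    have h2 : (insert y F).card < (A.filter (G.Adj x)).card :=
      lt_of_le_of_lt (Finset.card_insert_le _ _) (by omega)
    obtain ⟨a, ha, haF⟩ := Finset.exists_mem_notMem_of_card_lt_card h2
    rw [Finset.mem_filter] at ha
    rw [Finset.mem_insert, not_or] at haF
    exact ⟨a, ha.1, ha.2, haF.1, haF.2⟩
  obtain ⟨l0, hl0, h30⟩ : ∃ l, Pth G.Adj S x y l ∧ 3 ≤ l.length := by
    obtain ⟨l, hl, -⟩ := exists_short (hS (insert x F)
      ((Finset.card_insert_le _ _).trans (by omega)) a haA y hy (by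
        rw [Finset.mem_insert, not_or]
        exact ⟨hxa.ne', haF⟩) (by
        rw [Finset.mem_insert, not_or]
        exact ⟨hxy.symm, hyF⟩))
    have hxl : x ∉ l := fun h => (hl.mem x h).2 (Finset.mem_insert_self _ _)
    have hl' : Pth G.Adj S a y l := hl.mono fun z _ hz => by
      have := hz.2
      rw [Finset.mem_insert, not_or] at this
      exact (hmS z).2 ⟨hz.1, this.2⟩
    refine ⟨x :: l, ⟨List.nodup_cons.2 ⟨hxl, hl'.nd⟩, ?_, rfl, ?_, ?_⟩, ?_⟩
    · rw [List.isChain_cons]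
      refine ⟨fun w hw => ?_, hl'.ch⟩
      rw [Option.mem_def, hl'.hd, Option.some.injEq] at hw
      subst hw
      exact hxa
    · rw [List.getLast?_cons, hl'.lt]; rfl
    · intro z hz
      rcases List.mem_cons.1 hz with rfl | hz
      · exact hxS
      · exact hl'.mem z hz
    · have := hl'.two hay
      rw [List.length_cons]
      omega
  obtain ⟨l, hl, hmax⟩ := exists_max_cyc ⟨l0, path_cyc hl0 hxy h30⟩
  obtain ⟨X1, hX1⟩ := top_of_cyc hl hmax
  obtain ⟨L, hL⟩ : ∃ L, L = l.length := ⟨_, rfl⟩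
  rw [← hL] at hX1
  obtain ⟨e, he⟩ := rim_edge hX1.tot
  obtain ⟨X, hXdef⟩ : ∃ X : ℕ → V, X = fun k => X1 (k + (e + 1)) := ⟨_, rfl⟩
  have hX : Top (PE G S x y) (pes x y) 1 L X := by rw [hXdef]; exact hX1.shift (e + 1)
  have hL3 := hX.rim.three
  have hX0 : s(X (L - 1), X 0) = s(x, y) := by
    rw [hXdef]
    simp only []
    rw [show L - 1 + (e + 1) = e + L by omega, Nat.zero_add, hX1.rim.per, he]
  have he' : s(X (L - 1), X (L - 1 + 1)) = s(x, y) := by
    have := hX.rim.per 0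
    rw [Nat.zero_add] at this
    rw [show L - 1 + 1 = L by omega, this, hX0]
  obtain ⟨Q, hQ, hQL, hQX⟩ := rim_path hX.rim he'
  by_cases hℓ : ℓ ≤ L
  · exact ⟨Q, hQ, by omega⟩
  exfalso
  push Not at hℓ
  have hQmax : ∀ Q', Pth G.Adj S x y Q' → 3 ≤ Q'.length → Q'.length ≤ L := fun Q' h1 h2 =>
    hX.max Q' (path_cyc h1 hxy h2)
  have hXS : ∀ j, X j ∈ S := fun j => hQ.mem _ ((hQX _).2 ⟨j, rfl⟩)
  -- the rest of `A`
  obtain ⟨R, hR⟩ : ∃ R : Finset V, R = A \ (F ∪ Q.toFinset) := ⟨_, rfl⟩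
  have hRm : ∀ v, v ∈ R ↔ v ∈ A ∧ v ∉ F ∧ v ∉ Q := fun v => by
    rw [hR, Finset.mem_sdiff, Finset.mem_union, List.mem_toFinset, not_or]
  have hRne : R.Nonempty := by
    have h1 : (F ∪ Q.toFinset).card < A.card := by
      have h2 := Finset.card_union_le F Q.toFinset
      have h3 := List.toFinset_card_le Q
      omega
    obtain ⟨v, hv, hv'⟩ := Finset.exists_mem_notMem_of_card_lt_card h1
    exact ⟨v, by rw [hR, Finset.mem_sdiff]; exact ⟨hv, hv'⟩⟩
  have hRX : ∀ v ∈ R, ∀ j, X j ≠ v := fun v hv j hj =>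
    ((hRm v).1 hv).2.2 ((hQX v).2 ⟨j, hj⟩)
  have hdiv : (L - 1) / (μ + 2) < m := by
    rw [Nat.div_lt_iff_lt_mul (by omega)]
    omega
  obtain ⟨v, hv, hvR⟩ : ∃ v ∈ R, (R.filter ((PE G S x y).Adj v)).card < 2 * μ - 2 := by
    by_contra hno
    push Not at hno
    obtain ⟨s0, lY, hlY, hlYS, hlYlen⟩ := core_cycle0 (G := PE G S x y) (pes x y)
      (h := 2 * μ - 2) (by omega) R hRne hno
    obtain ⟨Y, hY, -, hYl⟩ := rim_of_cyc hlY
    obtain ⟨c, hc⟩ : ∃ c, c = lY.length := ⟨_, rfl⟩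
    rw [← hc] at hY hlYlen
    have hoff : ∀ i j, X i ≠ Y j := fun i j => hRX _ (hlYS _ (hYl j)) i
    obtain ⟨Z, hsep, hZc⟩ : ∃ Z, Sepa (PE G S x y) ((Finset.range c).image Y)
        ((Finset.range L).image X) Z ∧ Z.card < (L - 1) / (μ + 2) + 2 := by
      by_contra hcon
      push Not at hcon
      have := hX.dp_bound1 hX0 hY hoff (μ := μ) (by omega) (menger _ _ rfl _ _ _ hcon)
      omega
    have hZ2 : Z.card < L := by
      have h1 := Nat.div_mul_le_self (L - 1) (μ + 2)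
      obtain ⟨a, ha⟩ : ∃ a, a = (L - 1) / (μ + 2) := ⟨_, rfl⟩
      rw [← ha] at h1 hZc
      have h2 : a * 5 ≤ a * (μ + 2) := Nat.mul_le_mul_left _ (by omega)
      omega
    obtain ⟨y0, hy0, hy0Z⟩ := Finset.exists_mem_notMem_of_card_lt_card (s := Z)
      (t := (Finset.range c).image Y) (by rw [rim_card hY]; omega)
    obtain ⟨x0, hx0, hx0Z⟩ := Finset.exists_mem_notMem_of_card_lt_card (s := Z)
      (t := (Finset.range L).image X) (by rw [rim_card hX.rim]; exact hZ2)
    have hy0R : y0 ∈ A ∧ y0 ∉ F ∧ y0 ∉ Q := by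
      obtain ⟨j, -, hj⟩ := Finset.mem_image.1 hy0
      exact (hRm y0).1 (hj ▸ hlYS _ (hYl j))
    obtain ⟨j, -, hj⟩ := Finset.mem_image.1 hx0
    have hx0S := (hmS x0).1 (hj ▸ hXS j)
    obtain ⟨w, hw1, hw2, hw3, hw4⟩ := hS (F ∪ Z) (by
      have := Finset.card_union_le F Z
      omega) y0 hy0R.1 x0 hx0S.1 (by
        rw [Finset.mem_union, not_or]
        exact ⟨hy0R.2.1, hy0Z⟩) (by
        rw [Finset.mem_union, not_or]
        exact ⟨hx0S.2, hx0Z⟩)
    have hw4' : ∀ z ∈ w, z ∈ S ∧ z ∉ Z := by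
      intro z hz
      have := hw4 z hz
      rw [Set.mem_setOf_eq, Finset.mem_union, not_or] at this
      exact ⟨(hmS z).2 ⟨this.1, this.2.1⟩, this.2.2⟩
    obtain ⟨z, hz, hzZ⟩ := hsep w (List.IsChain.imp_of_mem_imp (fun a b ha hb hab =>
      ⟨hab.ne, Or.inl ⟨hab, (hw4' a ha).1, (hw4' b hb).1⟩⟩) hw1) ⟨y0, hy0, hw2⟩ ⟨x0, hx0, hw3⟩
    exact (hw4' z hz).2 hzZ
  have hvm := (hRm v).1 hv
  have hvS : v ∈ S := (hmS v).2 ⟨hvm.1, hvm.2.1⟩
  -- no two consecutive neighbours
  have hcons : Q.IsChain (fun a b => ¬ (G.Adj v a ∧ G.Adj v b)) := by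
    rw [List.isChain_iff_getElem]
    intro i hi hboth
    have h1 := hQ.insert hi hvS hvm.2.2 hboth.1 hboth.2
    have h2 := hQmax _ h1 (by
      rw [List.length_append, List.length_take, List.length_cons, List.length_drop]
      omega)
    rw [List.length_append, List.length_take, List.length_cons, List.length_drop] at h2
    omega
  have hhalf := half_filter Q hcons
  have hdegv := hD v hvm.1
  have hcount : (A.filter (G.Adj v)).card ≤ F.card + (R.filter ((PE G S x y).Adj v)).card +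
      (Q.filter (fun z => decide (G.Adj v z))).length := by
    have hsub : A.filter (G.Adj v) ⊆ (F ∪ R.filter ((PE G S x y).Adj v)) ∪
        (Q.filter (fun z => decide (G.Adj v z))).toFinset := by
      intro z hz
      rw [Finset.mem_filter] at hz
      rw [Finset.mem_union, Finset.mem_union, List.mem_toFinset, List.mem_filter,
        Finset.mem_filter]
      by_cases hzF : z ∈ F
      · exact Or.inl (Or.inl hzF)
      · by_cases hzQ : z ∈ Q
        · exact Or.inr ⟨hzQ, by simpa using hz.2⟩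
        · exact Or.inl (Or.inr ⟨(hRm z).2 ⟨hz.1, hzF, hzQ⟩, hz.2.ne, Or.inl ⟨hz.2, hvS,
            (hmS z).2 ⟨hz.1, hzF⟩⟩⟩)
    refine (Finset.card_le_card hsub).trans ((Finset.card_union_le _ _).trans ?_)
    have h1 := Finset.card_union_le F (R.filter ((PE G S x y).Adj v))
    have h2 := List.toFinset_card_le (Q.filter (fun z => decide (G.Adj v z)))
    omega
  omega

end Run7.h807
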