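import Mathlib
import Pool.Agent.Run7.h807.Us

set_option autoImplicit false

namespace Run7.h807

variable {V : Type*} {G : SimpleGraph V}

section pot

variable [DecidableEq V] {σ : Sym2 V → ZMod 2} {A : Finset V} {p : Fin 3 → V} {ℓ c r : ℕ}

/-- two paths from a terminal to the same vertex have the same sign -/
theorem blob_V (hB : Blob G A ℓ c r) (hC : Cst G σ A p ℓ) (hpA : ∀ i, p i ∈ A) {i j : Fin 3}
    (hij : i ≠ j) {N N' : List V} {v : V} (hN : Pth G.Adj {z | z ∈ A} (p i) v N)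
    (hN' : Pth G.Adj {z | z ∈ A} (p i) v N') (hjN : p j ∉ N) (hjN' : p j ∉ N')
    (hr : N.length + N'.length ≤ r + 2) : ls σ N = ls σ N' := by
  have hcard : ((N ++ N').toFinset.erase v).card ≤ r := by
    have e1 : ((N ++ N').toFinset.erase v) ⊆ N.toFinset.erase v ∪ N'.toFinset.erase v := by
      intro z hz
      rw [Finset.mem_erase, List.mem_toFinset, List.mem_append] at hz
      rw [Finset.mem_union, Finset.mem_erase, Finset.mem_erase, List.mem_toFinset,
        List.mem_toFinset]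
      rcases hz.2 with g | g
      · exact Or.inl ⟨hz.1, g⟩
      · exact Or.inr ⟨hz.1, g⟩
    have e2 := (Finset.card_le_card e1).trans (Finset.card_union_le _ _)
    have e3 := Finset.card_erase_add_one (List.mem_toFinset.2 hN.memv)
    have e4 := Finset.card_erase_add_one (List.mem_toFinset.2 hN'.memv)
    have e5 := List.toFinset_card_le N
    have e6 := List.toFinset_card_le N'
    omega
  obtain ⟨l, hl, hlen⟩ := hB.long _ hcard v (hN.mem v hN.memv) (p j) (hpA j)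
    (by simp) (by
      rw [Finset.mem_erase, List.mem_toFinset, List.mem_append]
      rintro ⟨-, h | h⟩
      · exact hjN h
      · exact hjN' h) (fun h => hjN (h ▸ hN.memv))
  have hout : ∀ z ∈ l, (z ∈ N ∨ z ∈ N') → z = v := by
    intro z hz h
    by_contra hne
    refine (hl.mem z hz).2 ?_
    rw [Finset.mem_erase, List.mem_toFinset, List.mem_append]
    exact ⟨hne, h⟩
  have h2 := hN.join hl (fun z hz hz' => hout z hz' (Or.inl hz))
  have h2' := hN'.join hl (fun z hz hz' => hout z hz' (Or.inr hz))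
  have e := hC i j hij _ _ (h2.mono fun z _ hz => by
      rcases hz with h | h
      · exact h
      · exact h.1) (h2'.mono fun z _ hz => by
      rcases hz with h | h
      · exact h
      · exact h.1) (by
      have := hN.join_len hl
      have := hN.pos
      omega) (by
      have := hN'.join_len hl
      have := hN'.pos
      omega)
  rw [hN.join_ls σ hl, hN'.join_ls σ hl] at e
  linear_combination e

theorem blob_pot' (hB : Blob G A ℓ c r) (hC : Cst G σ A p ℓ) (hpA : ∀ i, p i ∈ A)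
    (hinj : ∀ i j, i ≠ j → p i ≠ p j) (h4 : 4 ≤ A.card) (hr : 2 * c ≤ r) (hc2 : 2 ≤ c) :
    ∃ π : V → ZMod 2, ∀ x ∈ A, ∀ y ∈ A, G.Adj x y → σ s(x, y) = π x + π y := by
  classical
  obtain ⟨T, hT⟩ : ∃ T : Finset V, T = {p 0, p 1, p 2} := ⟨_, rfl⟩
  have hT3 : T.card ≤ 3 := by rw [hT]; exact Finset.card_le_three
  have hpT : ∀ i, p i ∈ T := by
    intro i
    rw [hT]
    fin_cases i <;> simp
  -- well-definedness
  have WD : ∀ (v : V) (N N' : List V), Pth G.Adj {z | z ∈ A} (p 0) v N →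
      Pth G.Adj {z | z ∈ A} (p 0) v N' → N.length ≤ c + 1 → N'.length ≤ c →
      (∀ k, k ≠ 0 → p k ∈ N → p k = v) → (∀ k, k ≠ 0 → p k ∈ N' → p k = v) →
      ls σ N = ls σ N' := by
    intro v N N' hN hN' hl hl' ht ht'
    obtain ⟨j, hj0, hjv⟩ : ∃ j : Fin 3, j ≠ 0 ∧ p j ≠ v := by
      by_cases h1 : p 1 = v
      · exact ⟨2, by decide, fun h => hinj 2 1 (by decide) (h.trans h1.symm)⟩
      · exact ⟨1, by decide, h1⟩
    exact blob_V hB hC hpA (Ne.symm hj0) hN hN' (fun h => hjv (ht j hj0 h))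
      (fun h => hjv (ht' j hj0 h)) (by omega)
  -- short paths from the base
  have hbase : ∀ v ∈ A, ∀ w, w ≠ p 0 → w ≠ v → ∃ N, Pth G.Adj {z | z ∈ A} (p 0) v N ∧
      N.length ≤ c ∧ (∀ k, k ≠ 0 → p k ∈ N → p k = v) ∧ w ∉ N := by
    intro v hv w hw hwv
    obtain ⟨N, hN, hNl⟩ := hB.short (((insert w T).erase v).erase (p 0)) (by
      have h0 := Finset.card_le_card (Finset.erase_subset (p 0) ((insert w T).erase v))
      have h1 := Finset.card_le_card (Finset.erase_subset v (insert w T))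
      have h2 := Finset.card_insert_le w T
      omega) (p 0) (hpA 0) v hv (by simp) (by
      rw [Finset.mem_erase, Finset.mem_erase]
      rintro ⟨-, h, -⟩
      exact h rfl)
    refine ⟨N, hN.mono fun z _ hz => hz.1, hNl, fun k hk0 hk => ?_, fun hwN => ?_⟩
    · by_contra hne
      refine (hN.mem _ hk).2 ?_
      rw [Finset.mem_erase, Finset.mem_erase, Finset.mem_insert]
      exact ⟨hinj k 0 hk0, hne, Or.inr (hpT k)⟩
    · refine (hN.mem _ hwN).2 ?_
      rw [Finset.mem_erase, Finset.mem_erase, Finset.mem_insert]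
      exact ⟨hw, hwv, Or.inl rfl⟩
  have hbase' : ∀ v ∈ A, ∃ N, Pth G.Adj {z | z ∈ A} (p 0) v N ∧ N.length ≤ c ∧
      ∀ k, k ≠ 0 → p k ∈ N → p k = v := by
    intro v hv
    obtain ⟨j, hj0, hjv⟩ : ∃ j : Fin 3, j ≠ 0 ∧ p j ≠ v := by
      by_cases h1 : p 1 = v
      · exact ⟨2, by decide, fun h => hinj 2 1 (by decide) (h.trans h1.symm)⟩
      · exact ⟨1, by decide, h1⟩
    obtain ⟨N, h1, h2, h3, -⟩ := hbase v hv (p j) (hinj j 0 hj0) hjv
    exact ⟨N, h1, h2, h3⟩
  obtain ⟨π, hπ⟩ : ∃ π : V → ZMod 2, ∀ v ∈ A, ∀ N, Pth G.Adj {z | z ∈ A} (p 0) v N →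
      N.length ≤ c + 1 → (∀ k, k ≠ 0 → p k ∈ N → p k = v) → ls σ N = π v := by
    refine ⟨fun v => if h : v ∈ A then ls σ (hbase' v h).choose else 0, fun v hv N hN hNl hNt => ?_⟩
    simp only [dif_pos hv]
    have h1 := (hbase' v hv).choose_spec
    exact WD v _ _ hN h1.1 hNl h1.2.1 hNt h1.2.2
  -- the generic edge
  have hgen : ∀ v ∈ A, ∀ w ∈ A, G.Adj v w → (∀ k, k ≠ 0 → p k ≠ v) → w ≠ p 0 →
      σ s(v, w) = π v + π w := by
    intro v hv w hw hvw hvt hw0
    obtain ⟨N, hN, hNl, hNt, hwN⟩ := hbase v hv w hw0 hvw.ne'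
    have hN2 : Pth G.Adj {z | z ∈ A} v w [v, w] :=
      ⟨by simpa using hvw.ne, by simpa using hvw, rfl, rfl, by
        intro z hz
        simp only [List.mem_cons, List.not_mem_nil, or_false] at hz
        rcases hz with rfl | rfl
        · exact hv
        · exact hw⟩
    have hdisj : ∀ z ∈ N, z ∈ [v, w] → z = v := by
      intro z hz hz'
      simp only [List.mem_cons, List.not_mem_nil, or_false] at hz'
      rcases hz' with rfl | rfl
      · rfl
      · exact absurd hz hwN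
    have hj := hN.join hN2 hdisj
    have e1 := hπ v hv N hN (by omega) hNt
    have e2 := hπ w hw _ (hj.mono fun z _ hz => by
      rcases hz with h | h <;> exact h) (by
      have := hN.join_len hN2
      simp only [List.length_cons, List.length_nil] at this
      omega) (by
      intro k hk0 hk
      rcases hN.join_mem hN2 hk with h | h
      · exact absurd (hNt k hk0 h) (hvt k hk0)
      · simp only [List.mem_cons, List.not_mem_nil, or_false] at h
        rcases h with h | h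
        · exact absurd h (hvt k hk0)
        · exact h)
    rw [hN.join_ls σ hN2, e1] at e2
    rw [← e2]
    have e3 : ls σ [v, w] = σ s(v, w) := by simp
    rw [e3]
    have := two_self (π v)
    linear_combination -this
  have hE0 : ∀ v ∈ A, ∀ w ∈ A, G.Adj v w → (∀ k, k ≠ 0 → p k ≠ v) →
      σ s(v, w) = π v + π w := by
    intro v hv w hw hvw hvt
    by_cases hw0 : w = p 0
    · subst hw0
      rw [Sym2.eq_swap, add_comm]
      exact hgen _ hw v hv hvw.symm (fun k hk => hinj k 0 hk) hvw.ne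
    · exact hgen v hv w hw hvw hvt hw0
  have hE : ∀ v ∈ A, ∀ w ∈ A, G.Adj v w → ((∀ k, k ≠ 0 → p k ≠ v) ∨ (∀ k, k ≠ 0 → p k ≠ w)) →
      σ s(v, w) = π v + π w := by
    intro v hv w hw hvw h
    rcases h with h | h
    · exact hE0 v hv w hw hvw h
    · rw [Sym2.eq_swap, add_comm]
      exact hE0 w hw v hv hvw.symm h
  refine ⟨π, ?_⟩
  intro x hx y hy hxy
  by_cases hcase : (∀ k, k ≠ 0 → p k ≠ x) ∨ (∀ k, k ≠ 0 → p k ≠ y)
  · exact hE x hx y hy hxy hcase
  rw [not_or] at hcase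
  obtain ⟨h1, h2⟩ := hcase
  push Not at h1 h2
  obtain ⟨i, hi0, hi⟩ := h1
  obtain ⟨k, hk0, hk⟩ := h2
  have hik : i ≠ k := by
    rintro rfl
    exact hxy.ne (hi.symm.trans hk)
  have h3 : ∀ m : Fin 3, m ≠ 0 → m = i ∨ m = k := by
    have : ∀ i k m : Fin 3, i ≠ 0 → k ≠ 0 → i ≠ k → m ≠ 0 → m = i ∨ m = k := by decide
    exact fun m hm => this i k m hi0 hk0 hik hm
  have hx0 : x ≠ p 0 := fun g => hinj i 0 hi0 (hi.trans g)
  have hy0 : y ≠ p 0 := fun g => hinj k 0 hk0 (hk.trans g)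
  obtain ⟨u, hu, huT⟩ := Finset.exists_mem_notMem_of_card_lt_card (s := T) (t := A) (by omega)
  have hu0 : u ≠ p 0 := fun g => huT (g ▸ hpT 0)
  have hux : u ≠ x := fun g => huT (g ▸ hi ▸ hpT i)
  have huy : u ≠ y := fun g => huT (g ▸ hk ▸ hpT k)
  obtain ⟨M1, hM1, hM1l⟩ := hB.short {p 0, y} (by
    have := Finset.card_le_two (a := p 0) (b := y)
    omega) x hx u hu (by
    rw [Finset.mem_insert, Finset.mem_singleton, not_or]
    exact ⟨hx0, hxy.ne⟩) (by
    rw [Finset.mem_insert, Finset.mem_singleton, not_or]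
    exact ⟨hu0, huy⟩)
  have hM1m : ∀ z ∈ M1, z ∈ A ∧ z ≠ p 0 ∧ z ≠ y := by
    intro z hz
    have := hM1.mem z hz
    rw [Set.mem_setOf_eq, Finset.mem_insert, Finset.mem_singleton, not_or] at this
    exact this
  obtain ⟨M2, hM2, hM2l⟩ := hB.short (insert (p 0) (M1.toFinset.erase u)) (by
    have e1 := Finset.card_insert_le (p 0) (M1.toFinset.erase u)
    have e2 := Finset.card_erase_add_one (List.mem_toFinset.2 hM1.memv)
    have e3 := List.toFinset_card_le M1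
    omega) u hu y hy (by
    rw [Finset.mem_insert, Finset.mem_erase, not_or]
    exact ⟨hu0, fun g => g.1 rfl⟩) (by
    rw [Finset.mem_insert, Finset.mem_erase, List.mem_toFinset, not_or]
    exact ⟨hy0, fun g => (hM1m y g.2).2.2 rfl⟩)
  have hM2m : ∀ z ∈ M2, z ∈ A ∧ z ≠ p 0 ∧ (z ∈ M1 → z = u) := by
    intro z hz
    have := hM2.mem z hz
    rw [Set.mem_setOf_eq, Finset.mem_insert, Finset.mem_erase, List.mem_toFinset, not_or] at this
    refine ⟨this.1, this.2.1, fun g => ?_⟩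
    by_contra hne
    exact this.2.2 ⟨hne, g⟩
  have hxM1 : x ∈ M1 := List.mem_of_head? hM1.hd
  have hj := hM1.join hM2 (fun z hz hz' => (hM2m z hz').2.2 hz)
  have hj' : Pth G.Adj {z | z ∈ A} x y (M1 ++ M2.tail) := hj.mono fun z _ hz => by
    rcases hz with h | h <;> exact h.1
  have hN2 : Pth G.Adj {z | z ∈ A} x y [x, y] :=
    ⟨by simpa using hxy.ne, by simpa using hxy, rfl, rfl, by
      intro z hz
      simp only [List.mem_cons, List.not_mem_nil, or_false] at hz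
      rcases hz with rfl | rfl
      · exact hx
      · exact hy⟩
  have e := blob_V hB hC hpA (i := i) (j := 0) hi0 (N := [x, y]) (N' := M1 ++ M2.tail) (v := y)
    (hi ▸ hN2) (hi ▸ hj') (by
      simp only [List.mem_cons, List.not_mem_nil, or_false, not_or]
      exact ⟨hx0.symm, hy0.symm⟩) (by
      intro h
      rcases hM1.join_mem hM2 h with g | g
      · exact (hM1m _ g).2.1 rfl
      · exact (hM2m _ g).2.1 rfl) (by
      have := hM1.join_len hM2
      simp only [List.length_cons, List.length_nil]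
      omega)
  rw [hM1.join_ls σ hM2] at e
  have q1 : ls σ M1 = π x + π u := by
    refine pth_ls (G := G) (S := {z | z ∈ A ∧ z ≠ y}) (l := M1) ⟨hM1.nd, ?_, hM1.hd, hM1.lt,
      fun z hz => ⟨(hM1m z hz).1, (hM1m z hz).2.2⟩⟩
    refine List.IsChain.imp_of_mem_imp (fun a b ha hb hab => ⟨hab, hE a (hM1m a ha).1 b
      (hM1m b hb).1 hab ?_⟩) hM1.ch
    by_contra hno
    rw [not_or] at hno
    obtain ⟨g1, g2⟩ := hno
    push Not at g1 g2
    obtain ⟨m1, hm1, hm1'⟩ := g1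
    obtain ⟨m2, hm2, hm2'⟩ := g2
    have a1 : m1 = i := (h3 m1 hm1).resolve_right (fun g => (hM1m a ha).2.2 (by
      rw [← hm1', g, hk]))
    have a2 : m2 = i := (h3 m2 hm2).resolve_right (fun g => (hM1m b hb).2.2 (by
      rw [← hm2', g, hk]))
    exact hab.ne (by rw [← hm1', ← hm2', a1, a2])
  have q2 : ls σ M2 = π u + π y := by
    have hxM2 : ∀ z ∈ M2, z ≠ x := fun z hz g => hux ((hM2m z hz).2.2 (g ▸ hxM1) ▸ g)
    refine pth_ls (G := G) (S := {z | z ∈ A ∧ z ≠ x}) (l := M2) ⟨hM2.nd, ?_, hM2.hd, hM2.lt,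
      fun z hz => ⟨(hM2m z hz).1, hxM2 z hz⟩⟩
    refine List.IsChain.imp_of_mem_imp (fun a b ha hb hab => ⟨hab, hE a (hM2m a ha).1 b
      (hM2m b hb).1 hab ?_⟩) hM2.ch
    by_contra hno
    rw [not_or] at hno
    obtain ⟨g1, g2⟩ := hno
    push Not at g1 g2
    obtain ⟨m1, hm1, hm1'⟩ := g1
    obtain ⟨m2, hm2, hm2'⟩ := g2
    have a1 : m1 = k := (h3 m1 hm1).resolve_left (fun g => hxM2 a ha (by
      rw [← hm1', g, hi]))
    have a2 : m2 = k := (h3 m2 hm2).resolve_left (fun g => hxM2 b hb (by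
      rw [← hm2', g, hi]))
    exact hab.ne (by rw [← hm1', ← hm2', a1, a2])
  have e3 : ls σ [x, y] = σ s(x, y) := by simp
  rw [e3, q1, q2] at e
  have := two_self (π u)
  linear_combination e + this

end pot

/-- two robust sets joined by three legs force balance -/
theorem two_blobs' [DecidableEq V] [Finite V] (h2 : Two G) {A B : Finset V} {p q : Fin 3 → V}
    {Lg : Fin 3 → List V} {ℓA ℓB cA cB rA rB m : ℕ} {σ : Sym2 V → ZMod 2} {t : ZMod 2}
    (h : Legs G.Adj A B p q Lg)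
    (hA : Blob G A ℓA cA rA) (hB : Blob G B ℓB cB rB) (hU : Uni G m σ t) (hm3 : 3 ≤ m)
    (hm : m ≤ ℓA + ℓB) (hA1 : 1 ≤ ℓA) (hB1 : 1 ≤ ℓB) (hrA : 2 * cA ≤ rA)
    (hrB : 2 * cB ≤ rB) (hcA : 2 ≤ cA) (hcB : 2 ≤ cB) (hA4 : 4 ≤ A.card)
    (hB4 : 4 ≤ B.card) :
    t = 0 ∧ ∃ π : V → ZMod 2, ∀ x y, G.Adj x y → σ s(x, y) = π x + π y := by
  classical
  have hR : ∀ a b, G.Adj a b → G.Adj b a := fun a b hab => hab.symm
  have hs := h.swap hR
  obtain ⟨πA, hπA⟩ := blob_pot' hA (h.cst hB hU hm hB1) h.pA h.pinj hA4 hrA hcA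
  obtain ⟨πB, hπB⟩ := blob_pot' hB (hs.cst hA hU (by omega) hA1) h.qB h.qinj hB4 hrB hcB
  obtain ⟨ht, hval⟩ := h.values hA hB hU hm hB1 hπA hπB
  refine ⟨ht, ?_⟩
  subst ht
  obtain ⟨κ, hκ⟩ : ∃ κ, κ = πA (p 0) + πB (q 0) + ls σ (Lg 0) := ⟨_, rfl⟩
  rw [← hκ] at hval
  obtain ⟨π, hπ, hch⟩ := h.pot (σ := σ) (fun z => if z ∈ B then πB z + κ else πA z) (by
    intro i
    rw [if_neg (h.dAB _ (h.pA i)), if_pos (h.qB i), ← hval i]
    have h1 := two_self (πA (p i))
    have h2 := two_self (πB (q i))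
    linear_combination -h1 - h2)
  have hcA' : ∀ x ∈ A, ∀ y ∈ A, G.Adj x y → σ s(x, y) = π x + π y := by
    intro x hx y hy hxy
    rw [hπ x (Or.inl hx), hπ y (Or.inl hy)]
    rw [if_neg (h.dAB x hx), if_neg (h.dAB y hy)]
    exact hπA x hx y hy hxy
  have hcB' : ∀ x ∈ B, ∀ y ∈ B, G.Adj x y → σ s(x, y) = π x + π y := by
    intro x hx y hy hxy
    rw [hπ x (Or.inr hx), hπ y (Or.inr hy)]
    rw [if_pos hx, if_pos hy, hπB x hx y hy hxy]
    have := two_self κ
    linear_combination -this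
  have hL : Legs (Cons G σ π) A B p q Lg :=
    ⟨fun i => ⟨(h.pth i).nd, hch i, (h.pth i).hd, (h.pth i).lt, (h.pth i).mem⟩, h.dis, h.pA,
      h.qB, h.onA, h.onB, h.dAB⟩
  have hRc : ∀ a b, Cons G σ π a b → Cons G σ π b a := fun a b hab => hab.symm
  refine ext_all h2 hm3 hU _ π {z | z ∈ A ∨ z ∈ B ∨ ∃ k, z ∈ Lg k} rfl
    ⟨p 0, Or.inl (h.pA 0), q 0, Or.inr (Or.inl (h.qB 0)), h.pq 0⟩ ?_
  intro x hx y hy hxy
  obtain ⟨l, hl, hll⟩ := hL.all (ℓA := ℓA) (ℓB := ℓB) (cA := cA) (cB := cB) (rA := rA) (rB := rB)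
    hRc (by omega) (by omega) (by omega) (by omega)
    (fun F hF x hx y hy hxF hyF => by
      obtain ⟨l, h1, h2⟩ := hA.short F hF x hx y hy hxF hyF
      exact ⟨l, pth_cons (fun z hz => hz.1) hcA' h1, h2⟩)
    (fun F hF x hx y hy hxF hyF hxy => by
      obtain ⟨l, h1, h2⟩ := hA.long F hF x hx y hy hxF hyF hxy
      exact ⟨l, pth_cons (fun z hz => hz.1) hcA' h1, h2⟩)
    (fun F hF x hx y hy hxF hyF => by
      obtain ⟨l, h1, h2⟩ := hB.short F hF x hx y hy hxF hyF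
      exact ⟨l, pth_cons (fun z hz => hz.1) hcB' h1, h2⟩)
    (fun F hF x hx y hy hxF hyF hxy => by
      obtain ⟨l, h1, h2⟩ := hB.long F hF x hx y hy hxF hyF hxy
      exact ⟨l, pth_cons (fun z hz => hz.1) hcB' h1, h2⟩) hx hy hxy
  exact ⟨l, hl.nd, hl.ch, hl.hd, hl.lt, hl.mem, by omega⟩

/-- two robust sets of large total length exclude bad cycles -/
theorem pair_false' [DecidableEq V] [Fintype V] (h2 : Two G)
    (hconn : ∀ S : Finset V, S.card < 3 → (G.induce ((↑S : Set V)ᶜ)).Connected)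
    {σ : Sym2 V → ZMod 2} {t : ZMod 2} {L : ℕ} {l : List V} (hl : Cyc G σ (t + 1) l)
    (hU : Uni G (L + 1) σ t) (hL3 : 3 ≤ L) {A B : Finset V} {ℓA ℓB cA cB rA rB : ℕ}
    (hA : Blob G A ℓA cA rA) (hB : Blob G B ℓB cB rB) (hd : ∀ z ∈ A, z ∉ B)
    (hm : L + 1 ≤ ℓA + ℓB) (hA1 : 1 ≤ ℓA) (hB1 : 1 ≤ ℓB) (hrA : 2 * cA ≤ rA)
    (hrB : 2 * cB ≤ rB) (hcA : 2 ≤ cA) (hcB : 2 ≤ cB) (hA4 : 4 ≤ A.card)
    (hB4 : 4 ≤ B.card) : False := by
  obtain ⟨p, q, Lg, hLg⟩ := exists_legs hconn (P := A) (Q := B) (by omega) (by omega) hd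
  obtain ⟨ht, π, hπ⟩ := two_blobs' h2 hLg hA hB hU (by omega) hm hA1 hB1 hrA hrB hcA hcB hA4 hB4
  subst ht
  rw [zero_add] at hl
  exact bal_no_cyc hπ hl

end Run7.h807
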