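import Mathlib
import Pool.Agent.Run7.h807.Ub1

set_option autoImplicit false

namespace Run7.h807

variable {V : Type*} {G : SimpleGraph V} [DecidableEq V] [DecidableRel G.Adj] [Fintype V]

/-- a robustly connected part is robust -/
theorem sol_blobu {d z q r w : ℕ} (hdeg : ∀ v, d ≤ G.degree v) {A Z : Finset V} (hp : Part G A Z)
    (hZ : Z.card ≤ z) (hne : A.Nonempty) (hS : Sol G A (r + 5))
    (hA : A.card < q * (d - z - r)) (hr2 : 6 ≤ r)
    (hw : 50 ≤ w) (hd : 10 * z + 10 * r + 9 * w ≤ d + 40) :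
    Blob G A (min (A.card - r) (d + w)) (3 * (q - 1)) r := by
  have hD := hp.deg hdeg
  have hD1 : ∀ v ∈ A, d - z ≤ (A.filter (G.Adj v)).card := fun v hv => by
    have := hD.1 v hv
    omega
  have hA1 := hD.2 hne
  refine ⟨fun F hF x hx y hy hxF hyF => ?_, fun F hF x hx y hy hxF hyF hxy => ?_⟩
  · exact sol_shortq (q := q) hD1 hS (r := r) (by omega) hA hF hx hy hxF hyF
  · by_cases hcase : A.card + (2 * r + 5) ≤ 2 * (d - z)
    · have hb : Blob G A (A.card - r) 3 r := slk_blob (fun v hv => by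
        have := hD1 v hv
        omega) (by omega)
      obtain ⟨l, hl, hll⟩ := hb.long F hF x hx y hy hxF hyF hxy
      exact ⟨l, hl, (min_le_left _ _).trans hll⟩
    · obtain ⟨l, hl, hll⟩ := sol_longp (μ := (d + 5 - 2 * z - 2 * r - w) / 4) (ℓ := d + w)
        (m := 5) hD1 hS hF (by omega) (by omega) (by omega) (by omega) (by omega) (by omega)
        (by omega) (by omega) hx hy hxF hyF hxy
      exact ⟨l, hl, (min_le_right _ _).trans hll⟩

/-- a dense part is robust -/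
theorem dense_blobu {d z q r w : ℕ} (hdeg : ∀ v, d ≤ G.degree v) {A Z : Finset V}
    (hp : Part G A Z) (hZ : Z.card ≤ z) (hne : A.Nonempty)
    (hA : A.card + (2 * r + 5) ≤ 2 * (d - z)) (hq : 2 ≤ q) (hd : 3 * z + 3 * r + 10 ≤ d) :
    Blob G A (min (A.card - r) (d + w)) (3 * (q - 1)) r := by
  have hD := hp.deg hdeg
  have hA1 := hD.2 hne
  have hb : Blob G A (A.card - r) 3 r := slk_blob (fun v hv => by
    have := hD.1 v hv
    omega) (by omega)
  refine ⟨fun F hF x hx y hy hxF hyF => ?_, fun F hF x hx y hy hxF hyF hxy => ?_⟩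
  · obtain ⟨l, hl, hll⟩ := hb.short F hF x hx y hy hxF hyF
    exact ⟨l, hl, by omega⟩
  · obtain ⟨l, hl, hll⟩ := hb.long F hF x hx y hy hxF hyF hxy
    exact ⟨l, hl, (min_le_left _ _).trans hll⟩

/-- every part of moderate size contains a robust part -/
theorem good_partu {d z q r w : ℕ} (hdeg : ∀ v, d ≤ G.degree v) {A Z : Finset V}
    (hp : Part G A Z) (hZ : Z.card ≤ z) (hne : A.Nonempty)
    (hA : A.card < q * (d - z - r)) (hA3 : A.card ≤ 3 * d + 20) (hq : 2 ≤ q) (hr : r ≤ 18)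
    (hr2 : 6 ≤ r) (hz : z ≤ 41) (hw : 50 ≤ w) (hd : 10 * z + 10 * r + 9 * w ≤ d + 40) :
    ∃ A' Z', A' ⊆ A ∧ A'.Nonempty ∧ Part G A' Z' ∧ Z'.card ≤ z + (r + 5) ∧
      Blob G A' (min (A'.card - r) (d + w)) (3 * (q - 1)) r := by
  by_cases hS : Sol G A (r + 5)
  · exact ⟨A, Z, subset_rfl, hne, hp, by omega, sol_blobu hdeg hp hZ hne hS hA hr2 hw hd⟩
  obtain ⟨T, A1, A2, hT, hs1, hs2, hn1, hn2, hd12, -, hp1, hp2⟩ := hp.split hS
  have hZT := Finset.card_union_le Z T
  have h12 := card_two_parts hs1 hs2 hd12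
  rcases Nat.le_total A1.card A2.card with g | g
  · exact ⟨A1, Z ∪ T, hs1, hn1, hp1, by omega, dense_blobu (z := z + (r + 5)) hdeg hp1 (by omega)
      hn1 (by omega) hq (by omega)⟩
  · exact ⟨A2, Z ∪ T, hs2, hn2, hp2, by omega, dense_blobu (z := z + (r + 5)) hdeg hp2 (by omega)
      hn2 (by omega) hq (by omega)⟩

/-- a bad cycle yields three near-cliques -/
theorem trio_of_bad6 {d : ℕ} (hdeg : ∀ v, d ≤ G.degree v) (hn : 2 * d + 1 ≤ Fintype.card V)
    (hn4 : Fintype.card V ≤ 4 * d) (hd : 1244 ≤ d)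
    (hconn : ∀ S : Finset V, S.card < 3 → (G.induce ((↑S : Set V)ᶜ)).Connected)
    {σ : Sym2 V → ZMod 2} {t : ZMod 2} (hU : Uni G (2 * d - 1) σ t)
    (hbad : ∃ l, Cyc G σ (t + 1) l) :
    ∃ (L : ℕ) (l : List V) (B Z : Fin 3 → Finset V), Cyc G σ (t + 1) l ∧ Uni G (L + 1) σ t ∧
      L + 2 ≤ 2 * d ∧ 3 ≤ L ∧ (∀ i, S.NCk G d 58 85 (B i) (Z i)) ∧
      ∀ i j, i ≠ j → (∀ x ∈ B i, x ∉ B j) ∧ ∀ a ∈ B i, ∀ b ∈ B j, ¬ G.Adj a b := by
  classical
  have h2 : Two G := two_of_conn fun S hS => hconn S (by omega)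
  obtain ⟨l, hl, hmax⟩ := exists_max_cyc hbad
  obtain ⟨X, hX⟩ := top_of_cyc hl hmax
  obtain ⟨L, hL⟩ : ∃ L, L = l.length := ⟨_, rfl⟩
  rw [← hL] at hX
  have hL2 : L + 2 ≤ 2 * d := by
    by_contra hlt
    obtain ⟨g1, g2, g3, x, y, g4, g5, g6, g7⟩ := hl
    have := hU l x y g1 g2 g4 g5 g6 g3 (by omega)
    rw [g7] at this
    have h8 : (1 : ZMod 2) = 0 := by linear_combination this
    exact absurd h8 (by decide)
  have hUL : Uni G (L + 1) σ t := uni_of_max (L := L) (by rw [hL]; exact hmax)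
  have hL3 := hX.rim.three
  obtain ⟨P, Q, Z, hZ18, hPne, hQne, hpP, hpQ, hPQ, hall, hadj, hXQ⟩ :=
    hX.first_part hdeg hn (by omega) hL2
  have hPZ := hpP.1
  have hQZ := hpQ.1
  have hPc := (hpP.deg hdeg).2 hPne
  have hQc := (hpQ.deg hdeg).2 hQne
  have hsum : P.card + Q.card + Z.card ≤ Fintype.card V := by
    have h1 : Disjoint P Q := Finset.disjoint_left.2 hPQ
    have h3 : Disjoint (P ∪ Q) Z := by
      rw [Finset.disjoint_left]
      intro z hz
      rw [Finset.mem_union] at hz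
      rcases hz with hz | hz
      · exact hPZ z hz
      · exact hQZ z hz
    rw [← Finset.card_union_of_disjoint h1, ← Finset.card_union_of_disjoint h3]
    exact Finset.card_le_univ _
  obtain ⟨B1, Z1, hB1P, hB1n, hB1p, hZ1c, hb1⟩ := good_partu (z := 18) (q := 4) (r := 18)
    (w := 68) hdeg hpP hZ18 hPne (by omega) (by omega) (by norm_num) (by norm_num) (by norm_num)
    (by norm_num) (by norm_num) (by omega)
  have hb1c := (hB1p.deg hdeg).2 hB1n
  have hB1le := Finset.card_le_card hB1P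
  have hQS : ¬ Sol G Q (18 + 5) := by
    intro hQS
    have hbQ : Blob G Q (min (Q.card - 18) (d + 68)) (3 * (4 - 1)) 18 := sol_blobu hdeg hpQ
      (z := 18) hZ18 hQne hQS (by omega) (by norm_num) (by norm_num) (by omega)
    have hLQ : L ≤ Q.card + Z.card := by
      have h1 : (Finset.range L).image X ⊆ Q ∪ Z := by
        intro x hx
        rw [Finset.mem_image] at hx
        obtain ⟨k, -, rfl⟩ := hx
        rw [Finset.mem_union]
        exact hXQ k
      have h3 := (Finset.card_le_card h1).trans (Finset.card_union_le _ _)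
      rwa [rim_card hX.rim] at h3
    exact pair_false' h2 hconn hl hUL hL3 hb1 hbQ (fun z hz hz' => hPQ z (hB1P hz) hz')
      (by omega) (by omega) (by omega) (by omega) (by omega) (by omega) (by omega) (by omega)
      (by omega)
  obtain ⟨T, Q1, Q2, hT, hs1, hs2, hn1, hn2, hd12, hna12, hp1, hp2⟩ := hpQ.split hQS
  have hZT := Finset.card_union_le Z T
  have hq1 := (hp1.deg hdeg).2 hn1
  have hq2 := (hp2.deg hdeg).2 hn2
  have hq12 := card_two_parts hs1 hs2 hd12
  obtain ⟨B2, Z2, hB2Q, hB2n, hB2p, hZ2c, hb2⟩ := good_partu (z := 41) (q := 3) (r := 12)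
    (w := 57) hdeg hp1 (by omega) hn1 (by omega) (by omega) (by norm_num) (by norm_num)
    (by norm_num) (by norm_num) (by norm_num) (by omega)
  obtain ⟨B3, Z3, hB3Q, hB3n, hB3p, hZ3c, hb3⟩ := good_partu (z := 41) (q := 3) (r := 12)
    (w := 57) hdeg hp2 (by omega) hn2 (by omega) (by omega) (by norm_num) (by norm_num)
    (by norm_num) (by norm_num) (by norm_num) (by omega)
  have hb2c := (hB2p.deg hdeg).2 hB2n
  have hb3c := (hB3p.deg hdeg).2 hB3n
  have hB2le := Finset.card_le_card hB2Q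
  have hB3le := Finset.card_le_card hB3Q
  have hd12' : ∀ z ∈ B1, z ∉ B2 := fun z hz hz' => hPQ z (hB1P hz) (hs1 (hB2Q hz'))
  have hd13' : ∀ z ∈ B1, z ∉ B3 := fun z hz hz' => hPQ z (hB1P hz) (hs2 (hB3Q hz'))
  have hd23' : ∀ z ∈ B2, z ∉ B3 := fun z hz hz' => hd12 z (hB2Q hz) (hB3Q hz')
  have hn12' : ∀ a ∈ B1, ∀ b ∈ B2, ¬ G.Adj a b := fun a ha b hb =>
    hadj a (hB1P ha) b (hs1 (hB2Q hb))
  have hn13' : ∀ a ∈ B1, ∀ b ∈ B3, ¬ G.Adj a b := fun a ha b hb =>
    hadj a (hB1P ha) b (hs2 (hB3Q hb))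
  have hn23' : ∀ a ∈ B2, ∀ b ∈ B3, ¬ G.Adj a b := fun a ha b hb =>
    hna12 a (hB2Q ha) b (hB3Q hb)
  have hp12 : min (B1.card - 18) (d + 68) + min (B2.card - 12) (d + 57) ≤ L := by
    by_contra hlt
    exact pair_false' h2 hconn hl hUL hL3 hb1 hb2 hd12' (by omega) (by omega) (by omega)
      (by omega) (by omega) (by omega) (by omega) (by omega) (by omega)
  have hp13 : min (B1.card - 18) (d + 68) + min (B3.card - 12) (d + 57) ≤ L := by
    by_contra hlt
    exact pair_false' h2 hconn hl hUL hL3 hb1 hb3 hd13' (by omega) (by omega) (by omega)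
      (by omega) (by omega) (by omega) (by omega) (by omega) (by omega)
  refine ⟨L, l, ![B1, B2, B3], ![Z1, Z2, Z3], hl, hUL, hL2, hL3, ?_, ?_⟩
  · intro i
    fin_cases i
    · exact ⟨hB1n, hB1p, by simp only [Fin.zero_eta, Matrix.cons_val_zero]; omega,
        by simp only [Fin.zero_eta, Matrix.cons_val_zero]; omega⟩
    · exact ⟨hB2n, hB2p, by simp only [Fin.mk_one, Matrix.cons_val_one, Matrix.cons_val_zero]; omega,
        by simp only [Fin.mk_one, Matrix.cons_val_one, Matrix.cons_val_zero]; omega⟩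
    · exact ⟨hB3n, hB3p, by simp only [Fin.reduceFinMk, Matrix.cons_val]; omega,
        by simp only [Fin.reduceFinMk, Matrix.cons_val]; omega⟩
  · intro i j hij
    fin_cases i <;> fin_cases j
    · exact absurd rfl hij
    · exact ⟨hd12', hn12'⟩
    · exact ⟨hd13', hn13'⟩
    · exact ⟨fun x hx hx' => hd12' x hx' hx, fun a ha b hb hab => hn12' b hb a ha hab.symm⟩
    · exact absurd rfl hij
    · exact ⟨hd23', hn23'⟩
    · exact ⟨fun x hx hx' => hd13' x hx' hx, fun a ha b hb hab => hn13' b hb a ha hab.symm⟩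
    · exact ⟨fun x hx hx' => hd23' x hx' hx, fun a ha b hb hab => hn23' b hb a ha hab.symm⟩
    · exact absurd rfl hij

/-- Bondy's conjecture (dual form) for `n ≤ 4 δ` and `δ ≥ 1244` -/
theorem large_good7 {d : ℕ} (hdeg : ∀ v, d ≤ G.degree v) (hn : 2 * d ≤ Fintype.card V)
    (hn4 : Fintype.card V ≤ 4 * d) (hd : 1244 ≤ d)
    (hconn : ∀ S : Finset V, S.card < 3 → (G.induce ((↑S : Set V)ᶜ)).Connected) :
    Good G (2 * d - 1) := by
  rcases Nat.eq_or_lt_of_le hn with heq | hlt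
  · exact dirac_good (by omega) heq.symm hdeg fun S hS => hconn S (by omega)
  intro σ t hU
  have h2 : Two G := two_of_conn fun S hS => hconn S (by omega)
  by_cases hbad : ∃ l, Cyc G σ (t + 1) l
  swap
  · push Not at hbad
    exact good_of_no_bad hdeg (by omega) (by omega) h2 hbad
  exfalso
  obtain ⟨L, l, B, Z, hl, hUL, hL2, hL3, hcl, hdn⟩ := trio_of_bad6 hdeg (by omega) hn4 (by omega)
    hconn hU hbad
  exact S.Trio.absurd (κ := 58) (β := 85) (B := B) (Z := Z)
    ⟨hcl, fun i j hij => (hdn i j hij).1, fun i j hij => (hdn i j hij).2⟩ hdeg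
    ⟨by omega⟩ h2 hconn hl hUL hL2 hL3

end Run7.h807
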