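import Mathlib
import Pool.Agent.Run7.h807.Ut

set_option autoImplicit false

namespace Run7.h807

variable {V : Type*} {G : SimpleGraph V} [DecidableEq V] [DecidableRel G.Adj] [Fintype V]

/-- Bondy's conjecture (dual form) for `δ ≥ 27060` -/
theorem all_good4 {d : ℕ} (hdeg : ∀ v, d ≤ G.degree v) (hn : 2 * d ≤ Fintype.card V)
    (hd : 27060 ≤ d)
    (hconn : ∀ S : Finset V, S.card < 3 → (G.induce ((↑S : Set V)ᶜ)).Connected) :
    Good G (2 * d - 1) := by
  by_cases hn4 : Fintype.card V ≤ 4 * d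
  · exact large_good7 hdeg hn hn4 (by omega) hconn
  intro σ t hU
  have h2 : Two G := two_of_conn fun S hS => hconn S (by omega)
  by_cases hbad : ∃ l, Cyc G σ (t + 1) l
  swap
  · push Not at hbad
    exact good_of_no_bad hdeg (by omega) (by omega) h2 hbad
  exfalso
  obtain ⟨L, l, B, Z, hl, hUL, hL2, hL3, hcl, hdn⟩ := trio_large hdeg (by omega) (by omega)
    hconn hU hbad
  exact S.Trio.absurd (κ := 1424) (β := 735) (B := B) (Z := Z)
    ⟨fun i => ⟨(hcl i).ne, (hcl i).part, (hcl i).zc, (hcl i).big⟩, fun i j hij => (hdn i j hij).1,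
    fun i j hij => (hdn i j hij).2⟩ hdeg ⟨by omega⟩ h2 hconn hl hUL hL2 hL3

end Run7.h807
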