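import Mathlib
import Pool.Agent.Run7.h807.Vt

set_option autoImplicit false

namespace Run7.h807

variable {V : Type*} {G : SimpleGraph V}
variable {σ : Sym2 V → ZMod 2} {s : ZMod 2} {L : ℕ} {X : ℕ → V}

section

variable [Fintype V] [DecidableEq V] [DecidableRel G.Adj]

/-- a large connected set of outer vertices -/
theorem Top.comp_false2 (h : Top G σ s L X) {d D : ℕ} (hL : L + 2 ≤ 2 * d)
    (hD : 50 * D + 1009 < 9 * d) (hd : 700 ≤ d)
    (hcore : ∀ S : Finset V, S.Nonempty → (∀ v ∈ S, ∀ k, X k ≠ v) →
      ∃ v ∈ S, (S.filter (G.Adj v)).card < D) (S : Finset V) (hS : ∀ v ∈ S, ∀ k, X k ≠ v)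
    (hre : ∀ u ∈ S, ∀ w ∈ S, (outG G X).Reachable u w) (h3 : 3 ≤ S.card)
    (hun : ∀ u ∈ S, un G L X u ≤ 1)
    (hdeg : ∀ u ∈ S, d ≤ rn G L X u + (S.filter (G.Adj u)).card + 1) : False := by
  rcases Nat.lt_or_ge S.card 20 with hlt | hge
  · have hL2 : 2 * d ≤ L + 42 := by
      obtain ⟨u, hu⟩ : S.Nonempty := Finset.card_pos.1 (by omega)
      have h1 := hdeg u hu
      have h2 : (S.filter (G.Adj u)).card ≤ S.card := Finset.card_filter_le _ _
      have h4 := df_eq h.rim u
      have h5 := hun u hu
      omega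
    refine h.tri_many (by omega) S hS hre h3 (T := 2 * S.card) (fun u hu => ?_) ?_
    · have h1 := hdeg u hu
      have h2 : (S.filter (G.Adj u)).card ≤ (S.erase u).card := by
        refine Finset.card_le_card fun z hz => ?_
        rw [Finset.mem_filter] at hz
        rw [Finset.mem_erase]
        exact ⟨hz.2.ne', hz.1⟩
      rw [Finset.card_erase_of_mem hu] at h2
      have h4 := df_eq h.rim u
      have h5 := hun u hu
      omega
    · obtain ⟨c, hc⟩ : ∃ c, S.card = c + 2 := ⟨S.card - 2, by omega⟩
      rw [hc] at hlt h3 ⊢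
      rw [Nat.add_sub_cancel]
      have h1 : c * 1300 ≤ c * L := Nat.mul_le_mul_left c (by omega)
      have h2 : (c + 2) * (5 * (2 * (c + 2))) < c * 1300 := by
        have : c < 18 := by omega
        have : 1 ≤ c := by omega
        interval_cases c <;> norm_num
      omega
  · obtain ⟨H, hH, hHc, hHd⟩ := picks hcore S hS 20 hge
    refine h.tri_many (by
      obtain ⟨u, hu⟩ : H.Nonempty := Finset.card_pos.1 (by omega)
      have h1 := hdeg u (hH hu)
      have h2 := hHd u hu
      have h4 := df_eq h.rim u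
      have h5 := hun u (hH hu)
      omega) H (fun u hu => hS u (hH hu)) (fun u hu w hw => hre u (hH hu) w (hH hw))
      (by omega) (T := L + 42 + 2 * D - 2 * d) (fun u hu => ?_) ?_
    · have h1 := hdeg u (hH hu)
      have h2 := hHd u hu
      have h4 := df_eq h.rim u
      have h5 := hun u (hH hu)
      omega
    · obtain ⟨u, hu⟩ : H.Nonempty := Finset.card_pos.1 (by omega)
      have h1 := hdeg u (hH hu)
      have h2 := hHd u hu
      have h4 := df_eq h.rim u
      have h5 := hun u (hH hu)
      rw [hHc]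
      omega

end

theorem Top.heavy_false2 [Fintype V] [DecidableEq V] [DecidableRel G.Adj] (h : Top G σ s L X)
    {d D : ℕ} (hdeg : ∀ v, d ≤ G.degree v) (hL : L + 2 ≤ 2 * d)
    (hn : 2 * d + 1 ≤ Fintype.card V) (hD : 50 * D + 1009 < 9 * d) (hD6 : 6 * D + 9 < d)
    (hd : 700 ≤ d)
    (hcore : ∀ S : Finset V, S.Nonempty → (∀ v ∈ S, ∀ k, X k ≠ v) →
      ∃ v ∈ S, (S.filter (G.Adj v)).card < D) : False := by
  classical
  have hL3 := h.rim.three
  set R : Finset V := Finset.univ.filter (fun v => ∀ k, X k ≠ v) with hR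
  have hRmem : ∀ v, v ∈ R ↔ ∀ k, X k ≠ v := fun v => by simp [hR]
  have hR3 : 3 ≤ R.card := by
    have hsub : (Finset.univ : Finset V) ⊆ R ∪ (Finset.range L).image X := by
      intro v _
      rw [Finset.mem_union, hRmem]
      by_cases hv : ∀ k, X k ≠ v
      · exact Or.inl hv
      · push Not at hv
        obtain ⟨k, rfl⟩ := hv
        rw [h.rim.modeq k]
        exact Or.inr (Finset.mem_image_of_mem _ (Finset.mem_range.2 (Nat.mod_lt _ (by omega))))
    have h1 := (Finset.card_le_card hsub).trans (Finset.card_union_le _ _)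
    have h2 : ((Finset.range L).image X).card ≤ L :=
      Finset.card_image_le.trans (by simp)
    rw [Finset.card_univ] at h1
    omega
  set K : V → Finset V := fun u => R.filter (fun w => (outG G X).Reachable u w) with hK
  have hKmem : ∀ u v, v ∈ K u ↔ (∀ k, X k ≠ v) ∧ (outG G X).Reachable u v := fun u v => by
    simp only [hK, Finset.mem_filter, hRmem]
  have hdg : ∀ u, (∀ k, X k ≠ u) → d ≤ rn G L X u + ((K u).filter (G.Adj u)).card := by
    intro u hu
    refine (hdeg u).trans (degree_le h.rim u (K u) fun z hz hz' => ?_)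
    rw [hKmem]
    have : (outG G X).Adj u z := ⟨hz, hu, hz'⟩
    exact ⟨hz', this.reachable⟩
  have hself : ∀ u, (∀ k, X k ≠ u) → ((K u).filter (G.Adj u)).card + 1 ≤ (K u).card := by
    intro u hu
    have hmem : u ∈ K u := (hKmem u u).2 ⟨hu, SimpleGraph.Reachable.refl _⟩
    have h1 : ((K u).filter (G.Adj u)).card ≤ ((K u).erase u).card := by
      refine Finset.card_le_card fun z hz => ?_
      rw [Finset.mem_filter] at hz
      rw [Finset.mem_erase]
      exact ⟨hz.2.ne', hz.1⟩
    rw [Finset.card_erase_of_mem hmem] at h1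
    have : 0 < (K u).card := Finset.card_pos.2 ⟨u, hmem⟩
    omega
  have hone : ∀ u, (∀ k, X k ≠ u) → un G L X u ≤ 1 → ∃ z, z ∈ K u ∧ G.Adj u z := by
    intro u hu hu1
    have h1 := hdg u hu
    have h2 := df_eq h.rim u
    have h3 := un_le_df (G := G) (L := L) (X := X) u
    have h4 : 0 < ((K u).filter (G.Adj u)).card := by omega
    obtain ⟨z, hz⟩ := Finset.card_pos.1 h4
    rw [Finset.mem_filter] at hz
    exact ⟨z, hz⟩
  have hsubK : ∀ u w, w ∈ K u → K w ⊆ K u := by
    intro u w hw z hz
    rw [hKmem] at hw hz ⊢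
    exact ⟨hz.1, hw.2.trans hz.2⟩
  by_cases hc : ∃ v0, (∀ k, X k ≠ v0) ∧ 0 < un G L X v0
  · obtain ⟨v0, hv0, hun0⟩ := hc
    obtain ⟨e0, he0, hUe⟩ : ∃ e0, e0 < L ∧ Un (fun i => G.Adj v0 (X i)) e0 := by
      unfold un snum at hun0
      obtain ⟨e, he⟩ := Finset.card_pos.1 hun0
      rw [Finset.mem_filter, Finset.mem_Ico] at he
      exact ⟨e, he.1.2, he.2⟩
    have hun1 : ∀ w, (∀ k, X k ≠ w) → w ≠ v0 → un G L X w ≤ 1 := fun w hw hwv =>
      h.un_le_one hv0 hw hwv.symm hun0
    by_cases hr : ∀ w, (∀ k, X k ≠ w) → (outG G X).Reachable v0 w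
    · set S := R.erase v0 with hS
      have hSmem : ∀ v, v ∈ S ↔ v ≠ v0 ∧ ∀ k, X k ≠ v := fun v => by
        rw [hS, Finset.mem_erase, hRmem]
      have hSc : R.card = S.card + 1 := by
        rw [hS, Finset.card_erase_of_mem ((hRmem v0).2 hv0)]
        omega
      have hdS : ∀ u ∈ S, d ≤ rn G L X u + (S.filter (G.Adj u)).card + 1 := by
        intro u hu
        have hu' := (hSmem u).1 hu
        have h1 := hdg u hu'.2
        have h2 : ((K u).filter (G.Adj u)).card ≤ (insert v0 (S.filter (G.Adj u))).card := by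
          refine Finset.card_le_card fun z hz => ?_
          rw [Finset.mem_filter, hKmem] at hz
          rw [Finset.mem_insert, Finset.mem_filter, hSmem]
          by_cases hzv : z = v0
          · exact Or.inl hzv
          · exact Or.inr ⟨⟨hzv, hz.1.1⟩, hz.2⟩
        have h3 := Finset.card_insert_le v0 (S.filter (G.Adj u))
        omega
      rcases Nat.lt_or_ge S.card 3 with hlt | hge
      · obtain ⟨u, w, huw, hSuw⟩ := Finset.card_eq_two.1 (show S.card = 2 by omega)
        have hu := (hSmem u).1 (by rw [hSuw]; simp)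
        have hw := (hSmem w).1 (by rw [hSuw]; simp)
        have hRsub : ∀ z, (∀ k, X k ≠ z) → z = v0 ∨ z = u ∨ z = w := by
          intro z hz
          by_cases hzv : z = v0
          · exact Or.inl hzv
          · have : z ∈ S := (hSmem z).2 ⟨hzv, hz⟩
            rw [hSuw, Finset.mem_insert, Finset.mem_singleton] at this
            exact Or.inr this
        have hfu : ∀ x, (∀ k, X k ≠ x) → ((K x).filter (G.Adj x)).card ≤ 2 := by
          intro x hx
          have h1 := hself x hx
          have h2 : (K x).card ≤ R.card := Finset.card_filter_le _ _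
          omega
        have hdu := hdg u hu.2
        have hdw := hdg w hw.2
        have hdv := hdg v0 hv0
        have hfu' := hfu u hu.2
        have hfw' := hfu w hw.2
        have hfv' := hfu v0 hv0
        have qu := df_eq h.rim u
        have qw := df_eq h.rim w
        have hu1 := hun1 u hu.2 hu.1
        have hw1 := hun1 w hw.2 hw.1
        by_cases hadj : G.Adj u w
        · refine h.pair_unit (by omega) hv0 he0 hUe (OP.pair hu.2 hw.2 hadj) huw ?_ (by omega)
          simp only [List.mem_cons, List.not_mem_nil, or_false, not_or]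
          exact ⟨hu.1.symm, hw.1.symm⟩
        · have key : ∀ x y, (∀ k, X k ≠ x) → x ≠ v0 → ¬ G.Adj x y → (∀ z, (∀ k, X k ≠ z) →
              z = v0 ∨ z = x ∨ z = y) → G.Adj x v0 ∧ ((K x).filter (G.Adj x)).card ≤ 1 := by
            intro x y hx hxv hxy hz
            obtain ⟨z, hz1, hz2⟩ := hone x hx (hun1 x hx hxv)
            have hsub : (K x).filter (G.Adj x) ⊆ {v0} := by
              intro z hz'
              rw [Finset.mem_filter, hKmem] at hz'
              rw [Finset.mem_singleton]
              rcases hz z hz'.1.1 with h1 | h1 | h1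
              · exact h1
              · exact absurd h1.symm hz'.2.ne
              · exact absurd (h1 ▸ hz'.2) hxy
            refine ⟨?_, (Finset.card_le_card hsub).trans (by simp)⟩
            have : z ∈ ({v0} : Finset V) := hsub (Finset.mem_filter.2 ⟨hz1, hz2⟩)
            rw [Finset.mem_singleton] at this
            exact this ▸ hz2
          obtain ⟨ku, ku'⟩ := key u w hu.2 hu.1 hadj hRsub
          obtain ⟨kw, kw'⟩ := key w u hw.2 hw.1 (fun h => hadj h.symm) fun z hz => by
            rcases hRsub z hz with h1 | h1 | h1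
            · exact Or.inl h1
            · exact Or.inr (Or.inr h1)
            · exact Or.inr (Or.inl h1)
          exact h.path_case hv0 he0 hUe hu.2 hw.2 huw ku kw (by omega) (by omega) (by omega)
            (by omega)
      · exact h.comp_false2 hL hD hd hcore S (fun v hv => ((hSmem v).1 hv).2)
          (fun u hu w hw => (hr u ((hSmem u).1 hu).2).symm.trans (hr w ((hSmem w).1 hw).2)) hge
          (fun u hu => hun1 u ((hSmem u).1 hu).2 ((hSmem u).1 hu).1) hdS
    · push Not at hr
      obtain ⟨w, hw, hwr⟩ := hr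
      have hwv : w ≠ v0 := by
        rintro rfl
        exact hwr (SimpleGraph.Reachable.refl _)
      have hKv : ∀ x ∈ K w, ¬ (outG G X).Reachable v0 x := fun x hx hvx =>
        hwr (hvx.trans ((hKmem w x).1 hx).2.symm)
      have hKne : ∀ x ∈ K w, x ≠ v0 := by
        intro x hx hxv
        exact hKv x hx (hxv ▸ SimpleGraph.Reachable.refl _)
      have hwK : w ∈ K w := (hKmem w w).2 ⟨hw, SimpleGraph.Reachable.refl _⟩
      obtain ⟨z, hz1, hz2⟩ := hone w hw (hun1 w hw hwv)
      have hK2 : 2 ≤ (K w).card := Finset.one_lt_card.2 ⟨w, hwK, z, hz1, hz2.ne⟩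
      obtain ⟨H, hH, hHc, hHd⟩ := picks hcore (K w) (fun v hv => ((hKmem w v).1 hv).1) 2 hK2
      obtain ⟨a, b, hab, hHab⟩ := Finset.card_eq_two.1 hHc
      have haH : a ∈ H := by rw [hHab]; simp
      have hbH : b ∈ H := by rw [hHab]; simp
      have hq : ∀ x ∈ H, d ≤ rn G L X x + (D + 1) := by
        intro x hx
        have h1 := hdg x ((hKmem w x).1 (hH hx)).1
        have h2 := hHd x hx
        have h3 : ((K x).filter (G.Adj x)).card ≤ ((K w).filter (G.Adj x)).card :=
          Finset.card_le_card (Finset.filter_subset_filter _ (hsubK w x (hH hx)))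
        omega
      have ha := (hKmem w a).1 (hH haH)
      have hb := (hKmem w b).1 (hH hbH)
      obtain ⟨P, hP⟩ := op_of_reach ha.1 (ha.2.symm.trans hb.2)
      have hvP : v0 ∉ P := fun hvP =>
        hKv a (hH haH) (reach_of_op hP.ch hP.hd hP.off v0 hvP).symm
      have qa := df_eq h.rim a
      have qb := df_eq h.rim b
      have ra := hq a haH
      have rb := hq b hbH
      have ua := hun1 a ha.1 (hKne a (hH haH))
      have ub := hun1 b hb.1 (hKne b (hH hbH))
      exact h.pair_unit (by omega) hv0 he0 hUe hP hab hvP (by omega)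
  · push Not at hc
    have hun0 : ∀ v, (∀ k, X k ≠ v) → un G L X v = 0 := fun v hv => by
      have := hc v hv
      omega
    by_cases hK3 : ∃ u, (∀ k, X k ≠ u) ∧ 3 ≤ (K u).card
    · obtain ⟨u, hu, hu3⟩ := hK3
      refine h.comp_false2 hL hD hd hcore (K u) (fun v hv => ((hKmem u v).1 hv).1)
        (fun a ha b hb => ((hKmem u a).1 ha).2.symm.trans ((hKmem u b).1 hb).2) hu3
        (fun a ha => by rw [hun0 a ((hKmem u a).1 ha).1]; omega) fun a ha => ?_
      have h1 := hdg a ((hKmem u a).1 ha).1
      have h3 : ((K a).filter (G.Adj a)).card ≤ ((K u).filter (G.Adj a)).card :=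
        Finset.card_le_card (Finset.filter_subset_filter _ (hsubK u a ha))
      omega
    · push Not at hK3
      have hdf0 : ∀ v, (∀ k, X k ≠ v) → df G L X v = 0 := by
        intro v hv
        have h1 := hdg v hv
        have h2 := hself v hv
        have h3 := hK3 v hv
        have h4 := df_eq h.rim v
        have h5 := hun0 v hv
        omega
      obtain ⟨u1, hu1⟩ : R.Nonempty := Finset.card_pos.1 (by omega)
      have hu1' := (hRmem u1).1 hu1
      obtain ⟨z1, hz1, hz1'⟩ := hone u1 hu1' (by rw [hun0 u1 hu1']; omega)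
      obtain ⟨u2, hu2⟩ : (R \ K u1).Nonempty := by
        rw [← Finset.card_pos]
        have h1 := Finset.card_sdiff_add_card_eq_card
          (show K u1 ⊆ R from Finset.filter_subset _ _)
        have h2 := hK3 u1 hu1'
        omega
      rw [Finset.mem_sdiff] at hu2
      have hu2' := (hRmem u2).1 hu2.1
      obtain ⟨z2, hz2, hz2'⟩ := hone u2 hu2' (by rw [hun0 u2 hu2']; omega)
      have hz1o := ((hKmem u1 z1).1 hz1)
      have hz2o := ((hKmem u2 z2).1 hz2)
      have hz2n : z2 ∉ K u1 := fun hmem => hu2.2 ((hKmem u1 u2).2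
        ⟨hu2', ((hKmem u1 z2).1 hmem).2.trans hz2o.2.symm⟩)
      have hu1K : u1 ∈ K u1 := (hKmem u1 u1).2 ⟨hu1', SimpleGraph.Reachable.refl _⟩
      have hLd : L = 2 * d - 2 := by
        have h1 := hdg u1 hu1'
        have h2 := hself u1 hu1'
        have h3 := hK3 u1 hu1'
        have h4 := df_eq h.rim u1
        have h5 := hun0 u1 hu1'
        have h6 := hdf0 u1 hu1'
        omega
      have p1 : OP G X [u1, z1] u1 z1 := OP.pair hu1' hz1o.1 hz1'
      have p2 : OP G X [u2, z2] u2 z2 := OP.pair hu2' hz2o.1 hz2'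
      obtain ⟨i1, a1, b1, c1, -, -, f1, g1⟩ := h.pairflip (by omega) p1 hz1'.ne (i := 0)
        (alt_of_df h.rim (hdf0 u1 hu1') 0 3) (alt_of_df h.rim (hdf0 z1 hz1o.1) 0 3)
      obtain ⟨i2, a2, b2, c2, -, -, f2, g2⟩ := h.pairflip (by omega) p2 hz2'.ne (i := 4)
        (alt_of_df h.rim (hdf0 u2 hu2') 4 3) (alt_of_df h.rim (hdf0 z2 hz2o.1) 4 3)
      have := h.two p1.nd p1.ch p1.hd p1.lt p1.off p2.nd p2.ch p2.hd p2.lt p2.off (by
        intro x hx hx'
        simp only [List.mem_cons, List.not_mem_nil, or_false] at hx hx'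
        have hxK : x ∈ K u1 := by
          rcases hx with rfl | rfl
          · exact hu1K
          · exact hz1
        rcases hx' with rfl | rfl
        · exact hu2.2 hxK
        · exact hz2n hxK) (i := i1) (j := 2) (i' := i2) (j' := 2) two_pos two_pos (by omega)
          (by omega) c1 f1 c2 f2 (by
            have h7 : (1 : ZMod 2) + 1 = 0 := by decide
            linear_combination g1 + g2 + h7)
      simp at this

end Run7.h807
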