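import Mathlib
import Pool.Agent.Run7.h807.Wa1

set_option autoImplicit false

namespace Run7.h807

variable {V : Type*} {G : SimpleGraph V}

/-- a dense core off a longest bad cycle is separated from it by few vertices -/
theorem Top.sep2 [Fintype V] [DecidableEq V] [DecidableRel G.Adj] {σ : Sym2 V → ZMod 2}
    {s : ZMod 2} {L : ℕ} {X : ℕ → V} (h : Top G σ s L X) {η μ τ : ℕ}
    (hη : 2 ≤ η) (hμ : 2 * μ ≤ η + 2) (hμ3 : 3 ≤ μ) {S : Finset V} (hne : S.Nonempty)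
    (hS : ∀ v ∈ S, ∀ j, X j ≠ v) (hcon : ∀ v ∈ S, 2 * η - 1 ≤ (S.filter (G.Adj v)).card)
    (hτ : L - 1 < (τ + 1) * (μ + 2)) (hk : 2 * τ + 3 ≤ η + 1) :
    ∃ Z YS : Finset V, Z.card ≤ 2 * τ + 2 ∧ Z.card < L ∧ Z.card < YS.card ∧
      YS ⊆ S ∧ Sepa G YS ((Finset.range L).image X) Z := by
  classical
  have hL3 := h.rim.three
  obtain ⟨l, hl, hlS, hlen⟩ := core_cycle (G := G) σ (h := η) hη S hne hcon
  obtain ⟨Y, hY, hY0, hYl⟩ := rim_of_cyc hl
  obtain ⟨c, hc⟩ : ∃ c, c = l.length := ⟨_, rfl⟩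
  rw [← hc] at hY hY0 hlen
  have hoff : ∀ i j, X i ≠ Y j := fun i j => hS _ (hlS _ (hYl j)) i
  have hdiv : (L - 1) / (μ + 2) < τ + 1 := by
    rw [Nat.div_lt_iff_lt_mul (by omega)]
    exact hτ
  obtain ⟨Z, hZ, hZc⟩ : ∃ Z, Sepa G ((Finset.range c).image Y) ((Finset.range L).image X) Z ∧
      Z.card < 2 * ((L - 1) / (μ + 2)) + 3 := by
    by_contra hcon
    push Not at hcon
    have := h.dp_bound hY hY0 hoff (μ := μ) (by omega) (menger _ G rfl _ _ _ hcon)
    omega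
  refine ⟨Z, (Finset.range c).image Y, by omega, ?_, ?_, ?_, hZ⟩
  · have h1 := Nat.div_mul_le_self (L - 1) (μ + 2)
    obtain ⟨a, ha⟩ : ∃ a, a = (L - 1) / (μ + 2) := ⟨_, rfl⟩
    rw [← ha] at h1 hZc
    have h2 : a * 5 ≤ a * (μ + 2) := Nat.mul_le_mul_left _ (by omega)
    omega
  · rw [rim_card hY]
    omega
  · intro z hz
    rw [Finset.mem_image] at hz
    obtain ⟨k, _, rfl⟩ := hz
    exact hlS _ (hYl k)

variable [DecidableEq V] [DecidableRel G.Adj] [Fintype V]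

/-- a longest bad cycle is separated from the rest by at most 18 vertices -/
theorem Top.first_part2 {d : ℕ} (hdeg : ∀ v, d ≤ G.degree v)
    (hn : 2 * d + 1 ≤ Fintype.card V) (hd : 1152 ≤ d) {σ : Sym2 V → ZMod 2} {s : ZMod 2} {L : ℕ}
    {X : ℕ → V} (hX : Top G σ s L X) (hL2 : L + 2 ≤ 2 * d) :
    ∃ P Q Z : Finset V, Z.card ≤ 18 ∧ P.Nonempty ∧ Q.Nonempty ∧ Part G P Z ∧ Part G Q Z ∧
      (∀ z ∈ P, z ∉ Q) ∧ (∀ z, z ∈ Z ∨ z ∈ P ∨ z ∈ Q) ∧ (∀ a ∈ P, ∀ b ∈ Q, ¬ G.Adj a b) ∧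
      ∀ k, X k ∈ Q ∨ X k ∈ Z := by
  classical
  have hL3 := hX.rim.three
  have hXim : ∀ k, X k ∈ (Finset.range L).image X := fun k =>
    Finset.mem_image.2 ⟨k % L, Finset.mem_range.2 (Nat.mod_lt _ (by omega)),
      (hX.rim.modeq k).symm⟩
  by_cases hd4 : 1244 ≤ d
  · exact hX.first_part hdeg hn hd4 hL2
  obtain ⟨D, hDd⟩ : ∃ D, D = (9 * d - 1010) / 50 := ⟨_, rfl⟩
  obtain ⟨S, hne, hS, hcon⟩ : ∃ S : Finset V, S.Nonempty ∧ (∀ v ∈ S, ∀ j, X j ≠ v) ∧
      ∀ v ∈ S, D ≤ (S.filter (G.Adj v)).card := by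
    by_contra hno
    push Not at hno
    exact hX.heavy_false2 hdeg hL2 (by omega) (D := D) (by omega) (by omega) (by omega) hno
  obtain ⟨Z0, YS0, hZ1, hZ2, hZ3, -, hsep0⟩ := hX.sep2 (η := (D + 1) / 2)
    (μ := ((D + 1) / 2 + 2) / 2) (τ := 46) (by omega) (by omega) (by omega) hne hS (fun v hv => by
      have := hcon v hv
      omega) (by omega) (by omega)
  obtain ⟨P0, Q0, hP0ne, -, hPZ0, -, hPQ0, hall0, hadj0, hXQ0, -⟩ :=
    sepa_parts hsep0 hZ3 (by rw [rim_card hX.rim]; exact hZ2)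
  have hpP0 : Part G P0 Z0 := ⟨hPZ0, fun a ha b hab => by
    rcases hall0 b with g | g | g
    · exact Or.inr g
    · exact Or.inl g
    · exact absurd hab (hadj0 a ha b g)⟩
  have hXP0 : ∀ z ∈ P0, ∀ k, X k ≠ z := by
    intro z hz k hk
    rcases hXQ0 z (hk ▸ hXim k) with g | g
    · exact hPQ0 z hz g
    · exact hPZ0 z hz g
  -- second separation, with the denser core
  obtain ⟨ν, hν⟩ : ∃ ν, ν = (d - 93) / 4 := ⟨_, rfl⟩
  have hdiv' : (L - 1) / (ν + 2) < 9 := by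
    rw [Nat.div_lt_iff_lt_mul (by omega)]
    omega
  have hdegP := (hpP0.deg hdeg).1
  obtain ⟨Z, YS, hZ1', hZ2', hZ3', -, hsep⟩ := hX.sep (μ := ν) (by omega) hP0ne hXP0 (fun v hv => by
    have := hdegP v hv
    omega) (by omega)
  obtain ⟨P, Q, hPne, hQne, hPZ, hQZ, hPQ, hall, hadj, hXQ, -⟩ :=
    sepa_parts hsep hZ3' (by rw [rim_card hX.rim]; exact hZ2')
  refine ⟨P, Q, Z, by omega, hPne, hQne, ⟨hPZ, fun a ha b hab => ?_⟩, ⟨hQZ, fun a ha b hab => ?_⟩,
    hPQ, hall, hadj, fun k => hXQ _ (hXim k)⟩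
  · rcases hall b with g | g | g
    · exact Or.inr g
    · exact Or.inl g
    · exact absurd hab (hadj a ha b g)
  · rcases hall b with g | g | g
    · exact Or.inr g
    · exact absurd hab.symm (hadj b g a ha)
    · exact Or.inl g

/-- Bondy's conjecture (dual form) for 19-connected graphs -/
theorem high_good3 {d : ℕ}
    (hdeg : ∀ v, d ≤ G.degree v) (hn : 2 * d ≤ Fintype.card V) (hd : 1152 ≤ d)
    (hconn : ∀ S : Finset V, S.card < 19 → (G.induce ((↑S : Set V)ᶜ)).Connected) :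
    Good G (2 * d - 1) := by
  classical
  rcases Nat.eq_or_lt_of_le hn with heq | hlt
  · exact dirac_good (by omega) heq.symm hdeg fun S hS => hconn S (by omega)
  intro σ t hU
  have h2 : Two G := two_of_conn fun S hS => hconn S (by omega)
  by_cases hbad : ∃ l, Cyc G σ (t + 1) l
  swap
  · push Not at hbad
    exact good_of_no_bad hdeg (by omega) (by omega) h2 hbad
  exfalso
  obtain ⟨l, hl, hmax⟩ := exists_max_cyc hbad
  obtain ⟨X, hX⟩ := top_of_cyc hl hmax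
  obtain ⟨L, hL⟩ : ∃ L, L = l.length := ⟨_, rfl⟩
  rw [← hL] at hX
  have hL2 : L + 2 ≤ 2 * d := by
    by_contra hlt
    obtain ⟨g1, g2, g3, x, y, g4, g5, g6, g7⟩ := hl
    have := hU l x y g1 g2 g4 g5 g6 g3 (by omega)
    rw [g7] at this
    have h8 : (1 : ZMod 2) = 0 := by linear_combination this
    exact absurd h8 (by decide)
  obtain ⟨P, Q, Z, hZ18, hPne, hQne, hpP, hpQ, hPQ, -, -, -⟩ :=
    hX.first_part2 hdeg (by omega) hd hL2
  exact conn_split (hconn Z (by omega)) hPne hQne hpP hpQ hPQ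

/-- a bad cycle yields three near-cliques -/
theorem trio_of_bad7 {d : ℕ} (hdeg : ∀ v, d ≤ G.degree v) (hn : 2 * d + 1 ≤ Fintype.card V)
    (hn4 : Fintype.card V ≤ 4 * d) (hd : 1152 ≤ d)
    (hconn : ∀ S : Finset V, S.card < 3 → (G.induce ((↑S : Set V)ᶜ)).Connected)
    {σ : Sym2 V → ZMod 2} {t : ZMod 2} (hU : Uni G (2 * d - 1) σ t)
    (hbad : ∃ l, Cyc G σ (t + 1) l) :
    ∃ (L : ℕ) (l : List V) (B Z : Fin 3 → Finset V), Cyc G σ (t + 1) l ∧ Uni G (L + 1) σ t ∧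
      L + 2 ≤ 2 * d ∧ 3 ≤ L ∧ (∀ i, S.NCk G d 58 85 (B i) (Z i)) ∧
      ∀ i j, i ≠ j → (∀ x ∈ B i, x ∉ B j) ∧ ∀ a ∈ B i, ∀ b ∈ B j, ¬ G.Adj a b := by
  classical
  have h2 : Two G := two_of_conn fun S hS => hconn S (by omega)
  obtain ⟨l, hl, hmax⟩ := exists_max_cyc hbad
  obtain ⟨X, hX⟩ := top_of_cyc hl hmax
  obtain ⟨L, hL⟩ : ∃ L, L = l.length := ⟨_, rfl⟩
  rw [← hL] at hX
  have hL2 : L + 2 ≤ 2 * d := by
    by_contra hlt
    obtain ⟨g1, g2, g3, x, y, g4, g5, g6, g7⟩ := hl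
    have := hU l x y g1 g2 g4 g5 g6 g3 (by omega)
    rw [g7] at this
    have h8 : (1 : ZMod 2) = 0 := by linear_combination this
    exact absurd h8 (by decide)
  have hUL : Uni G (L + 1) σ t := uni_of_max (L := L) (by rw [hL]; exact hmax)
  have hL3 := hX.rim.three
  obtain ⟨P, Q, Z, hZ18, hPne, hQne, hpP, hpQ, hPQ, hall, hadj, hXQ⟩ :=
    hX.first_part2 hdeg hn (by omega) hL2
  have hPZ := hpP.1
  have hQZ := hpQ.1
  have hPc := (hpP.deg hdeg).2 hPne
  have hQc := (hpQ.deg hdeg).2 hQne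
  have hsum : P.card + Q.card + Z.card ≤ Fintype.card V := by
    have h1 : Disjoint P Q := Finset.disjoint_left.2 hPQ
    have h3 : Disjoint (P ∪ Q) Z := by
      rw [Finset.disjoint_left]
      intro z hz
      rw [Finset.mem_union] at hz
      rcases hz with hz | hz
      · exact hPZ z hz
      · exact hQZ z hz
    rw [← Finset.card_union_of_disjoint h1, ← Finset.card_union_of_disjoint h3]
    exact Finset.card_le_univ _
  obtain ⟨B1, Z1, hB1P, hB1n, hB1p, hZ1c, hb1⟩ := good_partu (z := 18) (q := 4) (r := 18)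
    (w := 68) hdeg hpP hZ18 hPne (by omega) (by omega) (by norm_num) (by norm_num) (by norm_num)
    (by norm_num) (by norm_num) (by omega)
  have hb1c := (hB1p.deg hdeg).2 hB1n
  have hB1le := Finset.card_le_card hB1P
  have hQS : ¬ Sol G Q (18 + 5) := by
    intro hQS
    have hbQ : Blob G Q (min (Q.card - 18) (d + 68)) (3 * (4 - 1)) 18 := sol_blobu hdeg hpQ
      (z := 18) hZ18 hQne hQS (by omega) (by norm_num) (by norm_num) (by omega)
    have hLQ : L ≤ Q.card + Z.card := by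
      have h1 : (Finset.range L).image X ⊆ Q ∪ Z := by
        intro x hx
        rw [Finset.mem_image] at hx
        obtain ⟨k, -, rfl⟩ := hx
        rw [Finset.mem_union]
        exact hXQ k
      have h3 := (Finset.card_le_card h1).trans (Finset.card_union_le _ _)
      rwa [rim_card hX.rim] at h3
    exact pair_false' h2 hconn hl hUL hL3 hb1 hbQ (fun z hz hz' => hPQ z (hB1P hz) hz')
      (by omega) (by omega) (by omega) (by omega) (by omega) (by omega) (by omega) (by omega)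
      (by omega)
  obtain ⟨T, Q1, Q2, hT, hs1, hs2, hn1, hn2, hd12, hna12, hp1, hp2⟩ := hpQ.split hQS
  have hZT := Finset.card_union_le Z T
  have hq1 := (hp1.deg hdeg).2 hn1
  have hq2 := (hp2.deg hdeg).2 hn2
  have hq12 := card_two_parts hs1 hs2 hd12
  obtain ⟨B2, Z2, hB2Q, hB2n, hB2p, hZ2c, hb2⟩ := good_partu (z := 41) (q := 3) (r := 12)
    (w := 57) hdeg hp1 (by omega) hn1 (by omega) (by omega) (by norm_num) (by norm_num)
    (by norm_num) (by norm_num) (by norm_num) (by omega)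
  obtain ⟨B3, Z3, hB3Q, hB3n, hB3p, hZ3c, hb3⟩ := good_partu (z := 41) (q := 3) (r := 12)
    (w := 57) hdeg hp2 (by omega) hn2 (by omega) (by omega) (by norm_num) (by norm_num)
    (by norm_num) (by norm_num) (by norm_num) (by omega)
  have hb2c := (hB2p.deg hdeg).2 hB2n
  have hb3c := (hB3p.deg hdeg).2 hB3n
  have hB2le := Finset.card_le_card hB2Q
  have hB3le := Finset.card_le_card hB3Q
  have hd12' : ∀ z ∈ B1, z ∉ B2 := fun z hz hz' => hPQ z (hB1P hz) (hs1 (hB2Q hz'))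
  have hd13' : ∀ z ∈ B1, z ∉ B3 := fun z hz hz' => hPQ z (hB1P hz) (hs2 (hB3Q hz'))
  have hd23' : ∀ z ∈ B2, z ∉ B3 := fun z hz hz' => hd12 z (hB2Q hz) (hB3Q hz')
  have hn12' : ∀ a ∈ B1, ∀ b ∈ B2, ¬ G.Adj a b := fun a ha b hb =>
    hadj a (hB1P ha) b (hs1 (hB2Q hb))
  have hn13' : ∀ a ∈ B1, ∀ b ∈ B3, ¬ G.Adj a b := fun a ha b hb =>
    hadj a (hB1P ha) b (hs2 (hB3Q hb))
  have hn23' : ∀ a ∈ B2, ∀ b ∈ B3, ¬ G.Adj a b := fun a ha b hb =>
    hna12 a (hB2Q ha) b (hB3Q hb)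
  have hp12 : min (B1.card - 18) (d + 68) + min (B2.card - 12) (d + 57) ≤ L := by
    by_contra hlt
    exact pair_false' h2 hconn hl hUL hL3 hb1 hb2 hd12' (by omega) (by omega) (by omega)
      (by omega) (by omega) (by omega) (by omega) (by omega) (by omega)
  have hp13 : min (B1.card - 18) (d + 68) + min (B3.card - 12) (d + 57) ≤ L := by
    by_contra hlt
    exact pair_false' h2 hconn hl hUL hL3 hb1 hb3 hd13' (by omega) (by omega) (by omega)
      (by omega) (by omega) (by omega) (by omega) (by omega) (by omega)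
  refine ⟨L, l, ![B1, B2, B3], ![Z1, Z2, Z3], hl, hUL, hL2, hL3, ?_, ?_⟩
  · intro i
    fin_cases i
    · exact ⟨hB1n, hB1p, by simp only [Fin.zero_eta, Matrix.cons_val_zero]; omega,
        by simp only [Fin.zero_eta, Matrix.cons_val_zero]; omega⟩
    · exact ⟨hB2n, hB2p, by simp only [Fin.mk_one, Matrix.cons_val_one, Matrix.cons_val_zero]; omega,
        by simp only [Fin.mk_one, Matrix.cons_val_one, Matrix.cons_val_zero]; omega⟩
    · exact ⟨hB3n, hB3p, by simp only [Fin.reduceFinMk, Matrix.cons_val]; omega,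
        by simp only [Fin.reduceFinMk, Matrix.cons_val]; omega⟩
  · intro i j hij
    fin_cases i <;> fin_cases j
    · exact absurd rfl hij
    · exact ⟨hd12', hn12'⟩
    · exact ⟨hd13', hn13'⟩
    · exact ⟨fun x hx hx' => hd12' x hx' hx, fun a ha b hb hab => hn12' b hb a ha hab.symm⟩
    · exact absurd rfl hij
    · exact ⟨hd23', hn23'⟩
    · exact ⟨fun x hx hx' => hd13' x hx' hx, fun a ha b hb hab => hn13' b hb a ha hab.symm⟩
    · exact ⟨fun x hx hx' => hd23' x hx' hx, fun a ha b hb hab => hn23' b hb a ha hab.symm⟩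
    · exact absurd rfl hij

/-- Bondy's conjecture (dual form) for `n ≤ 4 δ` and `δ ≥ 1152` -/
theorem large_good8 {d : ℕ} (hdeg : ∀ v, d ≤ G.degree v) (hn : 2 * d ≤ Fintype.card V)
    (hn4 : Fintype.card V ≤ 4 * d) (hd : 1152 ≤ d)
    (hconn : ∀ S : Finset V, S.card < 3 → (G.induce ((↑S : Set V)ᶜ)).Connected) :
    Good G (2 * d - 1) := by
  rcases Nat.eq_or_lt_of_le hn with heq | hlt
  · exact dirac_good (by omega) heq.symm hdeg fun S hS => hconn S (by omega)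
  intro σ t hU
  have h2 : Two G := two_of_conn fun S hS => hconn S (by omega)
  by_cases hbad : ∃ l, Cyc G σ (t + 1) l
  swap
  · push Not at hbad
    exact good_of_no_bad hdeg (by omega) (by omega) h2 hbad
  exfalso
  obtain ⟨L, l, B, Z, hl, hUL, hL2, hL3, hcl, hdn⟩ := trio_of_bad7 hdeg (by omega) hn4 (by omega)
    hconn hU hbad
  exact S.Trio.absurd (κ := 58) (β := 85) (B := B) (Z := Z)
    ⟨hcl, fun i j hij => (hdn i j hij).1, fun i j hij => (hdn i j hij).2⟩ hdeg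
    ⟨by omega⟩ h2 hconn hl hUL hL2 hL3

end Run7.h807
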