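import Mathlib
import Pool.Agent.Run7.h807.Wb1

set_option autoImplicit false

namespace Run7.h807

variable {V : Type*} {G : SimpleGraph V} [DecidableEq V] [DecidableRel G.Adj] [Fintype V]

/-- Bondy's conjecture (dual form): both ranges -/
theorem both_good {d : ℕ} (hdeg : ∀ v, d ≤ G.degree v) (hn : 2 * d ≤ Fintype.card V)
    (hd : 27060 ≤ d ∨ (1152 ≤ d ∧ Fintype.card V ≤ 4 * d))
    (hconn : ∀ S : Finset V, S.card < 3 → (G.induce ((↑S : Set V)ᶜ)).Connected) :
    Good G (2 * d - 1) := by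
  rcases hd with hd | ⟨hd, hn4⟩
  · exact all_good4 hdeg hn hd hconn
  · exact large_good8 hdeg hn hn4 hd hconn

end Run7.h807
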